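import Mathlib

set_option autoImplicit false

open scoped RealInnerProductSpace
open Real

namespace Pool.Agent.Lib.MP_ee7495_gt.Y

/-- Euclidean three-space. -/
abbrev E := EuclideanSpace ℝ (Fin 3)

/-- The vector with the given coordinates. -/
noncomputable def vec (x y z : ℝ) : E := !₂[x, y, z]

/-- Cross product. -/
noncomputable def cross (u v : E) : E :=
  vec (u 1 * v 2 - u 2 * v 1) (u 2 * v 0 - u 0 * v 2) (u 0 * v 1 - u 1 * v 0)

/-- Rotation by the angle `t` about the axis `c` (Rodrigues formula). -/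
noncomputable def rot (c : E) (t : ℝ) (z : E) : E :=
  cos t • z + (sin t / ‖c‖) • cross c z + ((1 - cos t) * ⟪c, z⟫ / ‖c‖ ^ 2) • c

/-- For a unit vector `e`: the unit normal `N` of `e` with `⟪c, N × e⟫ = 1`. -/
noncomputable def coneN (c e : E) : E :=
  (‖c‖ ^ 2 - ⟪c, e⟫ ^ 2)⁻¹ • (cross e c + √(‖c‖ ^ 2 - ⟪c, e⟫ ^ 2 - 1) • (c - ⟪c, e⟫ • e))

/-- Unit tangent of the geodesic of the cone with axis `c`, at azimuth `t` before direction `e`. -/
noncomputable def coneV (c e : E) (t : ℝ) : E :=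
  rot c (-t) (cos (t / ‖c‖) • e - sin (t / ‖c‖) • coneN c e)

/-- The length function of nine variables `(y, b₁, b₂, e, r, Δ, ω, η, χ)`. -/
noncomputable def ell (z : Fin 9 → ℝ) : ℝ :=
  let a : E := vec 0 (z 0) 1
  let f : E := vec 0 1 (-z 0)
  let b : E := vec (z 1) (z 2) (-1)
  let c : E := vec (-z 1) (z 2) (-1)
  let i : E := vec (-1) 0 0
  let j : E := vec 0 (cos (z 6)) (-sin (z 6))
  let k : E := vec 0 (sin (z 6)) (cos (z 6))
  let P : E := (sin (z 3) / ‖a‖) • a + cos (z 3) • (sin (z 4) • i + (cos (z 4) / ‖a‖) • f)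
  let T : E := cos (z 7) • k + sin (z 7) • (cos (z 8) • i + sin (z 8) • j)
  let U : E := cos (z 7) • k + sin (z 7) • (cos (z 8) • i - sin (z 8) • j)
  2 * z 4 * cos (z 3) + ‖a‖ * sin (z 3) + 2 * z 8 * sin (z 7) + 2 * ⟪b, P - T⟫ +
    2 * ⟪a, coneV c U (z 5)⟫ - 2 * cos (z 7) * ⟪a, k⟫

/-- Approximate critical point. -/
noncomputable def z0 : Fin 9 → ℝ :=
  ![1.015191099, 0.823130967, -0.193792718, -0.205362636, 0.512207581, 0.261980389,
    0.260592902, 0.722470891, 0.230773213]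

end Pool.Agent.Lib.MP_ee7495_gt.Y
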