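import Mathlib
import Pool.Agent.Lib.MP_ee7495_gt.Y.Ell

-- part Pool.Agent.Lib.MP_ee7495_gt.Y.TM
section

/-! Graded second order Taylor models with biased natural number coefficients (definitions). -/

set_option autoImplicit false

namespace Pool.Agent.Lib.MP_ee7495_gt.Y

/-- Force a natural number. -/
noncomputable def frc (n : ℕ) (k : ℕ → Bool) : Bool :=
  Nat.rec (k 0) (fun m _ => k (Nat.succ m)) n

/-- Force a natural number, fail on zero. -/
noncomputable def frp (n : ℕ) (k : ℕ → Bool) : Bool :=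
  Nat.rec false (fun m _ => k (Nat.succ m)) n

theorem frc_eq (n : ℕ) (k : ℕ → Bool) : frc n k = k n := by cases n <;> rfl

theorem frp_true {n : ℕ} {k : ℕ → Bool} (h : frp n k = true) : 0 < n ∧ k n = true := by
  cases n with
  | zero => exact absurd h (by simp [frp])
  | succ m => exact ⟨Nat.succ_pos m, h⟩

/-- Lists of naturals. -/
inductive NL : Type
  | nil : NL
  | cons (a : ℕ) (t : NL) : NL

/-- Lists of lists of naturals. -/
inductive NLL : Type
  | nil : NLL
  | cons (a : NL) (t : NLL) : NLL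

/-- Value of a biased number: bias `2 ^ 68`, scale `2 ^ 60`. -/
noncomputable def val (x : ℕ) : ℝ := ((x : ℝ) - 2 ^ 68) / 2 ^ 60

/-- Value of a magnitude. -/
noncomputable def mag (x : ℕ) : ℝ := (x : ℝ) / 2 ^ 60

/-- Distance from the bias. -/
def ab (x : ℕ) : ℕ :=
  Nat.add (Nat.sub x 295147905179352825856) (Nat.sub 295147905179352825856 x)

/-- Upper bound for the product of two magnitudes. -/
def um (x y : ℕ) : ℕ := Nat.add (Nat.shiftRight (Nat.mul x y) 60) 1

/-- Rounded product of two biased numbers (to be guarded by `frp`). -/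
def bm (a x : ℕ) : ℕ :=
  Nat.shiftRight (Nat.sub (Nat.add (Nat.mul a x) 87452568298681185110087274109964430344192)
    (Nat.shiftLeft (Nat.add a x) 68)) 60

/-- Rounded `a y + b x`, where `K = a + b`. -/
def bm2 (a b K x y : ℕ) : ℕ :=
  Nat.shiftRight (Nat.sub (Nat.add (Nat.add (Nat.mul a y) (Nat.mul b x))
    174564854230441431756711173612497092476928)
    (Nat.shiftLeft (Nat.add K (Nat.add x y)) 68)) 60

/-- Rounded `a y + b x + u z`, where `K = a + b + u`. -/
def bm3 (a b u K x y z : ℕ) : ℕ :=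
  Nat.shiftRight (Nat.sub (Nat.add (Nat.add (Nat.mul a y) (Nat.mul b x))
    (Nat.add (Nat.mul u z) 261677140162201678403335073115029754609664))
    (Nat.shiftLeft (Nat.add (Nat.add K z) (Nat.add x y)) 68)) 60

/-- Length. -/
def NL.len : NL → ℕ
  | NL.nil => 0
  | NL.cons _ t => t.len + 1

/-- Sum of the distances from the bias. -/
def NL.asum : NL → ℕ
  | NL.nil => 0
  | NL.cons a t => ab a + t.asum

/-- Sum of the distances from the bias. -/
def NLL.asum : NLL → ℕ
  | NLL.nil => 0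
  | NLL.cons a t => a.asum + t.asum

/-- The linear form of a list. -/
noncomputable def NL.dot : NL → (ℕ → ℝ) → ℝ
  | NL.nil, _ => 0
  | NL.cons a t, δ => val a * δ 0 + t.dot (fun i => δ (i + 1))

/-- The bilinear form of a list of rows. -/
noncomputable def NLL.quad : NLL → (ℕ → ℝ) → (ℕ → ℝ) → ℝ
  | NLL.nil, _, _ => 0
  | NLL.cons r t, ε, δ => ε 0 * r.dot δ + t.quad (fun i => ε (i + 1)) δ

/-- Apply `f` entrywise. -/
noncomputable def map1 (f : ℕ → ℕ) (xs : NL) : (NL → ℕ → Bool) → Bool :=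
  NL.rec (fun k => k NL.nil 0) (fun x _ ih k =>
    frp (f x) fun v => ih fun r s => frc (Nat.add s (ab v)) fun s => k (NL.cons v r) s) xs

/-- Apply `f` entrywise to two lists of the same length. -/
noncomputable def map2 (f : ℕ → ℕ → ℕ) (xs : NL) : NL → (NL → ℕ → Bool) → Bool :=
  NL.rec (fun ys k => NL.rec (k NL.nil 0) (fun _ _ _ => false) ys) (fun x _ ih ys k =>
    NL.rec false (fun y ys _ => frp (f x y) fun v => ih ys fun r s =>
      frc (Nat.add s (ab v)) fun s => k (NL.cons v r) s) ys) xs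

/-- Apply `f` entrywise to three lists of the same length. -/
noncomputable def map3 (f : ℕ → ℕ → ℕ → ℕ) (xs : NL) : NL → NL → (NL → ℕ → Bool) → Bool :=
  NL.rec (fun ys zs k => NL.rec (NL.rec (k NL.nil 0) (fun _ _ _ => false) zs)
    (fun _ _ _ => false) ys) (fun x _ ih ys zs k =>
    NL.rec false (fun y ys _ => NL.rec false (fun z zs _ => frp (f x y z) fun v =>
      ih ys zs fun r s => frc (Nat.add s (ab v)) fun s => k (NL.cons v r) s) zs) ys) xs

/-- Apply `f` entrywise to a matrix. -/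
noncomputable def mapq1 (f : ℕ → ℕ) (xs : NLL) : (NLL → ℕ → Bool) → Bool :=
  NLL.rec (fun k => k NLL.nil 0) (fun x _ ih k =>
    map1 f x fun row s1 => ih fun r s => frc (Nat.add s s1) fun s => k (NLL.cons row r) s) xs

/-- Apply `f` entrywise to two matrices of the same shape. -/
noncomputable def mapq2 (f : ℕ → ℕ → ℕ) (xs : NLL) : NLL → (NLL → ℕ → Bool) → Bool :=
  NLL.rec (fun ys k => NLL.rec (k NLL.nil 0) (fun _ _ _ => false) ys) (fun x _ ih ys k =>
    NLL.rec false (fun y ys _ => map2 f x y fun row s1 => ih ys fun r s =>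
      frc (Nat.add s s1) fun s => k (NLL.cons row r) s) ys) xs

/-- Rows `a ys_i + b xs_i + us_i bl`; `K = a + b`. -/
noncomputable def mulq (a b K : ℕ) (bl : NL) (xs : NLL) :
    NLL → NL → (NLL → ℕ → Bool) → Bool :=
  NLL.rec (fun ys us k => NLL.rec (NL.rec (k NLL.nil 0) (fun _ _ _ => false) us)
    (fun _ _ _ => false) ys) (fun x _ ih ys us k =>
    NLL.rec false (fun y ys _ => NL.rec false (fun u us _ => frc (Nat.add K u) fun K2 =>
      map3 (bm3 a b u K2) x y bl fun row s1 => ih ys us fun r s =>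
        frc (Nat.add s s1) fun s => k (NLL.cons row r) s) us) ys) xs

/-- Rows `a1 qs_i + (a2 us_i) l`. -/
noncomputable def compq (a1 a2 : ℕ) (l : NL) (qs : NLL) : NL → (NLL → ℕ → Bool) → Bool :=
  NLL.rec (fun us k => NL.rec (k NLL.nil 0) (fun _ _ _ => false) us) (fun y _ ih us k =>
    NL.rec false (fun u us _ => frp (bm a2 u) fun w => frc (Nat.add a1 w) fun K =>
      map2 (bm2 a1 w K) l y fun row s1 => ih us fun r s =>
        frc (Nat.add s s1) fun s => k (NLL.cons row r) s) us) qs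

/-- A Taylor model: constant, linear and quadratic part, their sizes, three error terms. -/
structure TM : Type where
  c : ℕ
  l : NL
  q : NLL
  b1 : ℕ
  b2 : ℕ
  e0 : ℕ
  e1 : ℕ
  e2 : ℕ

/-- All coordinates are bounded by `t`. -/
def Bd (δ : ℕ → ℝ) (t : ℝ) : Prop := ∀ i, |δ i| ≤ t

/-- Number of rows. -/
def NLL.rows : NLL → ℕ
  | NLL.nil => 0
  | NLL.cons _ t => t.rows + 1

/-- All rows have length at most nine. -/
def NLL.short : NLL → Prop
  | NLL.nil => True
  | NLL.cons a t => a.len ≤ 9 ∧ t.short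

/-- The graded enclosure relation. -/
structure G (T : TM) (f : (ℕ → ℝ) → ℝ) : Prop where
  len : T.l.len ≤ 9
  rows : T.q.rows ≤ 9
  short : T.q.short
  hb1 : T.l.asum ≤ T.b1
  hb2 : T.q.asum ≤ T.b2
  h0 : |f 0 - val T.c| ≤ mag T.e0
  h12 : ∃ ℓ : (ℕ → ℝ) →ₗ[ℝ] ℝ, (∀ δ t, Bd δ t → |ℓ δ - T.l.dot δ| ≤ mag T.e1 * t) ∧
    ∀ δ t, Bd δ t → t ≤ 1 → |f δ - f 0 - ℓ δ - T.q.quad δ δ| ≤ mag T.e2 * t ^ 2

/-- Exact sum, difference and negative of biased numbers (to be guarded by `frp`). -/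
def ba (x y : ℕ) : ℕ := Nat.sub (Nat.add x y) 295147905179352825856
def bs (x y : ℕ) : ℕ := Nat.sub (Nat.add x 295147905179352825856) y
def bn (x : ℕ) : ℕ := Nat.sub 590295810358705651712 x

namespace TM

/-- Sum (`f = ba`) or difference (`f = bs`). -/
noncomputable def lin (f : ℕ → ℕ → ℕ) (a b : TM) (k : TM → Bool) : Bool :=
  TM.rec (fun ac al aq _ _ ae0 ae1 ae2 => TM.rec (fun bc bl bq _ _ be0 be1 be2 =>
    frp (f ac bc) fun c => map2 f al bl fun l b1 => mapq2 f aq bq fun q b2 =>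
    frc (Nat.add ae0 be0) fun e0 => frc (Nat.add ae1 be1) fun e1 =>
    frc (Nat.add ae2 be2) fun e2 => k ⟨c, l, q, b1, b2, e0, e1, e2⟩) b) a

noncomputable def neg (a : TM) (k : TM → Bool) : Bool :=
  TM.rec (fun ac al aq _ _ e0 e1 e2 => frp (bn ac) fun c => map1 bn al fun l b1 =>
    mapq1 bn aq fun q b2 => k ⟨c, l, q, b1, b2, e0, e1, e2⟩) a

/-- Add the constant `val K`. -/
noncomputable def addc (K : ℕ) (a : TM) (k : TM → Bool) : Bool :=
  TM.rec (fun ac l q b1 b2 e0 e1 e2 => frp (ba ac K) fun c => k ⟨c, l, q, b1, b2, e0, e1, e2⟩) a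

/-- Multiply by the constant `val K`. -/
noncomputable def smul (K : ℕ) (a : TM) (k : TM → Bool) : Bool :=
  TM.rec (fun ac al aq _ _ ae0 ae1 ae2 => frp (bm K ac) fun c => map1 (bm K) al fun l b1 =>
    mapq1 (bm K) aq fun q b2 => frc (ab K) fun A =>
    frc (Nat.add (um A ae0) 1) fun e0 => frc (Nat.add (um A ae1) 9) fun e1 =>
    frc (Nat.add (um A ae2) 81) fun e2 => k ⟨c, l, q, b1, b2, e0, e1, e2⟩) a

noncomputable def mul (a b : TM) (k : TM → Bool) : Bool :=
  TM.rec (fun ac al aq ab1 ab2 ae0 ae1 ae2 => TM.rec (fun bc bl bq bb1 bb2 be0 be1 be2 =>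
    frc (Nat.add ac bc) fun K => frp (bm ac bc) fun c =>
    map2 (bm2 ac bc K) al bl fun l b1 => mulq ac bc K bl aq bq al fun q b2 =>
    frc (Nat.add (ab ac) ae0) fun A0 => frc (Nat.add (ab bc) be0) fun B0 =>
    frc (Nat.add ab1 ae1) fun A1 => frc (Nat.add bb2 be2) fun B2 =>
    frc (Nat.add (Nat.shiftRight (Nat.add (Nat.mul A0 be0) (Nat.mul ae0 B0)) 60) 2) fun e0 =>
    frc (Nat.add (Nat.shiftRight (Nat.add (Nat.add (Nat.mul A0 be1) (Nat.mul ae0 bb1))
      (Nat.add (Nat.mul B0 ae1) (Nat.mul be0 ab1))) 60) 10) fun e1 =>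
    frc (Nat.add (Nat.shiftRight (Nat.add (Nat.add (Nat.add (Nat.mul A0 be2) (Nat.mul ae0 bb2))
      (Nat.add (Nat.mul B0 ae2) (Nat.mul be0 ab2))) (Nat.add (Nat.add (Nat.mul A1 (Nat.add be1 B2))
      (Nat.mul ae1 bb1)) (Nat.mul (Nat.add ab2 ae2) (Nat.add (Nat.add bb1 be1) B2)))) 60) 82)
      fun e2 => k ⟨c, l, q, b1, b2, e0, e1, e2⟩) b) a

/-- Total variation bound of the nonconstant part. -/
def rad (a : TM) : ℕ := Nat.add (Nat.add a.b1 a.e1) (Nat.add a.b2 a.e2)

/-- Composition with a function of one variable, given by enclosures `a_i ± d_i` of its Taylor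
coefficients and a bound `M` for the cubic remainder. -/
noncomputable def comp (a0 a1 a2 d0 d1 d2 M : ℕ) (a : TM) (k : TM → Bool) : Bool :=
  TM.rec (fun _ al aq ab1 ab2 _ ae1 ae2 =>
    map1 (bm a1) al fun l b1 => compq a1 a2 al aq al fun q b2 =>
    frc (Nat.add (ab a1) d1) fun A1 => frc (Nat.add ae1 (Nat.add ab2 ae2)) fun R =>
    frc (Nat.add ab1 R) fun S =>
    frc (Nat.add (Nat.shiftRight (Nat.add (Nat.mul A1 ae1) (Nat.mul d1 ab1)) 60) 10) fun e1 =>
    frc (Nat.add (Nat.shiftRight (Nat.add (Nat.add (Nat.add (Nat.mul d1 ab2) (Nat.mul A1 ae2))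
      (Nat.mul (Nat.add d2 (um M S)) (um S S)))
      (Nat.add (Nat.mul (ab a2) (um R (Nat.add S ab1))) (Nat.mul 9 ab1))) 60) 82) fun e2 =>
    k ⟨a0, l, q, b1, b2, d0, e1, e2⟩) a

end TM

/-- One Horner step `1 - y h / d`. -/
def hs (y d h : ℕ) : ℕ :=
  Nat.sub 1152921504606846976 (Nat.div (Nat.shiftRight (Nat.mul y h) 60) d)

/-- Cosine from the square `y` of the argument. -/
def cosN (y : ℕ) : ℕ := hs y 2 (hs y 12 (hs y 30 (hs y 56 (hs y 90 (hs y 132 (hs y 182 (hs y 240
  (hs y 306 (hs y 380 1152921504606846976)))))))))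

/-- Sine from the argument `x` and its square `y`. -/
def sinN (x y : ℕ) : ℕ := Nat.shiftRight (Nat.mul x (hs y 6 (hs y 20 (hs y 42 (hs y 72 (hs y 110
  (hs y 156 (hs y 210 (hs y 272 (hs y 342 (hs y 420 1152921504606846976))))))))))) 60

/-- One Newton step for the square root of `N`. -/
def ns (N r : ℕ) : ℕ := Nat.shiftRight (Nat.add r (Nat.div N r)) 1

namespace TM

/-- Cosine and sine. -/
noncomputable def cs (a : TM) (k : TM → TM → Bool) : Bool :=
  frc a.c fun c => frc (ab c) fun x => cond (Nat.ble x 1152921504606846976)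
    (frc (Nat.shiftRight (Nat.mul x x) 60) fun y => frc (cosN y) fun co => frc (sinN x y) fun si =>
      frc (Nat.add 295147905179352825856 co) fun cb =>
      frc (cond (Nat.ble 295147905179352825856 c) (Nat.add 295147905179352825856 si)
        (Nat.sub 295147905179352825856 si)) fun sb =>
      frc (Nat.add a.e0 64) fun d => frc (bn sb) fun nsb =>
      frc (Nat.sub 295147905179352825856 (Nat.shiftRight co 1)) fun c2 =>
      frc (Nat.shiftRight (Nat.sub 885443715538058477568 sb) 1) fun s2 =>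
      comp cb nsb c2 d d d 192153584101141163 a fun u =>
      comp sb cb s2 d d d 192153584101141163 a fun v => k u v) false

/-- Lower bound (a magnitude) of the range, at least one quarter, and an upper bound of its
inverse. -/
noncomputable def low (a : TM) (k : ℕ → ℕ → Bool) : Bool :=
  frc (Nat.sub a.c 295147905179352825856) fun C =>
  frc (Nat.sub C (Nat.add a.e0 a.rad)) fun lo => cond (Nat.ble 288230376151711744 lo)
    (frc (Nat.add (Nat.div 1329227995784915872903807060280344576 lo) 1) fun il => k C il) false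

/-- Inverse. -/
noncomputable def inv (a : TM) (k : TM → Bool) : Bool :=
  low a fun C il => frc (Nat.div 1329227995784915872903807060280344576 C) fun i1 =>
    frc (Nat.shiftRight (Nat.mul i1 i1) 60) fun i2 => frc (um il il) fun j2 =>
    frc (um j2 il) fun j3 => frc (um j2 j2) fun j4 =>
    frc (Nat.add 295147905179352825856 i1) fun a0 =>
    frc (Nat.sub 295147905179352825856 i2) fun a1 =>
    frc (Nat.add 295147905179352825856 (Nat.shiftRight (Nat.mul i2 i1) 60)) fun a2 =>
    frc (Nat.add (um a.e0 j2) 64) fun d0 => frc (Nat.add (um (Nat.mul 2 a.e0) j3) 64) fun d1 =>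
    frc (Nat.add (um (Nat.mul 3 a.e0) j4) 64) fun d2 => comp a0 a1 a2 d0 d1 d2 j4 a k

/-- Square root. -/
noncomputable def sqrt (a : TM) (k : TM → Bool) : Bool :=
  low a fun C il => frc (Nat.shiftLeft C 60) fun N =>
    frc (ns N 1152921504606846976) fun r => frc (ns N r) fun r => frc (ns N r) fun r =>
    frc (ns N r) fun r => frc (ns N r) fun r => frc (ns N r) fun r => frc (ns N r) fun r =>
    cond (Nat.ble (Nat.mul (Nat.sub r 1) (Nat.sub r 1)) N &&
        Nat.ble N (Nat.mul (Nat.add r 1) (Nat.add r 1)))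
      (frc (Nat.div 1329227995784915872903807060280344576 r) fun i1 =>
        frc (Nat.add il 1152921504606846976) fun j => frc (um il j) fun j2 =>
        frc (um il j2) fun j3 =>
        frc (Nat.add 295147905179352825856 r) fun a0 =>
        frc (Nat.add 295147905179352825856 (Nat.shiftRight i1 1)) fun a1 =>
        frc (Nat.sub 295147905179352825856
          (Nat.shiftRight (Nat.mul i1 (Nat.mul i1 i1)) 123)) fun a2 =>
        frc (Nat.add (um a.e0 j) 64) fun d0 => frc (Nat.add (um a.e0 j2) 64) fun d1 =>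
        frc (Nat.add (um a.e0 j3) 64) fun d2 =>
        frc (Nat.add (Nat.shiftRight j3 5) 1) fun M => comp a0 a1 a2 d0 d1 d2 M a k) false

end TM

end Pool.Agent.Lib.MP_ee7495_gt.Y
end

-- part Pool.Agent.Lib.MP_ee7495_gt.Y.Slp
section

/-! Straight line programs over Taylor models (definitions). -/

set_option autoImplicit false

namespace Pool.Agent.Lib.MP_ee7495_gt.Y

/-- Lists of Taylor models. -/
inductive TL : Type
  | nil : TL
  | cons (a : TM) (t : TL) : TL

/-- Entry number `i`, counted from the front. -/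
noncomputable def TL.get (E : TL) (i : ℕ) (k : TM → Bool) : Bool :=
  Nat.rec (motive := fun _ => TL → Bool) (fun E => TL.rec false (fun a _ _ => k a) E)
    (fun _ ih E => TL.rec false (fun _ t _ => ih t) E) i E

/-- Programs. Every instruction pushes its result; `cs` pushes the cosine, then the sine. -/
inductive Pr : Type
  | stop : Pr
  | add (i j : ℕ) (r : Pr) : Pr
  | sub (i j : ℕ) (r : Pr) : Pr
  | neg (i : ℕ) (r : Pr) : Pr
  | mul (i j : ℕ) (r : Pr) : Pr
  | addc (K i : ℕ) (r : Pr) : Pr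
  | smul (K i : ℕ) (r : Pr) : Pr
  | cs (i : ℕ) (r : Pr) : Pr
  | inv (i : ℕ) (r : Pr) : Pr
  | sqrt (i : ℕ) (r : Pr) : Pr

/-- Real semantics. -/
noncomputable def Pr.runR : Pr → List ℝ → List ℝ
  | Pr.stop, ρ => ρ
  | Pr.add i j r, ρ => r.runR ((ρ.getD i 0 + ρ.getD j 0) :: ρ)
  | Pr.sub i j r, ρ => r.runR ((ρ.getD i 0 - ρ.getD j 0) :: ρ)
  | Pr.neg i r, ρ => r.runR ((-ρ.getD i 0) :: ρ)
  | Pr.mul i j r, ρ => r.runR ((ρ.getD i 0 * ρ.getD j 0) :: ρ)
  | Pr.addc K i r, ρ => r.runR ((ρ.getD i 0 + val K) :: ρ)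
  | Pr.smul K i r, ρ => r.runR ((val K * ρ.getD i 0) :: ρ)
  | Pr.cs i r, ρ => r.runR (Real.sin (ρ.getD i 0) :: Real.cos (ρ.getD i 0) :: ρ)
  | Pr.inv i r, ρ => r.runR ((ρ.getD i 0)⁻¹ :: ρ)
  | Pr.sqrt i r, ρ => r.runR (√(ρ.getD i 0) :: ρ)

/-- Evaluation on Taylor models. -/
noncomputable def Pr.runT (p : Pr) : TL → (TL → Bool) → Bool :=
  Pr.rec (fun E k => k E)
    (fun i j _ ih E k => E.get i fun a => E.get j fun b => TM.lin ba a b fun c =>
      ih (TL.cons c E) k)
    (fun i j _ ih E k => E.get i fun a => E.get j fun b => TM.lin bs a b fun c =>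
      ih (TL.cons c E) k)
    (fun i _ ih E k => E.get i fun a => TM.neg a fun c => ih (TL.cons c E) k)
    (fun i j _ ih E k => E.get i fun a => E.get j fun b => TM.mul a b fun c =>
      ih (TL.cons c E) k)
    (fun K i _ ih E k => E.get i fun a => TM.addc K a fun c => ih (TL.cons c E) k)
    (fun K i _ ih E k => E.get i fun a => TM.smul K a fun c => ih (TL.cons c E) k)
    (fun i _ ih E k => E.get i fun a => TM.cs a fun u v => ih (TL.cons v (TL.cons u E)) k)
    (fun i _ ih E k => E.get i fun a => TM.inv a fun c => ih (TL.cons c E) k)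
    (fun i _ ih E k => E.get i fun a => TM.sqrt a fun c => ih (TL.cons c E) k) p

/-- Enclosure of a family of environments. -/
def EnvG : TL → ((ℕ → ℝ) → List ℝ) → Prop
  | TL.nil, _ => True
  | TL.cons T E, ρ => G T (fun δ => (ρ δ).getD 0 0) ∧ EnvG E (fun δ => (ρ δ).tail)

end Pool.Agent.Lib.MP_ee7495_gt.Y
end

-- part Pool.Agent.Lib.MP_ee7495_gt.Y.Vec
section

set_option autoImplicit false

open scoped RealInnerProductSpace
open Real Set

namespace Pool.Agent.Lib.MP_ee7495_gt.Y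

@[simp] theorem vec_0 (x y z : ℝ) : vec x y z 0 = x := rfl
@[simp] theorem vec_1 (x y z : ℝ) : vec x y z 1 = y := rfl
@[simp] theorem vec_2 (x y z : ℝ) : vec x y z 2 = z := rfl

theorem inner3 (u v : E) : ⟪u, v⟫ = u 0 * v 0 + u 1 * v 1 + u 2 * v 2 := by
  simp [PiLp.inner_apply, Fin.sum_univ_three]; ring

theorem ext3 {u v : E} (h0 : u 0 = v 0) (h1 : u 1 = v 1) (h2 : u 2 = v 2) : u = v := by
  ext i; fin_cases i <;> assumption

theorem vec_eta (u : E) : vec (u 0) (u 1) (u 2) = u := ext3 rfl rfl rfl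

theorem normsq3 (u : E) : ‖u‖ ^ 2 = u 0 * u 0 + u 1 * u 1 + u 2 * u 2 := by
  rw [← real_inner_self_eq_norm_sq, inner3]

theorem norm3 (u : E) : ‖u‖ = √(u 0 * u 0 + u 1 * u 1 + u 2 * u 2) := by
  rw [← normsq3, Real.sqrt_sq (norm_nonneg _)]

@[simp] theorem cross_0 (u v : E) : cross u v 0 = u 1 * v 2 - u 2 * v 1 := rfl
@[simp] theorem cross_1 (u v : E) : cross u v 1 = u 2 * v 0 - u 0 * v 2 := rfl
@[simp] theorem cross_2 (u v : E) : cross u v 2 = u 0 * v 1 - u 1 * v 0 := rfl

/-- Mirror image in the plane `x = 0`. -/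
noncomputable def mir (u : E) : E := vec (-u 0) (u 1) (u 2)

@[simp] theorem mir_0 (u : E) : mir u 0 = -u 0 := rfl
@[simp] theorem mir_1 (u : E) : mir u 1 = u 1 := rfl
@[simp] theorem mir_2 (u : E) : mir u 2 = u 2 := rfl

@[simp] theorem mir_mir (u : E) : mir (mir u) = u := ext3 (by simp) rfl rfl

theorem inner_mir (u v : E) : ⟪mir u, mir v⟫ = ⟪u, v⟫ := by simp [inner3]

theorem inner_mir_left (u v : E) : ⟪mir u, v⟫ = ⟪u, mir v⟫ := by simp [inner3]

theorem norm_mir (u : E) : ‖mir u‖ = ‖u‖ := by rw [norm3, norm3]; simp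

theorem mir_add (u v : E) : mir (u + v) = mir u + mir v := ext3 (by simp; ring) rfl rfl
theorem mir_sub (u v : E) : mir (u - v) = mir u - mir v := ext3 (by simp; ring) rfl rfl
theorem mir_neg (u : E) : mir (-u) = -mir u := ext3 (by simp) rfl rfl
theorem mir_smul (t : ℝ) (u : E) : mir (t • u) = t • mir u := ext3 (by simp) rfl rfl
theorem mir_zero : mir 0 = 0 := ext3 (by simp) rfl rfl

theorem continuous_vec {X : Type*} [TopologicalSpace X] {f g h : X → ℝ} (hf : Continuous f)
    (hg : Continuous g) (hh : Continuous h) : Continuous fun x => vec (f x) (g x) (h x) := by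
  unfold vec
  fun_prop

theorem continuous_mir : Continuous mir := by
  unfold mir
  exact continuous_vec (by fun_prop) (by fun_prop) (by fun_prop)

/-- The vertical unit vector. -/
noncomputable def e3 : E := vec 0 0 1

/-- Positive part. -/
noncomputable def pp (t : ℝ) : ℝ := max t 0

/-- Direction of the supporting planes along the cone. -/
noncomputable def coneU (c e : E) (t : ℝ) : E := rot c (-t) (cross (coneN c e) e)

/-- Conormal along the cone. -/
noncomputable def coneM (c e : E) (t : ℝ) : E :=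
  rot c (-t) (cos (t / ‖c‖) • coneN c e + sin (t / ‖c‖) • e)

/-- `⟪c, coneV c e t⟫`. -/
noncomputable def kapT (c e : E) (t : ℝ) : ℝ :=
  ⟪c, e⟫ * cos (t / ‖c‖) - √(‖c‖ ^ 2 - ⟪c, e⟫ ^ 2 - 1) * sin (t / ‖c‖)

/-- `⟪c, coneM c e t⟫`. -/
noncomputable def sigT (c e : E) (t : ℝ) : ℝ :=
  √(‖c‖ ^ 2 - ⟪c, e⟫ ^ 2 - 1) * cos (t / ‖c‖) + ⟪c, e⟫ * sin (t / ‖c‖)

/-- The set of breadths of curves of length one. -/
def BSet : Set ℝ := {b : ℝ | ∃ γ : ℝ → EuclideanSpace ℝ (Fin 3),
      ContinuousOn γ (Icc 0 1) ∧ eVariationOn γ (Icc 0 1) = 1 ∧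
      b = sInf {d : ℝ | ∃ u : EuclideanSpace ℝ (Fin 3), ‖u‖ = 1 ∧
        d = sSup ((fun t => ⟪γ t, u⟫) '' Icc 0 1) - sInf ((fun t => ⟪γ t, u⟫) '' Icc 0 1)}}

end Pool.Agent.Lib.MP_ee7495_gt.Y
end

-- part Pool.Agent.Lib.MP_ee7495_gt.Y.AF
section

/-! Affine forms in three variables and a small language of checks (definitions). -/

set_option autoImplicit false

open scoped RealInnerProductSpace

namespace Pool.Agent.Lib.MP_ee7495_gt.Y

/-- Affine form: centre, three slopes, size of the slopes, error. -/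
structure AF : Type where
  c : ℕ
  x : ℕ
  y : ℕ
  z : ℕ
  b : ℕ
  e : ℕ

/-- Enclosure at the point `δ` of the cube. -/
def AE (δ : ℕ → ℝ) (a : AF) (t : ℝ) : Prop :=
  ab a.x + ab a.y + ab a.z ≤ a.b ∧
    |t - (val a.c + val a.x * δ 0 + val a.y * δ 1 + val a.z * δ 2)| ≤ mag a.e

namespace AF

noncomputable def mk' (c x y z e : ℕ) (k : AF → Bool) : Bool :=
  frp c fun c => frp x fun x => frp y fun y => frp z fun z =>
    frc (Nat.add (Nat.add (ab x) (ab y)) (ab z)) fun b => frc e fun e => k ⟨c, x, y, z, b, e⟩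

/-- An interval `val c ± mag e`. -/
def itv (c e : ℕ) : AF :=
  ⟨c, 295147905179352825856, 295147905179352825856, 295147905179352825856, 0, e⟩

noncomputable def ofTM (T : TM) (k : AF → Bool) : Bool :=
  TM.rec (fun c l _ b1 b2 e0 e1 e2 =>
    NL.rec false (fun x l _ => NL.rec false (fun y l _ => NL.rec false (fun z l _ =>
      NL.rec (frc (Nat.add (Nat.add e0 e1) (Nat.add b2 e2)) fun e => k ⟨c, x, y, z, b1, e⟩)
        (fun _ _ _ => false) l) l) l) l) T

noncomputable def lin (f : ℕ → ℕ → ℕ) (a b : AF) (k : AF → Bool) : Bool :=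
  AF.rec (fun ac ax ay az _ ae => AF.rec (fun bc bx bY bz _ be =>
    mk' (f ac bc) (f ax bx) (f ay bY) (f az bz) (Nat.add ae be) k) b) a

noncomputable def neg (a : AF) (k : AF → Bool) : Bool :=
  AF.rec (fun ac ax ay az b e => frp (bn ac) fun c => frp (bn ax) fun x => frp (bn ay) fun y =>
    frp (bn az) fun z => k ⟨c, x, y, z, b, e⟩) a

noncomputable def mul (a b : AF) (k : AF → Bool) : Bool :=
  AF.rec (fun ac ax ay az ab1 ae => AF.rec (fun bc bx bY bz bb1 be =>
    frc (Nat.add ac bc) fun K =>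
    mk' (bm ac bc) (bm2 ac bc K ax bx) (bm2 ac bc K ay bY) (bm2 ac bc K az bz)
      (Nat.add (Nat.shiftRight (Nat.add (Nat.mul (Nat.add ab1 ae) (Nat.add bb1 be))
        (Nat.add (Nat.mul ae (ab bc)) (Nat.mul be (ab ac)))) 60) 5) k) b) a

/-- Rounded `± p x / q` is obtained from `x ↦ p x / q`. -/
def sc (p q x : ℕ) : ℕ :=
  Nat.sub (Nat.add (Nat.div (Nat.mul p x) q) 295147905179352825856)
    (Nat.div (Nat.mul p 295147905179352825856) q)

/-- Multiply by `p / q`. -/
noncomputable def smul (p q : ℕ) (a : AF) (k : AF → Bool) : Bool :=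
  AF.rec (fun ac ax ay az _ ae => frp q fun q =>
    mk' (sc p q ac) (sc p q ax) (sc p q ay) (sc p q az)
      (Nat.add (Nat.div (Nat.mul p ae) q) 5) k) a

/-- Positive part. -/
noncomputable def pp (a : AF) (k : AF → Bool) : Bool :=
  AF.rec (fun c x y z b e => frc (Nat.add b e) fun r =>
    cond (Nat.ble (Nat.add 295147905179352825856 r) c) (k ⟨c, x, y, z, b, e⟩)
      (frc (Nat.shiftRight (Nat.add (Nat.sub (Nat.add c r) 295147905179352825856) 1) 1) fun h =>
        frc (Nat.add 295147905179352825856 h) fun m => k (itv m h))) a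

/-- Maximum. -/
noncomputable def mx (a b : AF) (k : AF → Bool) : Bool :=
  AF.rec (fun ac ax ay az ab1 ae => AF.rec (fun bc bx bY bz bb1 be =>
    frc (Nat.add ab1 ae) fun r => frc (Nat.add bb1 be) fun s =>
    frp (Nat.sub ac r) fun al => frp (Nat.sub bc s) fun bl =>
    frc (Nat.add ac r) fun au => frc (Nat.add bc s) fun bu =>
    cond (Nat.ble bu al) (k ⟨ac, ax, ay, az, ab1, ae⟩) (cond (Nat.ble au bl)
      (k ⟨bc, bx, bY, bz, bb1, be⟩)
      (frc (Nat.add al (Nat.sub bl al)) fun lo => frc (Nat.add au (Nat.sub bu au)) fun hi =>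
        frc (Nat.shiftRight (Nat.add (Nat.sub hi lo) 1) 1) fun h =>
        frc (Nat.add lo h) fun m => k (itv m h)))) b) a

end AF

/-- Rounded `a x + b y + c z`, where `K = a + b + c`. -/
def d3 (a b c K x y z : ℕ) : ℕ := bm3 b a c K x y z

/-- Rounded sum of six products; `K` is the sum of the six left factors. -/
def d6 (a b c a' b' c' K x y z x' y' z' : ℕ) : ℕ :=
  Nat.shiftRight (Nat.sub (Nat.add (Nat.add (Nat.add (Nat.mul a x) (Nat.mul b y))
    (Nat.add (Nat.mul c z) (Nat.mul a' x'))) (Nat.add (Nat.add (Nat.mul b' y') (Nat.mul c' z'))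
      523013997957482418343206771622627741007872))
    (Nat.shiftLeft (Nat.add (Nat.add (Nat.add K x) (Nat.add y z)) (Nat.add x' (Nat.add y' z'))) 68))
    60

/-- Vectors of affine forms. -/
structure AV : Type where
  p : AF
  q : AF
  r : AF

/-- Enclosure of a vector. -/
def AVE (δ : ℕ → ℝ) (u : AV) (v : E) : Prop := AE δ u.p (v 0) ∧ AE δ u.q (v 1) ∧ AE δ u.r (v 2)

/-- Error of a product. -/
def pe (ac ab1 ae bc bb1 be : ℕ) : ℕ :=
  Nat.add (Nat.mul (Nat.add ab1 ae) (Nat.add bb1 be))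
    (Nat.add (Nat.mul ae (ab bc)) (Nat.mul be (ab ac)))

/-- Inner product. -/
noncomputable def AV.dot (u v : AV) (k : AF → Bool) : Bool :=
  AV.rec (fun p q r => AV.rec (fun p' q' r' =>
    AF.rec (fun pc px py pz pb pe1 => AF.rec (fun qc qx qy qz qb qe => AF.rec
      (fun rc rx ry rz rb re => AF.rec (fun sc sx sy sz sb se => AF.rec (fun tc tx ty tz tb te =>
        AF.rec (fun uc ux uy uz ub ue =>
          frc (Nat.add (Nat.add pc qc) rc) fun K =>
          frc (Nat.add K (Nat.add (Nat.add sc tc) uc)) fun K6 =>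
          AF.mk' (d3 pc qc rc K sc tc uc) (d6 pc qc rc sc tc uc K6 sx tx ux px qx rx)
            (d6 pc qc rc sc tc uc K6 sy ty uy py qy ry) (d6 pc qc rc sc tc uc K6 sz tz uz pz qz rz)
            (Nat.add (Nat.shiftRight (Nat.add (Nat.add (pe pc pb pe1 sc sb se)
              (pe qc qb qe tc tb te)) (pe rc rb re uc ub ue)) 60) 5) k) r') q') p') r) q) p) v) u

/-- Inner product with the constant vector `(val a, val b, val c)`. -/
noncomputable def AV.dotc (a b c : ℕ) (u : AV) (k : AF → Bool) : Bool :=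
  AV.rec (fun p q r => AF.rec (fun pc px py pz _ pe1 => AF.rec (fun qc qx qy qz _ qe => AF.rec
    (fun rc rx ry rz _ re => frc (Nat.add (Nat.add a b) c) fun K =>
      AF.mk' (d3 a b c K pc qc rc) (d3 a b c K px qx rx) (d3 a b c K py qy ry)
        (d3 a b c K pz qz rz)
        (Nat.add (Nat.shiftRight (Nat.add (Nat.add (Nat.mul (ab a) pe1) (Nat.mul (ab b) qe))
          (Nat.mul (ab c) re)) 60) 5) k) r) q) p) u

noncomputable def AV.lin (f : ℕ → ℕ → ℕ) (u v : AV) (k : AV → Bool) : Bool :=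
  AV.rec (fun p q r => AV.rec (fun p' q' r' => AF.lin f p p' fun a => AF.lin f q q' fun b =>
    AF.lin f r r' fun c => k ⟨a, b, c⟩) v) u

/-- Lists of affine forms and of vectors. -/
inductive SL : Type
  | nil : SL
  | cons (a : AF) (t : SL) : SL

inductive VL : Type
  | nil : VL
  | cons (a : AV) (t : VL) : VL

noncomputable def SL.get (E : SL) (i : ℕ) (k : AF → Bool) : Bool :=
  Nat.rec (motive := fun _ => SL → Bool) (fun E => SL.rec false (fun a _ _ => k a) E)
    (fun _ ih E => SL.rec false (fun _ t _ => ih t) E) i E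

noncomputable def VL.get (E : VL) (i : ℕ) (k : AV → Bool) : Bool :=
  Nat.rec (motive := fun _ => VL → Bool) (fun E => VL.rec false (fun a _ _ => k a) E)
    (fun _ ih E => VL.rec false (fun _ t _ => ih t) E) i E

/-- A nonnegative rational number. -/
noncomputable def qq (p q : ℕ) : ℝ := (p : ℝ) / (q : ℝ)

/-- The constant vector with biased coordinates. -/
noncomputable def gv (a b c : ℕ) : E := vec (val a) (val b) (val c)

/-- Scalar expressions. -/
inductive Ex : Type
  | var (i : ℕ) : Ex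
  | rat (p q : ℕ) : Ex
  | add (a b : Ex) : Ex
  | sub (a b : Ex) : Ex
  | neg (a : Ex) : Ex
  | mul (a b : Ex) : Ex
  | smul (p q : ℕ) (a : Ex) : Ex
  | pp (a : Ex) : Ex
  | mx (a b : Ex) : Ex
  | dot (i j : ℕ) : Ex
  | dotc (a b c j : ℕ) : Ex
  | cx (j : ℕ) : Ex
  | cy (j : ℕ) : Ex
  | cz (j : ℕ) : Ex

noncomputable def Ex.val (s : List ℝ) (v : List E) : Ex → ℝ
  | Ex.var i => s.getD i 0
  | Ex.rat p q => qq p q
  | Ex.add a b => a.val s v + b.val s v
  | Ex.sub a b => a.val s v - b.val s v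
  | Ex.neg a => -a.val s v
  | Ex.mul a b => a.val s v * b.val s v
  | Ex.smul p q a => qq p q * a.val s v
  | Ex.pp a => Y.pp (a.val s v)
  | Ex.mx a b => max (a.val s v) (b.val s v)
  | Ex.dot i j => ⟪v.getD i 0, v.getD j 0⟫
  | Ex.dotc a b c j => ⟪gv a b c, v.getD j 0⟫
  | Ex.cx j => v.getD j 0 0
  | Ex.cy j => v.getD j 0 1
  | Ex.cz j => v.getD j 0 2

noncomputable def Ex.ev (s : SL) (v : VL) (e : Ex) : (AF → Bool) → Bool :=
  Ex.rec (fun i k => s.get i k)
    (fun p q k => frp q fun q => frc (Nat.add 295147905179352825856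
      (Nat.div (Nat.shiftLeft p 60) q)) fun c => k (AF.itv c 1))
    (fun _ _ ia ib k => ia fun a => ib fun b => AF.lin ba a b k)
    (fun _ _ ia ib k => ia fun a => ib fun b => AF.lin bs a b k)
    (fun _ ia k => ia fun a => AF.neg a k)
    (fun _ _ ia ib k => ia fun a => ib fun b => AF.mul a b k)
    (fun p q _ ia k => ia fun a => AF.smul p q a k)
    (fun _ ia k => ia fun a => AF.pp a k)
    (fun _ _ ia ib k => ia fun a => ib fun b => AF.mx a b k)
    (fun i j k => v.get i fun a => v.get j fun b => AV.dot a b k)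
    (fun a b c j k => v.get j fun u => AV.dotc a b c u k)
    (fun j k => v.get j fun u => AV.rec (fun p _ _ => k p) u)
    (fun j k => v.get j fun u => AV.rec (fun _ q _ => k q) u)
    (fun j k => v.get j fun u => AV.rec (fun _ _ r => k r) u) e

/-- Check programs. -/
inductive Ck : Type
  | done : Ck
  | le0 (e : Ex) (r : Ck) : Ck
  | slet (e : Ex) (r : Ck) : Ck
  | vmk (a b c : Ex) (r : Ck) : Ck
  | vadd (i j : ℕ) (r : Ck) : Ck
  | vsub (i j : ℕ) (r : Ck) : Ck
  | both (a r : Ck) : Ck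

/-- Meaning of a check program. -/
def Ck.holds : Ck → List ℝ → List E → Prop
  | Ck.done, _, _ => True
  | Ck.le0 e r, s, v => e.val s v ≤ 0 ∧ r.holds s v
  | Ck.slet e r, s, v => r.holds (e.val s v :: s) v
  | Ck.vmk a b c r, s, v => r.holds s (vec (a.val s v) (b.val s v) (c.val s v) :: v)
  | Ck.vadd i j r, s, v => r.holds s ((v.getD i 0 + v.getD j 0) :: v)
  | Ck.vsub i j r, s, v => r.holds s ((v.getD i 0 - v.getD j 0) :: v)
  | Ck.both a r, s, v => a.holds s v ∧ r.holds s v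

/-- Evaluation of a check program. -/
noncomputable def Ck.run (p : Ck) : SL → VL → Bool :=
  Ck.rec (fun _ _ => true)
    (fun e _ ih s v => e.ev s v fun a => AF.rec (fun c _ _ _ b e1 =>
      cond (Nat.ble (Nat.add c (Nat.add b e1)) 295147905179352825856) (ih s v) false) a)
    (fun e _ ih s v => e.ev s v fun a => ih (SL.cons a s) v)
    (fun a b c _ ih s v => a.ev s v fun x => b.ev s v fun y => c.ev s v fun z =>
      ih s (VL.cons ⟨x, y, z⟩ v))
    (fun i j _ ih s v => v.get i fun a => v.get j fun b => AV.lin ba a b fun c =>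
      ih s (VL.cons c v))
    (fun i j _ ih s v => v.get i fun a => v.get j fun b => AV.lin bs a b fun c =>
      ih s (VL.cons c v))
    (fun _ _ ia ih s v => cond (ia s v) (ih s v) false) p

/-- Enclosure of environments. -/
def EnvS (δ : ℕ → ℝ) : SL → List ℝ → Prop
  | SL.nil, _ => True
  | SL.cons a E, ρ => AE δ a (ρ.getD 0 0) ∧ EnvS δ E ρ.tail

def EnvV (δ : ℕ → ℝ) : VL → List E → Prop
  | VL.nil, _ => True
  | VL.cons a E, ρ => AVE δ a (ρ.getD 0 0) ∧ EnvV δ E ρ.tail

/-- Convert the listed entries of a list of Taylor models (first listed index first). -/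
noncomputable def pickAF (E : TL) (is : NL) : (SL → Bool) → Bool :=
  NL.rec (fun k => k SL.nil) (fun i _ ih k => E.get i fun T => AF.ofTM T fun a =>
    ih fun r => k (SL.cons a r)) is

/-- The listed entries of a list of reals. -/
noncomputable def pickR (ρ : List ℝ) : NL → List ℝ
  | NL.nil => []
  | NL.cons i t => ρ.getD i 0 :: pickR ρ t

end Pool.Agent.Lib.MP_ee7495_gt.Y
end

-- part Pool.Agent.Lib.MP_ee7495_gt.Y.Prog
section

set_option autoImplicit false

namespace Pool.Agent.Lib.MP_ee7495_gt.Y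

/-- The length function; the result is the first entry. -/
def prE : Pr :=
  Pr.mul 0 0 <|
  Pr.addc 296300826683959672832 0 <|
  Pr.sqrt 0 <|
  Pr.inv 0 <|
  Pr.cs 7 <|
  Pr.mul 0 2 <|
  Pr.mul 0 7 <|
  Pr.mul 3 4 <|
  Pr.mul 0 9 <|
  Pr.mul 7 4 <|
  Pr.cs 15 <|
  Pr.mul 8 0 <|
  Pr.mul 2 5 <|
  Pr.add 7 0 <|
  Pr.mul 4 6 <|
  Pr.sub 10 0 <|
  Pr.cs 24 <|
  Pr.cs 27 <|
  Pr.cs 30 <|
  Pr.mul 2 1 <|
  Pr.mul 3 1 <|
  Pr.mul 5 6 <|
  Pr.mul 6 8 <|
  Pr.mul 2 9 <|
  Pr.mul 3 9 <|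
  Pr.neg 5 <|
  Pr.sub 4 2 <|
  Pr.add 4 2 <|
  Pr.add 6 4 <|
  Pr.sub 6 4 <|
  Pr.neg 36 <|
  Pr.mul 0 5 <|
  Pr.mul 39 5 <|
  Pr.add 1 0 <|
  Pr.sub 0 6 <|
  Pr.mul 4 4 <|
  Pr.mul 43 43 <|
  Pr.add 1 0 <|
  Pr.addc 296300826683959672832 0 <|
  Pr.sqrt 0 <|
  Pr.inv 0 <|
  Pr.mul 0 0 <|
  Pr.mul 7 7 <|
  Pr.sub 4 0 <|
  Pr.addc 293994983674745978880 0 <|
  Pr.sqrt 0 <|
  Pr.inv 2 <|
  Pr.mul 12 21 <|
  Pr.sub 17 0 <|
  Pr.mul 14 22 <|
  Pr.sub 57 0 <|
  Pr.mul 16 23 <|
  Pr.addc 296300826683959672832 0 <|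
  Pr.neg 0 <|
  Pr.mul 26 61 <|
  Pr.add 28 0 <|
  Pr.neg 0 <|
  Pr.mul 29 26 <|
  Pr.add 0 32 <|
  Pr.mul 33 66 <|
  Pr.mul 33 29 <|
  Pr.sub 1 0 <|
  Pr.mul 16 15 <|
  Pr.mul 16 6 <|
  Pr.mul 1 15 <|
  Pr.add 1 0 <|
  Pr.mul 19 7 <|
  Pr.mul 4 16 <|
  Pr.add 1 0 <|
  Pr.mul 22 7 <|
  Pr.mul 7 16 <|
  Pr.add 1 0 <|
  Pr.mul 82 31 <|
  Pr.cs 0 <|
  Pr.mul 1 49 <|
  Pr.mul 1 10 <|
  Pr.sub 1 0 <|
  Pr.mul 4 51 <|
  Pr.mul 4 10 <|
  Pr.sub 1 0 <|
  Pr.mul 7 53 <|
  Pr.mul 7 10 <|
  Pr.sub 1 0 <|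
  Pr.cs 94 <|
  Pr.mul 0 45 <|
  Pr.neg 2 <|
  Pr.addc 296300826683959672832 0 <|
  Pr.mul 0 47 <|
  Pr.mul 59 12 <|
  Pr.mul 98 10 <|
  Pr.add 1 0 <|
  Pr.sub 0 9 <|
  Pr.mul 0 4 <|
  Pr.mul 102 11 <|
  Pr.add 0 15 <|
  Pr.mul 66 13 <|
  Pr.add 20 0 <|
  Pr.neg 0 <|
  Pr.mul 69 19 <|
  Pr.mul 108 23 <|
  Pr.sub 1 0 <|
  Pr.mul 18 25 <|
  Pr.mul 17 7 <|
  Pr.sub 1 0 <|
  Pr.mul 21 25 <|
  Pr.mul 20 7 <|
  Pr.sub 1 0 <|
  Pr.mul 24 25 <|
  Pr.mul 23 7 <|
  Pr.sub 1 0 <|
  Pr.mul 17 81 <|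
  Pr.add 7 0 <|
  Pr.mul 19 121 <|
  Pr.add 6 0 <|
  Pr.sub 4 21 <|
  Pr.sub 108 97 <|
  Pr.sub 107 89 <|
  Pr.sub 106 89 <|
  Pr.mul 120 129 <|
  Pr.mul 134 104 <|
  Pr.mul 91 4 <|
  Pr.mul 130 4 <|
  Pr.mul 129 8 <|
  Pr.mul 130 103 <|
  Pr.add 5 4 <|
  Pr.add 4 3 <|
  Pr.sub 0 8 <|
  Pr.add 4 12 <|
  Pr.add 3 1 <|
  Pr.add 0 1 <|
  Pr.add 6 109 <|
  Pr.sub 1 0 <|
  Pr.add 0 0 <|
  Pr.add 0 129 <|
  Pr.stop

/-- The shifted value; the result is the first entry. -/
def prL : Pr :=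
  Pr.add 127 22 <|
  Pr.add 115 115 <|
  Pr.sub 0 127 <|
  Pr.sub 0 23 <|
  Pr.smul 296084653901845889024 3 <|
  Pr.smul 295796423525694177280 1 <|
  Pr.add 1 0 <|
  Pr.mul 157 0 <|
  Pr.add 0 0 <|
  Pr.add 9 0 <|
  Pr.stop

/-- The ends of the arc of directions. -/
def prU : Pr :=
  Pr.mul 99 97 <|
  Pr.mul 84 90 <|
  Pr.sub 1 0 <|
  Pr.mul 102 98 <|
  Pr.mul 87 91 <|
  Pr.sub 1 0 <|
  Pr.mul 105 98 <|
  Pr.mul 90 91 <|
  Pr.sub 1 0 <|
  Pr.mul 162 0 <|
  Pr.add 0 4 <|
  Pr.mul 126 2 <|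
  Pr.add 9 0 <|
  Pr.neg 0 <|
  Pr.mul 129 8 <|
  Pr.mul 168 12 <|
  Pr.sub 1 0 <|
  Pr.mul 78 14 <|
  Pr.mul 77 7 <|
  Pr.sub 1 0 <|
  Pr.mul 81 14 <|
  Pr.mul 80 7 <|
  Pr.sub 1 0 <|
  Pr.mul 84 14 <|
  Pr.mul 83 7 <|
  Pr.sub 1 0 <|
  Pr.mul 82 141 <|
  Pr.add 7 0 <|
  Pr.mul 84 181 <|
  Pr.add 6 0 <|
  Pr.sub 4 86 <|
  Pr.stop

/-- Positions of the quantities used by the checks. -/
def pk : NL :=
  (NL.cons 182 (NL.cons 185 (NL.cons 188 (NL.cons 189 (NL.cons 186 (NL.cons 190 (NL.cons 187 (NL.cons 192 (NL.cons 177 (NL.cons 173 (NL.cons 172 (NL.cons 171 (NL.cons 170 (NL.cons 169 (NL.cons 163 (NL.cons 162 (NL.cons 160 (NL.cons 159 (NL.cons 158 (NL.cons 155 (NL.cons 154 (NL.cons 146 (NL.cons 184 (NL.cons 142 (NL.cons 136 (NL.cons 135 (NL.cons 133 (NL.cons 131 (NL.cons 47 (NL.cons 34 (NL.cons 168 (NL.cons 166 (NL.cons 164 (NL.cons 63 (NL.cons 61 (NL.cons 60 (NL.cons 3 (NL.cons 1 (NL.cons 0 (NL.cons 28 (NL.cons 25 (NL.cons 22 NL.nil))))))))))))))))))))))))))))))))))))))))))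

def ckRange : Ck :=
  .le0 (.sub (.rat 9 10) (.var 0)) <|
  .le0 (.sub (.var 0) (.rat 23 20)) <|
  .le0 (.sub (.rat 3 20) (.var 2)) <|
  .le0 (.sub (.var 2) (.rat 7 20)) <|
  .le0 (.sub (.rat 3 5) (.var 3)) <|
  .le0 (.sub (.var 3) (.rat 4 5)) <|
  .le0 (.sub (.rat 1815 10000) (.var 4)) <|
  .le0 (.sub (.var 4) (.rat 5565 10000)) <|
  .le0 (.sub (.rat 0 1) (.var 6)) <|
  .le0 (.sub (.var 6) (.rat 2 5)) <|
  .le0 (.sub (.rat 0 1) (.var 5)) <|
  .le0 (.sub (.var 5) (.rat 2837 10000)) <|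
  .le0 (.sub (.neg (.var 1)) (.rat 3 10)) <|
  .le0 (.add (.var 1) (.rat 1 10)) <|
  .le0 (.neg (.var 7)) <|
  .le0 (.var 23) <|
  .le0 (.neg (.add (.var 27) (.var 23))) <|
  .le0 (.sub (.rat 11 10) (.var 26)) <|
  .le0 (.sub (.neg (.var 29)) (.smul 3 4 (.var 7))) <|
  .done

def ckSide : Ck :=
  .le0 (.sub (.add (.smul 2 1 (.var 6)) (.var 14)) (.rat 29 100)) <|
  .le0 (.sub (.rat 1 10) (.var 2)) <|
  .le0 (.sub (.var 2) (.rat 4 5)) <|
  .le0 (.neg (.var 0)) <|
  .le0 (.sub (.var 14) (.add (.add (.var 2) (.smul 1 2 (.var 1))) (.var 27))) <|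
  .slet (.pp (.dotc 295820480840109916160 295085400142337015808 294390878229489516544 0)) <|
  .le0 (.add (.dotc 295820480840109916160 295085400142337015808 294390878229489516544 3) (.var 0)) <|
  .le0 (.add (.dotc 295820480840109916160 295085400142337015808 294390878229489516544 4) (.var 0)) <|
  .slet (.pp (.dotc 294644689493645328384 295094671224382423040 296030434784456998912 0)) <|
  .le0 (.add (.dotc 294644689493645328384 295094671224382423040 296030434784456998912 3) (.var 0)) <|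
  .le0 (.add (.dotc 294644689493645328384 295094671224382423040 296030434784456998912 4) (.var 0)) <|
  .slet (.pp (.dotc 295386033009650040832 296061256294406815744 295900841945960808448 0)) <|
  .le0 (.add (.dotc 295386033009650040832 296061256294406815744 295900841945960808448 3) (.var 0)) <|
  .le0 (.add (.dotc 295386033009650040832 296061256294406815744 295900841945960808448 4) (.var 0)) <|
  .slet (.pp (.dotc 295079137324105203712 294118815072312623104 294520471067985707008 0)) <|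
  .le0 (.add (.dotc 295079137324105203712 294118815072312623104 294520471067985707008 3) (.var 0)) <|
  .le0 (.add (.dotc 295079137324105203712 294118815072312623104 294520471067985707008 4) (.var 0)) <|
  .done

def ckZero : Ck :=
  .le0 (.add (.smul 2 1 (.mx (.mx (.dotc 295816689724017344512 295860599820384206848 294494883233384103936 9) (.dotc 295915768915819495424 295639923438643052544 294425077439159861248 9)) (.mx (.dotc 296026107106690072576 295759268828768370688 294684034417733664768 9) (.dotc 296125186298492223488 295538592447027216384 294614228623509422080 9)))) (.var 3)) <|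
  .le0 (.sub (.var 0) (.smul 2 1 (.cz 9))) <|
  .done

def ckB1 : Ck :=
  .vmk (.cx 3) (.cy 3) (.cz 3) <|
  .vsub 10 0 <|
  .vadd 11 0 <|
  .slet (.pp (.neg (.dot 10 2))) <|
  .le0 (.add (.add (.add (.neg (.dot 0 2)) (.smul 2 1 (.add (.add (.mul (.var 33) (.add (.pp (.sub (.var 0) (.dot 13 2))) (.pp (.sub (.var 0) (.dot 14 2))))) (.pp (.neg (.dot 9 2)))) (.pp (.neg (.dot 8 2)))))) (.mul (.var 2) (.pp (.sub (.var 1) (.smul 2 1 (.cz 1)))))) (.smul 29 100 (.pp (.add (.smul 2 1 (.mx (.mx (.dotc 295816689724017344512 295860599820384206848 294494883233384103936 1) (.dotc 295915768915819495424 295639923438643052544 294425077439159861248 1)) (.mx (.dotc 296026107106690072576 295759268828768370688 294684034417733664768 1) (.dotc 296125186298492223488 295538592447027216384 294614228623509422080 1)))) (.var 4))))) <|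
  .done

def ckB2 : Ck :=
  .vadd 3 2 <|
  .vsub 10 0 <|
  .vadd 11 0 <|
  .slet (.pp (.neg (.dot 10 2))) <|
  .le0 (.add (.add (.add (.neg (.dot 0 2)) (.smul 2 1 (.add (.add (.mul (.var 33) (.add (.pp (.sub (.var 0) (.dot 13 2))) (.pp (.sub (.var 0) (.dot 14 2))))) (.pp (.neg (.dot 9 2)))) (.pp (.neg (.dot 8 2)))))) (.mul (.var 2) (.pp (.sub (.var 1) (.smul 2 1 (.cz 1)))))) (.smul 29 100 (.pp (.add (.smul 2 1 (.mx (.mx (.dotc 295816689724017344512 295860599820384206848 294494883233384103936 1) (.dotc 295915768915819495424 295639923438643052544 294425077439159861248 1)) (.mx (.dotc 296026107106690072576 295759268828768370688 294684034417733664768 1) (.dotc 296125186298492223488 295538592447027216384 294614228623509422080 1)))) (.var 4))))) <|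
  .done

def ckB5 : Ck :=
  .vmk (.cx 0) (.cy 0) (.cz 0) <|
  .vsub 10 0 <|
  .vadd 11 0 <|
  .slet (.pp (.neg (.dot 10 2))) <|
  .le0 (.add (.add (.add (.neg (.dot 0 2)) (.smul 2 1 (.add (.add (.mul (.var 33) (.add (.pp (.sub (.var 0) (.dot 13 2))) (.pp (.sub (.var 0) (.dot 14 2))))) (.pp (.neg (.dot 9 2)))) (.pp (.neg (.dot 8 2)))))) (.mul (.var 2) (.pp (.sub (.var 1) (.smul 2 1 (.cz 1)))))) (.smul 29 100 (.pp (.add (.smul 2 1 (.mx (.mx (.dotc 295816689724017344512 295860599820384206848 294494883233384103936 1) (.dotc 295915768915819495424 295639923438643052544 294425077439159861248 1)) (.mx (.dotc 296026107106690072576 295759268828768370688 294684034417733664768 1) (.dotc 296125186298492223488 295538592447027216384 294614228623509422080 1)))) (.var 4))))) <|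
  .done

def ckB6 : Ck :=
  .vadd 0 1 <|
  .vsub 10 0 <|
  .vadd 11 0 <|
  .slet (.pp (.neg (.dot 10 2))) <|
  .le0 (.add (.add (.add (.neg (.dot 0 2)) (.smul 2 1 (.add (.add (.mul (.var 33) (.add (.pp (.sub (.var 0) (.dot 13 2))) (.pp (.sub (.var 0) (.dot 14 2))))) (.pp (.neg (.dot 9 2)))) (.pp (.neg (.dot 8 2)))))) (.mul (.var 2) (.pp (.sub (.var 1) (.smul 2 1 (.cz 1)))))) (.smul 29 100 (.pp (.add (.smul 2 1 (.mx (.mx (.dotc 295816689724017344512 295860599820384206848 294494883233384103936 1) (.dotc 295915768915819495424 295639923438643052544 294425077439159861248 1)) (.mx (.dotc 296026107106690072576 295759268828768370688 294684034417733664768 1) (.dotc 296125186298492223488 295538592447027216384 294614228623509422080 1)))) (.var 4))))) <|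
  .done

def ckA3 : Ck :=
  .vadd 3 2 <|
  .vadd 0 2 <|
  .vsub 11 0 <|
  .slet (.mul (.var 1) (.pp (.sub (.var 0) (.smul 2 1 (.cz 0))))) <|
  .slet (.add (.smul 2 1 (.var 33)) (.smul 58 100 (.var 6))) <|
  .slet (.add (.smul 2 1 (.var 34)) (.smul 58 100 (.var 6))) <|
  .both (.slet (.pp (.dot 10 0)) <|
  .le0 (.add (.add (.add (.sub (.dot 0 0) (.rat 1 1)) (.var 3)) (.mul (.var 36) (.add (.pp (.add (.smul 2 1 (.add (.dot 0 13) (.var 0))) (.var 2))) (.pp (.add (.smul 2 1 (.add (.dot 0 14) (.var 0))) (.var 1)))))) (.smul 29 100 (.pp (.add (.smul 2 1 (.mx (.mx (.dotc 295816689724017344512 295860599820384206848 294494883233384103936 0) (.dotc 295915768915819495424 295639923438643052544 294425077439159861248 0)) (.mx (.dotc 296026107106690072576 295759268828768370688 294684034417733664768 0) (.dotc 296125186298492223488 295538592447027216384 294614228623509422080 0)))) (.rat 3041 10000))))) <|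
  .done) <|
  .both (.vadd 0 9 <|
  .slet (.pp (.dot 11 0)) <|
  .le0 (.add (.add (.add (.sub (.dot 0 0) (.rat 1 1)) (.var 3)) (.mul (.var 36) (.add (.pp (.add (.smul 2 1 (.add (.dot 0 14) (.var 0))) (.var 2))) (.pp (.add (.smul 2 1 (.add (.dot 0 15) (.var 0))) (.var 1)))))) (.smul 29 100 (.pp (.add (.smul 2 1 (.mx (.mx (.dotc 295816689724017344512 295860599820384206848 294494883233384103936 0) (.dotc 295915768915819495424 295639923438643052544 294425077439159861248 0)) (.mx (.dotc 296026107106690072576 295759268828768370688 294684034417733664768 0) (.dotc 296125186298492223488 295538592447027216384 294614228623509422080 0)))) (.rat 3041 10000))))) <|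
  .done) <|
  .both (.vadd 0 8 <|
  .slet (.pp (.dot 11 0)) <|
  .le0 (.add (.add (.add (.sub (.dot 0 0) (.rat 1 1)) (.var 3)) (.mul (.var 36) (.add (.pp (.add (.smul 2 1 (.add (.dot 0 14) (.var 0))) (.var 2))) (.pp (.add (.smul 2 1 (.add (.dot 0 15) (.var 0))) (.var 1)))))) (.smul 29 100 (.pp (.add (.smul 2 1 (.mx (.mx (.dotc 295816689724017344512 295860599820384206848 294494883233384103936 0) (.dotc 295915768915819495424 295639923438643052544 294425077439159861248 0)) (.mx (.dotc 296026107106690072576 295759268828768370688 294684034417733664768 0) (.dotc 296125186298492223488 295538592447027216384 294614228623509422080 0)))) (.rat 3041 10000))))) <|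
  .done) <|
  .both (.vadd 0 7 <|
  .slet (.pp (.dot 11 0)) <|
  .le0 (.add (.add (.add (.sub (.dot 0 0) (.rat 1 1)) (.var 3)) (.mul (.var 36) (.add (.pp (.add (.smul 2 1 (.add (.dot 0 14) (.var 0))) (.var 2))) (.pp (.add (.smul 2 1 (.add (.dot 0 15) (.var 0))) (.var 1)))))) (.smul 29 100 (.pp (.add (.smul 2 1 (.mx (.mx (.dotc 295816689724017344512 295860599820384206848 294494883233384103936 0) (.dotc 295915768915819495424 295639923438643052544 294425077439159861248 0)) (.mx (.dotc 296026107106690072576 295759268828768370688 294684034417733664768 0) (.dotc 296125186298492223488 295538592447027216384 294614228623509422080 0)))) (.rat 3041 10000))))) <|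
  .done) <|
  .done

def ckBall : Ck :=
  .slet (.smul 1 2 (.var 38)) <|
  .slet (.mul (.add (.var 0) (.smul 7 20 (.mul (.var 0) (.mul (.var 0) (.var 0))))) (.var 50)) <|
  .slet (.mul (.var 0) (.var 52)) <|
  .vmk (.neg (.mul (.var 1) (.var 54))) (.mul (.var 0) (.var 50)) (.neg (.mul (.var 0) (.var 51))) <|
  .vmk (.rat 0 1) (.mul (.var 1) (.var 50)) (.neg (.mul (.var 1) (.var 51))) <|
  .vadd 1 0 <|
  .slet (.sub (.smul 7 16 (.var 36)) (.rat 594 1000)) <|
  .slet (.add (.smul 1 8 (.var 37)) (.rat 515 1000)) <|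
  .slet (.add (.smul 60 61 (.var 34)) (.rat 11 61)) <|
  .slet (.add (.smul 11 61 (.var 35)) (.rat 1 61)) <|
  .vmk (.add (.add (.cx 12) (.mul (.var 1) (.var 48))) (.rat 3 10)) (.sub (.sub (.cy 12) (.mul (.var 0) (.var 49))) (.var 3)) (.sub (.add (.cz 12) (.mul (.var 0) (.var 50))) (.var 2)) <|
  .vsub 0 7 <|
  .slet (.sub (.rat 1 1) (.var 52)) <|
  .vmk (.sub (.rat 3 10) (.mul (.var 49) (.var 54))) (.add (.mul (.var 0) (.var 50)) (.var 4)) (.sub (.var 3) (.mul (.var 0) (.var 51))) <|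
  .slet (.mul (.var 34) (.pp (.sub (.add (.var 34) (.smul 2 1 (.add (.add (.var 10) (.pp (.neg (.cz 5)))) (.pp (.neg (.cz 4)))))) (.smul 2 1 (.cz 2))))) <|
  .slet (.smul 2 1 (.var 41)) <|
  .slet (.add (.var 0) (.smul 128 125 (.var 50))) <|
  .both (.slet (.pp (.dot 13 1)) <|
  .le0 (.add (.add (.sub (.dot 1 1) (.rat 4 25)) (.var 3)) (.mul (.var 44) (.add (.pp (.add (.smul 2 1 (.add (.dot 1 16) (.var 0))) (.var 2))) (.pp (.add (.smul 2 1 (.add (.dot 1 17) (.var 0))) (.var 2)))))) <|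
  .done) <|
  .both (.vadd 1 5 <|
  .slet (.pp (.dot 14 0)) <|
  .le0 (.add (.add (.sub (.dot 0 0) (.rat 4 25)) (.var 3)) (.mul (.var 44) (.add (.pp (.add (.smul 2 1 (.add (.dot 0 17) (.var 0))) (.var 2))) (.pp (.add (.smul 2 1 (.add (.dot 0 18) (.var 0))) (.var 2)))))) <|
  .done) <|
  .both (.vadd 1 4 <|
  .slet (.pp (.dot 14 0)) <|
  .le0 (.add (.add (.sub (.dot 0 0) (.rat 4 25)) (.var 3)) (.mul (.var 44) (.add (.pp (.add (.smul 2 1 (.add (.dot 0 17) (.var 0))) (.var 2))) (.pp (.add (.smul 2 1 (.add (.dot 0 18) (.var 0))) (.var 2)))))) <|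
  .done) <|
  .both (.vadd 1 3 <|
  .slet (.pp (.dot 14 0)) <|
  .le0 (.add (.add (.sub (.dot 0 0) (.rat 4 25)) (.var 3)) (.mul (.var 44) (.add (.pp (.add (.smul 2 1 (.add (.dot 0 17) (.var 0))) (.var 2))) (.pp (.add (.smul 2 1 (.add (.dot 0 18) (.var 0))) (.var 2)))))) <|
  .done) <|
  .both (.slet (.pp (.dot 13 2)) <|
  .le0 (.add (.add (.sub (.dot 2 2) (.rat 4 25)) (.var 3)) (.mul (.var 44) (.add (.pp (.add (.smul 2 1 (.add (.dot 2 16) (.var 0))) (.var 2))) (.pp (.add (.smul 2 1 (.add (.dot 2 17) (.var 0))) (.var 2)))))) <|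
  .done) <|
  .both (.vadd 2 5 <|
  .slet (.pp (.dot 14 0)) <|
  .le0 (.add (.add (.sub (.dot 0 0) (.rat 4 25)) (.var 3)) (.mul (.var 44) (.add (.pp (.add (.smul 2 1 (.add (.dot 0 17) (.var 0))) (.var 2))) (.pp (.add (.smul 2 1 (.add (.dot 0 18) (.var 0))) (.var 2)))))) <|
  .done) <|
  .both (.vadd 2 4 <|
  .slet (.pp (.dot 14 0)) <|
  .le0 (.add (.add (.sub (.dot 0 0) (.rat 4 25)) (.var 3)) (.mul (.var 44) (.add (.pp (.add (.smul 2 1 (.add (.dot 0 17) (.var 0))) (.var 2))) (.pp (.add (.smul 2 1 (.add (.dot 0 18) (.var 0))) (.var 2)))))) <|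
  .done) <|
  .both (.vadd 2 3 <|
  .slet (.pp (.dot 14 0)) <|
  .le0 (.add (.add (.sub (.dot 0 0) (.rat 4 25)) (.var 3)) (.mul (.var 44) (.add (.pp (.add (.smul 2 1 (.add (.dot 0 17) (.var 0))) (.var 2))) (.pp (.add (.smul 2 1 (.add (.dot 0 18) (.var 0))) (.var 2)))))) <|
  .done) <|
  .both (.slet (.pp (.dot 13 0)) <|
  .le0 (.add (.add (.sub (.dot 0 0) (.rat 9 25)) (.mul (.var 44) (.add (.pp (.add (.smul 2 1 (.add (.dot 0 16) (.var 0))) (.var 1))) (.pp (.add (.smul 2 1 (.add (.dot 0 17) (.var 0))) (.var 1)))))) (.mul (.var 52) (.pp (.add (.smul 2 1 (.mx (.mx (.dotc 294479120634688307200 295860599820384206848 294494883233384103936 0) (.dotc 294380041442886156288 295639923438643052544 294425077439159861248 0)) (.mx (.dotc 294269703252015579136 295759268828768370688 294684034417733664768 0) (.dotc 294170624060213428224 295538592447027216384 294614228623509422080 0)))) (.smul 128 125 (.var 1)))))) <|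
  .done) <|
  .both (.vadd 0 5 <|
  .slet (.pp (.dot 14 0)) <|
  .le0 (.add (.add (.sub (.dot 0 0) (.rat 9 25)) (.mul (.var 44) (.add (.pp (.add (.smul 2 1 (.add (.dot 0 17) (.var 0))) (.var 1))) (.pp (.add (.smul 2 1 (.add (.dot 0 18) (.var 0))) (.var 1)))))) (.mul (.var 52) (.pp (.add (.smul 2 1 (.mx (.mx (.dotc 294479120634688307200 295860599820384206848 294494883233384103936 0) (.dotc 294380041442886156288 295639923438643052544 294425077439159861248 0)) (.mx (.dotc 294269703252015579136 295759268828768370688 294684034417733664768 0) (.dotc 294170624060213428224 295538592447027216384 294614228623509422080 0)))) (.smul 128 125 (.var 1)))))) <|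
  .done) <|
  .both (.vadd 0 4 <|
  .slet (.pp (.dot 14 0)) <|
  .le0 (.add (.add (.sub (.dot 0 0) (.rat 9 25)) (.mul (.var 44) (.add (.pp (.add (.smul 2 1 (.add (.dot 0 17) (.var 0))) (.var 1))) (.pp (.add (.smul 2 1 (.add (.dot 0 18) (.var 0))) (.var 1)))))) (.mul (.var 52) (.pp (.add (.smul 2 1 (.mx (.mx (.dotc 294479120634688307200 295860599820384206848 294494883233384103936 0) (.dotc 294380041442886156288 295639923438643052544 294425077439159861248 0)) (.mx (.dotc 294269703252015579136 295759268828768370688 294684034417733664768 0) (.dotc 294170624060213428224 295538592447027216384 294614228623509422080 0)))) (.smul 128 125 (.var 1)))))) <|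
  .done) <|
  .both (.vadd 0 3 <|
  .slet (.pp (.dot 14 0)) <|
  .le0 (.add (.add (.sub (.dot 0 0) (.rat 9 25)) (.mul (.var 44) (.add (.pp (.add (.smul 2 1 (.add (.dot 0 17) (.var 0))) (.var 1))) (.pp (.add (.smul 2 1 (.add (.dot 0 18) (.var 0))) (.var 1)))))) (.mul (.var 52) (.pp (.add (.smul 2 1 (.mx (.mx (.dotc 294479120634688307200 295860599820384206848 294494883233384103936 0) (.dotc 294380041442886156288 295639923438643052544 294425077439159861248 0)) (.mx (.dotc 294269703252015579136 295759268828768370688 294684034417733664768 0) (.dotc 294170624060213428224 295538592447027216384 294614228623509422080 0)))) (.smul 128 125 (.var 1)))))) <|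
  .done) <|
  .both (.vmk (.cx 0) (.cy 0) (.sub (.cz 0) (.sub (.var 39) (.rat 1 10))) <|
  .slet (.add (.var 0) (.smul 2 1 (.var 9))) <|
  .slet (.mul (.var 0) (.var 10)) <|
  .slet (.pp (.dot 14 0)) <|
  .le0 (.add (.add (.add (.add (.sub (.dot 0 0) (.rat 9 25)) (.mul (.var 46) (.add (.pp (.add (.smul 2 1 (.add (.dot 0 17) (.var 0))) (.var 2))) (.pp (.add (.smul 2 1 (.add (.dot 0 18) (.var 0))) (.var 2)))))) (.mul (.var 54) (.pp (.add (.smul 2 1 (.mx (.mx (.dotc 294479120634688307200 295860599820384206848 294494883233384103936 0) (.dotc 294380041442886156288 295639923438643052544 294425077439159861248 0)) (.mx (.dotc 294269703252015579136 295759268828768370688 294684034417733664768 0) (.dotc 294170624060213428224 295538592447027216384 294614228623509422080 0)))) (.smul 128 125 (.var 2)))))) (.pp (.add (.smul 2 1 (.dot 0 6)) (.var 1)))) (.pp (.add (.smul 2 1 (.dot 0 5)) (.var 1)))) <|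
  .done) <|
  .done

def ckMid : Ck :=
  .slet (.pp (.neg (.dot 3 7))) <|
  .slet (.pp (.neg (.dot 2 7))) <|
  .slet (.pp (.neg (.dot 1 7))) <|
  .slet (.pp (.neg (.dot 0 7))) <|
  .slet (.smul 256 125 (.var 44)) <|
  .slet (.add (.add (.add (.var 37) (.var 0)) (.smul 29 100 (.var 10))) (.smul 2 1 (.add (.add (.pp (.sub (.var 4) (.dot 3 10))) (.pp (.sub (.var 3) (.dot 2 10)))) (.add (.pp (.sub (.var 2) (.dot 1 10))) (.pp (.sub (.var 1) (.dot 0 10))))))) <|
  .slet (.add (.add (.add (.smul 3 1 (.var 38)) (.var 1)) (.smul 29 100 (.var 10))) (.smul 2 1 (.add (.add (.pp (.sub (.var 5) (.dot 3 11))) (.pp (.sub (.var 4) (.dot 2 11)))) (.add (.pp (.sub (.var 3) (.dot 1 11))) (.pp (.sub (.var 2) (.dot 0 11))))))) <|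
  .slet (.smul 1049 1000 (.var 47)) <|
  .slet (.add (.add (.var 0) (.smul 2 1 (.add (.add (.pp (.neg (.dotc 294479120634688307200 295860599820384206848 294494883233384103936 3))) (.pp (.neg (.dotc 294479120634688307200 295860599820384206848 294494883233384103936 2)))) (.add (.pp (.neg (.dotc 294479120634688307200 295860599820384206848 294494883233384103936 1))) (.pp (.neg (.dotc 294479120634688307200 295860599820384206848 294494883233384103936 0))))))) (.rat 1063 10000)) <|
  .slet (.add (.add (.var 1) (.smul 2 1 (.add (.add (.pp (.neg (.dotc 294380041442886156288 295639923438643052544 294425077439159861248 3))) (.pp (.neg (.dotc 294380041442886156288 295639923438643052544 294425077439159861248 2)))) (.add (.pp (.neg (.dotc 294380041442886156288 295639923438643052544 294425077439159861248 1))) (.pp (.neg (.dotc 294380041442886156288 295639923438643052544 294425077439159861248 0))))))) (.rat 675 10000)) <|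
  .slet (.add (.add (.var 2) (.smul 2 1 (.add (.add (.pp (.neg (.dotc 294269703252015579136 295759268828768370688 294684034417733664768 3))) (.pp (.neg (.dotc 294269703252015579136 295759268828768370688 294684034417733664768 2)))) (.add (.pp (.neg (.dotc 294269703252015579136 295759268828768370688 294684034417733664768 1))) (.pp (.neg (.dotc 294269703252015579136 295759268828768370688 294684034417733664768 0))))))) (.rat 331 10000)) <|
  .slet (.add (.add (.var 3) (.smul 2 1 (.add (.add (.pp (.neg (.dotc 294170624060213428224 295538592447027216384 294614228623509422080 3))) (.pp (.neg (.dotc 294170624060213428224 295538592447027216384 294614228623509422080 2)))) (.add (.pp (.neg (.dotc 294170624060213428224 295538592447027216384 294614228623509422080 1))) (.pp (.neg (.dotc 294170624060213428224 295538592447027216384 294614228623509422080 0))))))) (.rat 0 1)) <|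
  .both (.slet (.pp (.neg (.dot 7 8))) <|
  .le0 (.add (.smul 2 1 (.sub (.var 0) (.dot 8 10))) (.var 7)) <|
  .le0 (.add (.smul 2 1 (.sub (.var 0) (.dot 8 11))) (.var 6)) <|
  .le0 (.mx (.mx (.sub (.var 4) (.smul 2 1 (.dotc 294479120634688307200 295860599820384206848 294494883233384103936 8))) (.sub (.var 3) (.smul 2 1 (.dotc 294380041442886156288 295639923438643052544 294425077439159861248 8)))) (.mx (.sub (.var 2) (.smul 2 1 (.dotc 294269703252015579136 295759268828768370688 294684034417733664768 8))) (.sub (.var 1) (.smul 2 1 (.dotc 294170624060213428224 295538592447027216384 294614228623509422080 8))))) <|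
  .done) <|
  .both (.vsub 8 6 <|
  .vadd 9 0 <|
  .slet (.pp (.neg (.dot 9 1))) <|
  .le0 (.add (.add (.sub (.add (.add (.pp (.neg (.dot 5 8))) (.pp (.neg (.dot 4 8)))) (.add (.pp (.neg (.dot 3 8))) (.pp (.neg (.dot 2 8))))) (.smul 1 2 (.dot 0 8))) (.mul (.var 45) (.add (.pp (.add (.smul 2 1 (.sub (.var 0) (.dot 1 12))) (.var 7))) (.pp (.add (.smul 2 1 (.sub (.var 0) (.dot 1 13))) (.var 6)))))) (.mul (.var 53) (.pp (.mx (.mx (.sub (.var 4) (.smul 2 1 (.dotc 294479120634688307200 295860599820384206848 294494883233384103936 1))) (.sub (.var 3) (.smul 2 1 (.dotc 294380041442886156288 295639923438643052544 294425077439159861248 1)))) (.mx (.sub (.var 2) (.smul 2 1 (.dotc 294269703252015579136 295759268828768370688 294684034417733664768 1))) (.sub (.var 1) (.smul 2 1 (.dotc 294170624060213428224 295538592447027216384 294614228623509422080 1)))))))) <|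
  .done) <|
  .both (.vsub 8 5 <|
  .vadd 9 0 <|
  .slet (.pp (.neg (.dot 9 1))) <|
  .le0 (.add (.add (.sub (.add (.add (.pp (.neg (.dot 5 7))) (.pp (.neg (.dot 4 7)))) (.add (.pp (.neg (.dot 3 7))) (.pp (.neg (.dot 2 7))))) (.smul 1 2 (.dot 0 7))) (.mul (.var 45) (.add (.pp (.add (.smul 2 1 (.sub (.var 0) (.dot 1 12))) (.var 7))) (.pp (.add (.smul 2 1 (.sub (.var 0) (.dot 1 13))) (.var 6)))))) (.mul (.var 53) (.pp (.mx (.mx (.sub (.var 4) (.smul 2 1 (.dotc 294479120634688307200 295860599820384206848 294494883233384103936 1))) (.sub (.var 3) (.smul 2 1 (.dotc 294380041442886156288 295639923438643052544 294425077439159861248 1)))) (.mx (.sub (.var 2) (.smul 2 1 (.dotc 294269703252015579136 295759268828768370688 294684034417733664768 1))) (.sub (.var 1) (.smul 2 1 (.dotc 294170624060213428224 295538592447027216384 294614228623509422080 1)))))))) <|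
  .done) <|
  .both (.vsub 8 4 <|
  .vadd 9 0 <|
  .slet (.pp (.neg (.dot 9 1))) <|
  .le0 (.add (.add (.sub (.add (.add (.pp (.neg (.dot 5 6))) (.pp (.neg (.dot 4 6)))) (.add (.pp (.neg (.dot 3 6))) (.pp (.neg (.dot 2 6))))) (.smul 1 2 (.dot 0 6))) (.mul (.var 45) (.add (.pp (.add (.smul 2 1 (.sub (.var 0) (.dot 1 12))) (.var 7))) (.pp (.add (.smul 2 1 (.sub (.var 0) (.dot 1 13))) (.var 6)))))) (.mul (.var 53) (.pp (.mx (.mx (.sub (.var 4) (.smul 2 1 (.dotc 294479120634688307200 295860599820384206848 294494883233384103936 1))) (.sub (.var 3) (.smul 2 1 (.dotc 294380041442886156288 295639923438643052544 294425077439159861248 1)))) (.mx (.sub (.var 2) (.smul 2 1 (.dotc 294269703252015579136 295759268828768370688 294684034417733664768 1))) (.sub (.var 1) (.smul 2 1 (.dotc 294170624060213428224 295538592447027216384 294614228623509422080 1)))))))) <|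
  .done) <|
  .done

/-- The checks, on the vectors `Q, TA, us, ue`. -/
def ckMain : Ck :=
  .both ckRange <|
  .slet (.mul (.smul 51 100 (.var 6)) (.mul (.var 27) (.var 24))) <|
  .slet (.mul (.smul 1 8 (.mul (.var 7) (.var 7))) (.var 26)) <|
  .vmk (.neg (.mul (.var 0) (.var 23))) (.neg (.mul (.var 0) (.var 24))) (.var 0) <|
  .slet (.smul 1 2 (.sub (.var 6) (.rat 1813 10000))) <|
  .slet (.add (.var 0) (.smul 7 20 (.mul (.var 0) (.mul (.var 0) (.var 0))))) <|
  .slet (.sub (.sub (.var 32) (.cz 2)) (.cz 1)) <|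
  .slet (.sub (.var 16) (.smul 2 1 (.mul (.var 5) (.var 24)))) <|
  .slet (.add (.add (.var 34) (.var 0)) (.rat 1 10)) <|
  .both ckSide <|
  .slet (.smul 7 25 (.var 23)) <|
  .slet (.smul 49 600 (.var 24)) <|
  .slet (.mul (.var 1) (.var 23)) <|
  .slet (.neg (.mul (.var 2) (.var 25))) <|
  .vmk (.neg (.var 2)) (.var 1) (.var 0) <|
  .vmk (.var 2) (.var 1) (.var 0) <|
  .vadd 1 0 <|
  .slet (.mul (.var 7) (.var 23)) <|
  .slet (.mul (.var 8) (.var 25)) <|
  .slet (.add (.var 9) (.rat 11 60)) <|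
  .vmk (.neg (.mul (.var 2) (.var 22))) (.mul (.var 1) (.var 23)) (.neg (.mul (.var 1) (.var 24))) <|
  .slet (.smul 11 61 (.var 0)) <|
  .vmk (.neg (.mul (.smul 60 61 (.var 1)) (.var 23))) (.mul (.var 0) (.var 24)) (.neg (.mul (.var 0) (.var 25))) <|
  .vmk (.neg (.smul 29 79 (.var 23))) (.neg (.smul 319 4740 (.var 24))) (.smul 319 4740 (.var 25)) <|
  .vmk (.neg (.smul 675 4187 (.var 23))) (.neg (.smul 420 4187 (.var 24))) (.smul 420 4187 (.var 25)) <|
  .slet (.pp (.dotc 295816689724017344512 295860599820384206848 294494883233384103936 7)) <|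
  .slet (.pp (.add (.dotc 295816689724017344512 295860599820384206848 294494883233384103936 10) (.var 0))) <|
  .slet (.pp (.add (.dotc 295816689724017344512 295860599820384206848 294494883233384103936 11) (.var 1))) <|
  .slet (.pp (.dotc 295915768915819495424 295639923438643052544 294425077439159861248 7)) <|
  .slet (.pp (.add (.dotc 295915768915819495424 295639923438643052544 294425077439159861248 10) (.var 0))) <|
  .slet (.pp (.add (.dotc 295915768915819495424 295639923438643052544 294425077439159861248 11) (.var 1))) <|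
  .slet (.pp (.dotc 296026107106690072576 295759268828768370688 294684034417733664768 7)) <|
  .slet (.pp (.add (.dotc 296026107106690072576 295759268828768370688 294684034417733664768 10) (.var 0))) <|
  .slet (.pp (.add (.dotc 296026107106690072576 295759268828768370688 294684034417733664768 11) (.var 1))) <|
  .slet (.pp (.dotc 296125186298492223488 295538592447027216384 294614228623509422080 7)) <|
  .slet (.pp (.add (.dotc 296125186298492223488 295538592447027216384 294614228623509422080 10) (.var 0))) <|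
  .slet (.pp (.add (.dotc 296125186298492223488 295538592447027216384 294614228623509422080 11) (.var 1))) <|
  .slet (.mx (.mx (.var 10) (.var 7)) (.mx (.var 4) (.var 1))) <|
  .slet (.mx (.mx (.var 10) (.var 7)) (.mx (.var 4) (.var 1))) <|
  .slet (.add (.smul 2 1 (.mx (.mx (.add (.add (.mul (.var 28) (.add (.var 12) (.var 11))) (.pp (.dotc 295816689724017344512 295860599820384206848 294494883233384103936 6))) (.pp (.dotc 295816689724017344512 295860599820384206848 294494883233384103936 5))) (.add (.add (.mul (.var 28) (.add (.var 9) (.var 8))) (.pp (.dotc 295915768915819495424 295639923438643052544 294425077439159861248 6))) (.pp (.dotc 295915768915819495424 295639923438643052544 294425077439159861248 5)))) (.mx (.add (.add (.mul (.var 28) (.add (.var 6) (.var 5))) (.pp (.dotc 296026107106690072576 295759268828768370688 294684034417733664768 6))) (.pp (.dotc 296026107106690072576 295759268828768370688 294684034417733664768 5))) (.add (.add (.mul (.var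 28) (.add (.var 3) (.var 2))) (.pp (.dotc 296125186298492223488 295538592447027216384 294614228623509422080 6))) (.pp (.dotc 296125186298492223488 295538592447027216384 294614228623509422080 5)))))) (.rat 3041 10000)) <|
  .slet (.mul (.var 29) (.add (.pp (.neg (.cz 10))) (.pp (.neg (.cz 11))))) <|
  .slet (.add (.var 24) (.rat 7 10)) <|
  .slet (.add (.var 0) (.smul 2 1 (.add (.add (.var 1) (.smul 2 1 (.pp (.neg (.var 21))))) (.rat 182 1000)))) <|
  .both ckZero <|
  .both ckB1 <|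
  .both ckB2 <|
  .both ckB5 <|
  .both ckB6 <|
  .both ckA3 <|
  .both ckBall <|
  .both ckMid <|
  .done

/-- The checks. -/
def ck : Ck :=
  .vmk (.var 39) (.var 40) (.var 41) <|
  .vmk (.var 36) (.var 37) (.var 38) <|
  .vmk (.var 33) (.var 34) (.var 35) <|
  .vmk (.var 30) (.var 31) (.var 32) ckMain

end Pool.Agent.Lib.MP_ee7495_gt.Y
end

-- part Pool.Agent.Lib.MP_ee7495_gt.Y.Sym
section

/-! Definitions for the extremal curve attached to a critical point `z` of `ell`. -/

set_option autoImplicit false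

open scoped RealInnerProductSpace
open Real Set

namespace Pool.Agent.Lib.MP_ee7495_gt.Y

section
variable (z : Fin 9 → ℝ)

noncomputable def zA : E := vec 0 (z 0) 1
noncomputable def zF : E := vec 0 1 (-z 0)
noncomputable def zB : E := vec (z 1) (z 2) (-1)
noncomputable def zC : E := vec (-z 1) (z 2) (-1)
noncomputable def zI : E := vec (-1) 0 0
noncomputable def zJ : E := vec 0 (cos (z 6)) (-sin (z 6))
noncomputable def zK : E := vec 0 (sin (z 6)) (cos (z 6))
noncomputable def zP : E :=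
  (sin (z 3) / ‖zA z‖) • zA z + cos (z 3) • (sin (z 4) • zI + (cos (z 4) / ‖zA z‖) • zF z)
noncomputable def zT : E := cos (z 7) • zK z + sin (z 7) • (cos (z 8) • zI + sin (z 8) • zJ z)
noncomputable def zE : E := cos (z 7) • zK z + sin (z 7) • (cos (z 8) • zI - sin (z 8) • zJ z)

theorem ell_eq : ell z = 2 * z 4 * cos (z 3) + ‖zA z‖ * sin (z 3) + 2 * z 8 * sin (z 7) +
    2 * ⟪zB z, zP z - zT z⟫ + 2 * ⟪zA z, coneV (zC z) (zE z) (z 5)⟫ -
    2 * cos (z 7) * ⟪zA z, zK z⟫ := rfl

noncomputable def zN : E := coneN (zC z) (zE z)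
noncomputable def zV (t : ℝ) : E := coneV (zC z) (zE z) t
noncomputable def zM (t : ℝ) : E := coneM (zC z) (zE z) t
noncomputable def zU (t : ℝ) : E := coneU (zC z) (zE z) t
noncomputable def zKap (t : ℝ) : ℝ := kapT (zC z) (zE z) t
noncomputable def zSig (t : ℝ) : ℝ := sigT (zC z) (zE z) t
/-- Clairaut constant (negative). -/
noncomputable def zLam : ℝ := ⟪zA z, zM z (z 5)⟫
noncomputable def zMu (t : ℝ) : ℝ := zLam z * zKap z t / zSig z t
/-- The arc on the cone, run through from `t = z 5` down to `t = 0`. -/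
noncomputable def zY (t : ℝ) : E := zA z - zLam z • zM z t - zMu z t • zV z t
noncomputable def zBe : E := -zB z - (1 / 2 : ℝ) • zA z
noncomputable def zZe : E := (1 / 2 : ℝ) • zA z - zLam z • zN z
noncomputable def zXm : ℝ :=
  (⟪zBe z - zZe z, zK z⟫ - cos (z 7) * z 8 / sin (z 7)) / cos (z 7)
noncomputable def zXp : ℝ := ⟪zBe z + zZe z, zK z⟫ / cos (z 7)
/-- Length of the segment that ends at `B`. -/
noncomputable def zx : ℝ := (zXp z + zXm z) / 2
noncomputable def zmu : ℝ := (zXp z - zXm z) / 2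
noncomputable def zo : ℝ := -(⟪zBe z + zZe z, zI⟫ - zXp z * sin (z 7) * cos (z 8)) / 2
noncomputable def zO : E := (1 / 2 : ℝ) • zA z - zo z • zI
noncomputable def zU5 (t : ℝ) : E := (-sin t) • zI + cos t • zJ z
/-- The helix of radius one half, run through from `t = -z 8` to `t = z 8`. -/
noncomputable def zX (t : ℝ) : E :=
  zO z - (1 / 2 : ℝ) • zU5 z t + (t * cos (z 7) / (2 * sin (z 7))) • zK z
/-- The helix of radius one, run through from `t = z 4` down to `t = -z 4`. -/
noncomputable def zH (t : ℝ) : E :=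
  cos t • zI - (sin t / ‖zA z‖) • zF z + ((‖zA z‖ / 2 - tan (z 3) * t) / ‖zA z‖) • zA z
/-- Length of the segment that starts at `B`. -/
noncomputable def zxP : ℝ := (‖zA z‖ / 2 - z 4 * tan (z 3)) * sin (z 3) + ⟪zB z, zP z⟫
/-- The symmetry of the curve. -/
noncomputable def zS (p : E) : E := mir (zA z - p)

/-- First half of the curve, from `A = 0` through `B = -zB z` to `zH z 0`. -/
def Half : Set E :=
  segment ℝ 0 (zY z (z 5)) ∪ zY z '' Icc 0 (z 5) ∪ segment ℝ (zY z 0) (zX z (-z 8)) ∪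
    zX z '' Icc (-z 8) (z 8) ∪ segment ℝ (zX z (z 8)) (-zB z) ∪ segment ℝ (-zB z) (zH z (z 4)) ∪
    zH z '' Icc 0 (z 4)

/-- The whole curve as a set. -/
def Gam : Set E := Half z ∪ zS z '' Half z

/-- The six partial derivatives in the dual variables vanish. -/
structure Part : Prop where
  dr : ⟪zB z, cos (z 4) • zI - (sin (z 4) / ‖zA z‖) • zF z⟫ = -1
  de : -2 * z 4 * sin (z 3) + ‖zA z‖ * cos (z 3) + 2 * ⟪zB z, (cos (z 3) / ‖zA z‖) • zA z -
    sin (z 3) • (sin (z 4) • zI + (cos (z 4) / ‖zA z‖) • zF z)⟫ = 0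
  dD : ⟪zA z, zU z (z 5)⟫ = 0
  dch : ⟪zBe z, sin (z 7) • ((-sin (z 8)) • zI + cos (z 8) • zJ z)⟫ -
    ⟪zZe z, sin (z 7) • ((-sin (z 8)) • zI - cos (z 8) • zJ z)⟫ + sin (z 7) = 0
  det : ⟪zBe z, (-sin (z 7)) • zK z + cos (z 7) • (cos (z 8) • zI + sin (z 8) • zJ z)⟫ -
    ⟪zZe z, (-sin (z 7)) • zK z + cos (z 7) • (cos (z 8) • zI - sin (z 8) • zJ z)⟫ +
    z 8 * cos (z 7) = 0
  dom : ⟪zBe z, cos (z 7) • zJ z - (sin (z 7) * sin (z 8)) • zK z⟫ -
    ⟪zZe z, cos (z 7) • zJ z + (sin (z 7) * sin (z 8)) • zK z⟫ = 0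

/-- The closing conditions of the curve. -/
structure Close : Prop where
  k1 : ⟪zA z, zU z (z 5)⟫ = 0
  k2 : zH z (z 4) = -zB z + zxP z • zP z
  k3 : zX z (z 8) + zx z • zT z = -zB z
  k4 : zA z - zX z (-z 8) = zLam z • zN z + zmu z • zE z

end

/-- Two reals within `10⁻⁴`. -/
def Nr (a b : ℝ) : Prop := |a - b| ≤ 1 / 10000

/-- A vector within `10⁻⁴` of given coordinates. -/
def Nv (v : E) (x y w : ℝ) : Prop := Nr (v 0) x ∧ Nr (v 1) y ∧ Nr (v 2) w

/-- Numerical enclosures near the approximate critical point. -/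
structure Num (z : Fin 9 → ℝ) : Prop where
  box : ∀ i, |z i - z0 i| ≤ 1 / 1000000
  nA : Nr ‖zA z‖ 1.42500
  rho : Nr ‖zC z‖ 1.30962
  ka : Nr ⟪zC z, zE z⟫ (-0.24309)
  nu : Nr (‖zC z‖ ^ 2 - ⟪zC z, zE z⟫ ^ 2) 1.65601
  sig0 : Nr (zSig z 0) 0.80994
  sigD : Nr (zSig z (z 5)) 0.74548
  kapD : Nr (zKap z (z 5)) (-0.39919)
  lam : Nr (zLam z) (-1.16881)
  mu0 : Nr (zMu z 0) 0.35080
  muD : Nr (zMu z (z 5)) 0.62587
  aV : Nr ⟪zA z, zV z (z 5)⟫ 0.81516
  x : Nr (zx z) 0.36173
  mu : Nr (zmu z) 0.19769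
  o : Nr (zo z) (-0.47592)
  xP : Nr (zxP z) 0.10115
  se : Nr (sin (z 3)) (-0.20392)
  ce : Nr (cos (z 3)) 0.97899
  te : Nr (tan (z 3)) (-0.20830)
  sr : Nr (sin (z 4)) 0.49010
  cr : Nr (cos (z 4)) 0.87166
  so : Nr (sin (z 6)) 0.25765
  co : Nr (cos (z 6)) 0.96624
  sh : Nr (sin (z 7)) 0.66124
  ch : Nr (cos (z 7)) 0.75017
  sx : Nr (sin (z 8)) 0.22873
  cx : Nr (cos (z 8)) 0.97349
  vP : Nv (zP z) (-0.47980) 0.45357 (-0.75104)
  vT : Nv (zT z) (-0.64371) 0.33942 0.68588
  vE : Nv (zE z) (-0.64371) 0.04715 0.76382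
  vN : Nv (zN z) (-0.41821) (-0.85755) (-0.29952)
  vVD : Nv (zV z (z 5)) (-0.53441) (-0.02912) 0.84472
  vMD : Nv (zM z (z 5)) (-0.37271) (-0.88887) (-0.26643)
  vU0 : Nv (zU z 0) (-0.64089) 0.51223 (-0.57173)
  vUD : Nv (zU z (z 5)) (-0.75861) 0.45723 (-0.46417)
  vYD : Nv (zY z (z 5)) (-0.10116) (-0.00551) 0.15990
  vY0 : Nv (zY z 0) (-0.26299) (-0.00366) 0.38197
  vX1 : Nv (zX z (-z 8)) (-0.36155) 0.00356 0.49893
  vX0 : Nv (zX z 0) (-0.47592) 0.02448 0.62883
  vX2 : Nv (zX z (z 8)) (-0.59028) 0.07101 0.75190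
  vHr : Nv (zH z (z 4)) (-0.87167) 0.23967 0.92403
  vHh : Nv (zH z (z 4 / 2)) (-0.96738) 0.36784 0.71790
  vH0 : Nv (zH z 0) (-1) 0.50760 0.5

/-- The set `S` has width at least `‖v‖` in the direction `v`. -/
def Wd (S : Set E) (v : E) : Prop := ∃ p ∈ S, ∃ q ∈ S, ‖v‖ ≤ ⟪p - q, v⟫

/-- A curve from `p` to `q` of length at most `L` that passes through all points of `S`. -/
def HasCurve (p q : E) (L : ℝ) (S : Set E) : Prop :=
  ∃ γ : ℝ → E, ContinuousOn γ (Icc 0 1) ∧ γ 0 = p ∧ γ 1 = q ∧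
    eVariationOn γ (Icc 0 1) ≤ ENNReal.ofReal L ∧ S ⊆ γ '' Icc 0 1

/-- Frame adapted to the third family of directions. -/
noncomputable def On : E := vec (-431 / 611) (294 / 611) (-318 / 611)
noncomputable def Oe1 : E := vec (-426 / 611) (-207 / 611) (386 / 611)
noncomputable def Oe2 : E := vec (-78 / 611) (-494 / 611) (-351 / 611)

/-- Directions near the great circle arc orthogonal to `A D`. -/
def Strip2 (v : E) : Prop :=
  |v 1 - 1.0152 * v 2| ≤ 1.13 * (-v 0) ∧ |1.0152 * v 1 + v 2| ≤ 1.8 * (-v 0)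

/-- Directions near the small circle arc of the cone. -/
def Strip3 (v : E) : Prop :=
  -0.19 * ⟪On, v⟫ ≤ ⟪Oe1, v⟫ ∧ ⟪Oe1, v⟫ ≤ 0.18 * ⟪On, v⟫ ∧ |⟪Oe2, v⟫| ≤ 0.2 * ⟪On, v⟫

/-- Directions near the great circle arc orthogonal to the axis of the small helices. -/
def Strip5 (v : E) : Prop :=
  |v 0| + |0.2577 * v 1 + 0.9662 * v 2| ≤ 0.4 * (0.9662 * v 1 - 0.2577 * v 2)

/-- Directions near the vertical. -/
def Cap (v : E) : Prop := |v 0| ≤ 0.3 * |v 2| ∧ |v 1| ≤ 0.3 * |v 2|

end Pool.Agent.Lib.MP_ee7495_gt.Y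
end
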