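import Mathlib
import Pool.Agent.Lib.MP_ee7495_gt.Y.Sym

-- part Pool.Agent.Lib.MP_ee7495_gt.Y.TMa
section

set_option autoImplicit false

namespace Pool.Agent.Lib.MP_ee7495_gt.Y

theorem tma_mag_nonneg (x : ℕ) : 0 ≤ mag x := by unfold mag; positivity

theorem tma_mag_add (x y : ℕ) : mag (x + y) = mag x + mag y := by
  simp only [mag, Nat.cast_add, add_div]

theorem tma_mag_mono {x y : ℕ} (h : x ≤ y) : mag x ≤ mag y :=
  div_le_div_of_nonneg_right (Nat.cast_le.2 h) (by positivity)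

theorem tma_bd_nonneg {δ : ℕ → ℝ} {t : ℝ} (h : Bd δ t) : 0 ≤ t := (abs_nonneg _).trans (h 0)

theorem tma_bd_tail {δ : ℕ → ℝ} {t : ℝ} (h : Bd δ t) : Bd (fun i => δ (i + 1)) t :=
  fun i => h (i + 1)

theorem tma_div (n : ℕ) : ((n / 2 ^ 60 : ℕ) : ℝ) * 2 ^ 60 ≤ n ∧
    (n : ℝ) ≤ (((n / 2 ^ 60 : ℕ) : ℝ) + 1) * 2 ^ 60 := by
  have h1 : n / 2 ^ 60 * 2 ^ 60 ≤ n := Nat.div_mul_le_self _ _
  have h2 : n ≤ (n / 2 ^ 60 + 1) * 2 ^ 60 := by
    have := Nat.lt_mul_div_succ n (show 0 < 2 ^ 60 by positivity)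
    rw [mul_comm] at this
    exact this.le
  exact ⟨by exact_mod_cast h1, by exact_mod_cast h2⟩

theorem tma_floor {P Q : ℕ} (h : 0 < Nat.shiftRight (Nat.sub P Q) 60) {w : ℝ}
    (hw : (P : ℝ) - Q = w * 2 ^ 120 + 2 ^ 128) :
    |val (Nat.shiftRight (Nat.sub P Q) 60) - w| ≤ mag 1 := by
  have e : Nat.shiftRight (Nat.sub P Q) 60 = (P - Q) / 2 ^ 60 := Nat.shiftRight_eq_div_pow _ _
  rw [e] at h ⊢
  have hQ : Q ≤ P := by
    by_contra hc
    rw [Nat.sub_eq_zero_of_le (not_le.1 hc).le, Nat.zero_div] at h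
    exact lt_irrefl _ h
  obtain ⟨h1, h2⟩ := tma_div (P - Q)
  rw [Nat.cast_sub hQ, hw] at h1 h2
  generalize (((P - Q) / 2 ^ 60 : ℕ)) = n at h1 h2
  rw [val, mag, abs_le]
  constructor <;> push_cast <;> linarith

theorem mag_ab (x : ℕ) : mag (ab x) = |val x| := by
  rw [mag, val, abs_div, abs_of_pos (show (0 : ℝ) < 2 ^ 60 by positivity)]
  congr 1
  simp only [ab, Nat.add_eq, Nat.sub_eq]
  rcases le_total x 295147905179352825856 with h | h
  · have h' : (x : ℝ) ≤ 295147905179352825856 := by exact_mod_cast h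
    rw [Nat.sub_eq_zero_of_le h, zero_add, Nat.cast_sub h, abs_of_nonpos (by linarith)]
    norm_num
  · have h' : (295147905179352825856 : ℝ) ≤ x := by exact_mod_cast h
    rw [Nat.sub_eq_zero_of_le h, add_zero, Nat.cast_sub h, abs_of_nonneg (by linarith)]
    norm_num

theorem um_ge (x y : ℕ) : mag x * mag y ≤ mag (um x y) := by
  have e : um x y = x * y / 2 ^ 60 + 1 := congrArg (· + 1) (Nat.shiftRight_eq_div_pow _ _)
  have h := (tma_div (x * y)).2
  rw [e]
  generalize (x * y / 2 ^ 60 : ℕ) = n at h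
  simp only [mag]
  push_cast at h ⊢
  linarith

theorem val_ba {x y : ℕ} (h : 0 < ba x y) : val (ba x y) = val x + val y := by
  have h' : 295147905179352825856 ≤ x + y := (Nat.sub_pos_iff_lt.1 h).le
  have e : ((ba x y : ℕ) : ℝ) = ((x + y : ℕ) : ℝ) - ((295147905179352825856 : ℕ) : ℝ) :=
    Nat.cast_sub h'
  simp only [val, e]
  push_cast
  ring

theorem val_bs {x y : ℕ} (h : 0 < bs x y) : val (bs x y) = val x - val y := by
  simp only [bs, Nat.add_eq, Nat.sub_eq] at h ⊢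
  rw [val, Nat.cast_sub (by omega), val, val]
  push_cast
  ring

theorem val_bn {x : ℕ} (h : 0 < bn x) : val (bn x) = -val x := by
  simp only [bn, Nat.sub_eq] at h ⊢
  rw [val, Nat.cast_sub (by omega), val]
  push_cast
  ring

theorem tma_shl (n : ℕ) : Nat.shiftLeft n 68 = n * 2 ^ 68 := Nat.shiftLeft_eq _ _

theorem val_bm {a x : ℕ} (h : 0 < bm a x) : |val (bm a x) - val a * val x| ≤ mag 1 := by
  refine tma_floor h ?_
  simp only [tma_shl, Nat.add_eq, Nat.mul_eq, val]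
  push_cast
  ring

theorem val_bm2 {a b x y : ℕ} (h : 0 < bm2 a b (Nat.add a b) x y) :
    |val (bm2 a b (Nat.add a b) x y) - (val a * val y + val b * val x)| ≤ mag 1 := by
  refine tma_floor h ?_
  simp only [tma_shl, Nat.add_eq, Nat.mul_eq, val]
  push_cast
  ring

theorem val_bm3 {a b u K x y z : ℕ} (hK : K = a + b + u) (h : 0 < bm3 a b u K x y z) :
    |val (bm3 a b u K x y z) - (val a * val y + val b * val x + val u * val z)| ≤ mag 1 := by
  subst hK
  refine tma_floor h ?_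
  simp only [tma_shl, Nat.add_eq, Nat.mul_eq, val]
  push_cast
  ring

theorem tma_step {p e r u t w : ℝ} (h1 : |p| ≤ u) (h2 : |e| ≤ t) (h3 : |r| ≤ w) :
    |p * e + r| ≤ u * t + w := by
  refine (abs_add_le _ _).trans (add_le_add ?_ h3)
  rw [abs_mul]
  exact mul_le_mul h1 h2 (abs_nonneg _) ((abs_nonneg _).trans h1)

theorem NL.dot_le (l : NL) {δ : ℕ → ℝ} {t : ℝ} (h : Bd δ t) : |l.dot δ| ≤ mag l.asum * t := by
  induction l generalizing δ with
  | nil => simp [NL.dot, NL.asum, mag]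
  | cons a l ih =>
    rw [NL.dot, NL.asum, tma_mag_add, add_mul, mag_ab]
    exact tma_step le_rfl (h 0) (ih (tma_bd_tail h))

theorem NLL.quad_le (q : NLL) {ε δ : ℕ → ℝ} {s t : ℝ} (hs : Bd ε s) (h : Bd δ t) :
    |q.quad ε δ| ≤ mag q.asum * (s * t) := by
  induction q generalizing ε with
  | nil => simp [NLL.quad, NLL.asum, mag]
  | cons a q ih =>
    rw [NLL.quad, NLL.asum, tma_mag_add]
    refine (tma_step (hs 0) (a.dot_le h) (ih (tma_bd_tail hs))).trans_eq ?_
    ring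

theorem tma_map1 (f : ℕ → ℕ) (x : ℕ) (xs : NL) (k : NL → ℕ → Bool) :
    map1 f (.cons x xs) k = frp (f x) fun v => map1 f xs fun r s =>
      frc (Nat.add s (ab v)) fun s => k (.cons v r) s := rfl

theorem tma_map2 (f : ℕ → ℕ → ℕ) (x y : ℕ) (xs ys : NL) (k : NL → ℕ → Bool) :
    map2 f (.cons x xs) (.cons y ys) k = frp (f x y) fun v => map2 f xs ys fun r s =>
      frc (Nat.add s (ab v)) fun s => k (.cons v r) s := rfl

theorem tma_map3 (f : ℕ → ℕ → ℕ → ℕ) (x y z : ℕ) (xs ys zs : NL) (k : NL → ℕ → Bool) :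
    map3 f (.cons x xs) (.cons y ys) (.cons z zs) k = frp (f x y z) fun v =>
      map3 f xs ys zs fun r s => frc (Nat.add s (ab v)) fun s => k (.cons v r) s := rfl

theorem map1_sound {f : ℕ → ℕ} {α u : ℝ} (hf : ∀ x, 0 < f x → |val (f x) - α * val x| ≤ u)
    (xs : NL) {k : NL → ℕ → Bool} (H : map1 f xs k = true) :
    ∃ r : NL, r.len = xs.len ∧ k r r.asum = true ∧
      ∀ δ t, Bd δ t → |r.dot δ - α * xs.dot δ| ≤ r.len * u * t := by
  induction xs generalizing k with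
  | nil => exact ⟨.nil, rfl, H, fun δ t _ => by simp [NL.dot, NL.len]⟩
  | cons x xs ih =>
    rw [tma_map1] at H
    obtain ⟨h0, H⟩ := frp_true H
    obtain ⟨r, h1, h2, h3⟩ := ih H
    rw [frc_eq, Nat.add_eq, add_comm] at h2
    refine ⟨.cons (f x) r, congrArg (· + 1) h1, h2, fun δ t h => ?_⟩
    simp only [NL.dot, NL.len]
    convert tma_step (hf x h0) (h 0) (h3 _ t (tma_bd_tail h)) using 1
    · congr 1
      ring
    · push_cast
      ring

theorem map2_sound {f : ℕ → ℕ → ℕ} {α β u : ℝ}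
    (hf : ∀ x y, 0 < f x y → |val (f x y) - (α * val x + β * val y)| ≤ u)
    (xs ys : NL) {k : NL → ℕ → Bool} (H : map2 f xs ys k = true) :
    ∃ r : NL, r.len = xs.len ∧ r.len = ys.len ∧ k r r.asum = true ∧
      ∀ δ t, Bd δ t → |r.dot δ - (α * xs.dot δ + β * ys.dot δ)| ≤ r.len * u * t := by
  induction xs generalizing ys k with
  | nil =>
    cases ys with
    | nil => exact ⟨.nil, rfl, rfl, H, fun δ t _ => by simp [NL.dot, NL.len]⟩
    | cons y ys => exact absurd H Bool.false_ne_true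
  | cons x xs ih =>
    cases ys with
    | nil => exact absurd H Bool.false_ne_true
    | cons y ys =>
      rw [tma_map2] at H
      obtain ⟨h0, H⟩ := frp_true H
      obtain ⟨r, h1, h1', h2, h3⟩ := ih ys H
      rw [frc_eq, Nat.add_eq, add_comm] at h2
      refine ⟨.cons (f x y) r, congrArg (· + 1) h1, congrArg (· + 1) h1', h2, fun δ t h => ?_⟩
      simp only [NL.dot, NL.len]
      convert tma_step (hf x y h0) (h 0) (h3 _ t (tma_bd_tail h)) using 1
      · congr 1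
        ring
      · push_cast
        ring

theorem map3_sound {f : ℕ → ℕ → ℕ → ℕ} {α β γ u : ℝ}
    (hf : ∀ x y z, 0 < f x y z → |val (f x y z) - (α * val x + β * val y + γ * val z)| ≤ u)
    (xs ys zs : NL) {k : NL → ℕ → Bool} (H : map3 f xs ys zs k = true) :
    ∃ r : NL, r.len = xs.len ∧ r.len = ys.len ∧ r.len = zs.len ∧ k r r.asum = true ∧
      ∀ δ t, Bd δ t →
        |r.dot δ - (α * xs.dot δ + β * ys.dot δ + γ * zs.dot δ)| ≤ r.len * u * t := by
  induction xs generalizing ys zs k with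
  | nil =>
    cases ys with
    | nil =>
      cases zs with
      | nil => exact ⟨.nil, rfl, rfl, rfl, H, fun δ t _ => by simp [NL.dot, NL.len]⟩
      | cons z zs => exact absurd H Bool.false_ne_true
    | cons y ys => exact absurd H Bool.false_ne_true
  | cons x xs ih =>
    cases ys with
    | nil => exact absurd H Bool.false_ne_true
    | cons y ys =>
      cases zs with
      | nil => exact absurd H Bool.false_ne_true
      | cons z zs =>
        rw [tma_map3] at H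
        obtain ⟨h0, H⟩ := frp_true H
        obtain ⟨r, h1, h1', h1'', h2, h3⟩ := ih ys zs H
        rw [frc_eq, Nat.add_eq, add_comm] at h2
        refine ⟨.cons (f x y z) r, congrArg (· + 1) h1, congrArg (· + 1) h1',
          congrArg (· + 1) h1'', h2, fun δ t h => ?_⟩
        simp only [NL.dot, NL.len]
        convert tma_step (hf x y z h0) (h 0) (h3 _ t (tma_bd_tail h)) using 1
        · congr 1
          ring
        · push_cast
          ring

theorem tma_nine {n : ℕ} (hn : n ≤ 9) {u t w : ℝ} (hu : 0 ≤ u) (ht : 0 ≤ t) (h : w ≤ n * u * t) :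
    w ≤ 9 * u * t := by
  have : (n : ℝ) ≤ 9 := by exact_mod_cast hn
  exact h.trans (by gcongr)

theorem tma_mapq1 {f : ℕ → ℕ} {α u : ℝ} (hf : ∀ x, 0 < f x → |val (f x) - α * val x| ≤ u)
    (hu : 0 ≤ u) (xs : NLL) (hx : xs.short) {k : NLL → ℕ → Bool} (H : mapq1 f xs k = true) :
    ∃ r : NLL, r.rows = xs.rows ∧ r.short ∧ k r r.asum = true ∧ ∀ ε δ s t, Bd ε s → Bd δ t →
      |r.quad ε δ - α * xs.quad ε δ| ≤ r.rows * (9 * u * t) * s := by
  induction xs generalizing k with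
  | nil => exact ⟨.nil, rfl, trivial, H, fun ε δ s t _ _ => by simp [NLL.quad, NLL.rows]⟩
  | cons x xs ih =>
    obtain ⟨w, g1, H, g3⟩ := map1_sound hf x H
    obtain ⟨r, h1, h1', h2, h3⟩ := ih hx.2 H
    rw [frc_eq, Nat.add_eq, add_comm] at h2
    have hw : w.len ≤ 9 := g1.trans_le hx.1
    refine ⟨.cons w r, congrArg (· + 1) h1, ⟨hw, h1'⟩, h2, fun ε δ s t hs h => ?_⟩
    simp only [NLL.quad, NLL.rows]
    convert tma_step (tma_nine hw hu (tma_bd_nonneg h) (g3 δ t h)) (hs 0)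
      (h3 _ δ s t (tma_bd_tail hs) h) using 1
    · congr 1
      ring
    · push_cast
      ring

theorem tma_mapq2 {f : ℕ → ℕ → ℕ} {α β u : ℝ}
    (hf : ∀ x y, 0 < f x y → |val (f x y) - (α * val x + β * val y)| ≤ u)
    (hu : 0 ≤ u) (xs ys : NLL) (hx : xs.short) {k : NLL → ℕ → Bool}
    (H : mapq2 f xs ys k = true) :
    ∃ r : NLL, r.rows = xs.rows ∧ r.short ∧ k r r.asum = true ∧ ∀ ε δ s t, Bd ε s → Bd δ t →
      |r.quad ε δ - (α * xs.quad ε δ + β * ys.quad ε δ)| ≤ r.rows * (9 * u * t) * s := by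
  induction xs generalizing ys k with
  | nil =>
    cases ys with
    | nil => exact ⟨.nil, rfl, trivial, H, fun ε δ s t _ _ => by simp [NLL.quad, NLL.rows]⟩
    | cons y ys => exact absurd H Bool.false_ne_true
  | cons x xs ih =>
    cases ys with
    | nil => exact absurd H Bool.false_ne_true
    | cons y ys =>
      obtain ⟨w, g1, -, H, g3⟩ := map2_sound hf x y H
      obtain ⟨r, h1, h1', h2, h3⟩ := ih ys hx.2 H
      rw [frc_eq, Nat.add_eq, add_comm] at h2
      have hw : w.len ≤ 9 := g1.trans_le hx.1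
      refine ⟨.cons w r, congrArg (· + 1) h1, ⟨hw, h1'⟩, h2, fun ε δ s t hs h => ?_⟩
      simp only [NLL.quad, NLL.rows]
      convert tma_step (tma_nine hw hu (tma_bd_nonneg h) (g3 δ t h)) (hs 0)
        (h3 _ δ s t (tma_bd_tail hs) h) using 1
      · congr 1
        ring
      · push_cast
        ring

theorem tma_comb {β x y u v : ℝ} (hβ : |β| = 1) (hx : |x| ≤ u) (hy : |y| ≤ v) :
    |x + β * y| ≤ u + v := by
  refine (abs_add_le _ _).trans (add_le_add hx ?_)
  rwa [abs_mul, hβ, one_mul]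

theorem tma_lin {F : ℕ → ℕ → ℕ} {β : ℝ} (hβ : |β| = 1)
    (hF : ∀ x y, 0 < F x y → val (F x y) = val x + β * val y)
    {a b : TM} {f g : (ℕ → ℝ) → ℝ} {k : TM → Bool} (ha : G a f) (hb : G b g)
    (H : TM.lin F a b k = true) : ∃ c, G c (fun δ => f δ + β * g δ) ∧ k c = true := by
  have hf : ∀ x y, 0 < F x y → |val (F x y) - (1 * val x + β * val y)| ≤ 0 := fun x y h => by
    rw [hF x y h, one_mul, sub_self, abs_zero]
  obtain ⟨ac, al, aq, ab1, ab2, ae0, ae1, ae2⟩ := a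
  obtain ⟨bc, bl, bq, bb1, bb2, be0, be1, be2⟩ := b
  dsimp only [TM.lin] at H
  obtain ⟨h0, H⟩ := frp_true H
  obtain ⟨l, l1, -, H, l2⟩ := map2_sound hf al bl H
  obtain ⟨q, q1, q2, H, q3⟩ := tma_mapq2 hf le_rfl aq bq ha.short H
  simp only [frc_eq, Nat.add_eq] at H
  obtain ⟨ℓ, a1, a2⟩ := ha.h12
  obtain ⟨ℓ', b1, b2⟩ := hb.h12
  refine ⟨_, ⟨l1.trans_le ha.len, q1.trans_le ha.rows, q2, le_rfl, le_rfl, ?_, ℓ + β • ℓ',
    fun δ t h => ?_, fun δ t h ht => ?_⟩, H⟩
  · simp only [tma_mag_add, hF _ _ h0]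
    convert tma_comb hβ ha.h0 hb.h0 using 2
    ring
  · have e := l2 δ t h
    rw [mul_zero, zero_mul, abs_nonpos_iff, sub_eq_zero] at e
    simp only [tma_mag_add, add_mul, e, LinearMap.add_apply, LinearMap.smul_apply, smul_eq_mul]
    convert tma_comb hβ (a1 δ t h) (b1 δ t h) using 2
    ring
  · have e := q3 δ δ t t h h
    rw [mul_zero, zero_mul, mul_zero, zero_mul, abs_nonpos_iff, sub_eq_zero] at e
    simp only [tma_mag_add, add_mul, e, LinearMap.add_apply, LinearMap.smul_apply, smul_eq_mul]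
    convert tma_comb hβ (a2 δ t h ht) (b2 δ t h ht) using 2
    ring

theorem TM.add_sound {a b : TM} {f g : (ℕ → ℝ) → ℝ} {k : TM → Bool} (ha : G a f) (hb : G b g)
    (H : TM.lin ba a b k = true) : ∃ c, G c (fun δ => f δ + g δ) ∧ k c = true := by
  simpa only [one_mul] using tma_lin (β := 1) abs_one
    (fun x y h => by rw [val_ba h, one_mul]) ha hb H

theorem TM.sub_sound {a b : TM} {f g : (ℕ → ℝ) → ℝ} {k : TM → Bool} (ha : G a f) (hb : G b g)
    (H : TM.lin bs a b k = true) : ∃ c, G c (fun δ => f δ - g δ) ∧ k c = true := by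
  simpa only [neg_one_mul, ← sub_eq_add_neg] using tma_lin (β := -1) (by simp)
    (fun x y h => by rw [val_bs h, neg_one_mul, sub_eq_add_neg]) ha hb H

theorem TM.neg_sound {a : TM} {f : (ℕ → ℝ) → ℝ} {k : TM → Bool} (ha : G a f)
    (H : TM.neg a k = true) : ∃ c, G c (fun δ => -f δ) ∧ k c = true := by
  have hf : ∀ x, 0 < bn x → |val (bn x) - (-1) * val x| ≤ 0 := fun x h => by
    rw [val_bn h, neg_one_mul, sub_self, abs_zero]
  obtain ⟨ac, al, aq, ab1, ab2, ae0, ae1, ae2⟩ := a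
  dsimp only [TM.neg] at H
  obtain ⟨h0, H⟩ := frp_true H
  obtain ⟨l, l1, H, l2⟩ := map1_sound hf al H
  obtain ⟨q, q1, q2, H, q3⟩ := tma_mapq1 hf le_rfl aq ha.short H
  obtain ⟨ℓ, a1, a2⟩ := ha.h12
  refine ⟨_, ⟨l1.trans_le ha.len, q1.trans_le ha.rows, q2, le_rfl, le_rfl, ?_, -ℓ,
    fun δ t h => ?_, fun δ t h ht => ?_⟩, H⟩
  · simp only [val_bn h0]
    convert (abs_neg _).trans_le ha.h0 using 2
    ring
  · have e := l2 δ t h
    rw [mul_zero, zero_mul, abs_nonpos_iff, sub_eq_zero] at e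
    simp only [e, LinearMap.neg_apply]
    convert (abs_neg _).trans_le (a1 δ t h) using 2
    ring
  · have e := q3 δ δ t t h h
    rw [mul_zero, zero_mul, mul_zero, zero_mul, abs_nonpos_iff, sub_eq_zero] at e
    simp only [e, LinearMap.neg_apply]
    convert (abs_neg _).trans_le (a2 δ t h ht) using 2
    ring

theorem TM.addc_sound {K : ℕ} {a : TM} {f : (ℕ → ℝ) → ℝ} {k : TM → Bool} (ha : G a f)
    (H : TM.addc K a k = true) : ∃ c, G c (fun δ => f δ + val K) ∧ k c = true := by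
  obtain ⟨ac, al, aq, ab1, ab2, ae0, ae1, ae2⟩ := a
  dsimp only [TM.addc] at H
  obtain ⟨h0, H⟩ := frp_true H
  obtain ⟨ℓ, a1, a2⟩ := ha.h12
  refine ⟨⟨ba ac K, al, aq, ab1, ab2, ae0, ae1, ae2⟩,
    ⟨ha.len, ha.rows, ha.short, ha.hb1, ha.hb2, ?_, ℓ, a1, fun δ t h ht => ?_⟩, H⟩
  · simp only [val_ba h0, add_sub_add_right_eq_sub]
    exact ha.h0
  · simp only [add_sub_add_right_eq_sub]
    exact a2 δ t h ht

theorem tma_scale {K e n : ℕ} {x y t : ℝ} (ht : 0 ≤ t) (hx : |x| ≤ mag e * t)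
    (hy : |y| ≤ mag n * t) : |val K * x - y| ≤ mag (um (ab K) e + n) * t := by
  rw [tma_mag_add, add_mul]
  refine (abs_sub _ _).trans (add_le_add ?_ hy)
  rw [abs_mul, ← mag_ab]
  refine (mul_le_mul_of_nonneg_left hx (tma_mag_nonneg _)).trans ?_
  rw [← mul_assoc]
  exact mul_le_mul_of_nonneg_right (um_ge _ _) ht

theorem TM.smul_sound {K : ℕ} {a : TM} {f : (ℕ → ℝ) → ℝ} {k : TM → Bool} (ha : G a f)
    (H : TM.smul K a k = true) : ∃ c, G c (fun δ => val K * f δ) ∧ k c = true := by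
  have hf : ∀ x, 0 < bm K x → |val (bm K x) - val K * val x| ≤ mag 1 := fun x h => val_bm h
  have m0 := tma_mag_nonneg 1
  obtain ⟨ac, al, aq, ab1, ab2, ae0, ae1, ae2⟩ := a
  dsimp only [TM.smul] at H
  obtain ⟨h0, H⟩ := frp_true H
  obtain ⟨l, l1, H, l2⟩ := map1_sound hf al H
  obtain ⟨q, q1, q2, H, q3⟩ := tma_mapq1 hf m0 aq ha.short H
  simp only [frc_eq, Nat.add_eq] at H
  obtain ⟨ℓ, a1, a2⟩ := ha.h12
  have hl := l1.trans_le ha.len
  have hq := q1.trans_le ha.rows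
  refine ⟨_, ⟨hl, hq, q2, le_rfl, le_rfl, ?_, val K • ℓ, fun δ t h => ?_, fun δ t h ht => ?_⟩, H⟩
  · have := tma_scale (K := K) zero_le_one (ha.h0.trans_eq (mul_one _).symm)
      ((hf _ h0).trans_eq (mul_one _).symm)
    rw [mul_one] at this
    convert this using 2
    ring
  · have t0 := tma_bd_nonneg h
    have e : |l.dot δ - val K * al.dot δ| ≤ mag 9 * t := by
      refine (tma_nine hl m0 t0 (l2 δ t h)).trans_eq ?_
      simp only [mag]
      push_cast
      ring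
    simp only [LinearMap.smul_apply, smul_eq_mul]
    convert tma_scale (K := K) t0 (a1 δ t h) e using 2
    ring
  · have t0 := tma_bd_nonneg h
    have e : |q.quad δ δ - val K * aq.quad δ δ| ≤ mag 81 * t ^ 2 := by
      refine (tma_nine hq (by positivity) t0 (q3 δ δ t t h h)).trans_eq ?_
      simp only [mag]
      push_cast
      ring
    simp only [LinearMap.smul_apply, smul_eq_mul]
    convert tma_scale (K := K) (sq_nonneg t) (a2 δ t h ht) e using 2
    ring

/-- The nonconstant part is bounded by the radius. -/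
theorem G.rad_le {a : TM} {f : (ℕ → ℝ) → ℝ} (ha : G a f) {δ : ℕ → ℝ} {t : ℝ} (h : Bd δ t)
    (ht : t ≤ 1) : |f δ - f 0| ≤ mag a.rad * t := by
  obtain ⟨ℓ, a1, a2⟩ := ha.h12
  have t0 := tma_bd_nonneg h
  have tt : t * t ≤ t := mul_le_of_le_one_right t0 ht
  have b1 := (a.l.dot_le h).trans (mul_le_mul_of_nonneg_right (tma_mag_mono ha.hb1) t0)
  have b2 := (a.q.quad_le h h).trans
    (mul_le_mul (tma_mag_mono ha.hb2) tt (mul_nonneg t0 t0) (tma_mag_nonneg _))
  have b3 := (a2 δ t h ht).trans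
    (mul_le_mul_of_nonneg_left ((sq t).trans_le tt) (tma_mag_nonneg _))
  have b4 := a1 δ t h
  simp only [TM.rad, Nat.add_eq, tma_mag_add]
  rw [abs_le] at b1 b2 b3 b4 ⊢
  constructor <;> linarith [b1.1, b1.2, b2.1, b2.2, b3.1, b3.2, b4.1, b4.2]

end Pool.Agent.Lib.MP_ee7495_gt.Y
end

-- part Pool.Agent.Lib.MP_ee7495_gt.Y.TMe
section

set_option autoImplicit false

namespace Pool.Agent.Lib.MP_ee7495_gt.Y

theorem tme_nonneg (x : ℕ) : 0 ≤ mag x := by unfold mag; positivity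

theorem tme_add (x y : ℕ) : mag (Nat.add x y) = mag x + mag y := by
  unfold mag; rw [Nat.add_eq, Nat.cast_add, add_div]

theorem tme_mul (x y : ℕ) : mag (Nat.mul x y) * mag 1 = mag x * mag y := by
  unfold mag; rw [Nat.mul_eq, Nat.cast_mul, Nat.cast_one]; ring

theorem tme_mono {x y : ℕ} (h : x ≤ y) : mag x ≤ mag y := by
  unfold mag; gcongr

theorem tme_shift (X n : ℕ) {m : ℕ} (hm : m = n + 1) :
    mag X * mag 1 + n * mag 1 ≤ mag (Nat.add (Nat.shiftRight X 60) m) := by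
  subst hm
  have h : X < 2 ^ 60 * (X / 2 ^ 60 + 1) := Nat.lt_mul_div_succ X (by norm_num)
  have h2 : (X : ℝ) ≤ 2 ^ 60 * (((X / 2 ^ 60 : ℕ) : ℝ) + 1) := by exact_mod_cast h.le
  have e : Nat.shiftRight X 60 = X / 2 ^ 60 := Nat.shiftRight_eq_div_pow X 60
  unfold mag
  rw [e, Nat.add_eq, Nat.cast_add, Nat.cast_add, Nat.cast_one]
  generalize ((X / 2 ^ 60 : ℕ) : ℝ) = y at h2
  have h3 : (X : ℝ) / 2 ^ 60 ≤ y + 1 := by rw [div_le_iff₀ (by positivity)]; linarith
  have e2 : (X : ℝ) / 2 ^ 60 * (1 / 2 ^ 60) + n * (1 / 2 ^ 60) = ((X : ℝ) / 2 ^ 60 + n) / 2 ^ 60 := by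
    ring
  rw [e2]
  exact div_le_div_of_nonneg_right (by linarith) (by positivity)

theorem tme_abs_mul {x y a b : ℝ} (hx : |x| ≤ a) (hy : |y| ≤ b) : |x * y| ≤ a * b := by
  rw [abs_mul]
  exact mul_le_mul hx hy (abs_nonneg _) ((abs_nonneg _).trans hx)

theorem tme_compq {a1 a2 : ℕ} {l : NL} (hl : l.len ≤ 9) (qs : NLL) :
    ∀ (us : NL) {k : NLL → ℕ → Bool}, compq a1 a2 l qs us k = true →
      ∃ r : NLL, r.rows = qs.rows ∧ r.short ∧ k r r.asum = true ∧
        ∀ ε δ s t, Bd ε s → Bd δ t →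
          |r.quad ε δ - (val a1 * qs.quad ε δ + val a2 * (us.dot ε * l.dot δ))| ≤
            r.rows * (s * (9 * mag 1 * t + mag 1 * (mag l.asum * t))) := by
  induction qs with
  | nil =>
    intro us k H
    cases us with
    | nil => exact ⟨NLL.nil, rfl, trivial, H, fun ε δ s t _ _ => by simp [NLL.quad, NL.dot, NLL.rows]⟩
    | cons u us => exact absurd H Bool.false_ne_true
  | cons y qs ih =>
    intro us k H
    cases us with
    | nil => exact absurd H Bool.false_ne_true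
    | cons u us =>
      change frp (bm a2 u) (fun w => frc (Nat.add a1 w) fun K => map2 (bm2 a1 w K) l y
        fun row s1 => compq a1 a2 l qs us fun r s =>
          frc (Nat.add s s1) fun s => k (NLL.cons row r) s) = true at H
      obtain ⟨h1, H⟩ := frp_true H
      rw [frc_eq] at H
      obtain ⟨row, h2, -, H, h3⟩ := map2_sound (α := val (bm a2 u)) (β := val a1) (u := mag 1)
        (fun x y h => by rw [add_comm]; exact val_bm2 h) l y H
      obtain ⟨r, h4, h5, H, h6⟩ := ih us H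
      rw [frc_eq, Nat.add_eq, Nat.add_comm] at H
      refine ⟨NLL.cons row r, congrArg (· + 1) h4, ⟨h2 ▸ hl, h5⟩, H, fun ε δ s t hs ht => ?_⟩
      have h7 := h6 (fun i => ε (i + 1)) δ s t (fun i => hs _) ht
      have h8 : |row.dot δ - (val (bm a2 u) * l.dot δ + val a1 * y.dot δ)| ≤ 9 * mag 1 * t := by
        refine (h3 δ t ht).trans ?_
        have k1 : (row.len : ℝ) ≤ 9 := by exact_mod_cast h2 ▸ hl
        have k2 := tme_nonneg 1
        have k3 : 0 ≤ t := (abs_nonneg _).trans (ht 0)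
        gcongr
      have h9 := tme_abs_mul (hs 0) ((abs_add_le _ _).trans
        (add_le_add h8 (tme_abs_mul (val_bm h1) (l.dot_le ht))))
      simp only [NLL.quad, NL.dot, NLL.rows, Nat.cast_add, Nat.cast_one]
      rw [add_mul _ (1 : ℝ), one_mul]
      refine le_trans (le_of_eq ?_) ((abs_add_le _ _).trans (add_le_add h7 h9))
      congr 1
      ring

theorem TM.comp_sound {a0 a1 a2 d0 d1 d2 M : ℕ} {a : TM} {f : (ℕ → ℝ) → ℝ} {k : TM → Bool}
    (φ : ℝ → ℝ) (ha : G a f) (p1 p2 : ℝ) (h0 : |φ (f 0) - val a0| ≤ mag d0)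
    (h1 : |p1 - val a1| ≤ mag d1) (h2 : |p2 - val a2| ≤ mag d2)
    (h3 : ∀ s : ℝ, |s| ≤ mag a.rad →
      |φ (f 0 + s) - φ (f 0) - p1 * s - p2 * s ^ 2| ≤ mag M * |s| ^ 3)
    (H : TM.comp a0 a1 a2 d0 d1 d2 M a k = true) :
    ∃ c, G c (fun δ => φ (f δ)) ∧ k c = true := by
  obtain ⟨ac, al, aq, ab1, ab2, ae0, ae1, ae2⟩ := a
  simp only [TM.comp, frc_eq] at H
  obtain ⟨l, l1, H, l2⟩ := map1_sound (α := val a1) (u := mag 1) (fun x h => val_bm h) al H
  obtain ⟨q, q1, q2, H, q3⟩ := tme_compq ha.len aq al H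
  obtain ⟨ℓ, f1, f2⟩ := ha.h12
  have hrad : TM.rad ⟨ac, al, aq, ab1, ab2, ae0, ae1, ae2⟩ =
      Nat.add ab1 (Nat.add ae1 (Nat.add ab2 ae2)) := Nat.add_assoc _ _ _
  have m1 := tme_nonneg 1
  have hp1 : |p1| ≤ mag (Nat.add (ab a1) d1) := by
    rw [tme_add, mag_ab]
    have := abs_add_le (val a1) (p1 - val a1)
    rw [add_sub_cancel] at this
    linarith
  have hal : ∀ δ t, Bd δ t → |al.dot δ| ≤ mag ab1 * t := fun δ t ht =>
    (al.dot_le ht).trans
      (mul_le_mul_of_nonneg_right (tme_mono ha.hb1) ((abs_nonneg _).trans (ht 0)))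
  refine ⟨_, ?_, H⟩
  refine ⟨l1.le.trans ha.len, q1.le.trans ha.rows, q2, le_rfl, le_rfl, h0, p1 • ℓ,
    fun δ t ht => ?_, fun δ t ht ht1 => ?_⟩
  · have t0 : 0 ≤ t := (abs_nonneg _).trans (ht 0)
    have k1 := tme_abs_mul hp1 (f1 δ t ht)
    have k2 := tme_abs_mul h1 (hal δ t ht)
    have k3 : |l.dot δ - val a1 * al.dot δ| ≤ 9 * mag 1 * t := by
      refine (l2 δ t ht).trans ?_
      have k1 : (l.len : ℝ) ≤ 9 := by exact_mod_cast l1 ▸ ha.len
      gcongr
    dsimp only at k1 ⊢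
    refine le_trans ?_ (mul_le_mul_of_nonneg_right (tme_shift _ 9 rfl) t0)
    rw [tme_add, add_mul (mag _), tme_mul, tme_mul, LinearMap.smul_apply, smul_eq_mul]
    rw [abs_le] at k1 k2 k3 ⊢
    push_cast
    constructor <;> linarith [k1.1, k1.2, k2.1, k2.2, k3.1, k3.2]
  · have t0 : 0 ≤ t := (abs_nonneg _).trans (ht 0)
    have tt : t ^ 2 ≤ t := by nlinarith
    have hs := ha.rad_le ht ht1
    have g1 := f1 δ t ht
    have g2 := f2 δ t ht ht1
    have g3 := hal δ t ht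
    have g4 : |aq.quad δ δ| ≤ mag ab2 * t ^ 2 := by
      rw [sq]
      exact (aq.quad_le ht ht).trans
        (mul_le_mul_of_nonneg_right (tme_mono ha.hb2) (mul_nonneg t0 t0))
    have g5 := h3 _ (hs.trans (mul_le_of_le_one_right (tme_nonneg _) ht1))
    rw [hrad] at hs
    rw [add_sub_cancel] at g5
    dsimp only at g1 g2 ⊢
    generalize f δ - f 0 = s at hs g2 g5
    have g6 : |s - al.dot δ| ≤ mag (Nat.add ae1 (Nat.add ab2 ae2)) * t := by
      have u1 := mul_le_mul_of_nonneg_left tt (tme_nonneg ab2)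
      have u2 := mul_le_mul_of_nonneg_left tt (tme_nonneg ae2)
      rw [tme_add, tme_add]
      rw [abs_le] at g1 g2 g4 ⊢
      constructor <;> linarith [g1.1, g1.2, g2.1, g2.2, g4.1, g4.2]
    generalize Nat.add ae1 (Nat.add ab2 ae2) = R at hs g6 ⊢
    generalize Nat.add ab1 R = S at hs ⊢
    have g7 : |s + al.dot δ| ≤ mag (Nat.add S ab1) * t := by
      rw [tme_add, add_mul]
      exact (abs_add_le _ _).trans (add_le_add hs g3)
    have g8 : |s * s| ≤ mag (um S S) * t ^ 2 :=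
      (tme_abs_mul hs hs).trans (by
        rw [mul_mul_mul_comm, ← sq t]
        exact mul_le_mul_of_nonneg_right (um_ge S S) (sq_nonneg t))
    have k1 : mag M * |s| ^ 3 ≤ mag (um M S) * (mag (um S S) * t ^ 2) := by
      have e : mag M * |s| ^ 3 = mag M * |s| * |s * s| := by rw [abs_mul]; ring
      rw [e]
      exact mul_le_mul ((mul_le_mul_of_nonneg_left
        (hs.trans (mul_le_of_le_one_right (tme_nonneg _) ht1)) (tme_nonneg M)).trans (um_ge M S)) g8
        (abs_nonneg _) (tme_nonneg _)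
    replace k1 := g5.trans k1
    have k2 := tme_abs_mul hp1 g2
    have k3 := tme_abs_mul h1 g4
    have k4 := tme_abs_mul h2 g8
    have k5 : |val a2 * ((s - al.dot δ) * (s + al.dot δ))| ≤
        mag (ab a2) * (mag (um R (Nat.add S ab1)) * t ^ 2) :=
      tme_abs_mul (mag_ab a2).ge ((tme_abs_mul g6 g7).trans (by
        rw [mul_mul_mul_comm, ← sq t]
        exact mul_le_mul_of_nonneg_right (um_ge _ _) (sq_nonneg t)))
    have k6 : |q.quad δ δ - (val a1 * aq.quad δ δ + val a2 * (al.dot δ * al.dot δ))| ≤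
        9 * (t * (9 * mag 1 * t + mag 1 * (mag ab1 * t))) := by
      refine (q3 δ δ t t ht ht).trans ?_
      have u1 : (q.rows : ℝ) ≤ 9 := by exact_mod_cast q1 ▸ ha.rows
      have u2 : mag al.asum ≤ mag ab1 := tme_mono ha.hb1
      have u3 := tme_nonneg al.asum
      gcongr
    have e9 : mag 9 = 9 * mag 1 := by unfold mag; norm_num
    refine le_trans ?_ (mul_le_mul_of_nonneg_right (tme_shift _ 81 rfl) (sq_nonneg t))
    rw [tme_add, tme_add, tme_add (Nat.mul d1 ab2), tme_add (Nat.mul (ab a2) _),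
      add_mul _ _ (mag 1), add_mul _ _ (mag 1), add_mul _ _ (mag 1), add_mul _ _ (mag 1), tme_mul,
      tme_mul, tme_mul, tme_mul, tme_mul, tme_add d2, e9, LinearMap.smul_apply, smul_eq_mul]
    rw [abs_le] at k1 k2 k3 k4 k5 k6 ⊢
    push_cast
    constructor <;> linarith [k1.1, k1.2, k2.1, k2.2, k3.1, k3.2, k4.1, k4.2, k5.1, k5.2, k6.1, k6.2]

end Pool.Agent.Lib.MP_ee7495_gt.Y
end

-- part Pool.Agent.Lib.MP_ee7495_gt.Y.TMc
section

set_option autoImplicit false

namespace Pool.Agent.Lib.MP_ee7495_gt.Y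

theorem tmc_floor (n d : ℕ) (hd : 0 < d) :
    ((n / d : ℕ) : ℝ) ≤ (n : ℝ) / d ∧ (n : ℝ) / d - 1 ≤ ((n / d : ℕ) : ℝ) := by
  refine ⟨Nat.cast_div_le, ?_⟩
  have h1 : n < (n / d + 1) * d := by
    rw [← Nat.div_lt_iff_lt_mul hd]
    exact Nat.lt_succ_self _
  have h2 : (n : ℝ) < (((n / d : ℕ) : ℝ) + 1) * d := by exact_mod_cast h1
  have h3 : (0 : ℝ) < d := by exact_mod_cast hd
  have h4 := (div_lt_iff₀ h3).2 h2
  linarith

theorem tmc_shift (n m : ℕ) : Nat.shiftRight n m = n / 2 ^ m := Nat.shiftRight_eq_div_pow n m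

/-- the rounded product -/
theorem tmc_mul (x y : ℕ) : |mag (Nat.shiftRight (Nat.mul x y) 60) - mag x * mag y| ≤ mag 1 := by
  obtain ⟨h1, h2⟩ := tmc_floor (x * y) (2 ^ 60) (by positivity)
  rw [tmc_shift, Nat.mul_eq, abs_le]
  simp only [mag]
  push_cast at h1 h2 ⊢
  constructor <;> linarith

theorem tmc_mag_le {x : ℕ} (h : x ≤ 2 ^ 60) : 0 ≤ mag x ∧ mag x ≤ 1 := by
  have h1 : (x : ℝ) ≤ 2 ^ 60 := by exact_mod_cast h
  unfold mag
  exact ⟨by positivity, by rw [div_le_one (by positivity)]; exact h1⟩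

theorem tmc_hs {y h : ℕ} (d : ℕ) {z H : ℝ} (hd : 2 ≤ d) (hy : y ≤ 2 ^ 60) (hz0 : 0 ≤ z)
    (hz1 : z ≤ 1) (hyz : |mag y - z| ≤ mag 1) (hH : h ≤ 2 ^ 60 ∧ |mag h - H| ≤ mag 4) :
    hs y d h ≤ 2 ^ 60 ∧ |mag (hs y d h) - (1 - z * H / d)| ≤ mag 4 := by
  have e : hs y d h = 2 ^ 60 - Nat.shiftRight (Nat.mul y h) 60 / d := rfl
  have hm := tmc_mul y h
  have hle : Nat.shiftRight (Nat.mul y h) 60 ≤ 2 ^ 60 := by
    rw [tmc_shift, Nat.mul_eq]
    exact Nat.div_le_of_le_mul (Nat.mul_le_mul hy hH.1)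
  generalize Nat.shiftRight (Nat.mul y h) 60 = w at e hm hle
  refine ⟨by rw [e]; exact Nat.sub_le _ _, ?_⟩
  obtain ⟨f1, f2⟩ := tmc_floor w d (by omega)
  have hd' : (2 : ℝ) ≤ d := by exact_mod_cast hd
  have hd0 : (0 : ℝ) < d := by linarith
  have e2 : mag (hs y d h) = 1 - mag (w / d) := by
    rw [e, mag, mag, Nat.cast_sub ((Nat.div_le_self _ _).trans hle)]
    push_cast
    ring
  have g1 : |mag (w / d) - mag w / d| ≤ mag 1 := by
    have e3 : mag (w / d) - mag w / d = (((w / d : ℕ) : ℝ) - (w : ℝ) / d) / 2 ^ 60 := by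
      simp only [mag]
      ring
    rw [e3, abs_div, abs_of_pos (show (0 : ℝ) < 2 ^ 60 by positivity), mag]
    refine div_le_div_of_nonneg_right ?_ (by positivity)
    rw [abs_le]
    push_cast
    constructor <;> linarith
  obtain ⟨m0, m1⟩ := tmc_mag_le hH.1
  have g2 : |mag y * mag h - z * H| ≤ mag 1 + mag 4 := by
    have e3 : mag y * mag h - z * H = (mag y - z) * mag h + z * (mag h - H) := by ring
    rw [e3]
    refine (abs_add_le _ _).trans (add_le_add ?_ ?_)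
    · rw [abs_mul, abs_of_nonneg m0]
      exact (mul_le_of_le_one_right (abs_nonneg _) m1).trans hyz
    · rw [abs_mul, abs_of_nonneg hz0]
      exact (mul_le_of_le_one_left (abs_nonneg _) hz1).trans hH.2
  have hc : mag 1 + (mag 1 + (mag 1 + mag 4)) / 2 ≤ mag 4 := by norm_num [mag]
  have g3 : |mag w - z * H| ≤ mag 1 + (mag 1 + mag 4) := by
    have := abs_sub_le (mag w) (mag y * mag h) (z * H)
    linarith
  have g4 : |mag w / d - z * H / d| ≤ (mag 1 + (mag 1 + mag 4)) / 2 := by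
    rw [← sub_div, abs_div, abs_of_pos hd0]
    exact div_le_div₀ ((abs_nonneg _).trans g3) g3 two_pos hd'
  have e4 : mag (hs y d h) - (1 - z * H / d) = -(mag (w / d) - z * H / d) := by
    rw [e2]
    ring
  rw [e4, abs_neg]
  have := abs_sub_le (mag (w / d)) (mag w / d) (z * H / d)
  linarith

theorem tmc_sum (X : ℝ) (n : ℕ) :
    ∑ m ∈ Finset.range (2 * n), ((X : ℂ) * Complex.I) ^ m / (m.factorial : ℂ) =
      ((∑ k ∈ Finset.range n, (-1) ^ k * X ^ (2 * k) / ((2 * k).factorial : ℝ) : ℝ) : ℂ) +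
      ((∑ k ∈ Finset.range n, (-1) ^ k * X ^ (2 * k + 1) / ((2 * k + 1).factorial : ℝ) : ℝ) : ℂ) *
        Complex.I := by
  induction n with
  | zero => simp
  | succ n ih =>
    have e : ((X : ℂ) * Complex.I) ^ (2 * n) = (-1) ^ n * (X : ℂ) ^ (2 * n) := by
      rw [mul_pow, pow_mul Complex.I, Complex.I_sq, mul_comm]
    rw [Nat.mul_succ, Finset.sum_range_succ, Finset.sum_range_succ, ih, Finset.sum_range_succ,
      Finset.sum_range_succ, pow_succ ((X : ℂ) * Complex.I), e]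
    push_cast
    ring

theorem tmc_series {X : ℝ} (h0 : 0 ≤ X) (h1 : X ≤ 1) :
    |Real.cos X - ∑ k ∈ Finset.range 11, (-1) ^ k * X ^ (2 * k) / ((2 * k).factorial : ℝ)| ≤
      mag 1 ∧
    |Real.sin X -
      ∑ k ∈ Finset.range 11, (-1) ^ k * X ^ (2 * k + 1) / ((2 * k + 1).factorial : ℝ)| ≤
      mag 1 := by
  have hn : ‖(X : ℂ) * Complex.I‖ ≤ 1 := by
    rw [norm_mul, Complex.norm_I, mul_one, Complex.norm_real, Real.norm_of_nonneg h0]
    exact h1
  have hb := Complex.exp_bound hn (n := 2 * 11) (by norm_num)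
  rw [tmc_sum, Complex.exp_mul_I, ← Complex.ofReal_cos, ← Complex.ofReal_sin] at hb
  generalize (∑ k ∈ Finset.range 11, (-1) ^ k * X ^ (2 * k) / ((2 * k).factorial : ℝ)) = A at hb ⊢
  generalize (∑ k ∈ Finset.range 11,
    (-1) ^ k * X ^ (2 * k + 1) / ((2 * k + 1).factorial : ℝ)) = B at hb ⊢
  have hc : ‖(X : ℂ) * Complex.I‖ ^ (2 * 11) * (((2 * 11 : ℕ).succ : ℝ) *
      (((2 * 11 : ℕ).factorial : ℝ) * ((2 * 11 : ℕ) : ℝ))⁻¹) ≤ mag 1 := by
    refine (mul_le_of_le_one_left (by positivity) (pow_le_one₀ (norm_nonneg _) hn)).trans ?_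
    norm_num [mag, Nat.factorial]
  have hb' := hb.trans hc
  have r := (Complex.abs_re_le_norm _).trans hb'
  have i := (Complex.abs_im_le_norm _).trans hb'
  simp only [Complex.sub_re, Complex.add_re, Complex.mul_re, Complex.ofReal_re, Complex.ofReal_im,
    Complex.I_re, Complex.I_im, Complex.sub_im, Complex.add_im, Complex.mul_im, mul_zero, mul_one,
    sub_zero, add_zero, zero_add] at r i
  exact ⟨r, i⟩

theorem tmc_y {x : ℕ} (hx : x ≤ 2 ^ 60) : Nat.shiftRight (Nat.mul x x) 60 ≤ 2 ^ 60 := by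
  rw [tmc_shift, Nat.mul_eq]
  exact Nat.div_le_of_le_mul (Nat.mul_le_mul hx hx)

theorem tmc_one : (1152921504606846976 : ℕ) ≤ 2 ^ 60 ∧
    |mag 1152921504606846976 - 1| ≤ mag 4 := by
  norm_num [mag]

theorem cosN_sound {x : ℕ} (hx : x ≤ 2 ^ 60) :
    |Real.cos (mag x) - mag (cosN (Nat.shiftRight (Nat.mul x x) 60))| ≤ mag 32 := by
  obtain ⟨m0, m1⟩ := tmc_mag_le hx
  have hy := tmc_y hx
  have hz0 : 0 ≤ mag x * mag x := mul_nonneg m0 m0
  have hz1 : mag x * mag x ≤ 1 := mul_le_one₀ m1 m0 m1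
  have hyz := tmc_mul x x
  have S := fun (d : ℕ) (hd : 2 ≤ d) (h : ℕ) (H : ℝ) => tmc_hs (h := h) (H := H) d hd hy hz0 hz1 hyz
  have h := (S 2 (by norm_num) _ _ (S 12 (by norm_num) _ _ (S 30 (by norm_num) _ _
    (S 56 (by norm_num) _ _ (S 90 (by norm_num) _ _ (S 132 (by norm_num) _ _
    (S 182 (by norm_num) _ _ (S 240 (by norm_num) _ _ (S 306 (by norm_num) _ _
    (S 380 (by norm_num) _ _ tmc_one)))))))))).2
  have h2 := (tmc_series m0 m1).1
  unfold cosN
  generalize mag (hs _ 2 _) = C at h ⊢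
  generalize mag x = X at h h2 ⊢
  simp only [Finset.sum_range_succ, Finset.sum_range_zero, Nat.factorial] at h2
  have hc : mag 1 + mag 4 ≤ mag 32 := by norm_num [mag]
  rw [abs_le] at h h2 ⊢
  push_cast at h h2
  constructor <;> nlinarith [h.1, h.2, h2.1, h2.2]

theorem sinN_sound {x : ℕ} (hx : x ≤ 2 ^ 60) :
    |Real.sin (mag x) - mag (sinN x (Nat.shiftRight (Nat.mul x x) 60))| ≤ mag 32 := by
  obtain ⟨m0, m1⟩ := tmc_mag_le hx
  have hy := tmc_y hx
  have hz0 : 0 ≤ mag x * mag x := mul_nonneg m0 m0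
  have hz1 : mag x * mag x ≤ 1 := mul_le_one₀ m1 m0 m1
  have hyz := tmc_mul x x
  have S := fun (d : ℕ) (hd : 2 ≤ d) (h : ℕ) (H : ℝ) => tmc_hs (h := h) (H := H) d hd hy hz0 hz1 hyz
  have h := (S 6 (by norm_num) _ _ (S 20 (by norm_num) _ _ (S 42 (by norm_num) _ _
    (S 72 (by norm_num) _ _ (S 110 (by norm_num) _ _ (S 156 (by norm_num) _ _
    (S 210 (by norm_num) _ _ (S 272 (by norm_num) _ _ (S 342 (by norm_num) _ _
    (S 420 (by norm_num) _ _ tmc_one)))))))))).2
  have h2 := (tmc_series m0 m1).2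
  unfold sinN
  generalize hs _ 6 _ = w at h ⊢
  have h3 := tmc_mul x w
  generalize mag (Nat.shiftRight (Nat.mul x w) 60) = C at h3 ⊢
  have h4 := (mul_le_of_le_one_left (abs_nonneg _) m1).trans h
  rw [← abs_of_nonneg m0, ← abs_mul, abs_of_nonneg m0] at h4
  generalize mag w = Z at h3 h4
  generalize mag x = X at h4 h2 h3 ⊢
  simp only [Finset.sum_range_succ, Finset.sum_range_zero, Nat.factorial] at h2
  have hc : mag 1 + mag 1 + mag 4 ≤ mag 32 := by norm_num [mag]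
  rw [abs_le] at h4 h2 h3 ⊢
  push_cast at h4 h2
  constructor <;> nlinarith [h4.1, h4.2, h2.1, h2.2, h3.1, h3.2]

theorem tmc_step {g g' B B' : ℝ → ℝ} (hg : ∀ t, HasDerivAt g (g' t) t) (h0 : g 0 = 0)
    (hB : ∀ t, HasDerivAt B (B' t) t) (hB0 : B 0 = 0) (h : ∀ t, 0 ≤ t → |g' t| ≤ B' t) {s : ℝ}
    (hs : 0 ≤ s) : |g s| ≤ B s :=
  image_norm_le_of_norm_deriv_right_le_deriv_boundary (f := g) (f' := g') (a := 0) (b := s)
    (fun t _ => (hg t).continuousAt.continuousWithinAt) (fun t _ => (hg t).hasDerivWithinAt)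
    (by rw [h0, hB0, norm_zero]) hB (fun t ht => h t ht.1) ⟨hs, le_rfl⟩

theorem tmc_cos_pos (a : ℝ) {s : ℝ} (hs : 0 ≤ s) :
    |Real.cos (a + s) - Real.cos a + Real.sin a * s + Real.cos a * (s ^ 2 / 2)| ≤ s ^ 3 / 6 := by
  have h2 : ∀ t, 0 ≤ t → |Real.cos a - Real.cos (a + t)| ≤ t := fun t ht => by
    have := Real.abs_cos_sub_cos_le a (a + t)
    rwa [show a - (a + t) = -t by ring, abs_neg, abs_of_nonneg ht] at this
  have d2 : ∀ t : ℝ, HasDerivAt (fun t : ℝ => t ^ 2 / 2) t t := fun t =>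
    ((hasDerivAt_pow 2 t).div_const 2).congr_deriv (by norm_num)
  have d3 : ∀ t : ℝ, HasDerivAt (fun t : ℝ => t ^ 3 / 6) (t ^ 2 / 2) t := fun t =>
    ((hasDerivAt_pow 3 t).div_const 6).congr_deriv (by norm_num; ring)
  have h1 : ∀ t, 0 ≤ t → |Real.sin a - Real.sin (a + t) + Real.cos a * t| ≤ t ^ 2 / 2 :=
    fun t ht => tmc_step (g := fun t => Real.sin a - Real.sin (a + t) + Real.cos a * t)
      (g' := fun t => Real.cos a - Real.cos (a + t))
      (fun t => (((((hasDerivAt_id' t).const_add a).sin).const_sub _).add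
        ((hasDerivAt_id' t).const_mul _)).congr_deriv (by ring)) (by simp) d2 (by simp) h2 ht
  exact tmc_step
    (g := fun t => Real.cos (a + t) - Real.cos a + Real.sin a * t + Real.cos a * (t ^ 2 / 2))
    (g' := fun t => Real.sin a - Real.sin (a + t) + Real.cos a * t)
    (fun t => ((((((hasDerivAt_id' t).const_add a).cos).sub_const _).add
      ((hasDerivAt_id' t).const_mul _)).add ((d2 t).const_mul _)).congr_deriv (by ring))
    (by simp) d3 (by simp) h1 hs

theorem tmc_cos (a s : ℝ) :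
    |Real.cos (a + s) - Real.cos a - -Real.sin a * s - -Real.cos a / 2 * s ^ 2| ≤
      mag 192153584101141163 * |s| ^ 3 := by
  have hM : |s| ^ 3 / 6 ≤ mag 192153584101141163 * |s| ^ 3 := by
    have h1 : (1 : ℝ) / 6 ≤ mag 192153584101141163 := by norm_num [mag]
    have h2 := mul_le_mul_of_nonneg_right h1 (pow_nonneg (abs_nonneg s) 3)
    linarith
  refine le_trans ?_ hM
  rcases le_total 0 s with h | h
  · have h1 := tmc_cos_pos a h
    rw [abs_of_nonneg h]
    refine le_trans (le_of_eq ?_) h1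
    congr 1
    ring
  · have h1 := tmc_cos_pos (-a) (neg_nonneg.2 h)
    rw [abs_of_nonpos h]
    refine le_trans (le_of_eq ?_) h1
    rw [← neg_add, Real.cos_neg, Real.cos_neg, Real.sin_neg]
    congr 1
    ring

theorem tmc_sin (a s : ℝ) :
    |Real.sin (a + s) - Real.sin a - Real.cos a * s - -Real.sin a / 2 * s ^ 2| ≤
      mag 192153584101141163 * |s| ^ 3 := by
  have h := tmc_cos (a - Real.pi / 2) s
  rw [show a - Real.pi / 2 + s = a + s - Real.pi / 2 by ring, Real.cos_sub_pi_div_two,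
    Real.cos_sub_pi_div_two, Real.sin_sub_pi_div_two, neg_neg] at h
  exact h

theorem tmc_val_add (x : ℕ) : val (Nat.add 295147905179352825856 x) = mag x := by
  simp only [val, mag, Nat.add_eq]
  push_cast
  ring

theorem tmc_val_sub {x : ℕ} (h : x ≤ 295147905179352825856) :
    val (Nat.sub 295147905179352825856 x) = -mag x := by
  simp only [val, mag, Nat.sub_eq]
  rw [Nat.cast_sub h]
  push_cast
  ring

theorem tmc_small {x : ℕ} {r : ℝ} (hr : |r| ≤ 1) (h : |r - mag x| ≤ mag 32) :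
    x < 295147905179352825856 := by
  have h1 := (abs_le.1 hr).2
  have h2 := (abs_le.1 h).1
  simp only [mag] at h2
  have h3 : (x : ℝ) < 295147905179352825856 := by
    push_cast at h2
    linarith
  exact_mod_cast h3

theorem TM.cs_sound {a : TM} {f : (ℕ → ℝ) → ℝ} {k : TM → TM → Bool} (ha : G a f)
    (H : TM.cs a k = true) : ∃ u v, G u (fun δ => Real.cos (f δ)) ∧
      G v (fun δ => Real.sin (f δ)) ∧ k u v = true := by
  simp only [TM.cs, frc_eq] at H
  cases hb : Nat.ble (ab a.c) 1152921504606846976 with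
  | false => rw [hb] at H; exact absurd H (by simp)
  | true =>
  rw [hb, cond_true] at H
  have hx : ab a.c ≤ 2 ^ 60 := Nat.le_of_ble_eq_true hb
  have hco := cosN_sound hx
  have hsi := sinN_sound hx
  generalize cosN _ = co at H hco
  generalize sinN _ _ = si at H hsi
  rw [mag_ab] at hco hsi
  have hco' := tmc_small (Real.abs_cos_le_one _) hco
  have hsi' := tmc_small (Real.abs_sin_le_one _) hsi
  rw [Real.cos_abs] at hco
  have hsb : ∀ sb, sb = cond (Nat.ble 295147905179352825856 a.c)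
      (Nat.add 295147905179352825856 si) (Nat.sub 295147905179352825856 si) →
      sb < 590295810358705651712 ∧ |Real.sin (val a.c) - val sb| ≤ mag 32 := by
    intro sb e
    cases hc : Nat.ble 295147905179352825856 a.c with
    | true =>
      rw [hc, cond_true] at e
      have h1 : (295147905179352825856 : ℝ) ≤ a.c := by
        exact_mod_cast Nat.le_of_ble_eq_true hc
      have h2 : 0 ≤ val a.c := by
        unfold val
        refine div_nonneg ?_ (by positivity)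
        linarith
      rw [abs_of_nonneg h2] at hsi
      rw [e, tmc_val_add]
      exact ⟨by rw [Nat.add_eq]; omega, hsi⟩
    | false =>
      rw [hc, cond_false] at e
      have h0 : ¬ 295147905179352825856 ≤ a.c := fun h => by
        rw [Nat.ble_eq_true_of_le h] at hc
        exact absurd hc (by simp)
      have h1 : (a.c : ℝ) < 295147905179352825856 := by exact_mod_cast not_le.1 h0
      have h2 : val a.c ≤ 0 := by
        unfold val
        refine div_nonpos_of_nonpos_of_nonneg ?_ (by positivity)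
        linarith
      rw [abs_of_nonpos h2, Real.sin_neg] at hsi
      rw [e, tmc_val_sub hsi'.le]
      refine ⟨by rw [Nat.sub_eq]; omega, ?_⟩
      rw [← abs_neg]
      refine le_trans (le_of_eq ?_) hsi
      congr 1
      ring
  obtain ⟨hs1, hs2⟩ := hsb _ rfl
  generalize cond (Nat.ble 295147905179352825856 a.c) (Nat.add 295147905179352825856 si)
    (Nat.sub 295147905179352825856 si) = sb at H hs1 hs2
  have hd : mag (Nat.add a.e0 64) = mag a.e0 + 2 * mag 32 := by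
    simp only [mag, Nat.add_eq]
    push_cast
    ring
  have h32 : mag 1 ≤ mag 32 ∧ 0 ≤ mag 1 := by norm_num [mag]
  have he : 0 ≤ mag a.e0 := (abs_nonneg _).trans ha.h0
  have c0 := abs_le.1 ((Real.abs_cos_sub_cos_le (f 0) (val a.c)).trans ha.h0)
  have s0 := abs_le.1 ((Real.abs_sin_sub_sin_le (f 0) (val a.c)).trans ha.h0)
  have c1 := abs_le.1 hco
  have s1 := abs_le.1 hs2
  have vn : val (bn sb) = -val sb := val_bn (by unfold bn; rw [Nat.sub_eq]; omega)
  have vc : |val (Nat.sub 295147905179352825856 (Nat.shiftRight co 1)) + mag co / 2| ≤ mag 1 := by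
    obtain ⟨f1, f2⟩ := tmc_floor co (2 ^ 1) (by norm_num)
    rw [tmc_shift, tmc_val_sub ((Nat.div_le_self _ _).trans hco'.le), abs_le]
    simp only [mag]
    push_cast at f1 f2 ⊢
    constructor <;> linarith
  have vs : |val (Nat.shiftRight (Nat.sub 885443715538058477568 sb) 1) + val sb / 2| ≤ mag 1 := by
    obtain ⟨f1, f2⟩ := tmc_floor (885443715538058477568 - sb) (2 ^ 1) (by norm_num)
    rw [Nat.cast_sub (by omega)] at f1 f2
    rw [tmc_shift, Nat.sub_eq, abs_le]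
    simp only [mag, val]
    push_cast at f1 f2 ⊢
    constructor <;> linarith
  have c2 := abs_le.1 vc
  have s2 := abs_le.1 vs
  obtain ⟨u, hu, H⟩ := TM.comp_sound Real.cos ha (-Real.sin (f 0)) (-Real.cos (f 0) / 2)
    (by rw [tmc_val_add, hd, abs_le]; constructor <;> linarith)
    (by rw [vn, hd, abs_le]; constructor <;> linarith)
    (by rw [hd, abs_le]; constructor <;> linarith) (fun s _ => tmc_cos (f 0) s) H
  obtain ⟨v, hv, H⟩ := TM.comp_sound Real.sin ha (Real.cos (f 0)) (-Real.sin (f 0) / 2)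
    (by rw [hd, abs_le]; constructor <;> linarith)
    (by rw [tmc_val_add, hd, abs_le]; constructor <;> linarith)
    (by rw [hd, abs_le]; constructor <;> linarith) (fun s _ => tmc_sin (f 0) s) H
  exact ⟨u, v, hu, hv, H⟩

end Pool.Agent.Lib.MP_ee7495_gt.Y
end

-- part Pool.Agent.Lib.MP_ee7495_gt.Y.TMb
section

set_option autoImplicit false

namespace Pool.Agent.Lib.MP_ee7495_gt.Y

theorem tmb_nonneg (x : ℕ) : 0 ≤ mag x := by
  unfold mag
  positivity

theorem tmb_add (x y : ℕ) : mag (Nat.add x y) = mag x + mag y := by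
  simp only [mag, Nat.add_eq, Nat.cast_add, add_div]

theorem tmb_mono {x y : ℕ} (h : x ≤ y) : mag x ≤ mag y := by
  unfold mag
  gcongr

theorem tmb_prod (x y : ℕ) : mag (Nat.mul x y) / 2 ^ 60 = mag x * mag y := by
  simp only [mag, Nat.mul_eq, Nat.cast_mul]
  ring

theorem tmb_sh (N c : ℕ) :
    mag N / 2 ^ 60 + c * mag 1 ≤ mag (Nat.add (Nat.shiftRight N 60) (c + 1)) := by
  have h : (N : ℝ) ≤ ((N / 2 ^ 60 : ℕ) + 1) * 2 ^ 60 := by
    exact_mod_cast (Nat.lt_div_mul_add (a := N) (b := 2 ^ 60) (by positivity)).le.trans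
      (by rw [add_mul, one_mul])
  have e : Nat.shiftRight N 60 = N / 2 ^ 60 := Nat.shiftRight_eq_div_pow N 60
  rw [e]
  simp only [mag, Nat.add_eq, Nat.cast_add, Nat.cast_one]
  generalize ((N / 2 ^ 60 : ℕ) : ℝ) = q at h
  linarith

theorem tmb_mul {x y X Y : ℝ} (hx : |x| ≤ X) (hy : |y| ≤ Y) : |x * y| ≤ X * Y := by
  rw [abs_mul]
  exact mul_le_mul hx hy (abs_nonneg y) ((abs_nonneg x).trans hx)

theorem tmb_tri {x y X : ℝ} (h : |x - y| ≤ X) : |x| ≤ |y| + X := by
  linarith [abs_sub_abs_le_abs_sub x y]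

theorem tmb_mulq {a b : ℕ} {bl : NL} (hl : bl.len ≤ 9) (xs ys : NLL) (us : NL)
    {k : NLL → ℕ → Bool} (H : mulq a b (Nat.add a b) bl xs ys us k = true) :
    ∃ r : NLL, r.rows = xs.rows ∧ r.short ∧ k r r.asum = true ∧ ∀ ε δ s t, Bd ε s → Bd δ t →
      |r.quad ε δ - (val b * xs.quad ε δ + val a * ys.quad ε δ + us.dot ε * bl.dot δ)| ≤
        r.rows * (9 * mag 1 * (s * t)) := by
  induction xs generalizing ys us k with
  | nil =>
    cases ys with
    | cons y ys => exact absurd H Bool.false_ne_true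
    | nil =>
      cases us with
      | cons u us => exact absurd H Bool.false_ne_true
      | nil =>
        exact ⟨NLL.nil, rfl, trivial, H, fun ε δ s t _ _ => by simp [NLL.quad, NL.dot, NLL.rows]⟩
  | cons x xs ih =>
    cases ys with
    | nil => exact absurd H Bool.false_ne_true
    | cons y ys =>
      cases us with
      | nil => exact absurd H Bool.false_ne_true
      | cons u us =>
        have H1 : frc (Nat.add (Nat.add a b) u) (fun K2 => map3 (bm3 a b u K2) x y bl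
          fun row s1 => mulq a b (Nat.add a b) bl xs ys us fun r s =>
            frc (Nat.add s s1) fun s => k (NLL.cons row r) s) = true := H
        rw [frc_eq] at H1
        obtain ⟨row, -, -, h1, h2, h3⟩ := map3_sound (α := val b) (β := val a) (γ := val u)
          (u := mag 1) (fun x y z h => by
            rw [add_comm (val b * val x)]
            exact val_bm3 rfl h) x y bl H1
        obtain ⟨r, h4, h5, h6, h7⟩ := ih ys us h2
        rw [frc_eq] at h6
        refine ⟨NLL.cons row r, congrArg (· + 1) h4, ⟨h1 ▸ hl, h5⟩, ?_, fun ε δ s t hs ht => ?_⟩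
        · rwa [NLL.asum, add_comm]
        have h8 := h7 (fun i => ε (i + 1)) δ s t (fun i => hs _) ht
        have h9 : (row.len : ℝ) * mag 1 * t ≤ 9 * mag 1 * t :=
          mul_le_mul_of_nonneg_right (mul_le_mul_of_nonneg_right
            (by exact_mod_cast h1 ▸ hl) (tmb_nonneg 1)) ((abs_nonneg _).trans (ht 0))
        have h10 := tmb_mul (hs 0) ((h3 δ t ht).trans h9)
        simp only [NLL.quad, NL.dot, NLL.rows, Nat.cast_add, Nat.cast_one]
        rw [abs_le] at h8 h10 ⊢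
        constructor <;> linarith [h8.1, h8.2, h10.1, h10.2]

theorem tmb_real {f0 g0 ac bc u v L M P Q rf rg W t A0 B0 ae0 be0 ae1 be1 ae2 be2 ab1 bb1 ab2 bb2
    w : ℝ} (t0 : 0 ≤ t) (t1 : t ≤ 1) (p1 : 0 ≤ bb1 + be1) (p2 : 0 ≤ bb2 + be2)
    (a0 : |f0| ≤ A0) (b0 : |g0| ≤ B0) (a1 : |f0 - ac| ≤ ae0) (b1 : |g0 - bc| ≤ be0)
    (a2 : |u - L| ≤ ae1 * t) (b2 : |v - M| ≤ be1 * t) (a3 : |L| ≤ ab1 * t) (b3 : |M| ≤ bb1 * t)
    (a4 : |P| ≤ ab2 * (t * t)) (b4 : |Q| ≤ bb2 * (t * t)) (a5 : |rf| ≤ ae2 * t ^ 2)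
    (b5 : |rg| ≤ be2 * t ^ 2) (h : |W - (bc * P + ac * Q + L * M)| ≤ w * (t * t)) :
    |(f0 + u + P + rf) * (g0 + v + Q + rg) - f0 * g0 - (f0 * v + g0 * u) - W| ≤
      (A0 * be2 + ae0 * bb2 + (B0 * ae2 + be0 * ab2) + ((ab1 + ae1) * (be1 + (bb2 + be2)) +
        ae1 * bb1 + (ab2 + ae2) * (bb1 + be1 + (bb2 + be2))) + w) * t ^ 2 := by
  have c1 : |u| ≤ (ab1 + ae1) * t := by linarith [tmb_tri a2]
  have c2 : |Q + rg| ≤ (bb2 + be2) * t := by
    have := mul_le_mul_of_nonneg_left (mul_le_of_le_one_right t0 t1) p2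
    linarith [abs_add_le Q rg]
  have c3 : |P + rf| ≤ (ab2 + ae2) * t ^ 2 := by linarith [abs_add_le P rf]
  have c4 : |v + (Q + rg)| ≤ bb1 + be1 + (bb2 + be2) := by
    linarith [abs_add_le v (Q + rg), tmb_tri b2, mul_le_of_le_one_right p1 t1,
      mul_le_of_le_one_right p2 t1]
  have d1 := abs_le.1 (tmb_mul a0 b5)
  have d2 := abs_le.1 (tmb_mul a1 b4)
  have d3 := abs_le.1 (tmb_mul b0 a5)
  have d4 := abs_le.1 (tmb_mul b1 a4)
  have d5 := abs_le.1 (tmb_mul c1 b2)
  have d6 := abs_le.1 (tmb_mul a2 b3)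
  have d7 := abs_le.1 (tmb_mul c1 c2)
  have d8 := abs_le.1 (tmb_mul c3 c4)
  rw [abs_le] at h ⊢
  constructor <;> linarith [d1.1, d1.2, d2.1, d2.2, d3.1, d3.2, d4.1, d4.2, d5.1, d5.2, d6.1, d6.2,
    d7.1, d7.2, d8.1, d8.2, h.1, h.2]

theorem TM.mul_sound {a b : TM} {f g : (ℕ → ℝ) → ℝ} {k : TM → Bool} (ha : G a f) (hb : G b g)
    (H : TM.mul a b k = true) : ∃ c, G c (fun δ => f δ * g δ) ∧ k c = true := by
  obtain ⟨ac, al, aq, ab1, ab2, ae0, ae1, ae2⟩ := a
  obtain ⟨bc, bl, bq, bb1, bb2, be0, be1, be2⟩ := b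
  obtain ⟨a1, a2, -, a3, a4, a5, lf, a6, a7⟩ := ha
  obtain ⟨b1, -, -, b3, b4, b5, lg, b6, b7⟩ := hb
  dsimp only at a1 a2 a3 a4 a5 a6 a7 b1 b3 b4 b5 b6 b7
  simp only [TM.mul, frc_eq] at H
  obtain ⟨h0, H⟩ := frp_true H
  obtain ⟨l, l1, -, H, l2⟩ := map2_sound (α := val bc) (β := val ac) (u := mag 1)
    (fun x y h => by
      rw [add_comm (val bc * val x)]
      exact val_bm2 h) al bl H
  obtain ⟨q, q1, q2, H, q3⟩ := tmb_mulq b1 aq bq al H
  have A0 : |f 0| ≤ mag (ab ac) + mag ae0 := mag_ab ac ▸ tmb_tri a5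
  have B0 : |g 0| ≤ mag (ab bc) + mag be0 := mag_ab bc ▸ tmb_tri b5
  have dl : ∀ {l : NL} {n : ℕ} {δ t}, l.asum ≤ n → Bd δ t → |l.dot δ| ≤ mag n * t :=
    fun {l n δ t} h hd => (l.dot_le hd).trans
      (mul_le_mul_of_nonneg_right (tmb_mono h) ((abs_nonneg _).trans (hd 0)))
  have dq : ∀ {q : NLL} {n : ℕ} {δ t}, q.asum ≤ n → Bd δ t → |q.quad δ δ| ≤ mag n * (t * t) :=
    fun {q n δ t} h hd => (q.quad_le hd hd).trans
      (mul_le_mul_of_nonneg_right (tmb_mono h) (mul_self_nonneg t))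
  refine ⟨_, ⟨l1 ▸ a1, q1 ▸ a2, q2, le_rfl, le_rfl, ?_, f 0 • lg + g 0 • lf, fun δ t hd => ?_,
    fun δ t hd ht => ?_⟩, H⟩
  · refine le_trans ?_ (tmb_sh _ 1)
    have c1 := abs_le.1 (tmb_mul A0 b5)
    have c2 := abs_le.1 (tmb_mul a5 (((mag_ab bc).symm.le).trans
      (le_add_of_nonneg_right (tmb_nonneg be0))))
    have c3 := abs_le.1 (val_bm h0)
    simp only [tmb_add, add_div, tmb_prod, Nat.cast_one, abs_le]
    constructor <;> linarith [c1.1, c1.2, c2.1, c2.2, c3.1, c3.2]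
  · have t0 : 0 ≤ t := (abs_nonneg _).trans (hd 0)
    refine le_trans ?_ (mul_le_mul_of_nonneg_right (tmb_sh _ 9) t0)
    have c0 : (l.len : ℝ) * mag 1 * t ≤ 9 * mag 1 * t :=
      mul_le_mul_of_nonneg_right (mul_le_mul_of_nonneg_right
        (by exact_mod_cast l1 ▸ a1) (tmb_nonneg 1)) t0
    have c1 := abs_le.1 (tmb_mul A0 (b6 δ t hd))
    have c2 := abs_le.1 (tmb_mul a5 (dl b3 hd))
    have c3 := abs_le.1 (tmb_mul B0 (a6 δ t hd))
    have c4 := abs_le.1 (tmb_mul b5 (dl a3 hd))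
    have c5 := abs_le.1 ((l2 δ t hd).trans c0)
    simp only [tmb_add, add_div, tmb_prod, Nat.cast_ofNat, abs_le, LinearMap.add_apply,
      LinearMap.smul_apply, smul_eq_mul]
    constructor <;> linarith [c1.1, c1.2, c2.1, c2.2, c3.1, c3.2, c4.1, c4.2, c5.1, c5.2]
  · have t0 : 0 ≤ t := (abs_nonneg _).trans (hd 0)
    refine le_trans ?_ (mul_le_mul_of_nonneg_right (tmb_sh _ 81) (sq_nonneg t))
    have c0 : (q.rows : ℝ) * (9 * mag 1 * (t * t)) ≤ 81 * mag 1 * (t * t) := by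
      have c1 : (q.rows : ℝ) ≤ 9 := by exact_mod_cast q1 ▸ a2
      have c2 := mul_le_mul_of_nonneg_right c1
        (mul_nonneg (tmb_nonneg 1) (mul_self_nonneg t))
      linarith
    have c1 := tmb_real t0 ht (add_nonneg (tmb_nonneg bb1) (tmb_nonneg be1))
      (add_nonneg (tmb_nonneg bb2) (tmb_nonneg be2)) A0 B0 a5 b5 (a6 δ t hd) (b6 δ t hd)
      (dl a3 hd) (dl b3 hd) (dq a4 hd) (dq b4 hd) (a7 δ t hd ht) (b7 δ t hd ht)
      ((q3 δ δ t t hd hd).trans c0)
    simp only [tmb_add, add_div, tmb_prod, Nat.cast_ofNat, LinearMap.add_apply,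
      LinearMap.smul_apply, smul_eq_mul]
    refine le_trans (le_of_eq (congrArg _ ?_)) c1
    ring

end Pool.Agent.Lib.MP_ee7495_gt.Y
end
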