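import Mathlib
import Pool.Agent.Lib.MP_ee7495_gt.Y.Sym
import Pool.Agent.Lib.MP_ee7495_gt.Y.TMb

-- part Pool.Agent.Lib.MP_ee7495_gt.Y.Cfg
section

set_option autoImplicit false

open scoped RealInnerProductSpace
open Real Set

namespace Pool.Agent.Lib.MP_ee7495_gt.Y

/-- A normalised polygon of width at least one, from `A = P 0 = 0` through a highest vertex
`B = P iB` and a lowest vertex `C = P iC` to `D = P N`. -/
structure Cfg where
  N : ℕ
  iB : ℕ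
  iC : ℕ
  P : ℕ → E
  hBC : iB ≤ iC
  hCN : iC ≤ N
  P0 : P 0 = 0
  Dx : P N 0 = 0
  Dy : 0 ≤ P N 1
  top : ∀ i ≤ N, P i 2 ≤ P iB 2
  bot : ∀ i ≤ N, P iC 2 ≤ P i 2
  t1 : ∃ i ≤ iB, P i 2 = P iC 2
  t3 : ∃ i, iC ≤ i ∧ i ≤ N ∧ P i 2 = P iB 2
  wid : ∀ u : E, ∃ i ≤ N, ∃ j ≤ N, ‖u‖ ≤ ⟪P j - P i, u⟫

namespace Cfg
variable (C : Cfg)

/-- Edge vectors. -/
noncomputable def ed (k : ℕ) : E := C.P (k + 1) - C.P k
/-- Sum of a function of the edges over the first, second, third piece. -/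
noncomputable def S1 (f : E → ℝ) : ℝ := ∑ k ∈ Finset.Ico 0 C.iB, f (C.ed k)
noncomputable def S2 (f : E → ℝ) : ℝ := ∑ k ∈ Finset.Ico C.iB C.iC, f (C.ed k)
noncomputable def S3 (f : E → ℝ) : ℝ := ∑ k ∈ Finset.Ico C.iC C.N, f (C.ed k)
/-- Length. -/
noncomputable def len : ℝ := ∑ k ∈ Finset.range C.N, ‖C.ed k‖
/-- Positive variation in direction `u` on the three pieces. -/
noncomputable def V1 (u : E) : ℝ := C.S1 fun ξ => pp ⟪ξ, u⟫
noncomputable def V2 (u : E) : ℝ := C.S2 fun ξ => pp ⟪ξ, u⟫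
noncomputable def V3 (u : E) : ℝ := C.S3 fun ξ => pp ⟪ξ, u⟫
noncomputable def a : E := C.P C.N
noncomputable def b : E := -C.P C.iB
noncomputable def c : E := C.P C.iC - C.P C.N
/-- Height of the slab. -/
noncomputable def h : ℝ := C.P C.iB 2 - C.P C.iC 2

/-- Hook functional. -/
noncomputable def Phi3 (g : E) : ℝ := C.V2 (-g) + C.V3 g

end Cfg

/-- Corners of the cone of directions of the third family: `g, g + A2, g + A1, g + A1 + A2` with
`g = (-594, 633, -580) / 1024`, `A1 = (-186, -90, 168) / 1024`, `A2 = (-88, -196, -62) / 1024`. -/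
noncomputable def Gk : Fin 4 → E :=
  ![vec (-594 / 1024) (633 / 1024) (-580 / 1024), vec (-682 / 1024) (437 / 1024) (-642 / 1024),
    vec (-780 / 1024) (543 / 1024) (-412 / 1024), vec (-868 / 1024) (347 / 1024) (-474 / 1024)]

/-- Mirror images of the corners. -/
noncomputable def Mk (j : Fin 4) : E := mir (Gk j)

/-- Outer normals of the facets of the cone. -/
noncomputable def Fk : Fin 4 → E :=
  ![vec (611704 / 1048576) (-56848 / 1048576) (-688512 / 1048576),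
    vec (-457672 / 1048576) (-48416 / 1048576) (802656 / 1048576),
    vec (216576 / 1048576) (830688 / 1048576) (684792 / 1048576),
    vec (-62544 / 1048576) (-935952 / 1048576) (-570648 / 1048576)]

/-- The cone. -/
def InOm (u : E) : Prop := ∀ i, ⟪Fk i, u⟫ ≤ 0

/-- Nonnegative combinations of the corners of total weight at most `ν`. -/
def InG (ν : ℝ) (u : E) : Prop :=
  ∃ t : Fin 4 → ℝ, (∀ j, 0 ≤ t j) ∧ t 0 + t 1 + t 2 + t 3 ≤ ν ∧
    u = t 0 • Gk 0 + t 1 • Gk 1 + t 2 • Gk 2 + t 3 • Gk 3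

/-- Maximum of four numbers. -/
noncomputable def mx4 (f : Fin 4 → ℝ) : ℝ := max (max (f 0) (f 1)) (max (f 2) (f 3))

namespace Cfg
variable (C : Cfg)

/-- Size of the shift of the anchor. -/
noncomputable def s3 (ε : ℝ) : ℝ := 4 / 3 * (mx4 (fun j => C.Phi3 (Gk j)) + (C.h - 1) + ε)
/-- The shifted anchor. -/
noncomputable def cx (ε : ℝ) : ℝ := C.c 0 - 13 / 16 * C.s3 ε
noncomputable def cy (ε : ℝ) : ℝ := C.c 1 + 9 / 16 * C.s3 ε

end Cfg

/-- No pair of supporting points in a bad order. -/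
def NoBad (C : Cfg) : Prop :=
  ∀ u : E, InG 1 u → C.V1 u + C.V3 u < 1 + ⟪C.a, u⟫ ∧ C.V1 (-u) + C.V2 (-u) < 1

/-- The two main branches for the direction `(-1, 0, 0)`. -/
def Br (C : Cfg) (br : Bool) : Prop :=
  cond br (1 ≤ C.V2 (-zI) + C.V3 (-zI)) (1 ≤ C.V1 zI + C.V2 zI)

/-- The level below which the localisation is carried out. -/
noncomputable def Lup : ℝ := 3.9051242

/-- A short configuration in mirror normal form whose chord has slope `y`. -/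
structure Loc (C : Cfg) (y : ℝ) : Prop where
  hm : C.c 0 ≤ C.b 0
  hl : C.len < Lup
  az : 0 < C.a 2
  ha : C.a = C.a 2 • vec 0 y 1
  y1 : 0.94 ≤ y
  y2 : y ≤ 1.11

/-- A half plane for the shifted anchor, on the slab `pL ≤ 10 ^ 5 y ≤ pR`. -/
structure Facet : Type where
  pL : ℕ
  pR : ℕ
  g : ℤ
  d1 : ℤ
  d2 : ℤ
  H : ℤ

/-- The inequality of a facet. -/
def Facet.Sat (f : Facet) (y c1 c2 : ℝ) : Prop :=
  (f.pL : ℝ) ≤ 100000 * y → 100000 * y ≤ f.pR →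
    f.g * y + 10000000 * (f.d1 * c1 + f.d2 * c2) ≤ f.H

/-- Meaning of a facet. -/
def Facet.Valid (f : Facet) : Prop :=
  ∀ (C : Cfg) (y ε : ℝ), Loc C y → 0 < ε → ε ≤ 1 / 10 ^ 7 → f.Sat y (C.cx ε) (C.cy ε)

end Pool.Agent.Lib.MP_ee7495_gt.Y
end

-- part Pool.Agent.Lib.MP_ee7495_gt.Y.Cone
section

set_option autoImplicit false

open scoped RealInnerProductSpace
open Real Set

namespace Pool.Agent.Lib.MP_ee7495_gt.Y

/-- Hypotheses on the cone data. -/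
structure ConeOK (c e : E) : Prop where
  unit : ‖e‖ = 1
  nu : 1 < ‖c‖ ^ 2 - ⟪c, e⟫ ^ 2

theorem cone_cross_l (u v : E) : ⟪u, cross u v⟫ = 0 := by
  simp only [inner3, cross_0, cross_1, cross_2]; ring

theorem cone_cross_r (u v : E) : ⟪v, cross u v⟫ = 0 := by
  simp only [inner3, cross_0, cross_1, cross_2]; ring

theorem cone_cross_l' (u v : E) : ⟪cross u v, u⟫ = 0 := by rw [real_inner_comm, cone_cross_l]

theorem cone_cross_r' (u v : E) : ⟪cross u v, v⟫ = 0 := by rw [real_inner_comm, cone_cross_r]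

theorem cone_cross_cross (a b u v : E) :
    ⟪cross a b, cross u v⟫ = ⟪a, u⟫ * ⟪b, v⟫ - ⟪a, v⟫ * ⟪b, u⟫ := by
  simp only [inner3, cross_0, cross_1, cross_2]; ring

theorem cone_triple (a u v : E) : ⟪a, cross u v⟫ = ⟪u, cross v a⟫ := by
  simp only [inner3, cross_0, cross_1, cross_2]; ring

theorem cone_skew (a u v : E) : ⟪cross a u, v⟫ = -⟪u, cross a v⟫ := by
  simp only [inner3, cross_0, cross_1, cross_2]; ring

theorem cone_bac (a u v : E) : cross a (cross u v) = ⟪a, v⟫ • u - ⟪a, u⟫ • v := by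
  refine ext3 ?_ ?_ ?_ <;> simp [inner3] <;> ring

theorem cone_bac' (a u v : E) : cross (cross u v) a = ⟪a, u⟫ • v - ⟪a, v⟫ • u := by
  refine ext3 ?_ ?_ ?_ <;> simp [inner3] <;> ring

theorem cone_cross_self (u : E) : cross u u = 0 := by
  refine ext3 ?_ ?_ ?_ <;> simp <;> ring

theorem cone_cross_anti (u v : E) : cross u v = -cross v u := by
  refine ext3 ?_ ?_ ?_ <;> simp <;> ring

theorem cone_cross_add3 (x y : ℝ) (a b d w : E) :
    cross (x • a + y • b + d) w = x • cross a w + y • cross b w + cross d w := by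
  refine ext3 ?_ ?_ ?_ <;> simp <;> ring

theorem cone_rot_add (c : E) (t : ℝ) (u v : E) : rot c t (u + v) = rot c t u + rot c t v := by
  refine ext3 ?_ ?_ ?_ <;> simp [rot, inner3] <;> ring

theorem cone_rot_sub (c : E) (t : ℝ) (u v : E) : rot c t (u - v) = rot c t u - rot c t v := by
  refine ext3 ?_ ?_ ?_ <;> simp [rot, inner3] <;> ring

theorem cone_rot_smul (c : E) (t x : ℝ) (u : E) : rot c t (x • u) = x • rot c t u := by
  refine ext3 ?_ ?_ ?_ <;> simp [rot, inner3] <;> ring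

/-- Expansion in an orthonormal triple. -/
theorem cone_expand {a b d : E} (ha : ⟪a, a⟫ = 1) (hb : ⟪b, b⟫ = 1) (hd : ⟪d, d⟫ = 1)
    (hab : ⟪a, b⟫ = 0) (had : ⟪a, d⟫ = 0) (hbd : ⟪b, d⟫ = 0) (v : E) :
    v = ⟪v, a⟫ • a + ⟪v, b⟫ • b + ⟪v, d⟫ • d := by
  simp only [inner3] at *
  have h1 : (!![a 0, a 1, a 2; b 0, b 1, b 2; d 0, d 1, d 2] : Matrix (Fin 3) (Fin 3) ℝ) *
      !![a 0, b 0, d 0; a 1, b 1, d 1; a 2, b 2, d 2] = 1 := by
    ext i j
    fin_cases i <;> fin_cases j <;> simp [Matrix.mul_apply, Fin.sum_univ_three] <;> linarith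
  rw [mul_eq_one_comm] at h1
  have h2 := fun i j => congrFun (congrFun h1 i) j
  have e00 := h2 0 0
  have e01 := h2 0 1
  have e02 := h2 0 2
  have e11 := h2 1 1
  have e12 := h2 1 2
  have e22 := h2 2 2
  simp [Matrix.mul_apply, Fin.sum_univ_three] at e00 e01 e02 e11 e12 e22
  refine ext3 ?_ ?_ ?_ <;> simp
  · linear_combination (-v 0) * e00 - v 1 * e01 - v 2 * e02
  · linear_combination (-v 0) * e01 - v 1 * e11 - v 2 * e12
  · linear_combination (-v 0) * e02 - v 1 * e12 - v 2 * e22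

theorem ConeOK.one_lt {c e : E} (h : ConeOK c e) : 1 < ‖c‖ := by
  have h1 := h.nu
  nlinarith [norm_nonneg c, sq_nonneg ⟪c, e⟫]

theorem rot_inner {c : E} (hc : c ≠ 0) (t : ℝ) (u v : E) : ⟪rot c t u, rot c t v⟫ = ⟪u, v⟫ := by
  have h0 : ‖c‖ ≠ 0 := norm_ne_zero_iff.2 hc
  simp only [rot, inner_add_left, inner_add_right, real_inner_smul_left, real_inner_smul_right,
    cone_cross_cross, cone_cross_l, cone_cross_l', cone_skew c u v, real_inner_self_eq_norm_sq,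
    real_inner_comm c u]
  have h1 := sin_sq_add_cos_sq t
  field_simp
  linear_combination ‖c‖ * (‖c‖ ^ 2 * ⟪u, v⟫ - ⟪c, u⟫ * ⟪c, v⟫) * h1

theorem rot_axis {c : E} (hc : c ≠ 0) (t : ℝ) : rot c t c = c := by
  have h0 : ‖c‖ ≠ 0 := norm_ne_zero_iff.2 hc
  rw [rot, cone_cross_self, real_inner_self_eq_norm_sq, mul_div_assoc, div_self (pow_ne_zero 2 h0)]
  module

theorem rot_zero (c u : E) : rot c 0 u = u := by
  simp [rot]

theorem cone_inner_rot {c : E} (hc : c ≠ 0) (t : ℝ) (u : E) : ⟪c, rot c t u⟫ = ⟪c, u⟫ := by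
  have := rot_inner hc t c u
  rwa [rot_axis hc] at this

theorem cone_deriv_rot {c : E} (hc : c ≠ 0) (w : E) (t : ℝ) :
    HasDerivAt (fun s => rot c (-s) w) ((-(1 / ‖c‖)) • rot c (-t) (cross c w)) t := by
  have h0 : ‖c‖ ≠ 0 := norm_ne_zero_iff.2 hc
  have h1 : HasDerivAt (fun s : ℝ => cos (-s)) (-sin (-t) * -1) t := (hasDerivAt_neg t).cos
  have h2 : HasDerivAt (fun s : ℝ => sin (-s)) (cos (-t) * -1) t := (hasDerivAt_neg t).sin
  have h3 := ((h1.smul_const w).add ((h2.div_const ‖c‖).smul_const (cross c w))).add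
    ((((h1.const_sub 1).mul_const ⟪c, w⟫).div_const (‖c‖ ^ 2)).smul_const c)
  refine HasDerivAt.congr_deriv h3 ?_
  rw [rot, cone_bac, cone_cross_l, real_inner_self_eq_norm_sq]
  match_scalars <;> field_simp <;> ring

theorem cone_V_eq (c e : E) : coneV c e = fun t =>
    cos (t / ‖c‖) • rot c (-t) e - sin (t / ‖c‖) • rot c (-t) (coneN c e) := by
  funext t
  rw [coneV, cone_rot_sub, cone_rot_smul, cone_rot_smul]

theorem cone_M_eq (c e : E) : coneM c e = fun t =>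
    cos (t / ‖c‖) • rot c (-t) (coneN c e) + sin (t / ‖c‖) • rot c (-t) e := by
  funext t
  rw [coneM, cone_rot_add, cone_rot_smul, cone_rot_smul]

section
variable {c e : E} (h : ConeOK c e)
include h

theorem ConeOK.cone_ne : c ≠ 0 := by
  have := h.one_lt
  exact norm_ne_zero_iff.1 (by linarith)

theorem ConeOK.cone_ee : ⟪e, e⟫ = 1 := by rw [real_inner_self_eq_norm_sq, h.unit, one_pow]

theorem ConeOK.cone_sq :
    √(‖c‖ ^ 2 - ⟪c, e⟫ ^ 2 - 1) ^ 2 = ‖c‖ ^ 2 - ⟪c, e⟫ ^ 2 - 1 :=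
  Real.sq_sqrt (by linarith [h.nu])

theorem ConeOK.cone_eN : ⟪e, coneN c e⟫ = 0 := by
  simp only [coneN, inner_add_right, inner_sub_right, real_inner_smul_right, cone_cross_l,
    h.cone_ee, real_inner_comm c e]
  ring

theorem ConeOK.cone_Ne : ⟪coneN c e, e⟫ = 0 := by rw [real_inner_comm, h.cone_eN]

theorem ConeOK.cone_cN : ⟪c, coneN c e⟫ = √(‖c‖ ^ 2 - ⟪c, e⟫ ^ 2 - 1) := by
  have h0 : ‖c‖ ^ 2 - ⟪c, e⟫ ^ 2 ≠ 0 := by linarith [h.nu]
  simp only [coneN, inner_add_right, inner_sub_right, real_inner_smul_right, cone_cross_r,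
    real_inner_self_eq_norm_sq]
  field_simp
  ring

theorem ConeOK.cone_xN : ⟪cross e c, coneN c e⟫ = 1 := by
  have h0 : ‖c‖ ^ 2 - ⟪c, e⟫ ^ 2 ≠ 0 := by linarith [h.nu]
  simp only [coneN, inner_add_right, inner_sub_right, real_inner_smul_right, cone_cross_r',
    cone_cross_l', cone_cross_cross, h.cone_ee, real_inner_comm c e]
  rw [real_inner_self_eq_norm_sq]
  field_simp
  ring

theorem ConeOK.cone_NN : ⟪coneN c e, coneN c e⟫ = 1 := by
  have h0 : ‖c‖ ^ 2 - ⟪c, e⟫ ^ 2 ≠ 0 := by linarith [h.nu]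
  have h1 : ⟪coneN c e, coneN c e⟫ = (‖c‖ ^ 2 - ⟪c, e⟫ ^ 2)⁻¹ * (⟪cross e c, coneN c e⟫ +
      √(‖c‖ ^ 2 - ⟪c, e⟫ ^ 2 - 1) * (⟪c, coneN c e⟫ - ⟪c, e⟫ * ⟪e, coneN c e⟫)) := by
    generalize hN : coneN c e = N
    conv_lhs => enter [2]; rw [← hN, coneN]
    simp only [inner_add_left, inner_sub_left, real_inner_smul_left]
  rw [h1, h.cone_xN, h.cone_cN, h.cone_eN, mul_zero, sub_zero, ← sq, h.cone_sq]
  field_simp
  ring

theorem ConeOK.cone_cU : ⟪c, cross (coneN c e) e⟫ = 1 := by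
  rw [cone_triple, real_inner_comm, h.cone_xN]

theorem ConeOK.cone_UU : ⟪cross (coneN c e) e, cross (coneN c e) e⟫ = 1 := by
  rw [cone_cross_cross, h.cone_NN, h.cone_ee, h.cone_eN]
  ring

theorem ConeOK.cone_c :
    c = ⟪c, e⟫ • e + √(‖c‖ ^ 2 - ⟪c, e⟫ ^ 2 - 1) • coneN c e + cross (coneN c e) e := by
  have := cone_expand h.cone_ee h.cone_NN h.cone_UU h.cone_eN (cone_cross_r _ _)
    (cone_cross_l _ _) c
  rwa [h.cone_cN, h.cone_cU, one_smul] at this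

theorem ConeOK.cone_xe :
    cross c e = √(‖c‖ ^ 2 - ⟪c, e⟫ ^ 2 - 1) • cross (coneN c e) e - coneN c e := by
  have := congrArg (fun w => cross w e) h.cone_c
  simp only [cone_cross_add3, cone_cross_self, cone_bac', h.cone_eN, h.cone_ee] at this
  rw [this]
  module

theorem ConeOK.cone_xn : cross c (coneN c e) = e - ⟪c, e⟫ • cross (coneN c e) e := by
  have := congrArg (fun w => cross w (coneN c e)) h.cone_c
  simp only [cone_cross_add3, cone_cross_self, cone_bac', h.cone_Ne, h.cone_NN] at this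
  rw [this, cone_cross_anti e]
  module

theorem ConeOK.cone_xu : cross c (cross (coneN c e) e) =
    ⟪c, e⟫ • coneN c e - √(‖c‖ ^ 2 - ⟪c, e⟫ ^ 2 - 1) • e := by
  rw [cone_bac, h.cone_cN]

theorem ConeOK.cone_VV (t : ℝ) : ⟪coneV c e t, coneV c e t⟫ = 1 := by
  rw [coneV, rot_inner h.cone_ne]
  simp only [inner_sub_left, inner_sub_right, real_inner_smul_left, real_inner_smul_right,
    h.cone_ee, h.cone_eN, h.cone_Ne, h.cone_NN]
  linear_combination sin_sq_add_cos_sq (t / ‖c‖)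

theorem ConeOK.cone_MM (t : ℝ) : ⟪coneM c e t, coneM c e t⟫ = 1 := by
  rw [coneM, rot_inner h.cone_ne]
  simp only [inner_add_left, inner_add_right, real_inner_smul_left, real_inner_smul_right,
    h.cone_ee, h.cone_eN, h.cone_Ne, h.cone_NN]
  linear_combination sin_sq_add_cos_sq (t / ‖c‖)

theorem ConeOK.cone_UUt (t : ℝ) : ⟪coneU c e t, coneU c e t⟫ = 1 := by
  rw [coneU, rot_inner h.cone_ne, h.cone_UU]

theorem ConeOK.norm_V (t : ℝ) : ‖coneV c e t‖ = 1 := by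
  rw [norm_eq_sqrt_real_inner, h.cone_VV, Real.sqrt_one]
theorem ConeOK.norm_M (t : ℝ) : ‖coneM c e t‖ = 1 := by
  rw [norm_eq_sqrt_real_inner, h.cone_MM, Real.sqrt_one]
theorem ConeOK.norm_U (t : ℝ) : ‖coneU c e t‖ = 1 := by
  rw [norm_eq_sqrt_real_inner, h.cone_UUt, Real.sqrt_one]
theorem ConeOK.inner_VM (t : ℝ) : ⟪coneV c e t, coneM c e t⟫ = 0 := by
  rw [coneV, coneM, rot_inner h.cone_ne]
  simp only [inner_sub_left, inner_add_right, real_inner_smul_left, real_inner_smul_right,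
    h.cone_ee, h.cone_eN, h.cone_Ne, h.cone_NN]
  ring
theorem ConeOK.inner_VU (t : ℝ) : ⟪coneV c e t, coneU c e t⟫ = 0 := by
  rw [coneV, coneU, rot_inner h.cone_ne]
  simp only [inner_sub_left, real_inner_smul_left, cone_cross_l, cone_cross_r]
  ring
theorem ConeOK.inner_MU (t : ℝ) : ⟪coneM c e t, coneU c e t⟫ = 0 := by
  rw [coneM, coneU, rot_inner h.cone_ne]
  simp only [inner_add_left, real_inner_smul_left, cone_cross_l, cone_cross_r]
  ring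
theorem ConeOK.inner_cV (t : ℝ) : ⟪c, coneV c e t⟫ = kapT c e t := by
  rw [coneV, cone_inner_rot h.cone_ne, kapT]
  simp only [inner_sub_right, real_inner_smul_right, h.cone_cN]
  ring
theorem ConeOK.inner_cM (t : ℝ) : ⟪c, coneM c e t⟫ = sigT c e t := by
  rw [coneM, cone_inner_rot h.cone_ne, sigT]
  simp only [inner_add_right, real_inner_smul_right, h.cone_cN]
  ring
theorem ConeOK.inner_cU (t : ℝ) : ⟪c, coneU c e t⟫ = 1 := by
  rw [coneU, cone_inner_rot h.cone_ne, h.cone_cU]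
theorem ConeOK.sq_sum (t : ℝ) : kapT c e t ^ 2 + sigT c e t ^ 2 + 1 = ‖c‖ ^ 2 := by
  rw [kapT, sigT]
  linear_combination (‖c‖ ^ 2 - 1) * sin_sq_add_cos_sq (t / ‖c‖) +
    (sin (t / ‖c‖) ^ 2 + cos (t / ‖c‖) ^ 2) * h.cone_sq

theorem ConeOK.expand (t : ℝ) (v : E) : v = ⟪v, coneV c e t⟫ • coneV c e t +
    ⟪v, coneM c e t⟫ • coneM c e t + ⟪v, coneU c e t⟫ • coneU c e t :=
  cone_expand (h.cone_VV t) (h.cone_MM t) (h.cone_UUt t) (h.inner_VM t) (h.inner_VU t)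
    (h.inner_MU t) v

theorem ConeOK.normsq (t : ℝ) (v : E) : ‖v‖ ^ 2 =
    ⟪v, coneV c e t⟫ ^ 2 + ⟪v, coneM c e t⟫ ^ 2 + ⟪v, coneU c e t⟫ ^ 2 := by
  have h1 := congrArg (fun w => ⟪v, w⟫) (h.expand t v)
  simp only [inner_add_right, real_inner_smul_right, real_inner_self_eq_norm_sq] at h1
  rw [h1]
  ring

theorem ConeOK.deriv_V (t : ℝ) :
    HasDerivAt (coneV c e) ((-(sigT c e t / ‖c‖)) • coneU c e t) t := by
  have h1 := ((hasDerivAt_id t).div_const ‖c‖).cos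
  have h2 := ((hasDerivAt_id t).div_const ‖c‖).sin
  have h3 := (h1.smul (cone_deriv_rot h.cone_ne e t)).sub
    (h2.smul (cone_deriv_rot h.cone_ne (coneN c e) t))
  rw [cone_V_eq]
  refine HasDerivAt.congr_deriv h3 ?_
  rw [h.cone_xe, h.cone_xn, coneU, sigT]
  simp only [cone_rot_sub, cone_rot_smul, id]
  module

theorem ConeOK.deriv_M (t : ℝ) :
    HasDerivAt (coneM c e) ((kapT c e t / ‖c‖) • coneU c e t) t := by
  have h1 := ((hasDerivAt_id t).div_const ‖c‖).cos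
  have h2 := ((hasDerivAt_id t).div_const ‖c‖).sin
  have h3 := (h1.smul (cone_deriv_rot h.cone_ne (coneN c e) t)).add
    (h2.smul (cone_deriv_rot h.cone_ne e t))
  rw [cone_M_eq]
  refine HasDerivAt.congr_deriv h3 ?_
  rw [h.cone_xe, h.cone_xn, coneU, kapT]
  simp only [cone_rot_sub, cone_rot_smul, id]
  module

theorem ConeOK.deriv_U (t : ℝ) : HasDerivAt (coneU c e)
    ((sigT c e t / ‖c‖) • coneV c e t - (kapT c e t / ‖c‖) • coneM c e t) t := by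
  refine HasDerivAt.congr_deriv (cone_deriv_rot h.cone_ne (cross (coneN c e) e) t) ?_
  rw [h.cone_xu, cone_V_eq, cone_M_eq, kapT, sigT]
  simp only [cone_rot_sub, cone_rot_smul]
  have h1 := sin_sq_add_cos_sq (t / ‖c‖)
  match_scalars
  · linear_combination (⟪c, e⟫ / ‖c‖) * h1
  · linear_combination (-√(‖c‖ ^ 2 - ⟪c, e⟫ ^ 2 - 1) / ‖c‖) * h1

theorem ConeOK.cone_U_eq (t : ℝ) : coneU c e t = cos t • cross (coneN c e) e -
    (sin t / ‖c‖) • cross c (cross (coneN c e) e) + ((1 - cos t) / ‖c‖ ^ 2) • c := by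
  rw [coneU, rot, h.cone_cU, cos_neg, sin_neg]
  module

theorem ConeOK.inner_UU (s t : ℝ) :
    ⟪coneU c e s, coneU c e t⟫ = 1 / ‖c‖ ^ 2 + (1 - 1 / ‖c‖ ^ 2) * cos (s - t) := by
  have h0 : ‖c‖ ≠ 0 := norm_ne_zero_iff.2 h.cone_ne
  have h1 := h.cone_UU
  have h2 := h.cone_cU
  rw [h.cone_U_eq, h.cone_U_eq, cos_sub]
  generalize cross (coneN c e) e = w at *
  have h3 : ⟪w, c⟫ = 1 := by rw [real_inner_comm, h2]
  have h4 : ⟪c, c⟫ = ‖c‖ ^ 2 := real_inner_self_eq_norm_sq c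
  simp only [inner_add_left, inner_add_right, inner_sub_left, inner_sub_right,
    real_inner_smul_left, real_inner_smul_right, cone_cross_cross, cone_cross_l, cone_cross_l',
    cone_cross_r, cone_cross_r', h1, h2, h3, h4]
  field_simp
  ring

/-- Interpolation on the small circle with centre `c / ‖c‖²`. -/
theorem ConeOK.interp (D t : ℝ) :
    sin D • (coneU c e t - (1 / ‖c‖ ^ 2) • c) = sin t • (coneU c e D - (1 / ‖c‖ ^ 2) • c) +
      sin (D - t) • (coneU c e 0 - (1 / ‖c‖ ^ 2) • c) := by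
  rw [h.cone_U_eq, h.cone_U_eq, h.cone_U_eq, sin_sub, cos_zero, sin_zero]
  module

end

theorem coneV_zero (c e : E) : coneV c e 0 = e := by simp [coneV, rot_zero]
theorem coneM_zero (c e : E) : coneM c e 0 = coneN c e := by simp [coneM, rot_zero]
theorem coneU_zero (c e : E) : coneU c e 0 = cross (coneN c e) e := by simp [coneU, rot_zero]
theorem deriv_kapT (c e : E) (t : ℝ) : HasDerivAt (kapT c e) (-(sigT c e t / ‖c‖)) t := by
  have h1 := ((hasDerivAt_id t).div_const ‖c‖).cos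
  have h2 := ((hasDerivAt_id t).div_const ‖c‖).sin
  refine HasDerivAt.congr_deriv
    ((h1.const_mul ⟪c, e⟫).sub (h2.const_mul √(‖c‖ ^ 2 - ⟪c, e⟫ ^ 2 - 1))) ?_
  simp only [sigT, id]
  ring
theorem deriv_sigT (c e : E) (t : ℝ) : HasDerivAt (sigT c e) (kapT c e t / ‖c‖) t := by
  have h1 := ((hasDerivAt_id t).div_const ‖c‖).cos
  have h2 := ((hasDerivAt_id t).div_const ‖c‖).sin
  refine HasDerivAt.congr_deriv
    ((h1.const_mul √(‖c‖ ^ 2 - ⟪c, e⟫ ^ 2 - 1)).add (h2.const_mul ⟪c, e⟫)) ?_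
  simp only [kapT, id]
  ring
theorem continuous_coneV (c e : E) : Continuous (coneV c e) := by
  rw [cone_V_eq]
  unfold rot
  fun_prop
theorem continuous_coneM (c e : E) : Continuous (coneM c e) := by
  rw [cone_M_eq]
  unfold rot
  fun_prop
theorem continuous_coneU (c e : E) : Continuous (coneU c e) := by
  unfold coneU rot
  fun_prop
theorem continuous_kapT (c e : E) : Continuous (kapT c e) := by
  unfold kapT
  fun_prop
theorem continuous_sigT (c e : E) : Continuous (sigT c e) := by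
  unfold sigT
  fun_prop

end Pool.Agent.Lib.MP_ee7495_gt.Y
end

-- part Pool.Agent.Lib.MP_ee7495_gt.Y.Sd
section

/-! The data of one side of the dual certificate and the inequalities that make it valid. -/

set_option autoImplicit false

open scoped RealInnerProductSpace
open Real Set

namespace Pool.Agent.Lib.MP_ee7495_gt.Y

/-- Scalars and vectors attached to one side. -/
structure Sd where
  (y e om et r ch D k ce si sy As cr sr co so sH cc sc Ky Kz c1 c2 ka ir ir2 nu sg aT Yn : ℝ)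
  (Q TA us ue : E)

namespace Sd
variable (d : Sd)

noncomputable def lam : ℝ := 51 / 100 * d.D * (d.sg * d.ir)
noncomputable def eb : ℝ := 1 / 8 * (d.D * d.D) * d.ir2
noncomputable def wv : E := vec (-(d.eb * d.c1)) (-(d.eb * d.c2)) d.eb
noncomputable def x1 : ℝ := 1 / 2 * (d.r - 1813 / 10000)
noncomputable def t1 : ℝ := d.x1 + 7 / 20 * (d.x1 * (d.x1 * d.x1))
noncomputable def mo : ℝ := d.aT - d.TA 2 - d.Q 2
noncomputable def sh : ℝ := d.As - 2 * (d.y * d.Ky)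
noncomputable def mc : ℝ := d.aT + d.sh + 1 / 10
noncomputable def qa : ℝ := 7 / 25 * d.sH
noncomputable def qb : ℝ := 49 / 600 * d.sH
noncomputable def qy : ℝ := d.qa * d.co
noncomputable def qz : ℝ := -(d.qa * d.so)
noncomputable def q0 : E := vec (-d.qb) d.qy d.qz
noncomputable def q1 : E := vec d.qb d.qy d.qz
noncomputable def tc : ℝ := d.t1 * d.cr
noncomputable def ts : ℝ := d.t1 * d.sr
noncomputable def w2 : ℝ := d.t1 + 11 / 60
noncomputable def w2s : ℝ := 11 / 61 * d.w2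
noncomputable def a0 : E := vec (-(d.tc * d.ce)) (d.ts * d.si) (-(d.ts * d.sy))
noncomputable def a1 : E := vec (-(60 / 61 * d.w2 * d.ce)) (d.w2s * d.si) (-(d.w2s * d.sy))
noncomputable def a2 : E :=
  vec (-(29 / 79 * d.ce)) (-(319 / 4740 * d.si)) (319 / 4740 * d.sy)
noncomputable def a3 : E :=
  vec (-(675 / 4187 * d.ce)) (-(420 / 4187 * d.si)) (420 / 4187 * d.sy)
noncomputable def zs (j : Fin 4) : ℝ := pp (⟪Mk j, d.us⟫ + pp ⟪Mk j, d.wv⟫)
noncomputable def ze (j : Fin 4) : ℝ := pp (⟪Mk j, d.ue⟫ + pp ⟪Mk j, d.wv⟫)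
noncomputable def zms : ℝ := mx4 d.zs
noncomputable def zme : ℝ := mx4 d.ze
noncomputable def cj (j : Fin 4) : ℝ :=
  d.lam * (d.zs j + d.ze j) + pp ⟪Mk j, d.q0⟫ + pp ⟪Mk j, d.q1⟫
noncomputable def Cm : ℝ := 2 * mx4 d.cj + 3041 / 10000
noncomputable def lz : ℝ := d.lam * (pp (-d.us 2) + pp (-d.ue 2))
noncomputable def m1 : ℝ := d.mc + 7 / 10
noncomputable def Kk : ℝ := d.m1 + 2 * (d.lz + 2 * pp (-d.qz) + 182 / 1000)

end Sd

noncomputable def mM (X : E) : ℝ := mx4 fun j => ⟪Mk j, X⟫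
noncomputable def mG (X : E) : ℝ := mx4 fun j => ⟪Gk j, X⟫

namespace Sd
variable (d : Sd)

/-- Test of type B for the removed vector `A`. -/
noncomputable def Bc (A : E) : ℝ :=
  -⟪d.TA + (d.TA - A), A⟫ +
    2 * (d.lam * (pp (pp (-⟪d.wv, A⟫) - ⟪d.us, A⟫) + pp (pp (-⟪d.wv, A⟫) - ⟪d.ue, A⟫)) +
      pp (-⟪d.q0, A⟫) + pp (-⟪d.q1, A⟫)) +
    d.m1 * pp (d.Kk - 2 * (d.TA - A) 2) + 29 / 100 * pp (2 * mM (d.TA - A) + d.Cm)

noncomputable def X3 : E := d.TA - (d.a0 + d.a1 + d.a2)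
noncomputable def ec : ℝ := d.m1 * pp (d.Kk - 2 * d.X3 2)
noncomputable def ds : ℝ := 2 * d.lam + 58 / 100 * d.zms
noncomputable def de : ℝ := 2 * d.lam + 58 / 100 * d.zme

/-- Test of type A. -/
noncomputable def Ac (X : E) : ℝ :=
  ⟪X, X⟫ - 1 + d.ec +
    d.lam * (pp (2 * (⟪X, d.us⟫ + pp ⟪d.wv, X⟫) + d.ds) +
      pp (2 * (⟪X, d.ue⟫ + pp ⟪d.wv, X⟫) + d.de)) +
    29 / 100 * pp (2 * mM X + 3041 / 10000)

noncomputable def xh : ℝ := 1 / 2 * d.ch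
noncomputable def th : ℝ := (d.xh + 7 / 20 * (d.xh * (d.xh * d.xh))) * d.sH
noncomputable def tcc : ℝ := d.th * d.cc
noncomputable def h0 : E := vec (-(d.th * d.sc)) (d.tcc * d.co) (-(d.tcc * d.so))
noncomputable def h1 : E := vec 0 (d.th * d.co) (-(d.th * d.so))
noncomputable def py : ℝ := 7 / 16 * d.y - 594 / 1000
noncomputable def pz : ℝ := 1 / 8 * d.y + 515 / 1000
noncomputable def wx7 : ℝ := 60 / 61 * d.t1 + 11 / 61
noncomputable def wf7 : ℝ := 11 / 61 * d.t1 + 1 / 61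
noncomputable def X7 : E :=
  vec (d.TA 0 + d.wx7 * d.ce + 3 / 10) (d.TA 1 - d.wf7 * d.si - d.py)
    (d.TA 2 + d.wf7 * d.sy - d.pz)
noncomputable def X4 : E := d.X7 - d.a0
noncomputable def oc : ℝ := 1 - d.cr
noncomputable def V0 : E :=
  vec (3 / 10 - d.ce * d.sr) (d.oc * d.si + d.py) (d.pz - d.oc * d.sy)
noncomputable def ecx : ℝ :=
  d.mc * pp (d.mc + 2 * (d.lz + pp (-d.h0 2) + pp (-d.h1 2)) - 2 * d.X7 2)
noncomputable def l2 : ℝ := 2 * d.lam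
noncomputable def Nv : ℝ := d.l2 + 128 / 125 * d.k

/-- Test for the ball of radius `2 / 5`. -/
noncomputable def bX (X : E) : ℝ :=
  ⟪X, X⟫ - 4 / 25 + d.ecx +
    d.lam * (pp (2 * (⟪X, d.us⟫ + pp ⟪d.wv, X⟫) + d.l2) +
      pp (2 * (⟪X, d.ue⟫ + pp ⟪d.wv, X⟫) + d.l2))

/-- Test for the ball of radius `3 / 5`. -/
noncomputable def bV (X : E) (N : ℝ) : ℝ :=
  ⟪X, X⟫ - 9 / 25 +
    d.lam * (pp (2 * (⟪X, d.us⟫ + pp ⟪d.wv, X⟫) + N) +
      pp (2 * (⟪X, d.ue⟫ + pp ⟪d.wv, X⟫) + N)) +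
    d.k * pp (2 * mG X + 128 / 125 * N)

noncomputable def Ve : E := vec (d.V0 0) (d.V0 1) (d.V0 2 - (d.mo - 1 / 10))
noncomputable def Ne : ℝ := d.Nv + 2 * d.th
noncomputable def bE : ℝ :=
  d.bV d.Ve d.Ne + pp (2 * ⟪d.Ve, d.h0⟫ + d.Ne * d.th) + pp (2 * ⟪d.Ve, d.h1⟫ + d.Ne * d.th)

/-- Sum over the four atoms. -/
noncomputable def s4 (f : E → ℝ) : ℝ := f d.a0 + f d.a1 + (f d.a2 + f d.a3)
noncomputable def gk : ℝ := 256 / 125 * d.k
noncomputable def cas : ℝ :=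
  d.lam + d.gk + 29 / 100 * d.zms + 2 * d.s4 fun a => pp (pp (-⟪a, d.wv⟫) - ⟪a, d.us⟫)
noncomputable def cae : ℝ :=
  3 * d.lam + d.gk + 29 / 100 * d.zme + 2 * d.s4 fun a => pp (pp (-⟪a, d.wv⟫) - ⟪a, d.ue⟫)
noncomputable def gg (j : Fin 4) : ℝ := ![1063 / 10000, 675 / 10000, 331 / 10000, 0] j
noncomputable def ckj (j : Fin 4) : ℝ :=
  1049 / 1000 * d.k + 2 * (d.s4 fun a => pp (-⟪Gk j, a⟫)) + gg j
noncomputable def mA (X : E) : ℝ := 2 * (pp (-⟪d.wv, X⟫) - ⟪X, d.us⟫) + d.cas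
noncomputable def mB (X : E) : ℝ := 2 * (pp (-⟪d.wv, X⟫) - ⟪X, d.ue⟫) + d.cae
noncomputable def mC (X : E) : ℝ := mx4 fun j => d.ckj j - 2 * ⟪Gk j, X⟫

/-- Test for the middle piece. -/
noncomputable def Mc (q : E) : ℝ :=
  (d.s4 fun a => pp (-⟪a, q⟫)) - 1 / 2 * ⟪d.Q + (d.Q - q), q⟫ +
    d.lam * (pp (d.mA (d.Q - q)) + pp (d.mB (d.Q - q))) + d.k * pp (d.mC (d.Q - q))

structure Range : Prop where
  y0 : 9 / 10 ≤ d.y
  y1 : d.y ≤ 23 / 20
  om0 : 3 / 20 ≤ d.om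
  om1 : d.om ≤ 7 / 20
  et0 : 3 / 5 ≤ d.et
  et1 : d.et ≤ 4 / 5
  r0 : 1815 / 10000 ≤ d.r
  r1 : d.r ≤ 5565 / 10000
  D0 : 0 ≤ d.D
  D1 : d.D ≤ 2 / 5
  ch0 : 0 ≤ d.ch
  ch1 : d.ch ≤ 2837 / 10000
  e0 : -(3 / 10) ≤ d.e
  e1 : d.e ≤ -(1 / 10)
  k0 : 0 ≤ d.k
  ka0 : d.ka ≤ 0
  sgka : 0 ≤ d.sg + d.ka
  nu0 : 11 / 10 ≤ d.nu
  kap : 0 ≤ d.Yn + 3 / 4 * d.k

structure Side : Prop where
  nu2 : 2 * d.lam + d.k ≤ 29 / 100
  mo0 : 1 / 10 ≤ d.mo
  mo1 : d.mo ≤ 4 / 5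
  mc0 : 0 ≤ d.mc
  hbr : d.k ≤ d.mo + 1 / 2 * d.sh + d.Kz
  Fs : ∀ i, ⟪Fk i, d.us⟫ + pp ⟪Fk i, d.wv⟫ ≤ 0
  Fe : ∀ i, ⟪Fk i, d.ue⟫ + pp ⟪Fk i, d.wv⟫ ≤ 0

structure TestB : Prop where
  o0y : 2 * mM d.TA + d.Cm ≤ 0
  o0e : d.Kk - 2 * d.TA 2 ≤ 0
  b1 : d.Bc d.a0 ≤ 0
  b2 : d.Bc (d.a0 + d.a1) ≤ 0
  b5 : d.Bc d.a3 ≤ 0
  b6 : d.Bc (d.a3 + d.a2) ≤ 0

structure TestA : Prop where
  a0 : d.Ac d.X3 ≤ 0
  a1 : d.Ac (d.X3 + d.q0) ≤ 0
  a2 : d.Ac (d.X3 + d.q1) ≤ 0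
  a3 : d.Ac (d.X3 + (d.q0 + d.q1)) ≤ 0

structure TestX : Prop where
  x40 : d.bX d.X4 ≤ 0
  x41 : d.bX (d.X4 + d.h0) ≤ 0
  x42 : d.bX (d.X4 + d.h1) ≤ 0
  x43 : d.bX (d.X4 + (d.h0 + d.h1)) ≤ 0
  x70 : d.bX d.X7 ≤ 0
  x71 : d.bX (d.X7 + d.h0) ≤ 0
  x72 : d.bX (d.X7 + d.h1) ≤ 0
  x73 : d.bX (d.X7 + (d.h0 + d.h1)) ≤ 0
  v0 : d.bV d.V0 d.Nv ≤ 0
  v1 : d.bV (d.V0 + d.h0) d.Nv ≤ 0
  v2 : d.bV (d.V0 + d.h1) d.Nv ≤ 0
  v3 : d.bV (d.V0 + (d.h0 + d.h1)) d.Nv ≤ 0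
  ve : d.bE ≤ 0

structure TestM : Prop where
  m0s : d.mA d.Q ≤ 0
  m0e : d.mB d.Q ≤ 0
  m0y : d.mC d.Q ≤ 0
  m1 : d.Mc d.q0 ≤ 0
  m2 : d.Mc d.q1 ≤ 0
  m3 : d.Mc (d.q0 + d.q1) ≤ 0

/-- All tests. -/
structure Valid : Prop where
  rg : d.Range
  sd : d.Side
  tb : d.TestB
  ta : d.TestA
  tx : d.TestX
  tm : d.TestM

/-- Geometric facts about the data. -/
structure Geo : Prop where
  ccsc : d.cc ^ 2 + d.sc ^ 2 = 1
  coso : d.co ^ 2 + d.so ^ 2 = 1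
  sH0 : 0 ≤ d.sH
  sr0 : 0 ≤ d.sr
  sy0 : 0 ≤ d.sy
  sg0 : 0 ≤ d.sg
  ir0 : 0 ≤ d.ir
  ir20 : 0 ≤ d.ir2
  ns : ∀ τ τ' : ℝ, 0 ≤ τ' → τ' ≤ τ → ‖τ • d.us + τ' • d.wv‖ ≤ τ
  ne : ∀ τ τ' : ℝ, 0 ≤ τ' → τ' ≤ τ → ‖τ • d.ue + τ' • d.wv‖ ≤ τ

/-- The triangle attached to an end `u` of the arc of directions. -/
def InZ (u ζ : E) : Prop := ∃ τ τ' : ℝ, 0 ≤ τ' ∧ τ' ≤ τ ∧ τ ≤ d.lam ∧ ζ = τ • u + τ' • d.wv

/-- The list of scalars, in the order of the check program. -/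
noncomputable def list : List ℝ :=
  [d.y, d.e, d.om, d.et, d.r, d.ch, d.D, d.k, d.ce, d.si, d.sy, d.As, d.cr, d.sr, d.co, d.so, d.sH,
    d.cc, d.sc, d.Ky, d.Kz, d.c1, d.c2, d.ka, d.ir, d.ir2, d.nu, d.sg, d.aT, d.Yn, d.Q 0, d.Q 1,
    d.Q 2, d.TA 0, d.TA 1, d.TA 2, d.us 0, d.us 1, d.us 2, d.ue 0, d.ue 1, d.ue 2]

end Sd

/-- What the other side can contribute. -/
def InM (Y : E) : Prop := InG (29 / 100) (mir Y)

/-- Subset sums of two vectors. -/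
def Sub2 (a b q : E) : Prop := q = 0 ∨ q = a ∨ q = b ∨ q = a + b

section
variable (z : Fin 9 → ℝ)

noncomputable def zQ : E := mir (zP z)
noncomputable def zTA : E := zV z (z 5)
noncomputable def zKv : E := cos (z 7) • zK z
noncomputable def zP0 : E := (sin (z 3) / ‖zA z‖) • zA z + (cos (z 3) / ‖zA z‖) • zF z

/-- Derivative of the value with respect to the shift of the anchor. -/
noncomputable def Yn : ℝ :=
  13 / 16 * (zQ z 0 + zTA z 0) + 9 / 16 * (2 * zKv z 1 - zQ z 1 - zTA z 1)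

/-- The data attached to parameters `z` and a multiplier `k`. -/
noncomputable def sdOf (k : ℝ) : Sd where
  y := z 0
  e := z 3
  om := z 6
  et := z 7
  r := z 4
  ch := z 8
  D := z 5
  k := k
  ce := cos (z 3)
  si := cos (z 3) / ‖zA z‖
  sy := cos (z 3) / ‖zA z‖ * z 0
  As := ‖zA z‖ * sin (z 3)
  cr := cos (z 4)
  sr := sin (z 4)
  co := cos (z 6)
  so := sin (z 6)
  sH := sin (z 7)
  cc := cos (z 8)
  sc := sin (z 8)
  Ky := cos (z 7) * sin (z 6)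
  Kz := cos (z 7) * cos (z 6)
  c1 := -z 1
  c2 := z 2
  ka := ⟪zC z, zE z⟫
  ir := ‖zC z‖⁻¹
  ir2 := ‖zC z‖⁻¹ * ‖zC z‖⁻¹
  nu := ‖zC z‖ ^ 2 - ⟪zC z, zE z⟫ ^ 2
  sg := √(‖zC z‖ ^ 2 - ⟪zC z, zE z⟫ ^ 2 - 1)
  aT := ⟪zA z, zTA z⟫
  Yn := Yn z
  Q := zQ z
  TA := zTA z
  us := zU z (z 5)
  ue := zU z 0

/-- Admissible parameters. -/
def Valid (k : ℝ) : Prop := (sdOf z k).Valid

end

/-- An arc of an ellipse centred at the origin. -/
noncomputable def arc (p q : E) (φ : ℝ) : E := cos φ • p + sin φ • q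

/-- Integrated positive part. -/
noncomputable def Ip (g : ℝ → E) (a b : ℝ) (ξ : E) : ℝ := ∫ t in a..b, pp ⟪ξ, g t⟫

/-- Weighted integral. -/
noncomputable def Iw (w : ℝ → ℝ) (g : ℝ → E) (a b : ℝ) : E := ∫ t in a..b, w t • g t

/-- Continuous weights. -/
structure Wt (w : ℝ → ℝ) : Prop where
  cont : Continuous w
  nn : ∀ t, 0 ≤ w t
  le : ∀ t, w t ≤ 1

section
variable (z : Fin 9 → ℝ)

/-- The three families of weighted directions. -/
noncomputable def g2 : ℝ → E :=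
  arc (vec (-cos (z 3)) 0 0) (vec 0 (cos (z 3) / ‖zA z‖) (-(cos (z 3) / ‖zA z‖ * z 0)))
noncomputable def g3 (t : ℝ) : E := (zSig z t / ‖zC z‖) • zU z t
noncomputable def g5 : ℝ → E :=
  arc (vec 0 (sin (z 7) * cos (z 6)) (-(sin (z 7) * sin (z 6)))) (vec (-sin (z 7)) 0 0)

noncomputable def Aown (ξ : E) : ℝ :=
  Ip (g2 z) 0 (z 4) ξ + Ip (g3 z) 0 (z 5) ξ + Ip (g5 z) 0 (z 8) ξ

/-- One half of the certificate on the three pieces. -/
noncomputable def f1 (k : ℝ) (ξ : E) : ℝ :=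
  ⟪zTA z + zQ z - zP0 z, ξ⟫ + Aown z ξ + (sdOf z k).mc * pp (-ξ 2)
noncomputable def f2 (k : ℝ) (j : Fin 4) (ξ : E) : ℝ :=
  ⟪zQ z + zTA z - zKv z - (1 / 2 : ℝ) • zP0 z, ξ⟫ + Aown z ξ + k * pp ⟪ξ, -Gk j⟫
noncomputable def f3 (k : ℝ) (j : Fin 4) (ξ : E) : ℝ :=
  Aown z ξ + ((sdOf z k).mo - 1 / 10) * pp (-ξ 2) + k * pp ⟪ξ, Gk j⟫

/-- A vector that depends on the shared parameters only. -/
noncomputable def zLm : E :=
  (1 / 2 : ℝ) • zP0 z - zKv z + (1 / 2 * (sdOf z 0).sh + (sdOf z 0).Kz + 1 / 10) • e3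

end

/-- The two sides share four parameters. -/
structure Share (z z' : Fin 9 → ℝ) : Prop where
  h0 : z' 0 = z 0
  h3 : z' 3 = z 3
  h6 : z' 6 = z 6
  h7 : z' 7 = z 7

end Pool.Agent.Lib.MP_ee7495_gt.Y
end

-- part Pool.Agent.Lib.MP_ee7495_gt.Y.Tree
section

/-! The subdivision tree and its checker (definitions). -/

set_option autoImplicit false

namespace Pool.Agent.Lib.MP_ee7495_gt.Y

/-- From scale `2 ^ 30`, bias `2 ^ 33` to scale `2 ^ 60`, bias `2 ^ 68`. -/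
def up (n : ℕ) : ℕ := Nat.add (Nat.shiftLeft n 30) 285924533142498050048

/-- The zero row and the zero matrix. -/
def zr3 : NL := NL.cons 295147905179352825856 (NL.cons 295147905179352825856
  (NL.cons 295147905179352825856 NL.nil))
def zq3 : NLL := NLL.cons zr3 (NLL.cons zr3 (NLL.cons zr3 NLL.nil))

/-- An affine function of three variables whose constant term is known up to `e`. -/
noncomputable def aff (c x y z e : ℕ) (k : TM → Bool) : Bool :=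
  frc c fun c => frc x fun x => frc y fun y => frc z fun z =>
    frc (Nat.add (Nat.add (ab x) (ab y)) (ab z)) fun b =>
      k ⟨c, NL.cons x (NL.cons y (NL.cons z NL.nil)), zq3, b, 0, e, 0, 0⟩

/-- A constant known up to `e`. -/
def cstT (c e : ℕ) : TM := ⟨c, zr3, zq3, 0, 0, e, 0, 0⟩

/-- Select entries. -/
noncomputable def pickT (E : TL) (is : NL) : (TL → Bool) → Bool :=
  NL.rec (fun k => k TL.nil) (fun i _ ih k => E.get i fun T => ih fun r => k (TL.cons T r)) is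

/-- Dyadic approximation of the critical point (biased) and its accuracy. -/
def Z0 : ℕ := 296318340828338852460
def Z1 : ℕ := 296096910571939643167
def Z2 : ℕ := 294924477387754387924
def Z3 : ℕ := 294911138179659029236
def Z4 : ℕ := 295738440314265870354
def Z5 : ℕ := 295449948003933438320
def Z6 : ℕ := 295448348340386529135
def Z7 : ℕ := 295980857405675157575
def Z8 : ℕ := 295413968579006473230
def EZ : ℕ := 1073741824
/-- Upper bound for the critical value (biased). -/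
def LHI : ℕ := 299650206813105790329

/-- On `[ζ0, ζ1, ζ2, r, ψ, D, k, s, y*, b1*, b2*, e*, ω*, η*]` compute `y, b1, b2, e, ω`. -/
def prI : Pr :=
  Pr.add 8 0 <| Pr.smul 295724365931656249344 1 <| Pr.add 13 0 <| Pr.add 15 1 <|
  Pr.smul 294562437227794661376 4 <| Pr.add 6 0 <| Pr.add 16 0 <|
  Pr.smul 295796423525694177280 14 <| Pr.add 1 0 <|
  Pr.smul 295679329935382544384 10 <| Pr.smul 295170423177489678336 10 <| Pr.add 13 1 <|
  Pr.add 0 1 <| Pr.sub 22 0 <| Pr.smul 296084653901845889024 21 <| Pr.add 1 0 <| Pr.stop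

/-- Positions of `y, b1, b2, e, r, D, ω, η, ψ, s, k` after `prI`. -/
def pkI : NL := NL.cons 15 (NL.cons 0 (NL.cons 7 (NL.cons 13 (NL.cons 19 (NL.cons 21 (NL.cons 12
  (NL.cons 29 (NL.cons 20 (NL.cons 23 (NL.cons 22 NL.nil))))))))))

/-- Signed value of a biased number. -/
def zi (x : ℕ) : ℤ := Int.subNatNat x 295147905179352825856

/-- Lower bound for `2 G X + Q X ^ 2` on `lo ≤ X ≤ hi`. -/
def low1 (G Q lo hi : ℤ) : ℤ :=
  if Q ≤ 0 then min (2 * G * lo + Q * lo * lo) (2 * G * hi + Q * hi * hi)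
  else max (min (2 * G * lo) (2 * G * hi)) (-(G * G / Q + 1))

/-- Open a three dimensional model: constant, slopes, diagonal, symmetrised off diagonal. -/
noncomputable def open3 (T : TM) (k : ℤ → ℤ → ℤ → ℤ → ℤ → ℤ → ℤ → ℤ → ℤ → ℤ → Bool) : Bool :=
  match T.l, T.q with
  | NL.cons l0 (NL.cons l1 (NL.cons l2 NL.nil)),
    NLL.cons (NL.cons a (NL.cons b (NL.cons c NL.nil)))
      (NLL.cons (NL.cons d (NL.cons e (NL.cons f NL.nil)))
        (NLL.cons (NL.cons g (NL.cons h (NL.cons i NL.nil))) NLL.nil)) =>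
    k (zi T.c) (zi l0) (zi l1) (zi l2) (zi a) (zi e) (zi i) (zi b + zi d) (zi c + zi g)
      (zi f + zi h)
  | _, _ => false

/-- The model is at least `val L` on the cube; `d0 d1 d2` is a guess of the minimiser (scale
`2 ^ 10`). -/
noncomputable def lowT (T : TM) (L : ℕ) (d0 d1 d2 : ℤ) : Bool :=
  open3 T fun c l0 l1 l2 q0 q1 q2 m01 m02 m12 => decide
    (2097152 * (zi L + (T.e0 : ℤ) + (T.e1 : ℤ) + (T.e2 : ℤ)) ≤
      2 * (1048576 * c + 1024 * (l0 * d0 + l1 * d1 + l2 * d2) + q0 * d0 * d0 + q1 * d1 * d1 +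
        q2 * d2 * d2 + m01 * d0 * d1 + m02 * d0 * d2 + m12 * d1 * d2) +
      low1 (1024 * l0 + 2 * q0 * d0 + m01 * d1 + m02 * d2) (2 * q0 - |m01| - |m02|)
        (-1024 - d0) (1024 - d0) +
      low1 (1024 * l1 + 2 * q1 * d1 + m01 * d0 + m12 * d2) (2 * q1 - |m01| - |m12|)
        (-1024 - d1) (1024 - d1) +
      low1 (1024 * l2 + 2 * q2 * d2 + m02 * d0 + m12 * d1) (2 * q2 - |m02| - |m12|)
        (-1024 - d2) (1024 - d2))

/-- The quadratic part dominates the remainder. -/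
noncomputable def posT (T : TM) : Bool :=
  open3 T fun _ _ _ _ q0 q1 q2 m01 m02 m12 => decide (2 * (T.e2 : ℤ) ≤ 2 * q0 - |m01| - |m02| ∧
    2 * (T.e2 : ℤ) ≤ 2 * q1 - |m01| - |m12| ∧ 2 * (T.e2 : ℤ) ≤ 2 * q2 - |m02| - |m12|)

/-- Run the programs on the box with centres `c_i` and radii `h_i` (magnitudes) and the given
models of `r, ψ, D, k, s`; `fin` tests the model of the value. -/
noncomputable def core (c0 h0 c1 h1 c2 h2 : ℕ) (r p D k s : TM) (fin : TM → Bool) : Bool :=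
  aff c0 (Nat.add 295147905179352825856 h0) 295147905179352825856 295147905179352825856 0
    fun x0 =>
  aff c1 295147905179352825856 (Nat.add 295147905179352825856 h1) 295147905179352825856 0
    fun x1 =>
  aff c2 295147905179352825856 295147905179352825856 (Nat.add 295147905179352825856 h2) 0
    fun x2 =>
  prI.runT (TL.cons x0 (TL.cons x1 (TL.cons x2 (TL.cons r (TL.cons p (TL.cons D (TL.cons k
    (TL.cons s (TL.cons (cstT Z0 EZ) (TL.cons (cstT Z1 EZ) (TL.cons (cstT Z2 EZ)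
    (TL.cons (cstT Z3 EZ) (TL.cons (cstT Z6 EZ) (TL.cons (cstT Z7 EZ) TL.nil))))))))))))))
    fun E => pickT E pkI fun E => prE.runT E fun E => prL.runT E fun E => E.get 0 fun T =>
      cond (fin T) (prU.runT E fun E => pickAF E pk fun S => ck.run S VL.nil) false

/-- The box violates the facet. -/
def Facet.miss (f : Facet) (l0 u0 l1 u1 l2 u2 : ℕ) : Bool :=
  decide (1152921504606846976 * (f.pL : ℤ) ≤ 100000 * (zi Z0 - (EZ : ℤ) + zi l0) ∧
    100000 * (zi Z0 + (EZ : ℤ) + zi u0) ≤ 1152921504606846976 * (f.pR : ℤ) ∧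
    295147905179352825856 * f.H <
      256 * (f.g * zi Z0 + 10000000 * (f.d2 * zi Z2 - f.d1 * zi Z1)) -
      256 * (|f.g| + 10000000 * (|f.d1| + |f.d2|)) * (EZ : ℤ) +
      min ((256 * f.g + 10000000 * (5 * f.d1 - 130 * f.d2)) * zi l0)
        ((256 * f.g + 10000000 * (5 * f.d1 - 130 * f.d2)) * zi u0) +
      10000000 * (min ((118 * f.d1 + 256 * f.d2) * zi l1) ((118 * f.d1 + 256 * f.d2) * zi u1) +
        min (256 * f.d1 * zi l2) (256 * f.d1 * zi u2)))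

/-- Subdivision trees. Numbers are in the scale of `up`. -/
inductive Tr : Type
  | s0 (x : ℕ) (a b : Tr) : Tr
  | s1 (x : ℕ) (a b : Tr) : Tr
  | s2 (x : ℕ) (a b : Tr) : Tr
  | lp (i : ℕ) : Tr
  | inn : Tr
  | tm (r0 r1 r2 r3 p0 p1 p2 p3 D0 D1 D2 D3 k0 k1 k2 k3 s0 s1 s2 s3 d0 d1 d2 : ℕ) : Tr

/-- Half widths of the inner box (magnitudes). -/
def RI0 : ℕ := 4503599627370496
def RI2 : ℕ := 1125899906842624

/-- The checker; `fs` is the list of facets. -/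
noncomputable def Tr.check (fs : List Facet) (t : Tr) : ℕ → ℕ → ℕ → ℕ → ℕ → ℕ → Bool :=
  Tr.rec
    (fun x _ _ ia ib l0 u0 l1 u1 l2 u2 => frc (up x) fun x =>
      cond (ia l0 x l1 u1 l2 u2) (ib x u0 l1 u1 l2 u2) false)
    (fun x _ _ ia ib l0 u0 l1 u1 l2 u2 => frc (up x) fun x =>
      cond (ia l0 u0 l1 x l2 u2) (ib l0 u0 x u1 l2 u2) false)
    (fun x _ _ ia ib l0 u0 l1 u1 l2 u2 => frc (up x) fun x =>
      cond (ia l0 u0 l1 u1 l2 x) (ib l0 u0 l1 u1 x u2) false)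
    (fun i l0 u0 l1 u1 l2 u2 => match fs[i]? with
      | some f => f.miss l0 u0 l1 u1 l2 u2
      | none => false)
    (fun l0 u0 l1 u1 l2 u2 => Nat.ble (ab l0) RI0 && Nat.ble (ab u0) RI0 && Nat.ble (ab l1) RI0 &&
      Nat.ble (ab u1) RI0 && Nat.ble (ab l2) RI2 && Nat.ble (ab u2) RI2)
    (fun r0 r1 r2 r3 p0 p1 p2 p3 D0 D1 D2 D3 k0 k1 k2 k3 s0 s1 s2 s3 d0 d1 d2 l0 u0 l1 u1 l2 u2 =>
      frc (Nat.shiftRight (Nat.add l0 u0) 1) fun c0 =>
      frc (Nat.shiftRight (Nat.add l1 u1) 1) fun c1 =>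
      frc (Nat.shiftRight (Nat.add l2 u2) 1) fun c2 =>
      aff (up r0) (up r1) (up r2) (up r3) 0 fun r => aff (up p0) (up p1) (up p2) (up p3) 0 fun p =>
      aff (up D0) (up D1) (up D2) (up D3) 0 fun D => aff (up k0) (up k1) (up k2) (up k3) 0 fun k =>
      aff (up s0) (up s1) (up s2) (up s3) 0 fun s =>
      cond (Nat.ble (Nat.add 295147905179352825856 s.b1) s.c)
        (core c0 (Nat.sub u0 c0) c1 (Nat.sub u1 c1) c2 (Nat.sub u2 c2) r p D k s fun T =>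
          lowT T LHI (Int.subNatNat d0 1024) (Int.subNatNat d1 1024) (Int.subNatNat d2 1024))
        false) t

/-- The check of the inner box. -/
noncomputable def innCheck (r1 r2 r3 p1 p2 p3 D1 D2 D3 k0 k1 k2 k3 : ℕ) : Bool :=
  aff Z4 (up r1) (up r2) (up r3) EZ fun r => aff Z8 (up p1) (up p2) (up p3) EZ fun p =>
  aff Z5 (up D1) (up D2) (up D3) EZ fun D => aff (up k0) (up k1) (up k2) (up k3) 0 fun k =>
  core 295147905179352825856 RI0 295147905179352825856 RI0 295147905179352825856 RI2 r p D k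
    (cstT 295147905179352825856 0) posT

/-- The approximate critical point as a vector. -/
def Zv : Fin 9 → ℕ := ![Z0, Z1, Z2, Z3, Z4, Z5, Z6, Z7, Z8]

/-- Close to the approximate critical point. -/
def Near (zs : Fin 9 → ℝ) : Prop := ∀ i, |zs i - val (Zv i)| ≤ mag EZ

/-- What the tree needs to know about the critical point. -/
structure CritH (zs : Fin 9 → ℝ) : Prop where
  near : Near zs
  crit : HasFDerivAt ell (0 : (Fin 9 → ℝ) →L[ℝ] ℝ) zs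
  hi : ell zs ≤ val LHI

/-- The parameters attached to a point of the tree and to the free choices. -/
noncomputable def zOf (zs : Fin 9 → ℝ) (x0 x1 x2 r p D s : ℝ) : Fin 9 → ℝ :=
  ![zs 0 + x0, zs 1 - (x2 + 59 / 128 * x1 + 5 / 256 * x0) + 13 / 16 * s,
    zs 2 + x1 - 65 / 128 * x0 + 9 / 16 * s, zs 3 + x0 / 2, r, D, zs 6 + x0 / 2, zs 7, p]

/-- There is a certificate at the point. -/
def Cert (zs : Fin 9 → ℝ) (x0 x1 x2 : ℝ) : Prop :=
  ∃ r p D k s : ℝ, 0 ≤ s ∧ Valid (zOf zs x0 x1 x2 r p D s) k ∧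
    ell zs ≤ ell (zOf zs x0 x1 x2 r p D s) + 2 * s * Yn (zOf zs x0 x1 x2 r p D s)

/-- The point violates a facet. -/
def Miss (fs : List Facet) (zs : Fin 9 → ℝ) (x0 x1 x2 : ℝ) : Prop :=
  ∃ f ∈ fs, ¬f.Sat (zs 0 + x0) (-zs 1 + (x2 + 59 / 128 * x1 + 5 / 256 * x0))
    (zs 2 + x1 - 65 / 128 * x0)

/-- Every point of the box violates a facet or has a certificate. -/
def Good (fs : List Facet) (zs : Fin 9 → ℝ) (l0 u0 l1 u1 l2 u2 : ℕ) : Prop :=
  ∀ x0 x1 x2 : ℝ, val l0 ≤ x0 → x0 ≤ val u0 → val l1 ≤ x1 → x1 ≤ val u1 → val l2 ≤ x2 →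
    x2 ≤ val u2 → Miss fs zs x0 x1 x2 ∨ Cert zs x0 x1 x2

/-- Every point of the inner box has a certificate. -/
def Inner (zs : Fin 9 → ℝ) : Prop :=
  ∀ x0 x1 x2 : ℝ, |x0| ≤ mag RI0 → |x1| ≤ mag RI0 → |x2| ≤ mag RI2 → Cert zs x0 x1 x2

end Pool.Agent.Lib.MP_ee7495_gt.Y
end

-- part Pool.Agent.Lib.MP_ee7495_gt.Y.TrA
section

set_option autoImplicit false

open scoped RealInnerProductSpace
open Real Set

namespace Pool.Agent.Lib.MP_ee7495_gt.Y

theorem tra_val (x : ℕ) : val x = (zi x : ℝ) / 2 ^ 60 := by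
  unfold val zi
  rw [Int.subNatNat_eq_coe]
  push_cast
  norm_num

theorem tra_val0 : val 295147905179352825856 = 0 := by
  unfold val
  norm_num

theorem tra_zr (δ : ℕ → ℝ) : zr3.dot δ = 0 := by
  simp only [zr3, NL.dot, tra_val0, zero_mul, add_zero]

theorem tra_zq (ε δ : ℕ → ℝ) : zq3.quad ε δ = 0 := by
  simp only [zq3, NLL.quad, tra_zr, mul_zero, add_zero]

theorem tra_mag0 : mag 0 = 0 := by simp [mag]

theorem aff_sound {c x y z e : ℕ} {k : TM → Bool} (H : aff c x y z e k = true) {c' : ℝ}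
    (hc : |c' - val c| ≤ mag e) :
    ∃ T, G T (fun δ => c' + val x * δ 0 + val y * δ 1 + val z * δ 2) ∧ T.c = c ∧
      T.b1 = ab x + ab y + ab z ∧ k T = true := by
  simp only [aff, frc_eq] at H
  refine ⟨_, ⟨by simp [NL.len], by simp [zq3, NLL.rows], by simp [zq3, zr3, NLL.short, NL.len],
    ?_, by simp [zq3, zr3, NLL.asum, NL.asum, ab], by simpa using hc,
    val x • LinearMap.proj 0 + val y • LinearMap.proj 1 + val z • LinearMap.proj 2,
    fun δ t _ => ?_, fun δ t _ _ => ?_⟩, rfl, rfl, H⟩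
  · simp only [NL.asum, Nat.add_eq]
    omega
  · simp [NL.dot, tra_mag0, add_assoc]
  · simp only [tra_zq, tra_mag0, LinearMap.add_apply, LinearMap.smul_apply, LinearMap.proj_apply,
      smul_eq_mul, Pi.zero_apply, zero_mul]
    exact (abs_eq_zero.2 (by ring)).le

theorem cstT_sound {c e : ℕ} {c' : ℝ} (hc : |c' - val c| ≤ mag e) :
    G (cstT c e) (fun _ => c') := by
  refine ⟨by simp [cstT, zr3, NL.len], by simp [cstT, zq3, NLL.rows],
    by simp [cstT, zq3, zr3, NLL.short, NL.len], by simp [cstT, zr3, NL.asum, ab],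
    by simp [cstT, zq3, zr3, NLL.asum, NL.asum, ab], hc, 0, fun δ t _ => ?_, fun δ t _ _ => ?_⟩
  · simp [cstT, tra_zr, tra_mag0]
  · simp [cstT, tra_zq, tra_mag0]

theorem tra_open {T : TM} {k : ℤ → ℤ → ℤ → ℤ → ℤ → ℤ → ℤ → ℤ → ℤ → ℤ → Bool}
    (H : open3 T k = true) : ∃ l0 l1 l2 q0 q1 q2 m01 m02 m12 : ℤ,
      k (zi T.c) l0 l1 l2 q0 q1 q2 m01 m02 m12 = true ∧ ∀ δ : ℕ → ℝ,
        T.l.dot δ = (l0 * δ 0 + l1 * δ 1 + l2 * δ 2) / 2 ^ 60 ∧
        T.q.quad δ δ = (q0 * δ 0 ^ 2 + q1 * δ 1 ^ 2 + q2 * δ 2 ^ 2 + m01 * (δ 0 * δ 1) +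
          m02 * (δ 0 * δ 2) + m12 * (δ 1 * δ 2)) / 2 ^ 60 := by
  unfold open3 at H
  split at H
  · rename_i h1 h2
    refine ⟨_, _, _, _, _, _, _, _, _, H, fun δ => ⟨?_, ?_⟩⟩
    · simp only [h1, NL.dot, tra_val, zero_add, Nat.reduceAdd]
      ring
    · simp only [h2, NLL.quad, NL.dot, tra_val, zero_add, Nat.reduceAdd]
      push_cast
      ring
  · exact absurd H (by simp)

theorem tra_min {k lo hi X : ℝ} (h1 : lo ≤ X) (h2 : X ≤ hi) : min (k * lo) (k * hi) ≤ k * X := by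
  rcases le_total 0 k with h | h
  · exact (min_le_left _ _).trans (mul_le_mul_of_nonneg_left h1 h)
  · exact (min_le_right _ _).trans (mul_le_mul_of_nonpos_left h2 h)

theorem tra_low1 (A Q lo hi : ℤ) {X : ℝ} (h1 : (lo : ℝ) ≤ X) (h2 : X ≤ hi) :
    (low1 A Q lo hi : ℝ) ≤ 2 * A * X + Q * X ^ 2 := by
  unfold low1
  split_ifs with hQ
  · have hQ' : (Q : ℝ) ≤ 0 := by exact_mod_cast hQ
    have h3 : 0 ≤ (Q : ℝ) * ((X - lo) * (X - hi)) :=
      mul_nonneg_of_nonpos_of_nonpos hQ'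
        (mul_nonpos_of_nonneg_of_nonpos (by linarith) (by linarith))
    push_cast
    rcases le_total 0 (2 * (A : ℝ) + Q * (lo + hi)) with h | h
    · refine (min_le_left _ _).trans ?_
      nlinarith [mul_nonneg (sub_nonneg.2 h1) h]
    · refine (min_le_right _ _).trans ?_
      nlinarith [mul_nonneg_of_nonpos_of_nonpos (sub_nonpos.2 h2) h]
  · have hQ0 : 0 < Q := not_le.1 hQ
    have hQ' : (0 : ℝ) < Q := by exact_mod_cast hQ0
    have h3 : 0 ≤ (Q : ℝ) * X ^ 2 := by positivity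
    have h4 := Int.lt_ediv_add_one_mul_self (A * A) hQ0
    generalize A * A / Q + 1 = n at h4
    have h5 : (A : ℝ) * A < n * Q := by exact_mod_cast h4
    push_cast
    refine max_le ((tra_min h1 h2).trans (by linarith)) ?_
    by_contra hc
    have h6 := mul_lt_mul_of_pos_left (not_le.1 hc) hQ'
    nlinarith [sq_nonneg ((Q : ℝ) * X + A)]

theorem tra_cross (m X Y : ℝ) : -(|m| * (X ^ 2 + Y ^ 2)) ≤ 2 * (m * (X * Y)) := by
  rcases abs_cases m with h | h <;> rw [h.1]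
  · nlinarith [mul_nonneg h.2 (sq_nonneg (X + Y))]
  · nlinarith [mul_nonneg (neg_nonneg.2 h.2.le) (sq_nonneg (X - Y))]

theorem lowT_sound {T : TM} {f : (ℕ → ℝ) → ℝ} (h : G T f) {L : ℕ} {d0 d1 d2 : ℤ}
    (H : lowT T L d0 d1 d2 = true) {δ : ℕ → ℝ} (hδ : Bd δ 1) : val L ≤ f δ := by
  obtain ⟨l0, l1, l2, q0, q1, q2, m01, m02, m12, H, hT⟩ := tra_open H
  obtain ⟨ℓ, a1, a2⟩ := h.h12
  have b0 := (abs_le.1 h.h0).1
  have b1 := (abs_le.1 (a1 δ 1 hδ)).1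
  have b2 := (abs_le.1 (a2 δ 1 hδ le_rfl)).1
  rw [(hT δ).1] at b1
  rw [(hT δ).2] at b2
  rw [tra_val] at b0 ⊢
  simp only [mag] at b0 b1 b2
  have hX : ∀ (i : ℕ) (d : ℤ), ((-1024 - d : ℤ) : ℝ) ≤ 1024 * δ i - d ∧
      1024 * δ i - d ≤ ((1024 - d : ℤ) : ℝ) := fun i d => by
    have := abs_le.1 (hδ i)
    push_cast
    constructor <;> linarith [this.1, this.2]
  have c0 := tra_low1 (1024 * l0 + 2 * q0 * d0 + m01 * d1 + m02 * d2) (2 * q0 - |m01| - |m02|)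
    _ _ (hX 0 d0).1 (hX 0 d0).2
  have c1 := tra_low1 (1024 * l1 + 2 * q1 * d1 + m01 * d0 + m12 * d2) (2 * q1 - |m01| - |m12|)
    _ _ (hX 1 d1).1 (hX 1 d1).2
  have c2 := tra_low1 (1024 * l2 + 2 * q2 * d2 + m02 * d0 + m12 * d1) (2 * q2 - |m02| - |m12|)
    _ _ (hX 2 d2).1 (hX 2 d2).2
  have H' := (Int.cast_le (R := ℝ)).2 (of_decide_eq_true H)
  generalize low1 _ _ (-1024 - d0) _ = w0 at c0 H'
  generalize low1 _ _ (-1024 - d1) _ = w1 at c1 H'
  generalize low1 _ _ (-1024 - d2) _ = w2 at c2 H'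
  push_cast at c0 c1 c2 H'
  have e01 := tra_cross (m01 : ℝ) (1024 * δ 0 - d0) (1024 * δ 1 - d1)
  have e02 := tra_cross (m02 : ℝ) (1024 * δ 0 - d0) (1024 * δ 2 - d2)
  have e12 := tra_cross (m12 : ℝ) (1024 * δ 1 - d1) (1024 * δ 2 - d2)
  have key : (zi L : ℝ) + T.e0 + T.e1 + T.e2 ≤ zi T.c + (l0 * δ 0 + l1 * δ 1 + l2 * δ 2) +
      (q0 * δ 0 ^ 2 + q1 * δ 1 ^ 2 + q2 * δ 2 ^ 2 + m01 * (δ 0 * δ 1) + m02 * (δ 0 * δ 2) +
        m12 * (δ 1 * δ 2)) := by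
    linarith
  linarith

theorem tra_lin {f : (ℕ → ℝ) → ℝ} {ℓ : (ℕ → ℝ) →ₗ[ℝ] ℝ} {δ : ℕ → ℝ} {C : ℝ}
    (h : ∀ t : ℝ, 0 < t → t ≤ 1 → |f (t • δ) - f 0 - t * ℓ δ| ≤ C * t ^ 2)
    (hd : HasDerivAt (fun t : ℝ => f (t • δ)) 0 0) : ℓ δ = 0 := by
  have h1 := hd.tendsto_slope_zero_right
  have h2 : Filter.Tendsto (fun t : ℝ => C * t) (nhdsWithin 0 (Ioi 0)) (nhds (C * 0)) :=
    ((continuous_const.mul continuous_id).tendsto 0).mono_left nhdsWithin_le_nhds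
  have h3 := ((h1.sub_const (ℓ δ)).abs).sub h2
  have h4 : |0 - ℓ δ| - C * 0 ≤ 0 := by
    refine le_of_tendsto h3 ?_
    filter_upwards [Ioc_mem_nhdsGT (zero_lt_one' ℝ)] with t ht
    have h5 := h t ht.1 ht.2
    have h6 : t⁻¹ • (f ((0 + t) • δ) - f ((0 : ℝ) • δ)) - ℓ δ =
        t⁻¹ * (f (t • δ) - f 0 - t * ℓ δ) := by
      rw [zero_add, zero_smul, smul_eq_mul]
      field_simp [ht.1.ne']
    rw [h6, abs_mul, abs_of_pos (inv_pos.2 ht.1), sub_nonpos, inv_mul_le_iff₀ ht.1]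
    linarith
  simpa using h4

theorem posT_sound {T : TM} {f : (ℕ → ℝ) → ℝ} (h : G T f) (H : posT T = true) {δ : ℕ → ℝ}
    (hδ : Bd δ 1) (h3 : ∀ i, 3 ≤ i → δ i = 0) (hd : HasDerivAt (fun t : ℝ => f (t • δ)) 0 0) :
    f 0 ≤ f δ := by
  obtain ⟨l0, l1, l2, q0, q1, q2, m01, m02, m12, H, hT⟩ := tra_open H
  obtain ⟨ℓ, -, a2⟩ := h.h12
  have hl : ℓ δ = 0 := by
    refine tra_lin (C := mag T.e2 + |T.q.quad δ δ|) (fun t h0 h1 => ?_) hd
    have hb : Bd (t • δ) t := fun i => by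
      rw [Pi.smul_apply, smul_eq_mul, abs_mul, abs_of_pos h0]
      exact mul_le_of_le_one_right h0.le (hδ i)
    have h4 := a2 _ t hb h1
    have h5 : T.q.quad (t • δ) (t • δ) = t ^ 2 * T.q.quad δ δ := by
      rw [(hT _).2, (hT _).2]
      simp only [Pi.smul_apply, smul_eq_mul]
      ring
    rw [map_smul, smul_eq_mul, h5] at h4
    have h6 := mul_le_mul_of_nonneg_left (le_abs_self (T.q.quad δ δ)) (sq_nonneg t)
    have h7 := mul_le_mul_of_nonneg_left (neg_abs_le (T.q.quad δ δ)) (sq_nonneg t)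
    rw [abs_le] at h4 ⊢
    constructor <;> linarith [h4.1, h4.2]
  obtain ⟨t, ht⟩ : ∃ t, t = max |δ 0| (max |δ 1| |δ 2|) := ⟨_, rfl⟩
  have t0 : |δ 0| ≤ t := ht ▸ le_max_left _ _
  have t1 : |δ 1| ≤ t := ht ▸ (le_max_left _ _).trans (le_max_right _ _)
  have t2 : |δ 2| ≤ t := ht ▸ (le_max_right _ _).trans (le_max_right _ _)
  have hb : Bd δ t := fun i => by
    rcases i with _ | _ | _ | i
    · exact t0
    · exact t1
    · exact t2
    · rw [h3 _ (by omega), abs_zero]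
      exact (abs_nonneg _).trans t0
  have ht1 : t ≤ 1 := ht ▸ max_le (hδ 0) (max_le (hδ 1) (hδ 2))
  have hs : t ^ 2 ≤ δ 0 ^ 2 + δ 1 ^ 2 + δ 2 ^ 2 := by
    have s0 := sq_nonneg (δ 0)
    have s1 := sq_nonneg (δ 1)
    have s2 := sq_nonneg (δ 2)
    rcases max_choice |δ 0| (max |δ 1| |δ 2|) with e | e
    · rw [ht, e, sq_abs]; linarith
    · rcases max_choice |δ 1| |δ 2| with e' | e'
      · rw [ht, e, e', sq_abs]; linarith
      · rw [ht, e, e', sq_abs]; linarith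
  have b2 := (abs_le.1 (a2 δ t hb ht1)).1
  rw [(hT δ).2, hl] at b2
  simp only [mag] at b2
  obtain ⟨H0, H1, H2⟩ := of_decide_eq_true H
  have c0 := mul_le_mul_of_nonneg_right ((Int.cast_le (R := ℝ)).2 H0) (sq_nonneg (δ 0))
  have c1 := mul_le_mul_of_nonneg_right ((Int.cast_le (R := ℝ)).2 H1) (sq_nonneg (δ 1))
  have c2 := mul_le_mul_of_nonneg_right ((Int.cast_le (R := ℝ)).2 H2) (sq_nonneg (δ 2))
  push_cast at c0 c1 c2
  have e01 := tra_cross (m01 : ℝ) (δ 0) (δ 1)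
  have e02 := tra_cross (m02 : ℝ) (δ 0) (δ 2)
  have e12 := tra_cross (m12 : ℝ) (δ 1) (δ 2)
  have c3 := mul_le_mul_of_nonneg_left hs (Nat.cast_nonneg (α := ℝ) T.e2)
  linarith

theorem tra_near {k A z E : ℝ} (h : |A - z| ≤ E) : k * z - |k| * E ≤ k * A := by
  have h1 : |k * (A - z)| ≤ |k| * E := by
    rw [abs_mul]
    exact mul_le_mul_of_nonneg_left h (abs_nonneg _)
  linarith [(abs_le.1 h1).1]

theorem tra_scale {a : ℝ} {Z E : ℕ} (h : |a - val Z| ≤ mag E) :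
    |2 ^ 60 * a - zi Z| ≤ (E : ℝ) := by
  rw [tra_val, mag, abs_le] at h
  rw [abs_le]
  constructor <;> linarith [h.1, h.2]

theorem Facet.miss_sound {f : Facet} {l0 u0 l1 u1 l2 u2 : ℕ}
    (H : f.miss l0 u0 l1 u1 l2 u2 = true) {zs : Fin 9 → ℝ} (hz : Near zs) {x0 x1 x2 : ℝ}
    (a0 : val l0 ≤ x0) (b0 : x0 ≤ val u0) (a1 : val l1 ≤ x1) (b1 : x1 ≤ val u1)
    (a2 : val l2 ≤ x2) (b2 : x2 ≤ val u2) :
    ¬f.Sat (zs 0 + x0) (-zs 1 + (x2 + 59 / 128 * x1 + 5 / 256 * x0))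
      (zs 2 + x1 - 65 / 128 * x0) := by
  intro hS
  have z0 : |2 ^ 60 * zs 0 - zi Z0| ≤ (EZ : ℝ) := tra_scale (hz 0)
  have z1 : |2 ^ 60 * zs 1 - zi Z1| ≤ (EZ : ℝ) := tra_scale (hz 1)
  have z2 : |2 ^ 60 * zs 2 - zi Z2| ≤ (EZ : ℝ) := tra_scale (hz 2)
  rw [tra_val] at a0 b0 a1 b1 a2 b2
  have p0 : (zi l0 : ℝ) ≤ 2 ^ 60 * x0 := by linarith
  have q0 : 2 ^ 60 * x0 ≤ (zi u0 : ℝ) := by linarith
  have p1 : (zi l1 : ℝ) ≤ 2 ^ 60 * x1 := by linarith
  have q1 : 2 ^ 60 * x1 ≤ (zi u1 : ℝ) := by linarith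
  have p2 : (zi l2 : ℝ) ≤ 2 ^ 60 * x2 := by linarith
  have q2 : 2 ^ 60 * x2 ≤ (zi u2 : ℝ) := by linarith
  obtain ⟨H0, H1, H2⟩ := of_decide_eq_true H
  have c0 := (Int.cast_le (R := ℝ)).2 H0
  have c1 := (Int.cast_le (R := ℝ)).2 H1
  have c2 := (Int.cast_lt (R := ℝ)).2 H2
  push_cast at c0 c1 c2
  have h := hS (by linarith [(abs_le.1 z0).1]) (by linarith [(abs_le.1 z0).2])
  have m0 := tra_min (k := 256 * (f.g : ℝ) + 10000000 * (5 * f.d1 - 130 * f.d2)) p0 q0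
  have m1 := tra_min (k := 118 * (f.d1 : ℝ) + 256 * f.d2) p1 q1
  have m2 := tra_min (k := 256 * (f.d1 : ℝ)) p2 q2
  have n0 := tra_near (k := (f.g : ℝ)) z0
  have n1 := tra_near (k := -(f.d1 : ℝ)) z1
  have n2 := tra_near (k := (f.d2 : ℝ)) z2
  rw [abs_neg] at n1
  linarith

end Pool.Agent.Lib.MP_ee7495_gt.Y
end
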