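import Mathlib
import Pool.Agent.Lib.MP_ee7495_gt.Y.TMb
import Pool.Agent.Lib.MP_ee7495_gt.Y.Sym
import Pool.Agent.Lib.MP_ee7495_gt.Y.TrA
import Pool.Agent.Lib.MP_ee7495_gt.X.Disc

-- part Pool.Agent.Lib.MP_ee7495_gt.Y.AFS
section

set_option autoImplicit false

open scoped RealInnerProductSpace

namespace Pool.Agent.Lib.MP_ee7495_gt.Y

theorem afs_floor (n d : ℕ) (hd : 0 < d) :
    ((n / d : ℕ) : ℝ) ≤ (n : ℝ) / d ∧ (n : ℝ) / d ≤ ((n / d : ℕ) : ℝ) + 1 := by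
  have h0 : (0 : ℝ) < d := by exact_mod_cast hd
  refine ⟨Nat.cast_div_le, ?_⟩
  rw [div_le_iff₀ h0]
  have h1 : n ≤ (n / d + 1) * d := by
    have h2 := Nat.div_add_mod n d
    have h3 := Nat.mod_lt n hd
    nlinarith
  exact_mod_cast h1

theorem afs_shift (n : ℕ) : ((Nat.shiftRight n 60 : ℕ) : ℝ) ≤ (n : ℝ) / 2 ^ 60 ∧
    (n : ℝ) / 2 ^ 60 ≤ ((Nat.shiftRight n 60 : ℕ) : ℝ) + 1 := by
  have h := afs_floor n (2 ^ 60) (by positivity)
  have e : Nat.shiftRight n 60 = n / 2 ^ 60 := Nat.shiftRight_eq_div_pow n 60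
  rw [e]
  rw [Nat.cast_pow, Nat.cast_ofNat] at h
  exact h

theorem afs_err (n : ℕ) :
    (n : ℝ) / 2 ^ 120 + 4 * mag 1 ≤ mag (Nat.add (Nat.shiftRight n 60) 5) := by
  have h := (afs_shift n).2
  unfold mag
  rw [Nat.add_eq]
  push_cast
  have e : (n : ℝ) / 2 ^ 120 = (n : ℝ) / 2 ^ 60 / 2 ^ 60 := by ring
  rw [e, ← mul_div_assoc, ← add_div]
  exact div_le_div_of_nonneg_right (by linarith) (by positivity)

theorem afs_mag_add (a b : ℕ) : mag (Nat.add a b) = mag a + mag b := by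
  unfold mag
  rw [Nat.add_eq]
  push_cast
  ring

theorem afs_mag_mono {a b : ℕ} (h : a ≤ b) : mag a ≤ mag b := by
  unfold mag
  gcongr

theorem afs_val_mono {a b : ℕ} (h : a ≤ b) : val a ≤ val b := by
  unfold val
  gcongr

theorem afs_val_add (a b : ℕ) : val (Nat.add a b) = val a + mag b := by
  unfold val mag
  rw [Nat.add_eq]
  push_cast
  ring

theorem afs_val_B : val 295147905179352825856 = 0 := by
  unfold val
  norm_num

theorem afs_lin {δ : ℕ → ℝ} (hδ : Bd δ 1) {x y z b : ℕ} (h : ab x + ab y + ab z ≤ b) :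
    |val x * δ 0 + val y * δ 1 + val z * δ 2| ≤ mag b := by
  have h1 : ∀ (w : ℕ) (i : ℕ), |val w * δ i| ≤ mag (ab w) := by
    intro w i
    rw [abs_mul, mag_ab]
    exact mul_le_of_le_one_right (abs_nonneg _) (hδ i)
  have h2 := afs_mag_mono h
  have h3 : mag (ab x + ab y + ab z) = mag (ab x) + mag (ab y) + mag (ab z) := by
    unfold mag
    push_cast
    ring
  have a1 := abs_le.1 (h1 x 0)
  have a2 := abs_le.1 (h1 y 1)
  have a3 := abs_le.1 (h1 z 2)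
  rw [abs_le]
  constructor <;> linarith

theorem afs_range {δ : ℕ → ℝ} (hδ : Bd δ 1) {c x y z b e : ℕ} {t : ℝ}
    (h : AE δ ⟨c, x, y, z, b, e⟩ t) :
    val c - mag (Nat.add b e) ≤ t ∧ t ≤ val c + mag (Nat.add b e) := by
  have h1 := abs_le.1 (afs_lin hδ h.1)
  have h2 := abs_le.1 h.2
  rw [afs_mag_add]
  simp only at h1 h2
  constructor <;> linarith

theorem afs_itv {δ : ℕ → ℝ} {c e : ℕ} {t : ℝ} (h : |t - val c| ≤ mag e) :
    AE δ (AF.itv c e) t := by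
  refine ⟨?_, ?_⟩
  · simp only [AF.itv]
    decide
  simpa only [AF.itv, afs_val_B, zero_mul, add_zero] using h

theorem afs_round {δ : ℕ → ℝ} (hδ : Bd δ 1) {t c x y z C X Y Z η u : ℝ}
    (h : |t - (c + x * δ 0 + y * δ 1 + z * δ 2)| ≤ η) (hc : |C - c| ≤ u) (hx : |X - x| ≤ u)
    (hy : |Y - y| ≤ u) (hz : |Z - z| ≤ u) :
    |t - (C + X * δ 0 + Y * δ 1 + Z * δ 2)| ≤ η + 4 * u := by
  have h1 : ∀ (w : ℝ) (i : ℕ), |w| ≤ u → |w * δ i| ≤ u := by
    intro w i hw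
    rw [abs_mul]
    exact (mul_le_of_le_one_right (abs_nonneg _) (hδ i)).trans hw
  have a0 := abs_le.1 h
  have a1 := abs_le.1 hc
  have a2 := abs_le.1 (h1 _ 0 hx)
  have a3 := abs_le.1 (h1 _ 1 hy)
  have a4 := abs_le.1 (h1 _ 2 hz)
  rw [abs_le]
  constructor <;> nlinarith

theorem afs_prod {s t ac bc la lb A B ea eb : ℝ} (hs : |s - (ac + la)| ≤ ea)
    (ht : |t - (bc + lb)| ≤ eb) (ha : |la| ≤ A) (hb : |lb| ≤ B) :
    |s * t - (ac * bc + ac * lb + bc * la)| ≤ (A + ea) * (B + eb) + (ea * |bc| + eb * |ac|) := by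
  have e : s * t - (ac * bc + ac * lb + bc * la) =
      (la + (s - (ac + la))) * (lb + (t - (bc + lb))) +
        ((s - (ac + la)) * bc + (t - (bc + lb)) * ac) := by ring
  rw [e]
  refine (abs_add_le _ _).trans (add_le_add ?_ ((abs_add_le _ _).trans (add_le_add ?_ ?_)))
  · rw [abs_mul]
    exact mul_le_mul ((abs_add_le _ _).trans (add_le_add ha hs))
      ((abs_add_le _ _).trans (add_le_add hb ht)) (abs_nonneg _)
      (add_nonneg ((abs_nonneg _).trans ha) ((abs_nonneg _).trans hs))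
  · rw [abs_mul]
    exact mul_le_mul_of_nonneg_right hs (abs_nonneg _)
  · rw [abs_mul]
    exact mul_le_mul_of_nonneg_right ht (abs_nonneg _)

theorem afs_pe (ac ab1 ae bc bb1 be : ℕ) : ((pe ac ab1 ae bc bb1 be : ℕ) : ℝ) / 2 ^ 120 =
    (mag ab1 + mag ae) * (mag bb1 + mag be) + (mag ae * |val bc| + mag be * |val ac|) := by
  rw [← mag_ab, ← mag_ab]
  unfold pe mag
  simp only [Nat.add_eq, Nat.mul_eq]
  push_cast
  ring

theorem afs_mul_core {δ : ℕ → ℝ} (hδ : Bd δ 1) {ac ax ay az ab1 ae bc bx bY bz bb1 be : ℕ}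
    {s t : ℝ} (ha : AE δ ⟨ac, ax, ay, az, ab1, ae⟩ s) (hb : AE δ ⟨bc, bx, bY, bz, bb1, be⟩ t) :
    |s * t - (val ac * val bc + (val ac * val bx + val bc * val ax) * δ 0 +
      (val ac * val bY + val bc * val ay) * δ 1 + (val ac * val bz + val bc * val az) * δ 2)| ≤
      ((pe ac ab1 ae bc bb1 be : ℕ) : ℝ) / 2 ^ 120 := by
  have h1 := afs_lin hδ ha.1
  have h2 := afs_lin hδ hb.1
  have h3 := ha.2
  have h4 := hb.2
  simp only [add_assoc] at h1 h2 h3 h4
  have h := afs_prod h3 h4 h1 h2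
  rw [afs_pe]
  refine le_of_eq_of_le ?_ h
  congr 1
  ring

theorem afs_mk {δ : ℕ → ℝ} {c x y z e : ℕ} {k : AF → Bool} {t : ℝ}
    (H : AF.mk' c x y z e k = true)
    (h : 0 < c → 0 < x → 0 < y → 0 < z →
      |t - (val c + val x * δ 0 + val y * δ 1 + val z * δ 2)| ≤ mag e) :
    ∃ a, AE δ a t ∧ k a = true := by
  unfold AF.mk' at H
  obtain ⟨h1, H⟩ := frp_true H
  obtain ⟨h2, H⟩ := frp_true H
  obtain ⟨h3, H⟩ := frp_true H
  obtain ⟨h4, H⟩ := frp_true H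
  simp only [frc_eq] at H
  refine ⟨_, ⟨?_, ?_⟩, H⟩
  · simp only [Nat.add_eq, le_refl]
  · exact h h1 h2 h3 h4

theorem afs_add {δ : ℕ → ℝ} {a b : AF} {s t : ℝ} {k : AF → Bool} (ha : AE δ a s)
    (hb : AE δ b t) (H : AF.lin ba a b k = true) : ∃ c, AE δ c (s + t) ∧ k c = true := by
  obtain ⟨ac, ax, ay, az, ab1, ae⟩ := a
  obtain ⟨bc, bx, bY, bz, bb1, be⟩ := b
  simp only [AF.lin] at H
  refine afs_mk (k := k) H fun h1 h2 h3 h4 => ?_
  rw [val_ba h1, val_ba h2, val_ba h3, val_ba h4, afs_mag_add]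
  have a1 := abs_le.1 ha.2
  have a2 := abs_le.1 hb.2
  simp only at a1 a2
  rw [abs_le]
  constructor <;> linarith

theorem afs_sub {δ : ℕ → ℝ} {a b : AF} {s t : ℝ} {k : AF → Bool} (ha : AE δ a s)
    (hb : AE δ b t) (H : AF.lin bs a b k = true) : ∃ c, AE δ c (s - t) ∧ k c = true := by
  obtain ⟨ac, ax, ay, az, ab1, ae⟩ := a
  obtain ⟨bc, bx, bY, bz, bb1, be⟩ := b
  simp only [AF.lin] at H
  refine afs_mk (k := k) H fun h1 h2 h3 h4 => ?_
  rw [val_bs h1, val_bs h2, val_bs h3, val_bs h4, afs_mag_add]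
  have a1 := abs_le.1 ha.2
  have a2 := abs_le.1 hb.2
  simp only at a1 a2
  rw [abs_le]
  constructor <;> linarith

theorem afs_neg {δ : ℕ → ℝ} {a : AF} {s : ℝ} {k : AF → Bool} (ha : AE δ a s)
    (H : AF.neg a k = true) : ∃ c, AE δ c (-s) ∧ k c = true := by
  obtain ⟨ac, ax, ay, az, ab1, ae⟩ := a
  simp only [AF.neg] at H
  obtain ⟨h1, H⟩ := frp_true H
  obtain ⟨h2, H⟩ := frp_true H
  obtain ⟨h3, H⟩ := frp_true H
  obtain ⟨h4, H⟩ := frp_true H
  refine ⟨_, ⟨?_, ?_⟩, H⟩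
  · have e : ∀ x, 0 < bn x → ab (bn x) = ab x := by
      intro x hx
      unfold ab bn at *
      simp only [Nat.add_eq, Nat.sub_eq] at *
      omega
    have := ha.1
    simp only [e _ h2, e _ h3, e _ h4] at this ⊢
    exact this
  · have a1 := abs_le.1 ha.2
    simp only [val_bn h1, val_bn h2, val_bn h3, val_bn h4] at a1 ⊢
    rw [abs_le]
    constructor <;> linarith

theorem afs_mul {δ : ℕ → ℝ} (hδ : Bd δ 1) {a b : AF} {s t : ℝ} {k : AF → Bool} (ha : AE δ a s)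
    (hb : AE δ b t) (H : AF.mul a b k = true) : ∃ c, AE δ c (s * t) ∧ k c = true := by
  obtain ⟨ac, ax, ay, az, ab1, ae⟩ := a
  obtain ⟨bc, bx, bY, bz, bb1, be⟩ := b
  simp only [AF.mul, frc_eq] at H
  refine afs_mk (k := k) H fun h1 h2 h3 h4 => ?_
  exact (afs_round hδ (afs_mul_core hδ ha hb) (val_bm h1) (val_bm2 h2) (val_bm2 h3)
    (val_bm2 h4)).trans (afs_err (pe ac ab1 ae bc bb1 be))

theorem afs_sc {p q x : ℕ} (hq : 0 < q) (h : 0 < AF.sc p q x) :
    |val (AF.sc p q x) - qq p q * val x| ≤ mag 1 := by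
  have h1 := afs_floor (p * x) q hq
  have h2 := afs_floor (p * 295147905179352825856) q hq
  have e : AF.sc p q x = p * x / q + 295147905179352825856 - p * 295147905179352825856 / q := rfl
  rw [e] at h ⊢
  have h0 : (0 : ℝ) < q := by exact_mod_cast hq
  unfold val mag qq
  rw [Nat.cast_sub (by omega)]
  generalize p * x / q = A at *
  generalize p * 295147905179352825856 / q = B at *
  push_cast at *
  have e2 : ((A : ℝ) + 295147905179352825856 - B - 2 ^ 68) / 2 ^ 60 -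
      (p : ℝ) / q * (((x : ℝ) - 2 ^ 68) / 2 ^ 60) =
      ((A - (p : ℝ) * x / q) - (B - (p : ℝ) * 295147905179352825856 / q)) / 2 ^ 60 := by
    field_simp
    ring
  rw [e2, abs_div, abs_of_pos (by positivity : (0 : ℝ) < 2 ^ 60)]
  gcongr
  rw [abs_le]
  constructor <;> linarith [h1.1, h1.2, h2.1, h2.2]

theorem afs_smul {δ : ℕ → ℝ} (hδ : Bd δ 1) {p q : ℕ} {a : AF} {s : ℝ} {k : AF → Bool}
    (ha : AE δ a s) (H : AF.smul p q a k = true) : ∃ c, AE δ c (qq p q * s) ∧ k c = true := by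
  obtain ⟨ac, ax, ay, az, ab1, ae⟩ := a
  simp only [AF.smul] at H
  obtain ⟨hq, H⟩ := frp_true H
  refine afs_mk (k := k) H fun h1 h2 h3 h4 => ?_
  have h0 : 0 ≤ qq p q := by
    unfold qq
    positivity
  have h5 : |qq p q * s - (qq p q * val ac + qq p q * val ax * δ 0 + qq p q * val ay * δ 1 +
      qq p q * val az * δ 2)| ≤ qq p q * mag ae := by
    have h6 := mul_le_mul_of_nonneg_left ha.2 h0
    rw [← abs_of_nonneg h0, ← abs_mul, abs_of_nonneg h0] at h6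
    refine le_of_eq_of_le ?_ h6
    congr 1
    ring
  refine (afs_round hδ h5 (afs_sc hq h1) (afs_sc hq h2) (afs_sc hq h3) (afs_sc hq h4)).trans ?_
  have h7 := (afs_floor (p * ae) q hq).2
  have e : Nat.add (Nat.div (Nat.mul p ae) q) 5 = p * ae / q + 5 := rfl
  rw [e]
  generalize p * ae / q = A at *
  unfold qq mag
  push_cast at *
  have e2 : (p : ℝ) / q * ((ae : ℝ) / 2 ^ 60) + 4 * (1 / 2 ^ 60) =
      ((p : ℝ) * ae / q + 4) / 2 ^ 60 := by ring
  rw [e2]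
  exact div_le_div_of_nonneg_right (by linarith) (by positivity)

theorem afs_half {lo hi : ℕ} {t : ℝ} (h1 : val lo ≤ t) (h2 : t ≤ val hi) :
    |t - val (Nat.add lo (Nat.shiftRight (Nat.add (Nat.sub hi lo) 1) 1))| ≤
      mag (Nat.shiftRight (Nat.add (Nat.sub hi lo) 1) 1) := by
  have e : Nat.shiftRight (Nat.add (Nat.sub hi lo) 1) 1 = (hi - lo + 1) / 2 :=
    Nat.shiftRight_eq_div_pow _ 1
  rw [e, afs_val_add]
  have h3 : hi ≤ Nat.add (Nat.add lo ((hi - lo + 1) / 2)) ((hi - lo + 1) / 2) := by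
    simp only [Nat.add_eq]
    omega
  have h4 := afs_val_mono h3
  rw [afs_val_add, afs_val_add] at h4
  rw [abs_le]
  constructor <;> linarith

theorem afs_pp {δ : ℕ → ℝ} (hδ : Bd δ 1) {a : AF} {s : ℝ} {k : AF → Bool}
    (ha : AE δ a s) (H : AF.pp a k = true) : ∃ c, AE δ c (pp s) ∧ k c = true := by
  obtain ⟨c, x, y, z, b, e⟩ := a
  have hr := afs_range hδ ha
  simp only [AF.pp, frc_eq] at H
  cases hb : Nat.ble (Nat.add 295147905179352825856 (Nat.add b e)) c with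
  | true =>
    rw [hb, cond_true] at H
    have h1 := afs_val_mono (Nat.le_of_ble_eq_true hb)
    rw [afs_val_add, afs_val_B] at h1
    have h2 : pp s = s := max_eq_left (by linarith [hr.1])
    exact ⟨_, h2.symm ▸ ha, H⟩
  | false =>
    rw [hb, cond_false] at H
    refine ⟨_, afs_itv ?_, H⟩
    by_cases hc : 295147905179352825856 ≤ Nat.add c (Nat.add b e)
    · have h1 := afs_val_mono hc
      refine afs_half ?_ ?_
      · rw [afs_val_B]
        exact le_max_right _ _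
      · rw [afs_val_B] at h1
        refine max_le ?_ h1
        rw [afs_val_add]
        exact hr.2
    · have h1 := afs_val_mono (not_le.1 hc).le
      rw [afs_val_add, afs_val_B] at h1
      have h2 : pp s = 0 := max_eq_right (by linarith [hr.2])
      have h3 : Nat.sub (Nat.add c (Nat.add b e)) 295147905179352825856 = 0 :=
        Nat.sub_eq_zero_of_le (not_le.1 hc).le
      rw [h2, h3, afs_val_add, afs_val_B]
      unfold mag
      have : Nat.shiftRight (Nat.add 0 1) 1 = 0 := by decide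
      rw [this]
      simp

theorem afs_val_sub {a r : ℕ} (h : 0 < Nat.sub a r) : val (Nat.sub a r) = val a - mag r := by
  have h1 : a = Nat.add (Nat.sub a r) r := by
    simp only [Nat.add_eq, Nat.sub_eq] at *
    omega
  have h2 := afs_val_add (Nat.sub a r) r
  rw [← h1] at h2
  linarith

theorem afs_val_max (a b : ℕ) : val (Nat.add a (Nat.sub b a)) = max (val a) (val b) := by
  rcases le_total a b with h | h
  · have e : Nat.add a (Nat.sub b a) = b := by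
      simp only [Nat.add_eq, Nat.sub_eq]
      omega
    rw [e, max_eq_right (afs_val_mono h)]
  · have e : Nat.add a (Nat.sub b a) = a := by
      simp only [Nat.add_eq, Nat.sub_eq]
      omega
    rw [e, max_eq_left (afs_val_mono h)]

theorem afs_mx {δ : ℕ → ℝ} (hδ : Bd δ 1) {a b : AF} {s t : ℝ} {k : AF → Bool} (ha : AE δ a s)
    (hb : AE δ b t) (H : AF.mx a b k = true) : ∃ c, AE δ c (max s t) ∧ k c = true := by
  obtain ⟨ac, ax, ay, az, ab1, ae⟩ := a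
  obtain ⟨bc, bx, bY, bz, bb1, be⟩ := b
  have ra := afs_range hδ ha
  have rb := afs_range hδ hb
  simp only [AF.mx, frc_eq] at H
  obtain ⟨h1, H⟩ := frp_true H
  obtain ⟨h2, H⟩ := frp_true H
  rw [← afs_val_sub h1, ← afs_val_add] at ra
  rw [← afs_val_sub h2, ← afs_val_add] at rb
  cases h3 : Nat.ble (Nat.add bc (Nat.add bb1 be)) (Nat.sub ac (Nat.add ab1 ae)) with
  | true =>
    rw [h3, cond_true] at H
    have h4 := afs_val_mono (Nat.le_of_ble_eq_true h3)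
    have h5 : max s t = s := max_eq_left (by linarith [ra.1, rb.2])
    exact ⟨_, h5.symm ▸ ha, H⟩
  | false =>
    rw [h3, cond_false] at H
    cases h4 : Nat.ble (Nat.add ac (Nat.add ab1 ae)) (Nat.sub bc (Nat.add bb1 be)) with
    | true =>
      rw [h4, cond_true] at H
      have h5 := afs_val_mono (Nat.le_of_ble_eq_true h4)
      have h6 : max s t = t := max_eq_right (by linarith [ra.2, rb.1])
      exact ⟨_, h6.symm ▸ hb, H⟩
    | false =>
      rw [h4, cond_false] at H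
      refine ⟨_, afs_itv (afs_half ?_ ?_), H⟩
      · rw [afs_val_max]
        exact max_le_max ra.1 rb.1
      · rw [afs_val_max]
        exact max_le_max ra.2 rb.2

theorem afs_d3 {a b c x y z : ℕ} (h : 0 < d3 a b c (Nat.add (Nat.add a b) c) x y z) :
    |val (d3 a b c (Nat.add (Nat.add a b) c) x y z) -
      (val a * val x + val b * val y + val c * val z)| ≤ mag 1 := by
  have h1 := val_bm3 (a := b) (b := a) (u := c) (K := Nat.add (Nat.add a b) c)
    (by simp only [Nat.add_eq]; omega) h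
  rwa [add_comm (val b * val y)] at h1

theorem afs_d6 {a b c a' b' c' K x y z x' y' z' : ℕ} (hK : K = a + b + c + (a' + b' + c'))
    (h : 0 < d6 a b c a' b' c' K x y z x' y' z') :
    |val (d6 a b c a' b' c' K x y z x' y' z') - (val a * val x + val a' * val x' +
      (val b * val y + val b' * val y') + (val c * val z + val c' * val z'))| ≤ mag 1 := by
  obtain ⟨N, hN⟩ : ∃ N, N = a * x + b * y + (c * z + a' * x') +
    (b' * y' + c' * z' + 523013997957482418343206771622627741007872) := ⟨_, rfl⟩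
  obtain ⟨S, hS⟩ : ∃ S, S = (K + x + (y + z) + (x' + (y' + z'))) * 2 ^ 68 := ⟨_, rfl⟩
  have e : d6 a b c a' b' c' K x y z x' y' z' = Nat.shiftRight (N - S) 60 := by
    rw [hN, hS, ← Nat.shiftLeft_eq]
    rfl
  rw [e] at h ⊢
  have h1 : S ≤ N := by
    by_contra hc
    rw [Nat.sub_eq_zero_of_le (not_le.1 hc).le] at h
    exact absurd h (by decide)
  have h2 := afs_shift (N - S)
  rw [Nat.cast_sub h1] at h2
  generalize Nat.shiftRight (N - S) 60 = D at *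
  have e2 : val D - (val a * val x + val a' * val x' + (val b * val y + val b' * val y') +
      (val c * val z + val c' * val z')) = ((D : ℝ) - ((N : ℝ) - S) / 2 ^ 60) / 2 ^ 60 := by
    rw [hN, hS, hK]
    unfold val
    push_cast
    ring
  rw [e2, abs_div, abs_of_pos (by positivity : (0 : ℝ) < 2 ^ 60)]
  unfold mag
  push_cast
  gcongr
  rw [abs_le]
  constructor <;> linarith [h2.1, h2.2]

theorem afs_dot {δ : ℕ → ℝ} (hδ : Bd δ 1) {a b : AV} {u v : E} {k : AF → Bool}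
    (ha : AVE δ a u) (hb : AVE δ b v) (H : AV.dot a b k = true) :
    ∃ c, AE δ c ⟪u, v⟫ ∧ k c = true := by
  obtain ⟨⟨pc, px, py, pz, pb, pe1⟩, ⟨qc, qx, qy, qz, qb, qe⟩, ⟨rc, rx, ry, rz, rb, re⟩⟩ := a
  obtain ⟨⟨sc, sx, sy, sz, sb, se⟩, ⟨tc, tx, ty, tz, tb, te⟩, ⟨uc, ux, uy, uz, ub, ue⟩⟩ := b
  simp only [AV.dot, frc_eq] at H
  refine afs_mk (k := k) H fun h1 h2 h3 h4 => ?_
  have m1 := abs_le.1 (afs_mul_core hδ ha.1 hb.1)
  have m2 := abs_le.1 (afs_mul_core hδ ha.2.1 hb.2.1)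
  have m3 := abs_le.1 (afs_mul_core hδ ha.2.2 hb.2.2)
  refine (afs_round hδ ?_ (afs_d3 h1) (afs_d6 rfl h2) (afs_d6 rfl h3) (afs_d6 rfl h4)).trans
    (afs_err _)
  rw [inner3, Nat.add_eq, Nat.add_eq, Nat.cast_add, Nat.cast_add, add_div, add_div, abs_le]
  constructor <;> linarith [m1.1, m1.2, m2.1, m2.2, m3.1, m3.2]

theorem afs_dotc {δ : ℕ → ℝ} (hδ : Bd δ 1) {a b c : ℕ} {w : AV} {v : E} {k : AF → Bool}
    (hw : AVE δ w v) (H : AV.dotc a b c w k = true) :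
    ∃ r, AE δ r ⟪gv a b c, v⟫ ∧ k r = true := by
  obtain ⟨⟨pc, px, py, pz, pb, pe1⟩, ⟨qc, qx, qy, qz, qb, qe⟩, ⟨rc, rx, ry, rz, rb, re⟩⟩ := w
  simp only [AV.dotc, frc_eq] at H
  refine afs_mk (k := k) H fun h1 h2 h3 h4 => ?_
  have key : ∀ (w e : ℕ) (r : ℝ), |r| ≤ mag e →
      |val w * r| ≤ ((Nat.mul (ab w) e : ℕ) : ℝ) / 2 ^ 120 := by
    intro w e r hr
    have e1 : ((Nat.mul (ab w) e : ℕ) : ℝ) / 2 ^ 120 = mag (ab w) * mag e := by
      unfold mag
      rw [Nat.mul_eq]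
      push_cast
      ring
    rw [e1, mag_ab, abs_mul]
    exact mul_le_mul_of_nonneg_left hr (abs_nonneg _)
  have m1 := abs_le.1 (key a _ _ hw.1.2)
  have m2 := abs_le.1 (key b _ _ hw.2.1.2)
  have m3 := abs_le.1 (key c _ _ hw.2.2.2)
  refine (afs_round hδ ?_ (afs_d3 h1) (afs_d3 h2) (afs_d3 h3) (afs_d3 h4)).trans (afs_err _)
  rw [inner3, Nat.add_eq, Nat.add_eq, Nat.cast_add, Nat.cast_add, add_div, add_div, abs_le]
  simp only [gv, vec_0, vec_1, vec_2] at m1 m2 m3 ⊢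
  constructor <;> linarith [m1.1, m1.2, m2.1, m2.2, m3.1, m3.2]

theorem afs_getD {α : Type} (ρ : List α) (i : ℕ) (d : α) :
    ρ.tail.getD i d = ρ.getD (i + 1) d := by
  cases ρ <;> simp

theorem afs_sget {δ : ℕ → ℝ} (i : ℕ) {s : SL} {ρ : List ℝ} (hs : EnvS δ s ρ) {k : AF → Bool}
    (H : s.get i k = true) : ∃ a, AE δ a (ρ.getD i 0) ∧ k a = true := by
  induction i generalizing s ρ with
  | zero =>
    cases s with
    | nil => exact absurd H (by simp [SL.get])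
    | cons a t => exact ⟨a, hs.1, H⟩
  | succ i ih =>
    cases s with
    | nil => exact absurd H (by simp [SL.get])
    | cons a t =>
      rw [← afs_getD]
      exact ih hs.2 H

theorem afs_vget {δ : ℕ → ℝ} (i : ℕ) {s : VL} {ρ : List E} (hs : EnvV δ s ρ) {k : AV → Bool}
    (H : s.get i k = true) : ∃ a, AVE δ a (ρ.getD i 0) ∧ k a = true := by
  induction i generalizing s ρ with
  | zero =>
    cases s with
    | nil => exact absurd H (by simp [VL.get])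
    | cons a t => exact ⟨a, hs.1, H⟩
  | succ i ih =>
    cases s with
    | nil => exact absurd H (by simp [VL.get])
    | cons a t =>
      rw [← afs_getD]
      exact ih hs.2 H

theorem afs_rat {p q : ℕ} (hq : 0 < q) :
    |qq p q - val (Nat.add 295147905179352825856 (Nat.div (Nat.shiftLeft p 60) q))| ≤ mag 1 := by
  have e : Nat.div (Nat.shiftLeft p 60) q = p * 2 ^ 60 / q := by
    rw [← Nat.shiftLeft_eq]
    rfl
  have h := afs_floor (p * 2 ^ 60) q hq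
  rw [afs_val_add, afs_val_B, e]
  generalize p * 2 ^ 60 / q = A at *
  unfold qq mag
  push_cast at *
  have e2 : (p : ℝ) / q - (0 + (A : ℝ) / 2 ^ 60) =
      ((p : ℝ) * 1152921504606846976 / q - A) / 2 ^ 60 := by ring
  rw [e2, abs_div, abs_of_pos (by positivity : (0 : ℝ) < 2 ^ 60)]
  gcongr
  rw [abs_le]
  constructor <;> linarith [h.1, h.2]

theorem Ex.ev_sound {δ : ℕ → ℝ} (hδ : Bd δ 1) {s : SL} {v : VL} {ρ : List ℝ} {σ : List E}
    (hs : EnvS δ s ρ) (hv : EnvV δ v σ) (e : Ex) {k : AF → Bool} (H : e.ev s v k = true) :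
    ∃ a, AE δ a (e.val ρ σ) ∧ k a = true := by
  induction e generalizing k with
  | var i => exact afs_sget i hs H
  | rat p q =>
    simp only [Ex.ev, frc_eq] at H
    obtain ⟨hq, H⟩ := frp_true H
    exact ⟨_, afs_itv (afs_rat hq), H⟩
  | add a b iha ihb =>
    obtain ⟨x, hx, H⟩ := iha H
    obtain ⟨y, hy, H⟩ := ihb H
    exact afs_add hx hy H
  | sub a b iha ihb =>
    obtain ⟨x, hx, H⟩ := iha H
    obtain ⟨y, hy, H⟩ := ihb H
    exact afs_sub hx hy H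
  | neg a iha =>
    obtain ⟨x, hx, H⟩ := iha H
    exact afs_neg hx H
  | mul a b iha ihb =>
    obtain ⟨x, hx, H⟩ := iha H
    obtain ⟨y, hy, H⟩ := ihb H
    exact afs_mul hδ hx hy H
  | smul p q a iha =>
    obtain ⟨x, hx, H⟩ := iha H
    exact afs_smul hδ hx H
  | pp a iha =>
    obtain ⟨x, hx, H⟩ := iha H
    exact afs_pp hδ hx H
  | mx a b iha ihb =>
    obtain ⟨x, hx, H⟩ := iha H
    obtain ⟨y, hy, H⟩ := ihb H
    exact afs_mx hδ hx hy H
  | dot i j =>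
    obtain ⟨x, hx, H⟩ := afs_vget i hv H
    obtain ⟨y, hy, H⟩ := afs_vget j hv H
    exact afs_dot hδ hx hy H
  | dotc a b c j =>
    obtain ⟨x, hx, H⟩ := afs_vget j hv H
    exact afs_dotc hδ hx H
  | cx j =>
    obtain ⟨⟨p, q, r⟩, hx, H⟩ := afs_vget j hv H
    exact ⟨p, hx.1, H⟩
  | cy j =>
    obtain ⟨⟨p, q, r⟩, hx, H⟩ := afs_vget j hv H
    exact ⟨q, hx.2.1, H⟩
  | cz j =>
    obtain ⟨⟨p, q, r⟩, hx, H⟩ := afs_vget j hv H
    exact ⟨r, hx.2.2, H⟩

theorem Ck.run_sound {δ : ℕ → ℝ} (hδ : Bd δ 1) (p : Ck) {s : SL} {v : VL} {ρ : List ℝ}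
    {σ : List E} (hs : EnvS δ s ρ) (hv : EnvV δ v σ) (H : p.run s v = true) : p.holds ρ σ := by
  induction p generalizing s v ρ σ with
  | done => trivial
  | le0 e r ih =>
    obtain ⟨⟨c, x, y, z, b, e1⟩, ha, H⟩ := Ex.ev_sound hδ hs hv e H
    change cond (Nat.ble (Nat.add c (Nat.add b e1)) 295147905179352825856) (r.run s v) false = true
      at H
    cases hb : Nat.ble (Nat.add c (Nat.add b e1)) 295147905179352825856 with
    | false =>
      rw [hb, cond_false] at H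
      exact absurd H (by decide)
    | true =>
      rw [hb, cond_true] at H
      have h1 := afs_val_mono (Nat.le_of_ble_eq_true hb)
      rw [afs_val_add, afs_val_B] at h1
      exact ⟨(afs_range hδ ha).2.trans h1, ih hs hv H⟩
  | slet e r ih =>
    obtain ⟨a, ha, H⟩ := Ex.ev_sound hδ hs hv e H
    exact ih (s := SL.cons a s) (ρ := e.val ρ σ :: ρ) ⟨ha, hs⟩ hv H
  | vmk a b c r ih =>
    obtain ⟨x, hx, H⟩ := Ex.ev_sound hδ hs hv a H
    obtain ⟨y, hy, H⟩ := Ex.ev_sound hδ hs hv b H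
    obtain ⟨z, hz, H⟩ := Ex.ev_sound hδ hs hv c H
    exact ih (v := VL.cons ⟨x, y, z⟩ v) (σ := vec (a.val ρ σ) (b.val ρ σ) (c.val ρ σ) :: σ) hs
      ⟨⟨hx, hy, hz⟩, hv⟩ H
  | vadd i j r ih =>
    obtain ⟨⟨p, q, w⟩, hx, H⟩ := afs_vget i hv H
    obtain ⟨⟨p', q', w'⟩, hy, H⟩ := afs_vget j hv H
    simp only [AV.lin] at H
    obtain ⟨a, ha, H⟩ := afs_add hx.1 hy.1 H
    obtain ⟨b, hb, H⟩ := afs_add hx.2.1 hy.2.1 H
    obtain ⟨c, hc, H⟩ := afs_add hx.2.2 hy.2.2 H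
    exact ih (v := VL.cons ⟨a, b, c⟩ v) (σ := (σ.getD i 0 + σ.getD j 0) :: σ) hs
      ⟨⟨ha, hb, hc⟩, hv⟩ H
  | vsub i j r ih =>
    obtain ⟨⟨p, q, w⟩, hx, H⟩ := afs_vget i hv H
    obtain ⟨⟨p', q', w'⟩, hy, H⟩ := afs_vget j hv H
    simp only [AV.lin] at H
    obtain ⟨a, ha, H⟩ := afs_sub hx.1 hy.1 H
    obtain ⟨b, hb, H⟩ := afs_sub hx.2.1 hy.2.1 H
    obtain ⟨c, hc, H⟩ := afs_sub hx.2.2 hy.2.2 H
    exact ih (v := VL.cons ⟨a, b, c⟩ v) (σ := (σ.getD i 0 - σ.getD j 0) :: σ) hs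
      ⟨⟨ha, hb, hc⟩, hv⟩ H
  | both a r iha ihr =>
    change cond (a.run s v) (r.run s v) false = true at H
    cases hb : a.run s v with
    | false =>
      rw [hb, cond_false] at H
      exact absurd H (by decide)
    | true =>
      rw [hb, cond_true] at H
      exact ⟨iha hs hv hb, ihr hs hv H⟩

end Pool.Agent.Lib.MP_ee7495_gt.Y
end

-- part Pool.Agent.Lib.MP_ee7495_gt.Y.Om
section

set_option autoImplicit false

open scoped RealInnerProductSpace
open Real Set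

namespace Pool.Agent.Lib.MP_ee7495_gt.Y

theorem pp_nonneg (t : ℝ) : 0 ≤ pp t := le_max_right _ _
theorem le_pp (t : ℝ) : t ≤ pp t := le_max_left _ _
theorem pp_mono {s t : ℝ} (h : s ≤ t) : pp s ≤ pp t := max_le_max h le_rfl
theorem pp_neg (t : ℝ) : pp t = pp (-t) + t := by
  unfold pp
  rcases le_total t 0 with h | h
  · rw [max_eq_right h, max_eq_left (by linarith)]; ring
  · rw [max_eq_left h, max_eq_right (by linarith)]; ring
theorem pp_mul {c : ℝ} (hc : 0 ≤ c) (t : ℝ) : pp (c * t) = c * pp t := by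
  unfold pp
  rw [mul_max_of_nonneg _ _ hc, mul_zero]
theorem pp_add_le (s t : ℝ) : pp (s + t) ≤ pp s + pp t :=
  max_le (add_le_add (le_pp s) (le_pp t)) (add_nonneg (pp_nonneg s) (pp_nonneg t))
theorem mul_le_pp {τ L t : ℝ} (h0 : 0 ≤ τ) (h1 : τ ≤ L) : τ * t ≤ L * pp t :=
  (mul_le_mul_of_nonneg_left (le_pp t) h0).trans (mul_le_mul_of_nonneg_right h1 (pp_nonneg t))
theorem le_mx4 (f : Fin 4 → ℝ) (j : Fin 4) : f j ≤ mx4 f := by
  unfold mx4
  fin_cases j
  · exact (le_max_left _ _).trans (le_max_left _ _)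
  · exact (le_max_right _ _).trans (le_max_left _ _)
  · exact (le_max_left _ _).trans (le_max_right _ _)
  · exact (le_max_right _ _).trans (le_max_right _ _)
theorem mx4_eq (f : Fin 4 → ℝ) : ∃ j, mx4 f = f j := by
  unfold mx4
  rcases max_choice (max (f 0) (f 1)) (max (f 2) (f 3)) with h | h <;> rw [h]
  · rcases max_choice (f 0) (f 1) with h | h <;> exact ⟨_, h⟩
  · rcases max_choice (f 2) (f 3) with h | h <;> exact ⟨_, h⟩
theorem norm_Gk (j : Fin 4) : ‖Gk j‖ ≤ 128 / 125 := by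
  refine abs_le_of_sq_le_sq' ?_ (by norm_num) |>.2
  rw [normsq3]
  fin_cases j <;> norm_num [Gk]
theorem Gk_z (j : Fin 4) : -(627 / 1000) ≤ Gk j 2 ∧ Gk j 2 ≤ 0 := by
  fin_cases j <;> norm_num [Gk]
theorem inner_GM (j i : Fin 4) : 29 / 100 * ⟪Gk j, Mk i⟫ ≤ Sd.gg j := by
  rw [inner3]
  fin_cases j <;> fin_cases i <;> norm_num [Gk, Mk, Sd.gg]
theorem gg_nonneg (j : Fin 4) : 0 ≤ Sd.gg j := by
  fin_cases j <;> norm_num [Sd.gg]

theorem InOm.add {u v : E} (hu : InOm u) (hv : InOm v) : InOm (u + v) := fun i => by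
  rw [inner_add_right]
  exact add_nonpos (hu i) (hv i)
theorem InOm.smul {u : E} (hu : InOm u) {t : ℝ} (ht : 0 ≤ t) : InOm (t • u) := fun i => by
  rw [real_inner_smul_right]
  exact mul_nonpos_of_nonneg_of_nonpos ht (hu i)
theorem InOm.inG {u : E} (hu : InOm u) : InG ‖u‖ u := by
  have h0 := hu 0
  have h1 := hu 1
  have h2 := hu 2
  have h3 := hu 3
  rw [inner3] at h0 h1 h2 h3
  simp only [Fk, Matrix.cons_val, vec_0, vec_1, vec_2] at h0 h1 h2 h3
  set x : ℝ := -(1024 / 224330640) * (611704 * u 0 - 56848 * u 1 - 688512 * u 2) with hx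
  set y : ℝ := -(1024 / 224330640) * (216576 * u 0 + 830688 * u 1 + 684792 * u 2) with hy
  set n : ℝ := 1024 / 224330640 * (-154032 * u 0 + 105264 * u 1 - 114144 * u 2) with hn
  have hw : ‖vec (1024 / 224330640 * -154032) (1024 / 224330640 * 105264)
      (1024 / 224330640 * -114144)‖ ≤ 1 := by
    refine abs_le_of_sq_le_sq' ?_ (by norm_num) |>.2
    rw [normsq3]
    norm_num
  have hn1 : n ≤ ‖u‖ := by
    have h4 := (real_inner_le_norm _ u).trans (mul_le_of_le_one_left (norm_nonneg u) hw)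
    rw [inner3] at h4
    simp only [vec_0, vec_1, vec_2] at h4
    linarith
  have m1 := min_le_left x y
  have m2 := min_le_right x y
  have m3 : 0 ≤ min x y := le_min (by linarith) (by linarith)
  have m4 : x + y - n ≤ min x y := le_min (by linarith) (by linarith)
  generalize min x y = m at m1 m2 m3 m4
  refine ⟨![n - x - y + m, y - m, x - m, m], fun j => ?_, ?_, ?_⟩
  · fin_cases j <;> simp <;> linarith
  · simp only [Matrix.cons_val]
    linarith
  · refine ext3 ?_ ?_ ?_ <;>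
      simp only [Gk, Matrix.cons_val, PiLp.add_apply, PiLp.smul_apply, smul_eq_mul, vec_0, vec_1,
        vec_2] <;> linarith
theorem InG.mono {ν ν' : ℝ} {u : E} (h : InG ν u) (hν : ν ≤ ν') : InG ν' u := by
  obtain ⟨t, h0, h1, h2⟩ := h
  exact ⟨t, h0, h1.trans hν, h2⟩
theorem InG.add_G {ν κ : ℝ} {u : E} (h : InG ν u) (hκ : 0 ≤ κ) (j : Fin 4) :
    InG (ν + κ) (u + κ • Gk j) := by
  obtain ⟨t, h0, h1, rfl⟩ := h
  refine ⟨fun i => t i + if i = j then κ else 0, fun i => add_nonneg (h0 i) (by positivity),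
    ?_, ?_⟩
  · fin_cases j <;> simp <;> linarith
  · fin_cases j <;> simp [add_smul] <;> abel
theorem InG.norm_le {ν : ℝ} {u : E} (h : InG ν u) : ‖u‖ ≤ 128 / 125 * ν := by
  obtain ⟨t, h0, h1, rfl⟩ := h
  have h2 : ∀ j, ‖t j • Gk j‖ ≤ t j * (128 / 125) := fun j => by
    rw [norm_smul, Real.norm_of_nonneg (h0 j)]
    exact mul_le_mul_of_nonneg_left (norm_Gk j) (h0 j)
  have h3 := norm_add₄_le (a := t 0 • Gk 0) (b := t 1 • Gk 1) (c := t 2 • Gk 2) (d := t 3 • Gk 3)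
  linarith [h2 0, h2 1, h2 2, h2 3]
/-- The shift direction makes a uniform angle with the cone. -/
theorem InOm.beta {u : E} (hu : InOm u) :
    3 / 4 * ‖u‖ ≤ -(13 / 16) * u 0 + 9 / 16 * u 1 ∧ u 2 ≤ 0 := by
  obtain ⟨t, h0, -, h2⟩ := hu.inG
  have h3 := InG.norm_le (u := u) ⟨t, h0, le_rfl, h2⟩
  have e0 := congrArg (fun v : E => v 0) h2
  have e1 := congrArg (fun v : E => v 1) h2
  have e2 := congrArg (fun v : E => v 2) h2
  simp only [Gk, Matrix.cons_val, PiLp.add_apply, PiLp.smul_apply, smul_eq_mul, vec_0, vec_1,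
    vec_2] at e0 e1 e2
  constructor <;> linarith [h0 0, h0 1, h0 2, h0 3]
/-- The cone makes acute angles with the fifth family. -/
theorem InOm.five {u : E} (hu : InOm u) {t ω : ℝ} (ht : |t| ≤ 2837 / 10000) (h0 : 3 / 20 ≤ ω)
    (h1 : ω ≤ 7 / 20) : 0 ≤ ⟪u, vec (-sin t) (cos t * cos ω) (-(cos t * sin ω))⟫ := by
  obtain ⟨s, hs, -, h2⟩ := hu.inG
  have a1 : |sin t| ≤ 2837 / 10000 := Real.abs_sin_le_abs.trans ht
  have a2 : 959 / 1000 ≤ cos t := by
    have := Real.one_sub_sq_div_two_le_cos (x := t)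
    have h3 := abs_le.1 ht
    nlinarith
  have a3 : 938 / 1000 ≤ cos ω := by
    have := Real.one_sub_sq_div_two_le_cos (x := ω)
    nlinarith
  have a4 : 0 ≤ sin ω := Real.sin_nonneg_of_nonneg_of_le_pi (by linarith)
    (by linarith [Real.pi_gt_three])
  have a5 : 899 / 1000 ≤ cos t * cos ω := by nlinarith
  have a6 : 0 ≤ cos t * sin ω := mul_nonneg (by linarith) a4
  have a7 := abs_le.1 a1
  have h3 : ∀ j, 0 ≤ ⟪Gk j, vec (-sin t) (cos t * cos ω) (-(cos t * sin ω))⟫ := fun j => by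
    rw [inner3]
    fin_cases j <;> simp only [Gk, Fin.zero_eta, Fin.mk_one, Fin.reduceFinMk, Matrix.cons_val,
      vec_0, vec_1, vec_2] <;> linarith [a7.1, a7.2]
  rw [h2]
  simp only [inner_add_left, real_inner_smul_left]
  exact add_nonneg (add_nonneg (add_nonneg (mul_nonneg (hs 0) (h3 0)) (mul_nonneg (hs 1) (h3 1)))
    (mul_nonneg (hs 2) (h3 2))) (mul_nonneg (hs 3) (h3 3))
/-- Explicit form of `InM`. -/
theorem InM.spec {Y : E} (h : InM Y) : ∃ s : ℝ, 0 ≤ s ∧ s ≤ 29 / 100 ∧ ‖Y‖ ≤ 128 / 125 * s ∧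
    -(627 / 1000) * s ≤ Y 2 ∧
    ∀ (X : E) (c : ℝ), (∀ j, ⟪Mk j, X⟫ ≤ c) → ⟪Y, X⟫ ≤ s * c := by
  obtain ⟨t, h0, h1, h2⟩ := h
  have h3 := InG.norm_le (u := mir Y) ⟨t, h0, le_rfl, h2⟩
  rw [norm_mir] at h3
  refine ⟨t 0 + t 1 + t 2 + t 3, by linarith [h0 0, h0 1, h0 2, h0 3], h1, h3, ?_,
    fun X c hc => ?_⟩
  · have e2 := congrArg (fun v : E => v 2) h2
    simp only [Gk, Matrix.cons_val, PiLp.add_apply, PiLp.smul_apply, smul_eq_mul, vec_2,
      mir_2] at e2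
    linarith [h0 0, h0 1, h0 2, h0 3]
  · have h4 : ∀ j, t j * ⟪Gk j, mir X⟫ ≤ t j * c := fun j =>
      mul_le_mul_of_nonneg_left (by rw [← inner_mir_left]; exact hc j) (h0 j)
    rw [← inner_mir, h2]
    simp only [inner_add_left, real_inner_smul_left]
    linarith [h4 0, h4 1, h4 2, h4 3]

theorem Sd.InZ.norm_s {d : Sd} (hg : d.Geo) {ζ : E} (h : d.InZ d.us ζ) : ‖ζ‖ ≤ d.lam := by
  obtain ⟨τ, τ', h0, h1, h2, rfl⟩ := h
  exact (hg.ns τ τ' h0 h1).trans h2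
theorem Sd.InZ.norm_e {d : Sd} (hg : d.Geo) {ζ : E} (h : d.InZ d.ue ζ) : ‖ζ‖ ≤ d.lam := by
  obtain ⟨τ, τ', h0, h1, h2, rfl⟩ := h
  exact (hg.ne τ τ' h0 h1).trans h2
theorem Sd.InZ.om_s {d : Sd} (hv : d.Side) {ζ : E} (h : d.InZ d.us ζ) : InOm ζ := by
  obtain ⟨τ, τ', h0, h1, -, rfl⟩ := h
  intro i
  rw [inner_add_right, real_inner_smul_right, real_inner_smul_right]
  have h3 := mul_le_pp (t := ⟪Fk i, d.wv⟫) h0 h1
  have h4 := mul_nonpos_of_nonneg_of_nonpos (h0.trans h1) (hv.Fs i)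
  linarith
theorem Sd.InZ.om_e {d : Sd} (hv : d.Side) {ζ : E} (h : d.InZ d.ue ζ) : InOm ζ := by
  obtain ⟨τ, τ', h0, h1, -, rfl⟩ := h
  intro i
  rw [inner_add_right, real_inner_smul_right, real_inner_smul_right]
  have h3 := mul_le_pp (t := ⟪Fk i, d.wv⟫) h0 h1
  have h4 := mul_nonpos_of_nonneg_of_nonpos (h0.trans h1) (hv.Fe i)
  linarith
/-- The contribution of one side, seen from the other side. -/
theorem Sd.inM_mir {d : Sd} (hv : d.Side) (hg : d.Geo) {ζs ζe : E} (hs : d.InZ d.us ζs)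
    (he : d.InZ d.ue ζe) {κ : ℝ} (h0 : 0 ≤ κ) (h1 : κ ≤ d.k) (j : Fin 4) :
    InM (mir (ζs + ζe + κ • Gk j)) := by
  unfold InM
  rw [mir_mir]
  refine (((hs.om_s hv).add (he.om_e hv)).inG.add_G h0 j).mono ?_
  linarith [norm_add_le ζs ζe, hs.norm_s hg, he.norm_e hg, hv.nu2]

end Pool.Agent.Lib.MP_ee7495_gt.Y
end

-- part Pool.Agent.Lib.MP_ee7495_gt.Y.CfgB
section

set_option autoImplicit false

open scoped RealInnerProductSpace
open Real Set

namespace Pool.Agent.Lib.MP_ee7495_gt.Y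

theorem cfgb_nn (f : ℕ → ℝ) (s t : ℕ) : 0 ≤ ∑ k ∈ Finset.Ico s t, pp (f k) :=
  Finset.sum_nonneg fun _ _ => pp_nonneg _

theorem cfgb_refl (g : ℕ → ℝ) {N s t : ℕ} (ht : t ≤ N) :
    ∑ k ∈ Finset.Ico (N - t) (N - s), g (N - 1 - k) = ∑ k ∈ Finset.Ico s t, g k := by
  refine Finset.sum_nbij' (fun k => N - 1 - k) (fun k => N - 1 - k) ?_ ?_ ?_ ?_ fun _ _ => rfl <;>
    intro k hk <;> simp only [Finset.mem_Ico] at hk ⊢ <;> omega

/-- Exchange of the first two coordinates. -/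
noncomputable def cfgbSw (u : E) : E := vec (u 1) (u 0) (u 2)

theorem cfgb_sw_norm (u : E) : ‖cfgbSw u‖ = ‖u‖ := by
  rw [norm3, norm3 u]
  simp only [cfgbSw, vec_0, vec_1, vec_2]
  congr 1
  ring

namespace Cfg
variable (C : Cfg)

theorem cfgb_lin (u : E) {s t : ℕ} (h : s ≤ t) :
    ∑ k ∈ Finset.Ico s t, ⟪C.ed k, u⟫ = ⟪C.P t, u⟫ - ⟪C.P s, u⟫ := by
  simp only [ed, inner_sub_left]
  exact Finset.sum_Ico_sub (fun k => ⟪C.P k, u⟫) h

theorem cfgb_inc (u : E) {s i j t : ℕ} (h1 : s ≤ i) (h2 : i ≤ j) (h3 : j ≤ t) :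
    ⟪C.P j, u⟫ - ⟪C.P i, u⟫ ≤ ∑ k ∈ Finset.Ico s t, pp ⟪C.ed k, u⟫ := by
  rw [← C.cfgb_lin u h2]
  exact (Finset.sum_le_sum fun k _ => le_pp _).trans (Finset.sum_le_sum_of_subset_of_nonneg
    (Finset.Ico_subset_Ico h1 h3) fun _ _ _ => pp_nonneg _)

theorem cfgb_sum (f : E → ℝ) : C.S1 f + C.S2 f + C.S3 f = ∑ k ∈ Finset.Ico 0 C.N, f (C.ed k) := by
  rw [S1, S2, S3, Finset.sum_Ico_consecutive _ (Nat.zero_le _) C.hBC,
    Finset.sum_Ico_consecutive _ (Nat.zero_le _) C.hCN]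

theorem cfgb_norm {i j : ℕ} (h1 : i ≤ j) (h2 : j ≤ C.N) : ‖C.P j - C.P i‖ ≤ C.len := by
  rw [← Finset.sum_Ico_sub C.P h1, len, Finset.range_eq_Ico]
  exact (norm_sum_le _ _).trans (Finset.sum_le_sum_of_subset_of_nonneg
    (Finset.Ico_subset_Ico (Nat.zero_le _) h2) fun _ _ _ => norm_nonneg _)

theorem cfgb_e3 (u : E) : ⟪u, -e3⟫ = -u 2 := by simp [inner3, e3]

theorem cfgb_add (u v : E) : C.Phi3 (u + v) ≤ C.Phi3 u + C.Phi3 v := by
  simp only [Phi3, V2, V3, S2, S3, neg_add, inner_add_right]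
  rw [add_add_add_comm, ← Finset.sum_add_distrib, ← Finset.sum_add_distrib]
  exact add_le_add (Finset.sum_le_sum fun _ _ => pp_add_le _ _)
    (Finset.sum_le_sum fun _ _ => pp_add_le _ _)

theorem cfgb_smul {t : ℝ} (ht : 0 ≤ t) (u : E) : C.Phi3 (t • u) = t * C.Phi3 u := by
  simp only [Phi3, V2, V3, S2, S3, ← smul_neg, real_inner_smul_right, pp_mul ht, mul_add,
    Finset.mul_sum]

theorem len_eq : C.len = C.S1 (fun ξ => ‖ξ‖) + C.S2 (fun ξ => ‖ξ‖) + C.S3 (fun ξ => ‖ξ‖) := by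
  rw [cfgb_sum, len, Finset.range_eq_Ico]
theorem S1_lin (w : E) : C.S1 (fun ξ => ⟪w, ξ⟫) = -⟪w, C.b⟫ := by
  simp only [S1, real_inner_comm _ w, C.cfgb_lin w (Nat.zero_le _), C.P0, b, inner_neg_left,
    inner_zero_left, sub_zero, neg_neg]
theorem S2_lin (w : E) : C.S2 (fun ξ => ⟪w, ξ⟫) = ⟪w, C.a + C.b + C.c⟫ := by
  simp only [S2, real_inner_comm _ w, C.cfgb_lin w C.hBC, a, b, c, inner_neg_left, inner_add_left,
    inner_sub_left]
  ring
theorem S3_lin (w : E) : C.S3 (fun ξ => ⟪w, ξ⟫) = -⟪w, C.c⟫ := by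
  simp only [S3, real_inner_comm _ w, C.cfgb_lin w C.hCN, c, inner_sub_left, neg_sub]
theorem one_le_h : 1 ≤ C.h := by
  obtain ⟨i, hi, j, hj, h1⟩ := C.wid (-e3)
  have h2 : ‖-e3‖ = 1 := by rw [norm3]; simp [e3]
  rw [h2, cfgb_e3, PiLp.sub_apply] at h1
  have := C.top i hi
  have := C.bot j hj
  rw [h]
  linarith
theorem a_x : C.a 0 = 0 := C.Dx
/-- Vertical components: `α = b 2 + h` and `δ = c 2 + h` are the nonnegative defects. -/
theorem a_z : C.a 2 = -C.h - C.b 2 - C.c 2 := by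
  simp only [a, b, c, h, PiLp.neg_apply, PiLp.sub_apply]
  ring
theorem al_nonneg : 0 ≤ C.b 2 + C.h := by
  have := C.bot 0 (Nat.zero_le _)
  simp only [b, h, PiLp.neg_apply, C.P0, PiLp.zero_apply] at this ⊢
  linarith
theorem de_nonneg : 0 ≤ C.c 2 + C.h := by
  have := C.top C.N le_rfl
  simp only [c, h, PiLp.sub_apply]
  linarith
theorem gen1 : C.b 2 + C.h ≤ C.S1 (fun ξ => pp (-ξ 2)) := by
  obtain ⟨i, hi, e⟩ := C.t1
  have := C.cfgb_inc (-e3) le_rfl (Nat.zero_le i) hi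
  simp only [cfgb_e3, e, C.P0, PiLp.zero_apply] at this
  simp only [b, h, S1, PiLp.neg_apply]
  linarith
theorem gen3 : C.c 2 + C.h ≤ C.S3 (fun ξ => pp (-ξ 2)) := by
  obtain ⟨i, hi, hi', e⟩ := C.t3
  have := C.cfgb_inc (-e3) hi hi' le_rfl
  simp only [cfgb_e3, e] at this
  simp only [c, h, S3, PiLp.sub_apply]
  linarith
theorem norm_c_le : ‖C.c‖ ≤ C.len := by
  rw [c, norm_sub_rev]
  exact C.cfgb_norm C.hCN le_rfl
theorem Phi3_nonneg (g : E) : 0 ≤ C.Phi3 g := add_nonneg (cfgb_nn _ _ _) (cfgb_nn _ _ _)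
theorem Phi3_le (g : E) : C.Phi3 g ≤ ‖g‖ * C.len := by
  have h1 : ∀ (ξ v : E), pp ⟪ξ, v⟫ ≤ ‖v‖ * ‖ξ‖ := fun ξ v =>
    max_le (mul_comm ‖ξ‖ _ ▸ real_inner_le_norm ξ v) (by positivity)
  have h2 : 0 ≤ ‖g‖ * C.S1 fun ξ => ‖ξ‖ :=
    mul_nonneg (norm_nonneg _) (Finset.sum_nonneg fun _ _ => norm_nonneg _)
  have h3 : C.V2 (-g) ≤ ‖g‖ * C.S2 fun ξ => ‖ξ‖ := by
    rw [V2, S2, S2, Finset.mul_sum]
    exact Finset.sum_le_sum fun _ _ => norm_neg g ▸ h1 _ _
  have h4 : C.V3 g ≤ ‖g‖ * C.S3 fun ξ => ‖ξ‖ := by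
    rw [V3, S3, S3, Finset.mul_sum]
    exact Finset.sum_le_sum fun _ _ => h1 _ _
  rw [len_eq, Phi3]
  linarith
theorem h_le : C.h ≤ C.len := by
  have h1 := real_inner_le_norm (C.P C.iC - C.P C.iB) (-e3)
  have h2 : ‖-e3‖ = 1 := by rw [norm3]; simp [e3]
  rw [h2, cfgb_e3, PiLp.sub_apply] at h1
  have := C.cfgb_norm C.hBC C.hCN
  rw [h]
  linarith
theorem Phi3_inG {u : E} (h : InG 1 u) : C.Phi3 u ≤ mx4 fun j => C.Phi3 (Gk j) := by
  obtain ⟨t, h0, h1, rfl⟩ := h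
  have h2 := fun j => mul_le_mul_of_nonneg_left (le_mx4 (fun j => C.Phi3 (Gk j)) j) (h0 j)
  have h3 := mul_le_of_le_one_left
    ((C.Phi3_nonneg _).trans (le_mx4 (fun j => C.Phi3 (Gk j)) 0)) h1
  have h4 := C.cfgb_add (t 0 • Gk 0 + t 1 • Gk 1 + t 2 • Gk 2) (t 3 • Gk 3)
  have h5 := C.cfgb_add (t 0 • Gk 0 + t 1 • Gk 1) (t 2 • Gk 2)
  have h6 := C.cfgb_add (t 0 • Gk 0) (t 1 • Gk 1)
  simp only [C.cfgb_smul (h0 _)] at h4 h5 h6
  linarith [h2 0, h2 1, h2 2, h2 3]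
theorem s3_nonneg {ε : ℝ} (hε : 0 ≤ ε) : 0 ≤ C.s3 ε := by
  have := (C.Phi3_nonneg _).trans (le_mx4 (fun j => C.Phi3 (Gk j)) 0)
  have := C.one_le_h
  rw [s3]
  linarith

/-- Positive variation in a direction that is not against the chord. -/
theorem T0 {u : E} (h : 0 ≤ ⟪C.a, u⟫) : ‖u‖ ≤ C.V1 u + C.V2 u + C.V3 u := by
  obtain ⟨i, hi, j, hj, h1⟩ := C.wid u
  rw [inner_sub_left] at h1
  rw [V1, V2, V3, cfgb_sum]
  rcases le_total i j with h2 | h2
  · exact h1.trans (C.cfgb_inc u (Nat.zero_le _) h2 hj)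
  · have h3 := C.cfgb_inc u le_rfl (Nat.zero_le j) le_rfl
    have h4 := C.cfgb_inc u h2 hi le_rfl
    rw [← Finset.sum_Ico_consecutive _ (Nat.zero_le j) hj]
    rw [C.P0, inner_zero_left] at h3
    rw [a] at h
    linarith

/-- The four possible orders of a pair of supporting points. -/
theorem tri3 {u : E} (hu : ‖u‖ = 1) : 1 ≤ C.V1 u + C.V2 u + C.V3 u ∨ 1 ≤ ⟪C.c, u⟫ + C.Phi3 u ∨
    1 + ⟪C.a, u⟫ ≤ C.V1 u + C.V3 u ∨ 1 ≤ C.V1 (-u) + C.V2 (-u) := by
  obtain ⟨i, hi, j, hj, h1⟩ := C.wid u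
  rw [inner_sub_left, hu] at h1
  rcases le_total i j with h2 | h2
  · left
    rw [V1, V2, V3, cfgb_sum]
    exact h1.trans (C.cfgb_inc u (Nat.zero_le _) h2 hj)
  rcases le_total i C.iC with h3 | h3
  · have := C.cfgb_inc (-u) (Nat.zero_le _) h2 h3
    rw [inner_neg_right, inner_neg_right, ← Finset.sum_Ico_consecutive _ (Nat.zero_le _) C.hBC] at this
    refine .inr (.inr (.inr ?_))
    rw [V1, V2, S1, S2]
    linarith
  rcases le_total j C.iB with h4 | h4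
  · have h5 := C.cfgb_inc u le_rfl (Nat.zero_le j) h4
    have h6 := C.cfgb_inc u h3 hi le_rfl
    rw [C.P0, inner_zero_left] at h5
    refine .inr (.inr (.inl ?_))
    rw [V1, V3, S1, S3, a]
    linarith
  refine .inr (.inl ?_)
  rw [Phi3, V2, V3, S2, S3, c, inner_sub_left]
  rcases le_total j C.iC with h5 | h5
  · have h6 := C.cfgb_inc (-u) h4 h5 le_rfl
    have h7 := C.cfgb_inc u h3 hi le_rfl
    rw [inner_neg_right, inner_neg_right] at h6
    linarith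
  · have h6 := C.cfgb_inc u le_rfl h5 le_rfl
    have h7 := C.cfgb_inc u h2 hi le_rfl
    have h8 := cfgb_nn (fun k => ⟪C.ed k, -u⟫) C.iB C.iC
    rw [← Finset.sum_Ico_consecutive _ h5 hj]
    linarith

/-- The reversed and reflected configuration. -/
theorem exists_rev : ∃ R : Cfg, R.len = C.len ∧ R.a = C.a ∧ R.b = mir C.c ∧ R.c = mir C.b ∧
    R.h = C.h ∧ ∀ f : E → ℝ, R.S1 f = C.S3 (fun ξ => f (mir ξ)) ∧
      R.S2 f = C.S2 (fun ξ => f (mir ξ)) ∧ R.S3 f = C.S1 (fun ξ => f (mir ξ)) := by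
  have hB := C.hBC.trans C.hCN
  have eB := Nat.sub_sub_self hB
  have eC := Nat.sub_sub_self C.hCN
  obtain ⟨R, hN, h1, h2, hP⟩ : ∃ R : Cfg, R.N = C.N ∧ R.iB = C.N - C.iC ∧ R.iC = C.N - C.iB ∧
      R.P = fun k => mir (C.P C.N - C.P (C.N - k)) := by
    refine ⟨⟨C.N, C.N - C.iC, C.N - C.iB, fun k => mir (C.P C.N - C.P (C.N - k)),
      Nat.sub_le_sub_left C.hBC _, Nat.sub_le _ _, by simp [mir_zero], by simp [C.P0, C.Dx],
      by simpa [C.P0] using C.Dy, fun i _ => ?_, fun i _ => ?_, ?_, ?_, fun u => ?_⟩, rfl, rfl, rfl,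
      rfl⟩
    · simpa only [eC, mir_2, PiLp.sub_apply, sub_le_sub_iff_left] using C.bot _ (Nat.sub_le _ i)
    · simpa only [eB, mir_2, PiLp.sub_apply, sub_le_sub_iff_left] using C.top _ (Nat.sub_le _ i)
    · obtain ⟨i, hi, hi', e⟩ := C.t3
      exact ⟨C.N - i, Nat.sub_le_sub_left hi _, by simp [eB, Nat.sub_sub_self hi', e]⟩
    · obtain ⟨i, hi, e⟩ := C.t1
      exact ⟨C.N - i, Nat.sub_le_sub_left hi _, Nat.sub_le _ _,
        by simp [eC, Nat.sub_sub_self (hi.trans hB), e]⟩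
    · obtain ⟨i, hi, j, hj, e⟩ := C.wid (mir u)
      refine ⟨C.N - j, Nat.sub_le _ _, C.N - i, Nat.sub_le _ _, ?_⟩
      rwa [Nat.sub_sub_self hi, Nat.sub_sub_self hj, ← mir_sub, sub_sub_sub_cancel_left,
        inner_mir_left, ← norm_mir]
  have key : ∀ (f : E → ℝ) (s t : ℕ), t ≤ C.N → ∑ k ∈ Finset.Ico (C.N - t) (C.N - s), f (R.ed k) =
      ∑ k ∈ Finset.Ico s t, f (mir (C.ed k)) := fun f s t ht => by
    rw [← cfgb_refl _ ht]
    refine Finset.sum_congr rfl fun k hk => ?_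
    rw [Finset.mem_Ico] at hk
    simp only [ed, hP]
    rw [← mir_sub, sub_sub_sub_cancel_left, show C.N - 1 - k + 1 = C.N - k by omega,
      show C.N - (k + 1) = C.N - 1 - k by omega]
  have hS : ∀ f : E → ℝ, R.S1 f = C.S3 (fun ξ => f (mir ξ)) ∧
      R.S2 f = C.S2 (fun ξ => f (mir ξ)) ∧ R.S3 f = C.S1 (fun ξ => f (mir ξ)) := fun f => by
    simp only [S1, S2, S3, hN, h1, h2]
    exact ⟨Nat.sub_self C.N ▸ key f _ _ le_rfl, key f _ _ C.hCN, key f 0 _ hB⟩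
  refine ⟨R, ?_, ?_, ?_, ?_, ?_, hS⟩
  · obtain ⟨e1, e2, e3⟩ := hS fun ξ => ‖ξ‖
    simp only [len_eq, e1, e2, e3, norm_mir]
    ring
  · exact ext3 (by simp [a, hP, hN, C.P0, C.Dx]) (by simp [a, hP, hN, C.P0]) (by simp [a, hP, hN, C.P0])
  · simp only [b, c, hP, h1, eC, ← mir_neg, neg_sub]
  · simp only [b, c, hP, h2, hN, eB, ← mir_sub, sub_sub_sub_cancel_left, Nat.sub_self, C.P0, zero_sub]
  · simp only [h, hP, h1, h2, eB, eC, mir_2, PiLp.sub_apply]
    ring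

/-- The mirror image. -/
theorem exists_mir : ∃ R : Cfg, R.len = C.len ∧ R.b = mir C.b ∧ R.c = mir C.c := by
  refine ⟨⟨C.N, C.iB, C.iC, fun k => mir (C.P k), C.hBC, C.hCN, by rw [C.P0, mir_zero],
    by simp [C.Dx], C.Dy, C.top, C.bot, C.t1, C.t3, fun u => ?_⟩, ?_, (mir_neg _).symm,
    (mir_sub _ _).symm⟩
  · obtain ⟨i, hi, j, hj, e⟩ := C.wid (mir u)
    exact ⟨i, hi, j, hj, by rwa [← mir_sub, inner_mir_left, ← norm_mir]⟩
  · simp only [len, ed, ← mir_sub, norm_mir]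

end Cfg

/-- A normalised polygon gives a configuration. -/
theorem cfg_of_poly {N : ℕ} {q : ℕ → EuclideanSpace ℝ (Fin 3)} {h : ℝ} {i0 i1 i2 i3 : ℕ}
    (H : X.NormPoly N q h i0 i1 i2 i3) :
    ∃ C : Cfg, C.len = ∑ i ∈ Finset.range N, ‖q (i + 1) - q i‖ := by
  have hs : ∀ i j, cfgbSw (q j - q 0) - cfgbSw (q i - q 0) = cfgbSw (q j - q i) := fun i j =>
    ext3 (by simp [cfgbSw]) (by simp [cfgbSw]) (by simp [cfgbSw])
  refine ⟨⟨N, i1, i2, fun k => cfgbSw (q k - q 0), H.le12, H.le23.trans H.le3,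
    ext3 (by simp [cfgbSw]) (by simp [cfgbSw]) (by simp [cfgbSw]), by simp [cfgbSw, H.y0, H.yN],
    by simpa [cfgbSw, H.x0] using H.xN, fun i hi => ?_, fun i hi => ?_,
    ⟨i0, H.le01, by simp [cfgbSw, H.z0, H.z2]⟩, ⟨i3, H.le23, H.le3, by simp [cfgbSw, H.z1, H.z3]⟩,
    fun u => ?_⟩, ?_⟩
  · simpa [cfgbSw, H.z1] using (H.slab i hi).2
  · simpa [cfgbSw, H.z2] using (H.slab i hi).1
  · rcases eq_or_ne u 0 with rfl | hu
    · exact ⟨0, Nat.zero_le _, 0, Nat.zero_le _, by simp⟩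
    have h0 := norm_pos_iff.2 hu
    obtain ⟨j, hj, i, hi, e⟩ := H.wide (‖u‖⁻¹ • cfgbSw u) (by
      rw [norm_smul, cfgb_sw_norm, norm_inv, norm_norm, inv_mul_cancel₀ h0.ne'])
    refine ⟨i, hi, j, hj, ?_⟩
    rw [real_inner_smul_right, le_inv_mul_iff₀ h0, mul_one] at e
    rw [hs]
    refine e.trans_eq ?_
    simp only [inner3, cfgbSw, vec_0, vec_1, vec_2]
    ring
  · simp only [Cfg.len, Cfg.ed, hs, cfgb_sw_norm]

/-- Reduction of the lower bound to configurations in mirror normal form. -/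
theorem bset_le {L0 : ℝ} (h0 : 0 < L0) (H : ∀ C : Cfg, C.c 0 ≤ C.b 0 → L0 ≤ C.len) :
    ∀ b ∈ BSet, b ≤ 1 / L0 := by
  refine X.beta_le_of_poly h0 fun N q h i0 i1 i2 i3 hq => ?_
  obtain ⟨C, hC⟩ := cfg_of_poly hq
  rw [← hC]
  rcases le_total (C.c 0) (C.b 0) with h1 | h1
  · exact H C h1
  · obtain ⟨R, e1, e2, e3⟩ := C.exists_mir
    exact e1 ▸ H R (by rw [e2, e3, mir_0, mir_0]; linarith)

end Pool.Agent.Lib.MP_ee7495_gt.Y
end

-- part Pool.Agent.Lib.MP_ee7495_gt.Y.Arc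
section

set_option autoImplicit false

open scoped RealInnerProductSpace
open Real Set

namespace Pool.Agent.Lib.MP_ee7495_gt.Y

theorem continuous_arc (p q : E) : Continuous (arc p q) := by
  unfold arc
  fun_prop

theorem arc_int (p q : E) (a b : ℝ) :
    ∫ t in a..b, arc p q t = (sin b - sin a) • p - (cos b - cos a) • q := by
  unfold arc
  rw [intervalIntegral.integral_add (Continuous.intervalIntegrable (by fun_prop) _ _)
    (Continuous.intervalIntegrable (by fun_prop) _ _), intervalIntegral.integral_smul_const,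
    intervalIntegral.integral_smul_const, integral_cos, integral_sin]
  module

theorem arc_interp (p q : E) {α β : ℝ} (h : sin (β - α) ≠ 0) (φ : ℝ) : arc p q φ =
    (sin (β - φ) / sin (β - α)) • arc p q α + (sin (φ - α) / sin (β - α)) • arc p q β := by
  unfold arc
  match_scalars
  · field_simp
    simp only [sin_sub]
    ring
  · field_simp
    simp only [sin_sub]
    ring

theorem arc_tan_half {δ : ℝ} (h0 : 0 < δ) (h1 : δ < π) : tan (δ / 2) = (1 - cos δ) / sin δ := by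
  obtain ⟨x, rfl⟩ : ∃ x, δ = 2 * x := ⟨δ / 2, by ring⟩
  have h2 : 0 < sin x := sin_pos_of_pos_of_lt_pi (by linarith) (by linarith)
  have h3 : 0 < cos x := cos_pos_of_mem_Ioo ⟨by linarith, by linarith⟩
  rw [mul_div_cancel_left₀ x two_ne_zero, tan_eq_sin_div_cos, sin_two_mul, cos_two_mul]
  field_simp
  linear_combination 2 * sin_sq_add_cos_sq x

theorem arc_cont_pp : Continuous pp := by
  unfold pp
  fun_prop

theorem arc_inner_int {g : ℝ → E} (hg : Continuous g) (a b : ℝ) (ξ : E) :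
    ⟪ξ, ∫ t in a..b, g t⟫ = ∫ t in a..b, ⟪ξ, g t⟫ :=
  ((innerSL ℝ ξ).intervalIntegral_comp_comm (hg.intervalIntegrable a b)).symm

theorem arc_wt_le {w u : ℝ → ℝ} (hw : Wt w) (hu : Continuous u) {a b : ℝ} (hab : a ≤ b)
    (h : ∀ t ∈ Icc a b, 0 ≤ u t) :
    0 ≤ ∫ t in a..b, w t * u t ∧ ∫ t in a..b, w t * u t ≤ ∫ t in a..b, u t :=
  ⟨intervalIntegral.integral_nonneg hab fun t ht => mul_nonneg (hw.nn t) (h t ht),
    intervalIntegral.integral_mono_on hab ((hw.cont.mul hu).intervalIntegrable a b)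
      (hu.intervalIntegrable a b) fun t ht => mul_le_of_le_one_left (h t ht) (hw.le t)⟩

theorem arc_Ip_wt {g : ℝ → E} (hg : Continuous g) {a b : ℝ} (h : a ≤ b) (ξ : E) {ε : ℝ}
    (hε : 0 < ε) : ∃ w, Wt w ∧ Ip g a b ξ ≤ ⟪ξ, Iw w g a b⟫ + ε := by
  obtain ⟨η, h1, h2⟩ : ∃ η, 0 < η ∧ (b - a) * η ≤ ε := by
    have h3 : 0 < b - a + 1 := by linarith
    refine ⟨ε / (b - a + 1), div_pos hε h3, ?_⟩
    rw [← mul_div_assoc, div_le_iff₀ h3]
    nlinarith
  have hx : Continuous fun t => ⟪ξ, g t⟫ := by fun_prop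
  have hw : Continuous fun t => max 0 (min 1 (⟪ξ, g t⟫ / η)) := by fun_prop
  refine ⟨fun t => max 0 (min 1 (⟪ξ, g t⟫ / η)),
    ⟨hw, fun t => le_max_left _ _, fun t => max_le zero_le_one (min_le_left _ _)⟩, ?_⟩
  have key : ∀ x : ℝ, pp x ≤ max 0 (min 1 (x / η)) * x + η := fun x => by
    rcases le_total x 0 with h3 | h3
    · rw [pp, max_eq_right h3, max_eq_left (min_le_of_right_le (div_nonpos_of_nonpos_of_nonneg h3
        h1.le)), zero_mul, zero_add]
      exact h1.le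
    rw [pp, max_eq_left h3]
    rcases le_total x η with h4 | h4
    · have := mul_nonneg (le_max_left 0 (min 1 (x / η))) h3
      linarith
    · rw [min_eq_left ((one_le_div h1).2 h4), max_eq_right zero_le_one]
      linarith
  have c1 : Continuous fun t => max 0 (min 1 (⟪ξ, g t⟫ / η)) • g t := hw.smul hg
  have c2 : Continuous fun t => max 0 (min 1 (⟪ξ, g t⟫ / η)) * ⟪ξ, g t⟫ := hw.mul hx
  have c3 : Continuous fun t => max 0 (min 1 (⟪ξ, g t⟫ / η)) * ⟪ξ, g t⟫ + η := c2.add_const η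
  rw [Ip, Iw, arc_inner_int c1]
  simp only [real_inner_smul_right]
  refine (intervalIntegral.integral_mono_on h ((arc_cont_pp.comp hx).intervalIntegrable a b)
    (c3.intervalIntegrable a b) fun t _ => key _).trans ?_
  rw [intervalIntegral.integral_add (c2.intervalIntegrable a b)
    (continuous_const.intervalIntegrable a b), intervalIntegral.integral_const, smul_eq_mul]
  linarith

theorem arc_cone (p q : E) {α β φ : ℝ} (h1 : α ≤ φ) (h2 : φ ≤ β) (h : β - α < π) :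
    ∃ s t : ℝ, 0 ≤ s ∧ 0 ≤ t ∧ arc p q φ = s • arc p q α + t • arc p q β := by
  rcases (h1.trans h2).eq_or_lt with h3 | h3
  · refine ⟨1, 0, zero_le_one, le_rfl, ?_⟩
    rw [one_smul, zero_smul, add_zero, le_antisymm h1 (h3 ▸ h2)]
  have h4 : 0 < sin (β - α) := sin_pos_of_pos_of_lt_pi (by linarith) h
  exact ⟨_, _, div_nonneg (sin_nonneg_of_nonneg_of_le_pi (by linarith) (by linarith)) h4.le,
    div_nonneg (sin_nonneg_of_nonneg_of_le_pi (by linarith) (by linarith)) h4.le,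
    arc_interp p q h4.ne' φ⟩

theorem arc_wt (p q : E) {α β a b T : ℝ} (h1 : α ≤ a) (h2 : a ≤ b) (h3 : b ≤ β) (h : β - α < π)
    (hT : tan ((β - α) / 2) ≤ T) {w : ℝ → ℝ} (hw : Wt w) :
    ∃ s t : ℝ, 0 ≤ s ∧ s ≤ T ∧ 0 ≤ t ∧ t ≤ T ∧
      Iw w (arc p q) a b = s • arc p q α + t • arc p q β := by
  rcases (h1.trans (h2.trans h3)).eq_or_lt with h4 | h4
  · rw [h4, sub_self, zero_div, tan_zero] at hT
    refine ⟨0, 0, le_rfl, hT, le_rfl, hT, ?_⟩
    rw [le_antisymm h2 (h3.trans (h4 ▸ h1)), Iw, intervalIntegral.integral_same, zero_smul,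
      zero_smul, add_zero]
  have h5 : 0 < sin (β - α) := sin_pos_of_pos_of_lt_pi (by linarith) h
  rw [arc_tan_half (by linarith) h] at hT
  have c1 : Continuous fun φ => sin (β - φ) / sin (β - α) := by fun_prop
  have c2 : Continuous fun φ => sin (φ - α) / sin (β - α) := by fun_prop
  obtain ⟨a1, a2⟩ := arc_wt_le hw c1 h2 fun t ht => div_nonneg
    (sin_nonneg_of_nonneg_of_le_pi (by linarith [ht.2]) (by linarith [ht.1])) h5.le
  obtain ⟨b1, b2⟩ := arc_wt_le hw c2 h2 fun t ht => div_nonneg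
    (sin_nonneg_of_nonneg_of_le_pi (by linarith [ht.1]) (by linarith [ht.2])) h5.le
  refine ⟨_, _, a1, a2.trans (le_trans ?_ hT), b1, b2.trans (le_trans ?_ hT), ?_⟩
  · rw [intervalIntegral.integral_div, intervalIntegral.integral_comp_sub_left, integral_sin]
    have := cos_le_cos_of_nonneg_of_le_pi (x := β - a) (y := β - α) (by linarith) h.le (by linarith)
    exact div_le_div_of_nonneg_right (by linarith [cos_le_one (β - b)]) h5.le
  · rw [intervalIntegral.integral_div, intervalIntegral.integral_comp_sub_right, integral_sin]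
    have := cos_le_cos_of_nonneg_of_le_pi (x := b - α) (y := β - α) (by linarith) h.le (by linarith)
    exact div_le_div_of_nonneg_right (by linarith [cos_le_one (a - α)]) h5.le
  · have c3 : Continuous fun φ => (w φ * (sin (β - φ) / sin (β - α))) • arc p q α :=
      (hw.cont.mul c1).smul continuous_const
    have c4 : Continuous fun φ => (w φ * (sin (φ - α) / sin (β - α))) • arc p q β :=
      (hw.cont.mul c2).smul continuous_const
    rw [← intervalIntegral.integral_smul_const, ← intervalIntegral.integral_smul_const,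
      ← intervalIntegral.integral_add (c3.intervalIntegrable a b) (c4.intervalIntegrable a b), Iw]
    refine intervalIntegral.integral_congr fun t _ => ?_
    rw [arc_interp p q h5.ne' t, smul_add, smul_smul, smul_smul]

theorem arc_dom (p q : E) {α β a b T : ℝ} (h1 : α ≤ a) (h2 : a ≤ b) (h3 : b ≤ β) (h : β - α < π)
    (hT : tan ((β - α) / 2) ≤ T) (ξ : E) :
    Ip (arc p q) a b ξ ≤ T * (pp ⟪ξ, arc p q α⟫ + pp ⟪ξ, arc p q β⟫) := by
  refine le_of_forall_pos_le_add fun ε hε => ?_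
  obtain ⟨w, hw, h4⟩ := arc_Ip_wt (continuous_arc p q) h2 ξ hε
  obtain ⟨s, t, a1, a2, a3, a4, a5⟩ := arc_wt p q h1 h2 h3 h hT hw
  rw [a5, inner_add_right, real_inner_smul_right, real_inner_smul_right] at h4
  have b1 := mul_le_pp (t := ⟪ξ, arc p q α⟫) a1 a2
  have b2 := mul_le_pp (t := ⟪ξ, arc p q β⟫) a3 a4
  rw [mul_add]
  linarith

theorem Ip_nonneg (g : ℝ → E) {a b : ℝ} (h : a ≤ b) (ξ : E) : 0 ≤ Ip g a b ξ := by
  exact intervalIntegral.integral_nonneg h fun t _ => pp_nonneg _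

theorem Ip_add {g : ℝ → E} (hg : Continuous g) (a b c : ℝ) (ξ : E) :
    Ip g a b ξ + Ip g b c ξ = Ip g a c ξ := by
  have h : Continuous fun t => pp ⟪ξ, g t⟫ := arc_cont_pp.comp (by fun_prop)
  exact intervalIntegral.integral_add_adjacent_intervals (h.intervalIntegrable a b)
    (h.intervalIntegrable b c)

theorem Iw_add {g : ℝ → E} (hg : Continuous g) {w : ℝ → ℝ} (hw : Wt w) (a b c : ℝ) :
    Iw w g a b + Iw w g b c = Iw w g a c := by
  have h := hw.cont.smul hg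
  exact intervalIntegral.integral_add_adjacent_intervals (h.intervalIntegrable a b)
    (h.intervalIntegrable b c)

theorem Ip_neg {g : ℝ → E} (hg : Continuous g) (a b : ℝ) (ξ : E) :
    Ip g a b ξ = Ip g a b (-ξ) + ⟪ξ, ∫ t in a..b, g t⟫ := by
  have h1 : Continuous fun t => ⟪ξ, g t⟫ := by fun_prop
  have h2 : Continuous fun t => pp ⟪-ξ, g t⟫ := arc_cont_pp.comp (by fun_prop)
  rw [arc_inner_int hg, Ip, Ip,
    ← intervalIntegral.integral_add (h2.intervalIntegrable a b) (h1.intervalIntegrable a b)]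
  refine intervalIntegral.integral_congr fun t _ => ?_
  simp only [inner_neg_left]
  exact pp_neg _

theorem Ip_exact {g : ℝ → E} (hg : Continuous g) {a b : ℝ} (h : a ≤ b) {ξ : E}
    (hp : ∀ t ∈ Icc a b, 0 ≤ ⟪ξ, g t⟫) : Ip g a b ξ = ⟪ξ, ∫ t in a..b, g t⟫ := by
  rw [arc_inner_int hg, Ip]
  refine intervalIntegral.integral_congr fun t ht => ?_
  rw [uIcc_of_le h] at ht
  exact max_eq_left (hp t ht)

theorem Ip_wt {g : ℝ → E} (hg : Continuous g) {a b : ℝ} (h : a ≤ b) (ξ : E) {ε : ℝ} (hε : 0 < ε) :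
    ∃ w, Wt w ∧ Ip g a b ξ ≤ ⟪ξ, Iw w g a b⟫ + ε := by
  exact arc_Ip_wt hg h ξ hε

/-- Reflection of the parameter. -/
theorem Ip_refl (g g' : ℝ → E) (ξ ξ' : E) (h : ∀ t, ⟪ξ', g' t⟫ = ⟪ξ, g (-t)⟫) (a : ℝ) :
    Ip g' 0 a ξ' = Ip g (-a) 0 ξ := by
  have := intervalIntegral.integral_comp_neg (a := 0) (b := a) fun t => pp ⟪ξ, g t⟫
  rw [neg_zero] at this
  rw [Ip, Ip, ← this]
  simp only [h]

/-- The chain lemma. -/
theorem chain {V g : ℝ → E} {a b : ℝ} (hab : a ≤ b) (hg : Continuous g)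
    (hV : ∀ t, HasDerivAt V (-g t) t) (ho : ∀ t ∈ Icc a b, ⟪V t, g t⟫ = 0)
    (hp : ∀ s ∈ Icc a b, ∀ t ∈ Icc a b, 0 ≤ ⟪g s, g t⟫) {G0 : E} (h0 : ‖G0‖ ≤ 1)
    (h1 : ∀ t ∈ Icc a b, 0 ≤ ⟪V b - G0, g t⟫) {w : ℝ → ℝ} (hw : Wt w) :
    ‖G0 + Iw w g a b‖ ≤ 1 := by
  have hc : Continuous fun t => w t • g t := hw.cont.smul hg
  have hG : ∀ t, HasDerivAt (fun s => G0 + Iw w g s b) (-(w t • g t)) t := fun t =>
    (intervalIntegral.integral_hasDerivAt_left (hc.intervalIntegrable t b)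
      (hc.stronglyMeasurableAtFilter _ _) hc.continuousAt).const_add G0
  have hn : ∀ t ∈ Icc a b, ⟪G0 + Iw w g t b, g t⟫ ≤ 0 := fun t ht => by
    have e1 := intervalIntegral.integral_eq_sub_of_hasDerivAt (a := t) (b := b)
      (fun s _ => hV s) (hg.neg.intervalIntegrable t b)
    rw [intervalIntegral.integral_neg] at e1
    have e2 : V t = V b + ∫ s in t..b, g s := by
      rw [← sub_eq_iff_eq_add', ← neg_sub, ← e1, neg_neg]
    have e3 := ho t ht
    have e4 := h1 t ht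
    have e5 := (arc_wt_le hw (u := fun s => ⟪g t, g s⟫) (by fun_prop) ht.2
      fun s hs => hp t ht s ⟨ht.1.trans hs.1, hs.2⟩).2
    rw [e2, inner_add_left, real_inner_comm (g t) (∫ s in t..b, g s), arc_inner_int hg] at e3
    rw [inner_sub_left] at e4
    rw [inner_add_left, real_inner_comm (g t) (Iw w g t b), Iw, arc_inner_int hc]
    simp only [real_inner_smul_right]
    linarith
  have hm : MonotoneOn (fun s => ‖G0 + Iw w g s b‖ ^ 2) (Icc a b) := by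
    refine monotoneOn_of_hasDerivWithinAt_nonneg (convex_Icc a b)
      (f' := fun t => 2 * ⟪G0 + Iw w g t b, -(w t • g t)⟫)
      (fun t _ => (hG t).norm_sq.continuousAt.continuousWithinAt)
      (fun t _ => (hG t).norm_sq.hasDerivWithinAt) fun t ht => ?_
    rw [inner_neg_right, real_inner_smul_right]
    have := mul_nonneg (hw.nn t) (neg_nonneg.2 (hn t (interior_subset ht)))
    linarith
  have h2 := hm ⟨le_rfl, hab⟩ ⟨hab, le_rfl⟩ hab
  simp only [Iw, intervalIntegral.integral_same, add_zero] at h2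
  exact (pow_le_pow_iff_left₀ (norm_nonneg _) (norm_nonneg _) two_ne_zero).1 h2 |>.trans h0

theorem arc_sin_le {x : ℝ} (h0 : 0 ≤ x) (h1 : x ≤ 1) : sin x ≤ x - x ^ 3 / 6 + x ^ 5 / 100 := by
  have h := sin_bound (x := x) (by rwa [abs_of_nonneg h0])
  rw [abs_of_nonneg h0] at h
  linarith [(abs_le.1 h).2]

theorem arc_cos_le {x : ℝ} (h0 : 0 ≤ x) (h1 : x ≤ 1) :
    cos x ≤ 1 - x ^ 2 / 2 + x ^ 4 * (5 / 96) := by
  have h := cos_bound (x := x) (by rwa [abs_of_nonneg h0])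
  rw [abs_of_nonneg h0] at h
  linarith [(abs_le.1 h).2]

theorem arc_le_arctan {x y : ℝ} (h0 : 0 ≤ x) (h1 : x ≤ 1) (h : sin x ≤ sin (arctan y)) :
    x ≤ arctan y :=
  (strictMonoOn_sin.le_iff_le ⟨by linarith [pi_gt_three], by linarith [pi_gt_three]⟩
    ⟨(neg_pi_div_two_lt_arctan y).le, (arctan_lt_pi_div_two y).le⟩).1 h

theorem arc_arctan_le {x y : ℝ} (h0 : 0 ≤ x) (h1 : x ≤ 1) (h : sin (arctan y) ≤ x - x ^ 3 / 6) :
    arctan y ≤ x :=
  (strictMonoOn_sin.le_iff_le ⟨(neg_pi_div_two_lt_arctan y).le, (arctan_lt_pi_div_two y).le⟩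
    ⟨by linarith [pi_gt_three], by linarith [pi_gt_three]⟩).1 (h.trans (sin_ge_sub_cube h0))

theorem arc_cs {y r : ℝ} (h0 : 0 ≤ r) (h : 1 + y ^ 2 = r ^ 2) :
    cos (arctan y) = 1 / r ∧ sin (arctan y) = y / r := by
  rw [cos_arctan, sin_arctan, h, sqrt_sq h0]
  exact ⟨rfl, rfl⟩

theorem tan_le_cubic {x : ℝ} (h0 : 0 ≤ x) (h1 : x ≤ 1 / 5) :
    tan x ≤ x + 7 / 20 * (x * (x * x)) := by
  have h2 := arc_sin_le h0 (by linarith)
  have h3 := one_sub_sq_div_two_le_cos (x := x)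
  have h4 : x ^ 2 ≤ 1 / 25 := by nlinarith
  have h5 : 0 ≤ x ^ 3 := by positivity
  have h6 : 0 ≤ x + 7 / 20 * (x * (x * x)) := by positivity
  rw [tan_eq_sin_div_cos, div_le_iff₀ (by linarith)]
  refine h2.trans (le_trans ?_ (mul_le_mul_of_nonneg_left h3 h6))
  nlinarith [mul_le_mul_of_nonneg_left h4 h5]

/-- The three auxiliary angles. -/
noncomputable def rho0 : ℝ := arctan (11 / 60)
noncomputable def Rb : ℝ := arctan (28 / 45)
noncomputable def Pb : ℝ := arctan (7 / 24)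

theorem rho0_spec : cos rho0 = 60 / 61 ∧ sin rho0 = 11 / 61 ∧ tan rho0 = 11 / 60 ∧
    1813 / 10000 ≤ rho0 ∧ rho0 ≤ 1815 / 10000 := by
  obtain ⟨h1, h2⟩ := arc_cs (y := 11 / 60) (r := 61 / 60) (by norm_num) (by norm_num)
  refine ⟨h1.trans (by norm_num), h2.trans (by norm_num), tan_arctan _,
    arc_le_arctan (by norm_num) (by norm_num)
      ((arc_sin_le (by norm_num) (by norm_num)).trans ?_),
    arc_arctan_le (by norm_num) (by norm_num) ?_⟩ <;> rw [h2] <;> norm_num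
theorem Rb_spec : cos Rb = 45 / 53 ∧ sin Rb = 28 / 53 ∧ tan ((Rb - rho0) / 2) ≤ 15 / 79 ∧
    5565 / 10000 ≤ Rb ∧ Rb ≤ 1 := by
  obtain ⟨h1, h2⟩ := arc_cs (y := 28 / 45) (r := 53 / 45) (by norm_num) (by norm_num)
  obtain ⟨a1, a2, -, a3, a4⟩ := rho0_spec
  have b1 : cos Rb = 45 / 53 := h1.trans (by norm_num)
  have b2 : sin Rb = 28 / 53 := h2.trans (by norm_num)
  have b3 : 5565 / 10000 ≤ Rb := by
    refine arc_le_arctan (by norm_num) (by norm_num) ?_
    have c1 := arc_sin_le (x := 5565 / 20000) (by norm_num) (by norm_num)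
    have c2 := arc_cos_le (x := 5565 / 20000) (by norm_num) (by norm_num)
    have c3 : 0 ≤ cos (5565 / 20000 : ℝ) := (cos_pos_of_le_one (by norm_num [abs_of_pos])).le
    have c4 := mul_le_mul c1 c2 c3 (by norm_num)
    rw [show (5565 / 10000 : ℝ) = 2 * (5565 / 20000) by norm_num, sin_two_mul, h2, mul_assoc]
    refine (mul_le_mul_of_nonneg_left c4 zero_le_two).trans ?_
    norm_num
  have b4 : Rb ≤ 1 := arc_arctan_le (by norm_num) (by norm_num) (by rw [h2]; norm_num)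
  refine ⟨b1, b2, le_of_eq ?_, b3, b4⟩
  rw [arc_tan_half (by linarith) (by linarith [pi_gt_three]), cos_sub, sin_sub, a1, a2, b1, b2]
  norm_num
theorem Pb_spec : cos Pb = 24 / 25 ∧ sin Pb = 7 / 25 ∧ tan Pb = 7 / 24 ∧
    2837 / 10000 ≤ Pb ∧ Pb ≤ 1 := by
  obtain ⟨h1, h2⟩ := arc_cs (y := 7 / 24) (r := 25 / 24) (by norm_num) (by norm_num)
  refine ⟨h1.trans (by norm_num), h2.trans (by norm_num), tan_arctan _,
    arc_le_arctan (by norm_num) (by norm_num)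
      ((arc_sin_le (by norm_num) (by norm_num)).trans ?_),
    arc_arctan_le (by norm_num) (by norm_num) ?_⟩ <;> rw [h2] <;> norm_num

end Pool.Agent.Lib.MP_ee7495_gt.Y
end
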