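import Mathlib
import Pool.Agent.Lib.MP_ee7495_gt.Y.TrA
import Pool.Agent.Lib.MP_ee7495_gt.Y.Sym

set_option autoImplicit false
set_option maxRecDepth 8000

open scoped RealInnerProductSpace
open Real Set

namespace Pool.Agent.Lib.MP_ee7495_gt.Y

/-- The input of the programs. -/
noncomputable def envI (z : Fin 9 → ℝ) (s k : ℝ) : List ℝ :=
  [z 0, z 1, z 2, z 3, z 4, z 5, z 6, z 7, z 8, s, k]

namespace Brge

section
variable {i j K : ℕ} {r : Pr} {ρ R : List ℝ}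

theorem st_add (a b v : ℝ) (ha : ρ.getD i 0 = a) (hb : ρ.getD j 0 = b) (hv : a + b = v)
    (h : r.runR (v :: ρ) = R) : (Pr.add i j r).runR ρ = R := by
  rw [← h, ← hv, ← ha, ← hb]; rfl

theorem st_sub (a b v : ℝ) (ha : ρ.getD i 0 = a) (hb : ρ.getD j 0 = b) (hv : a - b = v)
    (h : r.runR (v :: ρ) = R) : (Pr.sub i j r).runR ρ = R := by
  rw [← h, ← hv, ← ha, ← hb]; rfl

theorem st_mul (a b v : ℝ) (ha : ρ.getD i 0 = a) (hb : ρ.getD j 0 = b) (hv : a * b = v)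
    (h : r.runR (v :: ρ) = R) : (Pr.mul i j r).runR ρ = R := by
  rw [← h, ← hv, ← ha, ← hb]; rfl

theorem st_neg (a v : ℝ) (ha : ρ.getD i 0 = a) (hv : -a = v)
    (h : r.runR (v :: ρ) = R) : (Pr.neg i r).runR ρ = R := by
  rw [← h, ← hv, ← ha]; rfl

theorem st_inv (a v : ℝ) (ha : ρ.getD i 0 = a) (hv : a⁻¹ = v)
    (h : r.runR (v :: ρ) = R) : (Pr.inv i r).runR ρ = R := by
  rw [← h, ← hv, ← ha]; rfl

theorem st_sqrt (a v : ℝ) (ha : ρ.getD i 0 = a) (hv : √a = v)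
    (h : r.runR (v :: ρ) = R) : (Pr.sqrt i r).runR ρ = R := by
  rw [← h, ← hv, ← ha]; rfl

theorem st_addc (a v : ℝ) (ha : ρ.getD i 0 = a) (hv : a + val K = v)
    (h : r.runR (v :: ρ) = R) : (Pr.addc K i r).runR ρ = R := by
  rw [← h, ← hv, ← ha]; rfl

theorem st_smul (a v : ℝ) (ha : ρ.getD i 0 = a) (hv : val K * a = v)
    (h : r.runR (v :: ρ) = R) : (Pr.smul K i r).runR ρ = R := by
  rw [← h, ← hv, ← ha]; rfl

theorem st_cs (a c v : ℝ) (ha : ρ.getD i 0 = a) (hc : cos a = c) (hv : sin a = v)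
    (h : r.runR (v :: c :: ρ) = R) : (Pr.cs i r).runR ρ = R := by
  rw [← h, ← hv, ← hc, ← ha]; rfl

end

noncomputable def vyy (z : Fin 9 → ℝ) : ℝ := z 0 * z 0
noncomputable def va2 (z : Fin 9 → ℝ) : ℝ := vyy z + val 296300826683959672832
noncomputable def vnA (z : Fin 9 → ℝ) : ℝ := √(va2 z)
noncomputable def via (z : Fin 9 → ℝ) : ℝ := (vnA z)⁻¹
noncomputable def vce (z : Fin 9 → ℝ) : ℝ := cos (z 3)
noncomputable def vse (z : Fin 9 → ℝ) : ℝ := sin (z 3)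
noncomputable def vtz (z : Fin 9 → ℝ) : ℝ := vse z * via z
noncomputable def vty (z : Fin 9 → ℝ) : ℝ := vtz z * z 0
noncomputable def vsi (z : Fin 9 → ℝ) : ℝ := vce z * via z
noncomputable def vsy (z : Fin 9 → ℝ) : ℝ := vsi z * z 0
noncomputable def vAs (z : Fin 9 → ℝ) : ℝ := vnA z * vse z
noncomputable def vcr (z : Fin 9 → ℝ) : ℝ := cos (z 4)
noncomputable def vsr (z : Fin 9 → ℝ) : ℝ := sin (z 4)
noncomputable def vQx (z : Fin 9 → ℝ) : ℝ := vce z * vsr z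
noncomputable def vv1 (z : Fin 9 → ℝ) : ℝ := vcr z * vsi z
noncomputable def vQy (z : Fin 9 → ℝ) : ℝ := vty z + vv1 z
noncomputable def vv2 (z : Fin 9 → ℝ) : ℝ := vcr z * vsy z
noncomputable def vQz (z : Fin 9 → ℝ) : ℝ := vtz z - vv2 z
noncomputable def vco (z : Fin 9 → ℝ) : ℝ := cos (z 6)
noncomputable def vso (z : Fin 9 → ℝ) : ℝ := sin (z 6)
noncomputable def vcH (z : Fin 9 → ℝ) : ℝ := cos (z 7)
noncomputable def vsH (z : Fin 9 → ℝ) : ℝ := sin (z 7)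
noncomputable def vcc (z : Fin 9 → ℝ) : ℝ := cos (z 8)
noncomputable def vsc (z : Fin 9 → ℝ) : ℝ := sin (z 8)
noncomputable def vx (z : Fin 9 → ℝ) : ℝ := vsH z * vcc z
noncomputable def vn (z : Fin 9 → ℝ) : ℝ := vsH z * vsc z
noncomputable def vKy (z : Fin 9 → ℝ) : ℝ := vcH z * vso z
noncomputable def vKz (z : Fin 9 → ℝ) : ℝ := vcH z * vco z
noncomputable def vJy (z : Fin 9 → ℝ) : ℝ := vn z * vco z
noncomputable def vnz (z : Fin 9 → ℝ) : ℝ := vn z * vso z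
noncomputable def vEx (z : Fin 9 → ℝ) : ℝ := -vx z
noncomputable def vEy (z : Fin 9 → ℝ) : ℝ := vKy z - vJy z
noncomputable def vEz (z : Fin 9 → ℝ) : ℝ := vKz z + vnz z
noncomputable def vTy (z : Fin 9 → ℝ) : ℝ := vKy z + vJy z
noncomputable def vTz (z : Fin 9 → ℝ) : ℝ := vKz z - vnz z
noncomputable def vcx (z : Fin 9 → ℝ) : ℝ := -z 1
noncomputable def vt1 (z : Fin 9 → ℝ) : ℝ := vcx z * vEx z
noncomputable def vt2 (z : Fin 9 → ℝ) : ℝ := z 2 * vEy z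
noncomputable def vt3 (z : Fin 9 → ℝ) : ℝ := vt1 z + vt2 z
noncomputable def vka (z : Fin 9 → ℝ) : ℝ := vt3 z - vEz z
noncomputable def vt4 (z : Fin 9 → ℝ) : ℝ := vcx z * vcx z
noncomputable def vt5 (z : Fin 9 → ℝ) : ℝ := z 2 * z 2
noncomputable def vt6 (z : Fin 9 → ℝ) : ℝ := vt4 z + vt5 z
noncomputable def vr2 (z : Fin 9 → ℝ) : ℝ := vt6 z + val 296300826683959672832
noncomputable def vrho (z : Fin 9 → ℝ) : ℝ := √(vr2 z)
noncomputable def vir (z : Fin 9 → ℝ) : ℝ := (vrho z)⁻¹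
noncomputable def vir2 (z : Fin 9 → ℝ) : ℝ := vir z * vir z
noncomputable def vkk (z : Fin 9 → ℝ) : ℝ := vka z * vka z
noncomputable def vnu (z : Fin 9 → ℝ) : ℝ := vr2 z - vkk z
noncomputable def vnu1 (z : Fin 9 → ℝ) : ℝ := vnu z + val 293994983674745978880
noncomputable def vsg (z : Fin 9 → ℝ) : ℝ := √(vnu1 z)
noncomputable def vinu (z : Fin 9 → ℝ) : ℝ := (vnu z)⁻¹
noncomputable def vt7 (z : Fin 9 → ℝ) : ℝ := vka z * vEx z
noncomputable def vnx (z : Fin 9 → ℝ) : ℝ := vcx z - vt7 z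
noncomputable def vt8 (z : Fin 9 → ℝ) : ℝ := vka z * vEy z
noncomputable def vny (z : Fin 9 → ℝ) : ℝ := z 2 - vt8 z
noncomputable def vt9 (z : Fin 9 → ℝ) : ℝ := vka z * vEz z
noncomputable def vt10 (z : Fin 9 → ℝ) : ℝ := vt9 z + val 296300826683959672832
noncomputable def vnq (z : Fin 9 → ℝ) : ℝ := -vt10 z
noncomputable def vt11 (z : Fin 9 → ℝ) : ℝ := vEz z * z 2
noncomputable def vt12 (z : Fin 9 → ℝ) : ℝ := vEy z + vt11 z
noncomputable def vXx (z : Fin 9 → ℝ) : ℝ := -vt12 z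
noncomputable def vt13 (z : Fin 9 → ℝ) : ℝ := vEz z * vcx z
noncomputable def vXy (z : Fin 9 → ℝ) : ℝ := vt13 z + vEx z
noncomputable def vt14 (z : Fin 9 → ℝ) : ℝ := vEx z * z 2
noncomputable def vt15 (z : Fin 9 → ℝ) : ℝ := vEy z * vcx z
noncomputable def vXz (z : Fin 9 → ℝ) : ℝ := vt14 z - vt15 z
noncomputable def vsj (z : Fin 9 → ℝ) : ℝ := vsg z * vinu z
noncomputable def vu1x (z : Fin 9 → ℝ) : ℝ := vinu z * vXx z
noncomputable def vu2x (z : Fin 9 → ℝ) : ℝ := vsj z * vnx z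
noncomputable def vNx (z : Fin 9 → ℝ) : ℝ := vu1x z + vu2x z
noncomputable def vu1y (z : Fin 9 → ℝ) : ℝ := vinu z * vXy z
noncomputable def vu2y (z : Fin 9 → ℝ) : ℝ := vsj z * vny z
noncomputable def vNy (z : Fin 9 → ℝ) : ℝ := vu1y z + vu2y z
noncomputable def vu1z (z : Fin 9 → ℝ) : ℝ := vinu z * vXz z
noncomputable def vu2z (z : Fin 9 → ℝ) : ℝ := vsj z * vnq z
noncomputable def vNz (z : Fin 9 → ℝ) : ℝ := vu1z z + vu2z z
noncomputable def vdl (z : Fin 9 → ℝ) : ℝ := z 5 * vir z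
noncomputable def vcd (z : Fin 9 → ℝ) : ℝ := cos (vdl z)
noncomputable def vsd (z : Fin 9 → ℝ) : ℝ := sin (vdl z)
noncomputable def vu3x (z : Fin 9 → ℝ) : ℝ := vcd z * vEx z
noncomputable def vu4x (z : Fin 9 → ℝ) : ℝ := vsd z * vNx z
noncomputable def vYx (z : Fin 9 → ℝ) : ℝ := vu3x z - vu4x z
noncomputable def vu3y (z : Fin 9 → ℝ) : ℝ := vcd z * vEy z
noncomputable def vu4y (z : Fin 9 → ℝ) : ℝ := vsd z * vNy z
noncomputable def vYy (z : Fin 9 → ℝ) : ℝ := vu3y z - vu4y z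
noncomputable def vu3z (z : Fin 9 → ℝ) : ℝ := vcd z * vEz z
noncomputable def vu4z (z : Fin 9 → ℝ) : ℝ := vsd z * vNz z
noncomputable def vYz (z : Fin 9 → ℝ) : ℝ := vu3z z - vu4z z
noncomputable def vcD (z : Fin 9 → ℝ) : ℝ := cos (z 5)
noncomputable def vsD (z : Fin 9 → ℝ) : ℝ := sin (z 5)
noncomputable def vsq (z : Fin 9 → ℝ) : ℝ := vsD z * vir z
noncomputable def vmc (z : Fin 9 → ℝ) : ℝ := -vcD z
noncomputable def voc (z : Fin 9 → ℝ) : ℝ := vmc z + val 296300826683959672832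
noncomputable def voi (z : Fin 9 → ℝ) : ℝ := voc z * vir2 z
noncomputable def vt21 (z : Fin 9 → ℝ) : ℝ := vcx z * vYx z
noncomputable def vt22 (z : Fin 9 → ℝ) : ℝ := z 2 * vYy z
noncomputable def vt23 (z : Fin 9 → ℝ) : ℝ := vt21 z + vt22 z
noncomputable def vt24 (z : Fin 9 → ℝ) : ℝ := vt23 z - vYz z
noncomputable def vcY (z : Fin 9 → ℝ) : ℝ := vt24 z * voi z
noncomputable def vTAa (z : Fin 9 → ℝ) : ℝ := z 2 * vYz z
noncomputable def vTARx (z : Fin 9 → ℝ) : ℝ := vTAa z + vYy z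
noncomputable def vTAb (z : Fin 9 → ℝ) : ℝ := vcx z * vYz z
noncomputable def vTAc (z : Fin 9 → ℝ) : ℝ := vYx z + vTAb z
noncomputable def vTARy (z : Fin 9 → ℝ) : ℝ := -vTAc z
noncomputable def vTAd (z : Fin 9 → ℝ) : ℝ := vcx z * vYy z
noncomputable def vTAe (z : Fin 9 → ℝ) : ℝ := z 2 * vYx z
noncomputable def vTARz (z : Fin 9 → ℝ) : ℝ := vTAd z - vTAe z
noncomputable def vTAfx (z : Fin 9 → ℝ) : ℝ := vcD z * vYx z
noncomputable def vTAgx (z : Fin 9 → ℝ) : ℝ := vsq z * vTARx z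
noncomputable def vTAhx (z : Fin 9 → ℝ) : ℝ := vTAfx z - vTAgx z
noncomputable def vTAfy (z : Fin 9 → ℝ) : ℝ := vcD z * vYy z
noncomputable def vTAgy (z : Fin 9 → ℝ) : ℝ := vsq z * vTARy z
noncomputable def vTAhy (z : Fin 9 → ℝ) : ℝ := vTAfy z - vTAgy z
noncomputable def vTAfz (z : Fin 9 → ℝ) : ℝ := vcD z * vYz z
noncomputable def vTAgz (z : Fin 9 → ℝ) : ℝ := vsq z * vTARz z
noncomputable def vTAhz (z : Fin 9 → ℝ) : ℝ := vTAfz z - vTAgz z
noncomputable def vTAi (z : Fin 9 → ℝ) : ℝ := vcY z * vcx z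
noncomputable def vTAx (z : Fin 9 → ℝ) : ℝ := vTAhx z + vTAi z
noncomputable def vTAj (z : Fin 9 → ℝ) : ℝ := vcY z * z 2
noncomputable def vTAy (z : Fin 9 → ℝ) : ℝ := vTAhy z + vTAj z
noncomputable def vTAz (z : Fin 9 → ℝ) : ℝ := vTAhz z - vcY z
noncomputable def vwx (z : Fin 9 → ℝ) : ℝ := vQx z - vx z
noncomputable def vwy (z : Fin 9 → ℝ) : ℝ := vQy z - vTy z
noncomputable def vwz (z : Fin 9 → ℝ) : ℝ := vQz z - vTz z
noncomputable def vl1 (z : Fin 9 → ℝ) : ℝ := vce z * z 4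
noncomputable def vl2 (z : Fin 9 → ℝ) : ℝ := z 8 * vsH z
noncomputable def vl3 (z : Fin 9 → ℝ) : ℝ := vcx z * vwx z
noncomputable def vl4 (z : Fin 9 → ℝ) : ℝ := z 2 * vwy z
noncomputable def vl5 (z : Fin 9 → ℝ) : ℝ := z 0 * vTAy z
noncomputable def vl6 (z : Fin 9 → ℝ) : ℝ := z 0 * vKy z
noncomputable def vl7 (z : Fin 9 → ℝ) : ℝ := vl1 z + vl2 z
noncomputable def vl8 (z : Fin 9 → ℝ) : ℝ := vl3 z + vl4 z
noncomputable def vl9 (z : Fin 9 → ℝ) : ℝ := vl8 z - vwz z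
noncomputable def vaT (z : Fin 9 → ℝ) : ℝ := vl5 z + vTAz z
noncomputable def vl11 (z : Fin 9 → ℝ) : ℝ := vl7 z + vl9 z
noncomputable def vl12 (z : Fin 9 → ℝ) : ℝ := vl11 z + vaT z
noncomputable def vl13 (z : Fin 9 → ℝ) : ℝ := vl6 z + vKz z
noncomputable def vl14 (z : Fin 9 → ℝ) : ℝ := vl12 z - vl13 z
noncomputable def vl15 (z : Fin 9 → ℝ) : ℝ := vl14 z + vl14 z
noncomputable def vL (z : Fin 9 → ℝ) : ℝ := vl15 z + vAs z
noncomputable def vm1 (z : Fin 9 → ℝ) : ℝ := vQx z + vTAx z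
noncomputable def vm2 (z : Fin 9 → ℝ) : ℝ := vKy z + vKy z
noncomputable def vm3 (z : Fin 9 → ℝ) : ℝ := vm2 z - vQy z
noncomputable def vm4 (z : Fin 9 → ℝ) : ℝ := vm3 z - vTAy z
noncomputable def vm5 (z : Fin 9 → ℝ) : ℝ := val 296084653901845889024 * vm1 z
noncomputable def vm6 (z : Fin 9 → ℝ) : ℝ := val 295796423525694177280 * vm4 z
noncomputable def vYn (z : Fin 9 → ℝ) : ℝ := vm5 z + vm6 z
noncomputable def vm7 (z : Fin 9 → ℝ) (s : ℝ) : ℝ := s * vYn z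
noncomputable def vm8 (z : Fin 9 → ℝ) (s : ℝ) : ℝ := vm7 z s + vm7 z s
noncomputable def vLT (z : Fin 9 → ℝ) (s : ℝ) : ℝ := vL z + vm8 z s
noncomputable def vu5x (z : Fin 9 → ℝ) : ℝ := vinu z * vnx z
noncomputable def vu6x (z : Fin 9 → ℝ) : ℝ := vsj z * vXx z
noncomputable def vuex (z : Fin 9 → ℝ) : ℝ := vu5x z - vu6x z
noncomputable def vu5y (z : Fin 9 → ℝ) : ℝ := vinu z * vny z
noncomputable def vu6y (z : Fin 9 → ℝ) : ℝ := vsj z * vXy z
noncomputable def vuey (z : Fin 9 → ℝ) : ℝ := vu5y z - vu6y z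
noncomputable def vu5z (z : Fin 9 → ℝ) : ℝ := vinu z * vnq z
noncomputable def vu6z (z : Fin 9 → ℝ) : ℝ := vsj z * vXz z
noncomputable def vuez (z : Fin 9 → ℝ) : ℝ := vu5z z - vu6z z
noncomputable def vusa (z : Fin 9 → ℝ) : ℝ := z 2 * vuez z
noncomputable def vusRx (z : Fin 9 → ℝ) : ℝ := vusa z + vuey z
noncomputable def vusb (z : Fin 9 → ℝ) : ℝ := vcx z * vuez z
noncomputable def vusc (z : Fin 9 → ℝ) : ℝ := vuex z + vusb z
noncomputable def vusRy (z : Fin 9 → ℝ) : ℝ := -vusc z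
noncomputable def vusd (z : Fin 9 → ℝ) : ℝ := vcx z * vuey z
noncomputable def vuse (z : Fin 9 → ℝ) : ℝ := z 2 * vuex z
noncomputable def vusRz (z : Fin 9 → ℝ) : ℝ := vusd z - vuse z
noncomputable def vusfx (z : Fin 9 → ℝ) : ℝ := vcD z * vuex z
noncomputable def vusgx (z : Fin 9 → ℝ) : ℝ := vsq z * vusRx z
noncomputable def vushx (z : Fin 9 → ℝ) : ℝ := vusfx z - vusgx z
noncomputable def vusfy (z : Fin 9 → ℝ) : ℝ := vcD z * vuey z
noncomputable def vusgy (z : Fin 9 → ℝ) : ℝ := vsq z * vusRy z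
noncomputable def vushy (z : Fin 9 → ℝ) : ℝ := vusfy z - vusgy z
noncomputable def vusfz (z : Fin 9 → ℝ) : ℝ := vcD z * vuez z
noncomputable def vusgz (z : Fin 9 → ℝ) : ℝ := vsq z * vusRz z
noncomputable def vushz (z : Fin 9 → ℝ) : ℝ := vusfz z - vusgz z
noncomputable def vusi (z : Fin 9 → ℝ) : ℝ := voi z * vcx z
noncomputable def vusx (z : Fin 9 → ℝ) : ℝ := vushx z + vusi z
noncomputable def vusj (z : Fin 9 → ℝ) : ℝ := voi z * z 2
noncomputable def vusy (z : Fin 9 → ℝ) : ℝ := vushy z + vusj z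
noncomputable def vusz (z : Fin 9 → ℝ) : ℝ := vushz z - voi z

noncomputable def envE (z : Fin 9 → ℝ) (s k : ℝ) : List ℝ :=
  vL z :: vl15 z :: vl14 z :: vl13 z :: vl12 z :: vl11 z :: vaT z :: vl9 z :: vl8 z :: vl7 z ::
  vl6 z :: vl5 z :: vl4 z :: vl3 z :: vl2 z :: vl1 z :: vwz z :: vwy z :: vwx z :: vTAz z ::
  vTAy z :: vTAj z :: vTAx z :: vTAi z :: vTAhz z :: vTAgz z :: vTAfz z :: vTAhy z :: vTAgy z ::
  vTAfy z :: vTAhx z :: vTAgx z :: vTAfx z :: vTARz z :: vTAe z :: vTAd z :: vTARy z :: vTAc z ::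
  vTAb z :: vTARx z :: vTAa z :: vcY z :: vt24 z :: vt23 z :: vt22 z :: vt21 z :: voi z ::
  voc z :: vmc z :: vsq z :: vsD z :: vcD z :: vYz z :: vu4z z :: vu3z z :: vYy z :: vu4y z ::
  vu3y z :: vYx z :: vu4x z :: vu3x z :: vsd z :: vcd z :: vdl z :: vNz z :: vu2z z :: vu1z z ::
  vNy z :: vu2y z :: vu1y z :: vNx z :: vu2x z :: vu1x z :: vsj z :: vXz z :: vt15 z :: vt14 z ::
  vXy z :: vt13 z :: vXx z :: vt12 z :: vt11 z :: vnq z :: vt10 z :: vt9 z :: vny z :: vt8 z ::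
  vnx z :: vt7 z :: vinu z :: vsg z :: vnu1 z :: vnu z :: vkk z :: vir2 z :: vir z :: vrho z ::
  vr2 z :: vt6 z :: vt5 z :: vt4 z :: vka z :: vt3 z :: vt2 z :: vt1 z :: vcx z :: vTz z ::
  vTy z :: vEz z :: vEy z :: vEx z :: vnz z :: vJy z :: vKz z :: vKy z :: vn z :: vx z ::
  vsc z :: vcc z :: vsH z :: vcH z :: vso z :: vco z :: vQz z :: vv2 z :: vQy z :: vv1 z ::
  vQx z :: vsr z :: vcr z :: vAs z :: vsy z :: vsi z :: vty z :: vtz z :: vse z :: vce z ::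
  via z :: vnA z :: va2 z :: vyy z :: envI z s k

theorem run_prE (z : Fin 9 → ℝ) (s k : ℝ) : prE.runR (envI z s k) = envE z s k := by
  unfold prE
  refine st_mul (z 0) (z 0) (vyy z) rfl rfl rfl ?_
  refine st_addc (vyy z) (va2 z) rfl rfl ?_
  refine st_sqrt (va2 z) (vnA z) rfl rfl ?_
  refine st_inv (vnA z) (via z) rfl rfl ?_
  refine st_cs (z 3) (vce z) (vse z) rfl rfl rfl ?_
  refine st_mul (vse z) (via z) (vtz z) rfl rfl rfl ?_
  refine st_mul (vtz z) (z 0) (vty z) rfl rfl rfl ?_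
  refine st_mul (vce z) (via z) (vsi z) rfl rfl rfl ?_
  refine st_mul (vsi z) (z 0) (vsy z) rfl rfl rfl ?_
  refine st_mul (vnA z) (vse z) (vAs z) rfl rfl rfl ?_
  refine st_cs (z 4) (vcr z) (vsr z) rfl rfl rfl ?_
  refine st_mul (vce z) (vsr z) (vQx z) rfl rfl rfl ?_
  refine st_mul (vcr z) (vsi z) (vv1 z) rfl rfl rfl ?_
  refine st_add (vty z) (vv1 z) (vQy z) rfl rfl rfl ?_
  refine st_mul (vcr z) (vsy z) (vv2 z) rfl rfl rfl ?_
  refine st_sub (vtz z) (vv2 z) (vQz z) rfl rfl rfl ?_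
  refine st_cs (z 6) (vco z) (vso z) rfl rfl rfl ?_
  refine st_cs (z 7) (vcH z) (vsH z) rfl rfl rfl ?_
  refine st_cs (z 8) (vcc z) (vsc z) rfl rfl rfl ?_
  refine st_mul (vsH z) (vcc z) (vx z) rfl rfl rfl ?_
  refine st_mul (vsH z) (vsc z) (vn z) rfl rfl rfl ?_
  refine st_mul (vcH z) (vso z) (vKy z) rfl rfl rfl ?_
  refine st_mul (vcH z) (vco z) (vKz z) rfl rfl rfl ?_
  refine st_mul (vn z) (vco z) (vJy z) rfl rfl rfl ?_
  refine st_mul (vn z) (vso z) (vnz z) rfl rfl rfl ?_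
  refine st_neg (vx z) (vEx z) rfl rfl ?_
  refine st_sub (vKy z) (vJy z) (vEy z) rfl rfl rfl ?_
  refine st_add (vKz z) (vnz z) (vEz z) rfl rfl rfl ?_
  refine st_add (vKy z) (vJy z) (vTy z) rfl rfl rfl ?_
  refine st_sub (vKz z) (vnz z) (vTz z) rfl rfl rfl ?_
  refine st_neg (z 1) (vcx z) rfl rfl ?_
  refine st_mul (vcx z) (vEx z) (vt1 z) rfl rfl rfl ?_
  refine st_mul (z 2) (vEy z) (vt2 z) rfl rfl rfl ?_
  refine st_add (vt1 z) (vt2 z) (vt3 z) rfl rfl rfl ?_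
  refine st_sub (vt3 z) (vEz z) (vka z) rfl rfl rfl ?_
  refine st_mul (vcx z) (vcx z) (vt4 z) rfl rfl rfl ?_
  refine st_mul (z 2) (z 2) (vt5 z) rfl rfl rfl ?_
  refine st_add (vt4 z) (vt5 z) (vt6 z) rfl rfl rfl ?_
  refine st_addc (vt6 z) (vr2 z) rfl rfl ?_
  refine st_sqrt (vr2 z) (vrho z) rfl rfl ?_
  refine st_inv (vrho z) (vir z) rfl rfl ?_
  refine st_mul (vir z) (vir z) (vir2 z) rfl rfl rfl ?_
  refine st_mul (vka z) (vka z) (vkk z) rfl rfl rfl ?_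
  refine st_sub (vr2 z) (vkk z) (vnu z) rfl rfl rfl ?_
  refine st_addc (vnu z) (vnu1 z) rfl rfl ?_
  refine st_sqrt (vnu1 z) (vsg z) rfl rfl ?_
  refine st_inv (vnu z) (vinu z) rfl rfl ?_
  refine st_mul (vka z) (vEx z) (vt7 z) rfl rfl rfl ?_
  refine st_sub (vcx z) (vt7 z) (vnx z) rfl rfl rfl ?_
  refine st_mul (vka z) (vEy z) (vt8 z) rfl rfl rfl ?_
  refine st_sub (z 2) (vt8 z) (vny z) rfl rfl rfl ?_
  refine st_mul (vka z) (vEz z) (vt9 z) rfl rfl rfl ?_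
  refine st_addc (vt9 z) (vt10 z) rfl rfl ?_
  refine st_neg (vt10 z) (vnq z) rfl rfl ?_
  refine st_mul (vEz z) (z 2) (vt11 z) rfl rfl rfl ?_
  refine st_add (vEy z) (vt11 z) (vt12 z) rfl rfl rfl ?_
  refine st_neg (vt12 z) (vXx z) rfl rfl ?_
  refine st_mul (vEz z) (vcx z) (vt13 z) rfl rfl rfl ?_
  refine st_add (vt13 z) (vEx z) (vXy z) rfl rfl rfl ?_
  refine st_mul (vEx z) (z 2) (vt14 z) rfl rfl rfl ?_
  refine st_mul (vEy z) (vcx z) (vt15 z) rfl rfl rfl ?_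
  refine st_sub (vt14 z) (vt15 z) (vXz z) rfl rfl rfl ?_
  refine st_mul (vsg z) (vinu z) (vsj z) rfl rfl rfl ?_
  refine st_mul (vinu z) (vXx z) (vu1x z) rfl rfl rfl ?_
  refine st_mul (vsj z) (vnx z) (vu2x z) rfl rfl rfl ?_
  refine st_add (vu1x z) (vu2x z) (vNx z) rfl rfl rfl ?_
  refine st_mul (vinu z) (vXy z) (vu1y z) rfl rfl rfl ?_
  refine st_mul (vsj z) (vny z) (vu2y z) rfl rfl rfl ?_
  refine st_add (vu1y z) (vu2y z) (vNy z) rfl rfl rfl ?_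
  refine st_mul (vinu z) (vXz z) (vu1z z) rfl rfl rfl ?_
  refine st_mul (vsj z) (vnq z) (vu2z z) rfl rfl rfl ?_
  refine st_add (vu1z z) (vu2z z) (vNz z) rfl rfl rfl ?_
  refine st_mul (z 5) (vir z) (vdl z) rfl rfl rfl ?_
  refine st_cs (vdl z) (vcd z) (vsd z) rfl rfl rfl ?_
  refine st_mul (vcd z) (vEx z) (vu3x z) rfl rfl rfl ?_
  refine st_mul (vsd z) (vNx z) (vu4x z) rfl rfl rfl ?_
  refine st_sub (vu3x z) (vu4x z) (vYx z) rfl rfl rfl ?_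
  refine st_mul (vcd z) (vEy z) (vu3y z) rfl rfl rfl ?_
  refine st_mul (vsd z) (vNy z) (vu4y z) rfl rfl rfl ?_
  refine st_sub (vu3y z) (vu4y z) (vYy z) rfl rfl rfl ?_
  refine st_mul (vcd z) (vEz z) (vu3z z) rfl rfl rfl ?_
  refine st_mul (vsd z) (vNz z) (vu4z z) rfl rfl rfl ?_
  refine st_sub (vu3z z) (vu4z z) (vYz z) rfl rfl rfl ?_
  refine st_cs (z 5) (vcD z) (vsD z) rfl rfl rfl ?_
  refine st_mul (vsD z) (vir z) (vsq z) rfl rfl rfl ?_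
  refine st_neg (vcD z) (vmc z) rfl rfl ?_
  refine st_addc (vmc z) (voc z) rfl rfl ?_
  refine st_mul (voc z) (vir2 z) (voi z) rfl rfl rfl ?_
  refine st_mul (vcx z) (vYx z) (vt21 z) rfl rfl rfl ?_
  refine st_mul (z 2) (vYy z) (vt22 z) rfl rfl rfl ?_
  refine st_add (vt21 z) (vt22 z) (vt23 z) rfl rfl rfl ?_
  refine st_sub (vt23 z) (vYz z) (vt24 z) rfl rfl rfl ?_
  refine st_mul (vt24 z) (voi z) (vcY z) rfl rfl rfl ?_
  refine st_mul (z 2) (vYz z) (vTAa z) rfl rfl rfl ?_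
  refine st_add (vTAa z) (vYy z) (vTARx z) rfl rfl rfl ?_
  refine st_mul (vcx z) (vYz z) (vTAb z) rfl rfl rfl ?_
  refine st_add (vYx z) (vTAb z) (vTAc z) rfl rfl rfl ?_
  refine st_neg (vTAc z) (vTARy z) rfl rfl ?_
  refine st_mul (vcx z) (vYy z) (vTAd z) rfl rfl rfl ?_
  refine st_mul (z 2) (vYx z) (vTAe z) rfl rfl rfl ?_
  refine st_sub (vTAd z) (vTAe z) (vTARz z) rfl rfl rfl ?_
  refine st_mul (vcD z) (vYx z) (vTAfx z) rfl rfl rfl ?_
  refine st_mul (vsq z) (vTARx z) (vTAgx z) rfl rfl rfl ?_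
  refine st_sub (vTAfx z) (vTAgx z) (vTAhx z) rfl rfl rfl ?_
  refine st_mul (vcD z) (vYy z) (vTAfy z) rfl rfl rfl ?_
  refine st_mul (vsq z) (vTARy z) (vTAgy z) rfl rfl rfl ?_
  refine st_sub (vTAfy z) (vTAgy z) (vTAhy z) rfl rfl rfl ?_
  refine st_mul (vcD z) (vYz z) (vTAfz z) rfl rfl rfl ?_
  refine st_mul (vsq z) (vTARz z) (vTAgz z) rfl rfl rfl ?_
  refine st_sub (vTAfz z) (vTAgz z) (vTAhz z) rfl rfl rfl ?_
  refine st_mul (vcY z) (vcx z) (vTAi z) rfl rfl rfl ?_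
  refine st_add (vTAhx z) (vTAi z) (vTAx z) rfl rfl rfl ?_
  refine st_mul (vcY z) (z 2) (vTAj z) rfl rfl rfl ?_
  refine st_add (vTAhy z) (vTAj z) (vTAy z) rfl rfl rfl ?_
  refine st_sub (vTAhz z) (vcY z) (vTAz z) rfl rfl rfl ?_
  refine st_sub (vQx z) (vx z) (vwx z) rfl rfl rfl ?_
  refine st_sub (vQy z) (vTy z) (vwy z) rfl rfl rfl ?_
  refine st_sub (vQz z) (vTz z) (vwz z) rfl rfl rfl ?_
  refine st_mul (vce z) (z 4) (vl1 z) rfl rfl rfl ?_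
  refine st_mul (z 8) (vsH z) (vl2 z) rfl rfl rfl ?_
  refine st_mul (vcx z) (vwx z) (vl3 z) rfl rfl rfl ?_
  refine st_mul (z 2) (vwy z) (vl4 z) rfl rfl rfl ?_
  refine st_mul (z 0) (vTAy z) (vl5 z) rfl rfl rfl ?_
  refine st_mul (z 0) (vKy z) (vl6 z) rfl rfl rfl ?_
  refine st_add (vl1 z) (vl2 z) (vl7 z) rfl rfl rfl ?_
  refine st_add (vl3 z) (vl4 z) (vl8 z) rfl rfl rfl ?_
  refine st_sub (vl8 z) (vwz z) (vl9 z) rfl rfl rfl ?_
  refine st_add (vl5 z) (vTAz z) (vaT z) rfl rfl rfl ?_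
  refine st_add (vl7 z) (vl9 z) (vl11 z) rfl rfl rfl ?_
  refine st_add (vl11 z) (vaT z) (vl12 z) rfl rfl rfl ?_
  refine st_add (vl6 z) (vKz z) (vl13 z) rfl rfl rfl ?_
  refine st_sub (vl12 z) (vl13 z) (vl14 z) rfl rfl rfl ?_
  refine st_add (vl14 z) (vl14 z) (vl15 z) rfl rfl rfl ?_
  refine st_add (vl15 z) (vAs z) (vL z) rfl rfl rfl ?_
  rfl

noncomputable def envL (z : Fin 9 → ℝ) (s k : ℝ) : List ℝ :=
  vLT z s :: vm8 z s :: vm7 z s :: vYn z :: vm6 z :: vm5 z :: vm4 z :: vm3 z :: vm2 z :: vm1 z :: envE z s k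

theorem run_prL (z : Fin 9 → ℝ) (s k : ℝ) : prL.runR (envE z s k) = envL z s k := by
  unfold prL
  refine st_add (vQx z) (vTAx z) (vm1 z) rfl rfl rfl ?_
  refine st_add (vKy z) (vKy z) (vm2 z) rfl rfl rfl ?_
  refine st_sub (vm2 z) (vQy z) (vm3 z) rfl rfl rfl ?_
  refine st_sub (vm3 z) (vTAy z) (vm4 z) rfl rfl rfl ?_
  refine st_smul (vm1 z) (vm5 z) rfl rfl ?_
  refine st_smul (vm4 z) (vm6 z) rfl rfl ?_
  refine st_add (vm5 z) (vm6 z) (vYn z) rfl rfl rfl ?_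
  refine st_mul s (vYn z) (vm7 z s) rfl rfl rfl ?_
  refine st_add (vm7 z s) (vm7 z s) (vm8 z s) rfl rfl rfl ?_
  refine st_add (vL z) (vm8 z s) (vLT z s) rfl rfl rfl ?_
  rfl

noncomputable def envU (z : Fin 9 → ℝ) (s k : ℝ) : List ℝ :=
  vusz z :: vusy z :: vusj z :: vusx z :: vusi z :: vushz z :: vusgz z :: vusfz z :: vushy z ::
  vusgy z :: vusfy z :: vushx z :: vusgx z :: vusfx z :: vusRz z :: vuse z :: vusd z ::
  vusRy z :: vusc z :: vusb z :: vusRx z :: vusa z :: vuez z :: vu6z z :: vu5z z :: vuey z ::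
  vu6y z :: vu5y z :: vuex z :: vu6x z :: vu5x z :: envL z s k

theorem run_prU (z : Fin 9 → ℝ) (s k : ℝ) : prU.runR (envL z s k) = envU z s k := by
  unfold prU
  refine st_mul (vinu z) (vnx z) (vu5x z) rfl rfl rfl ?_
  refine st_mul (vsj z) (vXx z) (vu6x z) rfl rfl rfl ?_
  refine st_sub (vu5x z) (vu6x z) (vuex z) rfl rfl rfl ?_
  refine st_mul (vinu z) (vny z) (vu5y z) rfl rfl rfl ?_
  refine st_mul (vsj z) (vXy z) (vu6y z) rfl rfl rfl ?_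
  refine st_sub (vu5y z) (vu6y z) (vuey z) rfl rfl rfl ?_
  refine st_mul (vinu z) (vnq z) (vu5z z) rfl rfl rfl ?_
  refine st_mul (vsj z) (vXz z) (vu6z z) rfl rfl rfl ?_
  refine st_sub (vu5z z) (vu6z z) (vuez z) rfl rfl rfl ?_
  refine st_mul (z 2) (vuez z) (vusa z) rfl rfl rfl ?_
  refine st_add (vusa z) (vuey z) (vusRx z) rfl rfl rfl ?_
  refine st_mul (vcx z) (vuez z) (vusb z) rfl rfl rfl ?_
  refine st_add (vuex z) (vusb z) (vusc z) rfl rfl rfl ?_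
  refine st_neg (vusc z) (vusRy z) rfl rfl ?_
  refine st_mul (vcx z) (vuey z) (vusd z) rfl rfl rfl ?_
  refine st_mul (z 2) (vuex z) (vuse z) rfl rfl rfl ?_
  refine st_sub (vusd z) (vuse z) (vusRz z) rfl rfl rfl ?_
  refine st_mul (vcD z) (vuex z) (vusfx z) rfl rfl rfl ?_
  refine st_mul (vsq z) (vusRx z) (vusgx z) rfl rfl rfl ?_
  refine st_sub (vusfx z) (vusgx z) (vushx z) rfl rfl rfl ?_
  refine st_mul (vcD z) (vuey z) (vusfy z) rfl rfl rfl ?_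
  refine st_mul (vsq z) (vusRy z) (vusgy z) rfl rfl rfl ?_
  refine st_sub (vusfy z) (vusgy z) (vushy z) rfl rfl rfl ?_
  refine st_mul (vcD z) (vuez z) (vusfz z) rfl rfl rfl ?_
  refine st_mul (vsq z) (vusRz z) (vusgz z) rfl rfl rfl ?_
  refine st_sub (vusfz z) (vusgz z) (vushz z) rfl rfl rfl ?_
  refine st_mul (voi z) (vcx z) (vusi z) rfl rfl rfl ?_
  refine st_add (vushx z) (vusi z) (vusx z) rfl rfl rfl ?_
  refine st_mul (voi z) (z 2) (vusj z) rfl rfl rfl ?_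
  refine st_add (vushy z) (vusj z) (vusy z) rfl rfl rfl ?_
  refine st_sub (vushz z) (voi z) (vusz z) rfl rfl rfl ?_
  rfl

theorem run_pick (z : Fin 9 → ℝ) (s k : ℝ) : pickR (envU z s k) pk =
    [z 0, z 3, z 6, z 7, z 4, z 8, z 5, k, vce z, vsi z, vsy z, vAs z, vcr z, vsr z, vco z,
      vso z, vsH z, vcc z, vsc z, vKy z, vKz z, vcx z, z 2, vka z, vir z, vir2 z, vnu z, vsg
      z, vaT z, vYn z, vQx z, vQy z, vQz z, vTAx z, vTAy z, vTAz z, vusx z, vusy z, vusz z,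
      vuex z, vuey z, vuez z] := rfl
theorem k1 : val 296300826683959672832 = 1 := by norm_num [val]
theorem k2 : val 293994983674745978880 = -1 := by norm_num [val]
theorem k3 : val 296084653901845889024 = 13 / 16 := by norm_num [val]
theorem k4 : val 295796423525694177280 = 9 / 16 := by norm_num [val]

variable (z : Fin 9 → ℝ)

theorem hC0 : zC z 0 = vcx z := rfl
theorem hC1 : zC z 1 = z 2 := rfl
theorem hC2 : zC z 2 = -1 := rfl

theorem hnA : ‖zA z‖ = vnA z := by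
  rw [norm3]
  unfold vnA va2 vyy zA
  rw [k1]
  congr 1
  simp only [vec_0, vec_1, vec_2]
  ring

theorem hP0 : zP z 0 = -vQx z := by
  unfold zP
  rw [hnA]
  simp only [PiLp.add_apply, PiLp.smul_apply, smul_eq_mul, zA, zI, zF, vec_0, vQx, vce, vsr]
  ring

theorem hP1 : zP z 1 = vQy z := by
  unfold zP
  rw [hnA]
  simp only [PiLp.add_apply, PiLp.smul_apply, smul_eq_mul, zA, zI, zF, vec_1, vQy, vty, vtz, vv1,
    vse, via, vcr, vsi, vce]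
  ring

theorem hP2 : zP z 2 = vQz z := by
  unfold zP
  rw [hnA]
  simp only [PiLp.add_apply, PiLp.smul_apply, smul_eq_mul, zA, zI, zF, vec_2, vQz, vtz, vv2, vsy,
    vse, via, vcr, vsi, vce]
  ring

theorem hQ0 : zQ z 0 = vQx z := by
  unfold zQ
  rw [mir_0, hP0, neg_neg]

theorem hQ1 : zQ z 1 = vQy z := hP1 z
theorem hQ2 : zQ z 2 = vQz z := hP2 z

theorem hE0 : zE z 0 = vEx z := by
  simp only [zE, PiLp.add_apply, PiLp.sub_apply, PiLp.smul_apply, smul_eq_mul, zK, zI, zJ, vec_0,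
    vEx, vx, vsH, vcc]
  ring

theorem hE1 : zE z 1 = vEy z := by
  simp only [zE, PiLp.add_apply, PiLp.sub_apply, PiLp.smul_apply, smul_eq_mul, zK, zI, zJ, vec_1,
    vEy, vKy, vJy, vn, vsH, vsc, vcH, vso, vco]
  ring

theorem hE2 : zE z 2 = vEz z := by
  simp only [zE, PiLp.add_apply, PiLp.sub_apply, PiLp.smul_apply, smul_eq_mul, zK, zI, zJ, vec_2,
    vEz, vKz, vnz, vn, vsH, vsc, vcH, vso, vco]
  ring

theorem hT0 : zT z 0 = -vx z := by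
  simp only [zT, PiLp.add_apply, PiLp.smul_apply, smul_eq_mul, zK, zI, zJ, vec_0, vx, vsH, vcc]
  ring

theorem hT1 : zT z 1 = vTy z := by
  simp only [zT, PiLp.add_apply, PiLp.smul_apply, smul_eq_mul, zK, zI, zJ, vec_1,
    vTy, vKy, vJy, vn, vsH, vsc, vcH, vso, vco]
  ring

theorem hT2 : zT z 2 = vTz z := by
  simp only [zT, PiLp.add_apply, PiLp.smul_apply, smul_eq_mul, zK, zI, zJ, vec_2,
    vTz, vKz, vnz, vn, vsH, vsc, vcH, vso, vco]
  ring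

theorem hEE : vEx z * vEx z + vEy z * vEy z + vEz z * vEz z = 1 := by
  simp only [vEx, vEy, vEz, vx, vKy, vJy, vKz, vnz, vn, vsH, vsc, vcH, vso, vco, vcc]
  have h6 := sin_sq_add_cos_sq (z 6)
  have h7 := sin_sq_add_cos_sq (z 7)
  have h8 := sin_sq_add_cos_sq (z 8)
  linear_combination (cos (z 7) ^ 2 + sin (z 7) ^ 2 * sin (z 8) ^ 2) * h6 + h7 +
    sin (z 7) ^ 2 * h8

theorem hka : ⟪zC z, zE z⟫ = vka z := by
  rw [inner3, hE0, hE1, hE2, hC0, hC1, hC2]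
  simp only [vka, vt3, vt1, vt2]
  ring

theorem hr2 : ‖zC z‖ ^ 2 = vr2 z := by
  rw [normsq3, hC0, hC1, hC2]
  simp only [vr2, vt6, vt4, vt5, k1]
  ring

theorem hrho : ‖zC z‖ = vrho z := by
  unfold vrho
  rw [← hr2, Real.sqrt_sq (norm_nonneg _)]

theorem hnu : ‖zC z‖ ^ 2 - ⟪zC z, zE z⟫ ^ 2 = vnu z := by
  rw [hr2, hka]
  simp only [vnu, vkk]
  ring

theorem hsg : √(‖zC z‖ ^ 2 - ⟪zC z, zE z⟫ ^ 2 - 1) = vsg z := by
  rw [hnu]
  unfold vsg vnu1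
  rw [k2, sub_eq_add_neg]

theorem hN0 : zN z 0 = vNx z := by
  unfold zN coneN
  rw [hsg, hnu, hka]
  simp only [PiLp.add_apply, PiLp.sub_apply, PiLp.smul_apply, smul_eq_mul, cross_0, hE0, hE1, hE2,
    hC0, hC1, hC2, vNx, vu1x, vu2x, vinu, vsj, vXx, vt12, vt11, vnx, vt7]
  ring

theorem hN1 : zN z 1 = vNy z := by
  unfold zN coneN
  rw [hsg, hnu, hka]
  simp only [PiLp.add_apply, PiLp.sub_apply, PiLp.smul_apply, smul_eq_mul, cross_1, hE0, hE1, hE2,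
    hC0, hC1, hC2, vNy, vu1y, vu2y, vinu, vsj, vXy, vt13, vny, vt8]
  ring

theorem hN2 : zN z 2 = vNz z := by
  unfold zN coneN
  rw [hsg, hnu, hka]
  simp only [PiLp.add_apply, PiLp.sub_apply, PiLp.smul_apply, smul_eq_mul, cross_2, hE0, hE1, hE2,
    hC0, hC1, hC2, vNz, vu1z, vu2z, vinu, vsj, vXz, vt14, vt15, vnq, vt10, vt9, k1]
  ring

theorem hrot0 (W : E) : rot (zC z) (-z 5) W 0 = vcD z * W 0 - vsq z * (z 2 * W 2 + W 1) +
    (vcx z * W 0 + z 2 * W 1 - W 2) * voi z * vcx z := by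
  unfold rot
  rw [hrho, inner3, cos_neg, sin_neg]
  simp only [PiLp.add_apply, PiLp.smul_apply, smul_eq_mul, cross_0, hC0, hC1, hC2, vcD, vsq, vsD,
    vir, voi, voc, vmc, vir2, k1]
  ring

theorem hrot1 (W : E) : rot (zC z) (-z 5) W 1 = vcD z * W 1 - vsq z * -(W 0 + vcx z * W 2) +
    (vcx z * W 0 + z 2 * W 1 - W 2) * voi z * z 2 := by
  unfold rot
  rw [hrho, inner3, cos_neg, sin_neg]
  simp only [PiLp.add_apply, PiLp.smul_apply, smul_eq_mul, cross_1, hC0, hC1, hC2, vcD, vsq, vsD,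
    vir, voi, voc, vmc, vir2, k1]
  ring

theorem hrot2 (W : E) : rot (zC z) (-z 5) W 2 = vcD z * W 2 - vsq z * (vcx z * W 1 - z 2 * W 0) -
    (vcx z * W 0 + z 2 * W 1 - W 2) * voi z := by
  unfold rot
  rw [hrho, inner3, cos_neg, sin_neg]
  simp only [PiLp.add_apply, PiLp.smul_apply, smul_eq_mul, cross_2, hC0, hC1, hC2, vcD, vsq, vsD,
    vir, voi, voc, vmc, vir2, k1]
  ring

theorem hTA : zTA z = rot (zC z) (-z 5) (vec (vYx z) (vYy z) (vYz z)) := by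
  unfold zTA zV coneV
  have e : z 5 / ‖zC z‖ = vdl z := by
    rw [hrho, div_eq_mul_inv]
    rfl
  rw [e]
  refine congrArg _ (ext3 ?_ ?_ ?_)
  · change cos (vdl z) * zE z 0 - sin (vdl z) * zN z 0 = _
    rw [hE0, hN0]
    rfl
  · change cos (vdl z) * zE z 1 - sin (vdl z) * zN z 1 = _
    rw [hE1, hN1]
    rfl
  · change cos (vdl z) * zE z 2 - sin (vdl z) * zN z 2 = _
    rw [hE2, hN2]
    rfl

theorem hTA0 : zTA z 0 = vTAx z := by
  rw [hTA, hrot0]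
  rfl

theorem hTA1 : zTA z 1 = vTAy z := by
  rw [hTA, hrot1]
  rfl

theorem hTA2 : zTA z 2 = vTAz z := by
  rw [hTA, hrot2]
  rfl

theorem haT : ⟪zA z, zTA z⟫ = vaT z := by
  rw [inner3, hTA1, hTA2]
  simp only [zA, vec_0, vec_1, vec_2, vaT, vl5]
  ring

theorem hL : ell z = vL z := by
  rw [ell_eq]
  change _ + 2 * ⟪zA z, zTA z⟫ - _ = _
  rw [haT, hnA, inner3, inner3]
  simp only [PiLp.sub_apply, hP0, hP1, hP2, hT0, hT1, hT2, zB, zA, zK, vec_0, vec_1, vec_2, vL,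
    vl15, vl14, vl13, vl12, vl11, vl9, vl8, vl7, vl6, vl4, vl3, vl2, vl1, vwx, vwy, vwz, vAs, vce,
    vse, vsH, vcx, vKy, vKz, vcH, vso, vco]
  ring

theorem hYn : Yn z = vYn z := by
  unfold Yn
  rw [hQ0, hQ1, hTA0, hTA1]
  simp only [zKv, zK, PiLp.smul_apply, smul_eq_mul, vec_1, vYn, vm5, vm6, vm1, vm4, vm3, vm2, k3,
    k4, vKy, vcH, vso]
  ring

theorem hU : cross (coneN (zC z) (zE z)) (zE z) = vec (vuex z) (vuey z) (vuez z) := by
  have h := hEE z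
  have hk : vka z = vcx z * vEx z + z 2 * vEy z - vEz z := rfl
  change cross (zN z) (zE z) = _
  refine ext3 ?_ ?_ ?_
  · simp only [cross_0, vec_0, hN1, hN2, hE1, hE2, vuex, vu5x, vu6x, vNy, vu1y, vu2y, vNz, vu1z,
      vu2z, vXx, vt12, vt11, vXy, vt13, vXz, vt14, vt15, vnx, vt7, vny, vt8, vnq, vt10, vt9, k1]
    rw [hk]
    linear_combination (vinu z * vcx z) * h
  · simp only [cross_1, vec_1, hN0, hN2, hE0, hE2, vuey, vu5y, vu6y, vNx, vu1x, vu2x, vNz, vu1z,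
      vu2z, vXx, vt12, vt11, vXy, vt13, vXz, vt14, vt15, vnx, vt7, vny, vt8, vnq, vt10, vt9, k1]
    rw [hk]
    linear_combination (vinu z * z 2) * h
  · simp only [cross_2, vec_2, hN0, hN1, hE0, hE1, vuez, vu5z, vu6z, vNx, vu1x, vu2x, vNy, vu1y,
      vu2y, vXx, vt12, vt11, vXy, vt13, vXz, vt14, vt15, vnx, vt7, vny, vt8, vnq, vt10, vt9, k1]
    rw [hk]
    linear_combination (-vinu z) * h

theorem hue : zU z 0 = vec (vuex z) (vuey z) (vuez z) := by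
  unfold zU
  rw [coneU_zero, hU]

theorem hcu (h : vnu z ≠ 0) : vcx z * vuex z + z 2 * vuey z - vuez z = 1 := by
  have h1 : vinu z * vnu z = 1 := inv_mul_cancel₀ h
  have hk : vka z = vcx z * vEx z + z 2 * vEy z - vEz z := rfl
  simp only [vnu, vr2, vt6, vt4, vt5, vkk, k1] at h1
  simp only [vuex, vu5x, vu6x, vuey, vu5y, vu6y, vuez, vu5z, vu6z, vXx, vt12, vt11, vXy, vt13, vXz,
    vt14, vt15, vnx, vt7, vny, vt8, vnq, vt10, vt9, k1]
  linear_combination h1 + (vinu z * vka z) * hk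

theorem hus (h : vnu z ≠ 0) : vec (vusx z) (vusy z) (vusz z) = zU z (z 5) := by
  have h1 := hcu z h
  unfold zU coneU
  rw [hU]
  refine ext3 ?_ ?_ ?_
  · rw [hrot0]
    simp only [vec_0, vec_1, vec_2]
    rw [h1, one_mul]
    rfl
  · rw [hrot1]
    simp only [vec_0, vec_1, vec_2]
    rw [h1, one_mul]
    rfl
  · rw [hrot2]
    simp only [vec_0, vec_1, vec_2]
    rw [h1, one_mul]
    rfl

end Brge

theorem prE_val (z : Fin 9 → ℝ) (s k : ℝ) : (prE.runR (envI z s k)).getD 0 0 = ell z := by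
  rw [Brge.run_prE, Brge.hL]
  rfl

theorem prL_val (z : Fin 9 → ℝ) (s k : ℝ) :
    (prL.runR (prE.runR (envI z s k))).getD 0 0 = ell z + 2 * s * Yn z := by
  rw [Brge.run_prE, Brge.run_prL, Brge.hL, Brge.hYn]
  change Brge.vL z + (s * Brge.vYn z + s * Brge.vYn z) = _
  ring

/-- The programs compute the data of one side; the end `us` of the arc is right as soon as the
cone is not degenerate. -/
theorem pick_val (z : Fin 9 → ℝ) (s k : ℝ) : ∃ u : E,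
    pickR (prU.runR (prL.runR (prE.runR (envI z s k)))) pk =
      ({ sdOf z k with us := u } : Sd).list ∧ ((sdOf z k).nu ≠ 0 → u = (sdOf z k).us) := by
  refine ⟨vec (Brge.vusx z) (Brge.vusy z) (Brge.vusz z), ?_, fun h => Brge.hus z ?_⟩
  · rw [Brge.run_prE, Brge.run_prL, Brge.run_prU, Brge.run_pick]
    simp only [Sd.list, sdOf]
    rw [Brge.hsg, Brge.hnu, Brge.hka, Brge.haT, Brge.hnA, Brge.hrho, Brge.hYn, Brge.hQ0, Brge.hQ1,
      Brge.hQ2, Brge.hTA0, Brge.hTA1, Brge.hTA2, Brge.hue, div_eq_mul_inv]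
    rfl
  · rw [← Brge.hnu]
    exact h

end Pool.Agent.Lib.MP_ee7495_gt.Y
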