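import Mathlib
import Pool.Agent.Lib.MP_ee7495_gt.Y.TMb
import Pool.Agent.Lib.MP_ee7495_gt.Y.Sym
import Pool.Agent.Lib.MP_ee7495_gt.Y.TrA

-- part Pool.Agent.Lib.MP_ee7495_gt.Y.TMd
section

set_option autoImplicit false

namespace Pool.Agent.Lib.MP_ee7495_gt.Y

theorem tmd_floor (n d : ℕ) (hd : 0 < d) :
    (n : ℝ) / d - 1 < ((n / d : ℕ) : ℝ) ∧ ((n / d : ℕ) : ℝ) ≤ (n : ℝ) / d := by
  refine ⟨?_, Nat.cast_div_le⟩
  have h := Nat.lt_mul_div_succ n hd
  have h' : (n : ℝ) < d * (((n / d : ℕ) : ℝ) + 1) := by exact_mod_cast h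
  have hd' : (0 : ℝ) < d := by exact_mod_cast hd
  rw [sub_lt_iff_lt_add, div_lt_iff₀ hd']
  linarith

theorem tmd_mag_nonneg (x : ℕ) : 0 ≤ mag x := by unfold mag; positivity

theorem tmd_mag_add (x y : ℕ) : mag (Nat.add x y) = mag x + mag y := by
  unfold mag
  rw [Nat.add_eq]
  push_cast
  ring

theorem tmd_mag_mul (x y : ℕ) : mag (Nat.mul x y) = x * mag y := by
  unfold mag
  rw [Nat.mul_eq]
  push_cast
  ring

theorem tmd_mag_64 : mag 64 = 64 * mag 1 := by unfold mag; push_cast; ring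

theorem tmd_u_pos : 0 < mag 1 := by unfold mag; positivity

theorem tmd_u_small : mag 1 ≤ 1 / 1000 := by unfold mag; norm_num

theorem tmd_val_add (x : ℕ) : val (Nat.add 295147905179352825856 x) = mag x := by
  unfold val mag
  rw [Nat.add_eq]
  push_cast
  ring

theorem tmd_val_sub (x : ℕ) (h : mag x ≤ 256) :
    val (Nat.sub 295147905179352825856 x) = -mag x := by
  have hx : x ≤ 295147905179352825856 := by
    unfold mag at h
    rw [div_le_iff₀ (by positivity)] at h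
    have : (x : ℝ) ≤ ((295147905179352825856 : ℕ) : ℝ) := by
      push_cast
      linarith
    exact_mod_cast this
  unfold val mag
  rw [Nat.sub_eq, Nat.cast_sub hx]
  push_cast
  ring

/-- reciprocal, rounded down -/
theorem tmd_recip (C : ℕ) (hC : 0 < C) :
    (mag C)⁻¹ - mag 1 ≤ mag (Nat.div 1329227995784915872903807060280344576 C) ∧
      mag (Nat.div 1329227995784915872903807060280344576 C) ≤ (mag C)⁻¹ := by
  obtain ⟨h1, h2⟩ := tmd_floor 1329227995784915872903807060280344576 C hC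
  have hC' : (0 : ℝ) < C := by exact_mod_cast hC
  have e : (mag C)⁻¹ = (((1329227995784915872903807060280344576 : ℕ) : ℝ) / C) / 2 ^ 60 := by
    unfold mag
    push_cast
    field_simp
    norm_num
  rw [e]
  unfold mag
  change _ ≤ ((1329227995784915872903807060280344576 / C : ℕ) : ℝ) / 2 ^ 60 ∧
    ((1329227995784915872903807060280344576 / C : ℕ) : ℝ) / 2 ^ 60 ≤ _
  constructor
  · rw [← sub_div]
    apply div_le_div_of_nonneg_right _ (by positivity)
    rw [Nat.cast_one]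
    exact h1.le
  · exact div_le_div_of_nonneg_right h2 (by positivity)

/-- shift, rounded down -/
theorem tmd_shift (x n : ℕ) :
    mag x / 2 ^ n - mag 1 ≤ mag (Nat.shiftRight x n) ∧ mag (Nat.shiftRight x n) ≤ mag x / 2 ^ n := by
  obtain ⟨h1, h2⟩ := tmd_floor x (2 ^ n) (by positivity)
  have e : mag x / 2 ^ n = ((x : ℝ) / ((2 ^ n : ℕ) : ℝ)) / 2 ^ 60 := by
    unfold mag
    push_cast
    ring
  have e2 : Nat.shiftRight x n = x / 2 ^ n := Nat.shiftRight_eq_div_pow x n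
  rw [e, e2]
  unfold mag
  constructor
  · rw [← sub_div]
    apply div_le_div_of_nonneg_right _ (by positivity)
    rw [Nat.cast_one]
    exact h1.le
  · exact div_le_div_of_nonneg_right h2 (by positivity)

theorem tmd_mulshift (x y : ℕ) :
    mag x * mag y - mag 1 ≤ mag (Nat.shiftRight (Nat.mul x y) 60) ∧
      mag (Nat.shiftRight (Nat.mul x y) 60) ≤ mag x * mag y := by
  have e : mag x * mag y = mag (Nat.mul x y) / 2 ^ 60 := by
    rw [tmd_mag_mul]
    unfold mag
    ring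
  rw [e]
  exact tmd_shift _ _

theorem tmd_cube (x : ℕ) :
    mag x ^ 3 / 8 - mag 1 ≤ mag (Nat.shiftRight (Nat.mul x (Nat.mul x x)) 123) ∧
      mag (Nat.shiftRight (Nat.mul x (Nat.mul x x)) 123) ≤ mag x ^ 3 / 8 := by
  have e : mag x ^ 3 / 8 = mag (Nat.mul x (Nat.mul x x)) / 2 ^ 123 := by
    rw [tmd_mag_mul, tmd_mag_mul]
    unfold mag
    ring
  rw [e]
  exact tmd_shift _ _

theorem tmd_low {a : TM} {k : ℕ → ℕ → Bool} (H : TM.low a k = true) :
    ∃ C il : ℕ, ∃ L : ℝ, k C il = true ∧ 1 / 4 ≤ L ∧ val a.c = mag C ∧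
      mag C = L + mag a.e0 + mag a.rad ∧ L⁻¹ ≤ mag il := by
  simp only [TM.low, frc_eq] at H
  obtain ⟨C, hC⟩ : ∃ C, C = Nat.sub a.c 295147905179352825856 := ⟨_, rfl⟩
  rw [← hC] at H
  obtain ⟨lo, hlo⟩ : ∃ lo, lo = Nat.sub C (Nat.add a.e0 a.rad) := ⟨_, rfl⟩
  rw [← hlo] at H
  cases hb : Nat.ble 288230376151711744 lo with
  | false =>
    rw [hb] at H
    exact absurd H (by simp)
  | true =>
    rw [hb] at H
    have hle : 288230376151711744 ≤ lo := Nat.le_of_ble_eq_true hb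
    rw [Nat.sub_eq] at hC
    rw [Nat.sub_eq, Nat.add_eq] at hlo
    have e1 : C = lo + a.e0 + a.rad := by omega
    have e2 : a.c = Nat.add 295147905179352825856 C := by
      rw [Nat.add_eq]
      omega
    refine ⟨C, _, mag lo, H, ?_, ?_, ?_, ?_⟩
    · unfold mag
      have : ((288230376151711744 : ℕ) : ℝ) ≤ lo := by exact_mod_cast hle
      rw [le_div_iff₀ (by positivity)]
      push_cast at this
      linarith
    · rw [e2, tmd_val_add]
    · rw [e1]
      unfold mag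
      push_cast
      ring
    · rw [tmd_mag_add]
      have := (tmd_recip lo (by omega)).1
      linarith

theorem tmd_inv_diff {p q e I : ℝ} (hp : 0 < p) (hq : 0 < q) (hpI : p⁻¹ ≤ I) (hqI : q⁻¹ ≤ I)
    (h : |p - q| ≤ e) : |p⁻¹ - q⁻¹| ≤ e * (I * I) := by
  have e1 : p⁻¹ - q⁻¹ = -(p - q) * (p⁻¹ * q⁻¹) := by field_simp; ring
  have hp' : 0 < p⁻¹ := inv_pos.2 hp
  have hq' : 0 < q⁻¹ := inv_pos.2 hq
  rw [e1, abs_mul, abs_neg, abs_of_pos (mul_pos hp' hq')]
  exact mul_le_mul h (mul_le_mul hpI hqI hq'.le (hp'.le.trans hpI)) (by positivity)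
    ((abs_nonneg _).trans h)

theorem tmd_sq_diff {x y D I : ℝ} (hx : 0 ≤ x) (hy : 0 ≤ y) (hxI : x ≤ I) (hyI : y ≤ I)
    (h : |x - y| ≤ D) : |x ^ 2 - y ^ 2| ≤ D * (2 * I) := by
  have e1 : x ^ 2 - y ^ 2 = (x - y) * (x + y) := by ring
  rw [e1, abs_mul, abs_of_nonneg (add_nonneg hx hy)]
  exact mul_le_mul h (by linarith) (by positivity) ((abs_nonneg _).trans h)

theorem tmd_cube_diff {x y D I : ℝ} (hx : 0 ≤ x) (hy : 0 ≤ y) (hxI : x ≤ I) (hyI : y ≤ I)
    (h : |x - y| ≤ D) : |x ^ 3 - y ^ 3| ≤ D * (3 * (I * I)) := by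
  have e1 : x ^ 3 - y ^ 3 = (x - y) * (x * x + x * y + y * y) := by ring
  have hI : 0 ≤ I := hx.trans hxI
  have a1 := mul_le_mul hxI hxI hx hI
  have a2 := mul_le_mul hxI hyI hy hI
  have a3 := mul_le_mul hyI hyI hy hI
  rw [e1, abs_mul, abs_of_nonneg (show 0 ≤ x * x + x * y + y * y by positivity)]
  exact mul_le_mul h (by linarith) (by positivity) ((abs_nonneg _).trans h)

theorem tmd_inv_le {p L I : ℝ} (hL : 0 < L) (hp : L ≤ p) (hI : L⁻¹ ≤ I) : p⁻¹ ≤ I :=
  (inv_anti₀ hL hp).trans hI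

theorem TM.inv_sound {a : TM} {f : (ℕ → ℝ) → ℝ} {k : TM → Bool} (ha : G a f)
    (H : TM.inv a k = true) : ∃ c, G c (fun δ => (f δ)⁻¹) ∧ k c = true := by
  obtain ⟨C, il, L, H, hL, hv, hC, hI⟩ := tmd_low H
  simp only [frc_eq] at H
  have h0 := ha.h0
  rw [hv] at h0
  have hL0 : 0 < L := by linarith
  have he := tmd_mag_nonneg a.e0
  have hr := tmd_mag_nonneg a.rad
  have hu := tmd_u_pos
  have hf0 : L + mag a.rad ≤ f 0 := by
    have := (abs_le.1 h0).1
    linarith
  have hcL : L ≤ mag C := by linarith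
  have hfp : 0 < f 0 := by linarith
  have hcp : 0 < mag C := by linarith
  have hCp : 0 < C := by
    rcases Nat.eq_zero_or_pos C with h | h
    · rw [h] at hcp
      simp [mag] at hcp
    · exact h
  have hxI : (f 0)⁻¹ ≤ mag il := tmd_inv_le hL0 (by linarith) hI
  have hyI : (mag C)⁻¹ ≤ mag il := tmd_inv_le hL0 hcL hI
  have hy4 : (mag C)⁻¹ ≤ 4 := tmd_inv_le (L := 1 / 4) (by norm_num) (by linarith) (by norm_num)
  have hx0 : 0 ≤ (f 0)⁻¹ := by positivity
  have hy0 : 0 ≤ (mag C)⁻¹ := by positivity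
  have hI0 := tmd_mag_nonneg il
  have hd := tmd_inv_diff hfp hcp hxI hyI h0
  have hd2 := tmd_sq_diff hx0 hy0 hxI hyI hd
  have hd3 := tmd_cube_diff hx0 hy0 hxI hyI hd
  obtain ⟨r1, r1'⟩ := tmd_recip C hCp
  obtain ⟨i1, hi1⟩ : ∃ i1, i1 = Nat.div 1329227995784915872903807060280344576 C := ⟨_, rfl⟩
  rw [← hi1] at H r1 r1'
  obtain ⟨r2, r2'⟩ := tmd_mulshift i1 i1
  obtain ⟨i2, hi2⟩ : ∃ i2, i2 = Nat.shiftRight (Nat.mul i1 i1) 60 := ⟨_, rfl⟩
  rw [← hi2] at H r2 r2'
  obtain ⟨r3, r3'⟩ := tmd_mulshift i2 i1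
  obtain ⟨i3, hi3⟩ : ∃ i3, i3 = Nat.shiftRight (Nat.mul i2 i1) 60 := ⟨_, rfl⟩
  rw [← hi3] at H r3 r3'
  have j2 := um_ge il il
  obtain ⟨J2, hJ2⟩ : ∃ J2, J2 = um il il := ⟨_, rfl⟩
  rw [← hJ2] at H j2
  have j3 := um_ge J2 il
  have j4 := um_ge J2 J2
  obtain ⟨J3, hJ3⟩ : ∃ J3, J3 = um J2 il := ⟨_, rfl⟩
  obtain ⟨J4, hJ4⟩ : ∃ J4, J4 = um J2 J2 := ⟨_, rfl⟩
  rw [← hJ3] at H j3
  rw [← hJ4] at H j4
  have hII : 0 ≤ mag il * mag il := by positivity
  have k3 : mag il * mag il * mag il ≤ mag J3 :=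
    (mul_le_mul_of_nonneg_right j2 hI0).trans j3
  have k4 : mag il * mag il * (mag il * mag il) ≤ mag J4 :=
    (mul_le_mul j2 j2 hII (tmd_mag_nonneg _)).trans j4
  have m1 := tmd_mag_nonneg i1
  have m2 := tmd_mag_nonneg i2
  have m14 : mag i1 ≤ 4 := r1'.trans hy4
  have q1 : |(mag C)⁻¹ - mag i1| ≤ mag 1 := abs_le.2 ⟨by linarith, by linarith⟩
  have q2 := tmd_sq_diff hy0 m1 hy4 m14 q1
  have q3 := tmd_cube_diff hy0 m1 hy4 m14 q1
  have m16 : mag i1 * mag i1 ≤ 4 * 4 := mul_le_mul m14 m14 m1 (by norm_num)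
  refine TM.comp_sound (fun x => x⁻¹) ha (-((f 0)⁻¹ ^ 2)) ((f 0)⁻¹ ^ 3) ?_ ?_ ?_ ?_ H
  · rw [tmd_val_add, tmd_mag_add, tmd_mag_64]
    have b1 := um_ge a.e0 J2
    have b2 := mul_le_mul_of_nonneg_left j2 he
    have := abs_le.1 hd
    exact abs_le.2 ⟨by linarith [this.1], by linarith [this.2]⟩
  · rw [tmd_val_sub _ (by linarith), tmd_mag_add, tmd_mag_64]
    have b1 := um_ge (Nat.mul 2 a.e0) J3
    rw [tmd_mag_mul] at b1
    push_cast at b1
    have b2 := mul_le_mul_of_nonneg_left k3 he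
    have c1 := abs_le.1 hd2
    have c2 := abs_le.1 q2
    have e1 : mag i1 ^ 2 = mag i1 * mag i1 := by ring
    exact abs_le.2 ⟨by linarith [c1.2, c2.2], by linarith [c1.1, c2.1]⟩
  · rw [tmd_val_add, tmd_mag_add, tmd_mag_64]
    have b1 := um_ge (Nat.mul 3 a.e0) J4
    rw [tmd_mag_mul] at b1
    push_cast at b1
    have b2 := mul_le_mul_of_nonneg_left k4 he
    have c1 := abs_le.1 hd3
    have c2 := abs_le.1 q3
    have c3 := mul_le_mul_of_nonneg_right r2 m1
    have c4 := mul_le_mul_of_nonneg_right r2' m1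
    have c5 := mul_le_mul_of_nonneg_left m14 hu.le
    have e1 : mag i1 ^ 3 = mag i1 * mag i1 * mag i1 := by ring
    exact abs_le.2 ⟨by linarith [c1.1, c2.1], by linarith [c1.2, c2.2]⟩
  · intro s hs
    have hs' := abs_le.1 hs
    have hp : 0 < f 0 + s := by linarith [hs'.1]
    have hz : (f 0 + s)⁻¹ ≤ mag il := tmd_inv_le hL0 (by linarith [hs'.1]) hI
    have hz0 : 0 ≤ (f 0 + s)⁻¹ := by positivity
    have e1 : (f 0 + s)⁻¹ - (f 0)⁻¹ - -((f 0)⁻¹ ^ 2) * s - (f 0)⁻¹ ^ 3 * s ^ 2 =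
        -(((f 0)⁻¹ * (f 0)⁻¹ * ((f 0)⁻¹ * (f 0 + s)⁻¹)) * s ^ 3) := by
      field_simp
      ring
    show |(f 0 + s)⁻¹ - (f 0)⁻¹ - -((f 0)⁻¹ ^ 2) * s - (f 0)⁻¹ ^ 3 * s ^ 2| ≤ _
    rw [e1, abs_neg, abs_mul, abs_pow, abs_of_nonneg (by positivity)]
    apply mul_le_mul_of_nonneg_right _ (by positivity)
    exact (mul_le_mul (mul_le_mul hxI hxI hx0 hI0) (mul_le_mul hxI hz hz0 hI0) (by positivity)
      hII).trans k4

theorem tmd_sqrt_rem {a b m : ℝ} (hm : 0 < m) (ha : m ≤ a) (hb : m ≤ b) :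
    |b - a - (2 * a)⁻¹ * (b ^ 2 - a ^ 2) - -(a⁻¹ ^ 3 / 8) * (b ^ 2 - a ^ 2) ^ 2| ≤
      m⁻¹ ^ 5 / 16 * |b ^ 2 - a ^ 2| ^ 3 := by
  have ha0 : 0 < a := by linarith
  have hb0 : 0 < b := by linarith
  have e1 : b - a - (2 * a)⁻¹ * (b ^ 2 - a ^ 2) - -(a⁻¹ ^ 3 / 8) * (b ^ 2 - a ^ 2) ^ 2 =
      (b + 3 * a) / (8 * a ^ 3 * (a + b) ^ 3) * (b ^ 2 - a ^ 2) ^ 3 := by
    field_simp
    ring
  rw [e1, abs_mul, abs_pow, abs_of_nonneg (by positivity)]
  apply mul_le_mul_of_nonneg_right _ (by positivity)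
  have e2 : m⁻¹ ^ 5 / 16 = 1 / (16 * m ^ 5) := by field_simp
  rw [e2, div_le_div_iff₀ (by positivity) (by positivity)]
  have h1 : m ^ 3 ≤ a ^ 3 := pow_le_pow_left₀ hm.le ha 3
  have h2 : 2 * m ^ 2 * (b + 3 * a) ≤ (a + b) ^ 3 := by
    obtain ⟨p, rfl⟩ : ∃ p, a = m + p := ⟨a - m, by ring⟩
    obtain ⟨q, rfl⟩ : ∃ q, b = m + q := ⟨b - m, by ring⟩
    have hp : 0 ≤ p := by linarith
    have hq : 0 ≤ q := by linarith
    have e3 : (m + p + (m + q)) ^ 3 - 2 * m ^ 2 * (m + q + 3 * (m + p)) =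
        m ^ 2 * (6 * p + 10 * q) + 6 * m * (p + q) ^ 2 + (p + q) ^ 3 := by ring
    have : 0 ≤ m ^ 2 * (6 * p + 10 * q) + 6 * m * (p + q) ^ 2 + (p + q) ^ 3 := by positivity
    linarith
  have h3 := mul_le_mul h1 h2 (by positivity) (by positivity)
  nlinarith

theorem tmd_sqrt_diff {p q e m : ℝ} (hm : 0 < m) (hp : m ≤ √p) (hq : m ≤ √q) (hp0 : 0 ≤ p)
    (hq0 : 0 ≤ q) (h : |p - q| ≤ e) : |√p - √q| ≤ e * m⁻¹ / 2 := by
  have e1 : p - q = (√p - √q) * (√p + √q) := by
    have a1 := Real.mul_self_sqrt hp0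
    have a2 := Real.mul_self_sqrt hq0
    linarith
  rw [e1, abs_mul, abs_of_nonneg (show 0 ≤ √p + √q by positivity)] at h
  have h2 : |√p - √q| * (2 * m) ≤ e :=
    (mul_le_mul_of_nonneg_left (by linarith) (abs_nonneg _)).trans h
  have e2 : e * m⁻¹ / 2 = e / (2 * m) := by field_simp
  rw [e2, le_div_iff₀ (by positivity)]
  exact h2

theorem tmd_newton {C r : ℕ}
    (h1 : Nat.mul (Nat.sub r 1) (Nat.sub r 1) ≤ Nat.shiftLeft C 60)
    (h2 : Nat.shiftLeft C 60 ≤ Nat.mul (Nat.add r 1) (Nat.add r 1)) :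
    |√(mag C) - mag r| ≤ mag 1 := by
  have eN : Nat.shiftLeft C 60 = C * 2 ^ 60 := Nat.shiftLeft_eq C 60
  rw [eN, Nat.mul_eq, Nat.sub_eq] at h1
  rw [eN, Nat.mul_eq, Nat.add_eq] at h2
  have g1 : (((r - 1 : ℕ) : ℝ)) * ((r - 1 : ℕ) : ℝ) ≤ (C : ℝ) * 2 ^ 60 := by exact_mod_cast h1
  have g2 : (C : ℝ) * 2 ^ 60 ≤ ((r : ℝ) + 1) * ((r : ℝ) + 1) := by exact_mod_cast h2
  have g3 : (r : ℝ) - 1 ≤ ((r - 1 : ℕ) : ℝ) := by
    have : r ≤ (r - 1) + 1 := by omega
    have : (r : ℝ) ≤ ((r - 1 : ℕ) : ℝ) + 1 := by exact_mod_cast this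
    linarith
  have eC : mag C = (C : ℝ) * 2 ^ 60 / (2 ^ 60) ^ 2 := by
    unfold mag
    field_simp
  have u1 : √(mag C) ≤ mag r + mag 1 := by
    apply Real.sqrt_le_iff.2
    refine ⟨add_nonneg (tmd_mag_nonneg _) (tmd_mag_nonneg _), ?_⟩
    have : (mag r + mag 1) ^ 2 = ((r : ℝ) + 1) * ((r : ℝ) + 1) / (2 ^ 60) ^ 2 := by
      unfold mag
      push_cast
      field_simp
    rw [this, eC]
    exact div_le_div_of_nonneg_right g2 (by positivity)
  have u2 : mag (r - 1) ≤ √(mag C) := by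
    apply Real.le_sqrt_of_sq_le
    have : mag (r - 1) ^ 2 = ((r - 1 : ℕ) : ℝ) * ((r - 1 : ℕ) : ℝ) / (2 ^ 60) ^ 2 := by
      unfold mag
      field_simp
    rw [this, eC]
    exact div_le_div_of_nonneg_right g1 (by positivity)
  have u3 : mag r - mag 1 ≤ mag (r - 1) := by
    unfold mag
    rw [← sub_div, Nat.cast_one]
    exact div_le_div_of_nonneg_right g3 (by positivity)
  exact abs_le.2 ⟨by linarith, by linarith⟩

theorem TM.sqrt_sound {a : TM} {f : (ℕ → ℝ) → ℝ} {k : TM → Bool} (ha : G a f)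
    (H : TM.sqrt a k = true) : ∃ c, G c (fun δ => √(f δ)) ∧ k c = true := by
  obtain ⟨C, il, L, H, hL, hv, hC, hI⟩ := tmd_low H
  simp only [frc_eq] at H
  obtain ⟨r, hr⟩ : ∃ r, r = ns (Nat.shiftLeft C 60) (ns (Nat.shiftLeft C 60)
    (ns (Nat.shiftLeft C 60) (ns (Nat.shiftLeft C 60) (ns (Nat.shiftLeft C 60)
    (ns (Nat.shiftLeft C 60) (ns (Nat.shiftLeft C 60) 1152921504606846976)))))) := ⟨_, rfl⟩
  rw [← hr] at H
  clear hr
  cases hb : (Nat.ble (Nat.mul (Nat.sub r 1) (Nat.sub r 1)) (Nat.shiftLeft C 60) &&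
      Nat.ble (Nat.shiftLeft C 60) (Nat.mul (Nat.add r 1) (Nat.add r 1))) with
  | false =>
    rw [hb] at H
    exact absurd H (by simp)
  | true =>
    rw [hb, cond_true] at H
    rw [Bool.and_eq_true] at hb
    have hn := tmd_newton (Nat.le_of_ble_eq_true hb.1) (Nat.le_of_ble_eq_true hb.2)
    have h0 := ha.h0
    rw [hv] at h0
    have hL0 : 0 < L := by linarith
    have he := tmd_mag_nonneg a.e0
    have hrad := tmd_mag_nonneg a.rad
    have hu := tmd_u_pos
    have hu' := tmd_u_small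
    have hf0 : L + mag a.rad ≤ f 0 := by
      have := (abs_le.1 h0).1
      linarith
    have hcL : L ≤ mag C := by linarith
    have hfp : 0 < f 0 := by linarith
    have hcp : 0 < mag C := by linarith
    have hI0 := tmd_mag_nonneg il
    obtain ⟨m, hm⟩ : ∃ m, m = √L := ⟨_, rfl⟩
    have hm0 : 0 < m := hm ▸ Real.sqrt_pos.2 hL0
    have hmm : m * m = L := hm ▸ Real.mul_self_sqrt hL0.le
    have hma : m ≤ √(f 0) := hm ▸ Real.sqrt_le_sqrt (by linarith)
    have hmc : m ≤ √(mag C) := hm ▸ Real.sqrt_le_sqrt hcL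
    have hm2 : 1 / 2 ≤ m := by
      rw [hm]
      apply Real.le_sqrt_of_sq_le
      linarith
    have hσ0 : 0 < m⁻¹ := inv_pos.2 hm0
    have hσ : m⁻¹ * m⁻¹ ≤ mag il := by
      rw [← mul_inv, hmm]
      exact hI
    have hσ1 : 2 * m⁻¹ ≤ mag il + 1 := by linarith [mul_self_nonneg (m⁻¹ - 1)]
    have hα0 : 0 < √(f 0) := by linarith
    have hγ0 : 0 < √(mag C) := by linarith
    have hd := tmd_sqrt_diff hm0 hma hmc hfp.le hcp.le h0
    have hx : (√(f 0))⁻¹ ≤ m⁻¹ := inv_anti₀ hm0 hma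
    have hy : (√(mag C))⁻¹ ≤ m⁻¹ := inv_anti₀ hm0 hmc
    have hx0 : 0 ≤ (√(f 0))⁻¹ := by positivity
    have hy0 : 0 ≤ (√(mag C))⁻¹ := by positivity
    have hd1 := tmd_inv_diff hα0 hγ0 hx hy hd
    have hd3 := tmd_cube_diff hx0 hy0 hx hy hd1
    have hn' := abs_le.1 hn
    have hρ : 1 / 3 ≤ mag r := by linarith [hn'.2]
    have hρ0 : 0 < mag r := by linarith
    have hrp : 0 < r := by
      rcases Nat.eq_zero_or_pos r with h | h
      · rw [h] at hρ0
        simp [mag] at hρ0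
      · exact h
    have hy3 : (√(mag C))⁻¹ ≤ 3 :=
      tmd_inv_le (L := 1 / 3) (by norm_num) (by linarith) (by norm_num)
    have hρ3 : (mag r)⁻¹ ≤ 3 := tmd_inv_le (L := 1 / 3) (by norm_num) hρ (by norm_num)
    have hq := abs_le.1 (tmd_inv_diff hγ0 hρ0 hy3 hρ3 hn)
    obtain ⟨r1, r1'⟩ := tmd_recip r hrp
    obtain ⟨i1, hi1⟩ : ∃ i1, i1 = Nat.div 1329227995784915872903807060280344576 r := ⟨_, rfl⟩
    rw [← hi1] at H r1 r1'
    have m1 := tmd_mag_nonneg i1
    have m13 : mag i1 ≤ 3 := r1'.trans hρ3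
    have q1 : |(√(mag C))⁻¹ - mag i1| ≤ 10 * mag 1 :=
      abs_le.2 ⟨by linarith [hq.1], by linarith [hq.2]⟩
    have q3 := abs_le.1 (tmd_cube_diff hy0 m1 hy3 m13 q1)
    obtain ⟨s1, s1'⟩ := tmd_shift i1 1
    obtain ⟨s3, s3'⟩ := tmd_cube i1
    have m27 : mag i1 ^ 3 ≤ 3 ^ 3 := pow_le_pow_left₀ m1 m13 3
    have eJ : mag (Nat.add il 1152921504606846976) = mag il + 1 := by
      rw [tmd_mag_add]
      unfold mag
      norm_num
    obtain ⟨J, hJ⟩ : ∃ J, J = Nat.add il 1152921504606846976 := ⟨_, rfl⟩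
    rw [← hJ] at H eJ
    have j2 := um_ge il J
    obtain ⟨J2, hJ2⟩ : ∃ J2, J2 = um il J := ⟨_, rfl⟩
    rw [← hJ2] at H j2
    have j3 := um_ge il J2
    obtain ⟨J3, hJ3⟩ : ∃ J3, J3 = um il J2 := ⟨_, rfl⟩
    rw [← hJ3] at H j3
    rw [eJ] at j2
    have k2 : m⁻¹ * m⁻¹ * (2 * m⁻¹) ≤ mag J2 :=
      (mul_le_mul hσ hσ1 (by positivity) hI0).trans j2
    have k3 : m⁻¹ * m⁻¹ * (m⁻¹ * m⁻¹ * (2 * m⁻¹)) ≤ mag J3 :=
      (mul_le_mul hσ k2 (by positivity) hI0).trans j3
    refine TM.comp_sound (fun x => √x) ha (2 * √(f 0))⁻¹ (-((√(f 0))⁻¹ ^ 3 / 8)) ?_ ?_ ?_ ?_ H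
    · rw [tmd_val_add, tmd_mag_add, tmd_mag_64]
      have b1 := um_ge a.e0 J
      rw [eJ] at b1
      have b2 := mul_le_mul_of_nonneg_left hσ1 he
      have b3 : 0 ≤ mag a.e0 * m⁻¹ := by positivity
      have c1 := abs_le.1 hd
      exact abs_le.2 ⟨by linarith [c1.1, hn'.1], by linarith [c1.2, hn'.2]⟩
    · rw [tmd_val_add, tmd_mag_add, tmd_mag_64, mul_inv]
      have b1 := um_ge a.e0 J2
      have b2 := mul_le_mul_of_nonneg_left k2 he
      have b3 : 0 ≤ mag a.e0 * (m⁻¹ * m⁻¹ * m⁻¹) := by positivity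
      have c1 := abs_le.1 hd1
      have c2 := abs_le.1 q1
      exact abs_le.2 ⟨by linarith [c1.1, c2.1], by linarith [c1.2, c2.2]⟩
    · rw [tmd_val_sub _ (by linarith), tmd_mag_add, tmd_mag_64]
      have b1 := um_ge a.e0 J3
      have b2 := mul_le_mul_of_nonneg_left k3 he
      have b3 : 0 ≤ mag a.e0 * (m⁻¹ * m⁻¹ * (m⁻¹ * m⁻¹ * m⁻¹)) := by positivity
      have c1 := abs_le.1 hd3
      exact abs_le.2 ⟨by linarith [c1.2, q3.2], by linarith [c1.1, q3.1]⟩
    · intro s hs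
      have hs' := abs_le.1 hs
      have hp : L ≤ f 0 + s := by linarith [hs'.1]
      have hmb : m ≤ √(f 0 + s) := hm ▸ Real.sqrt_le_sqrt hp
      have hrem := tmd_sqrt_rem hm0 hma hmb
      rw [Real.sq_sqrt hfp.le, Real.sq_sqrt (by linarith), add_sub_cancel_left] at hrem
      refine hrem.trans (mul_le_mul_of_nonneg_right ?_ (by positivity))
      rw [tmd_mag_add]
      have := (tmd_shift J3 5).1
      have e5 : m⁻¹ ^ 5 = m⁻¹ * m⁻¹ * (m⁻¹ * m⁻¹ * m⁻¹) := by ring
      linarith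

end Pool.Agent.Lib.MP_ee7495_gt.Y
end

-- part Pool.Agent.Lib.MP_ee7495_gt.Y.SlpS
section

set_option autoImplicit false

namespace Pool.Agent.Lib.MP_ee7495_gt.Y

theorem slps_tail (l : List ℝ) (i : ℕ) : l.tail.getD i 0 = l.getD (i + 1) 0 := by
  cases l <;> simp

theorem TL.get_sound {E : TL} {ρ : (ℕ → ℝ) → List ℝ} (h : EnvG E ρ) {i : ℕ} {k : TM → Bool}
    (H : E.get i k = true) : ∃ T, G T (fun δ => (ρ δ).getD i 0) ∧ k T = true := by
  induction i generalizing E ρ with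
  | zero =>
    cases E with
    | nil => exact absurd H Bool.false_ne_true
    | cons a t => exact ⟨a, h.1, H⟩
  | succ i ih =>
    cases E with
    | nil => exact absurd H Bool.false_ne_true
    | cons a t =>
      obtain ⟨T, h1, h2⟩ := ih (E := t) h.2 H
      exact ⟨T, by simpa only [slps_tail] using h1, h2⟩

theorem slps_push {E : TL} {ρ : (ℕ → ℝ) → List ℝ} (h : EnvG E ρ) {c : TM} {v : (ℕ → ℝ) → ℝ}
    (hc : G c v) : EnvG (TL.cons c E) (fun δ => v δ :: ρ δ) := ⟨hc, h⟩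

theorem Pr.runT_sound (p : Pr) {E : TL} {ρ : (ℕ → ℝ) → List ℝ} (h : EnvG E ρ) {k : TL → Bool}
    (H : p.runT E k = true) : ∃ E', EnvG E' (fun δ => p.runR (ρ δ)) ∧ k E' = true := by
  induction p generalizing E ρ with
  | stop => exact ⟨E, h, H⟩
  | add i j r ih =>
    obtain ⟨a, ha, H⟩ := TL.get_sound h H
    obtain ⟨b, hb, H⟩ := TL.get_sound h H
    obtain ⟨c, hc, H⟩ := TM.add_sound ha hb H
    exact ih (slps_push h hc) H
  | sub i j r ih =>
    obtain ⟨a, ha, H⟩ := TL.get_sound h H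
    obtain ⟨b, hb, H⟩ := TL.get_sound h H
    obtain ⟨c, hc, H⟩ := TM.sub_sound ha hb H
    exact ih (slps_push h hc) H
  | neg i r ih =>
    obtain ⟨a, ha, H⟩ := TL.get_sound h H
    obtain ⟨c, hc, H⟩ := TM.neg_sound ha H
    exact ih (slps_push h hc) H
  | mul i j r ih =>
    obtain ⟨a, ha, H⟩ := TL.get_sound h H
    obtain ⟨b, hb, H⟩ := TL.get_sound h H
    obtain ⟨c, hc, H⟩ := TM.mul_sound ha hb H
    exact ih (slps_push h hc) H
  | addc K i r ih =>
    obtain ⟨a, ha, H⟩ := TL.get_sound h H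
    obtain ⟨c, hc, H⟩ := TM.addc_sound ha H
    exact ih (slps_push h hc) H
  | smul K i r ih =>
    obtain ⟨a, ha, H⟩ := TL.get_sound h H
    obtain ⟨c, hc, H⟩ := TM.smul_sound ha H
    exact ih (slps_push h hc) H
  | cs i r ih =>
    obtain ⟨a, ha, H⟩ := TL.get_sound h H
    obtain ⟨u, v, hu, hv, H⟩ := TM.cs_sound ha H
    exact ih (slps_push (slps_push h hu) hv) H
  | inv i r ih =>
    obtain ⟨a, ha, H⟩ := TL.get_sound h H
    obtain ⟨c, hc, H⟩ := TM.inv_sound ha H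
    exact ih (slps_push h hc) H
  | sqrt i r ih =>
    obtain ⟨a, ha, H⟩ := TL.get_sound h H
    obtain ⟨c, hc, H⟩ := TM.sqrt_sound ha H
    exact ih (slps_push h hc) H

theorem AF.ofTM_sound {T : TM} {f : (ℕ → ℝ) → ℝ} (h : G T f) {k : AF → Bool}
    (H : AF.ofTM T k = true) : ∃ a, (∀ δ, Bd δ 1 → AE δ a (f δ)) ∧ k a = true := by
  obtain ⟨c, l, q, b1, b2, e0, e1, e2⟩ := T
  cases l with
  | nil => exact absurd H Bool.false_ne_true
  | cons x l =>
  cases l with
  | nil => exact absurd H Bool.false_ne_true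
  | cons y l =>
  cases l with
  | nil => exact absurd H Bool.false_ne_true
  | cons z l =>
  cases l with
  | cons w l => exact absurd H Bool.false_ne_true
  | nil =>
    have H' : frc (Nat.add (Nat.add e0 e1) (Nat.add b2 e2))
        (fun e => k ⟨c, x, y, z, b1, e⟩) = true := H
    rw [frc_eq] at H'
    refine ⟨_, fun δ hδ => ⟨?_, ?_⟩, H'⟩
    · have := h.hb1
      simp only [NL.asum] at this
      show ab x + ab y + ab z ≤ b1
      omega
    · obtain ⟨ℓ, a1, a2⟩ := h.h12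
      have b0 := h.h0
      have b2' := (q.quad_le hδ hδ).trans
        (mul_le_mul_of_nonneg_right (tma_mag_mono h.hb2) (by norm_num))
      have b3 := a2 δ 1 hδ le_rfl
      have b4 := a1 δ 1 hδ
      simp only [NL.dot] at b4
      simp only [Nat.add_eq, tma_mag_add]
      rw [abs_le] at b0 b2' b3 b4 ⊢
      dsimp only at b0 b2' b3 b4
      constructor <;> linarith [b0.1, b0.2, b2'.1, b2'.2, b3.1, b3.2, b4.1, b4.2]

theorem pickAF_sound {E : TL} {ρ : (ℕ → ℝ) → List ℝ} (h : EnvG E ρ) (is : NL) {k : SL → Bool}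
    (H : pickAF E is k = true) :
    ∃ s, (∀ δ, Bd δ 1 → EnvS δ s (pickR (ρ δ) is)) ∧ k s = true := by
  induction is generalizing k with
  | nil => exact ⟨SL.nil, fun _ _ => trivial, H⟩
  | cons i t ih =>
    obtain ⟨T, hT, H⟩ := TL.get_sound h H
    obtain ⟨a, ha, H⟩ := AF.ofTM_sound hT H
    obtain ⟨s, hs, H⟩ := ih H
    exact ⟨SL.cons a s, fun δ hδ => ⟨ha δ hδ, hs δ hδ⟩, H⟩

end Pool.Agent.Lib.MP_ee7495_gt.Y
end

-- part Pool.Agent.Lib.MP_ee7495_gt.Y.BrgV
section

set_option autoImplicit false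
set_option linter.unusedSimpArgs false

open scoped RealInnerProductSpace
open Real Set

namespace Pool.Agent.Lib.MP_ee7495_gt.Y

theorem brgv_G0 : gv 294479120634688307200 295860599820384206848 294494883233384103936 = Gk 0 := by
  have h : Gk 0 = vec (-594 / 1024) (633 / 1024) (-580 / 1024) := rfl
  rw [h]
  refine ext3 ?_ ?_ ?_ <;> simp only [gv, val, vec_0, vec_1, vec_2] <;> norm_num

theorem brgv_M0 : gv 295816689724017344512 295860599820384206848 294494883233384103936 = Mk 0 := by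
  have h : Mk 0 = mir (vec (-594 / 1024) (633 / 1024) (-580 / 1024)) := rfl
  rw [h]
  refine ext3 ?_ ?_ ?_ <;> simp only [gv, val, vec_0, vec_1, vec_2, mir_0, mir_1, mir_2] <;>
    norm_num

theorem brgv_G1 : gv 294380041442886156288 295639923438643052544 294425077439159861248 = Gk 1 := by
  have h : Gk 1 = vec (-682 / 1024) (437 / 1024) (-642 / 1024) := rfl
  rw [h]
  refine ext3 ?_ ?_ ?_ <;> simp only [gv, val, vec_0, vec_1, vec_2] <;> norm_num

theorem brgv_M1 : gv 295915768915819495424 295639923438643052544 294425077439159861248 = Mk 1 := by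
  have h : Mk 1 = mir (vec (-682 / 1024) (437 / 1024) (-642 / 1024)) := rfl
  rw [h]
  refine ext3 ?_ ?_ ?_ <;> simp only [gv, val, vec_0, vec_1, vec_2, mir_0, mir_1, mir_2] <;>
    norm_num

theorem brgv_G2 : gv 294269703252015579136 295759268828768370688 294684034417733664768 = Gk 2 := by
  have h : Gk 2 = vec (-780 / 1024) (543 / 1024) (-412 / 1024) := rfl
  rw [h]
  refine ext3 ?_ ?_ ?_ <;> simp only [gv, val, vec_0, vec_1, vec_2] <;> norm_num

theorem brgv_M2 : gv 296026107106690072576 295759268828768370688 294684034417733664768 = Mk 2 := by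
  have h : Mk 2 = mir (vec (-780 / 1024) (543 / 1024) (-412 / 1024)) := rfl
  rw [h]
  refine ext3 ?_ ?_ ?_ <;> simp only [gv, val, vec_0, vec_1, vec_2, mir_0, mir_1, mir_2] <;>
    norm_num

theorem brgv_G3 : gv 294170624060213428224 295538592447027216384 294614228623509422080 = Gk 3 := by
  have h : Gk 3 = vec (-868 / 1024) (347 / 1024) (-474 / 1024) := rfl
  rw [h]
  refine ext3 ?_ ?_ ?_ <;> simp only [gv, val, vec_0, vec_1, vec_2] <;> norm_num

theorem brgv_M3 : gv 296125186298492223488 295538592447027216384 294614228623509422080 = Mk 3 := by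
  have h : Mk 3 = mir (vec (-868 / 1024) (347 / 1024) (-474 / 1024)) := rfl
  rw [h]
  refine ext3 ?_ ?_ ?_ <;> simp only [gv, val, vec_0, vec_1, vec_2, mir_0, mir_1, mir_2] <;>
    norm_num

theorem brgv_F0 : gv 295820480840109916160 295085400142337015808 294390878229489516544 = Fk 0 := by
  have h : Fk 0 = vec (611704 / 1048576) (-56848 / 1048576) (-688512 / 1048576) := rfl
  rw [h]
  refine ext3 ?_ ?_ ?_ <;> simp only [gv, val, vec_0, vec_1, vec_2] <;> norm_num

theorem brgv_F1 : gv 294644689493645328384 295094671224382423040 296030434784456998912 = Fk 1 := by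
  have h : Fk 1 = vec (-457672 / 1048576) (-48416 / 1048576) (802656 / 1048576) := rfl
  rw [h]
  refine ext3 ?_ ?_ ?_ <;> simp only [gv, val, vec_0, vec_1, vec_2] <;> norm_num

theorem brgv_F2 : gv 295386033009650040832 296061256294406815744 295900841945960808448 = Fk 2 := by
  have h : Fk 2 = vec (216576 / 1048576) (830688 / 1048576) (684792 / 1048576) := rfl
  rw [h]
  refine ext3 ?_ ?_ ?_ <;> simp only [gv, val, vec_0, vec_1, vec_2] <;> norm_num

theorem brgv_F3 : gv 295079137324105203712 294118815072312623104 294520471067985707008 = Fk 3 := by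
  have h : Fk 3 = vec (-62544 / 1048576) (-935952 / 1048576) (-570648 / 1048576) := rfl
  rw [h]
  refine ext3 ?_ ?_ ?_ <;> simp only [gv, val, vec_0, vec_1, vec_2] <;> norm_num

theorem brgv_slet {e : Ex} {r : Ck} {s : List ℝ} {v : List E} (x : ℝ)
    (h : (Ck.slet e r).holds s v) (hx : e.val s v = x) : r.holds (x :: s) v := by
  subst hx; exact h

theorem brgv_vmk {a b c : Ex} {r : Ck} {s : List ℝ} {v : List E} (u : E)
    (h : (Ck.vmk a b c r).holds s v) (hu : vec (a.val s v) (b.val s v) (c.val s v) = u) :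
    r.holds s (u :: v) := by
  subst hu; exact h

theorem brgv_vadd {i j : ℕ} {r : Ck} {s : List ℝ} {v : List E} (u : E)
    (h : (Ck.vadd i j r).holds s v) (hu : v.getD i 0 + v.getD j 0 = u) : r.holds s (u :: v) := by
  subst hu; exact h

theorem brgv_vsub {i j : ℕ} {r : Ck} {s : List ℝ} {v : List E} (u : E)
    (h : (Ck.vsub i j r).holds s v) (hu : v.getD i 0 - v.getD j 0 = u) : r.holds s (u :: v) := by
  subst hu; exact h

theorem brgv_both {a r : Ck} {s : List ℝ} {v : List E} (h : (Ck.both a r).holds s v) :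
    a.holds s v ∧ r.holds s v := h

/-- Scalars known to the side conditions. -/
noncomputable def brgvS (d : Sd) : List ℝ :=
  [d.mc, d.sh, d.mo, d.t1, d.x1, d.eb, d.lam, d.y, d.e, d.om, d.et, d.r, d.ch, d.D, d.k, d.ce,
    d.si, d.sy, d.As, d.cr, d.sr, d.co, d.so, d.sH, d.cc, d.sc, d.Ky, d.Kz, d.c1, d.c2, d.ka,
    d.ir, d.ir2, d.nu, d.sg, d.aT, d.Yn, d.Q 0, d.Q 1, d.Q 2, d.TA 0, d.TA 1, d.TA 2, d.us 0,
    d.us 1, d.us 2, d.ue 0, d.ue 1, d.ue 2]

/-- Scalars known to the tests. -/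
noncomputable def brgvM (d : Sd) : List ℝ :=
  [d.Kk, d.m1, d.lz, d.Cm, d.zme, d.zms, d.ze 3, d.zs 3, pp ⟪Mk 3, d.wv⟫, d.ze 2, d.zs 2,
    pp ⟪Mk 2, d.wv⟫, d.ze 1, d.zs 1, pp ⟪Mk 1, d.wv⟫, d.ze 0, d.zs 0, pp ⟪Mk 0, d.wv⟫, d.w2s,
    d.w2, d.ts, d.tc, d.qz, d.qy, d.qb, d.qa, d.mc, d.sh, d.mo, d.t1, d.x1, d.eb, d.lam, d.y,
    d.e, d.om, d.et, d.r, d.ch, d.D, d.k, d.ce, d.si, d.sy, d.As, d.cr, d.sr, d.co, d.so, d.sH,
    d.cc, d.sc, d.Ky, d.Kz, d.c1, d.c2, d.ka, d.ir, d.ir2, d.nu, d.sg, d.aT, d.Yn, d.Q 0,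
    d.Q 1, d.Q 2, d.TA 0, d.TA 1, d.TA 2, d.us 0, d.us 1, d.us 2, d.ue 0, d.ue 1, d.ue 2]

/-- Vectors known to the tests. -/
noncomputable def brgvV (d : Sd) : List E :=
  [d.a3, d.a2, d.a1, d.a0, d.q0 + d.q1, d.q1, d.q0, d.wv, d.Q, d.TA, d.us, d.ue]

theorem brgv_range (d : Sd) (V : List E) (h : ckRange.holds d.list V) : d.Range := by
  simp only [ckRange, Ck.holds, Sd.list, Ex.val, List.getD_cons_zero, List.getD_cons_succ, qq, Nat.cast_ofNat,
      Nat.cast_one, Nat.cast_zero, div_one] at h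
  obtain ⟨h1, h2, h3, h4, h5, h6, h7, h8, h9, h10, h11, h12, h13, h14, h15, h16, h17, h18, h19, -⟩ := h
  exact ⟨by linarith, by linarith, by linarith, by linarith, by linarith, by linarith, by linarith,
    by linarith, by linarith, by linarith, by linarith, by linarith, by linarith, by linarith,
    by linarith, by linarith, by linarith, by linarith, by linarith⟩

theorem brgv_side (d : Sd) (h : ckSide.holds (brgvS d) [d.wv, d.Q, d.TA, d.us, d.ue]) : d.Side := by
  simp only [ckSide, Ck.holds, brgvS, Ex.val, List.getD_cons_zero, List.getD_cons_succ, qq, Nat.cast_ofNat,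
      Nat.cast_one, Nat.cast_zero, div_one, brgv_F0, brgv_F1, brgv_F2, brgv_F3] at h
  obtain ⟨h1, h2, h3, h4, h5, s0, e0, s1, e1, s2, e2, s3, e3, -⟩ := h
  refine ⟨by linarith, by linarith, by linarith, by linarith, by linarith, fun i => ?_, fun i => ?_⟩
  · fin_cases i
    exacts [s0, s1, s2, s3]
  · fin_cases i
    exacts [e0, e1, e2, e3]

theorem brgv_zero (d : Sd) (h : ckZero.holds (brgvM d) (brgvV d)) :
    2 * mM d.TA + d.Cm ≤ 0 ∧ d.Kk - 2 * d.TA 2 ≤ 0 := by
  simp only [ckZero, Ck.holds, brgvM, brgvV, Ex.val, List.getD_cons_zero, List.getD_cons_succ, qq, Nat.cast_ofNat,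
      Nat.cast_one, Nat.cast_zero, div_one, brgv_M0, brgv_M1, brgv_M2, brgv_M3] at h
  exact ⟨h.1, h.2.1⟩

theorem brgv_b1 (d : Sd) (h : ckB1.holds (brgvM d) (brgvV d)) : d.Bc d.a0 ≤ 0 := by
  simp only [ckB1, Ck.holds, brgvM, brgvV, Ex.val, List.getD_cons_zero, List.getD_cons_succ, qq, Nat.cast_ofNat,
      Nat.cast_one, Nat.cast_zero, div_one, brgv_M0, brgv_M1, brgv_M2, brgv_M3, vec_eta] at h
  exact h.1

theorem brgv_b2 (d : Sd) (h : ckB2.holds (brgvM d) (brgvV d)) : d.Bc (d.a0 + d.a1) ≤ 0 := by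
  simp only [ckB2, Ck.holds, brgvM, brgvV, Ex.val, List.getD_cons_zero, List.getD_cons_succ, qq, Nat.cast_ofNat,
      Nat.cast_one, Nat.cast_zero, div_one, brgv_M0, brgv_M1, brgv_M2, brgv_M3, vec_eta] at h
  exact h.1

theorem brgv_b5 (d : Sd) (h : ckB5.holds (brgvM d) (brgvV d)) : d.Bc d.a3 ≤ 0 := by
  simp only [ckB5, Ck.holds, brgvM, brgvV, Ex.val, List.getD_cons_zero, List.getD_cons_succ, qq, Nat.cast_ofNat,
      Nat.cast_one, Nat.cast_zero, div_one, brgv_M0, brgv_M1, brgv_M2, brgv_M3, vec_eta] at h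
  exact h.1

theorem brgv_b6 (d : Sd) (h : ckB6.holds (brgvM d) (brgvV d)) : d.Bc (d.a3 + d.a2) ≤ 0 := by
  simp only [ckB6, Ck.holds, brgvM, brgvV, Ex.val, List.getD_cons_zero, List.getD_cons_succ, qq, Nat.cast_ofNat,
      Nat.cast_one, Nat.cast_zero, div_one, brgv_M0, brgv_M1, brgv_M2, brgv_M3, vec_eta] at h
  exact h.1

theorem brgv_a (d : Sd) (h : ckA3.holds (brgvM d) (brgvV d)) : d.TestA := by
  unfold ckA3 brgvM brgvV at h
  replace h := brgv_vadd (d.a0 + d.a1) h rfl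
  replace h := brgv_vadd (d.a0 + d.a1 + d.a2) h rfl
  replace h := brgv_vsub (d.X3) h rfl
  replace h := brgv_slet (d.ec) h (by
    simp only [Ex.val, List.getD_cons_zero, List.getD_cons_succ, qq, Nat.cast_ofNat,
      Nat.cast_one, Nat.cast_zero, div_one]
    rfl)
  replace h := brgv_slet (d.ds) h (by
    simp only [Ex.val, List.getD_cons_zero, List.getD_cons_succ, qq, Nat.cast_ofNat,
      Nat.cast_one, Nat.cast_zero, div_one]
    rfl)
  replace h := brgv_slet (d.de) h (by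
    simp only [Ex.val, List.getD_cons_zero, List.getD_cons_succ, qq, Nat.cast_ofNat,
      Nat.cast_one, Nat.cast_zero, div_one]
    rfl)
  simp only [Ck.holds, Ex.val, List.getD_cons_zero, List.getD_cons_succ, qq, Nat.cast_ofNat,
      Nat.cast_one, Nat.cast_zero, div_one, brgv_M0, brgv_M1, brgv_M2, brgv_M3] at h
  exact ⟨h.1.1, h.2.1.1, h.2.2.1.1, h.2.2.2.1.1⟩

theorem brgv_x (d : Sd) (h : ckBall.holds (brgvM d) (brgvV d)) : d.TestX := by
  unfold ckBall brgvM brgvV at h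
  replace h := brgv_slet (d.xh) h (by
    simp only [Ex.val, List.getD_cons_zero, List.getD_cons_succ, qq, Nat.cast_ofNat,
      Nat.cast_one, Nat.cast_zero, div_one]
    rfl)
  replace h := brgv_slet (d.th) h (by
    simp only [Ex.val, List.getD_cons_zero, List.getD_cons_succ, qq, Nat.cast_ofNat,
      Nat.cast_one, Nat.cast_zero, div_one]
    rfl)
  replace h := brgv_slet (d.tcc) h (by
    simp only [Ex.val, List.getD_cons_zero, List.getD_cons_succ, qq, Nat.cast_ofNat,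
      Nat.cast_one, Nat.cast_zero, div_one]
    rfl)
  replace h := brgv_vmk (d.h0) h (by
    simp only [Ex.val, List.getD_cons_zero, List.getD_cons_succ, qq, Nat.cast_ofNat,
      Nat.cast_one, Nat.cast_zero, div_one]
    rfl)
  replace h := brgv_vmk (d.h1) h (by
    simp only [Ex.val, List.getD_cons_zero, List.getD_cons_succ, qq, Nat.cast_ofNat,
      Nat.cast_one, Nat.cast_zero, div_one]
    rfl)
  replace h := brgv_vadd (d.h0 + d.h1) h rfl
  replace h := brgv_slet (d.py) h (by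
    simp only [Ex.val, List.getD_cons_zero, List.getD_cons_succ, qq, Nat.cast_ofNat,
      Nat.cast_one, Nat.cast_zero, div_one]
    rfl)
  replace h := brgv_slet (d.pz) h (by
    simp only [Ex.val, List.getD_cons_zero, List.getD_cons_succ, qq, Nat.cast_ofNat,
      Nat.cast_one, Nat.cast_zero, div_one]
    rfl)
  replace h := brgv_slet (d.wx7) h (by
    simp only [Ex.val, List.getD_cons_zero, List.getD_cons_succ, qq, Nat.cast_ofNat,
      Nat.cast_one, Nat.cast_zero, div_one]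
    rfl)
  replace h := brgv_slet (d.wf7) h (by
    simp only [Ex.val, List.getD_cons_zero, List.getD_cons_succ, qq, Nat.cast_ofNat,
      Nat.cast_one, Nat.cast_zero, div_one]
    rfl)
  replace h := brgv_vmk (d.X7) h (by
    simp only [Ex.val, List.getD_cons_zero, List.getD_cons_succ, qq, Nat.cast_ofNat,
      Nat.cast_one, Nat.cast_zero, div_one]
    rfl)
  replace h := brgv_vsub (d.X4) h rfl
  replace h := brgv_slet (d.oc) h (by
    simp only [Ex.val, List.getD_cons_zero, List.getD_cons_succ, qq, Nat.cast_ofNat,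
      Nat.cast_one, Nat.cast_zero, div_one]
    rfl)
  replace h := brgv_vmk (d.V0) h (by
    simp only [Ex.val, List.getD_cons_zero, List.getD_cons_succ, qq, Nat.cast_ofNat,
      Nat.cast_one, Nat.cast_zero, div_one]
    rfl)
  replace h := brgv_slet (d.ecx) h (by
    simp only [Ex.val, List.getD_cons_zero, List.getD_cons_succ, qq, Nat.cast_ofNat,
      Nat.cast_one, Nat.cast_zero, div_one]
    rfl)
  replace h := brgv_slet (d.l2) h (by
    simp only [Ex.val, List.getD_cons_zero, List.getD_cons_succ, qq, Nat.cast_ofNat,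
      Nat.cast_one, Nat.cast_zero, div_one]
    rfl)
  replace h := brgv_slet (d.Nv) h (by
    simp only [Ex.val, List.getD_cons_zero, List.getD_cons_succ, qq, Nat.cast_ofNat,
      Nat.cast_one, Nat.cast_zero, div_one]
    rfl)
  obtain ⟨h0, h⟩ := brgv_both h
  obtain ⟨h1, h⟩ := brgv_both h
  obtain ⟨h2, h⟩ := brgv_both h
  obtain ⟨h3, h⟩ := brgv_both h
  obtain ⟨h4, h⟩ := brgv_both h
  obtain ⟨h5, h⟩ := brgv_both h
  obtain ⟨h6, h⟩ := brgv_both h
  obtain ⟨h7, h⟩ := brgv_both h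
  obtain ⟨h8, h⟩ := brgv_both h
  obtain ⟨h9, h⟩ := brgv_both h
  obtain ⟨h10, h⟩ := brgv_both h
  obtain ⟨h11, h⟩ := brgv_both h
  replace h := (brgv_both h).1
  replace h := brgv_vmk (d.Ve) h (by
    simp only [Ex.val, List.getD_cons_zero, List.getD_cons_succ, qq, Nat.cast_ofNat,
      Nat.cast_one, Nat.cast_zero, div_one]
    rfl)
  replace h := brgv_slet (d.Ne) h (by
    simp only [Ex.val, List.getD_cons_zero, List.getD_cons_succ, qq, Nat.cast_ofNat,
      Nat.cast_one, Nat.cast_zero, div_one]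
    rfl)
  simp only [Ck.holds, Ex.val, List.getD_cons_zero, List.getD_cons_succ, qq, Nat.cast_ofNat,
      Nat.cast_one, Nat.cast_zero, div_one, brgv_G0, brgv_G1, brgv_G2, brgv_G3] at h0 h1 h2 h3 h4 h5 h6 h7 h8 h9 h10 h11 h
  exact ⟨h0.1, h1.1, h2.1, h3.1, h4.1, h5.1, h6.1, h7.1, h8.1, h9.1, h10.1, h11.1, h.1⟩

theorem brgv_m (d : Sd) (h : ckMid.holds (brgvM d) (brgvV d)) : d.TestM := by
  unfold ckMid brgvM brgvV at h
  replace h := brgv_slet (pp (-⟪d.a0, d.wv⟫)) h (by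
    simp only [Ex.val, List.getD_cons_zero, List.getD_cons_succ, qq, Nat.cast_ofNat,
      Nat.cast_one, Nat.cast_zero, div_one])
  replace h := brgv_slet (pp (-⟪d.a1, d.wv⟫)) h (by
    simp only [Ex.val, List.getD_cons_zero, List.getD_cons_succ, qq, Nat.cast_ofNat,
      Nat.cast_one, Nat.cast_zero, div_one])
  replace h := brgv_slet (pp (-⟪d.a2, d.wv⟫)) h (by
    simp only [Ex.val, List.getD_cons_zero, List.getD_cons_succ, qq, Nat.cast_ofNat,
      Nat.cast_one, Nat.cast_zero, div_one])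
  replace h := brgv_slet (pp (-⟪d.a3, d.wv⟫)) h (by
    simp only [Ex.val, List.getD_cons_zero, List.getD_cons_succ, qq, Nat.cast_ofNat,
      Nat.cast_one, Nat.cast_zero, div_one])
  replace h := brgv_slet (d.gk) h (by
    simp only [Ex.val, List.getD_cons_zero, List.getD_cons_succ, qq, Nat.cast_ofNat,
      Nat.cast_one, Nat.cast_zero, div_one]
    rfl)
  replace h := brgv_slet (d.cas) h (by
    simp only [Ex.val, List.getD_cons_zero, List.getD_cons_succ, qq, Nat.cast_ofNat,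
      Nat.cast_one, Nat.cast_zero, div_one]
    rfl)
  replace h := brgv_slet (d.cae) h (by
    simp only [Ex.val, List.getD_cons_zero, List.getD_cons_succ, qq, Nat.cast_ofNat,
      Nat.cast_one, Nat.cast_zero, div_one]
    rfl)
  replace h := brgv_slet (1049 / 1000 * d.k) h (by
    simp only [Ex.val, List.getD_cons_zero, List.getD_cons_succ, qq, Nat.cast_ofNat,
      Nat.cast_one, Nat.cast_zero, div_one])
  replace h := brgv_slet (d.ckj 0) h (by
    simp only [Ex.val, List.getD_cons_zero, List.getD_cons_succ, qq, Nat.cast_ofNat,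
      Nat.cast_one, Nat.cast_zero, div_one, brgv_G0]
    rfl)
  replace h := brgv_slet (d.ckj 1) h (by
    simp only [Ex.val, List.getD_cons_zero, List.getD_cons_succ, qq, Nat.cast_ofNat,
      Nat.cast_one, Nat.cast_zero, div_one, brgv_G1]
    rfl)
  replace h := brgv_slet (d.ckj 2) h (by
    simp only [Ex.val, List.getD_cons_zero, List.getD_cons_succ, qq, Nat.cast_ofNat,
      Nat.cast_one, Nat.cast_zero, div_one, brgv_G2]
    rfl)
  replace h := brgv_slet (d.ckj 3) h (by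
    simp only [Ex.val, List.getD_cons_zero, List.getD_cons_succ, qq, Nat.cast_ofNat,
      Nat.cast_one, Nat.cast_zero, div_one, brgv_G3]
    rfl)
  simp only [Ck.holds, Ex.val, List.getD_cons_zero, List.getD_cons_succ, qq, Nat.cast_ofNat,
      Nat.cast_one, Nat.cast_zero, div_one, brgv_G0, brgv_G1, brgv_G2, brgv_G3] at h
  exact ⟨h.1.1, h.1.2.1, h.1.2.2.1, h.2.1.1, h.2.2.1.1, h.2.2.2.1.1⟩

/-- The check program expresses validity. -/
theorem Sd.valid_of_holds (d : Sd) (h : ck.holds d.list []) : d.Valid := by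
  unfold ck ckMain Sd.list at h
  replace h := brgv_vmk (d.ue) h (by
    simp only [Ex.val, List.getD_cons_zero, List.getD_cons_succ, qq, Nat.cast_ofNat,
      Nat.cast_one, Nat.cast_zero, div_one]
    exact vec_eta _)
  replace h := brgv_vmk (d.us) h (by
    simp only [Ex.val, List.getD_cons_zero, List.getD_cons_succ, qq, Nat.cast_ofNat,
      Nat.cast_one, Nat.cast_zero, div_one]
    exact vec_eta _)
  replace h := brgv_vmk (d.TA) h (by
    simp only [Ex.val, List.getD_cons_zero, List.getD_cons_succ, qq, Nat.cast_ofNat,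
      Nat.cast_one, Nat.cast_zero, div_one]
    exact vec_eta _)
  replace h := brgv_vmk (d.Q) h (by
    simp only [Ex.val, List.getD_cons_zero, List.getD_cons_succ, qq, Nat.cast_ofNat,
      Nat.cast_one, Nat.cast_zero, div_one]
    exact vec_eta _)
  obtain ⟨hR, h⟩ := brgv_both h
  replace h := brgv_slet (d.lam) h (by
    simp only [Ex.val, List.getD_cons_zero, List.getD_cons_succ, qq, Nat.cast_ofNat,
      Nat.cast_one, Nat.cast_zero, div_one]
    rfl)
  replace h := brgv_slet (d.eb) h (by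
    simp only [Ex.val, List.getD_cons_zero, List.getD_cons_succ, qq, Nat.cast_ofNat,
      Nat.cast_one, Nat.cast_zero, div_one]
    rfl)
  replace h := brgv_vmk (d.wv) h (by
    simp only [Ex.val, List.getD_cons_zero, List.getD_cons_succ, qq, Nat.cast_ofNat,
      Nat.cast_one, Nat.cast_zero, div_one]
    rfl)
  replace h := brgv_slet (d.x1) h (by
    simp only [Ex.val, List.getD_cons_zero, List.getD_cons_succ, qq, Nat.cast_ofNat,
      Nat.cast_one, Nat.cast_zero, div_one]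
    rfl)
  replace h := brgv_slet (d.t1) h (by
    simp only [Ex.val, List.getD_cons_zero, List.getD_cons_succ, qq, Nat.cast_ofNat,
      Nat.cast_one, Nat.cast_zero, div_one]
    rfl)
  replace h := brgv_slet (d.mo) h (by
    simp only [Ex.val, List.getD_cons_zero, List.getD_cons_succ, qq, Nat.cast_ofNat,
      Nat.cast_one, Nat.cast_zero, div_one]
    rfl)
  replace h := brgv_slet (d.sh) h (by
    simp only [Ex.val, List.getD_cons_zero, List.getD_cons_succ, qq, Nat.cast_ofNat,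
      Nat.cast_one, Nat.cast_zero, div_one]
    rfl)
  replace h := brgv_slet (d.mc) h (by
    simp only [Ex.val, List.getD_cons_zero, List.getD_cons_succ, qq, Nat.cast_ofNat,
      Nat.cast_one, Nat.cast_zero, div_one]
    rfl)
  obtain ⟨hS, h⟩ := brgv_both h
  replace h := brgv_slet (d.qa) h (by
    simp only [Ex.val, List.getD_cons_zero, List.getD_cons_succ, qq, Nat.cast_ofNat,
      Nat.cast_one, Nat.cast_zero, div_one]
    rfl)
  replace h := brgv_slet (d.qb) h (by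
    simp only [Ex.val, List.getD_cons_zero, List.getD_cons_succ, qq, Nat.cast_ofNat,
      Nat.cast_one, Nat.cast_zero, div_one]
    rfl)
  replace h := brgv_slet (d.qy) h (by
    simp only [Ex.val, List.getD_cons_zero, List.getD_cons_succ, qq, Nat.cast_ofNat,
      Nat.cast_one, Nat.cast_zero, div_one]
    rfl)
  replace h := brgv_slet (d.qz) h (by
    simp only [Ex.val, List.getD_cons_zero, List.getD_cons_succ, qq, Nat.cast_ofNat,
      Nat.cast_one, Nat.cast_zero, div_one]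
    rfl)
  replace h := brgv_vmk (d.q0) h (by
    simp only [Ex.val, List.getD_cons_zero, List.getD_cons_succ, qq, Nat.cast_ofNat,
      Nat.cast_one, Nat.cast_zero, div_one]
    rfl)
  replace h := brgv_vmk (d.q1) h (by
    simp only [Ex.val, List.getD_cons_zero, List.getD_cons_succ, qq, Nat.cast_ofNat,
      Nat.cast_one, Nat.cast_zero, div_one]
    rfl)
  replace h := brgv_vadd (d.q0 + d.q1) h rfl
  replace h := brgv_slet (d.tc) h (by
    simp only [Ex.val, List.getD_cons_zero, List.getD_cons_succ, qq, Nat.cast_ofNat,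
      Nat.cast_one, Nat.cast_zero, div_one]
    rfl)
  replace h := brgv_slet (d.ts) h (by
    simp only [Ex.val, List.getD_cons_zero, List.getD_cons_succ, qq, Nat.cast_ofNat,
      Nat.cast_one, Nat.cast_zero, div_one]
    rfl)
  replace h := brgv_slet (d.w2) h (by
    simp only [Ex.val, List.getD_cons_zero, List.getD_cons_succ, qq, Nat.cast_ofNat,
      Nat.cast_one, Nat.cast_zero, div_one]
    rfl)
  replace h := brgv_vmk (d.a0) h (by
    simp only [Ex.val, List.getD_cons_zero, List.getD_cons_succ, qq, Nat.cast_ofNat,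
      Nat.cast_one, Nat.cast_zero, div_one]
    rfl)
  replace h := brgv_slet (d.w2s) h (by
    simp only [Ex.val, List.getD_cons_zero, List.getD_cons_succ, qq, Nat.cast_ofNat,
      Nat.cast_one, Nat.cast_zero, div_one]
    rfl)
  replace h := brgv_vmk (d.a1) h (by
    simp only [Ex.val, List.getD_cons_zero, List.getD_cons_succ, qq, Nat.cast_ofNat,
      Nat.cast_one, Nat.cast_zero, div_one]
    rfl)
  replace h := brgv_vmk (d.a2) h (by
    simp only [Ex.val, List.getD_cons_zero, List.getD_cons_succ, qq, Nat.cast_ofNat,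
      Nat.cast_one, Nat.cast_zero, div_one]
    rfl)
  replace h := brgv_vmk (d.a3) h (by
    simp only [Ex.val, List.getD_cons_zero, List.getD_cons_succ, qq, Nat.cast_ofNat,
      Nat.cast_one, Nat.cast_zero, div_one]
    rfl)
  replace h := brgv_slet (pp ⟪Mk 0, d.wv⟫) h (by
    simp only [Ex.val, List.getD_cons_zero, List.getD_cons_succ, qq, Nat.cast_ofNat,
      Nat.cast_one, Nat.cast_zero, div_one, brgv_M0])
  replace h := brgv_slet (d.zs 0) h (by
    simp only [Ex.val, List.getD_cons_zero, List.getD_cons_succ, qq, Nat.cast_ofNat,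
      Nat.cast_one, Nat.cast_zero, div_one, brgv_M0]
    rfl)
  replace h := brgv_slet (d.ze 0) h (by
    simp only [Ex.val, List.getD_cons_zero, List.getD_cons_succ, qq, Nat.cast_ofNat,
      Nat.cast_one, Nat.cast_zero, div_one, brgv_M0]
    rfl)
  replace h := brgv_slet (pp ⟪Mk 1, d.wv⟫) h (by
    simp only [Ex.val, List.getD_cons_zero, List.getD_cons_succ, qq, Nat.cast_ofNat,
      Nat.cast_one, Nat.cast_zero, div_one, brgv_M1])
  replace h := brgv_slet (d.zs 1) h (by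
    simp only [Ex.val, List.getD_cons_zero, List.getD_cons_succ, qq, Nat.cast_ofNat,
      Nat.cast_one, Nat.cast_zero, div_one, brgv_M1]
    rfl)
  replace h := brgv_slet (d.ze 1) h (by
    simp only [Ex.val, List.getD_cons_zero, List.getD_cons_succ, qq, Nat.cast_ofNat,
      Nat.cast_one, Nat.cast_zero, div_one, brgv_M1]
    rfl)
  replace h := brgv_slet (pp ⟪Mk 2, d.wv⟫) h (by
    simp only [Ex.val, List.getD_cons_zero, List.getD_cons_succ, qq, Nat.cast_ofNat,
      Nat.cast_one, Nat.cast_zero, div_one, brgv_M2])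
  replace h := brgv_slet (d.zs 2) h (by
    simp only [Ex.val, List.getD_cons_zero, List.getD_cons_succ, qq, Nat.cast_ofNat,
      Nat.cast_one, Nat.cast_zero, div_one, brgv_M2]
    rfl)
  replace h := brgv_slet (d.ze 2) h (by
    simp only [Ex.val, List.getD_cons_zero, List.getD_cons_succ, qq, Nat.cast_ofNat,
      Nat.cast_one, Nat.cast_zero, div_one, brgv_M2]
    rfl)
  replace h := brgv_slet (pp ⟪Mk 3, d.wv⟫) h (by
    simp only [Ex.val, List.getD_cons_zero, List.getD_cons_succ, qq, Nat.cast_ofNat,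
      Nat.cast_one, Nat.cast_zero, div_one, brgv_M3])
  replace h := brgv_slet (d.zs 3) h (by
    simp only [Ex.val, List.getD_cons_zero, List.getD_cons_succ, qq, Nat.cast_ofNat,
      Nat.cast_one, Nat.cast_zero, div_one, brgv_M3]
    rfl)
  replace h := brgv_slet (d.ze 3) h (by
    simp only [Ex.val, List.getD_cons_zero, List.getD_cons_succ, qq, Nat.cast_ofNat,
      Nat.cast_one, Nat.cast_zero, div_one, brgv_M3]
    rfl)
  replace h := brgv_slet (d.zms) h (by
    simp only [Ex.val, List.getD_cons_zero, List.getD_cons_succ, qq, Nat.cast_ofNat,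
      Nat.cast_one, Nat.cast_zero, div_one]
    rfl)
  replace h := brgv_slet (d.zme) h (by
    simp only [Ex.val, List.getD_cons_zero, List.getD_cons_succ, qq, Nat.cast_ofNat,
      Nat.cast_one, Nat.cast_zero, div_one]
    rfl)
  replace h := brgv_slet (d.Cm) h (by
    simp only [Ex.val, List.getD_cons_zero, List.getD_cons_succ, qq, Nat.cast_ofNat,
      Nat.cast_one, Nat.cast_zero, div_one, brgv_M0, brgv_M1, brgv_M2, brgv_M3]
    rfl)
  replace h := brgv_slet (d.lz) h (by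
    simp only [Ex.val, List.getD_cons_zero, List.getD_cons_succ, qq, Nat.cast_ofNat,
      Nat.cast_one, Nat.cast_zero, div_one]
    rfl)
  replace h := brgv_slet (d.m1) h (by
    simp only [Ex.val, List.getD_cons_zero, List.getD_cons_succ, qq, Nat.cast_ofNat,
      Nat.cast_one, Nat.cast_zero, div_one]
    rfl)
  replace h := brgv_slet (d.Kk) h (by
    simp only [Ex.val, List.getD_cons_zero, List.getD_cons_succ, qq, Nat.cast_ofNat,
      Nat.cast_one, Nat.cast_zero, div_one]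
    rfl)
  obtain ⟨hZ, h⟩ := brgv_both h
  obtain ⟨hB1, h⟩ := brgv_both h
  obtain ⟨hB2, h⟩ := brgv_both h
  obtain ⟨hB5, h⟩ := brgv_both h
  obtain ⟨hB6, h⟩ := brgv_both h
  obtain ⟨hA, h⟩ := brgv_both h
  obtain ⟨hX, h⟩ := brgv_both h
  obtain ⟨hM, h⟩ := brgv_both h
  have hz := brgv_zero d hZ
  exact ⟨brgv_range d _ hR, brgv_side d hS,
    ⟨hz.1, hz.2, brgv_b1 d hB1, brgv_b2 d hB2, brgv_b5 d hB5, brgv_b6 d hB6⟩,
    brgv_a d hA, brgv_x d hX, brgv_m d hM⟩

end Pool.Agent.Lib.MP_ee7495_gt.Y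
end
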