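import Mathlib
import Pool.Agent.Lib.MP_ee7495_gt.Y.Sym

-- part Pool.Agent.Lib.MP_ee7495_gt.Y.CritA
section

set_option autoImplicit false

open scoped RealInnerProductSpace
open Real Set

namespace Pool.Agent.Lib.MP_ee7495_gt.Y

/-- The quadratic form. -/
noncomputable def critaQ (Q : Fin 9 → Fin 9 → ℝ) (δ : Fin 9 → ℝ) : ℝ :=
  ∑ i, ∑ j, Q i j * δ i * δ j

/-- Its polarisation. -/
noncomputable def critaB (Q : Fin 9 → Fin 9 → ℝ) (η δ : Fin 9 → ℝ) : ℝ :=
  ∑ j, (∑ k, δ k * (Q k j + Q j k)) * η j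

theorem crita_polar (Q : Fin 9 → Fin 9 → ℝ) (η δ : Fin 9 → ℝ) :
    critaQ Q (η + δ) = critaQ Q η + critaQ Q δ + critaB Q η δ := by
  have h1 : critaB Q η δ = (∑ i, ∑ j, Q i j * δ i * η j) + ∑ i, ∑ j, Q i j * η i * δ j := by
    unfold critaB
    rw [Finset.sum_comm (f := fun i j => Q i j * δ i * η j), ← Finset.sum_add_distrib]
    refine Finset.sum_congr rfl fun j _ => ?_
    rw [Finset.sum_mul, ← Finset.sum_add_distrib]
    refine Finset.sum_congr rfl fun k _ => ?_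
    ring
  rw [h1]
  unfold critaQ
  simp only [← Finset.sum_add_distrib, Pi.add_apply]
  refine Finset.sum_congr rfl fun i _ => Finset.sum_congr rfl fun j _ => ?_
  ring

theorem crita_B_smul (Q : Fin 9 → Fin 9 → ℝ) (η δ : Fin 9 → ℝ) (t : ℝ) :
    critaB Q η (t • δ) = t * critaB Q η δ := by
  unfold critaB
  rw [Finset.mul_sum]
  refine Finset.sum_congr rfl fun j _ => ?_
  rw [← mul_assoc, Finset.mul_sum]
  congr 1
  refine Finset.sum_congr rfl fun k _ => ?_
  simp only [Pi.smul_apply, smul_eq_mul]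
  ring

theorem crita_Q_le (Q : Fin 9 → Fin 9 → ℝ) (δ : Fin 9 → ℝ) :
    |critaQ Q δ| ≤ (∑ i, ∑ j, |Q i j|) * ‖δ‖ ^ 2 := by
  unfold critaQ
  rw [Finset.sum_mul]
  refine (Finset.abs_sum_le_sum_abs _ _).trans (Finset.sum_le_sum fun i _ => ?_)
  rw [Finset.sum_mul]
  refine (Finset.abs_sum_le_sum_abs _ _).trans (Finset.sum_le_sum fun j _ => ?_)
  rw [abs_mul, abs_mul, mul_assoc, sq]
  refine mul_le_mul_of_nonneg_left ?_ (abs_nonneg _)
  exact mul_le_mul (norm_le_pi_norm δ i) (norm_le_pi_norm δ j) (abs_nonneg _) (norm_nonneg _)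

theorem crita_deriv {F : (Fin 9 → ℝ) → ℝ} {w : Fin 9 → ℝ} {R e : ℝ} {Q : Fin 9 → Fin 9 → ℝ}
    {l : (Fin 9 → ℝ) →L[ℝ] ℝ} (hR : 0 < R)
    (h : ∀ δ : Fin 9 → ℝ, ‖δ‖ ≤ R → |F (w + δ) - F w - l δ - critaQ Q δ| ≤ e * ‖δ‖ ^ 2) :
    HasFDerivAt F l w := by
  rw [hasFDerivAt_iff_isLittleO_nhds_zero]
  have h1 : (fun δ : Fin 9 → ℝ => F (w + δ) - F w - l δ) =O[nhds 0] fun δ => ‖δ‖ ^ 2 := by
    refine Asymptotics.IsBigO.of_bound (e + ∑ i, ∑ j, |Q i j|) ?_
    filter_upwards [Metric.closedBall_mem_nhds (0 : Fin 9 → ℝ) hR] with δ hδ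
    rw [mem_closedBall_zero_iff] at hδ
    have a := h δ hδ
    have b := crita_Q_le Q δ
    rw [Real.norm_eq_abs, Real.norm_eq_abs, abs_of_nonneg (sq_nonneg ‖δ‖)]
    have c := abs_add_le (F (w + δ) - F w - l δ - critaQ Q δ) (critaQ Q δ)
    rw [sub_add_cancel] at c
    linarith
  exact h1.trans_isLittleO (Asymptotics.isLittleO_norm_pow_id (by norm_num))

theorem crita_rows {Q A : Fin 9 → Fin 9 → ℝ}
    (hA : ∀ i, ∑ j, |(if i = j then 1 else 0) - ∑ k, A i k * (Q k j + Q j k)| ≤ 1 / 2)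
    {l : (Fin 9 → ℝ) →L[ℝ] ℝ} (h : ∀ i, l (A i) = 0) : l = 0 := by
  set S : Matrix (Fin 9) (Fin 9) ℝ := Matrix.of fun k j => Q k j + Q j k with hS
  set M : Matrix (Fin 9) (Fin 9) ℝ := Matrix.of A with hM
  have h1 : (M * S).det ≠ 0 := by
    intro hd
    obtain ⟨v, hv0, hv⟩ := Matrix.exists_mulVec_eq_zero_iff.2 hd
    have h2 : ‖v‖ ≤ 1 / 2 * ‖v‖ := by
      refine (pi_norm_le_iff_of_nonneg (by positivity)).2 fun i => ?_
      have e : v i = ∑ j, ((if i = j then 1 else 0) - ∑ k, A i k * (Q k j + Q j k)) * v j := by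
        have := congrFun hv i
        simp only [Matrix.mulVec, dotProduct, Matrix.mul_apply, hS, hM, Matrix.of_apply,
          Pi.zero_apply] at this
        simp only [sub_mul, Finset.sum_sub_distrib, this, ite_mul, one_mul, zero_mul,
          Finset.sum_ite_eq, Finset.mem_univ, if_true, sub_zero]
      rw [e, Real.norm_eq_abs]
      refine (Finset.abs_sum_le_sum_abs _ _).trans ?_
      refine le_trans ?_ (mul_le_mul_of_nonneg_right (hA i) (norm_nonneg v))
      rw [Finset.sum_mul]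
      refine Finset.sum_le_sum fun j _ => ?_
      rw [abs_mul]
      exact mul_le_mul_of_nonneg_left (norm_le_pi_norm v j) (abs_nonneg _)
    have h3 := norm_pos_iff.2 hv0
    linarith
  have h2 : M.det ≠ 0 := by
    rw [Matrix.det_mul] at h1
    exact left_ne_zero_of_mul h1
  have key : ∀ x : Fin 9 → ℝ, l x = ∑ k, x k * l (Pi.single k 1) := by
    intro x
    conv_lhs => rw [pi_eq_sum_univ' x]
    rw [map_sum]
    refine Finset.sum_congr rfl fun k _ => ?_
    rw [map_smul, smul_eq_mul]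
  have h3 : (fun k => l (Pi.single k 1)) = 0 := by
    apply Matrix.eq_zero_of_mulVec_eq_zero h2
    funext i
    have := h i
    rw [key] at this
    simpa only [Matrix.mulVec, dotProduct, hM, Matrix.of_apply, Pi.zero_apply] using this
  ext1 x
  rw [key]
  have h4 : ∀ k, l (Pi.single k 1) = 0 := fun k => congrFun h3 k
  simp [h4]

/-- A function with uniform second order expansions whose quadratic part is nearly inverted by
`A` has exactly one critical point. -/
theorem crit_abstract {F : (Fin 9 → ℝ) → ℝ} {c Z : Fin 9 → ℝ} {ρ R e r : ℝ}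
    {Q A : Fin 9 → Fin 9 → ℝ} (hR : 4 * ρ ≤ R) (hρ : 0 < ρ) (hr : 0 ≤ r)
    (hZ : dist Z c + r ≤ ρ)
    (hF : ∀ w, dist w c ≤ ρ → ∃ ℓ : (Fin 9 → ℝ) →L[ℝ] ℝ, ∀ δ : Fin 9 → ℝ, ‖δ‖ ≤ R →
      |F (w + δ) - F w - ℓ δ - ∑ i, ∑ j, Q i j * δ i * δ j| ≤ e * ‖δ‖ ^ 2)
    (hA : ∀ i, ∑ j, |(if i = j then 1 else 0) - ∑ k, A i k * (Q k j + Q j k)| +
      6 * e * ‖A i‖ ≤ 1 / 2)
    (h0 : ∀ ℓ : (Fin 9 → ℝ) →L[ℝ] ℝ, HasFDerivAt F ℓ Z → ∀ i, |ℓ (A i)| ≤ r / 2) :
    ∃ z, dist z Z ≤ r ∧ HasFDerivAt F (0 : (Fin 9 → ℝ) →L[ℝ] ℝ) z ∧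
      ∀ w, dist w c ≤ ρ → HasFDerivAt F (0 : (Fin 9 → ℝ) →L[ℝ] ℝ) w → w = z := by
  have R0 : 0 < R := by linarith
  have hL : ∀ w, dist w c ≤ ρ → HasFDerivAt F (fderiv ℝ F w) w ∧ ∀ δ : Fin 9 → ℝ, ‖δ‖ ≤ R →
      |F (w + δ) - F w - fderiv ℝ F w δ - critaQ Q δ| ≤ e * ‖δ‖ ^ 2 := by
    intro w hw
    obtain ⟨l, hl⟩ := hF w hw
    have h1 : HasFDerivAt F l w := crita_deriv (Q := Q) R0 hl
    rw [h1.fderiv]
    exact ⟨h1, hl⟩
  have e0 : 0 ≤ e := by
    have hn : ‖(fun _ => R : Fin 9 → ℝ)‖ = R := by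
      rw [pi_norm_const, Real.norm_eq_abs, abs_of_pos R0]
    have h1 := (hL c (by rw [dist_self]; exact hρ.le)).2 (fun _ => R) hn.le
    rw [hn] at h1
    have h2 := (abs_nonneg _).trans h1
    exact nonneg_of_mul_nonneg_left h2 (by positivity)
  have step : ∀ w w', dist w c ≤ ρ → dist w' c ≤ ρ → ∀ d : Fin 9 → ℝ,
      |fderiv ℝ F w' d - fderiv ℝ F w d - critaB Q (w' - w) d| ≤ 6 * e * ‖d‖ * ‖w' - w‖ := by
    intro w w' hw hw' d
    rcases eq_or_ne w' w with rfl | hne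
    · simp [critaB]
    rcases eq_or_ne d 0 with rfl | hd
    · simp [critaB]
    obtain ⟨η, rfl⟩ : ∃ η, w' = w + η := ⟨w' - w, by abel⟩
    rw [add_sub_cancel_left]
    have t0 : 0 < ‖η‖ := norm_pos_iff.2 fun h => hne (by rw [h, add_zero])
    have d0 : 0 < ‖d‖ := norm_pos_iff.2 hd
    have t2 : ‖η‖ ≤ 2 * ρ := by
      have h1 := dist_triangle_right (w + η) w c
      rw [dist_self_add_left] at h1
      linarith
    set s : ℝ := ‖η‖ / ‖d‖ with hs
    have s0 : 0 < s := div_pos t0 d0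
    have sd : s * ‖d‖ = ‖η‖ := div_mul_cancel₀ _ d0.ne'
    have n1 : ‖s • d‖ = ‖η‖ := by rw [norm_smul, Real.norm_eq_abs, abs_of_pos s0, sd]
    have n2 : ‖η + s • d‖ ≤ 2 * ‖η‖ := by
      have := norm_add_le η (s • d)
      linarith
    have a1 := (hL w hw).2 (η + s • d) (by linarith)
    have a2 := (hL w hw).2 η (by linarith)
    have a3 := (hL (w + η) hw').2 (s • d) (by linarith)
    have n3 : e * ‖η + s • d‖ ^ 2 ≤ e * (2 * ‖η‖) ^ 2 :=
      mul_le_mul_of_nonneg_left (pow_le_pow_left₀ (norm_nonneg _) n2 2) e0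
    rw [crita_polar, crita_B_smul, map_add, map_smul, smul_eq_mul, ← add_assoc] at a1
    rw [n1, map_smul, smul_eq_mul] at a3
    have a4 : |s * (fderiv ℝ F (w + η) d - fderiv ℝ F w d - critaB Q η d)| ≤
        s * (6 * e * ‖d‖ * ‖η‖) := by
      have e1 : s * (6 * e * ‖d‖ * ‖η‖) = 6 * e * ‖η‖ ^ 2 := by
        rw [sq]; calc _ = 6 * e * (s * ‖d‖ * ‖η‖) := by ring
          _ = _ := by rw [sd]
      rw [e1, abs_le]
      rw [abs_le] at a1 a2 a3
      constructor <;> nlinarith [a1.1, a1.2, a2.1, a2.2, a3.1, a3.2]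
    rw [abs_mul, abs_of_pos s0] at a4
    exact le_of_mul_le_mul_left a4 s0
  set Φ : (Fin 9 → ℝ) → Fin 9 → ℝ := fun w i => w i - fderiv ℝ F w (A i) with hΦ
  have lip : ∀ w w', dist w c ≤ ρ → dist w' c ≤ ρ → dist (Φ w') (Φ w) ≤ 1 / 2 * dist w' w := by
    intro w w' hw hw'
    refine (dist_pi_le_iff (by positivity)).2 fun i => ?_
    have a1 := step w w' hw hw' (A i)
    rw [dist_eq_norm w' w, Real.dist_eq]
    have a2 : |(w' - w) i - critaB Q (w' - w) (A i)| ≤
        (∑ j, |(if i = j then 1 else 0) - ∑ k, A i k * (Q k j + Q j k)|) * ‖w' - w‖ := by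
      have e : (w' - w) i - critaB Q (w' - w) (A i) =
          ∑ j, ((if i = j then 1 else 0) - ∑ k, A i k * (Q k j + Q j k)) * (w' - w) j := by
        unfold critaB
        simp only [sub_mul, Finset.sum_sub_distrib, ite_mul, one_mul, zero_mul,
          Finset.sum_ite_eq, Finset.mem_univ, if_true]
      rw [e]
      refine (Finset.abs_sum_le_sum_abs _ _).trans ?_
      rw [Finset.sum_mul]
      refine Finset.sum_le_sum fun j _ => ?_
      rw [abs_mul]
      exact mul_le_mul_of_nonneg_left (norm_le_pi_norm (w' - w) j) (abs_nonneg _)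
    have a3 := mul_le_mul_of_nonneg_right (hA i) (norm_nonneg (w' - w))
    have e : Φ w' i - Φ w i = ((w' - w) i - critaB Q (w' - w) (A i)) -
        (fderiv ℝ F w' (A i) - fderiv ℝ F w (A i) - critaB Q (w' - w) (A i)) := by
      simp only [hΦ, Pi.sub_apply]; ring
    rw [e]
    refine (abs_sub _ _).trans ?_
    linarith
  have sub : ∀ w ∈ Metric.closedBall Z r, dist w c ≤ ρ := by
    intro w hw
    have := dist_triangle w Z c
    have := Metric.mem_closedBall.1 hw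
    linarith
  have hZ0 : Z ∈ Metric.closedBall Z r := Metric.mem_closedBall_self hr
  have maps : MapsTo Φ (Metric.closedBall Z r) (Metric.closedBall Z r) := by
    intro w hw
    have a1 := lip Z w (sub Z hZ0) (sub w hw)
    have a2 : dist (Φ Z) Z ≤ r / 2 := by
      refine (dist_pi_le_iff (by positivity)).2 fun i => ?_
      have := h0 _ (hL Z (sub Z hZ0)).1 i
      rw [Real.dist_eq]
      simp only [hΦ]
      rwa [sub_sub_cancel_left, abs_neg]
    have a3 := dist_triangle (Φ w) (Φ Z) Z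
    have a4 := Metric.mem_closedBall.1 hw
    rw [Metric.mem_closedBall]
    linarith
  have con : ContractingWith (1 / 2 : NNReal) (maps.restrict Φ _ _) := by
    refine ⟨by norm_num, LipschitzWith.of_dist_le_mul fun x y => ?_⟩
    have := lip y.1 x.1 (sub _ y.2) (sub _ x.2)
    simpa only [Subtype.dist_eq, MapsTo.val_restrict_apply, NNReal.coe_div, NNReal.coe_one,
      NNReal.coe_ofNat] using this
  obtain ⟨z, hz, hfix, -⟩ := ContractingWith.exists_fixedPoint'
    Metric.isClosed_closedBall.isComplete maps con hZ0 (edist_ne_top _ _)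
  have hz0 : fderiv ℝ F z = 0 := by
    refine crita_rows (Q := Q) (A := A) (fun i => ?_) fun i => ?_
    · have := hA i
      have : 0 ≤ 6 * e * ‖A i‖ := by positivity
      linarith
    · have := congrFun hfix.eq i
      simp only [hΦ] at this
      linarith
  refine ⟨z, Metric.mem_closedBall.1 hz, hz0 ▸ (hL z (sub z hz)).1, fun w hw hw0 => ?_⟩
  have a1 := lip z w (sub z hz) hw
  have a2 : Φ w = w := by
    funext i
    simp only [hΦ, hw0.fderiv, zero_apply, sub_zero]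
  rw [a2, hfix.eq] at a1
  have := dist_nonneg (x := w) (y := z)
  exact dist_le_zero.1 (by linarith)

end Pool.Agent.Lib.MP_ee7495_gt.Y
end

-- part Pool.Agent.Lib.MP_ee7495_gt.Y.UCurve
section

set_option autoImplicit false

open scoped RealInnerProductSpace
open Real Set

namespace Pool.Agent.Lib.MP_ee7495_gt.Y

/-- A curve given on an arbitrary compact interval. -/
theorem ucurve_of_Icc {g : ℝ → E} {a b L : ℝ} (hab : a ≤ b) (hc : ContinuousOn g (Icc a b))
    (hv : eVariationOn g (Icc a b) ≤ ENNReal.ofReal L) :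
    HasCurve (g a) (g b) L (g '' Icc a b) := by
  have hba : 0 ≤ b - a := sub_nonneg.2 hab
  have hm : MapsTo (fun t : ℝ => a + t * (b - a)) (Icc 0 1) (Icc a b) := by
    intro t ht
    constructor
    · have := mul_nonneg ht.1 hba
      show a ≤ a + t * (b - a)
      linarith
    · have := mul_le_mul_of_nonneg_right ht.2 hba
      show a + t * (b - a) ≤ b
      linarith
  have hmono : MonotoneOn (fun t : ℝ => a + t * (b - a)) (Icc 0 1) := by
    intro x _ y _ hxy
    have := mul_le_mul_of_nonneg_right hxy hba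
    show a + x * (b - a) ≤ a + y * (b - a)
    linarith
  refine ⟨g ∘ fun t : ℝ => a + t * (b - a), hc.comp (by fun_prop) hm, by simp, by simp,
    (eVariationOn.comp_le_of_monotoneOn g _ hmono hm).trans hv, ?_⟩
  rintro _ ⟨x, hx, rfl⟩
  rcases hba.eq_or_lt with h0 | h0
  · refine ⟨0, ⟨le_rfl, zero_le_one⟩, ?_⟩
    have : x = a := le_antisymm (by linarith [hx.2]) hx.1
    simp [this]
  · refine ⟨(x - a) / (b - a), ⟨div_nonneg (sub_nonneg.2 hx.1) hba,
      (div_le_one h0).2 (by linarith [hx.2])⟩, ?_⟩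
    show g (a + (x - a) / (b - a) * (b - a)) = g x
    rw [div_mul_cancel₀ _ h0.ne']
    simp

/-- The variation is bounded by the increment of a dominating function. -/
theorem ucurve_var_le {g : ℝ → E} {s : ℝ → ℝ} {a b : ℝ}
    (h : ∀ x ∈ Icc a b, ∀ y ∈ Icc a b, x ≤ y → ‖g y - g x‖ ≤ s y - s x) :
    eVariationOn g (Icc a b) ≤ ENNReal.ofReal (s b - s a) := by
  apply iSup_le _
  rintro ⟨n, ⟨u, hu, us⟩⟩
  have hab : a ≤ b := (us 0).1.trans (us 0).2
  have hmono : ∀ x ∈ Icc a b, ∀ y ∈ Icc a b, x ≤ y → s x ≤ s y := by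
    intro x hx y hy hxy
    have := (norm_nonneg _).trans (h x hx y hy hxy)
    linarith
  calc ∑ i ∈ Finset.range n, edist (g (u (i + 1))) (g (u i))
      ≤ ∑ i ∈ Finset.range n, ENNReal.ofReal (s (u (i + 1)) - s (u i)) := by
        refine Finset.sum_le_sum fun i _ => ?_
        rw [edist_dist, dist_eq_norm]
        exact ENNReal.ofReal_le_ofReal (h _ (us i) _ (us (i + 1)) (hu (Nat.le_succ i)))
    _ = ENNReal.ofReal (∑ i ∈ Finset.range n, (s (u (i + 1)) - s (u i))) := by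
        rw [ENNReal.ofReal_sum_of_nonneg]
        exact fun i _ => sub_nonneg.2 (hmono _ (us i) _ (us (i + 1)) (hu (Nat.le_succ i)))
    _ = ENNReal.ofReal (s (u n) - s (u 0)) := by
        rw [Finset.sum_range_sub (fun i => s (u i))]
    _ ≤ _ := ENNReal.ofReal_le_ofReal (sub_le_sub
        (hmono _ (us n) _ ⟨hab, le_rfl⟩ (us n).2) (hmono _ ⟨le_rfl, hab⟩ _ (us 0) (us 0).1))

theorem HasCurve.mono {p q : E} {L L' : ℝ} {S S' : Set E} (h : HasCurve p q L S) (hL : L ≤ L')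
    (hS : S' ⊆ S) : HasCurve p q L' S' := by
  obtain ⟨γ, hc, h0, h1, hv, hs⟩ := h
  exact ⟨γ, hc, h0, h1, hv.trans (ENNReal.ofReal_le_ofReal hL), hS.trans hs⟩

theorem HasCurve.trans {p q r : E} {L L' : ℝ} {S S' : Set E} (h : HasCurve p q L S)
    (h' : HasCurve q r L' S') (hL : 0 ≤ L) (hL' : 0 ≤ L') : HasCurve p r (L + L') (S ∪ S') := by
  obtain ⟨γ, hc, h0, h1, hv, hs⟩ := h
  obtain ⟨δ, hc', h0', h1', hv', hs'⟩ := h'
  let g : ℝ → E := fun t => if t ≤ 1 then γ t else δ (t - 1)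
  have e1 : EqOn g γ (Icc 0 1) := fun t ht => if_pos ht.2
  have e2 : EqOn g (δ ∘ fun t : ℝ => t - 1) (Icc 1 2) := by
    intro t ht
    rcases ht.1.eq_or_lt with h | h
    · subst h
      show (if (1 : ℝ) ≤ 1 then γ 1 else δ (1 - 1)) = δ (1 - 1)
      rw [if_pos le_rfl, h1, sub_self, h0']
    · exact if_neg (not_le.2 h)
  have hm : MapsTo (fun t : ℝ => t - 1) (Icc 1 2) (Icc 0 1) := by
    intro t ht
    constructor
    · show 0 ≤ t - 1
      linarith [ht.1]
    · show t - 1 ≤ 1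
      linarith [ht.2]
  have hmono : MonotoneOn (fun t : ℝ => t - 1) (Icc 1 2) := by
    intro x _ y _ hxy
    show x - 1 ≤ y - 1
    linarith
  have hu : Icc (0 : ℝ) 1 ∪ Icc 1 2 = Icc 0 2 := Icc_union_Icc_eq_Icc zero_le_one one_le_two
  have hgc : ContinuousOn g (Icc 0 2) := by
    rw [← hu]
    exact (hc.congr e1).union_of_isClosed ((hc'.comp (by fun_prop) hm).congr e2)
      isClosed_Icc isClosed_Icc
  have hgv : eVariationOn g (Icc 0 2) ≤ ENNReal.ofReal (L + L') := by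
    have := eVariationOn.Icc_add_Icc g (s := univ) (a := 0) (b := 1) (c := 2) zero_le_one
      one_le_two (mem_univ _)
    simp only [univ_inter] at this
    rw [← this, ENNReal.ofReal_add hL hL', eVariationOn.eq_of_eqOn e1, eVariationOn.eq_of_eqOn e2]
    exact add_le_add hv ((eVariationOn.comp_le_of_monotoneOn δ _ hmono hm).trans hv')
  have key := ucurve_of_Icc (by norm_num : (0 : ℝ) ≤ 2) hgc hgv
  have g0 : g 0 = p := (e1 ⟨le_rfl, zero_le_one⟩).trans h0
  have g2 : g 2 = r := by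
    rw [e2 ⟨one_le_two, le_rfl⟩]
    show δ (2 - 1) = r
    rw [show (2 : ℝ) - 1 = 1 by norm_num, h1']
  rw [g0, g2] at key
  refine key.mono le_rfl ?_
  rintro x (hx | hx)
  · obtain ⟨t, ht, rfl⟩ := hs hx
    exact ⟨t, ⟨ht.1, ht.2.trans one_le_two⟩, e1 ht⟩
  · obtain ⟨t, ht, rfl⟩ := hs' hx
    have ht' : t + 1 ∈ Icc (1 : ℝ) 2 := ⟨by linarith [ht.1], by linarith [ht.2]⟩
    refine ⟨t + 1, ⟨zero_le_one.trans ht'.1, ht'.2⟩, ?_⟩
    rw [e2 ht']
    simp

theorem HasCurve.symm {p q : E} {L : ℝ} {S : Set E} (h : HasCurve p q L S) :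
    HasCurve q p L S := by
  obtain ⟨γ, hc, h0, h1, hv, hs⟩ := h
  have hm : MapsTo (fun t : ℝ => 1 - t) (Icc 0 1) (Icc 0 1) := by
    intro t ht
    constructor
    · show 0 ≤ 1 - t
      linarith [ht.2]
    · show 1 - t ≤ 1
      linarith [ht.1]
  have hanti : AntitoneOn (fun t : ℝ => 1 - t) (Icc 0 1) := by
    intro x _ y _ hxy
    show 1 - y ≤ 1 - x
    linarith
  refine ⟨γ ∘ fun t : ℝ => 1 - t, hc.comp (by fun_prop) hm, by simpa using h1, by simpa using h0,
    (eVariationOn.comp_le_of_antitoneOn γ _ hanti hm).trans hv, ?_⟩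
  intro x hx
  obtain ⟨t, ht, rfl⟩ := hs hx
  exact ⟨1 - t, hm ht, by simp⟩

theorem HasCurve.map {p q : E} {L : ℝ} {S : Set E} (h : HasCurve p q L S) {f : E → E}
    (hf : ∀ u v, ‖f u - f v‖ = ‖u - v‖) : HasCurve (f p) (f q) L (f '' S) := by
  obtain ⟨γ, hc, h0, h1, hv, hs⟩ := h
  have hi : Isometry f := Isometry.of_dist_eq fun u v => by rw [dist_eq_norm, dist_eq_norm, hf]
  refine ⟨f ∘ γ, hi.continuous.comp_continuousOn hc, by simp [h0], by simp [h1], ?_, ?_⟩
  · have := (hi.lipschitz.lipschitzOnWith (s := univ)).comp_eVariationOn_le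
      (g := γ) (s := Icc (0 : ℝ) 1) (mapsTo_univ _ _)
    refine this.trans ?_
    simpa using hv
  · rintro _ ⟨x, hx, rfl⟩
    obtain ⟨t, ht, rfl⟩ := hs hx
    exact ⟨t, ht, rfl⟩

theorem hasCurve_segment (p q : E) : HasCurve p q ‖q - p‖ (segment ℝ p q) := by
  refine ⟨fun t => p + t • (q - p), by fun_prop, by simp, by simp, ?_, ?_⟩
  · have := ucurve_var_le (g := fun t : ℝ => p + t • (q - p)) (s := fun t => t * ‖q - p‖)
      (a := 0) (b := 1) (by
        intro x _ y _ hxy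
        have e : p + y • (q - p) - (p + x • (q - p)) = (y - x) • (q - p) := by
          rw [sub_smul]; abel
        rw [e, norm_smul, Real.norm_eq_abs, abs_of_nonneg (sub_nonneg.2 hxy), sub_mul])
    simpa using this
  · rw [segment_eq_image']

/-- A differentiable arc whose speed is at most the derivative of `s`. -/
theorem hasCurve_arc {f f' : ℝ → E} {s s' : ℝ → ℝ} {a b : ℝ} (hab : a ≤ b)
    (hf : ∀ t ∈ Icc a b, HasDerivAt f (f' t) t) (hs : ∀ t ∈ Icc a b, HasDerivAt s (s' t) t)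
    (hle : ∀ t ∈ Icc a b, ‖f' t‖ ≤ s' t) :
    HasCurve (f a) (f b) (s b - s a) (f '' Icc a b) := by
  refine ucurve_of_Icc hab (fun t ht => (hf t ht).continuousAt.continuousWithinAt)
    (ucurve_var_le ?_)
  intro x hx y hy hxy
  have hsub : Icc x y ⊆ Icc a b := Icc_subset_Icc hx.1 hy.2
  have := image_norm_le_of_norm_deriv_right_le_deriv_boundary' (f := fun t => f t - f x)
    (a := x) (b := y) (f' := f')
    (fun t ht => ((hf t (hsub ht)).sub_const (f x)).continuousAt.continuousWithinAt)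
    (fun t ht => ((hf t (hsub (Ico_subset_Icc_self ht))).sub_const (f x)).hasDerivWithinAt)
    (B := fun t => s t - s x) (B' := s') (by simp)
    (fun t ht => ((hs t (hsub ht)).sub_const (s x)).continuousAt.continuousWithinAt)
    (fun t ht => ((hs t (hsub (Ico_subset_Icc_self ht))).sub_const (s x)).hasDerivWithinAt)
    (fun t ht => hle t (hsub (Ico_subset_Icc_self ht))) (x := y) ⟨hxy, le_rfl⟩
  exact this

/-- Scaling multiplies the variation. -/
theorem ucurve_var_smul_le (c : ℝ) (γ : ℝ → E) (s : Set ℝ) :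
    eVariationOn (fun t => c • γ t) s ≤ ENNReal.ofReal |c| * eVariationOn γ s := by
  have := ((lipschitzWith_smul (β := E) c).lipschitzOnWith (s := univ)).comp_eVariationOn_le
    (g := γ) (s := s) (mapsTo_univ _ _)
  refine le_trans (le_of_eq rfl) (this.trans (le_of_eq ?_))
  congr 1
  rw [← Real.norm_eq_abs, ofReal_norm]
  rfl

/-- A curve of length at most `L` and width at least one gives a breadth at least `1 / L`. -/
theorem upper_of_curve {p q : E} {L : ℝ} {S : Set E} (h : HasCurve p q L S) (hL : 0 < L)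
    (hw : ∀ v, Wd S v) : ∃ b ∈ BSet, 1 / L ≤ b := by
  obtain ⟨γ, hc, -, -, hv, hs⟩ := h
  have hb : BoundedVariationOn γ (Icc 0 1) := ne_top_of_le_ne_top ENNReal.ofReal_ne_top hv
  obtain ⟨V, hV⟩ : ∃ V : ℝ, V = (eVariationOn γ (Icc 0 1)).toReal := ⟨_, rfl⟩
  have hVe : eVariationOn γ (Icc 0 1) = ENNReal.ofReal V := by
    rw [hV, ENNReal.ofReal_toReal hb]
  have hVL : V ≤ L := by
    rw [hV]
    exact ENNReal.toReal_le_of_le_ofReal hL.le hv
  have hu1 : ‖(EuclideanSpace.single 0 1 : E)‖ = 1 := by simp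
  have hV1 : 1 ≤ V := by
    obtain ⟨x, hx, y, hy, hxy⟩ := hw (EuclideanSpace.single 0 1)
    obtain ⟨t, ht, rfl⟩ := hs hx
    obtain ⟨t', ht', rfl⟩ := hs hy
    have h1 := hb.dist_le ht ht'
    rw [dist_eq_norm, ← hV] at h1
    have h2 := real_inner_le_norm (γ t - γ t') (EuclideanSpace.single 0 1 : E)
    rw [hu1] at h2 hxy
    linarith
  have hV0 : 0 < V := by linarith
  let δ : ℝ → E := fun t => V⁻¹ • γ t
  have hδc : ContinuousOn δ (Icc 0 1) := hc.const_smul V⁻¹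
  have hδv : eVariationOn δ (Icc 0 1) = 1 := by
    apply le_antisymm
    · refine (ucurve_var_smul_le V⁻¹ γ _).trans ?_
      rw [hVe, abs_of_pos (inv_pos.2 hV0), ← ENNReal.ofReal_mul (inv_pos.2 hV0).le,
        inv_mul_cancel₀ hV0.ne', ENNReal.ofReal_one]
    · have h1 := ucurve_var_smul_le V δ (Icc 0 1)
      have e : (fun t => V • δ t) = γ := by
        funext t
        show V • V⁻¹ • γ t = γ t
        rw [smul_smul, mul_inv_cancel₀ hV0.ne', one_smul]
      rw [e, hVe, abs_of_pos hV0] at h1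
      have h2 : ENNReal.ofReal V * 1 ≤ ENNReal.ofReal V * eVariationOn δ (Icc 0 1) := by
        rwa [mul_one]
      exact (ENNReal.mul_le_mul_iff_right (by simpa using hV0) ENNReal.ofReal_ne_top).1 h2
  refine ⟨_, ⟨δ, hδc, hδv, rfl⟩, ?_⟩
  refine le_csInf ⟨_, EuclideanSpace.single 0 1, hu1, rfl⟩ ?_
  rintro d ⟨u, hu, rfl⟩
  have hcomp : IsCompact ((fun t => ⟪δ t, u⟫) '' Icc 0 1) :=
    isCompact_Icc.image_of_continuousOn (hδc.inner continuousOn_const)
  obtain ⟨x, hx, y, hy, hxy⟩ := hw u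
  obtain ⟨t, ht, rfl⟩ := hs hx
  obtain ⟨t', ht', rfl⟩ := hs hy
  have h1 := le_csSup hcomp.bddAbove (mem_image_of_mem _ ht)
  have h2 := csInf_le hcomp.bddBelow (mem_image_of_mem _ ht')
  have h3 : ⟪δ t, u⟫ - ⟪δ t', u⟫ = V⁻¹ * ⟪γ t - γ t', u⟫ := by
    show ⟪V⁻¹ • γ t, u⟫ - ⟪V⁻¹ • γ t', u⟫ = _
    rw [real_inner_smul_left, real_inner_smul_left, inner_sub_left, mul_sub]
  rw [hu] at hxy
  have h4 : V⁻¹ * 1 ≤ V⁻¹ * ⟪γ t - γ t', u⟫ := mul_le_mul_of_nonneg_left hxy (inv_pos.2 hV0).le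
  have h5 : 1 / L ≤ 1 / V := one_div_le_one_div_of_le hV0 hVL
  rw [one_div V] at h5
  linarith

end Pool.Agent.Lib.MP_ee7495_gt.Y
end
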