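import Mathlib
import Pool.Agent.Lib.MP_ee7495_gt.Y.UCurve
import Pool.Agent.Lib.MP_ee7495_gt.Y.TrA
import Pool.Agent.Lib.MP_ee7495_gt.Y.BrgV
import Pool.Agent.Lib.MP_ee7495_gt.Y.BrgE

set_option autoImplicit false

open scoped RealInnerProductSpace
open Real Set

namespace Pool.Agent.Lib.MP_ee7495_gt.Y

/-- Entry of a list, the bias beyond its end. -/
def NL.gt : NL → ℕ → ℕ
  | NL.nil, _ => 295147905179352825856
  | NL.cons a _, 0 => a
  | NL.cons _ t, n + 1 => t.gt n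

/-- Row of a matrix, empty beyond its end. -/
def NLL.gt : NLL → ℕ → NL
  | NLL.nil, _ => NL.nil
  | NLL.cons a _, 0 => a
  | NLL.cons _ t, n + 1 => t.gt n

theorem crit_valB : val 295147905179352825856 = 0 := by norm_num [val]

theorem crit_dot (l : NL) {n : ℕ} (h : l.len ≤ n) (δ : ℕ → ℝ) :
    l.dot δ = ∑ i ∈ Finset.range n, val (l.gt i) * δ i := by
  induction l generalizing n δ with
  | nil => simp [NL.dot, NL.gt, crit_valB]
  | cons a t ih =>
    obtain ⟨m, rfl⟩ : ∃ m, n = m + 1 := ⟨n - 1, by simp only [NL.len] at h; omega⟩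
    rw [Finset.sum_range_succ', NL.dot, ih (n := m) (by simp only [NL.len] at h; omega)]
    simp only [NL.gt]
    ring

theorem crit_quad (q : NLL) {n : ℕ} (h : q.rows ≤ n) (hs : q.short) (ε δ : ℕ → ℝ) :
    q.quad ε δ = ∑ i ∈ Finset.range n, ε i *
      ∑ j ∈ Finset.range 9, val ((q.gt i).gt j) * δ j := by
  induction q generalizing n ε with
  | nil => simp [NLL.quad, NLL.gt, NL.gt, crit_valB]
  | cons a t ih =>
    obtain ⟨m, rfl⟩ : ∃ m, n = m + 1 := ⟨n - 1, by simp only [NLL.rows] at h; omega⟩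
    rw [Finset.sum_range_succ', NLL.quad, ih (n := m) (by simp only [NLL.rows] at h; omega) hs.2,
      crit_dot a hs.1]
    simp only [NLL.gt]
    ring

theorem crit_zi (x : ℕ) : val x = (zi x : ℝ) / 2 ^ 60 := by
  unfold val zi
  rw [Int.subNatNat_eq_coe]
  push_cast
  norm_num

/-- The zero row. -/
def zer : ℕ → NL
  | 0 => NL.nil
  | n + 1 => NL.cons 295147905179352825856 (zer n)

/-- A multiple of a unit row. -/
def un (R : ℕ) : ℕ → ℕ → NL
  | 0, _ => NL.nil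
  | n + 1, 0 => NL.cons (Nat.add 295147905179352825856 R) (zer n)
  | n + 1, i + 1 => NL.cons 295147905179352825856 (un R n i)

/-- The zero matrix. -/
def zeq : ℕ → NLL
  | 0 => NLL.nil
  | n + 1 => NLL.cons (zer 9) (zeq n)

theorem crit_zer (n : ℕ) : (zer n).len = n ∧ (zer n).asum = 0 ∧ ∀ δ, (zer n).dot δ = 0 := by
  induction n with
  | zero => exact ⟨rfl, rfl, fun _ => rfl⟩
  | succ n ih =>
    refine ⟨by simp [zer, NL.len, ih.1], by simp [zer, NL.asum, ih.2.1, ab], fun δ => ?_⟩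
    simp [zer, NL.dot, ih.2.2, crit_valB]

theorem crit_zeq (n : ℕ) : (zeq n).rows = n ∧ (zeq n).short ∧ (zeq n).asum = 0 ∧
    ∀ ε δ, (zeq n).quad ε δ = 0 := by
  induction n with
  | zero => exact ⟨rfl, trivial, rfl, fun _ _ => rfl⟩
  | succ n ih =>
    refine ⟨by simp [zeq, NLL.rows, ih.1], ⟨(crit_zer 9).1.le, ih.2.1⟩,
      by simp [zeq, NLL.asum, ih.2.2.1, (crit_zer 9).2.1], fun ε δ => ?_⟩
    simp [zeq, NLL.quad, ih.2.2.2, (crit_zer 9).2.2]

theorem crit_un (R n i : ℕ) (h : i < n) : (un R n i).len = n ∧ (un R n i).asum = R ∧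
    ∀ δ, (un R n i).dot δ = mag R * δ i := by
  induction n generalizing i with
  | zero => omega
  | succ n ih =>
    cases i with
    | zero =>
      refine ⟨by simp [un, NL.len, (crit_zer n).1], by simp [un, NL.asum, (crit_zer n).2.1, ab],
        fun δ => ?_⟩
      simp only [un, NL.dot, (crit_zer n).2.2, val, mag, Nat.add_eq]
      push_cast
      ring
    | succ i =>
      obtain ⟨a, b, c⟩ := ih i (by omega)
      refine ⟨by simp [un, NL.len, a], by simp [un, NL.asum, b, ab], fun δ => ?_⟩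
      simp [un, NL.dot, c, crit_valB]

/-- The model of the input number `i`. -/
def tmI (R e : ℕ) (i : Fin 9) : TM := ⟨Zv i, un R 9 i, zeq 9, R, 0, e, 0, 0⟩

/-- The model of zero. -/
def tmO : TM := ⟨295147905179352825856, zer 9, zeq 9, 0, 0, 0, 0, 0⟩

theorem crit_tmI (R e : ℕ) (i : Fin 9) {c : ℝ} (h : |c - val (Zv i)| ≤ mag e) :
    G (tmI R e i) (fun δ => c + mag R * δ i) := by
  obtain ⟨a, b, d⟩ := crit_un R 9 i i.2
  obtain ⟨a', b', c', d'⟩ := crit_zeq 9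
  refine ⟨a.le, a'.le, b', b.le, c'.le, by simpa [tmI] using h,
    mag R • LinearMap.proj (i : ℕ), fun δ t _ => ?_, fun δ t _ _ => ?_⟩
  · simp [tmI, d, mag]
  · simp [tmI, d', mag]

theorem crit_tmO : G tmO (fun _ => 0) := by
  obtain ⟨a, b, d⟩ := crit_zer 9
  obtain ⟨a', b', c', d'⟩ := crit_zeq 9
  refine ⟨a.le, a'.le, b', b.le, c'.le, by simp [tmO, crit_valB, mag], 0, fun δ t _ => ?_,
    fun δ t _ _ => ?_⟩
  · simp [tmO, d, mag]
  · simp [tmO, d', mag]

/-- The input of the program. -/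
def env9 (R e : ℕ) : TL :=
  TL.cons (tmI R e 0) <| TL.cons (tmI R e 1) <| TL.cons (tmI R e 2) <| TL.cons (tmI R e 3) <|
  TL.cons (tmI R e 4) <| TL.cons (tmI R e 5) <| TL.cons (tmI R e 6) <| TL.cons (tmI R e 7) <|
  TL.cons (tmI R e 8) <| TL.cons tmO <| TL.cons tmO TL.nil

theorem crit_run {R e : ℕ} {fin : TM → Bool}
    (H : (prE.runT (env9 R e) fun E => E.get 0 fin) = true) {w : Fin 9 → ℝ}
    (hw : ∀ i, |w i - val (Zv i)| ≤ mag e) :
    ∃ T, G T (fun δ => ell fun i => w i + mag R * δ i) ∧ fin T = true := by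
  have h : EnvG (env9 R e) (fun δ => envI (fun i => w i + mag R * δ i) 0 0) :=
    ⟨crit_tmI R e 0 (hw 0), crit_tmI R e 1 (hw 1), crit_tmI R e 2 (hw 2), crit_tmI R e 3 (hw 3),
      crit_tmI R e 4 (hw 4), crit_tmI R e 5 (hw 5), crit_tmI R e 6 (hw 6), crit_tmI R e 7 (hw 7),
      crit_tmI R e 8 (hw 8), crit_tmO, crit_tmO, trivial⟩
  obtain ⟨E', h1, h2⟩ := prE.runT_sound h H
  obtain ⟨T, h3, h4⟩ := TL.get_sound h1 h2
  refine ⟨T, ?_, h4⟩
  simpa only [prE_val] using h3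

/-- Rescaled extension by zero. -/
noncomputable def ex (R : ℕ) : (Fin 9 → ℝ) →ₗ[ℝ] (ℕ → ℝ) :=
  LinearMap.pi fun n => if h : n < 9 then (mag R)⁻¹ • LinearMap.proj (⟨n, h⟩ : Fin 9) else 0

theorem crit_ex (R : ℕ) (δ : Fin 9 → ℝ) (i : Fin 9) : ex R δ i = (mag R)⁻¹ * δ i := by
  simp [ex, i.2]

theorem crit_ex_bd {R : ℕ} (δ : Fin 9 → ℝ) : Bd (ex R δ) ((mag R)⁻¹ * ‖δ‖) := by
  have h0 : 0 ≤ (mag R)⁻¹ := inv_nonneg.2 (tma_mag_nonneg R)
  intro n
  by_cases h : n < 9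
  · have := crit_ex R δ ⟨n, h⟩
    simp only at this
    rw [this, abs_mul, abs_of_nonneg h0]
    exact mul_le_mul_of_nonneg_left (norm_le_pi_norm δ ⟨n, h⟩) h0
  · simp only [ex, LinearMap.pi_apply, dif_neg h, LinearMap.zero_apply, abs_zero]
    positivity

theorem crit_ex_add {R : ℕ} (hR : mag R ≠ 0) (w δ : Fin 9 → ℝ) :
    (fun i : Fin 9 => w i + mag R * ex R δ i) = w + δ := by
  funext i
  rw [crit_ex, mul_inv_cancel_left₀ hR]
  rfl

/-- The quadratic part of the first run. -/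
def QZ : Fin 9 → Fin 9 → ℤ :=
  ![![-32955053, -27582880, -9784744, 46804873, 0, -34932890, 2794586, -33297244, -78987528],
    ![0, -5718918, -13014352, -13414098, -114534496, -1757410, 32961028, 99215016, -50392532],
    ![-49641842, 304798, -8588250, 110351858, -45191878, 8437574, -90064468, -19808560, -81054792],
    ![47166158, 0, 0, -41899741, 7732174, 0, 0, 0, 0],
    ![-26633722, 0, 0, -7732178, -6505990, 0, 0, 0, 0],
    ![0, -91671748, -62767560, 0, 0, -4116226, 3314804, 36615304, -10584594],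
    ![0, -11862956, 102038, 0, 0, 2252066, -38215712, -13328, 1057436],
    ![0, 4088060, 4949728, 0, 0, -28151336, 18714612, -80886256, -113904854],
    ![0, 9894694, -1117500, 0, 0, 3791124, 6809724, 100664236, -23418786]]

/-- The approximate inverse. -/
def AZ : Fin 9 → Fin 9 → ℤ :=
  ![![17997, -348, -9115, 8233, -2118, 4544, 10147, -628, -12835],
    ![-348, 1092, -980, -1855, -5500, -4543, 1479, 621, 2093],
    ![-9115, -980, 6977, -877, 3052, -6660, -9190, -1105, 3713],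
    ![8233, -1855, -877, -4745, 2524, -2947, -959, -2259, -9838],
    ![-2118, -5500, 3052, 2524, -42347, 53820, -1872, -344, -5050],
    ![4544, -4543, -6660, -2947, 53820, -85939, 542, -9558, 23207],
    ![10147, 1479, -9190, -959, -1872, 542, -3134, -408, -2758],
    ![-628, 621, -1105, -2259, -344, -9558, -408, -7192, 5812],
    ![-12835, 2093, 3713, -9838, -5050, 23207, -2758, 5812, -15627]]

theorem crit_run1 : (prE.runT (env9 8796093022208 1154074426111) fun E => E.get 0 fun T =>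
    decide (T.e2 ≤ 255352 ∧ ∀ i j : Fin 9, zi ((T.q.gt i).gt j) = QZ i j)) = true := by
  decide +kernel

theorem crit_run2 : (prE.runT (env9 4503599627370496 0) fun E => E.get 0 fun T =>
    decide (T.c = 299650206804163261925 ∧ T.e0 ≤ 4000 ∧ T.b1 + T.e1 ≤ 1600 ∧
      T.b2 + T.e2 ≤ 500000000000000)) = true := by
  decide +kernel

theorem crit_AZ : ∀ i : Fin 9, (∑ j : Fin 9, |(if i = j then 1099511627776 else 0) -
    ∑ k : Fin 9, AZ i k * (QZ k j + QZ j k)| ≤ 1000000000) ∧ ∀ k, |AZ i k| ≤ 86016 := by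
  decide +kernel

theorem crit_mag1 : mag 8796093022208 = 1 / 131072 := by norm_num [mag]
theorem crit_mag2 : mag 4503599627370496 = 1 / 256 := by norm_num [mag]

theorem crit_Z (i : Fin 9) : |val (Zv i) - z0 i| ≤ 1 / 1100000000 := by
  fin_cases i <;> simp [Zv, z0, val, Z0, Z1, Z2, Z3, Z4, Z5, Z6, Z7, Z8, abs_le] <;> norm_num

theorem crit_hF (w : Fin 9 → ℝ) (hw : dist w z0 ≤ 1 / 10 ^ 6) :
    ∃ ℓ : (Fin 9 → ℝ) →L[ℝ] ℝ, ∀ δ : Fin 9 → ℝ, ‖δ‖ ≤ 1 / 131072 →
      |ell (w + δ) - ell w - ℓ δ - ∑ i, ∑ j, (QZ i j : ℝ) / 2 ^ 26 * δ i * δ j| ≤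
        255352 / 2 ^ 26 * ‖δ‖ ^ 2 := by
  have h1 : ∀ i, |w i - val (Zv i)| ≤ mag 1154074426111 := fun i => by
    have a := (dist_le_pi_dist w z0 i).trans hw
    have b := crit_Z i
    rw [Real.dist_eq, abs_le] at a
    rw [abs_le] at b ⊢
    have c : (1 / 10 ^ 6 + 1 / 1100000000 : ℝ) ≤ mag 1154074426111 := by norm_num [mag]
    constructor <;> linarith [a.1, a.2, b.1, b.2]
  obtain ⟨T, hG, hT⟩ := crit_run crit_run1 h1
  obtain ⟨he, hq⟩ := of_decide_eq_true hT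
  obtain ⟨ℓ, -, h2⟩ := hG.h12
  have hR : mag 8796093022208 ≠ 0 := by rw [crit_mag1]; norm_num
  refine ⟨LinearMap.toContinuousLinearMap (ℓ.comp (ex 8796093022208)), fun δ hδ => ?_⟩
  have h3 := h2 _ _ (crit_ex_bd (R := 8796093022208) δ) (by rw [crit_mag1]; linarith)
  rw [crit_ex_add hR, crit_quad _ hG.rows hG.short, Finset.sum_range] at h3
  simp only [Finset.sum_range, crit_ex, crit_zi, hq, Pi.zero_apply, mul_zero, add_zero,
    crit_mag1] at h3
  have e1 : ∑ i, ∑ j, (QZ i j : ℝ) / 2 ^ 26 * δ i * δ j =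
      ∑ i, (1 / 131072 : ℝ)⁻¹ * δ i * ∑ j, (QZ i j : ℝ) / 2 ^ 60 * ((1 / 131072)⁻¹ * δ j) := by
    refine Finset.sum_congr rfl fun i _ => ?_
    rw [Finset.mul_sum]
    refine Finset.sum_congr rfl fun j _ => ?_
    ring
  rw [e1]
  refine le_trans (le_of_eq ?_) (h3.trans ?_)
  · rfl
  · have := tma_mag_mono he
    have e2 : (255352 / 2 ^ 26 * ‖δ‖ ^ 2 : ℝ) = mag 255352 * ((1 / 131072)⁻¹ * ‖δ‖) ^ 2 := by
      unfold mag; ring
    rw [e2]
    gcongr

theorem crit_hA (i : Fin 9) : ∑ j, |(if i = j then 1 else 0) - ∑ k, (AZ i k : ℝ) / 2 ^ 14 *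
    ((QZ k j : ℝ) / 2 ^ 26 + (QZ j k : ℝ) / 2 ^ 26)| ≤ 1 / 1000 ∧
    ‖fun k => (AZ i k : ℝ) / 2 ^ 14‖ ≤ 21 / 4 := by
  obtain ⟨h1, h2⟩ := crit_AZ i
  constructor
  · have h3 : ((∑ j : Fin 9, |(if i = j then 1099511627776 else 0) -
        ∑ k : Fin 9, AZ i k * (QZ k j + QZ j k)| : ℤ) : ℝ) ≤ 1000000000 := by exact_mod_cast h1
    push_cast at h3
    have e : ∀ j, |(if i = j then 1 else 0) - ∑ k, (AZ i k : ℝ) / 2 ^ 14 *
        ((QZ k j : ℝ) / 2 ^ 26 + (QZ j k : ℝ) / 2 ^ 26)| =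
        |(if i = j then 1099511627776 else 0) - ∑ k, (AZ i k : ℝ) * (QZ k j + QZ j k)| *
          (1 / 2 ^ 40) := fun j => by
      rw [← abs_of_pos (a := (1 / 2 ^ 40 : ℝ)) (by positivity), ← abs_mul, sub_mul,
        Finset.sum_mul]
      congr 2
      · split_ifs <;> norm_num
      · exact Finset.sum_congr rfl fun k _ => by ring
    simp only [e, ← Finset.sum_mul]
    linarith
  · refine (pi_norm_le_iff_of_nonneg (by norm_num)).2 fun k => ?_
    have h3 : |(AZ i k : ℝ)| ≤ 86016 := by exact_mod_cast h2 k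
    rw [Real.norm_eq_abs, abs_div, abs_of_pos (a := (2 ^ 14 : ℝ)) (by positivity)]
    linarith

theorem crit_two {T : TM} {f : (ℕ → ℝ) → ℝ} (h : G T f) {δ : ℕ → ℝ} {t : ℝ} (hb : Bd δ t)
    (ht : t ≤ 1) : |f δ - f 0| ≤ mag (T.b1 + T.e1) * t + mag (T.b2 + T.e2) * t ^ 2 := by
  obtain ⟨ℓ, a1, a2⟩ := h.h12
  have t0 := tma_bd_nonneg hb
  have b1 := (T.l.dot_le hb).trans (mul_le_mul_of_nonneg_right (tma_mag_mono h.hb1) t0)
  have b2 := (T.q.quad_le hb hb).trans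
    (mul_le_mul_of_nonneg_right (tma_mag_mono h.hb2) (mul_nonneg t0 t0))
  have c1 := a1 δ t hb
  have c2 := a2 δ t hb ht
  rw [tma_mag_add, tma_mag_add]
  rw [abs_le] at *
  constructor <;> nlinarith [b1.1, b1.2, b2.1, b2.2, c1.1, c1.2, c2.1, c2.2]

/-- The approximate critical point. -/
noncomputable def ZR : Fin 9 → ℝ := fun i => val (Zv i)

theorem crit_near : |ell ZR - val 299650206804163261925| ≤ mag 4000 ∧
    ∀ w : Fin 9 → ℝ, ‖w - ZR‖ ≤ 1 / 256 →
      |ell w - ell ZR| ≤ 1 / 10 ^ 12 * ‖w - ZR‖ + 30 * ‖w - ZR‖ ^ 2 := by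
  obtain ⟨T, hG, hT⟩ := crit_run (w := ZR) crit_run2 (fun i => by simp [ZR, mag])
  obtain ⟨hc, h0, h1, h2⟩ := of_decide_eq_true hT
  have hR : mag 4503599627370496 ≠ 0 := by rw [crit_mag2]; norm_num
  constructor
  · have := hG.h0
    simp only [Pi.zero_apply, mul_zero, add_zero, hc] at this
    exact this.trans (tma_mag_mono h0)
  · intro w hw
    have h3 := crit_two hG (crit_ex_bd (R := 4503599627370496) (w - ZR))
      (by rw [crit_mag2]; linarith)
    rw [crit_ex_add hR, add_sub_cancel] at h3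
    simp only [Pi.zero_apply, mul_zero, add_zero, crit_mag2] at h3
    refine h3.trans ?_
    have m1 : mag (T.b1 + T.e1) ≤ 1 / 10 ^ 12 / 256 :=
      (tma_mag_mono h1).trans (by norm_num [mag])
    have m2 : mag (T.b2 + T.e2) ≤ 30 / 256 ^ 2 := (tma_mag_mono h2).trans (by norm_num [mag])
    have n0 := norm_nonneg (w - ZR)
    calc _ ≤ 1 / 10 ^ 12 / 256 * ((1 / 256)⁻¹ * ‖w - ZR‖) +
          30 / 256 ^ 2 * ((1 / 256)⁻¹ * ‖w - ZR‖) ^ 2 := by gcongr
      _ = _ := by ring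

theorem crit_grad {ℓ : (Fin 9 → ℝ) →L[ℝ] ℝ} (h : HasFDerivAt ell ℓ ZR) : ‖ℓ‖ ≤ 4 / 10 ^ 12 := by
  refine h.le_of_lip' (by norm_num) ?_
  filter_upwards [Metric.closedBall_mem_nhds ZR (show (0 : ℝ) < 1 / 10 ^ 13 by norm_num)] with w hw
  rw [Metric.mem_closedBall, dist_eq_norm] at hw
  have h1 := crit_near.2 w (hw.trans (by norm_num))
  have n0 := norm_nonneg (w - ZR)
  rw [Real.norm_eq_abs]
  nlinarith

/-- The critical point. -/
theorem crit_main : ∃ z : Fin 9 → ℝ, dist z z0 ≤ 1 / 10 ^ 6 ∧ CritH z ∧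
    (∀ w, dist w z0 ≤ 1 / 10 ^ 6 → HasFDerivAt ell (0 : (Fin 9 → ℝ) →L[ℝ] ℝ) w → w = z) ∧
    3.9051241622 < ell z ∧ ell z < 3.9051241623 := by
  have hZ : dist ZR z0 ≤ 1 / 1100000000 :=
    (dist_pi_le_iff (by norm_num)).2 fun i => by rw [Real.dist_eq]; exact crit_Z i
  obtain ⟨z, h1, h2, h3⟩ := crit_abstract (F := ell) (c := z0) (Z := ZR) (ρ := 1 / 10 ^ 6)
    (R := 1 / 131072) (e := 255352 / 2 ^ 26) (r := 1 / 10 ^ 10)
    (Q := fun i j => (QZ i j : ℝ) / 2 ^ 26) (A := fun i k => (AZ i k : ℝ) / 2 ^ 14)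
    (by norm_num) (by norm_num) (by norm_num) (by linarith) crit_hF
    (fun i => by linarith [(crit_hA i).1, (crit_hA i).2])
    (fun ℓ hℓ i => by
      have a := ℓ.le_opNorm fun k => (AZ i k : ℝ) / 2 ^ 14
      have b := mul_le_mul (crit_grad hℓ) (crit_hA i).2 (norm_nonneg _) (by norm_num)
      rw [Real.norm_eq_abs] at a
      linarith)
  have hd : dist z z0 ≤ 1 / 10 ^ 6 := by linarith [dist_triangle z ZR z0]
  have hn : ‖z - ZR‖ ≤ 1 / 10 ^ 10 := by rwa [← dist_eq_norm]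
  have a := crit_near.1
  have b := crit_near.2 z (hn.trans (by norm_num))
  have n0 := norm_nonneg (z - ZR)
  have c : ‖z - ZR‖ ^ 2 ≤ (1 / 10 ^ 10) ^ 2 := by gcongr
  have v1 : (3.90512416224 : ℝ) ≤ val 299650206804163261925 - mag 4000 := by norm_num [val, mag]
  have v2 : val 299650206804163261925 + mag 4000 ≤ (3.90512416225 : ℝ) := by norm_num [val, mag]
  rw [abs_le] at a b
  have hu : ell z < 3.9051241623 := by linarith [a.2, b.2]
  refine ⟨z, hd, ⟨fun i => ?_, h2, hu.le.trans (by norm_num [val, LHI])⟩, h3,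
    by linarith [a.1, b.1], hu⟩
  have := (dist_le_pi_dist z ZR i).trans h1
  rw [Real.dist_eq] at this
  exact this.trans (by norm_num [mag, EZ])

end Pool.Agent.Lib.MP_ee7495_gt.Y
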