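import Mathlib
import Pool.Agent.Lib.MP_ee7495_gt.Y.Arc

set_option autoImplicit false

open scoped RealInnerProductSpace
open Real Set

namespace Pool.Agent.Lib.MP_ee7495_gt.Y

variable {z : Fin 9 → ℝ} {k : ℝ}

theorem norm_zE (z : Fin 9 → ℝ) : ‖zE z‖ = 1 := by
  have h : ‖zE z‖ ^ 2 = 1 := by
    rw [normsq3]
    simp only [zE, zK, zI, zJ, PiLp.add_apply, PiLp.sub_apply, PiLp.smul_apply, smul_eq_mul, vec_0,
      vec_1, vec_2]
    linear_combination (cos (z 7) ^ 2 + sin (z 7) ^ 2 * sin (z 8) ^ 2) * sin_sq_add_cos_sq (z 6) +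
      sin (z 7) ^ 2 * sin_sq_add_cos_sq (z 8) + sin_sq_add_cos_sq (z 7)
  exact (pow_eq_one_iff_of_nonneg (norm_nonneg _) two_ne_zero).1 h

theorem norm_zQ (z : Fin 9 → ℝ) : ‖zQ z‖ = 1 := by
  have hA : ‖zA z‖ ^ 2 = z 0 ^ 2 + 1 := by
    rw [normsq3]
    simp only [zA, vec_0, vec_1, vec_2]
    ring
  have h0 : ‖zA z‖ ≠ 0 := fun e => by
    rw [e] at hA
    nlinarith [sq_nonneg (z 0)]
  have h1 : ‖zA z‖⁻¹ ^ 2 * (z 0 ^ 2 + 1) = 1 := by
    rw [← hA, inv_pow, inv_mul_cancel₀ (pow_ne_zero 2 h0)]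
  have h : ‖zP z‖ ^ 2 = 1 := by
    rw [normsq3, zP, div_eq_mul_inv, div_eq_mul_inv]
    generalize ‖zA z‖⁻¹ = n at h1
    simp only [zA, zF, zI, PiLp.add_apply, PiLp.smul_apply, smul_eq_mul, vec_0, vec_1, vec_2]
    linear_combination (sin (z 3) ^ 2 + cos (z 3) ^ 2 * cos (z 4) ^ 2) * h1 +
      cos (z 3) ^ 2 * sin_sq_add_cos_sq (z 4) + sin_sq_add_cos_sq (z 3)
  rw [zQ, norm_mir]
  exact (pow_eq_one_iff_of_nonneg (norm_nonneg _) two_ne_zero).1 h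

theorem fam3_cont_sig (z : Fin 9 → ℝ) : Continuous fun t => zSig z t / ‖zC z‖ :=
  (continuous_sigT _ _).div_const _

theorem continuous_g3 (z : Fin 9 → ℝ) : Continuous (g3 z) :=
  (fam3_cont_sig z).smul (continuous_coneU _ _)

theorem Valid.cone (h : Valid z k) : ConeOK (zC z) (zE z) :=
  ⟨norm_zE z, lt_of_lt_of_le (by norm_num) h.rg.nu0⟩

theorem fam3_wv (z : Fin 9 → ℝ) (k : ℝ) :
    (sdOf z k).wv = (-(z 5 ^ 2 / 8 * (1 / ‖zC z‖ ^ 2))) • zC z := by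
  refine ext3 ?_ ?_ ?_ <;>
    simp only [Sd.wv, Sd.eb, sdOf, PiLp.smul_apply, smul_eq_mul, vec_0, vec_1, vec_2] <;>
    generalize ‖zC z‖ = n <;> simp only [zC, vec_0, vec_1, vec_2] <;> ring

theorem fam3_norm (h : Valid z k) (t : ℝ) {τ τ' : ℝ} (h0 : 0 ≤ τ') (h1 : τ' ≤ τ) :
    ‖τ • zU z t + τ' • (sdOf z k).wv‖ ≤ τ := by
  have hc := h.cone
  have hD0 : 0 ≤ z 5 := h.rg.D0
  have hD1 : z 5 ≤ 2 / 5 := h.rg.D1
  have hr : 0 < ‖zC z‖ := zero_lt_one.trans hc.one_lt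
  refine abs_le_of_sq_le_sq' ?_ (h0.trans h1) |>.2
  rw [fam3_wv, norm_add_sq_real, real_inner_smul_left, real_inner_smul_right, real_inner_smul_right,
    real_inner_comm, zU, hc.inner_cU, norm_smul, norm_smul, norm_smul, hc.norm_U, mul_pow, mul_pow,
    mul_pow, Real.norm_eq_abs, Real.norm_eq_abs, Real.norm_eq_abs, sq_abs, sq_abs, sq_abs]
  have e : (1 / ‖zC z‖ ^ 2) * ‖zC z‖ ^ 2 = 1 := by field_simp
  have h2 : 0 ≤ 1 / ‖zC z‖ ^ 2 := by positivity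
  generalize 1 / ‖zC z‖ ^ 2 = n at e h2
  have h3 : z 5 ^ 2 / 8 ≤ 1 := by nlinarith
  have h4 : 0 ≤ z 5 ^ 2 / 8 := by positivity
  generalize z 5 ^ 2 / 8 = d at h3 h4
  have h5 : 0 ≤ τ' * (d * n) * (2 * τ - τ' * d) :=
    mul_nonneg (by positivity) (by nlinarith)
  have e2 : (-(d * n)) ^ 2 * ‖zC z‖ ^ 2 = d ^ 2 * n := by linear_combination d ^ 2 * n * e
  rw [e2]
  linarith

theorem Valid.geo (h : Valid z k) : (sdOf z k).Geo := by
  have a1 : 3 / 5 ≤ z 7 := h.rg.et0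
  have a2 : z 7 ≤ 4 / 5 := h.rg.et1
  have a3 : 1815 / 10000 ≤ z 4 := h.rg.r0
  have a4 : z 4 ≤ 5565 / 10000 := h.rg.r1
  have a5 : -(3 / 10) ≤ z 3 := h.rg.e0
  have a6 : z 3 ≤ -(1 / 10) := h.rg.e1
  have a7 : 9 / 10 ≤ z 0 := h.rg.y0
  have hp := pi_gt_three
  exact ⟨cos_sq_add_sin_sq _, cos_sq_add_sin_sq _,
    sin_nonneg_of_nonneg_of_le_pi (x := z 7) (by linarith) (by linarith),
    sin_nonneg_of_nonneg_of_le_pi (x := z 4) (by linarith) (by linarith),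
    mul_nonneg (div_nonneg (cos_nonneg_of_neg_pi_div_two_le_of_le (x := z 3) (by linarith)
      (by linarith)) (norm_nonneg _)) (by linarith : 0 ≤ z 0),
    sqrt_nonneg _, inv_nonneg.2 (norm_nonneg _), mul_self_nonneg _,
    fun _ _ h0 h1 => fam3_norm h _ h0 h1, fun _ _ h0 h1 => fam3_norm h _ h0 h1⟩

theorem fam3_sig (h : Valid z k) {t : ℝ} (ht : t ∈ Icc 0 (z 5)) :
    0 ≤ zSig z t ∧ zSig z t ≤ (sdOf z k).sg := by
  have hD1 : z 5 ≤ 2 / 5 := h.rg.D1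
  have h1 := h.cone.one_lt
  have h2 : 0 ≤ t / ‖zC z‖ := div_nonneg ht.1 (norm_nonneg _)
  have h3 : t / ‖zC z‖ ≤ 2 / 5 := (div_le_self ht.1 h1.le).trans (ht.2.trans hD1)
  have e : zSig z t = (sdOf z k).sg * cos (t / ‖zC z‖) + (sdOf z k).ka * sin (t / ‖zC z‖) := rfl
  have h4 := h.rg.ka0
  have h5 := h.rg.sgka
  have h6 := h.geo.sg0
  rw [e]
  generalize t / ‖zC z‖ = x at h2 h3
  have h7 := sin_nonneg_of_nonneg_of_le_pi h2 (by linarith [pi_gt_three])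
  have h8 : sin x ≤ cos x := by nlinarith [sin_le h2, one_sub_sq_div_two_le_cos (x := x)]
  constructor <;> nlinarith [cos_le_one x]

theorem Valid.sig_nonneg (h : Valid z k) {t : ℝ} (ht : t ∈ Icc 0 (z 5)) : 0 ≤ zSig z t :=
  (fam3_sig h ht).1

/-- the coefficient of `wv` -/
noncomputable def fam3_ga (D t : ℝ) : ℝ := (sin t / sin D + sin (D - t) / sin D - 1) * (8 / D ^ 2)

theorem fam3_coef {D t : ℝ} (h0 : 0 < D) (h1 : D ≤ 2 / 5) (ht : t ∈ Icc 0 D) :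
    0 ≤ sin t / sin D ∧ 0 ≤ sin (D - t) / sin D ∧ 0 ≤ fam3_ga D t ∧
      fam3_ga D t ≤ sin t / sin D + sin (D - t) / sin D := by
  have hp := pi_gt_three
  have a0 := sin_pos_of_pos_of_lt_pi h0 (by linarith)
  have a1 := sin_nonneg_of_nonneg_of_le_pi ht.1 (by linarith [ht.2])
  have a2 := sin_nonneg_of_nonneg_of_le_pi (sub_nonneg.2 ht.2) (by linarith [ht.1])
  have a3 := sin_nonneg_of_nonneg_of_le_pi (half_pos h0).le (by linarith)
  have e1 : sin D = sin t * cos (D - t) + cos t * sin (D - t) := by rw [← sin_add, add_sub_cancel]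
  have e2 : sin D = 2 * sin (D / 2) * cos (D / 2) := by rw [← sin_two_mul, mul_div_cancel₀ _ two_ne_zero]
  have e3 : sin t + sin (D - t) = 2 * sin (D / 2) * cos (t - D / 2) := by
    have k1 := sin_add (D / 2) (t - D / 2)
    have k2 := sin_sub (D / 2) (t - D / 2)
    rw [add_sub_cancel] at k1
    rw [show D / 2 - (t - D / 2) = D - t by ring] at k2
    linarith
  refine ⟨by positivity, by positivity, mul_nonneg ?_ (by positivity), ?_⟩
  · rw [← add_div, sub_nonneg, one_le_div a0]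
    nlinarith [cos_le_one t, cos_le_one (D - t)]
  · have b1 : (sin t + sin (D - t)) * (1 - D ^ 2 / 8) ≤ sin D := by
      have c1 : 1 - D ^ 2 / 8 ≤ cos (D / 2) := by
        linarith [one_sub_sq_div_two_le_cos (x := D / 2)]
      rw [e2]
      exact mul_le_mul (by nlinarith [cos_le_one (t - D / 2)]) c1 (by nlinarith) (by linarith)
    rw [fam3_ga, ← add_div, ← mul_div_assoc, div_le_iff₀ (by positivity)]
    have b2 : (sin t + sin (D - t)) / sin D * (1 - D ^ 2 / 8) ≤ 1 := by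
      rwa [div_mul_eq_mul_div, div_le_one a0]
    linarith

theorem fam3_dec (h : Valid z k) (h0 : 0 < z 5) (t : ℝ) :
    zU z t = (sin t / sin (z 5)) • zU z (z 5) + (sin (z 5 - t) / sin (z 5)) • zU z 0 +
      fam3_ga (z 5) t • (sdOf z k).wv := by
  have hD1 : z 5 ≤ 2 / 5 := h.rg.D1
  have a0 := (sin_pos_of_pos_of_lt_pi h0 (by linarith [pi_gt_three])).ne'
  have e := congrArg (fun v => (sin (z 5))⁻¹ • v) (h.cone.interp (z 5) t)
  have e2 : fam3_ga (z 5) t * (-(z 5 ^ 2 / 8 * (1 / ‖zC z‖ ^ 2))) =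
      (1 - sin t / sin (z 5) - sin (z 5 - t) / sin (z 5)) * (1 / ‖zC z‖ ^ 2) := by
    rw [fam3_ga]
    generalize 1 / ‖zC z‖ ^ 2 = n
    field_simp
    ring
  simp only [inv_smul_smul₀ a0] at e
  rw [fam3_wv, smul_smul, e2, zU, zU, zU, eq_add_of_sub_eq e, div_eq_inv_mul, div_eq_inv_mul (sin _)]
  module

theorem fam3_split {d : Sd} {a b c : ℝ} (ha : 0 ≤ a) (ha' : a ≤ d.lam) (hb : 0 ≤ b)
    (hb' : b ≤ d.lam) (hc : 0 ≤ c) (hc' : c ≤ a + b) :
    ∃ ζs ζe, d.InZ d.us ζs ∧ d.InZ d.ue ζe ∧ a • d.us + b • d.ue + c • d.wv = ζs + ζe := by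
  refine ⟨_, _, ⟨a, min a c, le_min ha hc, min_le_left _ _, ha', rfl⟩,
    ⟨b, c - min a c, sub_nonneg.2 (min_le_right _ _), ?_, hb', rfl⟩, by module⟩
  rcases le_total a c with k | k
  · rw [min_eq_left k]; linarith
  · rw [min_eq_right k]; linarith

theorem Valid.U_om (h : Valid z k) {t : ℝ} (ht : t ∈ Icc 0 (z 5)) : InOm (zU z t) := by
  intro i
  have h1 : ⟪Fk i, zU z (z 5)⟫ + pp ⟪Fk i, (sdOf z k).wv⟫ ≤ 0 := h.sd.Fs i
  have h2 : ⟪Fk i, zU z 0⟫ + pp ⟪Fk i, (sdOf z k).wv⟫ ≤ 0 := h.sd.Fe i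
  have h3 := pp_nonneg ⟪Fk i, (sdOf z k).wv⟫
  rcases eq_or_lt_of_le ht.1 with rfl | h0
  · linarith
  obtain ⟨a1, a2, a3, a4⟩ := fam3_coef (h0.trans_le ht.2) h.rg.D1 ht
  have h4 := mul_le_pp a3 a4 (t := ⟪Fk i, (sdOf z k).wv⟫)
  rw [fam3_dec h (h0.trans_le ht.2), inner_add_right, inner_add_right, real_inner_smul_right,
    real_inner_smul_right, real_inner_smul_right]
  linarith [mul_nonpos_of_nonneg_of_nonpos a1 h1, mul_nonpos_of_nonneg_of_nonpos a2 h2]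

theorem Valid.g3_int (h : Valid z k) : ∫ t in (0 : ℝ)..z 5, g3 z t = zE z - zTA z := by
  rw [intervalIntegral.integral_eq_sub_of_hasDerivAt (f := fun t => -coneV (zC z) (zE z) t)
    (fun t _ => ((h.cone.deriv_V t).neg).congr_deriv (by rw [neg_smul, neg_neg]; rfl))
    ((continuous_g3 z).intervalIntegrable _ _), coneV_zero, neg_sub_neg]
  rfl

theorem Valid.g3_mass (h : Valid z k) :
    ∫ t in (0 : ℝ)..z 5, zSig z t / ‖zC z‖ = ⟪zC z, zE z - zTA z⟫ := by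
  rw [intervalIntegral.integral_eq_sub_of_hasDerivAt (f := fun t => -kapT (zC z) (zE z) t)
    (f' := fun t => zSig z t / ‖zC z‖) (fun t _ => ((deriv_kapT _ _ t).neg).congr_deriv (neg_neg _))
    ((fam3_cont_sig z).intervalIntegrable _ _), neg_sub_neg, ← h.cone.inner_cV, ← h.cone.inner_cV,
    coneV_zero, inner_sub_right]
  rfl

theorem fam3_tan {D : ℝ} (h0 : 0 < D) (h1 : D ≤ 2 / 5) : (1 - cos D) / sin D ≤ 51 / 100 * D := by
  have hp := pi_gt_three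
  have a0 := sin_pos_of_pos_of_lt_pi (half_pos h0) (by linarith)
  have a1 := cos_pos_of_mem_Ioo (x := D / 2) ⟨by linarith, by linarith⟩
  have e1 : sin D = 2 * sin (D / 2) * cos (D / 2) := by rw [← sin_two_mul, mul_div_cancel₀ _ two_ne_zero]
  have e2 : 1 - cos D = 2 * sin (D / 2) * sin (D / 2) := by
    have := cos_two_mul (D / 2)
    rw [mul_div_cancel₀ _ two_ne_zero] at this
    linarith [sin_sq_add_cos_sq (D / 2)]
  have h2 := tan_le_cubic (half_pos h0).le (by linarith)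
  rw [e1, e2, mul_div_mul_left _ _ (by positivity), ← tan_eq_sin_div_cos]
  nlinarith [mul_le_mul h1 h1 h0.le (by norm_num)]

theorem fam3_int {W f : ℝ → ℝ} (hW : Continuous W) (hf : Continuous f) {D S T : ℝ} (hD : 0 ≤ D)
    (hS : 0 ≤ S) (h1 : ∀ t ∈ Icc 0 D, 0 ≤ W t ∧ W t ≤ S) (h2 : ∀ t ∈ Icc 0 D, 0 ≤ f t)
    (h3 : ∫ t in (0 : ℝ)..D, f t ≤ T) :
    0 ≤ ∫ t in (0 : ℝ)..D, W t * f t ∧ ∫ t in (0 : ℝ)..D, W t * f t ≤ T * S := by
  refine ⟨intervalIntegral.integral_nonneg hD fun t ht => mul_nonneg (h1 t ht).1 (h2 t ht), ?_⟩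
  refine (intervalIntegral.integral_mono_on (g := fun t => S * f t) hD
    ((hW.mul hf).intervalIntegrable _ _) ((continuous_const.mul hf).intervalIntegrable _ _)
    fun t ht => mul_le_mul_of_nonneg_right (h1 t ht).2 (h2 t ht)).trans ?_
  rw [intervalIntegral.integral_const_mul, mul_comm]
  exact mul_le_mul_of_nonneg_right h3 hS

theorem fam3_lam (h : Valid z k) : 0 ≤ (sdOf z k).lam :=
  mul_nonneg (mul_nonneg (by norm_num) h.rg.D0) (mul_nonneg h.geo.sg0 h.geo.ir0)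

theorem Valid.g3_wt (h : Valid z k) {w : ℝ → ℝ} (hw : Wt w) :
    ∃ ζs ζe, (sdOf z k).InZ (sdOf z k).us ζs ∧ (sdOf z k).InZ (sdOf z k).ue ζe ∧
      Iw w (g3 z) 0 (z 5) = ζs + ζe := by
  have hD1 : z 5 ≤ 2 / 5 := h.rg.D1
  have hD0 : 0 ≤ z 5 := h.rg.D0
  rcases eq_or_lt_of_le hD0 with h0 | h0
  · obtain ⟨a, b, h1, h2, h3⟩ := fam3_split le_rfl (fam3_lam h) le_rfl (fam3_lam h) le_rfl
      (add_zero 0).ge
    refine ⟨a, b, h1, h2, ?_⟩
    rw [← h3, Iw, ← h0, intervalIntegral.integral_same, zero_smul, zero_smul, zero_smul, add_zero,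
      add_zero]
  have hW : Continuous fun t => w t * (zSig z t / ‖zC z‖) := hw.cont.mul (fam3_cont_sig z)
  have hS := mul_nonneg h.geo.sg0 h.geo.ir0
  have hb : ∀ t ∈ Icc 0 (z 5), 0 ≤ w t * (zSig z t / ‖zC z‖) ∧
      w t * (zSig z t / ‖zC z‖) ≤ (sdOf z k).sg * (sdOf z k).ir := fun t ht => by
    have a1 := div_nonneg (fam3_sig h ht).1 (norm_nonneg (zC z))
    refine ⟨mul_nonneg (hw.nn t) a1, (mul_le_of_le_one_left a1 (hw.le t)).trans ?_⟩
    exact div_le_div_of_nonneg_right (fam3_sig h ht).2 (norm_nonneg _)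
  have c1 : Continuous fun t => sin t / sin (z 5) := by fun_prop
  have c2 : Continuous fun t => sin (z 5 - t) / sin (z 5) := by fun_prop
  have c3 : Continuous (fam3_ga (z 5)) := by unfold fam3_ga; fun_prop
  obtain ⟨a1, a2⟩ := fam3_int hW c1 h0.le hS hb (fun t ht => (fam3_coef h0 hD1 ht).1)
    (T := 51 / 100 * z 5) (by
      rw [intervalIntegral.integral_div, integral_sin, cos_zero]
      exact fam3_tan h0 hD1)
  obtain ⟨b1, b2⟩ := fam3_int hW c2 h0.le hS hb (fun t ht => (fam3_coef h0 hD1 ht).2.1)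
    (T := 51 / 100 * z 5) (by
      rw [intervalIntegral.integral_div, intervalIntegral.integral_comp_sub_left, sub_self, sub_zero,
        integral_sin, cos_zero]
      exact fam3_tan h0 hD1)
  have i1 := (hW.mul c1).intervalIntegrable (μ := MeasureTheory.volume) 0 (z 5)
  have i2 := (hW.mul c2).intervalIntegrable (μ := MeasureTheory.volume) 0 (z 5)
  have i3 := (hW.mul c3).intervalIntegrable (μ := MeasureTheory.volume) 0 (z 5)
  obtain ⟨a, b, h1, h2, h3⟩ := fam3_split (d := sdOf z k) a1 a2 b1 b2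
    (c := ∫ t in (0 : ℝ)..z 5, w t * (zSig z t / ‖zC z‖) * fam3_ga (z 5) t)
    (intervalIntegral.integral_nonneg h0.le fun t ht =>
      mul_nonneg (hb t ht).1 (fam3_coef h0 hD1 ht).2.2.1) (by
      refine le_of_le_of_eq (intervalIntegral.integral_mono_on h0.le i3 (i1.add i2) fun t ht => ?_)
        (intervalIntegral.integral_add i1 i2)
      exact (mul_le_mul_of_nonneg_left (fam3_coef h0 hD1 ht).2.2.2 (hb t ht).1).trans
        (mul_add _ _ _).le)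
  refine ⟨a, b, h1, h2, ?_⟩
  rw [← h3, ← intervalIntegral.integral_smul_const, ← intervalIntegral.integral_smul_const,
    ← intervalIntegral.integral_smul_const,
    ← intervalIntegral.integral_add (Continuous.intervalIntegrable (by fun_prop) _ _)
      (Continuous.intervalIntegrable (by fun_prop) _ _),
    ← intervalIntegral.integral_add (Continuous.intervalIntegrable (by fun_prop) _ _)
      (Continuous.intervalIntegrable (by fun_prop) _ _), Iw]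
  refine intervalIntegral.integral_congr fun t _ => ?_
  change w t • (zSig z t / ‖zC z‖) • zU z t = _ • zU z (z 5) + _ • zU z 0 + _
  rw [fam3_dec h h0 t]
  module

theorem fam3_max {d : Sd} (hl : 0 ≤ d.lam) (u ξ : E) :
    ∃ ζ, d.InZ u ζ ∧ ∀ ζ', d.InZ u ζ' → ⟪ξ, ζ'⟫ ≤ ⟪ξ, ζ⟫ := by
  suffices k : ∃ τ τ' : ℝ, 0 ≤ τ' ∧ τ' ≤ τ ∧ τ ≤ d.lam ∧ ∀ σ σ' : ℝ, 0 ≤ σ' → σ' ≤ σ → σ ≤ d.lam →
      σ * ⟪ξ, u⟫ + σ' * ⟪ξ, d.wv⟫ ≤ τ * ⟪ξ, u⟫ + τ' * ⟪ξ, d.wv⟫ by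
    obtain ⟨τ, τ', h1, h2, h3, h4⟩ := k
    refine ⟨_, ⟨τ, τ', h1, h2, h3, rfl⟩, ?_⟩
    rintro _ ⟨σ, σ', k1, k2, k3, rfl⟩
    simpa only [inner_add_right, real_inner_smul_right] using h4 σ σ' k1 k2 k3
  generalize ⟪ξ, u⟫ = a
  generalize ⟪ξ, d.wv⟫ = b
  rcases le_total 0 b with hb | hb
  · rcases le_total 0 (a + b) with ha | ha
    · exact ⟨d.lam, d.lam, hl, le_rfl, le_rfl, fun σ σ' k1 k2 k3 => by nlinarith⟩
    · exact ⟨0, 0, le_rfl, le_rfl, hl, fun σ σ' k1 k2 k3 => by nlinarith⟩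
  · rcases le_total 0 a with ha | ha
    · exact ⟨d.lam, 0, le_rfl, hl, le_rfl, fun σ σ' k1 k2 k3 => by nlinarith⟩
    · exact ⟨0, 0, le_rfl, le_rfl, hl, fun σ σ' k1 k2 k3 => by nlinarith⟩

theorem Valid.g3_dom (h : Valid z k) (ξ : E) :
    ∃ ζs ζe, (sdOf z k).InZ (sdOf z k).us ζs ∧ (sdOf z k).InZ (sdOf z k).ue ζe ∧
      Ip (g3 z) 0 (z 5) ξ ≤ ⟪ξ, ζs + ζe⟫ := by
  obtain ⟨a, a1, a2⟩ := fam3_max (fam3_lam h) (sdOf z k).us ξ
  obtain ⟨b, b1, b2⟩ := fam3_max (fam3_lam h) (sdOf z k).ue ξ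
  refine ⟨a, b, a1, b1, le_of_forall_pos_le_add fun ε hε => ?_⟩
  obtain ⟨w, hw, h1⟩ := Ip_wt (continuous_g3 z) (b := z 5) h.rg.D0 ξ hε
  obtain ⟨a', b', h2, h3, h4⟩ := h.g3_wt hw
  rw [h4, inner_add_right] at h1
  rw [inner_add_right]
  linarith [a2 a' h2, b2 b' h3]

end Pool.Agent.Lib.MP_ee7495_gt.Y
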