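import Mathlib
import Pool.Agent.Lib.MP_ee7495_gt.Y.Fam3

set_option autoImplicit false

open scoped RealInnerProductSpace
open Real Set

namespace Pool.Agent.Lib.MP_ee7495_gt.Y

variable {z z' : Fin 9 → ℝ} {k k' : ℝ}

theorem fam5_eq (z : Fin 9 → ℝ) (t : ℝ) : g5 z t =
    sin (z 7) • vec (-sin t) (cos t * cos (z 6)) (-(cos t * sin (z 6))) := by
  refine ext3 ?_ ?_ ?_ <;> simp [g5, arc] <;> ring

theorem fam5_cont (z : Fin 9 → ℝ) : Continuous (g5 z) := continuous_arc _ _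

theorem fam5_sub2 (a b ξ : E) : ∃ q, Sub2 a b q ∧ pp ⟪ξ, a⟫ + pp ⟪ξ, b⟫ ≤ ⟪ξ, q⟫ := by
  rcases le_total ⟪ξ, a⟫ 0 with ha | ha <;> rcases le_total ⟪ξ, b⟫ 0 with hb | hb
  · exact ⟨0, Or.inl rfl, by simp [pp, ha, hb]⟩
  · exact ⟨b, Or.inr (Or.inr (Or.inl rfl)), by simp [pp, ha, hb]⟩
  · exact ⟨a, Or.inr (Or.inl rfl), by simp [pp, ha, hb]⟩
  · exact ⟨a + b, Or.inr (Or.inr (Or.inr rfl)), by simp [pp, ha, hb, inner_add_right]⟩

theorem fam5_q0 (z : Fin 9 → ℝ) (k : ℝ) : (sdOf z k).q0 = (7 / 24 : ℝ) • g5 z Pb := by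
  obtain ⟨h1, h2, -⟩ := Pb_spec
  rw [fam5_eq, h1, h2]
  refine ext3 ?_ ?_ ?_ <;> simp [sdOf, Sd.q0, Sd.qb, Sd.qy, Sd.qz, Sd.qa] <;> ring

theorem fam5_q1 (z : Fin 9 → ℝ) (k : ℝ) : (sdOf z k).q1 = (7 / 24 : ℝ) • g5 z (-Pb) := by
  obtain ⟨h1, h2, -⟩ := Pb_spec
  rw [fam5_eq, cos_neg, sin_neg, h1, h2]
  refine ext3 ?_ ?_ ?_ <;> simp [sdOf, Sd.q1, Sd.qb, Sd.qy, Sd.qz, Sd.qa] <;> ring

theorem fam5_h0 (z : Fin 9 → ℝ) (k : ℝ) : (sdOf z k).h0 =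
    (z 8 / 2 + 7 / 20 * (z 8 / 2 * (z 8 / 2 * (z 8 / 2)))) • g5 z (z 8) := by
  rw [fam5_eq]
  refine ext3 ?_ ?_ ?_ <;> simp [sdOf, Sd.h0, Sd.th, Sd.tcc, Sd.xh] <;> ring

theorem fam5_h1 (z : Fin 9 → ℝ) (k : ℝ) : (sdOf z k).h1 =
    (z 8 / 2 + 7 / 20 * (z 8 / 2 * (z 8 / 2 * (z 8 / 2)))) • g5 z 0 := by
  rw [fam5_eq]
  refine ext3 ?_ ?_ ?_ <;> simp [sdOf, Sd.h1, Sd.th, Sd.xh] <;> ring

theorem mir_g5 (z : Fin 9 → ℝ) (t : ℝ) : mir (g5 z t) = g5 z (-t) := by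
  rw [fam5_eq, fam5_eq]
  refine ext3 ?_ ?_ ?_ <;> simp

theorem Share.eq_g5 (h : Share z z') : g5 z' = g5 z := by
  rw [g5, g5, h.h6, h.h7]

theorem Share.mir_q0 (h : Share z z') : mir (sdOf z k).q0 = (sdOf z' k').q1 := by
  rw [fam5_q0, fam5_q1, mir_smul, mir_g5, h.eq_g5]

theorem Share.mir_q1 (h : Share z z') : mir (sdOf z k).q1 = (sdOf z' k').q0 := by
  rw [fam5_q0, fam5_q1, mir_smul, mir_g5, h.eq_g5, neg_neg]

theorem Share.g5_int (h : Share z z') :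
    ∫ t in (-z' 8)..z 8, g5 z t = (2 : ℝ) • zKv z - mir (zE z') - zE z := by
  rw [g5, arc_int]
  refine ext3 ?_ ?_ ?_ <;> simp [zKv, zE, zK, zI, zJ, h.h6, h.h7] <;> ring

theorem fam5_tan : tan ((Pb - -Pb) / 2) ≤ 7 / 24 := by
  rw [show (Pb - -Pb) / 2 = Pb by ring]
  exact Pb_spec.2.2.1.le

theorem fam5_pi : Pb - -Pb < π := by
  have h1 := Pb_spec.2.2.2.2
  have h2 := pi_gt_three
  linarith

theorem Valid.g5_wt (h : Valid z k) {χ : ℝ} (h0 : 0 ≤ χ) (h1 : χ ≤ 2837 / 10000) {w : ℝ → ℝ}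
    (hw : Wt w) : ∃ θ0 θ1 : ℝ, 0 ≤ θ0 ∧ θ0 ≤ 1 ∧ 0 ≤ θ1 ∧ θ1 ≤ 1 ∧
      Iw w (g5 z) (-χ) (z 8) = θ0 • (sdOf z k).q0 + θ1 • (sdOf z k).q1 := by
  have c0 : 0 ≤ z 8 := h.rg.ch0
  have c1 : z 8 ≤ 2837 / 10000 := h.rg.ch1
  have hP := Pb_spec.2.2.2.1
  obtain ⟨s, t, hs0, hs1, ht0, ht1, he⟩ := arc_wt
    (vec 0 (sin (z 7) * cos (z 6)) (-(sin (z 7) * sin (z 6)))) (vec (-sin (z 7)) 0 0)
    (α := -Pb) (β := Pb) (a := -χ) (b := z 8) (by linarith) (by linarith) (by linarith) fam5_pi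
    fam5_tan hw
  refine ⟨24 / 7 * t, 24 / 7 * s, by positivity, by linarith, by positivity, by linarith, ?_⟩
  rw [fam5_q0, fam5_q1, g5, he]
  module

theorem Valid.g5_dom (h : Valid z k) {χ : ℝ} (h0 : 0 ≤ χ) (h1 : χ ≤ 2837 / 10000) (ξ : E) :
    ∃ q, Sub2 (sdOf z k).q0 (sdOf z k).q1 q ∧ Ip (g5 z) (-χ) (z 8) ξ ≤ ⟪ξ, q⟫ := by
  have c0 : 0 ≤ z 8 := h.rg.ch0
  have c1 : z 8 ≤ 2837 / 10000 := h.rg.ch1
  have hP := Pb_spec.2.2.2.1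
  have he : Ip (g5 z) (-χ) (z 8) ξ ≤ 7 / 24 * (pp ⟪ξ, g5 z (-Pb)⟫ + pp ⟪ξ, g5 z Pb⟫) := arc_dom
    (vec 0 (sin (z 7) * cos (z 6)) (-(sin (z 7) * sin (z 6)))) (vec (-sin (z 7)) 0 0)
    (α := -Pb) (β := Pb) (a := -χ) (b := z 8) (by linarith) (by linarith) (by linarith) fam5_pi
    fam5_tan ξ
  obtain ⟨q, hq, hq'⟩ := fam5_sub2 (sdOf z k).q0 (sdOf z k).q1 ξ
  refine ⟨q, hq, he.trans (le_trans (le_of_eq ?_) hq')⟩
  rw [fam5_q0, fam5_q1, real_inner_smul_right, real_inner_smul_right, pp_mul (by norm_num),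
    pp_mul (by norm_num)]
  ring

theorem Valid.g5_own (h : Valid z k) (ξ : E) :
    ∃ q, Sub2 (sdOf z k).h0 (sdOf z k).h1 q ∧ Ip (g5 z) 0 (z 8) ξ ≤ ⟪ξ, q⟫ := by
  have c0 : 0 ≤ z 8 := h.rg.ch0
  have c1 : z 8 ≤ 2837 / 10000 := h.rg.ch1
  have hpi := pi_gt_three
  have hT : tan ((z 8 - 0) / 2) ≤ z 8 / 2 + 7 / 20 * (z 8 / 2 * (z 8 / 2 * (z 8 / 2))) := by
    rw [sub_zero]
    exact tan_le_cubic (by linarith) (by linarith)
  have he : Ip (g5 z) 0 (z 8) ξ ≤ (z 8 / 2 + 7 / 20 * (z 8 / 2 * (z 8 / 2 * (z 8 / 2)))) *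
      (pp ⟪ξ, g5 z 0⟫ + pp ⟪ξ, g5 z (z 8)⟫) := arc_dom
    (vec 0 (sin (z 7) * cos (z 6)) (-(sin (z 7) * sin (z 6)))) (vec (-sin (z 7)) 0 0)
    (α := 0) (β := z 8) (a := 0) (b := z 8) le_rfl c0 le_rfl (by linarith) hT ξ
  obtain ⟨q, hq, hq'⟩ := fam5_sub2 (sdOf z k).h0 (sdOf z k).h1 ξ
  refine ⟨q, hq, he.trans (le_trans (le_of_eq ?_) hq')⟩
  rw [fam5_h0, fam5_h1, real_inner_smul_right, real_inner_smul_right, pp_mul (by positivity),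
    pp_mul (by positivity)]
  ring

theorem fam5_cos {s t a : ℝ} (ha : a ≤ 1) (h1 : s - t ≤ a) (h2 : t - s ≤ a) : 0 ≤ cos (s - t) := by
  have := pi_gt_three
  exact cos_nonneg_of_neg_pi_div_two_le_of_le (by linarith) (by linarith)

theorem fam5_chain3 (h : Valid z k) {w : ℝ → ℝ} (hw : Wt w) :
    ‖zTA z + Iw w (g3 z) 0 (z 5)‖ ≤ 1 := by
  have hc := h.cone
  have d0 : 0 ≤ z 5 := h.rg.D0
  have d1 : z 5 ≤ 2 / 5 := h.rg.D1
  have hρ := hc.one_lt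
  refine chain (V := zV z) d0 (continuous_g3 z) (fun t => ?_) (fun t _ => ?_)
    (fun s hs t ht => ?_) (hc.norm_V _).le (fun t _ => ?_) hw
  · have := hc.deriv_V t
    rw [neg_smul] at this
    exact this
  · rw [g3, real_inner_smul_right, zV, zU, hc.inner_VU, mul_zero]
  · rw [g3, g3, real_inner_smul_right, real_inner_smul_left, zU, zU, hc.inner_UU]
    have a1 := h.sig_nonneg hs
    have a2 := h.sig_nonneg ht
    have a3 : 0 ≤ cos (s - t) :=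
      fam5_cos (a := 1) le_rfl (by linarith [hs.2, ht.1]) (by linarith [hs.1, ht.2])
    have a4 : 0 ≤ 1 - 1 / ‖zC z‖ ^ 2 := by
      rw [sub_nonneg, div_le_one (by positivity)]
      nlinarith
    positivity
  · show 0 ≤ ⟪zV z (z 5) - zV z (z 5), g3 z t⟫
    rw [sub_self, inner_zero_left]

/-- Subset sums of the third and fifth family stay in the unit ball. -/
theorem Valid.chain35 (h : Valid z k) {χ : ℝ} (h0 : 0 ≤ χ) (h1 : χ ≤ 2837 / 10000)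
    {w w' : ℝ → ℝ} (hw : Wt w) (hw' : Wt w') :
    ‖zTA z + Iw w (g3 z) 0 (z 5) + Iw w' (g5 z) (-χ) (z 8)‖ ≤ 1 := by
  have c0 : 0 ≤ z 8 := h.rg.ch0
  have c1 : z 8 ≤ 2837 / 10000 := h.rg.ch1
  have d0 : 0 ≤ z 5 := h.rg.D0
  have o0 : 3 / 20 ≤ z 6 := h.rg.om0
  have o1 : z 6 ≤ 7 / 20 := h.rg.om1
  have sH : 0 ≤ sin (z 7) := h.geo.sH0
  refine chain (V := fun t => zKv z + cos t • vec (-sin (z 7)) 0 0 -
      sin t • vec 0 (sin (z 7) * cos (z 6)) (-(sin (z 7) * sin (z 6)))) (by linarith)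
    (fam5_cont z) (fun t => ?_) (fun t _ => ?_) (fun s hs t ht => ?_) (fam5_chain3 h hw)
    (fun t ht => ?_) hw'
  · refine HasDerivAt.congr_deriv
      ((((hasDerivAt_cos t).smul_const _).const_add _).sub ((hasDerivAt_sin t).smul_const _)) ?_
    rw [g5, arc]
    module
  · rw [fam5_eq, inner3]
    simp [zKv, zK]
    linear_combination (-(sin (z 7) ^ 2 * sin t * cos t)) * sin_sq_add_cos_sq (z 6)
  · have a3 : 0 ≤ cos (s - t) :=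
      fam5_cos (a := 1) le_rfl (by linarith [hs.2, ht.1]) (by linarith [hs.1, ht.2])
    have a4 : ⟪g5 z s, g5 z t⟫ = sin (z 7) ^ 2 * cos (s - t) := by
      rw [fam5_eq, fam5_eq, inner3, cos_sub]
      simp
      linear_combination (sin (z 7) ^ 2 * cos s * cos t) * sin_sq_add_cos_sq (z 6)
    rw [a4]
    positivity
  · have e1 : zKv z + cos (z 8) • vec (-sin (z 7)) 0 0 -
        sin (z 8) • vec 0 (sin (z 7) * cos (z 6)) (-(sin (z 7) * sin (z 6))) = zE z := by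
      refine ext3 ?_ ?_ ?_ <;> simp [zKv, zE, zK, zI, zJ] <;> ring
    have c3 := continuous_g3 z
    have c4 : Continuous fun s => w s • g3 z s := hw.cont.smul c3
    have c5 : Continuous fun s => g3 z s - w s • g3 z s := c3.sub c4
    have e2 : zE z - (zTA z + Iw w (g3 z) 0 (z 5)) =
        ∫ s in (0 : ℝ)..z 5, (g3 z s - w s • g3 z s) := by
      rw [intervalIntegral.integral_sub (c3.intervalIntegrable _ _) (c4.intervalIntegrable _ _),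
        h.g3_int, Iw]
      abel
    show 0 ≤ ⟪zKv z + cos (z 8) • vec (-sin (z 7)) 0 0 -
        sin (z 8) • vec 0 (sin (z 7) * cos (z 6)) (-(sin (z 7) * sin (z 6))) - _, _⟫
    rw [e1, e2, real_inner_comm, ← innerSL_apply_apply ℝ,
      ← ContinuousLinearMap.intervalIntegral_comp_comm _ (c5.intervalIntegrable _ _)]
    refine intervalIntegral.integral_nonneg d0 fun s hs => ?_
    have a1 := h.sig_nonneg hs
    have a2 := (h.U_om hs).five (t := t) (ω := z 6)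
      (abs_le.mpr ⟨by linarith [ht.1], by linarith [ht.2]⟩) o0 o1
    have a3 : 0 ≤ 1 - w s := sub_nonneg.mpr (hw.le s)
    have e3' : g3 z s - w s • g3 z s = (1 - w s) • g3 z s := by module
    rw [innerSL_apply_apply, e3', real_inner_comm, g3, fam5_eq, real_inner_smul_left,
      real_inner_smul_left, real_inner_smul_right]
    positivity

end Pool.Agent.Lib.MP_ee7495_gt.Y
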