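import Mathlib
import Pool.Agent.Lib.MP_ee7495_gt.Y.Arc

-- part Pool.Agent.Lib.MP_ee7495_gt.Y.Fam2
section

set_option autoImplicit false

open scoped RealInnerProductSpace
open Real Set

namespace Pool.Agent.Lib.MP_ee7495_gt.Y

variable {z z' : Fin 9 → ℝ} {k k' : ℝ}

theorem fam2_g0 (z : Fin 9 → ℝ) (t : ℝ) : g2 z t 0 = -(cos t * cos (z 3)) := by
  simp [g2, arc]
theorem fam2_g1 (z : Fin 9 → ℝ) (t : ℝ) : g2 z t 1 = sin t * (cos (z 3) / ‖zA z‖) := by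
  simp [g2, arc]
theorem fam2_g2 (z : Fin 9 → ℝ) (t : ℝ) :
    g2 z t 2 = -(sin t * (cos (z 3) / ‖zA z‖ * z 0)) := by
  simp [g2, arc]

theorem fam2_cont (z : Fin 9 → ℝ) : Continuous (g2 z) := continuous_arc _ _

theorem fam2_zA (h : Share z z') : zA z' = zA z := by
  unfold zA; rw [h.h0]
theorem fam2_zF (h : Share z z') : zF z' = zF z := by
  unfold zF; rw [h.h0]

theorem mir_g2 (z : Fin 9 → ℝ) (t : ℝ) : mir (g2 z t) = -g2 z (-t) := by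
  apply ext3 <;> simp [fam2_g0, fam2_g1, fam2_g2]
theorem Share.eq_g2 (h : Share z z') : g2 z' = g2 z := by
  unfold g2; rw [fam2_zA h, h.h0, h.h3]
theorem Share.symm (h : Share z z') : Share z' z := ⟨h.h0.symm, h.h3.symm, h.h6.symm, h.h7.symm⟩
theorem Share.eq_P0 (h : Share z z') : zP0 z' = zP0 z := by
  unfold zP0; rw [fam2_zA h, fam2_zF h, h.h3]
theorem Share.eq_Kv (h : Share z z') : zKv z' = zKv z := by
  unfold zKv zK; rw [h.h6, h.h7]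
theorem Share.eq_Lm (h : Share z z') : zLm z' = zLm z := by
  unfold zLm
  rw [h.eq_P0, h.eq_Kv]
  simp only [Sd.sh, sdOf]
  rw [fam2_zA h, h.h0, h.h3, h.h6, h.h7]
theorem mir_zP0 (z : Fin 9 → ℝ) : mir (zP0 z) = zP0 z := by
  apply ext3 <;> simp [zP0, zA, zF]
theorem mir_zKv (z : Fin 9 → ℝ) : mir (zKv z) = zKv z := by
  apply ext3 <;> simp [zKv, zK]
theorem mir_zLm (z : Fin 9 → ℝ) : mir (zLm z) = zLm z := by
  unfold zLm
  rw [mir_add, mir_sub, mir_smul, mir_smul, mir_zP0, mir_zKv]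
  congr 2
  apply ext3 <;> simp [e3]

theorem fam2_A0 (z : Fin 9 → ℝ) : zA z 0 = 0 := rfl
theorem fam2_A1 (z : Fin 9 → ℝ) : zA z 1 = z 0 := rfl
theorem fam2_A2 (z : Fin 9 → ℝ) : zA z 2 = 1 := rfl

theorem fam2_Q0 (z : Fin 9 → ℝ) : zQ z 0 = cos (z 3) * sin (z 4) := by
  simp [zQ, zP, fam2_A0, zF, zI]
theorem fam2_Q1 (z : Fin 9 → ℝ) :
    zQ z 1 = sin (z 3) / ‖zA z‖ * z 0 + cos (z 4) * (cos (z 3) / ‖zA z‖) := by
  simp [zQ, zP, fam2_A1, zF, zI]; ring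
theorem fam2_Q2 (z : Fin 9 → ℝ) :
    zQ z 2 = sin (z 3) / ‖zA z‖ - cos (z 4) * (cos (z 3) / ‖zA z‖ * z 0) := by
  simp [zQ, zP, fam2_A2, zF, zI]; ring

/-- Coordinates of the integral of the second family. -/
theorem fam2_int (z : Fin 9 → ℝ) (a b : ℝ) : ∫ t in a..b, g2 z t =
    vec (-((sin b - sin a) * cos (z 3))) (-((cos b - cos a) * (cos (z 3) / ‖zA z‖)))
      ((cos b - cos a) * (cos (z 3) / ‖zA z‖ * z 0)) := by
  unfold g2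
  rw [arc_int]
  apply ext3 <;> simp

theorem g2_int (z : Fin 9 → ℝ) : ∫ t in (0 : ℝ)..z 4, g2 z t = zP0 z - zQ z := by
  rw [fam2_int]
  apply ext3
  · simp [fam2_Q0, zP0, fam2_A0, zF]; ring
  · simp [fam2_Q1, zP0, fam2_A1, zF]; ring
  · simp [fam2_Q2, zP0, fam2_A2, zF]; ring

theorem fam2_a0 (z : Fin 9 → ℝ) (k : ℝ) : (sdOf z k).a0 = (sdOf z k).t1 • g2 z (z 4) := by
  apply ext3
  · simp only [Sd.a0, vec_0, PiLp.smul_apply, smul_eq_mul, fam2_g0, Sd.tc]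
    simp only [sdOf]; ring
  · simp only [Sd.a0, vec_1, PiLp.smul_apply, smul_eq_mul, fam2_g1, Sd.ts]
    simp only [sdOf]; ring
  · simp only [Sd.a0, vec_2, PiLp.smul_apply, smul_eq_mul, fam2_g2, Sd.ts]
    simp only [sdOf]; ring

theorem fam2_a1 (z : Fin 9 → ℝ) (k : ℝ) :
    (sdOf z k).a1 = ((sdOf z k).t1 + 11 / 60) • g2 z rho0 := by
  obtain ⟨hc, hs, -⟩ := rho0_spec
  apply ext3
  · simp only [Sd.a1, vec_0, PiLp.smul_apply, smul_eq_mul, fam2_g0, Sd.w2, hc]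
    simp only [sdOf]; ring
  · simp only [Sd.a1, vec_1, PiLp.smul_apply, smul_eq_mul, fam2_g1, Sd.w2s, Sd.w2, hs]
    simp only [sdOf]; ring
  · simp only [Sd.a1, vec_2, PiLp.smul_apply, smul_eq_mul, fam2_g2, Sd.w2s, Sd.w2, hs]
    simp only [sdOf]; ring

theorem fam2_a2 (z : Fin 9 → ℝ) (k : ℝ) :
    (sdOf z k).a2 = (11 / 60 + 15 / 79 : ℝ) • g2 z (-rho0) := by
  obtain ⟨hc, hs, -⟩ := rho0_spec
  apply ext3
  · simp only [Sd.a2, vec_0, PiLp.smul_apply, smul_eq_mul, fam2_g0, cos_neg, hc]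
    simp only [sdOf]; ring
  · simp only [Sd.a2, vec_1, PiLp.smul_apply, smul_eq_mul, fam2_g1, sin_neg, hs]
    simp only [sdOf]; ring
  · simp only [Sd.a2, vec_2, PiLp.smul_apply, smul_eq_mul, fam2_g2, sin_neg, hs]
    simp only [sdOf]; ring

theorem fam2_a3 (z : Fin 9 → ℝ) (k : ℝ) : (sdOf z k).a3 = (15 / 79 : ℝ) • g2 z (-Rb) := by
  obtain ⟨hc, hs, -⟩ := Rb_spec
  apply ext3
  · simp only [Sd.a3, vec_0, PiLp.smul_apply, smul_eq_mul, fam2_g0, cos_neg, hc]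
    simp only [sdOf]; ring
  · simp only [Sd.a3, vec_1, PiLp.smul_apply, smul_eq_mul, fam2_g1, sin_neg, hs]
    simp only [sdOf]; ring
  · simp only [Sd.a3, vec_2, PiLp.smul_apply, smul_eq_mul, fam2_g2, sin_neg, hs]
    simp only [sdOf]; ring

theorem fam2_r (h : Valid z k) : 1815 / 10000 ≤ z 4 ∧ z 4 ≤ 5565 / 10000 :=
  ⟨Sd.Range.r0 (Sd.Valid.rg h), Sd.Range.r1 (Sd.Valid.rg h)⟩

theorem fam2_t1 (h : Valid z k) :
    0 < (sdOf z k).t1 ∧ tan ((z 4 - rho0) / 2) ≤ (sdOf z k).t1 := by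
  obtain ⟨r0, r1⟩ := fam2_r h
  obtain ⟨-, -, -, p0, p1⟩ := rho0_spec
  have hx : (sdOf z k).x1 = 1 / 2 * (z 4 - 1813 / 10000) := rfl
  have hx0 : 0 < (sdOf z k).x1 := by rw [hx]; linarith
  have hx1 : (sdOf z k).x1 ≤ 1 / 5 := by rw [hx]; linarith
  have hpi := pi_gt_three
  refine ⟨by unfold Sd.t1; positivity, ?_⟩
  have h1 : tan ((z 4 - rho0) / 2) ≤ tan (sdOf z k).x1 := by
    apply strictMonoOn_tan.monotoneOn
    · constructor <;> linarith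
    · constructor <;> linarith
    · rw [hx]; linarith
  exact h1.trans (tan_le_cubic hx0.le hx1)

theorem fam2_tan0 : tan ((rho0 - -rho0) / 2) ≤ 11 / 60 := by
  obtain ⟨-, -, ht, -⟩ := rho0_spec
  have : (rho0 - -rho0) / 2 = rho0 := by ring
  rw [this, ht]

theorem fam2_tan1 : tan ((-rho0 - -Rb) / 2) ≤ 15 / 79 := by
  obtain ⟨-, -, ht, -⟩ := Rb_spec
  have : (-rho0 - -Rb) / 2 = (Rb - rho0) / 2 := by ring
  rw [this]; exact ht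

theorem fam2_div {s T : ℝ} (h0 : 0 ≤ s) (h1 : s ≤ T) (hT : 0 < T) : s / T ∈ Icc (0 : ℝ) 1 :=
  ⟨div_nonneg h0 hT.le, (div_le_one hT).2 h1⟩

theorem fam2_sm {s T : ℝ} (hT : 0 < T) (v : E) : (s / T) • T • v = s • v := by
  rw [smul_smul, div_mul_cancel₀ _ hT.ne']

/-- Weighted integrals of the second family are combinations of the four atoms. -/
theorem Valid.g2_wt (h : Valid z k) {r' : ℝ} (h0 : 0 ≤ r') (h1 : r' ≤ 5565 / 10000) {w : ℝ → ℝ}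
    (hw : Wt w) : ∃ θ0 θ1 θ2 θ3 : ℝ, θ0 ∈ Icc (0 : ℝ) 1 ∧ θ1 ∈ Icc (0 : ℝ) 1 ∧
      θ2 ∈ Icc (0 : ℝ) 1 ∧ θ3 ∈ Icc (0 : ℝ) 1 ∧ Iw w (g2 z) (-r') (z 4) =
        θ0 • (sdOf z k).a0 + θ1 • (sdOf z k).a1 + θ2 • (sdOf z k).a2 + θ3 • (sdOf z k).a3 := by
  obtain ⟨r0, r1⟩ := fam2_r h
  obtain ⟨-, -, -, p0, p1⟩ := rho0_spec
  obtain ⟨-, -, -, R0, R1⟩ := Rb_spec
  obtain ⟨ht0, ht⟩ := fam2_t1 h
  have hpi := pi_gt_three
  have hc := fam2_cont z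
  obtain ⟨s0, t0, hs0, hs0', ht0', ht0'', e0⟩ :
      ∃ s t : ℝ, 0 ≤ s ∧ s ≤ (sdOf z k).t1 ∧ 0 ≤ t ∧ t ≤ (sdOf z k).t1 ∧
        Iw w (g2 z) rho0 (z 4) = s • g2 z rho0 + t • g2 z (z 4) :=
    arc_wt _ _ le_rfl (by linarith) le_rfl (by linarith) ht hw
  have key : ∃ u1 u2 u3 : ℝ, 0 ≤ u1 ∧ u1 ≤ 11 / 60 ∧ 0 ≤ u2 ∧ u2 ≤ 11 / 60 + 15 / 79 ∧
      0 ≤ u3 ∧ u3 ≤ 15 / 79 ∧
      Iw w (g2 z) (-r') rho0 = u1 • g2 z rho0 + u2 • g2 z (-rho0) + u3 • g2 z (-Rb) := by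
    rcases le_total r' rho0 with hr | hr
    · obtain ⟨s1, t1, hs1, hs1', ht1, ht1', e1⟩ :
          ∃ s t : ℝ, 0 ≤ s ∧ s ≤ 11 / 60 ∧ 0 ≤ t ∧ t ≤ 11 / 60 ∧
            Iw w (g2 z) (-r') rho0 = s • g2 z (-rho0) + t • g2 z rho0 :=
        arc_wt _ _ (by linarith) (by linarith) le_rfl (by linarith) fam2_tan0 hw
      refine ⟨t1, s1, 0, ht1, ht1', hs1, by linarith, le_rfl, by norm_num, ?_⟩
      rw [e1, zero_smul, add_zero, add_comm]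
    · obtain ⟨s1, t1, hs1, hs1', ht1, ht1', e1⟩ :
          ∃ s t : ℝ, 0 ≤ s ∧ s ≤ 11 / 60 ∧ 0 ≤ t ∧ t ≤ 11 / 60 ∧
            Iw w (g2 z) (-rho0) rho0 = s • g2 z (-rho0) + t • g2 z rho0 :=
        arc_wt _ _ le_rfl (by linarith) le_rfl (by linarith) fam2_tan0 hw
      obtain ⟨s2, t2, hs2, hs2', ht2, ht2', e2⟩ :
          ∃ s t : ℝ, 0 ≤ s ∧ s ≤ 15 / 79 ∧ 0 ≤ t ∧ t ≤ 15 / 79 ∧
            Iw w (g2 z) (-r') (-rho0) = s • g2 z (-Rb) + t • g2 z (-rho0) :=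
        arc_wt _ _ (by linarith) (by linarith) le_rfl (by linarith) fam2_tan1 hw
      refine ⟨t1, s1 + t2, s2, ht1, ht1', by linarith, by linarith, hs2, hs2', ?_⟩
      rw [← Iw_add hc hw (-r') (-rho0) rho0, e1, e2, add_smul]
      abel
  obtain ⟨u1, u2, u3, hu1, hu1', hu2, hu2', hu3, hu3', e1⟩ := key
  have hT1 : 0 < (sdOf z k).t1 + 11 / 60 := by linarith
  have hT2 : (0 : ℝ) < 11 / 60 + 15 / 79 := by norm_num
  have hT3 : (0 : ℝ) < 15 / 79 := by norm_num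
  refine ⟨t0 / (sdOf z k).t1, (s0 + u1) / ((sdOf z k).t1 + 11 / 60), u2 / (11 / 60 + 15 / 79),
    u3 / (15 / 79), fam2_div ht0' ht0'' ht0, fam2_div (by linarith) (by linarith) hT1,
    fam2_div hu2 hu2' hT2, fam2_div hu3 hu3' hT3, ?_⟩
  rw [fam2_a0, fam2_a1, fam2_a2, fam2_a3, fam2_sm ht0, fam2_sm hT1, fam2_sm hT2, fam2_sm hT3,
    ← Iw_add hc hw (-r') rho0 (z 4), e0, e1, add_smul]
  abel

theorem fam2_pp_of_nonneg {t : ℝ} (h : 0 ≤ t) : pp t = t := max_eq_left h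
theorem fam2_pp_of_nonpos {t : ℝ} (h : t ≤ 0) : pp t = 0 := max_eq_right h

theorem fam2_cone_pos (z : Fin 9 → ℝ) (η : E) {α β φ : ℝ} (h1 : α ≤ φ) (h2 : φ ≤ β)
    (h : β - α < π) (ha : 0 ≤ ⟪η, g2 z α⟫) (hb : 0 ≤ ⟪η, g2 z β⟫) : 0 ≤ ⟪η, g2 z φ⟫ := by
  obtain ⟨s, t, hs, ht, e⟩ : ∃ s t : ℝ, 0 ≤ s ∧ 0 ≤ t ∧ g2 z φ = s • g2 z α + t • g2 z β :=
    arc_cone _ _ h1 h2 h
  rw [e, inner_add_right, real_inner_smul_right, real_inner_smul_right]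
  positivity

theorem fam2_cone_neg (z : Fin 9 → ℝ) (η : E) {α β φ : ℝ} (h1 : α ≤ φ) (h2 : φ ≤ β)
    (h : β - α < π) (ha : ⟪η, g2 z α⟫ ≤ 0) (hb : ⟪η, g2 z β⟫ ≤ 0) : ⟪η, g2 z φ⟫ ≤ 0 := by
  have := fam2_cone_pos z (-η) h1 h2 h (by rw [inner_neg_left]; linarith)
    (by rw [inner_neg_left]; linarith)
  rw [inner_neg_left] at this
  linarith

theorem fam2_X7 (hs : Share z z') : (sdOf z k).X7 - zTA z + mir (sdOf z' k').V0 =
    -((∫ t in (-z' 4)..rho0, g2 z t) + (sdOf z k).t1 • g2 z rho0) := by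
  obtain ⟨hc, hsn, -⟩ := rho0_spec
  rw [fam2_int]
  have e0 := hs.h0
  have e3 := hs.h3
  have eA := fam2_zA hs
  generalize ht : (sdOf z k).t1 = t1
  apply ext3
  · simp only [Sd.X7, Sd.V0, Sd.wx7, ht, PiLp.add_apply, PiLp.sub_apply, PiLp.neg_apply,
      PiLp.smul_apply, smul_eq_mul, vec_0, mir_0, fam2_g0, hc, hsn, sin_neg]
    simp only [sdOf, e3]; ring
  · simp only [Sd.X7, Sd.V0, Sd.wf7, Sd.py, Sd.oc, ht, PiLp.add_apply, PiLp.sub_apply,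
      PiLp.neg_apply, PiLp.smul_apply, smul_eq_mul, vec_1, mir_1, fam2_g1, hc, hsn, cos_neg]
    simp only [sdOf, e0, e3, eA]; ring
  · simp only [Sd.X7, Sd.V0, Sd.wf7, Sd.pz, Sd.oc, ht, PiLp.add_apply, PiLp.sub_apply,
      PiLp.neg_apply, PiLp.smul_apply, smul_eq_mul, vec_2, mir_2, fam2_g2, hc, hsn, cos_neg]
    simp only [sdOf, e0, e3, eA]; ring

/-- Sign patterns of the second family on the first piece. -/
theorem Valid.g2_cases (h : Valid z k) (h' : Valid z' k') (hs : Share z z') (ξ : E) :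
    (∃ A, (A = 0 ∨ A = (sdOf z k).a0 ∨ A = (sdOf z k).a0 + (sdOf z k).a1 ∨ A = (sdOf z k).a3 ∨
      A = (sdOf z k).a3 + (sdOf z k).a2) ∧ Ip (g2 z) (-z' 4) (z 4) (-ξ) ≤ ⟪ξ, -A⟫) ∨
    Ip (g2 z) (-z' 4) (z 4) (-ξ) ≤ ⟪ξ, (sdOf z k).X3 - zTA z⟫ ∨
    ∃ X, (X = (sdOf z k).X4 ∨ X = (sdOf z k).X7) ∧
      Ip (g2 z) (-z' 4) (z 4) (-ξ) ≤ ⟪ξ, X - zTA z + mir (sdOf z' k').V0⟫ := by
  obtain ⟨r0, r1⟩ := fam2_r h
  obtain ⟨r0', r1'⟩ := fam2_r h'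
  obtain ⟨-, -, -, p0, p1⟩ := rho0_spec
  obtain ⟨-, -, -, R0, R1⟩ := Rb_spec
  obtain ⟨ht0, ht⟩ := fam2_t1 h
  have hpi := pi_gt_three
  have hc := fam2_cont z
  have d0 : Ip (g2 z) rho0 (z 4) (-ξ) ≤
      (sdOf z k).t1 * (pp ⟪-ξ, g2 z rho0⟫ + pp ⟪-ξ, g2 z (z 4)⟫) :=
    arc_dom _ _ le_rfl (by linarith) le_rfl (by linarith) ht (-ξ)
  have d1 : Ip (g2 z) (-rho0) rho0 (-ξ) ≤
      11 / 60 * (pp ⟪-ξ, g2 z (-rho0)⟫ + pp ⟪-ξ, g2 z rho0⟫) :=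
    arc_dom _ _ le_rfl (by linarith) le_rfl (by linarith) fam2_tan0 (-ξ)
  have d2 : Ip (g2 z) (-z' 4) (-rho0) (-ξ) ≤
      15 / 79 * (pp ⟪-ξ, g2 z (-Rb)⟫ + pp ⟪-ξ, g2 z (-rho0)⟫) :=
    arc_dom _ _ (by linarith) (by linarith) le_rfl (by linarith) fam2_tan1 (-ξ)
  have s1 := Ip_add hc (-z' 4) (-rho0) rho0 (-ξ)
  have s2 := Ip_add hc (-z' 4) rho0 (z 4) (-ξ)
  have i0 : ⟪ξ, (sdOf z k).a0⟫ = -((sdOf z k).t1 * ⟪-ξ, g2 z (z 4)⟫) := by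
    rw [fam2_a0, real_inner_smul_right, inner_neg_left]; ring
  have i1 : ⟪ξ, (sdOf z k).a1⟫ = -(((sdOf z k).t1 + 11 / 60) * ⟪-ξ, g2 z rho0⟫) := by
    rw [fam2_a1, real_inner_smul_right, inner_neg_left]; ring
  have i2 : ⟪ξ, (sdOf z k).a2⟫ = -((11 / 60 + 15 / 79) * ⟪-ξ, g2 z (-rho0)⟫) := by
    rw [fam2_a2, real_inner_smul_right, inner_neg_left]; ring
  have i3 : ⟪ξ, (sdOf z k).a3⟫ = -(15 / 79 * ⟪-ξ, g2 z (-Rb)⟫) := by
    rw [fam2_a3, real_inner_smul_right, inner_neg_left]; ring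
  have tot : Ip (g2 z) (-z' 4) (z 4) (-ξ) ≤ (sdOf z k).t1 * pp ⟪-ξ, g2 z (z 4)⟫ +
      ((sdOf z k).t1 + 11 / 60) * pp ⟪-ξ, g2 z rho0⟫ +
      (11 / 60 + 15 / 79) * pp ⟪-ξ, g2 z (-rho0)⟫ + 15 / 79 * pp ⟪-ξ, g2 z (-Rb)⟫ := by
    linarith
  by_cases hA : 0 ≤ ⟪-ξ, g2 z rho0⟫ ∧ 0 ≤ ⟪-ξ, g2 z (-z' 4)⟫
  · obtain ⟨hA1, hA2⟩ := hA
    right; right
    have ex : Ip (g2 z) (-z' 4) rho0 (-ξ) = ⟪-ξ, ∫ t in (-z' 4)..rho0, g2 z t⟫ :=
      Ip_exact hc (by linarith) fun t htm =>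
        fam2_cone_pos z (-ξ) htm.1 htm.2 (by linarith) hA2 hA1
    have e7 : ⟪ξ, (sdOf z k).X7 - zTA z + mir (sdOf z' k').V0⟫ =
        ⟪-ξ, ∫ t in (-z' 4)..rho0, g2 z t⟫ + (sdOf z k).t1 * ⟪-ξ, g2 z rho0⟫ := by
      rw [fam2_X7 hs, inner_neg_right, inner_add_right, real_inner_smul_right, inner_neg_left,
        inner_neg_left]
      ring
    rw [fam2_pp_of_nonneg hA1] at d0
    rcases le_total 0 ⟪-ξ, g2 z (z 4)⟫ with h0 | h0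
    · refine ⟨_, Or.inl rfl, ?_⟩
      have e4 : (sdOf z k).X4 - zTA z + mir (sdOf z' k').V0 =
          ((sdOf z k).X7 - zTA z + mir (sdOf z' k').V0) - (sdOf z k).a0 := by
        unfold Sd.X4; abel
      rw [e4, inner_sub_right, e7, i0]
      rw [fam2_pp_of_nonneg h0] at d0
      linarith
    · refine ⟨_, Or.inr rfl, ?_⟩
      rw [e7]
      rw [fam2_pp_of_nonpos h0] at d0
      linarith
  · rcases lt_or_ge ⟪-ξ, g2 z rho0⟫ 0 with h1 | h1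
    · left
      rw [fam2_pp_of_nonpos h1.le] at tot
      rcases le_total 0 ⟪-ξ, g2 z (z 4)⟫ with h0 | h0
      · have h2 : ⟪-ξ, g2 z (-rho0)⟫ ≤ 0 := by
          by_contra hcon
          have := fam2_cone_pos z (-ξ) (α := -rho0) (β := z 4) (φ := rho0) (by linarith)
            (by linarith) (by linarith) (le_of_not_ge hcon) h0
          linarith
        have h3 : ⟪-ξ, g2 z (-Rb)⟫ ≤ 0 := by
          by_contra hcon
          have := fam2_cone_pos z (-ξ) (α := -Rb) (β := z 4) (φ := rho0) (by linarith)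
            (by linarith) (by linarith) (le_of_not_ge hcon) h0
          linarith
        rw [fam2_pp_of_nonneg h0, fam2_pp_of_nonpos h2, fam2_pp_of_nonpos h3] at tot
        refine ⟨_, Or.inr (Or.inl rfl), ?_⟩
        rw [inner_neg_right, i0]; linarith
      · rw [fam2_pp_of_nonpos h0] at tot
        rcases le_total 0 ⟪-ξ, g2 z (-Rb)⟫ with h3 | h3
        · rw [fam2_pp_of_nonneg h3] at tot
          rcases le_total 0 ⟪-ξ, g2 z (-rho0)⟫ with h2 | h2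
          · rw [fam2_pp_of_nonneg h2] at tot
            refine ⟨_, Or.inr (Or.inr (Or.inr (Or.inr rfl))), ?_⟩
            rw [inner_neg_right, inner_add_right, i3, i2]; linarith
          · rw [fam2_pp_of_nonpos h2] at tot
            refine ⟨_, Or.inr (Or.inr (Or.inr (Or.inl rfl))), ?_⟩
            rw [inner_neg_right, i3]; linarith
        · have h2 : ⟪-ξ, g2 z (-rho0)⟫ ≤ 0 :=
            fam2_cone_neg z (-ξ) (α := -Rb) (β := rho0) (by linarith) (by linarith)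
              (by linarith) h3 h1.le
          rw [fam2_pp_of_nonpos h2, fam2_pp_of_nonpos h3] at tot
          refine ⟨0, Or.inl rfl, ?_⟩
          rw [neg_zero, inner_zero_right]; linarith
    · have hr : ⟪-ξ, g2 z (-z' 4)⟫ < 0 := by
        by_contra hcon
        exact hA ⟨h1, le_of_not_gt hcon⟩
      have h3 : ⟪-ξ, g2 z (-Rb)⟫ ≤ 0 := by
        by_contra hcon
        have := fam2_cone_pos z (-ξ) (α := -Rb) (β := rho0) (φ := -z' 4) (by linarith)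
          (by linarith) (by linarith) (le_of_not_ge hcon) h1
        linarith
      rw [fam2_pp_of_nonpos h3] at tot
      rcases le_total 0 ⟪-ξ, g2 z (z 4)⟫ with h0 | h0
      · rw [fam2_pp_of_nonneg h0, fam2_pp_of_nonneg h1] at tot
        rcases le_total 0 ⟪-ξ, g2 z (-rho0)⟫ with h2 | h2
        · right; left
          rw [fam2_pp_of_nonneg h2] at tot
          have e3 : (sdOf z k).X3 - zTA z =
              -((sdOf z k).a0 + (sdOf z k).a1 + (sdOf z k).a2) := by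
            have : (sdOf z k).TA = zTA z := rfl
            unfold Sd.X3; rw [this]; abel
          rw [e3, inner_neg_right, inner_add_right, inner_add_right, i0, i1, i2]; linarith
        · left
          rw [fam2_pp_of_nonpos h2] at tot
          refine ⟨_, Or.inr (Or.inr (Or.inl rfl)), ?_⟩
          rw [inner_neg_right, inner_add_right, i0, i1]; linarith
      · left
        have h1' : ⟪-ξ, g2 z rho0⟫ ≤ 0 :=
          fam2_cone_neg z (-ξ) (α := -Rb) (β := z 4) (by linarith) (by linarith)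
            (by linarith) h3 h0
        have h2 : ⟪-ξ, g2 z (-rho0)⟫ ≤ 0 :=
          fam2_cone_neg z (-ξ) (α := -Rb) (β := z 4) (by linarith) (by linarith)
            (by linarith) h3 h0
        rw [fam2_pp_of_nonpos h0, fam2_pp_of_nonpos h1', fam2_pp_of_nonpos h2] at tot
        refine ⟨0, Or.inl rfl, ?_⟩
        rw [neg_zero, inner_zero_right]; linarith

/-- The unit vector field whose derivative is minus the second family. -/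
noncomputable def fam2_V (z : Fin 9 → ℝ) (t : ℝ) : E :=
  (sin (z 3) / ‖zA z‖) • zA z - sin t • vec (-cos (z 3)) 0 0 +
    cos t • vec 0 (cos (z 3) / ‖zA z‖) (-(cos (z 3) / ‖zA z‖ * z 0))

theorem fam2_V0 (z : Fin 9 → ℝ) (t : ℝ) : fam2_V z t 0 = sin t * cos (z 3) := by
  simp [fam2_V, fam2_A0]
theorem fam2_V1 (z : Fin 9 → ℝ) (t : ℝ) :
    fam2_V z t 1 = sin (z 3) / ‖zA z‖ * z 0 + cos t * (cos (z 3) / ‖zA z‖) := by
  simp [fam2_V, fam2_A1]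
theorem fam2_V2 (z : Fin 9 → ℝ) (t : ℝ) :
    fam2_V z t 2 = sin (z 3) / ‖zA z‖ - cos t * (cos (z 3) / ‖zA z‖ * z 0) := by
  simp [fam2_V, fam2_A2]; ring

theorem fam2_VQ (z : Fin 9 → ℝ) : fam2_V z (z 4) = zQ z := by
  apply ext3
  · rw [fam2_V0, fam2_Q0]; ring
  · rw [fam2_V1, fam2_Q1]
  · rw [fam2_V2, fam2_Q2]

theorem fam2_deriv (z : Fin 9 → ℝ) (t : ℝ) : HasDerivAt (fam2_V z) (-g2 z t) t := by
  have h1 := ((hasDerivAt_const t ((sin (z 3) / ‖zA z‖) • zA z)).sub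
    ((hasDerivAt_sin t).smul_const (vec (-cos (z 3)) 0 0))).add
    ((hasDerivAt_cos t).smul_const
      (vec 0 (cos (z 3) / ‖zA z‖) (-(cos (z 3) / ‖zA z‖ * z 0))))
  refine HasDerivAt.congr_deriv h1 ?_
  unfold g2 arc
  rw [neg_smul]
  abel

theorem fam2_nsq (z : Fin 9 → ℝ) :
    (cos (z 3) / ‖zA z‖) ^ 2 * (1 + z 0 ^ 2) = cos (z 3) ^ 2 := by
  have h1 : ‖zA z‖ ^ 2 = 1 + z 0 ^ 2 := by
    rw [normsq3, fam2_A0, fam2_A1, fam2_A2]; ring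
  have h2 : (0 : ℝ) < 1 + z 0 ^ 2 := by positivity
  rw [div_pow, h1, div_mul_cancel₀ _ h2.ne']

theorem fam2_gg (z : Fin 9 → ℝ) (s t : ℝ) :
    ⟪g2 z s, g2 z t⟫ = cos (z 3) ^ 2 * cos (s - t) := by
  rw [inner3, fam2_g0, fam2_g0, fam2_g1, fam2_g1, fam2_g2, fam2_g2, cos_sub]
  linear_combination (sin s * sin t) * fam2_nsq z

theorem fam2_Vg (z : Fin 9 → ℝ) (t : ℝ) : ⟪fam2_V z t, g2 z t⟫ = 0 := by
  rw [inner3, fam2_g0, fam2_g1, fam2_g2, fam2_V0, fam2_V1, fam2_V2]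
  linear_combination (sin t * cos t) * fam2_nsq z

/-- Subset sums of the second family stay in the unit ball. -/
theorem Valid.chain2 (h : Valid z k) (hQ : ‖zQ z‖ = 1) {r' : ℝ} (h0 : 0 ≤ r')
    (h1 : r' ≤ 5565 / 10000) {w : ℝ → ℝ} (hw : Wt w) :
    ‖zQ z + Iw w (g2 z) (-r') (z 4)‖ ≤ 1 := by
  obtain ⟨r0, r1⟩ := fam2_r h
  have hpi := pi_gt_three
  refine chain (V := fam2_V z) (by linarith) (fam2_cont z) (fam2_deriv z)
    (fun t _ => fam2_Vg z t) ?_ hQ.le ?_ hw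
  · intro s hs t ht
    rw [fam2_gg]
    have : 0 ≤ cos (s - t) :=
      cos_nonneg_of_neg_pi_div_two_le_of_le (by linarith [hs.1, ht.2]) (by linarith [hs.2, ht.1])
    positivity
  · intro t _
    rw [fam2_VQ, sub_self, inner_zero_left]

/-- The mirror map as a continuous linear map. -/
noncomputable def fam2_mirL : E →L[ℝ] E where
  toFun := mir
  map_add' := mir_add
  map_smul' := fun t u => mir_smul t u
  cont := continuous_mir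

/-- The same vector seen from the other side. -/
theorem Share.g2_mir (hs : Share z z') {w : ℝ → ℝ} (hw : Wt w) :
    ∃ w', Wt w' ∧
      mir (zQ z + Iw w (g2 z) (-z' 4) (z 4)) = zQ z' + Iw w' (g2 z') (-z 4) (z' 4) := by
  have hc := fam2_cont z
  have hwc := hw.cont
  have hwn : Continuous fun t => w (-t) := hwc.comp continuous_neg
  refine ⟨fun t => 1 - w (-t), ⟨continuous_const.sub hwn, fun t => by linarith [hw.le (-t)],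
    fun t => by linarith [hw.nn (-t)]⟩, ?_⟩
  rw [hs.eq_g2]
  have e1 : mir (Iw w (g2 z) (-z' 4) (z 4)) = -∫ t in (-z 4)..z' 4, w (-t) • g2 z t := by
    have hi : IntervalIntegrable (fun t => w t • g2 z t) MeasureTheory.volume (-z' 4) (z 4) :=
      (hwc.smul hc).intervalIntegrable _ _
    have h1 := fam2_mirL.intervalIntegral_comp_comm hi
    have h2 : ∀ t, fam2_mirL (w t • g2 z t) = -(w (- -t) • g2 z (-t)) := by
      intro t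
      change mir (w t • g2 z t) = _
      rw [mir_smul, mir_g2, neg_neg, smul_neg]
    have h3 := intervalIntegral.integral_comp_neg (a := -z' 4) (b := z 4)
      (fun t => w (-t) • g2 z t)
    simp only [h2] at h1
    rw [intervalIntegral.integral_neg, h3, neg_neg] at h1
    exact h1.symm
  have e2 : Iw (fun t => 1 - w (-t)) (g2 z) (-z 4) (z' 4) =
      (∫ t in (-z 4)..z' 4, g2 z t) - ∫ t in (-z 4)..z' 4, w (-t) • g2 z t := by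
    have hj : IntervalIntegrable (fun t => w (-t) • g2 z t) MeasureTheory.volume (-z 4) (z' 4) :=
      (hwn.smul hc).intervalIntegrable _ _
    unfold Iw
    rw [← intervalIntegral.integral_sub (hc.intervalIntegrable _ _) hj]
    congr 1
    funext t
    rw [sub_smul, one_smul]
  have e3 : mir (zQ z) = zQ z' + ∫ t in (-z 4)..z' 4, g2 z t := by
    rw [fam2_int]
    have e0 := hs.h0
    have e3 := hs.h3
    have eA := fam2_zA hs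
    apply ext3
    · simp only [mir_0, PiLp.add_apply, vec_0, fam2_Q0, e3, sin_neg]; ring
    · simp only [mir_1, PiLp.add_apply, vec_1, fam2_Q1, e0, e3, eA, cos_neg]; ring
    · simp only [mir_2, PiLp.add_apply, vec_2, fam2_Q2, e0, e3, eA, cos_neg]; ring
  rw [mir_add, e1, e2, e3]
  abel

end Pool.Agent.Lib.MP_ee7495_gt.Y
end

-- part Pool.Agent.Lib.MP_ee7495_gt.Y.NrmB
section

set_option autoImplicit false

open scoped RealInnerProductSpace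
open Real Set

namespace Pool.Agent.Lib.MP_ee7495_gt.Y

theorem nrmb_eb {d : Sd} (hg : d.Geo) : 0 ≤ d.wv 2 := by
  show 0 ≤ d.eb
  unfold Sd.eb
  exact mul_nonneg (mul_nonneg (by norm_num) (mul_self_nonneg _)) hg.ir20

theorem nrmb_e3 (u : E) : ⟪u, e3⟫ = u 2 := by
  rw [inner3]; simp [e3]

theorem nrmb_e3e3 : ⟪e3, e3⟫ = (1 : ℝ) := by
  rw [nrmb_e3]; simp [e3]

theorem nrmb_zin {u w X : E} {τ τ' : ℝ} (h0 : 0 ≤ τ') (h1 : τ' ≤ τ) :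
    ⟪X, τ • u + τ' • w⟫ ≤ τ * (⟪X, u⟫ + pp ⟪X, w⟫) := by
  rw [inner_add_right, real_inner_smul_right, real_inner_smul_right]
  have := mul_le_pp (t := ⟪X, w⟫) h0 h1
  linarith

theorem nrmb_zz {d : Sd} (hg : d.Geo) {u ζ : E} (h : d.InZ u ζ) :
    -ζ 2 ≤ d.lam * pp (-u 2) := by
  obtain ⟨τ, τ', h0, h1, h2, rfl⟩ := h
  have e : (τ • u + τ' • d.wv) 2 = τ * u 2 + τ' * d.wv 2 := by simp
  rw [e]
  have a := mul_le_pp (t := -u 2) (h0.trans h1) h2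
  have b := mul_nonneg h0 (nrmb_eb hg)
  linarith

theorem nrmb_zM {d : Sd} {u ζ : E} (h : d.InZ u ζ) (M : E) :
    ⟪M, ζ⟫ ≤ d.lam * pp (⟪M, u⟫ + pp ⟪M, d.wv⟫) := by
  obtain ⟨τ, τ', h0, h1, h2, rfl⟩ := h
  exact (nrmb_zin h0 h1).trans (mul_le_pp (h0.trans h1) h2)

theorem nrmb_zA {d : Sd} {u ζ : E} (h : d.InZ u ζ) (A : E) :
    -⟪ζ, A⟫ ≤ d.lam * pp (pp (-⟪d.wv, A⟫) - ⟪u, A⟫) := by
  have h1 := nrmb_zM h (-A)
  simp only [inner_neg_left] at h1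
  have e : -⟪A, u⟫ + pp (-⟪A, d.wv⟫) = pp (-⟪d.wv, A⟫) - ⟪u, A⟫ := by
    rw [real_inner_comm A d.wv, real_inner_comm A u]; ring
  rw [e] at h1
  rw [real_inner_comm A ζ]
  exact h1

theorem nrmb_th {θ t : ℝ} (h0 : 0 ≤ θ) (h1 : θ ≤ 1) : θ * t ≤ pp t := by
  have := mul_le_pp (t := t) h0 h1
  linarith

theorem nrmb_ysq {Y : E} {s : ℝ} (h0 : 0 ≤ s) (h1 : s ≤ 29 / 100) (h : ‖Y‖ ≤ 128 / 125 * s) :
    ⟪Y, Y⟫ ≤ s * (3041 / 10000) := by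
  rw [real_inner_self_eq_norm_sq]
  have a : ‖Y‖ ^ 2 ≤ (128 / 125 * s) ^ 2 := pow_le_pow_left₀ (norm_nonneg _) h 2
  nlinarith

theorem nrmb_norm {W : E} (h : ⟪W, W⟫ ≤ 1) : ‖W‖ ≤ 1 := by
  rw [real_inner_self_eq_norm_sq] at h
  nlinarith [norm_nonneg W]

theorem nrmb_expB (T O A Y : E) (m : ℝ) :
    ⟪T + O - A + Y - m • e3, T + O - A + Y - m • e3⟫ =
      ⟪T + O, T + O⟫ + (-⟪T + (T - A), A⟫ + 2 * -⟪O, A⟫ + (2 * ⟪Y, T - A + O⟫ + ⟪Y, Y⟫) +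
        m * (m - 2 * (T - A) 2 - 2 * O 2 - 2 * Y 2)) := by
  simp only [inner3, e3, PiLp.add_apply, PiLp.sub_apply, PiLp.smul_apply, smul_eq_mul, vec_0,
    vec_1, vec_2]
  ring

theorem nrmb_expA (X a b Y : E) (m : ℝ) :
    ⟪X + a + b + Y - m • e3, X + a + b + Y - m • e3⟫ =
      ⟪X, X⟫ + 2 * ⟪X, a⟫ + 2 * ⟪X, b⟫ + ⟪a + b, a + b⟫ + 2 * ⟪Y, a⟫ + 2 * ⟪Y, b⟫ +
        (2 * ⟪Y, X⟫ + ⟪Y, Y⟫) + m * (m - 2 * X 2 - 2 * a 2 - 2 * b 2 - 2 * Y 2) := by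
  simp only [inner3, e3, PiLp.add_apply, PiLp.sub_apply, PiLp.smul_apply, smul_eq_mul, vec_0,
    vec_1, vec_2]
  ring

theorem nrmb_pp_np {t : ℝ} (h : t ≤ 0) : pp t = 0 := max_eq_right h

theorem nrmb_Bc0 {d : Sd} (hv : d.Valid) : d.Bc 0 ≤ 0 := by
  unfold Sd.Bc
  simp only [inner_zero_right, neg_zero, sub_zero, nrmb_pp_np (le_refl (0 : ℝ)),
    nrmb_pp_np hv.tb.o0y, nrmb_pp_np hv.tb.o0e]
  norm_num

theorem nrmb_B {d : Sd} (hg : d.Geo) {A ζs ζe Y : E} {θ0 θ1 m : ℝ} (hA : d.Bc A ≤ 0)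
    (hs : d.InZ d.us ζs) (he : d.InZ d.ue ζe) (h0 : 0 ≤ θ0) (h0' : θ0 ≤ 1) (h1 : 0 ≤ θ1)
    (h1' : θ1 ≤ 1) (hY : InM Y) (hm : 0 ≤ m) (hm' : m ≤ d.m1)
    (hn : ‖d.TA + (ζs + ζe + θ0 • d.q0 + θ1 • d.q1)‖ ≤ 1) :
    ‖d.TA + (ζs + ζe + θ0 • d.q0 + θ1 • d.q1) - A + Y - m • e3‖ ≤ 1 := by
  apply nrmb_norm
  obtain ⟨s, s0, s1, hYn, hY2, hYX⟩ := hY.spec
  rw [nrmb_expB]
  have a0 : ⟪d.TA + (ζs + ζe + θ0 • d.q0 + θ1 • d.q1),
      d.TA + (ζs + ζe + θ0 • d.q0 + θ1 • d.q1)⟫ ≤ 1 := by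
    rw [real_inner_self_eq_norm_sq]
    nlinarith [norm_nonneg (d.TA + (ζs + ζe + θ0 • d.q0 + θ1 • d.q1))]
  have a1 : -⟪ζs + ζe + θ0 • d.q0 + θ1 • d.q1, A⟫ ≤
      d.lam * (pp (pp (-⟪d.wv, A⟫) - ⟪d.us, A⟫) + pp (pp (-⟪d.wv, A⟫) - ⟪d.ue, A⟫)) +
        pp (-⟪d.q0, A⟫) + pp (-⟪d.q1, A⟫) := by
    rw [inner_add_left, inner_add_left, inner_add_left, real_inner_smul_left, real_inner_smul_left]
    have b1 := nrmb_zA hs A
    have b2 := nrmb_zA he A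
    have b3 := nrmb_th (t := -⟪d.q0, A⟫) h0 h0'
    have b4 := nrmb_th (t := -⟪d.q1, A⟫) h1 h1'
    linarith
  have a2 : ⟪Y, d.TA - A + (ζs + ζe + θ0 • d.q0 + θ1 • d.q1)⟫ ≤
      s * (mM (d.TA - A) + mx4 d.cj) := by
    apply hYX
    intro j
    rw [inner_add_right, inner_add_right, inner_add_right, inner_add_right, real_inner_smul_right,
      real_inner_smul_right]
    have b0 : ⟪Mk j, d.TA - A⟫ ≤ mM (d.TA - A) := le_mx4 (fun j => ⟪Mk j, d.TA - A⟫) j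
    have b1 : ⟪Mk j, ζs⟫ ≤ d.lam * d.zs j := nrmb_zM hs (Mk j)
    have b2 : ⟪Mk j, ζe⟫ ≤ d.lam * d.ze j := nrmb_zM he (Mk j)
    have b3 := nrmb_th (t := ⟪Mk j, d.q0⟫) h0 h0'
    have b4 := nrmb_th (t := ⟪Mk j, d.q1⟫) h1 h1'
    have b5 : d.lam * (d.zs j + d.ze j) + pp ⟪Mk j, d.q0⟫ + pp ⟪Mk j, d.q1⟫ ≤ mx4 d.cj :=
      le_mx4 d.cj j
    linarith
  have a3 := nrmb_ysq s0 s1 hYn
  have a4 : s * (2 * mM (d.TA - A) + d.Cm) ≤ 29 / 100 * pp (2 * mM (d.TA - A) + d.Cm) :=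
    mul_le_pp s0 s1
  have a5 : m - 2 * (d.TA - A) 2 - 2 * (ζs + ζe + θ0 • d.q0 + θ1 • d.q1) 2 - 2 * Y 2 ≤
      d.Kk - 2 * (d.TA - A) 2 := by
    have e : (ζs + ζe + θ0 • d.q0 + θ1 • d.q1) 2 = ζs 2 + ζe 2 + θ0 * d.qz + θ1 * d.qz := by
      simp [Sd.q0, Sd.q1]
    rw [e]
    have b1 := nrmb_zz hg hs
    have b2 := nrmb_zz hg he
    have b3 := nrmb_th (t := -d.qz) h0 h0'
    have b4 := nrmb_th (t := -d.qz) h1 h1'
    unfold Sd.Kk Sd.lz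
    linarith
  have a6 := mul_le_mul_of_nonneg_left a5 hm
  have a7 : m * (d.Kk - 2 * (d.TA - A) 2) ≤ d.m1 * pp (d.Kk - 2 * (d.TA - A) 2) :=
    mul_le_pp hm hm'
  have a8 : s * (2 * mM (d.TA - A) + d.Cm) =
      2 * (s * (mM (d.TA - A) + mx4 d.cj)) + s * (3041 / 10000) := by
    unfold Sd.Cm; ring
  unfold Sd.Bc at hA
  linarith

/-- Patterns of type B. -/
theorem Sd.nB {d : Sd} (hv : d.Valid) (hg : d.Geo) {A ζs ζe Y : E} {θ0 θ1 m : ℝ}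
    (hA : A = 0 ∨ A = d.a0 ∨ A = d.a0 + d.a1 ∨ A = d.a3 ∨ A = d.a3 + d.a2)
    (hs : d.InZ d.us ζs) (he : d.InZ d.ue ζe) (h0 : 0 ≤ θ0) (h0' : θ0 ≤ 1) (h1 : 0 ≤ θ1)
    (h1' : θ1 ≤ 1) (hY : InM Y) (hm : 0 ≤ m) (hm' : m ≤ d.m1)
    (hn : ‖d.TA + (ζs + ζe + θ0 • d.q0 + θ1 • d.q1)‖ ≤ 1) :
    ‖d.TA + (ζs + ζe + θ0 • d.q0 + θ1 • d.q1) - A + Y - m • e3‖ ≤ 1 := by
  refine nrmb_B hg ?_ hs he h0 h0' h1 h1' hY hm hm' hn
  rcases hA with rfl | rfl | rfl | rfl | rfl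
  · exact nrmb_Bc0 hv
  · exact hv.tb.b1
  · exact hv.tb.b2
  · exact hv.tb.b5
  · exact hv.tb.b6

theorem nrmb_A {d : Sd} (hg : d.Geo) {X ζs ζe Y : E} {m : ℝ} (hX : d.Ac X ≤ 0)
    (hz : -X 2 ≤ -d.X3 2 + 2 * pp (-d.qz))
    (hs : d.InZ d.us ζs) (he : d.InZ d.ue ζe) (hY : InM Y) (hm : 0 ≤ m)
    (hm' : m ≤ d.m1) : ‖X + ζs + ζe + Y - m • e3‖ ≤ 1 := by
  apply nrmb_norm
  obtain ⟨s, s0, s1, hYn, hY2, hYX⟩ := hY.spec
  rw [nrmb_expA]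
  have c1 := nrmb_zz hg hs
  have c2 := nrmb_zz hg he
  obtain ⟨τ, τ', p0, p1, p2, hζs⟩ := hs
  obtain ⟨σ, σ', q0, q1, q2, hζe⟩ := he
  have τ0 := p0.trans p1
  have σ0 := q0.trans q1
  have n1 : ‖ζs‖ ≤ τ := hζs ▸ hg.ns τ τ' p0 p1
  have n2 : ‖ζe‖ ≤ σ := hζe ▸ hg.ne σ σ' q0 q1
  have a0 : ⟪ζs + ζe, ζs + ζe⟫ ≤ τ * (2 * d.lam) + σ * (2 * d.lam) := by
    rw [real_inner_self_eq_norm_sq]
    have b1 : ‖ζs + ζe‖ ≤ τ + σ := (norm_add_le _ _).trans (add_le_add n1 n2)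
    have b2 : ‖ζs + ζe‖ ^ 2 ≤ (τ + σ) ^ 2 := pow_le_pow_left₀ (norm_nonneg _) b1 2
    have b3 : (τ + σ) * (τ + σ) ≤ (τ + σ) * (2 * d.lam) :=
      mul_le_mul_of_nonneg_left (by linarith) (by linarith)
    nlinarith
  have a1 : ⟪X, ζs⟫ ≤ τ * (⟪X, d.us⟫ + pp ⟪d.wv, X⟫) := by
    rw [hζs, real_inner_comm X d.wv]; exact nrmb_zin p0 p1
  have a2 : ⟪X, ζe⟫ ≤ σ * (⟪X, d.ue⟫ + pp ⟪d.wv, X⟫) := by
    rw [hζe, real_inner_comm X d.wv]; exact nrmb_zin q0 q1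
  have z1 : 0 ≤ d.zms := (pp_nonneg _).trans (le_mx4 d.zs 0)
  have z2 : 0 ≤ d.zme := (pp_nonneg _).trans (le_mx4 d.ze 0)
  have a3 : ⟪Y, ζs⟫ ≤ s * (τ * d.zms) := by
    apply hYX
    intro j
    rw [hζs]
    refine (nrmb_zin p0 p1).trans (mul_le_mul_of_nonneg_left ?_ τ0)
    exact (le_pp _).trans (le_mx4 d.zs j)
  have a4 : ⟪Y, ζe⟫ ≤ s * (σ * d.zme) := by
    apply hYX
    intro j
    rw [hζe]
    refine (nrmb_zin q0 q1).trans (mul_le_mul_of_nonneg_left ?_ σ0)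
    exact (le_pp _).trans (le_mx4 d.ze j)
  have a3' : s * (τ * d.zms) ≤ 29 / 100 * (τ * d.zms) :=
    mul_le_mul_of_nonneg_right s1 (mul_nonneg τ0 z1)
  have a4' : s * (σ * d.zme) ≤ 29 / 100 * (σ * d.zme) :=
    mul_le_mul_of_nonneg_right s1 (mul_nonneg σ0 z2)
  have a5 : ⟪Y, X⟫ ≤ s * mM X := hYX X _ fun j => le_mx4 (fun j => ⟪Mk j, X⟫) j
  have a6 := nrmb_ysq s0 s1 hYn
  have a7 : s * (2 * mM X + 3041 / 10000) ≤ 29 / 100 * pp (2 * mM X + 3041 / 10000) :=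
    mul_le_pp s0 s1
  have a8 : m - 2 * X 2 - 2 * ζs 2 - 2 * ζe 2 - 2 * Y 2 ≤ d.Kk - 2 * d.X3 2 := by
    unfold Sd.Kk Sd.lz
    linarith
  have a9 := mul_le_mul_of_nonneg_left a8 hm
  have a10 : m * (d.Kk - 2 * d.X3 2) ≤ d.ec := mul_le_pp hm hm'
  have a11 : τ * (2 * (⟪X, d.us⟫ + pp ⟪d.wv, X⟫) + d.ds) ≤
      d.lam * pp (2 * (⟪X, d.us⟫ + pp ⟪d.wv, X⟫) + d.ds) := mul_le_pp τ0 p2
  have a12 : σ * (2 * (⟪X, d.ue⟫ + pp ⟪d.wv, X⟫) + d.de) ≤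
      d.lam * pp (2 * (⟪X, d.ue⟫ + pp ⟪d.wv, X⟫) + d.de) := mul_le_pp σ0 q2
  have e1 : τ * (2 * (⟪X, d.us⟫ + pp ⟪d.wv, X⟫) + d.ds) =
      2 * (τ * (⟪X, d.us⟫ + pp ⟪d.wv, X⟫)) + τ * (2 * d.lam) + 2 * (29 / 100 * (τ * d.zms)) := by
    unfold Sd.ds; ring
  have e2 : σ * (2 * (⟪X, d.ue⟫ + pp ⟪d.wv, X⟫) + d.de) =
      2 * (σ * (⟪X, d.ue⟫ + pp ⟪d.wv, X⟫)) + σ * (2 * d.lam) + 2 * (29 / 100 * (σ * d.zme)) := by
    unfold Sd.de; ring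
  unfold Sd.Ac at hX
  linarith

/-- The pattern of type A. -/
theorem Sd.nA {d : Sd} (hv : d.Valid) (hg : d.Geo) {q ζs ζe Y : E} {m : ℝ}
    (hq : Sub2 d.q0 d.q1 q) (hs : d.InZ d.us ζs) (he : d.InZ d.ue ζe) (hY : InM Y) (hm : 0 ≤ m)
    (hm' : m ≤ d.m1) : ‖d.X3 + q + ζs + ζe + Y - m • e3‖ ≤ 1 := by
  have u0 := pp_nonneg (-d.qz)
  have u1 := le_pp (-d.qz)
  have e0 : d.q0 2 = d.qz := rfl
  have e1 : d.q1 2 = d.qz := rfl
  refine nrmb_A hg ?_ ?_ hs he hY hm hm'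
  · rcases hq with rfl | rfl | rfl | rfl
    · rw [add_zero]; exact hv.ta.a0
    · exact hv.ta.a1
    · exact hv.ta.a2
    · exact hv.ta.a3
  · rcases hq with rfl | rfl | rfl | rfl
    · rw [add_zero]; linarith
    · rw [PiLp.add_apply, e0]; linarith
    · rw [PiLp.add_apply, e1]; linarith
    · rw [PiLp.add_apply, PiLp.add_apply, e0, e1]; linarith

end Pool.Agent.Lib.MP_ee7495_gt.Y
end

-- part Pool.Agent.Lib.MP_ee7495_gt.Y.NrmX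
section

set_option autoImplicit false

open scoped RealInnerProductSpace
open Real Set

namespace Pool.Agent.Lib.MP_ee7495_gt.Y

theorem nrmx_z {d : Sd} (hg : d.Geo) {u ζ : E} (h : d.InZ u ζ)
    (hn : ∀ τ τ' : ℝ, 0 ≤ τ' → τ' ≤ τ → ‖τ • u + τ' • d.wv‖ ≤ τ) :
    ∃ τ : ℝ, 0 ≤ τ ∧ τ ≤ d.lam ∧ ‖ζ‖ ≤ τ ∧ (∀ X : E, ⟪X, ζ⟫ ≤ τ * (⟪X, u⟫ + pp ⟪d.wv, X⟫)) ∧
      -ζ 2 ≤ d.lam * pp (-u 2) := by
  obtain ⟨τ, τ', h0, h1, h2, rfl⟩ := h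
  refine ⟨τ, h0.trans h1, h2, hn τ τ' h0 h1, fun X => ?_, ?_⟩
  · rw [inner_add_right, inner_smul_right, inner_smul_right, real_inner_comm d.wv X, mul_add]
    have := mul_le_pp h0 h1 (t := ⟪d.wv, X⟫)
    linarith
  · have h3 : 0 ≤ d.eb := mul_nonneg (mul_nonneg (by norm_num) (mul_self_nonneg _)) hg.ir20
    have h4 := mul_le_pp (h0.trans h1) h2 (t := -u 2)
    have h5 : (τ • u + τ' • d.wv) 2 = τ * u 2 + τ' * d.eb := by simp [Sd.wv]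
    have h6 := mul_nonneg h0 h3
    rw [h5]
    linarith

theorem nrmx_sq (X R : E) {ρ N : ℝ} (h : ‖R‖ ≤ ρ) (hN : ρ ≤ N) :
    ‖X + R‖ ^ 2 ≤ ⟪X, X⟫ + 2 * ⟪X, R⟫ + ρ * N := by
  rw [norm_add_sq_real, real_inner_self_eq_norm_sq]
  have h0 := norm_nonneg R
  nlinarith

theorem nrmx_e3 (S : E) (m : ℝ) : ‖S - m • e3‖ ^ 2 = ‖S‖ ^ 2 + m * (m - 2 * S 2) := by
  rw [normsq3, normsq3]
  simp [e3]
  ring

theorem nrmx_sub {a b h : E} (hh : Sub2 a b h) : -h 2 ≤ pp (-a 2) + pp (-b 2) := by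
  have h1 := pp_nonneg (-a 2)
  have h2 := pp_nonneg (-b 2)
  have h3 := le_pp (-a 2)
  have h4 := le_pp (-b 2)
  rcases hh with rfl | rfl | rfl | rfl
  · simp only [PiLp.zero_apply, neg_zero]; linarith
  · linarith
  · linarith
  · simp only [PiLp.add_apply]; linarith

theorem nrmx_V {d : Sd} (hg : d.Geo) {X w ζs ζe : E} {κ ω η N : ℝ} (j : Fin 4)
    (hs : d.InZ d.us ζs) (he : d.InZ d.ue ζe) (h0 : 0 ≤ κ) (h1 : κ ≤ d.k) (hw : ‖w‖ ≤ ω)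
    (hN : d.Nv + ω ≤ N) (hη : 2 * ⟪X, w⟫ + N * ω ≤ η) (hb : d.bV X N + η ≤ 0) :
    ‖X + (w + ζs + ζe + κ • Gk j)‖ ≤ 3 / 5 := by
  obtain ⟨ts, s0, s1, s2, s3, -⟩ := nrmx_z hg hs hg.ns
  obtain ⟨te, e0, e1, e2, e3', -⟩ := nrmx_z hg he hg.ne
  have g1 : ‖κ • Gk j‖ ≤ κ * (128 / 125) := by
    rw [norm_smul, Real.norm_of_nonneg h0]
    exact mul_le_mul_of_nonneg_left (norm_Gk j) h0
  have g2 : ‖w + ζs + ζe + κ • Gk j‖ ≤ ω + ts + te + κ * (128 / 125) :=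
    norm_add_le_of_le (norm_add_le_of_le (norm_add_le_of_le hw s2) e2) g1
  have g3 : ω + ts + te + κ * (128 / 125) ≤ N := by
    simp only [Sd.Nv, Sd.l2] at hN
    linarith
  have g4 := nrmx_sq X _ g2 g3
  have g5 : ⟪X, κ • Gk j⟫ ≤ κ * mG X := by
    rw [inner_smul_right, real_inner_comm]
    exact mul_le_mul_of_nonneg_left (le_mx4 (fun j => ⟪Gk j, X⟫) j) h0
  rw [inner_add_right, inner_add_right, inner_add_right] at g4
  have a1 := mul_le_pp s0 s1 (t := 2 * (⟪X, d.us⟫ + pp ⟪d.wv, X⟫) + N)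
  have a2 := mul_le_pp e0 e1 (t := 2 * (⟪X, d.ue⟫ + pp ⟪d.wv, X⟫) + N)
  have a3 := mul_le_pp h0 h1 (t := 2 * mG X + 128 / 125 * N)
  have a4 := s3 X
  have a5 := e3' X
  simp only [Sd.bV] at hb
  refine abs_le_of_sq_le_sq' (b := 3 / 5) ?_ (by norm_num) |>.2
  linarith

/-- The own part lies in the ball of radius `2 / 5`. -/
theorem Sd.nX {d : Sd} (hv : d.Valid) (hg : d.Geo) {X h ζs ζe : E} {m : ℝ}
    (hX : X = d.X4 ∨ X = d.X7) (hh : Sub2 d.h0 d.h1 h) (hs : d.InZ d.us ζs) (he : d.InZ d.ue ζe)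
    (hm : 0 ≤ m) (hm' : m ≤ d.mc) : ‖X + h + ζs + ζe - m • e3‖ ≤ 2 / 5 := by
  obtain ⟨ts, s0, s1, s2, s3, s4⟩ := nrmx_z hg hs hg.ns
  obtain ⟨te, e0, e1, e2, e3', e4⟩ := nrmx_z hg he hg.ne
  have hb : d.bX (X + h) ≤ 0 := by
    rcases hX with rfl | rfl <;> rcases hh with rfl | rfl | rfl | rfl
    exacts [(add_zero d.X4).symm ▸ hv.tx.x40, hv.tx.x41, hv.tx.x42, hv.tx.x43,
      (add_zero d.X7).symm ▸ hv.tx.x70, hv.tx.x71, hv.tx.x72, hv.tx.x73]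
  have hz : d.X7 2 ≤ X 2 := by
    rcases hX with rfl | rfl
    · have h1 : 0 ≤ d.x1 := by
        have := hv.rg.r0
        simp only [Sd.x1]
        linarith
      have h2 : 0 ≤ d.t1 := by
        simp only [Sd.t1]
        positivity
      have h3 : 0 ≤ d.ts * d.sy := mul_nonneg (mul_nonneg h2 hg.sr0) hg.sy0
      have h4 : d.X4 2 = d.X7 2 + d.ts * d.sy := by simp [Sd.X4, Sd.a0]
      linarith
    · exact le_rfl
  have g1 := nrmx_sq (X + h) (ζs + ζe) (norm_add_le_of_le s2 e2) (N := d.l2) (by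
    simp only [Sd.l2]; linarith)
  have g2 := nrmx_e3 (X + h + ζs + ζe) m
  have g3 := nrmx_sub hh
  have g4 : m * (m - 2 * (X + h + ζs + ζe) 2) ≤ d.ecx := by
    refine (mul_le_pp hm hm').trans (mul_le_mul_of_nonneg_left (pp_mono ?_) hv.sd.mc0)
    simp only [PiLp.add_apply, Sd.lz]
    linarith
  rw [inner_add_right _ ζs, ← add_assoc] at g1
  have a1 := mul_le_pp s0 s1 (t := 2 * (⟪X + h, d.us⟫ + pp ⟪d.wv, X + h⟫) + d.l2)
  have a2 := mul_le_pp e0 e1 (t := 2 * (⟪X + h, d.ue⟫ + pp ⟪d.wv, X + h⟫) + d.l2)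
  have a4 := s3 (X + h)
  have a5 := e3' (X + h)
  simp only [Sd.bX] at hb
  refine abs_le_of_sq_le_sq' (b := 2 / 5) ?_ (by norm_num) |>.2
  linarith

/-- The part seen by the other side lies in the ball of radius `3 / 5`. -/
theorem Sd.nV {d : Sd} (hv : d.Valid) (hg : d.Geo) {h ζs ζe : E} {κ m : ℝ} (j : Fin 4)
    (hh : Sub2 d.h0 d.h1 h) (hs : d.InZ d.us ζs) (he : d.InZ d.ue ζe) (h0 : 0 ≤ κ) (h1 : κ ≤ d.k)
    (hm : m = 0 ∨ m = d.mo - 1 / 10) :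
    ‖d.V0 + h + ζs + ζe + κ • Gk j - m • e3‖ ≤ 3 / 5 := by
  rcases hm with rfl | rfl
  · have hb : d.bV (d.V0 + h) d.Nv ≤ 0 := by
      rcases hh with rfl | rfl | rfl | rfl
      exacts [(add_zero d.V0).symm ▸ hv.tx.v0, hv.tx.v1, hv.tx.v2, hv.tx.v3]
    have := nrmx_V hg (X := d.V0 + h) (w := 0) (ω := 0) (η := 0) (N := d.Nv) j hs he h0 h1
      (by simp) (by simp) (by simp) (by simpa using hb)
    convert this using 2
    simp only [zero_smul, sub_zero, zero_add, add_assoc]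
  · have t0 : 0 ≤ d.th := by
      have h2 := hv.rg.ch0
      have h3 := hg.sH0
      simp only [Sd.th, Sd.xh]
      positivity
    have n0 : ‖d.h0‖ ≤ d.th := by
      refine abs_le_of_sq_le_sq' (le_of_eq ?_) t0 |>.2
      rw [normsq3]
      simp only [Sd.h0, Sd.tcc, vec_0, vec_1, vec_2]
      linear_combination d.th ^ 2 * hg.ccsc + d.th ^ 2 * d.cc ^ 2 * hg.coso
    have n1 : ‖d.h1‖ ≤ d.th := by
      refine abs_le_of_sq_le_sq' (le_of_eq ?_) t0 |>.2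
      rw [normsq3]
      simp only [Sd.h1, vec_0, vec_1, vec_2]
      linear_combination d.th ^ 2 * hg.coso
    have hb := hv.tx.ve
    have p0 := pp_nonneg (2 * ⟪d.Ve, d.h0⟫ + d.Ne * d.th)
    have p1 := pp_nonneg (2 * ⟪d.Ve, d.h1⟫ + d.Ne * d.th)
    have q0 := le_pp (2 * ⟪d.Ve, d.h0⟫ + d.Ne * d.th)
    have q1 := le_pp (2 * ⟪d.Ve, d.h1⟫ + d.Ne * d.th)
    obtain ⟨ω, w1, w2, w3⟩ : ∃ ω : ℝ, ‖h‖ ≤ ω ∧ ω ≤ 2 * d.th ∧ 2 * ⟪d.Ve, h⟫ + d.Ne * ω ≤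
        pp (2 * ⟪d.Ve, d.h0⟫ + d.Ne * d.th) + pp (2 * ⟪d.Ve, d.h1⟫ + d.Ne * d.th) := by
      rcases hh with rfl | rfl | rfl | rfl
      · exact ⟨0, by simp, by linarith, by simpa using add_nonneg p0 p1⟩
      · exact ⟨d.th, n0, by linarith, by linarith⟩
      · exact ⟨d.th, n1, by linarith, by linarith⟩
      · exact ⟨d.th + d.th, norm_add_le_of_le n0 n1, by linarith, by
          rw [inner_add_right]; linarith⟩
    have := nrmx_V hg (X := d.Ve) (N := d.Ne) j hs he h0 h1 w1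
      (by simp only [Sd.Ne]; linarith) w3 (by simp only [Sd.bE] at hb; linarith)
    have hVe : d.Ve = d.V0 - (d.mo - 1 / 10) • e3 := ext3 (by simp [Sd.Ve, e3])
      (by simp [Sd.Ve, e3]) (by simp [Sd.Ve, e3])
    convert this using 2
    rw [hVe]
    abel

end Pool.Agent.Lib.MP_ee7495_gt.Y
end
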