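import Mathlib
import Pool.Agent.Lib.MP_ee7495_gt.Y.NrmX
import Pool.Agent.Lib.MP_ee7495_gt.Y.Fam5



set_option autoImplicit false

open scoped RealInnerProductSpace
open Real Set

namespace Pool.Agent.Lib.MP_ee7495_gt.Y

theorem dom1_vert (m : ℝ) (ξ : E) :
    ∃ m' : ℝ, (m' = 0 ∨ m' = m) ∧ m * pp (-ξ 2) = -⟪ξ, m' • e3⟫ := by
  rcases le_total (-ξ 2) 0 with h | h
  · refine ⟨0, Or.inl rfl, ?_⟩
    have : pp (-ξ 2) = 0 := max_eq_right h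
    rw [this]; simp
  · refine ⟨m, Or.inr rfl, ?_⟩
    have : pp (-ξ 2) = -ξ 2 := max_eq_left h
    rw [this, real_inner_smul_right, inner3]
    simp [e3]

theorem dom1_hook {c : ℝ} (hc : 0 ≤ c) (η G : E) :
    ∃ κ : ℝ, 0 ≤ κ ∧ κ ≤ c ∧ c * pp ⟪η, G⟫ = ⟪η, κ • G⟫ := by
  rcases le_total ⟪η, G⟫ 0 with h | h
  · refine ⟨0, le_rfl, hc, ?_⟩
    have : pp ⟪η, G⟫ = 0 := max_eq_right h
    rw [this]; simp
  · refine ⟨c, hc, le_rfl, ?_⟩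
    have : pp ⟪η, G⟫ = ⟪η, G⟫ := max_eq_left h
    rw [this, real_inner_smul_right]

theorem dom1_cs {ξ W : E} {c : ℝ} (h : ‖W‖ ≤ c) : ⟪ξ, W⟫ ≤ c * ‖ξ‖ := by
  have h1 := real_inner_le_norm ξ W
  have h2 := mul_le_mul_of_nonneg_left h (norm_nonneg ξ)
  linarith [mul_comm c ‖ξ‖]

theorem dom1_g2 {z z' : Fin 9 → ℝ} (hs : Share z z') (ξ : E) :
    ⟪zQ z - zP0 z, ξ⟫ + Ip (g2 z) 0 (z 4) ξ + Ip (g2 z') 0 (z' 4) (mir ξ) =
      Ip (g2 z) (-z' 4) (z 4) (-ξ) := by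
  have hc : Continuous (g2 z) := continuous_arc _ _
  have h1 := Ip_neg hc 0 (z 4) ξ
  rw [g2_int] at h1
  have h2 : Ip (g2 z') 0 (z' 4) (mir ξ) = Ip (g2 z) (-z' 4) 0 (-ξ) := by
    refine Ip_refl (g2 z) (g2 z') (-ξ) (mir ξ) (fun t => ?_) (z' 4)
    rw [hs.eq_g2, inner_mir_left, mir_g2, inner_neg_left, inner_neg_right]
  have h3 := Ip_add hc (-z' 4) 0 (z 4) (-ξ)
  have h4 : ⟪zQ z - zP0 z, ξ⟫ = -⟪ξ, zP0 z - zQ z⟫ := by
    rw [real_inner_comm, ← inner_neg_right, neg_sub]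
  linarith

theorem dom1_g5 {z z' : Fin 9 → ℝ} (hs : Share z z') (ξ : E) :
    Ip (g5 z) 0 (z 8) ξ + Ip (g5 z') 0 (z' 8) (mir ξ) = Ip (g5 z) (-z' 8) (z 8) ξ := by
  have hc : Continuous (g5 z) := continuous_arc _ _
  have h2 : Ip (g5 z') 0 (z' 8) (mir ξ) = Ip (g5 z) (-z' 8) 0 ξ := by
    refine Ip_refl (g5 z) (g5 z') ξ (mir ξ) (fun t => ?_) (z' 8)
    rw [hs.eq_g5, inner_mir_left, mir_g5]
  have h3 := Ip_add hc (-z' 8) 0 (z 8) ξ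
  linarith

/-- Domination on the first piece. -/
theorem dom1 {z z' : Fin 9 → ℝ} {k k' : ℝ} (h : Valid z k) (h' : Valid z' k') (hs : Share z z')
    (j : Fin 4) (ξ : E) : f1 z k ξ + f3 z' k' j (mir ξ) ≤ ‖ξ‖ := by
  have hv : (sdOf z k).Valid := h
  have hv' : (sdOf z' k').Valid := h'
  have hg := h.geo
  have hg' := h'.geo
  have e2 := dom1_g2 hs ξ
  have e5 := dom1_g5 hs ξ
  have hTA : (sdOf z k).TA = zTA z := rfl
  have hD0 : 0 ≤ z 5 := hv.rg.D0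
  have hch0 : 0 ≤ z 8 := hv.rg.ch0
  have hch0' : 0 ≤ z' 8 := hv'.rg.ch0
  have hch1' : z' 8 ≤ 2837 / 10000 := hv'.rg.ch1
  have hk0' : 0 ≤ k' := hv'.rg.k0
  have hsplit : ⟪zTA z + zQ z - zP0 z, ξ⟫ = ⟪ξ, zTA z⟫ + ⟪zQ z - zP0 z, ξ⟫ := by
    rw [add_sub_assoc, inner_add_left, real_inner_comm]
  obtain ⟨κ, hκ0, hκ1, hκ⟩ := dom1_hook hk0' (mir ξ) (Gk j)
  obtain ⟨ζs', ζe', hs', he', hd'⟩ := h'.g3_dom (mir ξ)
  have hY : InM (mir (ζs' + ζe' + κ • Gk j)) :=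
    Sd.inM_mir hv'.sd hg' hs' he' hκ0 (show κ ≤ (sdOf z' k').k from hκ1) j
  have hYe : ⟪ξ, mir (ζs' + ζe' + κ • Gk j)⟫ = ⟪mir ξ, ζs' + ζe'⟫ + ⟪mir ξ, κ • Gk j⟫ := by
    rw [← inner_mir_left, inner_add_right]
  obtain ⟨m, hm, hme⟩ := dom1_vert ((sdOf z k).mc + ((sdOf z' k').mo - 1 / 10)) ξ
  have hmc := hv.sd.mc0
  have hmo0 := hv'.sd.mo0
  have hmo1 := hv'.sd.mo1
  have hm1 : (sdOf z k).m1 = (sdOf z k).mc + 7 / 10 := rfl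
  have hm0 : 0 ≤ m := by rcases hm with rfl | rfl <;> linarith
  have hmm : m ≤ (sdOf z k).m1 := by rcases hm with rfl | rfl <;> linarith
  have hmir2 : mir ξ 2 = ξ 2 := rfl
  unfold f1 f3 Aown
  rw [hmir2, hsplit]
  rcases h.g2_cases h' hs ξ with ⟨A, hA, hI⟩ | hI | ⟨X, hX, hI⟩
  · refine le_of_forall_pos_le_add fun ε hε => ?_
    have hε2 : 0 < ε / 2 := by linarith
    obtain ⟨w3, hw3, hI3⟩ := Ip_wt (continuous_g3 z) hD0 ξ hε2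
    have hc5 : Continuous (g5 z) := continuous_arc _ _
    obtain ⟨w5, hw5, hI5⟩ := Ip_wt hc5 (show -z' 8 ≤ z 8 by linarith) ξ hε2
    obtain ⟨ζs, ζe, hζs, hζe, h3⟩ := h.g3_wt hw3
    obtain ⟨θ0, θ1, a0, a1, b0, b1, h5⟩ := h.g5_wt hch0' hch1' hw5
    have hch := h.chain35 hch0' hch1' hw3 hw5
    rw [h3, h5] at hch
    have hn : ‖(sdOf z k).TA + (ζs + ζe + θ0 • (sdOf z k).q0 + θ1 • (sdOf z k).q1)‖ ≤ 1 := by
      have : (sdOf z k).TA + (ζs + ζe + θ0 • (sdOf z k).q0 + θ1 • (sdOf z k).q1) =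
          zTA z + (ζs + ζe) + (θ0 • (sdOf z k).q0 + θ1 • (sdOf z k).q1) := by
        rw [hTA]; abel
      rw [this]; exact hch
    have hB := Sd.nB hv hg hA hζs hζe a0 a1 b0 b1 hY hm0 hmm hn
    have hcs := dom1_cs (ξ := ξ) hB
    rw [h3] at hI3
    rw [h5] at hI5
    rw [hTA] at hcs
    simp only [inner_add_right, inner_sub_right, inner_neg_right] at hcs hI hI3 hI5 hYe hd'
    linarith
  · obtain ⟨ζs, ζe, hζs, hζe, hI3⟩ := h.g3_dom ξ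
    obtain ⟨q, hq, hI5⟩ := h.g5_dom hch0' hch1' ξ
    have hB := Sd.nA hv hg hq hζs hζe hY hm0 hmm
    have hcs := dom1_cs (ξ := ξ) hB
    simp only [inner_add_right, inner_sub_right] at hcs hI hI3 hI5 hYe hd'
    linarith
  · obtain ⟨ζs, ζe, hζs, hζe, hI3⟩ := h.g3_dom ξ
    obtain ⟨q, hq, hI5⟩ := h.g5_own ξ
    obtain ⟨q', hq', hI5'⟩ := h'.g5_own (mir ξ)
    obtain ⟨m1, hm1', hme1⟩ := dom1_vert (sdOf z k).mc ξ
    obtain ⟨m2, hm2', hme2⟩ := dom1_vert ((sdOf z' k').mo - 1 / 10) (mir ξ)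
    rw [hmir2] at hme2
    have hm10 : 0 ≤ m1 := by rcases hm1' with rfl | rfl <;> linarith
    have hm11 : m1 ≤ (sdOf z k).mc := by rcases hm1' with rfl | rfl <;> linarith
    have hX1 := Sd.nX hv hg hX hq hζs hζe hm10 hm11
    have hV1 := Sd.nV hv' hg' j hq' hs' he' hκ0 (show κ ≤ (sdOf z' k').k from hκ1) hm2'
    have hcs := dom1_cs (ξ := ξ) hX1
    have hcs' := dom1_cs (ξ := mir ξ) hV1
    rw [norm_mir] at hcs'
    have hV0 : ⟪ξ, mir (sdOf z' k').V0⟫ = ⟪mir ξ, (sdOf z' k').V0⟫ := (inner_mir_left _ _).symm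
    simp only [inner_add_right, inner_sub_right] at hcs hcs' hI hI3 hd'
    linarith

end Pool.Agent.Lib.MP_ee7495_gt.Y
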