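import Mathlib
import Pool.Agent.Lib.MP_ee7495_gt.Y.Sym

set_option autoImplicit false
set_option linter.unusedSectionVars false

open scoped RealInnerProductSpace
open Real Set

namespace Pool.Agent.Lib.MP_ee7495_gt.Y

/-- A rational centre and a rational radius. -/
abbrev UB : Type := ℚ × ℚ

/-- Centre and radius in units of `10⁻⁹`. -/
def ub (n m : ℤ) : UB := (n / 10 ^ 9, m / 10 ^ 9)

/-- The real number lies in the ball. -/
def UN (x : ℝ) (a : UB) : Prop := |x - a.1| ≤ a.2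

def ubAdd (a b : UB) : UB := (a.1 + b.1, a.2 + b.2)
def ubSub (a b : UB) : UB := (a.1 - b.1, a.2 + b.2)
def ubNeg (a : UB) : UB := (-a.1, a.2)
def ubMul (a b : UB) : UB := (a.1 * b.1, |a.1| * b.2 + |b.1| * a.2 + a.2 * b.2)
abbrev ubLe (a b : UB) : Prop := |a.1 - b.1| + a.2 ≤ b.2
def ubDot (a b : UB × UB × UB) : UB :=
  ubAdd (ubAdd (ubMul a.1 b.1) (ubMul a.2.1 b.2.1)) (ubMul a.2.2 b.2.2)
abbrev ubSqrt (a b : UB) : Prop := 0 < b.1 ∧ a.2 ≤ a.1 ∧ |a.1 - b.1 * b.1| + a.2 ≤ b.2 * b.1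
def ubS (c : ℚ) : ℚ :=
  c - c ^ 3 / 6 + c ^ 5 / 120 - c ^ 7 / 5040 + c ^ 9 / 362880 - c ^ 11 / 39916800
def ubC (c : ℚ) : ℚ :=
  1 - c ^ 2 / 2 + c ^ 4 / 24 - c ^ 6 / 720 + c ^ 8 / 40320 - c ^ 10 / 3628800

theorem un_taylor {c : ℚ} (h : |c| ≤ 1) :
    |sin c - ubS c| ≤ 3 / 10 ^ 9 ∧ |cos c - ubC c| ≤ 3 / 10 ^ 9 := by
  have h0 : |(c : ℝ)| ≤ 1 := by exact_mod_cast h
  have h1 : ‖((c : ℝ) : ℂ) * Complex.I‖ ≤ 1 := by simpa using h0
  have h2 := Complex.exp_bound h1 (n := 12) (by norm_num)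
  have h3 : ∑ m ∈ Finset.range 12, (((c : ℝ) : ℂ) * Complex.I) ^ m / (m.factorial : ℂ) =
      ((ubC c : ℝ) : ℂ) + ((ubS c : ℝ) : ℂ) * Complex.I := by
    have e (k : ℕ) : Complex.I ^ (k + 2) = -Complex.I ^ k := by rw [pow_add, Complex.I_sq]; ring
    simp only [Finset.sum_range_succ, Finset.sum_range_zero, mul_pow, e, Nat.factorial, ubC, ubS]
    push_cast
    ring
  have h4 : ‖Complex.exp (((c : ℝ) : ℂ) * Complex.I) -
      (((ubC c : ℝ) : ℂ) + ((ubS c : ℝ) : ℂ) * Complex.I)‖ ≤ 3 / 10 ^ 9 := by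
    rw [← h3]
    refine h2.trans
      ((mul_le_of_le_one_left (by positivity) (pow_le_one₀ (norm_nonneg _) h1)).trans ?_)
    norm_num [Nat.factorial]
  constructor
  · refine le_trans (le_of_eq ?_) ((Complex.abs_im_le_norm _).trans h4)
    rw [Complex.sub_im, Complex.exp_ofReal_mul_I_im]
    simp
  · refine le_trans (le_of_eq ?_) ((Complex.abs_re_le_norm _).trans h4)
    rw [Complex.sub_re, Complex.exp_ofReal_mul_I_re]
    simp

section
variable {x y : ℝ} {a b : UB}

theorem UN.to (h : UN x a) (hb : ubLe a b) : UN x b := by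
  have h1 : |(a.1 : ℝ) - b.1| + a.2 ≤ b.2 := by exact_mod_cast hb
  exact (abs_sub_le x a.1 b.1).trans (by unfold UN at h; linarith)

theorem UN.add (h : UN x a) (k : UN y b) : UN (x + y) (ubAdd a b) := by
  simp only [UN, ubAdd, Rat.cast_add, abs_le] at *
  constructor <;> linarith [h.1, h.2, k.1, k.2]

theorem UN.sub (h : UN x a) (k : UN y b) : UN (x - y) (ubSub a b) := by
  simp only [UN, ubSub, Rat.cast_add, Rat.cast_sub, abs_le] at *
  constructor <;> linarith [h.1, h.2, k.1, k.2]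

theorem UN.neg (h : UN x a) : UN (-x) (ubNeg a) := by
  simp only [UN, ubNeg, Rat.cast_neg, abs_le] at *
  constructor <;> linarith [h.1, h.2]

theorem UN.mul (h : UN x a) (k : UN y b) : UN (x * y) (ubMul a b) := by
  simp only [UN, ubMul, Rat.cast_add, Rat.cast_mul, Rat.cast_abs] at *
  have e : x * y - a.1 * b.1 = a.1 * (y - b.1) + b.1 * (x - a.1) + (x - a.1) * (y - b.1) := by ring
  rw [e]
  refine (abs_add_three _ _ _).trans ?_
  rw [abs_mul, abs_mul, abs_mul]
  have := (abs_nonneg _).trans h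
  gcongr

theorem UN.div (h : UN x a) (k : UN y⁻¹ b) : UN (x / y) (ubMul a b) := by
  rw [div_eq_mul_inv]
  exact h.mul k

theorem UN.sq (h : UN x a) : UN (x ^ 2) (ubMul a a) := by
  rw [pow_two]
  exact h.mul h

theorem UN.tan (h : UN (sin x) a) (k : UN (cos x)⁻¹ b) : UN (tan x) (ubMul a b) := by
  rw [Real.tan_eq_sin_div_cos]
  exact h.div k

theorem UN.inv (h : UN x a) (hb : a.2 < a.1 ∧ |1 - b.1 * a.1| + |b.1| * a.2 ≤ b.2 * (a.1 - a.2)) :
    UN x⁻¹ b := by
  have h1 : (a.2 : ℝ) < a.1 := by exact_mod_cast hb.1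
  have h2 : |1 - (b.1 : ℝ) * a.1| + |(b.1 : ℝ)| * a.2 ≤ b.2 * (a.1 - a.2) := by exact_mod_cast hb.2
  have h3 : (a.1 : ℝ) - a.2 ≤ x := by linarith [(abs_le.1 h).1]
  have h4 : 0 < x := by linarith
  have h5 : |x⁻¹ - b.1| * x ≤ b.2 * (a.1 - a.2) := by
    have e : (x⁻¹ - b.1) * x = (1 - b.1 * a.1) - b.1 * (x - a.1) := by field_simp; ring
    rw [← abs_of_pos h4, abs_of_pos h4, ← abs_of_pos h4, ← abs_mul, abs_of_pos h4, e]
    refine ((abs_sub _ _).trans ?_).trans h2
    rw [abs_mul]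
    exact add_le_add le_rfl (mul_le_mul_of_nonneg_left h (abs_nonneg _))
  exact le_of_mul_le_mul_right ((mul_le_mul_of_nonneg_left h3 (abs_nonneg _)).trans h5)
    (by linarith)

theorem UN.sqrt (h : UN x a) (hb : ubSqrt a b) : UN √x b := by
  have h1 : (0 : ℝ) < b.1 := by exact_mod_cast hb.1
  have h2 : (a.2 : ℝ) ≤ a.1 := by exact_mod_cast hb.2.1
  have h3 : |(a.1 : ℝ) - b.1 * b.1| + a.2 ≤ b.2 * b.1 := by exact_mod_cast hb.2.2
  have h4 : 0 ≤ x := by linarith [(abs_le.1 h).1]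
  have h5 : |√x - b.1| * (√x + b.1) = |x - b.1 * b.1| := by
    rw [← abs_of_pos (by positivity : 0 < √x + b.1), ← abs_mul]
    congr 1
    linear_combination Real.mul_self_sqrt h4
  refine le_of_mul_le_mul_right ((mul_le_mul_of_nonneg_left
    (le_add_of_nonneg_left (Real.sqrt_nonneg x)) (abs_nonneg _)).trans ?_) h1
  rw [h5]
  exact (abs_sub_le x a.1 _).trans (by unfold UN at h; linarith)

theorem UN.sin (h : UN x a) (hb : |a.1| ≤ 1 ∧ |ubS a.1 - b.1| + 3 / 10 ^ 9 + a.2 ≤ b.2) :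
    UN (sin x) b := by
  have h1 := (Rat.cast_le (K := ℝ)).2 hb.2
  push_cast at h1
  have h2 := (Real.abs_sin_sub_sin_le x a.1).trans h
  have h3 := (un_taylor hb.1).1
  exact (abs_sub_le _ (Real.sin a.1) _).trans
    (by linarith [abs_sub_le (Real.sin a.1) (ubS a.1) b.1])

theorem UN.cos (h : UN x a) (hb : |a.1| ≤ 1 ∧ |ubC a.1 - b.1| + 3 / 10 ^ 9 + a.2 ≤ b.2) :
    UN (cos x) b := by
  have h1 := (Rat.cast_le (K := ℝ)).2 hb.2
  push_cast at h1
  have h2 := (Real.abs_cos_sub_cos_le x a.1).trans h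
  have h3 := (un_taylor hb.1).2
  exact (abs_sub_le _ (Real.cos a.1) _).trans
    (by linarith [abs_sub_le (Real.cos a.1) (ubC a.1) b.1])

theorem UN.nr {n m : ℤ} {r : ℝ} (h : UN x (ub n m)) (k : ℤ) (hr : r = k / 100000)
    (hk : |n - k * 10000| + m ≤ 100000) : Nr x r := by
  have h1 : |(n : ℝ) - k * 10000| + m ≤ 100000 := by exact_mod_cast hk
  have h2 := le_abs_self ((n : ℝ) - k * 10000)
  have h3 := neg_abs_le ((n : ℝ) - k * 10000)
  simp only [UN, ub, Nr, abs_le, hr] at h ⊢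
  push_cast at h
  constructor <;> linarith [h.1, h.2]

theorem un_box {n : ℤ} (h : |x - y| ≤ 1 / 1000000) (hy : y = n / 10 ^ 9) : UN x (ub n 1000) := by
  simp only [UN, ub]
  push_cast
  rw [← hy]
  linarith

theorem un_zero : UN 0 (0, 0) := by simp [UN]
theorem un_one : UN 1 (1, 0) := by simp [UN]
theorem un_two : UN 2 (2, 0) := by simp [UN]
theorem un_half : UN (1 / 2) (1 / 2, 0) := by simp [UN]
theorem un_inv2 : UN 2⁻¹ (1 / 2, 0) := by simp [UN]

end

/-- The coordinates of the vector lie in the balls. -/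
structure UV (v : E) (a : UB × UB × UB) : Prop where
  h0 : UN (v 0) a.1
  h1 : UN (v 1) a.2.1
  h2 : UN (v 2) a.2.2

section
variable {u v : E} {a b : UB × UB × UB} {x y w : ℝ} {p q r : UB}

theorem UV.vec (h0 : UN x p) (h1 : UN y q) (h2 : UN w r) : UV (vec x y w) (p, q, r) := ⟨h0, h1, h2⟩

theorem UV.to (h : UV v a) (hb : ubLe a.1 b.1 ∧ ubLe a.2.1 b.2.1 ∧ ubLe a.2.2 b.2.2) : UV v b :=
  ⟨h.h0.to hb.1, h.h1.to hb.2.1, h.h2.to hb.2.2⟩

theorem UV.add (h : UV u a) (k : UV v b) :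
    UV (u + v) (ubAdd a.1 b.1, ubAdd a.2.1 b.2.1, ubAdd a.2.2 b.2.2) :=
  ⟨h.h0.add k.h0, h.h1.add k.h1, h.h2.add k.h2⟩

theorem UV.sub (h : UV u a) (k : UV v b) :
    UV (u - v) (ubSub a.1 b.1, ubSub a.2.1 b.2.1, ubSub a.2.2 b.2.2) :=
  ⟨h.h0.sub k.h0, h.h1.sub k.h1, h.h2.sub k.h2⟩

theorem UV.neg (h : UV u a) : UV (-u) (ubNeg a.1, ubNeg a.2.1, ubNeg a.2.2) :=
  ⟨h.h0.neg, h.h1.neg, h.h2.neg⟩

theorem UN.smul (h : UN x p) (k : UV v b) :
    UV (x • v) (ubMul p b.1, ubMul p b.2.1, ubMul p b.2.2) :=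
  ⟨h.mul k.h0, h.mul k.h1, h.mul k.h2⟩

theorem UV.cross (h : UV u a) (k : UV v b) :
    UV (cross u v) (ubSub (ubMul a.2.1 b.2.2) (ubMul a.2.2 b.2.1),
      ubSub (ubMul a.2.2 b.1) (ubMul a.1 b.2.2), ubSub (ubMul a.1 b.2.1) (ubMul a.2.1 b.1)) :=
  ⟨(h.h1.mul k.h2).sub (h.h2.mul k.h1), (h.h2.mul k.h0).sub (h.h0.mul k.h2),
    (h.h0.mul k.h1).sub (h.h1.mul k.h0)⟩

theorem UV.inner (h : UV u a) (k : UV v b) : UN ⟪u, v⟫ (ubDot a b) := by
  rw [inner3]
  exact ((h.h0.mul k.h0).add (h.h1.mul k.h1)).add (h.h2.mul k.h2)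

theorem UV.norm (h : UV u a) (hb : ubSqrt (ubDot a a) p) : UN ‖u‖ p := by
  rw [norm3, ← inner3]
  exact (h.inner h).sqrt hb

theorem UV.nv {n0 m0 n1 m1 n2 m2 : ℤ} (h : UV v (ub n0 m0, ub n1 m1, ub n2 m2)) (k0 k1 k2 : ℤ)
    (hr : x = k0 / 100000 ∧ y = k1 / 100000 ∧ w = k2 / 100000)
    (hk : |n0 - k0 * 10000| + m0 ≤ 100000 ∧ |n1 - k1 * 10000| + m1 ≤ 100000 ∧
      |n2 - k2 * 10000| + m2 ≤ 100000) : Nv v x y w :=
  ⟨h.h0.nr k0 hr.1 hk.1, h.h1.nr k1 hr.2.1 hk.2.1, h.h2.nr k2 hr.2.2 hk.2.2⟩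

theorem un_I : UV zI (ubNeg (1, 0), (0, 0), (0, 0)) := UV.vec un_one.neg un_zero un_zero

end

section
variable {z : Fin 9 → ℝ} (h : ∀ i, |z i - z0 i| ≤ 1 / 1000000)
include h

theorem un_z0 : UN (z 0) (ub 1015191099 1000) :=
  un_box (h 0) (by change (1.015191099 : ℝ) = _; norm_num)

theorem un_z1 : UN (z 1) (ub 823130967 1000) :=
  un_box (h 1) (by change (0.823130967 : ℝ) = _; norm_num)

theorem un_z2 : UN (z 2) (ub (-193792718) 1000) :=
  un_box (h 2) (by change (-0.193792718 : ℝ) = _; norm_num)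

theorem un_z3 : UN (z 3) (ub (-205362636) 1000) :=
  un_box (h 3) (by change (-0.205362636 : ℝ) = _; norm_num)

theorem un_z4 : UN (z 4) (ub 512207581 1000) :=
  un_box (h 4) (by change (0.512207581 : ℝ) = _; norm_num)

theorem un_z5 : UN (z 5) (ub 261980389 1000) :=
  un_box (h 5) (by change (0.261980389 : ℝ) = _; norm_num)

theorem un_z6 : UN (z 6) (ub 260592902 1000) :=
  un_box (h 6) (by change (0.260592902 : ℝ) = _; norm_num)

theorem un_z7 : UN (z 7) (ub 722470891 1000) :=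
  un_box (h 7) (by change (0.722470891 : ℝ) = _; norm_num)

theorem un_z8 : UN (z 8) (ub 230773213 1000) :=
  un_box (h 8) (by change (0.230773213 : ℝ) = _; norm_num)

theorem un_s3 : UN (sin (z 3)) (ub (-203922189) 1004) :=
  (un_z3 h).sin (by decide +kernel)

theorem un_c3 : UN (cos (z 3)) (ub 978987099 1004) :=
  (un_z3 h).cos (by decide +kernel)

theorem un_s4 : UN (sin (z 4)) (ub 490102710 1004) :=
  (un_z4 h).sin (by decide +kernel)

theorem un_c4 : UN (cos (z 4)) (ub 871664691 1004) :=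
  (un_z4 h).cos (by decide +kernel)

theorem un_s6 : UN (sin (z 6)) (ub 257653481 1004) :=
  (un_z6 h).sin (by decide +kernel)

theorem un_c6 : UN (cos (z 6)) (ub 966237385 1004) :=
  (un_z6 h).cos (by decide +kernel)

theorem un_s7 : UN (sin (z 7)) (ub 661240287 1004) :=
  (un_z7 h).sin (by decide +kernel)

theorem un_c7 : UN (cos (z 7)) (ub 750174168 1004) :=
  (un_z7 h).cos (by decide +kernel)

theorem un_s8 : UN (sin (z 8)) (ub 228730307 1004) :=
  (un_z8 h).sin (by decide +kernel)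

theorem un_c8 : UN (cos (z 8)) (ub 973489829 1004) :=
  (un_z8 h).cos (by decide +kernel)

theorem un_ic3 : UN ((cos (z 3))⁻¹) (ub 1021463920 1048) :=
  (un_c3 h).inv (by decide +kernel)

theorem un_ic7 : UN ((cos (z 7))⁻¹) (ub 1333023773 1785) :=
  (un_c7 h).inv (by decide +kernel)

theorem un_is7 : UN ((sin (z 7))⁻¹) (ub 1512309549 2297) :=
  (un_s7 h).inv (by decide +kernel)

theorem un_i2s7 : UN ((2 * sin (z 7))⁻¹) (ub 756154774 1149) :=
  (un_two.mul (un_s7 h)).inv (by decide +kernel)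

theorem un_t3 : UN (tan (z 3)) (ub (-208299159) 1240) :=
  ((un_s3 h).tan (un_ic3 h)).to (by decide +kernel)

theorem un_A : UV (zA z) (ub 0 0, ub 1015191099 1000, ub 1000000000 0) :=
  (UV.vec un_zero (un_z0 h) un_one).to (by decide +kernel)

theorem un_F : UV (zF z) (ub 0 0, ub 1000000000 0, ub (-1015191099) 1000) :=
  (UV.vec un_zero un_one (un_z0 h).neg).to (by decide +kernel)

theorem un_B : UV (zB z) (ub 823130967 1000, ub (-193792718) 1000, ub (-1000000000) 0) :=
  (UV.vec (un_z1 h) (un_z2 h) un_one.neg).to (by decide +kernel)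

theorem un_C : UV (zC z) (ub (-823130967) 1000, ub (-193792718) 1000, ub (-1000000000) 0) :=
  (UV.vec (un_z1 h).neg (un_z2 h) un_one.neg).to (by decide +kernel)

theorem un_J : UV (zJ z) (ub 0 0, ub 966237385 1004, ub (-257653481) 1004) :=
  (UV.vec un_zero (un_c6 h) (un_s6 h).neg).to (by decide +kernel)

theorem un_K : UV (zK z) (ub 0 0, ub 257653481 1004, ub 966237385 1004) :=
  (UV.vec un_zero (un_s6 h) (un_c6 h)).to (by decide +kernel)

theorem un_nA : UN (‖zA z‖) (ub 1424995778 1425) :=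
  (un_A h).norm (by decide +kernel)

theorem un_iA : UN ((‖zA z‖)⁻¹) (ub 701756465 702) :=
  (un_nA h).inv (by decide +kernel)

theorem un_rho : UN (‖zC z‖) (ub 1309618344 1554) :=
  (un_C h).norm (by decide +kernel)

theorem un_irho : UN ((‖zC z‖)⁻¹) (ub 763581241 907) :=
  (un_rho h).inv (by decide +kernel)

theorem un_irho2 : UN ((‖zC z‖ ^ 2)⁻¹) (ub 583056311 1384) :=
  (un_rho h).sq.inv (by decide +kernel)

theorem un_P : UV (zP z) (ub (-479804230) 1476, ub 453565201 2908, ub (-751043613) 3379) :=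
  ((((un_s3 h).div (un_iA h)).smul (un_A h)).add ((un_c3 h).smul (((un_s4 h).smul un_I).add
    (((un_c4 h).div (un_iA h)).smul (un_F h))))).to (by decide +kernel)

theorem un_T : UV (zT z) (ub (-643710694) 1642, ub 339424229 2028, ub 685877347 2106) :=
  (((un_c7 h).smul (un_K h)).add ((un_s7 h).smul (((un_c8 h).smul un_I).add ((un_s8 h).smul
    (un_J h))))).to (by decide +kernel)

theorem un_E : UV (zE z) (ub (-643710694) 1642, ub 47145742 2028, ub 763815306 2106) :=
  (((un_c7 h).smul (un_K h)).add ((un_s7 h).smul (((un_c8 h).smul un_I).sub ((un_s8 h).smul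
    (un_J h))))).to (by decide +kernel)

theorem un_ka : UN (⟪zC z, zE z⟫) (ub (-243093601) 4542) :=
  ((un_C h).inner (un_E h)).to (by decide +kernel)

theorem un_nu : UN (‖zC z‖ ^ 2 - ⟪zC z, zE z⟫ ^ 2) (ub 1656005708 6279) :=
  ((un_rho h).sq.sub (un_ka h).sq).to (by decide +kernel)

theorem un_inu : UN ((‖zC z‖ ^ 2 - ⟪zC z, zE z⟫ ^ 2)⁻¹) (ub 603862653 2290) :=
  (un_nu h).inv (by decide +kernel)

theorem un_sg : UN (√(‖zC z‖ ^ 2 - ⟪zC z, zE z⟫ ^ 2 - 1)) (ub 809941793 7753) :=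
  ((un_nu h).sub un_one).sqrt (by decide +kernel)

theorem un_N : UV (zN z) (ub (-418207098) 10220, ub (-857550754) 7441, ub (-299515489) 8514) :=
  ((un_inu h).smul (((un_E h).cross (un_C h)).add ((un_sg h).smul ((un_C h).sub ((un_ka h).smul
    (un_E h)))))).to (by decide +kernel)

theorem un_U : UV (cross (zN z) (zE z)) (ub (-640889512) 8499, ub 512234306 14660, ub
    (-571731275) 7528) :=
  ((un_N h).cross (un_E h)).to (by decide +kernel)

theorem un_cm0 : UN (cos (-0)) (ub 1000000000 3) :=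
  un_zero.neg.cos (by decide +kernel)

theorem un_sm0 : UN (sin (-0)) (ub 0 3) :=
  un_zero.neg.sin (by decide +kernel)

theorem un_cq0 : UN (cos (0 / ‖zC z‖)) (ub 1000000000 3) :=
  (un_zero.div (un_irho h)).cos (by decide +kernel)

theorem un_sq0 : UN (sin (0 / ‖zC z‖)) (ub 0 3) :=
  (un_zero.div (un_irho h)).sin (by decide +kernel)

theorem un_W0 : UV (cos (0 / ‖zC z‖) • zE z - sin (0 / ‖zC z‖) • zN z) (ub (-643710694) 1646,
    ub 47145742 2031, ub 763815306 2110) :=
  (((un_cq0 h).smul (un_E h)).sub ((un_sq0 h).smul (un_N h))).to (by decide +kernel)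

theorem un_L0 : UV (cos (0 / ‖zC z‖) • zN z + sin (0 / ‖zC z‖) • zE z) (ub (-418207098) 10224,
    ub (-857550754) 7444, ub (-299515489) 8518) :=
  (((un_cq0 h).smul (un_N h)).add ((un_sq0 h).smul (un_E h))).to (by decide +kernel)

theorem un_V0 : UV (zV z 0) (ub (-643710694) 1649, ub 47145742 2035, ub 763815306 2114) :=
  ((((un_cm0 h).smul (un_W0 h)).add (((un_sm0 h).div (un_irho h)).smul ((un_C h).cross
    (un_W0 h)))).add ((((un_one.sub (un_cm0 h)).mul ((un_C h).inner (un_W0 h))).div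
    (un_irho2 h)).smul (un_C h))).to (by decide +kernel)

theorem un_M0 : UV (zM z 0) (ub (-418207098) 10229, ub (-857550754) 7448, ub (-299515489) 8522) :=
  ((((un_cm0 h).smul (un_L0 h)).add (((un_sm0 h).div (un_irho h)).smul ((un_C h).cross
    (un_L0 h)))).add ((((un_one.sub (un_cm0 h)).mul ((un_C h).inner (un_L0 h))).div
    (un_irho2 h)).smul (un_C h))).to (by decide +kernel)

theorem un_U0 : UV (zU z 0) (ub (-640889512) 8504, ub 512234306 14663, ub (-571731275) 7533) :=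
  ((((un_cm0 h).smul (un_U h)).add (((un_sm0 h).div (un_irho h)).smul ((un_C h).cross
    (un_U h)))).add ((((un_one.sub (un_cm0 h)).mul ((un_C h).inner (un_U h))).div
    (un_irho2 h)).smul (un_C h))).to (by decide +kernel)

theorem un_kap0 : UN (zKap z 0) (ub (-243093601) 4546) :=
  (((un_ka h).mul (un_cq0 h)).sub ((un_sg h).mul (un_sq0 h))).to (by decide +kernel)

theorem un_sig0 : UN (zSig z 0) (ub 809941793 7757) :=
  (((un_sg h).mul (un_cq0 h)).add ((un_ka h).mul (un_sq0 h))).to (by decide +kernel)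

theorem un_isig0 : UN ((zSig z 0)⁻¹) (ub 1234656624 11825) :=
  (un_sig0 h).inv (by decide +kernel)

theorem un_cmD : UN (cos (-z 5)) (ub 965878964 1004) :=
  (un_z5 h).neg.cos (by decide +kernel)

theorem un_smD : UN (sin (-z 5)) (ub (-258993875) 1004) :=
  (un_z5 h).neg.sin (by decide +kernel)

theorem un_cqD : UN (cos (z 5 / ‖zC z‖)) (ub 980057972 1005) :=
  ((un_z5 h).div (un_irho h)).cos (by decide +kernel)

theorem un_sqD : UN (sin (z 5 / ‖zC z‖)) (ub 198711778 1005) :=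
  ((un_z5 h).div (un_irho h)).sin (by decide +kernel)

theorem un_WD : UV (cos (z 5 / ‖zC z‖) • zE z - sin (z 5 / ‖zC z‖) • zN z) (ub (-547771121)
    4708, ub 216610995 4376, ub 808100535 4825) :=
  (((un_cqD h).smul (un_E h)).sub ((un_sqD h).smul (un_N h))).to (by decide +kernel)

theorem un_LD : UV (cos (z 5 / ‖zC z‖) • zN z + sin (z 5 / ‖zC z‖) • zE z) (ub (-537780097)
    11410, ub (-831081039) 8606, ub (-141763445) 9832) :=
  (((un_cqD h).smul (un_N h)).add ((un_sqD h).smul (un_E h))).to (by decide +kernel)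

theorem un_VD : UV (zV z (z 5)) (ub (-534410703) 6753, ub (-29116174) 7633, ub 844723297 7259) :=
  ((((un_cmD h).smul (un_WD h)).add (((un_smD h).div (un_irho h)).smul ((un_C h).cross
    (un_WD h)))).add ((((un_one.sub (un_cmD h)).mul ((un_C h).inner (un_WD h))).div
    (un_irho2 h)).smul (un_C h))).to (by decide +kernel)

theorem un_MD : UV (zM z (z 5)) (ub (-372714479) 15241, ub (-888873845) 13646, ub (-266434242)
    13244) :=
  ((((un_cmD h).smul (un_LD h)).add (((un_smD h).div (un_irho h)).smul ((un_C h).cross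
    (un_LD h)))).add ((((un_one.sub (un_cmD h)).mul ((un_C h).inner (un_LD h))).div
    (un_irho2 h)).smul (un_C h))).to (by decide +kernel)

theorem un_UD : UV (zU z (z 5)) (ub (-758609991) 13622, ub 457225914 18079, ub (-464171677)
    12334) :=
  ((((un_cmD h).smul (un_U h)).add (((un_smD h).div (un_irho h)).smul ((un_C h).cross
    (un_U h)))).add ((((un_one.sub (un_cmD h)).mul ((un_C h).inner (un_U h))).div
    (un_irho2 h)).smul (un_C h))).to (by decide +kernel)

theorem un_kapD : UN (zKap z (z 5)) (ub (-399190795) 7051) :=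
  (((un_ka h).mul (un_cqD h)).sub ((un_sg h).mul (un_sqD h))).to (by decide +kernel)

theorem un_sigD : UN (zSig z (z 5)) (ub 745484349 9560) :=
  (((un_sg h).mul (un_cqD h)).add ((un_ka h).mul (un_sqD h))).to (by decide +kernel)

theorem un_isigD : UN ((zSig z (z 5))⁻¹) (ub 1341409785 17203) :=
  (un_sigD h).inv (by decide +kernel)

theorem un_lam : UN (zLam z) (ub (-1168811058) 27987) :=
  ((un_A h).inner (un_MD h)).to (by decide +kernel)

theorem un_aV : UN (⟪zA z, zV z (z 5)⟫) (ub 815164816 15038) :=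
  ((un_A h).inner (un_VD h)).to (by decide +kernel)

theorem un_mu0 : UN (zMu z 0) (ub 350803590 18321) :=
  (((un_lam h).mul (un_kap0 h)).div (un_isig0 h)).to (by decide +kernel)

theorem un_Y0 : UV (zY z 0) (ub (-262989058) 36033, ub (-3662601) 35284, ub 381973833 33079) :=
  (((un_A h).sub ((un_lam h).smul (un_M0 h))).sub ((un_mu0 h).smul (un_V0 h))).to
    (by decide +kernel)

theorem un_muD : UN (zMu z (z 5)) (ub 625873120 34069) :=
  (((un_lam h).mul (un_kapD h)).div (un_isigD h)).to (by decide +kernel)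

theorem un_YD : UV (zY z (z 5)) (ub (-101159510) 50680, ub (-5511450) 47597, ub 159899106 56260) :=
  (((un_A h).sub ((un_lam h).smul (un_MD h))).sub ((un_muD h).smul (un_VD h))).to
    (by decide +kernel)

theorem un_Be : UV (zBe z) (ub (-823130967) 1000, ub (-313802832) 1501, ub 500000000 0) :=
  ((un_B h).neg.sub (un_half.smul (un_A h))).to (by decide +kernel)

theorem un_Ze : UV (zZe z) (ub (-488805081) 23651, ub (-494719255) 33199, ub 149922984 18335) :=
  ((un_half.smul (un_A h)).sub ((un_lam h).smul (un_N h))).to (by decide +kernel)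

theorem un_xm : UN (zXm z) (ub 164041988 38975) :=
  (((((un_Be h).sub (un_Ze h)).inner (un_K h)).sub (((un_c7 h).mul (un_z8 h)).div
    (un_is7 h))).div (un_ic7 h)).to (by decide +kernel)

theorem un_xp : UN (zXp z) (ub 559418562 38236) :=
  ((((un_Be h).add (un_Ze h)).inner (un_K h)).div (un_ic7 h)).to (by decide +kernel)

theorem un_x : UN (zx z) (ub 361730275 38606) :=
  (((un_xp h).add (un_xm h)).div un_inv2).to (by decide +kernel)

theorem un_mu : UN (zmu z) (ub 197688287 38606) :=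
  (((un_xp h).sub (un_xm h)).div un_inv2).to (by decide +kernel)

theorem un_o : UN (zo z) (ub (-475916169) 25092) :=
  (((((un_Be h).add (un_Ze h)).inner un_I).sub (((un_xp h).mul (un_s7 h)).mul
    (un_c8 h))).neg.div un_inv2).to (by decide +kernel)

theorem un_O : UV (zO z) (ub (-475916169) 25092, ub 507595550 501, ub 500000000 0) :=
  ((un_half.smul (un_A h)).sub ((un_o h).smul un_I)).to (by decide +kernel)

theorem un_s0 : UN (sin (0)) (ub 0 3) :=
  un_zero.sin (by decide +kernel)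

theorem un_c0 : UN (cos (0)) (ub 1000000000 3) :=
  un_zero.cos (by decide +kernel)

theorem un_s8m : UN (sin (-z 8)) (ub (-228730307) 1004) :=
  (un_z8 h).neg.sin (by decide +kernel)

theorem un_c8m : UN (cos (-z 8)) (ub 973489829 1004) :=
  (un_z8 h).neg.cos (by decide +kernel)

theorem un_X1 : UV (zX z (-z 8)) (ub (-361551016) 25595, ub 3556135 1849, ub 498925644 1660) :=
  (((un_O h).sub (un_half.smul (((un_s8m h).neg.smul un_I).add ((un_c8m h).smul (un_J h))))).add
    ((((un_z8 h).neg.mul (un_c7 h)).div (un_i2s7 h)).smul (un_K h))).to (by decide +kernel)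

theorem un_X0 : UV (zX z 0) (ub (-475916169) 25094, ub 24476858 1005, ub 628826740 503) :=
  (((un_O h).sub (un_half.smul (((un_s0 h).neg.smul un_I).add ((un_c0 h).smul (un_J h))))).add
    (((un_zero.mul (un_c7 h)).div (un_i2s7 h)).smul (un_K h))).to (by decide +kernel)

theorem un_X2 : UV (zX z (z 8)) (ub (-590281322) 25595, ub 71012698 1849, ub 751897399 1660) :=
  (((un_O h).sub (un_half.smul (((un_s8 h).neg.smul un_I).add ((un_c8 h).smul (un_J h))))).add
    ((((un_z8 h).mul (un_c7 h)).div (un_i2s7 h)).smul (un_K h))).to (by decide +kernel)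

theorem un_s4h : UN (sin (z 4 / 2)) (ub 253313352 504) :=
  ((un_z4 h).div un_inv2).sin (by decide +kernel)

theorem un_c4h : UN (cos (z 4 / 2)) (ub 967384280 504) :=
  ((un_z4 h).div un_inv2).cos (by decide +kernel)

theorem un_Hr : UV (zH z (z 4)) (ub (-871664691) 1004, ub 239672281 3317, ub 924029549 3076) :=
  ((((un_c4 h).smul un_I).sub (((un_s4 h).div (un_iA h)).smul (un_F h))).add (((((un_nA h).div
    un_inv2).sub ((un_t3 h).mul (un_z4 h))).div (un_iA h)).smul (un_A h))).to (by decide +kernel)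

theorem un_Hh : UV (zH z (z 4 / 2)) (ub (-967384280) 504, ub 367836005 2424, ub 717900761 2052) :=
  ((((un_c4h h).smul un_I).sub (((un_s4h h).div (un_iA h)).smul (un_F h))).add (((((un_nA h).div
    un_inv2).sub ((un_t3 h).mul ((un_z4 h).div un_inv2))).div (un_iA h)).smul (un_A h))).to
    (by decide +kernel)

theorem un_H0 : UV (zH z 0) (ub (-1000000000) 3, ub 507595549 1518, ub 500000000 1003) :=
  ((((un_c0 h).smul un_I).sub (((un_s0 h).div (un_iA h)).smul (un_F h))).add (((((un_nA h).div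
    un_inv2).sub ((un_t3 h).mul un_zero)).div (un_iA h)).smul (un_A h))).to (by decide +kernel)

theorem un_xP : UN (zxP z) (ub 101153181 7232) :=
  (((((un_nA h).div un_inv2).sub ((un_z4 h).mul (un_t3 h))).mul (un_s3 h)).add ((un_B h).inner
    (un_P h))).to (by decide +kernel)

theorem un_num : Num z where
  box := h
  nA := (un_nA h).nr 142500 (by norm_num) (by decide)
  rho := (un_rho h).nr 130962 (by norm_num) (by decide)
  ka := (un_ka h).nr (-24309) (by norm_num) (by decide)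
  nu := (un_nu h).nr 165601 (by norm_num) (by decide)
  sig0 := (un_sig0 h).nr 80994 (by norm_num) (by decide)
  sigD := (un_sigD h).nr 74548 (by norm_num) (by decide)
  kapD := (un_kapD h).nr (-39919) (by norm_num) (by decide)
  lam := (un_lam h).nr (-116881) (by norm_num) (by decide)
  mu0 := (un_mu0 h).nr 35080 (by norm_num) (by decide)
  muD := (un_muD h).nr 62587 (by norm_num) (by decide)
  aV := (un_aV h).nr 81516 (by norm_num) (by decide)
  x := (un_x h).nr 36173 (by norm_num) (by decide)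
  mu := (un_mu h).nr 19769 (by norm_num) (by decide)
  o := (un_o h).nr (-47592) (by norm_num) (by decide)
  xP := (un_xP h).nr 10115 (by norm_num) (by decide)
  se := (un_s3 h).nr (-20392) (by norm_num) (by decide)
  ce := (un_c3 h).nr 97899 (by norm_num) (by decide)
  te := (un_t3 h).nr (-20830) (by norm_num) (by decide)
  sr := (un_s4 h).nr 49010 (by norm_num) (by decide)
  cr := (un_c4 h).nr 87166 (by norm_num) (by decide)
  so := (un_s6 h).nr 25765 (by norm_num) (by decide)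
  co := (un_c6 h).nr 96624 (by norm_num) (by decide)
  sh := (un_s7 h).nr 66124 (by norm_num) (by decide)
  ch := (un_c7 h).nr 75017 (by norm_num) (by decide)
  sx := (un_s8 h).nr 22873 (by norm_num) (by decide)
  cx := (un_c8 h).nr 97349 (by norm_num) (by decide)
  vP := (un_P h).nv (-47980) 45357 (-75104) (by norm_num) (by decide)
  vT := (un_T h).nv (-64371) 33942 68588 (by norm_num) (by decide)
  vE := (un_E h).nv (-64371) 4715 76382 (by norm_num) (by decide)
  vN := (un_N h).nv (-41821) (-85755) (-29952) (by norm_num) (by decide)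
  vVD := (un_VD h).nv (-53441) (-2912) 84472 (by norm_num) (by decide)
  vMD := (un_MD h).nv (-37271) (-88887) (-26643) (by norm_num) (by decide)
  vU0 := (un_U0 h).nv (-64089) 51223 (-57173) (by norm_num) (by decide)
  vUD := (un_UD h).nv (-75861) 45723 (-46417) (by norm_num) (by decide)
  vYD := (un_YD h).nv (-10116) (-551) 15990 (by norm_num) (by decide)
  vY0 := (un_Y0 h).nv (-26299) (-366) 38197 (by norm_num) (by decide)
  vX1 := (un_X1 h).nv (-36155) 356 49893 (by norm_num) (by decide)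
  vX0 := (un_X0 h).nv (-47592) 2448 62883 (by norm_num) (by decide)
  vX2 := (un_X2 h).nv (-59028) 7101 75190 (by norm_num) (by decide)
  vHr := (un_Hr h).nv (-87167) 23967 92403 (by norm_num) (by decide)
  vHh := (un_Hh h).nv (-96738) 36784 71790 (by norm_num) (by decide)
  vH0 := (un_H0 h).nv (-100000) 50760 50000 (by norm_num) (by decide)

end

theorem num_of_box {z : Fin 9 → ℝ} (h : dist z z0 ≤ 1 / 10 ^ 6) : Num z :=
  un_num fun i => by
    have := (dist_le_pi_dist z z0 i).trans h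
    rw [Real.dist_eq] at this
    linarith

end Pool.Agent.Lib.MP_ee7495_gt.Y
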