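import Mathlib
import Pool.Agent.Lib.MP_ee7495_gt.Y.Sym
import Pool.Agent.Lib.MP_ee7495_gt.Y.TrA
import Pool.Agent.Lib.MP_ee7495_gt.Y.UCurve

-- part Pool.Agent.Lib.MP_ee7495_gt.Y.UPart
section

set_option autoImplicit false

open scoped RealInnerProductSpace
open Real Set

namespace Pool.Agent.Lib.MP_ee7495_gt.Y

theorem UPart_norm_one {u : E} (h : u 0 * u 0 + u 1 * u 1 + u 2 * u 2 = 1) : ‖u‖ = 1 := by
  rw [norm3, h, Real.sqrt_one]

theorem UPart_norm_frame (om et ch : ℝ) :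
    ‖cos et • vec 0 (sin om) (cos om) +
      sin et • (cos ch • vec (-1) 0 0 - sin ch • vec 0 (cos om) (-sin om))‖ = 1 := by
  apply UPart_norm_one
  simp only [PiLp.add_apply, PiLp.sub_apply, PiLp.smul_apply, smul_eq_mul, vec_0, vec_1, vec_2]
  have h1 := sin_sq_add_cos_sq om
  have h2 := sin_sq_add_cos_sq et
  have h3 := sin_sq_add_cos_sq ch
  linear_combination (cos et ^ 2 + sin et ^ 2 * sin ch ^ 2) * h1 + sin et ^ 2 * h3 + h2

theorem norm_zE (z : Fin 9 → ℝ) : ‖zE z‖ = 1 := UPart_norm_frame (z 6) (z 7) (z 8)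

theorem Num.cone {z : Fin 9 → ℝ} (h : Num z) : ConeOK (zC z) (zE z) := by
  refine ⟨norm_zE z, ?_⟩
  have h1 := h.nu
  unfold Nr at h1
  have h2 := (abs_le.mp h1).1
  linarith

theorem UPart_crit {z : Fin 9 → ℝ} (hc : HasFDerivAt ell (0 : (Fin 9 → ℝ) →L[ℝ] ℝ) z) (m : Fin 9)
    {g : ℝ → ℝ} {g' : ℝ} (hg : ∀ t, ell (Function.update z m t) = g t)
    (hd : HasDerivAt g g' (z m)) : g' = 0 := by
  have h1 : HasFDerivAt ell (0 : (Fin 9 → ℝ) →L[ℝ] ℝ) (Function.update z m (z m)) := by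
    rwa [Function.update_eq_self]
  have h2 := h1.comp_hasDerivAt (z m) (hasDerivAt_update z m (z m))
  have h3 : ell ∘ Function.update z m = g := funext hg
  rw [h3] at h2
  have h4 := hd.unique h2
  simpa using h4

theorem UPart_inner (b : E) {g : ℝ → E} {g' : E} {t : ℝ} (h : HasDerivAt g g' t) :
    HasDerivAt (fun s => ⟪b, g s⟫) ⟪b, g'⟫ t := by
  have h1 := HasDerivAt.inner ℝ (hasDerivAt_const t b) h
  simpa using h1

theorem UPart_rot_adj (c a w : E) (t : ℝ) : ⟪a, rot c (-t) w⟫ = ⟪rot c t a, w⟫ := by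
  simp only [rot, inner3, PiLp.add_apply, PiLp.smul_apply, smul_eq_mul, cross_0, cross_1, cross_2,
    cos_neg, sin_neg]
  ring

theorem UPart_diff_vec {f g h : ℝ → ℝ} {t : ℝ} (hf : DifferentiableAt ℝ f t)
    (hg : DifferentiableAt ℝ g t) (hh : DifferentiableAt ℝ h t) :
    DifferentiableAt ℝ (fun s => vec (f s) (g s) (h s)) t := by
  have e1 : (fun s => vec (f s) (g s) (h s)) =
      fun s => f s • vec 1 0 0 + g s • vec 0 1 0 + h s • vec 0 0 1 := by
    funext s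
    apply ext3 <;> simp
  rw [e1]
  exact ((hf.smul_const _).fun_add (hg.smul_const _)).fun_add (hh.smul_const _)

theorem UPart_diff_coord {F : ℝ → E} {t : ℝ} (hF : DifferentiableAt ℝ F t) (m : Fin 3) :
    DifferentiableAt ℝ (fun s => F s m) t :=
  (EuclideanSpace.proj m : E →L[ℝ] ℝ).differentiableAt.comp t hF

theorem UPart_diff_N {c : E} {F : ℝ → E} {t : ℝ} (hF : DifferentiableAt ℝ F t)
    (hk : ConeOK c (F t)) : DifferentiableAt ℝ (fun s => coneN c (F s)) t := by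
  have hi : DifferentiableAt ℝ (fun s => ⟪c, F s⟫) t :=
    (UPart_inner c hF.hasDerivAt).differentiableAt
  have hnu : DifferentiableAt ℝ (fun s => ‖c‖ ^ 2 - ⟪c, F s⟫ ^ 2) t :=
    (hi.fun_pow 2).const_sub _
  have hpos := hk.nu
  have hinv : DifferentiableAt ℝ (fun s => (‖c‖ ^ 2 - ⟪c, F s⟫ ^ 2)⁻¹) t :=
    hnu.fun_inv (by linarith : (0 : ℝ) < ‖c‖ ^ 2 - ⟪c, F t⟫ ^ 2).ne'
  have hsq : DifferentiableAt ℝ (fun s => √(‖c‖ ^ 2 - ⟪c, F s⟫ ^ 2 - 1)) t :=
    (hnu.sub_const 1).sqrt (by linarith : (0 : ℝ) < ‖c‖ ^ 2 - ⟪c, F t⟫ ^ 2 - 1).ne'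
  have h0 := UPart_diff_coord hF 0
  have h1 := UPart_diff_coord hF 1
  have h2 := UPart_diff_coord hF 2
  have hx : DifferentiableAt ℝ (fun s => cross (F s) c) t :=
    UPart_diff_vec ((h1.mul_const _).fun_sub (h2.mul_const _))
      ((h2.mul_const _).fun_sub (h0.mul_const _)) ((h0.mul_const _).fun_sub (h1.mul_const _))
  exact hinv.fun_smul (hx.fun_add (hsq.fun_smul ((hi.fun_smul hF).const_sub c)))

/-- Derivative of `⟪a, coneV c (F s) D⟫` along a curve of unit vectors. -/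
theorem UPart_key {a c : E} {F : ℝ → E} {F' : E} {t D : ℝ} (hF : HasDerivAt F F' t)
    (hu : ∀ s, ‖F s‖ = 1) (hk : ConeOK c (F t)) (hU : ⟪a, coneU c (F t) D⟫ = 0) :
    HasDerivAt (fun s => ⟪a, coneV c (F s) D⟫)
      (⟪a, coneM c (F t) D⟫ * ⟪coneN c (F t), F'⟫) t := by
  obtain ⟨N', hN⟩ : ∃ N', HasDerivAt (fun s => coneN c (F s)) N' t :=
    ⟨_, (UPart_diff_N hF.differentiableAt hk).hasDerivAt⟩
  have hev : ∀ᶠ s in nhds t, ConeOK c (F s) := by
    have hcont : ContinuousAt (fun s => ‖c‖ ^ 2 - ⟪c, F s⟫ ^ 2) t :=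
      continuousAt_const.sub ((UPart_inner c hF).continuousAt.pow 2)
    filter_upwards [continuousAt_const.eventually_lt hcont hk.nu] with s hs
    exact ⟨hu s, hs⟩
  have hFF : ⟪F t, F'⟫ = 0 := by
    have h1 := HasDerivAt.inner ℝ hF hF
    have h2 : (fun s => ⟪F s, F s⟫) = fun _ => (1 : ℝ) := by
      funext s
      rw [real_inner_self_eq_norm_sq, hu s]
      norm_num
    rw [h2] at h1
    have h3 := h1.unique (hasDerivAt_const t (1 : ℝ))
    rw [real_inner_comm (F t) F'] at h3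
    linarith
  have hNN : ⟪coneN c (F t), N'⟫ = 0 := by
    have h1 := HasDerivAt.inner ℝ hN hN
    have h2 : (fun _ => (1 : ℝ)) =ᶠ[nhds t] fun s => ⟪coneN c (F s), coneN c (F s)⟫ := by
      filter_upwards [hev] with s hs
      have h4 := hs.norm_M 0
      rw [coneM_zero] at h4
      rw [real_inner_self_eq_norm_sq, h4]
      norm_num
    have h3 := (h1.congr_of_eventuallyEq h2).unique (hasDerivAt_const t (1 : ℝ))
    rw [real_inner_comm (coneN c (F t)) N'] at h3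
    linarith
  have hFN : ⟪F t, N'⟫ = -⟪coneN c (F t), F'⟫ := by
    have h1 := HasDerivAt.inner ℝ hF hN
    have h2 : (fun _ => (0 : ℝ)) =ᶠ[nhds t] fun s => ⟪F s, coneN c (F s)⟫ := by
      filter_upwards [hev] with s hs
      have h4 := hs.inner_VM 0
      rw [coneM_zero, coneV_zero] at h4
      exact h4.symm
    have h3 := (h1.congr_of_eventuallyEq h2).unique (hasDerivAt_const t (0 : ℝ))
    rw [real_inner_comm (coneN c (F t)) F'] at h3
    linarith
  have hexp := hk.expand 0 (rot c D a)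
  have hU0 : ⟪rot c D a, coneU c (F t) 0⟫ = 0 := by
    rw [coneU_zero, ← UPart_rot_adj]
    exact hU
  rw [hU0, zero_smul, add_zero, coneV_zero, coneM_zero] at hexp
  obtain ⟨al, hal⟩ : ∃ al, al = ⟪rot c D a, F t⟫ := ⟨_, rfl⟩
  obtain ⟨be, hbe⟩ : ∃ be, be = ⟪rot c D a, coneN c (F t)⟫ := ⟨_, rfl⟩
  rw [← hal, ← hbe] at hexp
  have e1 : (fun s => ⟪a, coneV c (F s) D⟫) =
      fun s => ⟪rot c D a, cos (D / ‖c‖) • F s - sin (D / ‖c‖) • coneN c (F s)⟫ := by
    funext s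
    exact UPart_rot_adj c a _ D
  have e2 : ⟪a, coneM c (F t) D⟫ = cos (D / ‖c‖) * be + sin (D / ‖c‖) * al := by
    unfold coneM
    rw [UPart_rot_adj, inner_add_right, real_inner_smul_right, real_inner_smul_right, ← hal, ← hbe]
  rw [e1, e2]
  refine (UPart_inner (rot c D a) ((hF.fun_const_smul (cos (D / ‖c‖))).fun_sub
    (hN.fun_const_smul (sin (D / ‖c‖))))).congr_deriv ?_
  rw [hexp]
  simp only [inner_sub_right, inner_add_left, real_inner_smul_left, real_inner_smul_right, hFF, hNN,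
    hFN]
  ring

theorem UPart_abs_pos {x c : ℝ} (h : Nr x c) (hc : 1 / 1000 < c) : 0 < x := by
  unfold Nr at h
  have h2 := (abs_le.mp h).1
  linarith

theorem UPart_dr {z : Fin 9 → ℝ} (hn : Num z)
    (hc : HasFDerivAt ell (0 : (Fin 9 → ℝ) →L[ℝ] ℝ) z) :
    ⟪zB z, cos (z 4) • zI - (sin (z 4) / ‖zA z‖) • zF z⟫ = -1 := by
  have hg : ∀ t, ell (Function.update z 4 t) = 2 * t * cos (z 3) + ‖zA z‖ * sin (z 3) +
      2 * z 8 * sin (z 7) + 2 * ⟪zB z, ((sin (z 3) / ‖zA z‖) • zA z +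
        cos (z 3) • (sin t • zI + (cos t / ‖zA z‖) • zF z)) - zT z⟫ +
      2 * ⟪zA z, coneV (zC z) (zE z) (z 5)⟫ - 2 * cos (z 7) * ⟪zA z, zK z⟫ := fun t => rfl
  have hP : HasDerivAt (fun t : ℝ => ((sin (z 3) / ‖zA z‖) • zA z +
        cos (z 3) • (sin t • zI + (cos t / ‖zA z‖) • zF z)) - zT z)
      (cos (z 3) • (cos (z 4) • zI + (-sin (z 4) / ‖zA z‖) • zF z)) (z 4) :=
    (((((hasDerivAt_sin (z 4)).smul_const zI).fun_add
      (((hasDerivAt_cos (z 4)).div_const ‖zA z‖).smul_const (zF z))).fun_const_smul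
        (cos (z 3))).const_add _).sub_const _
  have hd := (((((((hasDerivAt_id' (z 4)).const_mul 2).mul_const (cos (z 3))).add_const
    (‖zA z‖ * sin (z 3))).add_const (2 * z 8 * sin (z 7))).fun_add
      ((UPart_inner (zB z) hP).const_mul 2)).add_const
        (2 * ⟪zA z, coneV (zC z) (zE z) (z 5)⟫)).sub_const (2 * cos (z 7) * ⟪zA z, zK z⟫)
  have h0 := UPart_crit hc 4 hg hd
  have hce : 0 < cos (z 3) := UPart_abs_pos hn.ce (by norm_num)
  rw [real_inner_smul_right, neg_div, neg_smul, ← sub_eq_add_neg] at h0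
  have h1 : cos (z 3) * (⟪zB z, cos (z 4) • zI - (sin (z 4) / ‖zA z‖) • zF z⟫ + 1) = 0 := by
    linarith
  have h2 := (mul_eq_zero.mp h1).resolve_left hce.ne'
  linarith

theorem UPart_de {z : Fin 9 → ℝ} (hc : HasFDerivAt ell (0 : (Fin 9 → ℝ) →L[ℝ] ℝ) z) :
    -2 * z 4 * sin (z 3) + ‖zA z‖ * cos (z 3) + 2 * ⟪zB z, (cos (z 3) / ‖zA z‖) • zA z -
      sin (z 3) • (sin (z 4) • zI + (cos (z 4) / ‖zA z‖) • zF z)⟫ = 0 := by
  have hg : ∀ t, ell (Function.update z 3 t) = 2 * z 4 * cos t + ‖zA z‖ * sin t +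
      2 * z 8 * sin (z 7) + 2 * ⟪zB z, ((sin t / ‖zA z‖) • zA z +
        cos t • (sin (z 4) • zI + (cos (z 4) / ‖zA z‖) • zF z)) - zT z⟫ +
      2 * ⟪zA z, coneV (zC z) (zE z) (z 5)⟫ - 2 * cos (z 7) * ⟪zA z, zK z⟫ := fun t => rfl
  have hP : HasDerivAt (fun t : ℝ => ((sin t / ‖zA z‖) • zA z +
        cos t • (sin (z 4) • zI + (cos (z 4) / ‖zA z‖) • zF z)) - zT z)
      ((cos (z 3) / ‖zA z‖) • zA z +
        (-sin (z 3)) • (sin (z 4) • zI + (cos (z 4) / ‖zA z‖) • zF z)) (z 3) :=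
    ((((hasDerivAt_sin (z 3)).div_const ‖zA z‖).smul_const (zA z)).fun_add
      ((hasDerivAt_cos (z 3)).smul_const _)).sub_const _
  have hd := (((((((hasDerivAt_cos (z 3)).const_mul (2 * z 4))).fun_add
    ((hasDerivAt_sin (z 3)).const_mul ‖zA z‖)).add_const (2 * z 8 * sin (z 7))).fun_add
      ((UPart_inner (zB z) hP).const_mul 2)).add_const
        (2 * ⟪zA z, coneV (zC z) (zE z) (z 5)⟫)).sub_const (2 * cos (z 7) * ⟪zA z, zK z⟫)
  have h0 := UPart_crit hc 3 hg hd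
  rw [neg_smul, ← sub_eq_add_neg] at h0
  linarith

theorem UPart_dD {z : Fin 9 → ℝ} (hn : Num z)
    (hc : HasFDerivAt ell (0 : (Fin 9 → ℝ) →L[ℝ] ℝ) z) : ⟪zA z, zU z (z 5)⟫ = 0 := by
  have hg : ∀ t, ell (Function.update z 5 t) = 2 * z 4 * cos (z 3) + ‖zA z‖ * sin (z 3) +
      2 * z 8 * sin (z 7) + 2 * ⟪zB z, zP z - zT z⟫ +
      2 * ⟪zA z, coneV (zC z) (zE z) t⟫ - 2 * cos (z 7) * ⟪zA z, zK z⟫ := fun t => rfl
  have hd := (((UPart_inner (zA z) (hn.cone.deriv_V (z 5))).const_mul 2).const_add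
    (2 * z 4 * cos (z 3) + ‖zA z‖ * sin (z 3) + 2 * z 8 * sin (z 7) +
      2 * ⟪zB z, zP z - zT z⟫)).sub_const (2 * cos (z 7) * ⟪zA z, zK z⟫)
  have h0 := UPart_crit hc 5 hg hd
  rw [real_inner_smul_right] at h0
  have hs : 0 < sigT (zC z) (zE z) (z 5) := UPart_abs_pos hn.sigD (by norm_num)
  have hr : 0 < ‖zC z‖ := UPart_abs_pos hn.rho (by norm_num)
  have hq : 0 < sigT (zC z) (zE z) (z 5) / ‖zC z‖ := div_pos hs hr
  have h1 : sigT (zC z) (zE z) (z 5) / ‖zC z‖ * ⟪zA z, coneU (zC z) (zE z) (z 5)⟫ = 0 := by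
    linarith
  exact (mul_eq_zero.mp h1).resolve_left hq.ne'

theorem UPart_aI (z : Fin 9 → ℝ) : ⟪zA z, zI⟫ = 0 := by
  simp [inner3, zA, zI]

theorem UPart_dch {z : Fin 9 → ℝ} (hn : Num z)
    (hc : HasFDerivAt ell (0 : (Fin 9 → ℝ) →L[ℝ] ℝ) z) :
    ⟪zBe z, sin (z 7) • ((-sin (z 8)) • zI + cos (z 8) • zJ z)⟫ -
      ⟪zZe z, sin (z 7) • ((-sin (z 8)) • zI - cos (z 8) • zJ z)⟫ + sin (z 7) = 0 := by
  have hg : ∀ t, ell (Function.update z 8 t) = 2 * z 4 * cos (z 3) + ‖zA z‖ * sin (z 3) +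
      2 * t * sin (z 7) + 2 * ⟪zB z, zP z -
        (cos (z 7) • zK z + sin (z 7) • (cos t • zI + sin t • zJ z))⟫ +
      2 * ⟪zA z, coneV (zC z) (cos (z 7) • zK z + sin (z 7) • (cos t • zI - sin t • zJ z)) (z 5)⟫ -
      2 * cos (z 7) * ⟪zA z, zK z⟫ := fun t => rfl
  have hT : HasDerivAt (fun t : ℝ => cos (z 7) • zK z + sin (z 7) • (cos t • zI + sin t • zJ z))
      (sin (z 7) • ((-sin (z 8)) • zI + cos (z 8) • zJ z)) (z 8) :=
    ((((hasDerivAt_cos (z 8)).smul_const zI).fun_add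
      ((hasDerivAt_sin (z 8)).smul_const (zJ z))).fun_const_smul (sin (z 7))).const_add _
  have hE : HasDerivAt (fun t : ℝ => cos (z 7) • zK z + sin (z 7) • (cos t • zI - sin t • zJ z))
      (sin (z 7) • ((-sin (z 8)) • zI - cos (z 8) • zJ z)) (z 8) :=
    ((((hasDerivAt_cos (z 8)).smul_const zI).fun_sub
      ((hasDerivAt_sin (z 8)).smul_const (zJ z))).fun_const_smul (sin (z 7))).const_add _
  have hK := UPart_key (a := zA z) (c := zC z) (D := z 5) hE
    (fun s => UPart_norm_frame (z 6) (z 7) s) hn.cone (UPart_dD hn hc)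
  have hd := ((((((hasDerivAt_id' (z 8)).const_mul 2).mul_const (sin (z 7))).const_add
    (2 * z 4 * cos (z 3) + ‖zA z‖ * sin (z 3))).fun_add
      ((UPart_inner (zB z) (hT.const_sub (zP z))).const_mul 2)).fun_add
        (hK.const_mul 2)).sub_const (2 * cos (z 7) * ⟪zA z, zK z⟫)
  have h0 : 2 * 1 * sin (z 7) +
      2 * ⟪zB z, -(sin (z 7) • ((-sin (z 8)) • zI + cos (z 8) • zJ z))⟫ +
      2 * (zLam z * ⟪zN z, sin (z 7) • ((-sin (z 8)) • zI - cos (z 8) • zJ z)⟫) = 0 :=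
    UPart_crit hc 8 hg hd
  have hI := UPart_aI z
  unfold zBe zZe
  simp only [inner_sub_left, inner_neg_left, inner_neg_right, real_inner_smul_left,
    real_inner_smul_right, inner_add_right, inner_sub_right, hI] at h0 ⊢
  linarith

theorem UPart_det {z : Fin 9 → ℝ} (hn : Num z)
    (hc : HasFDerivAt ell (0 : (Fin 9 → ℝ) →L[ℝ] ℝ) z) :
    ⟪zBe z, (-sin (z 7)) • zK z + cos (z 7) • (cos (z 8) • zI + sin (z 8) • zJ z)⟫ -
      ⟪zZe z, (-sin (z 7)) • zK z + cos (z 7) • (cos (z 8) • zI - sin (z 8) • zJ z)⟫ +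
      z 8 * cos (z 7) = 0 := by
  have hg : ∀ t, ell (Function.update z 7 t) = 2 * z 4 * cos (z 3) + ‖zA z‖ * sin (z 3) +
      2 * z 8 * sin t + 2 * ⟪zB z, zP z -
        (cos t • zK z + sin t • (cos (z 8) • zI + sin (z 8) • zJ z))⟫ +
      2 * ⟪zA z, coneV (zC z) (cos t • zK z + sin t • (cos (z 8) • zI - sin (z 8) • zJ z)) (z 5)⟫ -
      2 * cos t * ⟪zA z, zK z⟫ := fun t => rfl
  have hT : HasDerivAt (fun t : ℝ => cos t • zK z + sin t • (cos (z 8) • zI + sin (z 8) • zJ z))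
      ((-sin (z 7)) • zK z + cos (z 7) • (cos (z 8) • zI + sin (z 8) • zJ z)) (z 7) :=
    ((hasDerivAt_cos (z 7)).smul_const (zK z)).fun_add ((hasDerivAt_sin (z 7)).smul_const _)
  have hE : HasDerivAt (fun t : ℝ => cos t • zK z + sin t • (cos (z 8) • zI - sin (z 8) • zJ z))
      ((-sin (z 7)) • zK z + cos (z 7) • (cos (z 8) • zI - sin (z 8) • zJ z)) (z 7) :=
    ((hasDerivAt_cos (z 7)).smul_const (zK z)).fun_add ((hasDerivAt_sin (z 7)).smul_const _)
  have hK := UPart_key (a := zA z) (c := zC z) (D := z 5) hE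
    (fun s => UPart_norm_frame (z 6) s (z 8)) hn.cone (UPart_dD hn hc)
  have hd := (((((hasDerivAt_sin (z 7)).const_mul (2 * z 8)).const_add
    (2 * z 4 * cos (z 3) + ‖zA z‖ * sin (z 3))).fun_add
      ((UPart_inner (zB z) (hT.const_sub (zP z))).const_mul 2)).fun_add
        (hK.const_mul 2)).fun_sub
          (((hasDerivAt_cos (z 7)).const_mul 2).mul_const ⟪zA z, zK z⟫)
  have h0 : 2 * z 8 * cos (z 7) +
      2 * ⟪zB z, -((-sin (z 7)) • zK z + cos (z 7) • (cos (z 8) • zI + sin (z 8) • zJ z))⟫ +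
      2 * (zLam z * ⟪zN z, (-sin (z 7)) • zK z +
        cos (z 7) • (cos (z 8) • zI - sin (z 8) • zJ z)⟫) - 2 * (-sin (z 7)) * ⟪zA z, zK z⟫ = 0 :=
    UPart_crit hc 7 hg hd
  have hI := UPart_aI z
  unfold zBe zZe
  simp only [inner_sub_left, inner_neg_left, inner_neg_right, real_inner_smul_left,
    real_inner_smul_right, inner_add_right, inner_sub_right, hI] at h0 ⊢
  linarith

theorem UPart_deriv_vec {g h : ℝ → ℝ} {g' h' t : ℝ} (hg : HasDerivAt g g' t)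
    (hh : HasDerivAt h h' t) : HasDerivAt (fun s => vec 0 (g s) (h s)) (vec 0 g' h') t := by
  have e1 : (fun s => vec 0 (g s) (h s)) = fun s => g s • vec 0 1 0 + h s • vec 0 0 1 := by
    funext s
    apply ext3 <;> simp
  rw [e1]
  refine ((hg.smul_const _).fun_add (hh.smul_const _)).congr_deriv ?_
  apply ext3 <;> simp

theorem UPart_dom {z : Fin 9 → ℝ} (hn : Num z)
    (hc : HasFDerivAt ell (0 : (Fin 9 → ℝ) →L[ℝ] ℝ) z) :
    ⟪zBe z, cos (z 7) • zJ z - (sin (z 7) * sin (z 8)) • zK z⟫ -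
      ⟪zZe z, cos (z 7) • zJ z + (sin (z 7) * sin (z 8)) • zK z⟫ = 0 := by
  have hg : ∀ t, ell (Function.update z 6 t) = 2 * z 4 * cos (z 3) + ‖zA z‖ * sin (z 3) +
      2 * z 8 * sin (z 7) + 2 * ⟪zB z, zP z - (cos (z 7) • vec 0 (sin t) (cos t) +
        sin (z 7) • (cos (z 8) • zI + sin (z 8) • vec 0 (cos t) (-sin t)))⟫ +
      2 * ⟪zA z, coneV (zC z) (cos (z 7) • vec 0 (sin t) (cos t) +
        sin (z 7) • (cos (z 8) • zI - sin (z 8) • vec 0 (cos t) (-sin t))) (z 5)⟫ -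
      2 * cos (z 7) * ⟪zA z, vec 0 (sin t) (cos t)⟫ := fun t => rfl
  have hk : HasDerivAt (fun t : ℝ => vec 0 (sin t) (cos t)) (zJ z) (z 6) :=
    UPart_deriv_vec (hasDerivAt_sin (z 6)) (hasDerivAt_cos (z 6))
  have hj : HasDerivAt (fun t : ℝ => vec 0 (cos t) (-sin t)) (-zK z) (z 6) := by
    refine (UPart_deriv_vec (hasDerivAt_cos (z 6)) (hasDerivAt_sin (z 6)).fun_neg).congr_deriv ?_
    apply ext3 <;> simp [zK]
  have hT : HasDerivAt (fun t : ℝ => cos (z 7) • vec 0 (sin t) (cos t) +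
        sin (z 7) • (cos (z 8) • zI + sin (z 8) • vec 0 (cos t) (-sin t)))
      (cos (z 7) • zJ z + sin (z 7) • (sin (z 8) • (-zK z))) (z 6) :=
    (hk.fun_const_smul (cos (z 7))).fun_add
      (((hj.fun_const_smul (sin (z 8))).const_add _).fun_const_smul (sin (z 7)))
  have hE : HasDerivAt (fun t : ℝ => cos (z 7) • vec 0 (sin t) (cos t) +
        sin (z 7) • (cos (z 8) • zI - sin (z 8) • vec 0 (cos t) (-sin t)))
      (cos (z 7) • zJ z + sin (z 7) • (-(sin (z 8) • (-zK z)))) (z 6) :=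
    (hk.fun_const_smul (cos (z 7))).fun_add
      (((hj.fun_const_smul (sin (z 8))).const_sub _).fun_const_smul (sin (z 7)))
  have hK := UPart_key (a := zA z) (c := zC z) (D := z 5) hE
    (fun s => UPart_norm_frame s (z 7) (z 8)) hn.cone (UPart_dD hn hc)
  have hd := ((((UPart_inner (zB z) (hT.const_sub (zP z))).const_mul 2).const_add
    (2 * z 4 * cos (z 3) + ‖zA z‖ * sin (z 3) + 2 * z 8 * sin (z 7))).fun_add
        (hK.const_mul 2)).fun_sub ((UPart_inner (zA z) hk).const_mul (2 * cos (z 7)))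
  have h0 : 2 * ⟪zB z, -(cos (z 7) • zJ z + sin (z 7) • (sin (z 8) • (-zK z)))⟫ +
      2 * (zLam z * ⟪zN z, cos (z 7) • zJ z + sin (z 7) • (-(sin (z 8) • (-zK z)))⟫) -
      2 * cos (z 7) * ⟪zA z, zJ z⟫ = 0 :=
    UPart_crit hc 6 hg hd
  unfold zBe zZe
  simp only [inner_sub_left, inner_neg_left, inner_neg_right, real_inner_smul_left,
    real_inner_smul_right, inner_add_right, inner_sub_right] at h0 ⊢
  linarith

/-- The six derivatives at a critical point. -/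
theorem part_of_crit {z : Fin 9 → ℝ} (hn : Num z)
    (hc : HasFDerivAt ell (0 : (Fin 9 → ℝ) →L[ℝ] ℝ) z) : Part z :=
  ⟨UPart_dr hn hc, UPart_de hc, UPart_dD hn hc, UPart_dch hn hc, UPart_det hn hc, UPart_dom hn hc⟩

end Pool.Agent.Lib.MP_ee7495_gt.Y
end

-- part Pool.Agent.Lib.MP_ee7495_gt.Y.UClose
section

set_option autoImplicit false

open scoped RealInnerProductSpace
open Real Set

namespace Pool.Agent.Lib.MP_ee7495_gt.Y

theorem uclose_normA (z : Fin 9 → ℝ) : ‖zA z‖ ^ 2 = z 0 ^ 2 + 1 := by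
  rw [normsq3]; simp [zA]; ring

theorem uclose_posA (z : Fin 9 → ℝ) : 0 < ‖zA z‖ := by
  have h := uclose_normA z
  rcases (norm_nonneg (zA z)).eq_or_lt with h0 | h0
  · rw [← h0] at h; nlinarith [sq_nonneg (z 0)]
  · exact h0

theorem uclose_ijk (z : Fin 9 → ℝ) (p1 p2 p3 q1 q2 q3 : ℝ) :
    ⟪p1 • zI + p2 • zJ z + p3 • zK z, q1 • zI + q2 • zJ z + q3 • zK z⟫ =
      p1 * q1 + p2 * q2 + p3 * q3 := by
  simp [inner3, zI, zJ, zK]
  linear_combination (p2 * q2 + p3 * q3) * sin_sq_add_cos_sq (z 6)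

theorem uclose_ifa (z : Fin 9 → ℝ) (p1 p2 p3 q1 q2 q3 : ℝ) :
    ⟪p1 • zI + p2 • zF z + p3 • zA z, q1 • zI + q2 • zF z + q3 • zA z⟫ =
      p1 * q1 + (p2 * q2 + p3 * q3) * ‖zA z‖ ^ 2 := by
  rw [uclose_normA]
  simp [inner3, zI, zF, zA]
  ring

theorem uclose_exp_ijk (z : Fin 9 → ℝ) (v : E) :
    v = ⟪v, zI⟫ • zI + ⟪v, zJ z⟫ • zJ z + ⟪v, zK z⟫ • zK z := by
  refine ext3 ?_ ?_ ?_ <;> simp [inner3, zI, zJ, zK]
  · linear_combination (-v 1) * sin_sq_add_cos_sq (z 6)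
  · linear_combination (-v 2) * sin_sq_add_cos_sq (z 6)

theorem uclose_exp_ifa (z : Fin 9 → ℝ) (v : E) : v = ⟪v, zI⟫ • zI +
    (⟪v, zF z⟫ / ‖zA z‖ ^ 2) • zF z + (⟪v, zA z⟫ / ‖zA z‖ ^ 2) • zA z := by
  rw [uclose_normA]
  have h : z 0 ^ 2 + 1 ≠ 0 := by positivity
  refine ext3 ?_ ?_ ?_ <;> simp [inner3, zI, zF, zA]
  · field_simp; ring
  · field_simp; ring

theorem uclose_norm {v : E} {s : ℝ} (hs : 0 ≤ s) (h : ⟪v, v⟫ = s ^ 2) : ‖v‖ = s := by
  rw [real_inner_self_eq_norm_sq] at h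
  exact (pow_left_inj₀ (norm_nonneg _) hs two_ne_zero).1 h

theorem uclose_lo {a b : ℝ} (h : Nr a b) : b - 1 / 10000 ≤ a := by
  have := (abs_le.1 h).1; linarith

theorem uclose_hi {a b : ℝ} (h : Nr a b) : a ≤ b + 1 / 10000 := by
  have := (abs_le.1 h).2; linarith

theorem uclose_k2 {z : Fin 9 → ℝ} (hn : Num z) (hp : Part z) :
    zH z (z 4) = -zB z + zxP z • zP z := by
  have hce : cos (z 3) ≠ 0 := by have := uclose_lo hn.ce; linarith
  have hA := (uclose_posA z).ne'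
  have h1 := hp.dr
  have h2 := hp.de
  have h3 : zxP z = (‖zA z‖ / 2 - z 4 * tan (z 3)) * sin (z 3) + ⟪zB z, zP z⟫ := rfl
  have h4 := uclose_exp_ifa z (zB z)
  simp only [zP, inner_add_right, inner_sub_right, real_inner_smul_right] at h1 h2 h3
  rw [tan_eq_sin_div_cos] at h3
  have e3 := sin_sq_add_cos_sq (z 3)
  have e4 := sin_sq_add_cos_sq (z 4)
  rw [h4]
  unfold zH zP
  rw [tan_eq_sin_div_cos]
  generalize zxP z = x at h3
  generalize ⟪zB z, zI⟫ = bi at h1 h2 h3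
  obtain ⟨bf, hbf⟩ : ∃ bf, ⟪zB z, zF z⟫ = bf * ‖zA z‖ := ⟨_, (div_mul_cancel₀ _ hA).symm⟩
  obtain ⟨ba, hba⟩ : ∃ ba, ⟪zB z, zA z⟫ = ba * ‖zA z‖ := ⟨_, (div_mul_cancel₀ _ hA).symm⟩
  rw [hbf] at h1
  rw [hbf, hba] at h2 h3 ⊢
  generalize ‖zA z‖ = A at hA h1 h2 h3
  generalize sin (z 3) = se at h2 h3 e3
  generalize cos (z 3) = ce at h2 h3 e3 hce
  generalize sin (z 4) = sr at h1 h2 h3 e4
  generalize cos (z 4) = cr at h1 h2 h3 e4
  generalize z 4 = r at h2 h3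
  have g : ∀ s t : ℝ, s / A * (t * A) = s * t := fun s t => by field_simp
  simp only [g] at h1 h2 h3
  obtain ⟨te, hte⟩ : ∃ te, se = te * ce := ⟨se / ce, (div_mul_cancel₀ _ hce).symm⟩
  have g2 : se / ce = te := by rw [hte]; field_simp
  rw [g2] at h3 ⊢
  have q1 : ce * (A / 2 - te * r + ba) = se * (sr * bi + cr * bf) := by
    linear_combination (1 / 2) * h2 + r * hte
  have q2 : ce * x = sr * bi + cr * bf := by
    linear_combination ce * h3 + se * q1 + (sr * bi + cr * bf) * e3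
  have q3 : A / 2 - te * r + ba = se * x := by
    apply mul_left_cancel₀ hce
    linear_combination q1 - se * q2
  have q4 : cr + bi = x * ce * sr := by
    linear_combination cr * h1 - sr * q2 - bi * e4
  have q5 : -sr + bf = x * ce * cr := by
    linear_combination (-sr) * h1 - cr * q2 - bf * e4
  match_scalars
  · linear_combination q4
  · field_simp
    linear_combination q5
  · field_simp
    linear_combination 2 * q3

theorem uclose_k34 {z : Fin 9 → ℝ} (hn : Num z) (hp : Part z) :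
    zX z (z 8) + zx z • zT z = -zB z ∧ zA z - zX z (-z 8) = zLam z • zN z + zmu z • zE z := by
  have hch : cos (z 7) ≠ 0 := by have := uclose_lo hn.ch; linarith
  have hsh : sin (z 7) ≠ 0 := by have := uclose_lo hn.sh; linarith
  have h1 := hp.dch
  have h2 := hp.det
  have h3 := hp.dom
  have h4 : zXm z * cos (z 7) = ⟪zBe z - zZe z, zK z⟫ - cos (z 7) * z 8 / sin (z 7) :=
    div_mul_cancel₀ _ hch
  have h5 : zXp z * cos (z 7) = ⟪zBe z + zZe z, zK z⟫ := div_mul_cancel₀ _ hch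
  have h6 : zo z = -(⟪zBe z + zZe z, zI⟫ - zXp z * sin (z 7) * cos (z 8)) / 2 := rfl
  have b1 : -zB z = zBe z + (1 / 2 : ℝ) • zA z := by unfold zBe; module
  have b2 : zLam z • zN z = (1 / 2 : ℝ) • zA z - zZe z := by unfold zZe; module
  simp only [inner_add_right, inner_sub_right, real_inner_smul_right, inner_add_left,
    inner_sub_left] at h1 h2 h3 h4 h5 h6
  rw [b1, b2, uclose_exp_ijk z (zBe z), uclose_exp_ijk z (zZe z)]
  unfold zX zO zU5 zx zmu zT zE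
  rw [sin_neg, cos_neg]
  have e8 := sin_sq_add_cos_sq (z 8)
  generalize ⟪zBe z, zI⟫ = p1 at *
  generalize ⟪zBe z, zJ z⟫ = p2 at *
  generalize ⟪zBe z, zK z⟫ = p3 at *
  generalize ⟪zZe z, zI⟫ = q1 at *
  generalize ⟪zZe z, zJ z⟫ = q2 at *
  generalize ⟪zZe z, zK z⟫ = q3 at *
  generalize zXm z = xm at *
  generalize zXp z = xp at *
  generalize zo z = o at *
  generalize sin (z 7) = sh at *
  generalize cos (z 7) = ch at *
  generalize sin (z 8) = sx at *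
  generalize cos (z 8) = cx at *
  generalize z 8 = χ at *
  obtain ⟨w, hw⟩ : ∃ w, χ = w * sh := ⟨χ / sh, (div_mul_cancel₀ _ hsh).symm⟩
  have g1 : ch * χ / sh = ch * w := by rw [hw]; field_simp
  have g2 : χ * ch / (2 * sh) = ch * w / 2 := by rw [hw]; field_simp
  have g3 : -χ * ch / (2 * sh) = -(ch * w / 2) := by rw [hw]; field_simp
  rw [g1] at h4
  rw [g2, g3]
  have a1 : -sx * (p1 - q1) + cx * (p2 + q2) + 1 = 0 := by
    apply mul_left_cancel₀ hsh
    linear_combination h1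
  have a2 : cx * (p1 - q1) + sx * (p2 + q2) = sh * xm := by
    apply mul_left_cancel₀ hch
    linear_combination h2 - sh * h4 - ch * hw
  have a3 : p2 - q2 = xp * sh * sx := by
    apply mul_left_cancel₀ hch
    linear_combination h3 - sh * sx * h5
  have a4 : p1 - q1 = sx + xm * sh * cx := by
    linear_combination (-sx) * a1 + cx * a2 - (p1 - q1) * e8
  have a5 : p2 + q2 = -cx + xm * sh * sx := by
    linear_combination cx * a1 + sx * a2 - (p2 + q2) * e8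
  constructor
  · match_scalars
    · ring
    · linear_combination -h6 - (1 / 2) * a4
    · linear_combination -(1 / 2) * a3 - (1 / 2) * a5
    · linear_combination (1 / 2) * h4 + (1 / 2) * h5
  · match_scalars
    · ring
    · linear_combination h6 - (1 / 2) * a4
    · linear_combination -(1 / 2) * a3 + (1 / 2) * a5
    · linear_combination (1 / 2) * h4 - (1 / 2) * h5

theorem close_of_part {z : Fin 9 → ℝ} (hn : Num z) (hp : Part z) : Close z :=
  ⟨hp.dD, uclose_k2 hn hp, (uclose_k34 hn hp).1, (uclose_k34 hn hp).2⟩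

theorem uclose_box {z : Fin 9 → ℝ} (hn : Num z) :
    0 ≤ z 4 ∧ 0 ≤ z 5 ∧ z 5 ≤ 0.262 ∧ 0 ≤ z 8 := by
  have h4 : |z 4 - 0.512207581| ≤ 1 / 1000000 := hn.box 4
  have h5 : |z 5 - 0.261980389| ≤ 1 / 1000000 := hn.box 5
  have h8 : |z 8 - 0.230773213| ≤ 1 / 1000000 := hn.box 8
  rw [abs_le] at h4 h5 h8
  refine ⟨?_, ?_, ?_, ?_⟩ <;> linarith [h4.1, h5.1, h5.2, h8.1]

theorem Num.sig_pos {z : Fin 9 → ℝ} (hn : Num z) : ∀ t ∈ Icc 0 (z 5), 0.74 ≤ zSig z t ∧
    zSig z t ≤ 0.82 := by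
  intro t ht
  have r1 := uclose_lo hn.rho
  have k1 := uclose_lo hn.ka
  have k2 := uclose_hi hn.ka
  have s1 := uclose_lo hn.sig0
  have s2 := uclose_hi hn.sig0
  have hD := (uclose_box hn).2.2.1
  simp only [zSig, sigT, zero_div, cos_zero, sin_zero, mul_one, mul_zero, add_zero] at s1 s2 ⊢
  have hρ : 0 < ‖zC z‖ := by linarith
  have u0 : 0 ≤ t / ‖zC z‖ := div_nonneg ht.1 hρ.le
  have u1 : t / ‖zC z‖ ≤ 0.201 := by
    rw [div_le_iff₀ hρ]; linarith [ht.2]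
  generalize t / ‖zC z‖ = s at u0 u1
  have c1 := cos_le_one s
  have c2 : 0.979 ≤ cos s := by
    have := one_sub_sq_div_two_le_cos (x := s)
    nlinarith
  have c3 : 0 ≤ sin s := sin_nonneg_of_nonneg_of_le_pi u0 (by linarith [pi_gt_three])
  have c4 : sin s ≤ 0.201 := (sin_le u0).trans u1
  constructor <;> nlinarith

theorem uclose_deriv_mu {z : Fin 9 → ℝ} (hn : Num z) {t : ℝ} (ht : t ∈ Icc 0 (z 5)) :
    HasDerivAt (zMu z) (-(zLam z * (‖zC z‖ ^ 2 - 1) / (‖zC z‖ * zSig z t ^ 2))) t := by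
  have hs : sigT (zC z) (zE z) t ≠ 0 := by
    have := (hn.sig_pos t ht).1
    unfold zSig at this
    linarith
  have hρ : ‖zC z‖ ≠ 0 := by have := hn.cone.one_lt; linarith
  have h := ((deriv_kapT (zC z) (zE z) t).const_mul (zLam z)).div (deriv_sigT (zC z) (zE z) t) hs
  refine HasDerivAt.congr_deriv h ?_
  rw [← hn.cone.sq_sum t]
  unfold zSig
  field_simp
  ring

theorem deriv_zY {z : Fin 9 → ℝ} (hn : Num z) {t : ℝ} (ht : t ∈ Icc 0 (z 5)) : HasDerivAt (zY z)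
    ((zLam z * (‖zC z‖ ^ 2 - 1) / (‖zC z‖ * zSig z t ^ 2)) • zV z t) t := by
  have hs : zSig z t ≠ 0 := by
    have := (hn.sig_pos t ht).1
    linarith
  have h1 : HasDerivAt (zM z) ((zKap z t / ‖zC z‖) • zU z t) t := hn.cone.deriv_M t
  have h2 : HasDerivAt (zV z) ((-(zSig z t / ‖zC z‖)) • zU z t) t := hn.cone.deriv_V t
  have h := ((h1.const_smul (zLam z)).const_sub (zA z)).sub ((uclose_deriv_mu hn ht).smul h2)
  refine HasDerivAt.congr_deriv h ?_
  unfold zMu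
  match_scalars
  · field_simp
    ring
  · ring

/-- The start of the curve lies on the tangent line at the end of the cone arc. -/
theorem Close.start {z : Fin 9 → ℝ} (hn : Num z) (hc : Close z) :
    zY z (z 5) = (⟪zA z, zV z (z 5)⟫ - zMu z (z 5)) • zV z (z 5) := by
  have h : zA z = ⟪zA z, zV z (z 5)⟫ • zV z (z 5) + zLam z • zM z (z 5) +
      ⟪zA z, zU z (z 5)⟫ • zU z (z 5) := hn.cone.expand (z 5) (zA z)
  rw [hc.k1] at h
  unfold zY
  generalize ⟪zA z, zV z (z 5)⟫ = s at h ⊢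
  rw [h]
  module

theorem Close.mid {z : Fin 9 → ℝ} (hc : Close z) :
    zX z (-z 8) = zY z 0 + (zMu z 0 - zmu z) • zE z := by
  have h1 : zM z 0 = zN z := coneM_zero _ _
  have h2 : zV z 0 = zE z := coneV_zero _ _
  have h3 : zX z (-z 8) = zA z - (zLam z • zN z + zmu z • zE z) := by rw [← hc.k4]; abel
  unfold zY
  rw [h1, h2, h3]
  module

theorem uclose_T (z : Fin 9 → ℝ) : zT z = (sin (z 7) * cos (z 8)) • zI +
    (sin (z 7) * sin (z 8)) • zJ z + cos (z 7) • zK z := by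
  unfold zT; module

theorem uclose_E (z : Fin 9 → ℝ) : zE z = (sin (z 7) * cos (z 8)) • zI +
    (-(sin (z 7) * sin (z 8))) • zJ z + cos (z 7) • zK z := by
  unfold zE; module

theorem uclose_X (z : Fin 9 → ℝ) (t : ℝ) : zX z t = (1 / 2 : ℝ) • zA z +
    ((-zo z + sin t / 2) • zI + (-(cos t / 2)) • zJ z +
      (t * cos (z 7) / (2 * sin (z 7))) • zK z) := by
  unfold zX zO zU5; module

theorem uclose_TT (z : Fin 9 → ℝ) : ⟪zT z, zT z⟫ = 1 ^ 2 := by
  rw [uclose_T, uclose_ijk]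
  linear_combination sin (z 7) ^ 2 * sin_sq_add_cos_sq (z 8) + sin_sq_add_cos_sq (z 7)

theorem uclose_normP (z : Fin 9 → ℝ) : ‖zP z‖ = 1 := by
  have hA := (uclose_posA z).ne'
  have h : zP z = (cos (z 3) * sin (z 4)) • zI + (cos (z 3) * cos (z 4) / ‖zA z‖) • zF z +
      (sin (z 3) / ‖zA z‖) • zA z := by
    unfold zP; module
  refine uclose_norm zero_le_one ?_
  rw [h, uclose_ifa]
  field_simp
  linear_combination cos (z 3) ^ 2 * sin_sq_add_cos_sq (z 4) + sin_sq_add_cos_sq (z 3)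

theorem uclose_seg {p q v : E} {s : ℝ} (h : q = p + s • v) (hs : 0 ≤ s) (hv : ‖v‖ = 1) :
    HasCurve p q s (segment ℝ p q) := by
  have h1 := hasCurve_segment p q
  rwa [show q - p = s • v by rw [h]; abel, norm_smul, hv, mul_one, Real.norm_of_nonneg hs] at h1

theorem uclose_arcY {z : Fin 9 → ℝ} (hn : Num z) :
    HasCurve (zY z 0) (zY z (z 5)) (zMu z (z 5) - zMu z 0) (zY z '' Icc 0 (z 5)) := by
  refine hasCurve_arc (uclose_box hn).2.1 (fun t ht => deriv_zY hn ht)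
    (fun t ht => uclose_deriv_mu hn ht) fun t _ => ?_
  have h1 : ‖zV z t‖ = 1 := hn.cone.norm_V t
  have h2 := hn.cone.one_lt
  have h3 := uclose_hi hn.lam
  rw [norm_smul, h1, mul_one, Real.norm_of_nonpos]
  exact div_nonpos_of_nonpos_of_nonneg
    (mul_nonpos_of_nonpos_of_nonneg (by linarith) (by nlinarith)) (by positivity)

theorem uclose_arcX {z : Fin 9 → ℝ} (hn : Num z) :
    HasCurve (zX z (-z 8)) (zX z (z 8)) (z 8 / sin (z 7)) (zX z '' Icc (-z 8) (z 8)) := by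
  have hsh : 0 < sin (z 7) := by have := uclose_lo hn.sh; linarith
  have h8 := (uclose_box hn).2.2.2
  have h := hasCurve_arc (f := zX z) (a := -z 8) (b := z 8)
    (f' := fun t => (cos t / 2) • zI + (sin t / 2) • zJ z + (cos (z 7) / (2 * sin (z 7))) • zK z)
    (s := fun t => t / (2 * sin (z 7))) (s' := fun _ => 1 / (2 * sin (z 7))) (by linarith)
    (fun t _ => ?_) (fun t _ => (hasDerivAt_id t).div_const _) fun t _ => le_of_eq ?_
  · refine h.mono (le_of_eq ?_) subset_rfl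
    field_simp
    ring
  · rw [show zX z = _ from funext (uclose_X z)]
    have d1 := ((((hasDerivAt_sin t).div_const 2).const_add (-zo z)).smul_const zI)
    have d2 := ((((hasDerivAt_cos t).div_const 2).neg).smul_const (zJ z))
    have d3 := ((((hasDerivAt_id t).mul_const (cos (z 7))).div_const
      (2 * sin (z 7))).smul_const (zK z))
    refine HasDerivAt.congr_deriv (((d1.add d2).add d3).const_add ((1 / 2 : ℝ) • zA z)) ?_
    module
  · refine uclose_norm (by positivity) ?_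
    rw [uclose_ijk]
    field_simp
    linear_combination sin (z 7) ^ 2 * sin_sq_add_cos_sq t + sin_sq_add_cos_sq (z 7)

theorem uclose_arcH {z : Fin 9 → ℝ} (hn : Num z) :
    HasCurve (zH z 0) (zH z (z 4)) (z 4 / cos (z 3)) (zH z '' Icc 0 (z 4)) := by
  have hce : 0 < cos (z 3) := by have := uclose_lo hn.ce; linarith
  have hA := (uclose_posA z).ne'
  have h := hasCurve_arc (f := zH z) (a := 0) (b := z 4)
    (f' := fun t => (-sin t) • zI + (-(cos t / ‖zA z‖)) • zF z + (-tan (z 3) / ‖zA z‖) • zA z)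
    (s := fun t => t / cos (z 3)) (s' := fun _ => 1 / cos (z 3)) (uclose_box hn).1
    (fun t _ => ?_) (fun t _ => (hasDerivAt_id t).div_const _) fun t _ => le_of_eq ?_
  · refine h.mono (le_of_eq ?_) subset_rfl
    ring
  · have d1 := (hasDerivAt_cos t).smul_const zI
    have d2 := ((hasDerivAt_sin t).div_const ‖zA z‖).smul_const (zF z)
    have d3 := ((((hasDerivAt_id t).const_mul (tan (z 3))).const_sub (‖zA z‖ / 2)).div_const
      ‖zA z‖).smul_const (zA z)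
    refine HasDerivAt.congr_deriv ((d1.sub d2).add d3) ?_
    module
  · refine uclose_norm (by positivity) ?_
    rw [uclose_ifa, tan_eq_sin_div_cos]
    field_simp
    linear_combination cos (z 3) ^ 2 * sin_sq_add_cos_sq t + sin_sq_add_cos_sq (z 3)

/-- The length identity. -/
theorem uclose_len {z : Fin 9 → ℝ} (hn : Num z) (hc : Close z) :
    ⟪zA z, zV z (z 5)⟫ - zmu z + z 8 / sin (z 7) + zx z + zxP z + z 4 / cos (z 3) = ell z / 2 := by
  have hce : cos (z 3) ≠ 0 := by have := uclose_lo hn.ce; linarith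
  have hsh : sin (z 7) ≠ 0 := by have := uclose_lo hn.sh; linarith
  have h1 : zxP z + z 4 / cos (z 3) =
      ‖zA z‖ / 2 * sin (z 3) + z 4 * cos (z 3) + ⟪zB z, zP z⟫ := by
    unfold zxP
    rw [tan_eq_sin_div_cos]
    field_simp
    linear_combination (-2 * z 4) * sin_sq_add_cos_sq (z 3)
  have hNE : ⟪zN z, zE z⟫ = 0 := by
    have := hn.cone.inner_VM 0
    rwa [coneV_zero, coneM_zero, real_inner_comm] at this
  have hEE : ⟪zE z, zE z⟫ = 1 := by rw [real_inner_self_eq_norm_sq, norm_zE, one_pow]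
  have h2 : ⟪zX z (z 8) + zx z • zT z, zT z⟫ = ⟪-zB z, zT z⟫ := by rw [hc.k3]
  have h3 : ⟪zA z - zX z (-z 8), zE z⟫ = ⟪zLam z • zN z + zmu z • zE z, zE z⟫ := by rw [hc.k4]
  have h4 : ⟪zA z, zT z⟫ + ⟪zA z, zE z⟫ = 2 * cos (z 7) * ⟪zA z, zK z⟫ := by
    have : ⟪zA z, zI⟫ = 0 := by simp [inner3, zA, zI]
    simp only [zT, zE, inner_add_right, inner_sub_right, real_inner_smul_right, this]
    ring
  have h5 : ⟪zX z (z 8), zT z⟫ = ⟪zA z, zT z⟫ / 2 - zo z * sin (z 7) * cos (z 8) +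
      z 8 * cos (z 7) / (2 * sin (z 7)) * cos (z 7) := by
    rw [uclose_X, inner_add_left, real_inner_smul_left]
    nth_rewrite 2 [uclose_T]
    rw [uclose_ijk]
    ring
  have h6 : ⟪zX z (-z 8), zE z⟫ = ⟪zA z, zE z⟫ / 2 - zo z * sin (z 7) * cos (z 8) -
      z 8 * cos (z 7) / (2 * sin (z 7)) * cos (z 7) := by
    rw [uclose_X, inner_add_left, real_inner_smul_left]
    nth_rewrite 2 [uclose_E]
    rw [uclose_ijk, sin_neg, cos_neg]
    ring
  have h7 : z 8 / sin (z 7) = z 8 * sin (z 7) +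
      2 * (z 8 * cos (z 7) / (2 * sin (z 7)) * cos (z 7)) := by
    field_simp
    linear_combination (-z 8) * sin_sq_add_cos_sq (z 7)
  rw [inner_add_left, real_inner_smul_left, uclose_TT, inner_neg_left, h5] at h2
  rw [inner_sub_left, inner_add_left, real_inner_smul_left, real_inner_smul_left, hNE, hEE,
    h6] at h3
  rw [ell_eq, inner_sub_right]
  change _ = (_ + 2 * ⟪zA z, zV z (z 5)⟫ - _) / 2
  linear_combination h1 + h7 + h2 + h3 - (1 / 2) * h4

theorem uclose_half {z : Fin 9 → ℝ} (hn : Num z) (hc : Close z) :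
    0 ≤ ell z / 2 ∧ HasCurve 0 (zH z 0) (ell z / 2) (Half z) := by
  have hce : 0 < cos (z 3) := by have := uclose_lo hn.ce; linarith
  have hsh : 0 < sin (z 7) := by have := uclose_lo hn.sh; linarith
  have n1 : 0 ≤ ⟪zA z, zV z (z 5)⟫ - zMu z (z 5) := by
    linarith [uclose_lo hn.aV, uclose_hi hn.muD]
  have n2 : 0 ≤ zMu z (z 5) - zMu z 0 := by linarith [uclose_lo hn.muD, uclose_hi hn.mu0]
  have n3 : 0 ≤ zMu z 0 - zmu z := by linarith [uclose_lo hn.mu0, uclose_hi hn.mu]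
  have n4 : 0 ≤ z 8 / sin (z 7) := div_nonneg (uclose_box hn).2.2.2 hsh.le
  have n5 : 0 ≤ zx z := by linarith [uclose_lo hn.x]
  have n6 : 0 ≤ zxP z := by linarith [uclose_lo hn.xP]
  have n7 : 0 ≤ z 4 / cos (z 3) := div_nonneg (uclose_box hn).1 hce.le
  have c1 : HasCurve 0 (zY z (z 5)) _ _ :=
    uclose_seg ((hc.start hn).trans (zero_add _).symm) n1 (hn.cone.norm_V (z 5))
  have c3 := uclose_seg hc.mid n3 (norm_zE z)
  have c5 := uclose_seg hc.k3.symm n5 (uclose_norm zero_le_one (uclose_TT z))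
  have c6 := uclose_seg hc.k2 n6 (uclose_normP z)
  have h := (((((c1.trans (uclose_arcY hn).symm n1 n2).trans c3 (by positivity) n3).trans
    (uclose_arcX hn) (by positivity) n4).trans c5 (by positivity) n5).trans c6 (by positivity)
    n6).trans (uclose_arcH hn).symm (by positivity) n7
  have e := uclose_len hn hc
  exact ⟨by linarith, h.mono (by linarith) subset_rfl⟩

/-- The curve exists and has length `ell z`. -/
theorem hasCurve_Gam {z : Fin 9 → ℝ} (hn : Num z) (hc : Close z) :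
    HasCurve 0 (zA z) (ell z) (Gam z) := by
  obtain ⟨h0, h⟩ := uclose_half hn hc
  have hA := (uclose_posA z).ne'
  have h1 := (h.map (f := zS z) fun u v => by
    unfold zS
    rw [← mir_sub, norm_mir, sub_sub_sub_cancel_left, norm_sub_rev]).symm
  have e1 : zS z 0 = zA z := by
    refine ext3 ?_ ?_ ?_ <;> simp [zS, zA]
  have e2 : zS z (zH z 0) = zH z 0 := by
    have e3 : zH z 0 = zI + (1 / 2 : ℝ) • zA z := by
      unfold zH
      rw [cos_zero, sin_zero]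
      match_scalars
      · ring
      · simp
      · field_simp
        ring
    rw [e3]
    refine ext3 ?_ ?_ ?_ <;> simp [zS, zA, zI] <;> ring
  rw [e1, e2] at h1
  exact (h.trans h1 h0 h0).mono (by linarith) subset_rfl

end Pool.Agent.Lib.MP_ee7495_gt.Y
end

-- part Pool.Agent.Lib.MP_ee7495_gt.Y.UStripA
section

set_option autoImplicit false

open scoped RealInnerProductSpace
open Real Set

namespace Pool.Agent.Lib.MP_ee7495_gt.Y

theorem stripA_zS_zS (z : Fin 9 → ℝ) (p : E) : zS z (zS z p) = p :=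
  ext3 (by simp [zS, zA]) (by simp [zS, zA]) (by simp [zS, zA])

theorem zS_mem {z : Fin 9 → ℝ} {p : E} (hp : p ∈ Gam z) : zS z p ∈ Gam z := by
  rcases hp with hp | ⟨q, hq, rfl⟩
  · exact Or.inr ⟨p, hp, rfl⟩
  · rw [stripA_zS_zS]
    exact Or.inl hq

theorem Wd.neg {S : Set E} {v : E} (h : Wd S v) : Wd S (-v) := by
  obtain ⟨p, hp, q, hq, hle⟩ := h
  refine ⟨q, hq, p, hp, ?_⟩
  rw [norm_neg, ← neg_sub p q, inner_neg_neg]
  exact hle

theorem Wd.mir {z : Fin 9 → ℝ} {v : E} (h : Wd (Gam z) v) : Wd (Gam z) (mir v) := by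
  obtain ⟨p, hp, q, hq, hle⟩ := h
  refine ⟨zS z q, zS_mem hq, zS z p, zS_mem hp, ?_⟩
  have h1 : zS z q - zS z p = Y.mir (p - q) := by
    rw [zS, zS, ← mir_sub]
    congr 1
    abel
  rw [h1, inner_mir, norm_mir]
  exact hle

theorem Wd.smul {S : Set E} {v : E} (h : Wd S v) {t : ℝ} (ht : 0 ≤ t) : Wd S (t • v) := by
  obtain ⟨p, hp, q, hq, hle⟩ := h
  refine ⟨p, hp, q, hq, ?_⟩
  rw [norm_smul, real_inner_smul_right, Real.norm_of_nonneg ht]
  exact mul_le_mul_of_nonneg_left hle ht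

theorem mem_A (z : Fin 9 → ℝ) : (0 : E) ∈ Gam z := by
  refine Or.inl ?_
  simp only [Half, mem_union]
  exact Or.inl (Or.inl (Or.inl (Or.inl (Or.inl (Or.inl (left_mem_segment ℝ _ _))))))
theorem mem_D (z : Fin 9 → ℝ) : zA z ∈ Gam z := by
  have h1 : zA z = zS z 0 := ext3 (by simp [zS, zA]) (by simp [zS, zA]) (by simp [zS, zA])
  rw [h1]
  exact zS_mem (mem_A z)
theorem mem_B (z : Fin 9 → ℝ) : -zB z ∈ Gam z := by
  refine Or.inl ?_
  simp only [Half, mem_union]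
  exact Or.inl (Or.inr (left_mem_segment ℝ _ _))
theorem mem_C (z : Fin 9 → ℝ) : zA z + zC z ∈ Gam z := by
  have h1 : zA z + zC z = zS z (-zB z) :=
    ext3 (by simp [zS, zA, zB, zC]) (by simp [zS, zA, zB, zC]) (by simp [zS, zA, zB, zC])
  rw [h1]
  exact zS_mem (mem_B z)

theorem stripA_normA (z : Fin 9 → ℝ) : ‖zA z‖ ^ 2 = z 0 ^ 2 + 1 := by
  rw [normsq3]
  simp [zA]
  ring

theorem stripA_normA_pos (z : Fin 9 → ℝ) : 0 < ‖zA z‖ := by
  have h1 := stripA_normA z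
  rcases (norm_nonneg (zA z)).eq_or_lt with h | h
  · rw [← h] at h1
    nlinarith [sq_nonneg (z 0)]
  · exact h

theorem stripA_zS_H (z : Fin 9 → ℝ) (t : ℝ) : zS z (zH z t) = zH z (-t) := by
  have hA := (stripA_normA_pos z).ne'
  unfold zS zH
  generalize ‖zA z‖ = A at hA
  refine ext3 ?_ ?_ ?_
  · simp [zA, zI, zF]
  · simp [zA, zI, zF]
    field_simp
    ring
  · simp [zA, zI, zF]
    field_simp
    ring

theorem mem_H {z : Fin 9 → ℝ} (hn : Num z) {t : ℝ} (ht : |t| ≤ z 4) : zH z t ∈ Gam z := by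
  have key : ∀ s, 0 ≤ s → s ≤ z 4 → zH z s ∈ Gam z := fun s h0 h1 =>
    Or.inl (Or.inr ⟨s, ⟨h0, h1⟩, rfl⟩)
  rcases le_total 0 t with h0 | h0
  · exact key t h0 (abs_le.1 ht).2
  · have h1 := zS_mem (key (-t) (by linarith) (by linarith [(abs_le.1 ht).1]))
    rwa [stripA_zS_H, neg_neg] at h1

/-- a point with radial component at least `R` and a height away from both ends -/
theorem stripA_point {z : Fin 9 → ℝ} {v p : E} (hp : p ∈ Gam z) {R s g h : ℝ} (hR : 0 ≤ R)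
    (hv : ‖v‖ ^ 2 = R ^ 2 + s ^ 2) (hs : |s| ≤ 1.3 * R) (ha : ⟪zA z, v⟫ = ‖zA z‖ * s)
    (hpv : ⟪p, v⟫ = g + h * s) (hg : R ≤ g) (h1 : 0.5 ≤ h) (h2 : h ≤ ‖zA z‖ - 0.5) :
    Wd (Gam z) v := by
  have hle : ‖v‖ ≤ R + 0.5 * |s| := by
    apply abs_le_of_sq_le_sq' _ (by positivity) |>.2
    rw [hv, ← sq_abs s]
    nlinarith [abs_nonneg s, mul_le_mul_of_nonneg_left hs (abs_nonneg s),
      mul_nonneg hR (abs_nonneg s)]
  rcases le_total 0 s with h0 | h0
  · refine ⟨p, hp, 0, mem_A z, ?_⟩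
    rw [sub_zero, hpv]
    rw [abs_of_nonneg h0] at hle
    nlinarith [mul_le_mul_of_nonneg_right h1 h0]
  · refine ⟨p, hp, zA z, mem_D z, ?_⟩
    rw [inner_sub_left, hpv, ha]
    rw [abs_of_nonpos h0] at hle
    nlinarith [mul_le_mul_of_nonneg_right h2 (neg_nonneg.2 h0)]

/-- the radial component of the corner point -/
theorem stripA_corner {c σ cr sr m : ℝ} (hc : 0 ≤ c) (h1 : c ^ 2 + σ ^ 2 = 1)
    (h2 : cr ^ 2 + sr ^ 2 = 1) (hσ : σ ≤ 0.8 * c) (hsr : sr ≤ σ) (hcr1 : 0.87 ≤ cr)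
    (hcr2 : cr ≤ 0.872) (hsr1 : 0.49 ≤ sr) (hm : 0.098 ≤ m) :
    1 ≤ cr * c + sr * σ + m * (cr * σ - sr * c) := by
  have hcle : c ≤ cr := by
    apply abs_le_of_sq_le_sq' _ (by linarith) |>.2
    nlinarith
  have hw0 : 0 ≤ cr * σ - sr * c := by nlinarith
  have hw1 : cr * σ - sr * c ≤ 0.19 := by nlinarith
  have hu0 : 0 ≤ cr * c + sr * σ := by nlinarith
  have huw : (cr * c + sr * σ) ^ 2 + (cr * σ - sr * c) ^ 2 = 1 := by
    have : (cr * c + sr * σ) ^ 2 + (cr * σ - sr * c) ^ 2 = (cr ^ 2 + sr ^ 2) * (c ^ 2 + σ ^ 2) := by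
      ring
    rw [this, h1, h2, one_mul]
  generalize cr * c + sr * σ = u at *
  generalize cr * σ - sr * c = w at *
  have hu1 : 0.98 ≤ u := by
    apply abs_le_of_sq_le_sq' _ hu0 |>.2
    nlinarith
  have h3 : 1 - 0.098 * w ≤ u := by
    apply abs_le_of_sq_le_sq' _ hu0 |>.2
    nlinarith
  nlinarith

theorem stripA_bounds {y A α β s v1 v2 : ℝ} (hy : |y - 1.015191099| ≤ 1 / 1000000)
    (hA : 1.424 ≤ A) (h1 : |v1 - 1.0152 * v2| ≤ 1.13 * α) (h2 : |1.0152 * v1 + v2| ≤ 1.8 * α)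
    (hβA : A * β = -(v1 - y * v2)) (hsA : A * s = y * v1 + v2) (hβ0 : 0 ≤ β) :
    0 ≤ α ∧ β ≤ 0.8 * α ∧ |s| ≤ 1.3 * α := by
  rw [abs_le] at hy h1 h2
  have hα0 : 0 ≤ α := by linarith [h1.1, h1.2]
  have hv1 : |v1| ≤ 1.5 * α := abs_le.2 ⟨by linarith [h1.1, h2.1], by linarith [h1.2, h2.2]⟩
  have hv2 : |v2| ≤ 1.5 * α := abs_le.2 ⟨by linarith [h1.2, h2.1], by linarith [h1.1, h2.2]⟩
  have hd : |y - 1.0152| ≤ 1 / 10000 := abs_le.2 ⟨by linarith [hy.1], by linarith [hy.2]⟩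
  have he1 : |(y - 1.0152) * v1| ≤ 1 / 10000 * (1.5 * α) := by
    rw [abs_mul]
    exact mul_le_mul hd hv1 (abs_nonneg _) (by norm_num)
  have he2 : |(y - 1.0152) * v2| ≤ 1 / 10000 * (1.5 * α) := by
    rw [abs_mul]
    exact mul_le_mul hd hv2 (abs_nonneg _) (by norm_num)
  rw [abs_le] at he1 he2
  refine ⟨hα0, ?_, ?_⟩
  · have h3 : A * β ≤ 1.131 * α := by rw [hβA]; linarith [h1.1, he2.2]
    have h4 : 1.424 * β ≤ A * β := mul_le_mul_of_nonneg_right hA hβ0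
    linarith
  · have h3 : A * |s| ≤ 1.801 * α := by
      rw [← abs_of_pos (show 0 < A by linarith), ← abs_mul, hsA, abs_le]
      constructor
      · linarith [h2.1, he1.1]
      · linarith [h2.2, he1.2]
    have h4 : 1.424 * |s| ≤ A * |s| := mul_le_mul_of_nonneg_right hA (abs_nonneg s)
    linarith

theorem stripA_height {A te r t : ℝ} (hA : 1.424 ≤ A) (h1 : -0.21 ≤ te) (h2 : te ≤ 0)
    (hr : r ≤ 0.52) (h0 : 0 ≤ t) (ht : t ≤ r) :
    A / 2 ≤ A / 2 - te * t ∧ A / 2 - te * t ≤ A / 2 + 0.11 := by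
  constructor <;> nlinarith

theorem stripA_small {x se ce : ℝ} (hx : |x - 0.10115| ≤ 1 / 10000)
    (hse : |se - (-0.20392)| ≤ 1 / 10000) (hce : |ce - 0.97899| ≤ 1 / 10000) :
    0.098 ≤ x * ce ∧ -0.03 ≤ x * se ∧ x * se ≤ 0 := by
  rw [abs_le] at hx hse hce
  refine ⟨?_, ?_, ?_⟩ <;> nlinarith [hx.1, hx.2, hse.1, hse.2, hce.1, hce.2]

theorem stripA_angle {α β R r : ℝ} (hα : 0 ≤ α) (hβ : 0 ≤ β) (hR : 0 < R)
    (hunit : (α / R) ^ 2 + (β / R) ^ 2 = 1) (hr0 : 0 ≤ r) (hr1 : r ≤ 1) (h : β / R ≤ sin r) :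
    ∃ t, 0 ≤ t ∧ t ≤ r ∧ R ≤ cos t * α + sin t * β := by
  have hq0 : 0 ≤ β / R := div_nonneg hβ hR.le
  have hq1 : β / R ≤ 1 := h.trans (sin_le_one r)
  refine ⟨arcsin (β / R), arcsin_nonneg.2 hq0, ?_, ?_⟩
  · have h3 := arcsin_le_arcsin h
    rwa [arcsin_sin (by linarith [pi_pos]) (by linarith [pi_gt_three])] at h3
  · rw [sin_arcsin (by linarith) hq1, cos_arcsin,
      show 1 - (β / R) ^ 2 = (α / R) ^ 2 by linarith, Real.sqrt_sq (div_nonneg hα hR.le)]
    have h4 : α / R * α + β / R * β = R * ((α / R) ^ 2 + (β / R) ^ 2) := by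
      field_simp
    rw [h4, hunit, mul_one]

/-- coordinates in the frame adapted to the large helix -/
theorem stripA_coords (z : Fin 9 → ℝ) (v : E) {α β s : ℝ} (hα : α = -v 0)
    (hβA : ‖zA z‖ * β = -(v 1 - z 0 * v 2)) (hsA : ‖zA z‖ * s = z 0 * v 1 + v 2) :
    ⟪zA z, v⟫ = ‖zA z‖ * s ∧
    (∀ t, ⟪zH z t, v⟫ = cos t * α + sin t * β + (‖zA z‖ / 2 - tan (z 3) * t) * s) ∧
    ⟪zP z, v⟫ = sin (z 3) * s + cos (z 3) * (sin (z 4) * α - cos (z 4) * β) ∧
    ‖v‖ ^ 2 = α ^ 2 + β ^ 2 + s ^ 2 := by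
  have hA := stripA_normA_pos z
  have hA2 := stripA_normA z
  have hI : ⟪zI, v⟫ = α := by simp [inner3, zI, hα]
  have hF : ⟪zF z, v⟫ = -(‖zA z‖ * β) := by
    rw [hβA]
    simp [inner3, zF]
    ring
  have ha : ⟪zA z, v⟫ = ‖zA z‖ * s := by
    rw [hsA]
    simp [inner3, zA]
  refine ⟨ha, fun t => ?_, ?_, ?_⟩
  · rw [zH, inner_add_left, inner_sub_left, real_inner_smul_left, real_inner_smul_left,
      real_inner_smul_left, hI, hF, ha]
    field_simp
    ring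
  · rw [zP, inner_add_left, real_inner_smul_left, real_inner_smul_left, inner_add_left,
      real_inner_smul_left, real_inner_smul_left, hI, hF, ha]
    field_simp
    ring
  · have h3 : ‖zA z‖ ^ 2 * (β ^ 2 + s ^ 2) = ‖zA z‖ ^ 2 * (v 1 * v 1 + v 2 * v 2) := by
      have : ‖zA z‖ ^ 2 * (β ^ 2 + s ^ 2) = (‖zA z‖ * β) ^ 2 + (‖zA z‖ * s) ^ 2 := by ring
      rw [this, hβA, hsA, hA2]
      ring
    have h4 := mul_left_cancel₀ (pow_pos hA 2).ne' h3
    rw [normsq3, hα]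
    linarith

theorem stripA_half {z : Fin 9 → ℝ} (hn : Num z) (hc : Close z) {v : E} (hv : Strip2 v)
    (hβ : v 1 - z 0 * v 2 ≤ 0) : Wd (Gam z) v := by
  have hA := stripA_normA_pos z
  have hr : |z 4 - 0.512207581| ≤ 1 / 1000000 := hn.box 4
  have hr0 : 0 ≤ z 4 := by linarith [(abs_le.1 hr).1]
  have hr1 : z 4 ≤ 0.52 := by linarith [(abs_le.1 hr).2]
  have hnA : 1.424 ≤ ‖zA z‖ := by linarith [(abs_le.1 hn.nA).1]
  have hte1 : -0.21 ≤ tan (z 3) := by linarith [(abs_le.1 hn.te).1]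
  have hte2 : tan (z 3) ≤ 0 := by linarith [(abs_le.1 hn.te).2]
  obtain ⟨α, hα⟩ : ∃ α, α = -v 0 := ⟨_, rfl⟩
  obtain ⟨β, hβ0, hβA⟩ : ∃ β, 0 ≤ β ∧ ‖zA z‖ * β = -(v 1 - z 0 * v 2) :=
    ⟨-(v 1 - z 0 * v 2) / ‖zA z‖, div_nonneg (neg_nonneg.2 hβ) hA.le, mul_div_cancel₀ _ hA.ne'⟩
  obtain ⟨s, hsA⟩ : ∃ s, ‖zA z‖ * s = z 0 * v 1 + v 2 := ⟨_, mul_div_cancel₀ _ hA.ne'⟩
  obtain ⟨hα0, hβ1, hs1⟩ := stripA_bounds (hn.box 0) hnA (hα ▸ hv.1) (hα ▸ hv.2) hβA hsA hβ0
  obtain ⟨ha, hH, hP, hvn⟩ := stripA_coords z v hα hβA hsA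
  obtain ⟨R, hR0, hR2⟩ : ∃ R : ℝ, 0 ≤ R ∧ R ^ 2 = α ^ 2 + β ^ 2 :=
    ⟨√(α ^ 2 + β ^ 2), Real.sqrt_nonneg _, Real.sq_sqrt (by positivity)⟩
  rw [← hR2] at hvn
  have hαR : α ≤ R := (abs_le_of_sq_le_sq' (by rw [hR2]; linarith only [sq_nonneg β]) hR0).2
  have hs2 : |s| ≤ 1.3 * R := by linarith only [hs1, hαR]
  rcases hR0.eq_or_lt with hRz | hRp
  · have h3 : s = 0 := by
      rw [← hRz, mul_zero] at hs2
      exact abs_nonpos_iff.1 hs2
    have h4 : ‖v‖ = 0 := by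
      rw [← hRz, h3] at hvn
      simpa using hvn
    exact ⟨0, mem_A z, 0, mem_A z, by rw [h4, sub_zero, inner_zero_left]⟩
  have hunit : (α / R) ^ 2 + (β / R) ^ 2 = 1 := by
    rw [div_pow, div_pow, ← add_div, ← hR2, div_self (pow_pos hRp 2).ne']
  rcases le_total (β / R) (sin (z 4)) with hcase | hcase
  · obtain ⟨t, ht0, ht1, hg⟩ := stripA_angle hα0 hβ0 hRp hunit hr0 (by linarith only [hr1]) hcase
    obtain ⟨h3, h4⟩ := stripA_height hnA hte1 hte2 hr1 ht0 ht1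
    exact stripA_point (mem_H hn (t := t) (by rwa [abs_of_nonneg ht0])) hR0 hvn hs2 ha (hH t) hg
      (by linarith only [h3, hnA]) (by linarith only [h4, hnA])
  · have hB : ⟪-zB z, v⟫ = (cos (z 4) * α + sin (z 4) * β +
        zxP z * cos (z 3) * (cos (z 4) * β - sin (z 4) * α)) +
        (‖zA z‖ / 2 - tan (z 3) * z 4 - zxP z * sin (z 3)) * s := by
      have h3 : -zB z = zH z (z 4) - zxP z • zP z := by rw [hc.k2]; abel
      rw [h3, inner_sub_left, real_inner_smul_left, hH, hP]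
      ring
    obtain ⟨hm, ht3, ht4⟩ := stripA_small hn.xP hn.se hn.ce
    obtain ⟨h5, h6⟩ := stripA_height hnA hte1 hte2 hr1 hr0 le_rfl
    have hk := stripA_corner (div_nonneg hα0 hR0) hunit (cos_sq_add_sin_sq (z 4))
      (by rw [← mul_div_assoc]; exact div_le_div_of_nonneg_right hβ1 hR0) hcase
      (by linarith only [(abs_le.1 hn.cr).1]) (by linarith only [(abs_le.1 hn.cr).2])
      (by linarith only [(abs_le.1 hn.sr).1]) hm
    refine stripA_point (mem_B z) hR0 hvn hs2 ha hB ?_ (by linarith only [h5, ht4, hnA])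
      (by linarith only [h6, ht3, hnA])
    have h3 := mul_le_mul_of_nonneg_left hk hR0
    have h4 : R * (cos (z 4) * (α / R) + sin (z 4) * (β / R) +
        zxP z * cos (z 3) * (cos (z 4) * (β / R) - sin (z 4) * (α / R))) =
        cos (z 4) * α + sin (z 4) * β +
        zxP z * cos (z 3) * (cos (z 4) * β - sin (z 4) * α) := by
      field_simp
    rw [h4, mul_one] at h3
    exact h3

theorem wd_strip2 {z : Fin 9 → ℝ} (hn : Num z) (hc : Close z) {v : E} (hv : Strip2 v) :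
    Wd (Gam z) v := by
  rcases le_total (v 1 - z 0 * v 2) 0 with h | h
  · exact stripA_half hn hc hv h
  · have h1 : Strip2 (-mir v) := by
      obtain ⟨h1, h2⟩ := hv
      constructor
      · have : (-mir v) 1 - 1.0152 * (-mir v) 2 = -(v 1 - 1.0152 * v 2) := by
          simp
          ring
        rw [this, abs_neg]
        simpa using h1
      · have : 1.0152 * (-mir v) 1 + (-mir v) 2 = -(1.0152 * v 1 + v 2) := by
          simp
          ring
        rw [this, abs_neg]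
        simpa using h2
    have h2 := (stripA_half hn hc h1 (by simp; linarith)).neg.mir
    rwa [neg_neg, mir_mir] at h2

theorem stripA_cap {z : Fin 9 → ℝ} (hn : Num z) {v : E} (hv : Cap v) (h0 : 0 ≤ v 2) :
    Wd (Gam z) v := by
  have hy : |z 0 - 1.015191099| ≤ 1 / 1000000 := hn.box 0
  have hb1 : |z 1 - 0.823130967| ≤ 1 / 1000000 := hn.box 1
  have hb2 : |z 2 - (-0.193792718)| ≤ 1 / 1000000 := hn.box 2
  rw [abs_le] at hy hb1 hb2
  obtain ⟨h1, h2⟩ := hv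
  rw [abs_of_nonneg h0] at h1 h2
  have hμ : ∀ μ : ℝ, |v 0| ≤ μ → |v 1| ≤ μ → μ ≤ 0.3 * v 2 → ‖v‖ ≤ v 2 + 0.3 * μ := by
    intro μ ha hb hc
    have hμ0 : 0 ≤ μ := (abs_nonneg _).trans ha
    apply abs_le_of_sq_le_sq' _ (by positivity) |>.2
    have h3 : v 0 * v 0 ≤ μ * μ := by
      rw [← abs_mul_abs_self (v 0)]
      exact mul_le_mul ha ha (abs_nonneg _) hμ0
    have h4 : v 1 * v 1 ≤ μ * μ := by
      rw [← abs_mul_abs_self (v 1)]
      exact mul_le_mul hb hb (abs_nonneg _) hμ0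
    rw [normsq3]
    nlinarith [mul_le_mul_of_nonneg_left hc hμ0]
  rcases le_total |v 1| |v 0| with hc | hc
  · have h3 := hμ _ le_rfl hc h1
    have h4 : |z 2 * v 1| ≤ 0.2 * |v 0| := by
      rw [abs_mul]
      exact mul_le_mul (abs_le.2 ⟨by linarith [hb2.1], by linarith [hb2.2]⟩) hc (abs_nonneg _)
        (by norm_num)
    have h5 := (abs_le.1 h4).2
    rcases le_total 0 (v 0) with hs | hs
    · refine ⟨zA z, mem_D z, zA z + zC z, mem_C z, ?_⟩
      have h6 : ⟪zA z - (zA z + zC z), v⟫ = z 1 * v 0 - z 2 * v 1 + v 2 := by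
        simp [inner3, zC]
        ring
      rw [abs_of_nonneg hs] at h3 h5
      rw [h6]
      nlinarith [hb1.1]
    · refine ⟨-zB z, mem_B z, 0, mem_A z, ?_⟩
      have h6 : ⟪-zB z - 0, v⟫ = -(z 1 * v 0) - z 2 * v 1 + v 2 := by
        simp [inner3, zB]
        ring
      rw [abs_of_nonpos hs] at h3 h5
      rw [h6]
      nlinarith [hb1.1]
  · have h3 := hμ _ hc le_rfl h2
    rcases le_total 0 (v 1) with hs | hs
    · refine ⟨zA z, mem_D z, 0, mem_A z, ?_⟩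
      have h6 : ⟪zA z - 0, v⟫ = z 0 * v 1 + v 2 := by
        simp [inner3, zA]
      rw [abs_of_nonneg hs] at h3
      rw [h6]
      nlinarith [hy.1]
    · refine ⟨-zB z, mem_B z, zA z + zC z, mem_C z, ?_⟩
      have h6 : ⟪-zB z - (zA z + zC z), v⟫ = -((z 0 + 2 * z 2) * v 1) + v 2 := by
        simp [inner3, zA, zB, zC]
        ring
      rw [abs_of_nonpos hs] at h3
      rw [h6]
      nlinarith [hy.1, hb2.1]

theorem wd_cap {z : Fin 9 → ℝ} (hn : Num z) {v : E} (hv : Cap v) : Wd (Gam z) v := by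
  rcases le_total 0 (v 2) with h | h
  · exact stripA_cap hn hv h
  · have h1 : Cap (-v) := by
      obtain ⟨h1, h2⟩ := hv
      constructor
      · simpa using h1
      · simpa using h2
    have h2 := (stripA_cap hn h1 (by simpa using h)).neg
    rwa [neg_neg] at h2

end Pool.Agent.Lib.MP_ee7495_gt.Y
end
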