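import Mathlib
import Pool.Agent.Lib.MP_ee7495_gt.Y.UStripA

set_option autoImplicit false

open scoped RealInnerProductSpace
open Real Set

namespace Pool.Agent.Lib.MP_ee7495_gt.Y

/-- Integer vectors. -/
abbrev QG := ℤ × ℤ × ℤ

/-- Scalar product of integer vectors. -/
def qdot (a b : QG) : ℤ := a.1 * b.1 + a.2.1 * b.2.1 + a.2.2 * b.2.2

/-- The real vector with the given integer coordinates. -/
noncomputable def qv (g : QG) : E := vec g.1 g.2.1 g.2.2

/-- Points of the first half of the curve in units of `10⁻⁵`. -/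
def qbase : ℕ → QG
  | 1 => (-82313, 19379, 100000)
  | 2 => (-10116, -551, 15990)
  | 3 => (-26299, -366, 38197)
  | 4 => (-36155, 356, 49893)
  | 5 => (-47592, 2448, 62883)
  | 6 => (-59028, 7101, 75190)
  | 7 => (-87167, 23967, 92403)
  | 8 => (-96738, 36784, 71790)
  | 9 => (-100000, 50760, 50000)
  | _ => (0, 0, 0)

/-- Points of both halves. -/
def qpt (i : ℕ) : QG :=
  if i < 10 then qbase i
  else ((qbase (i - 10)).1, 101519 - (qbase (i - 10)).2.1, 100000 - (qbase (i - 10)).2.2)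

/-- Linear forms that cut out the strips. -/
def qforms : ℕ → List QG
  | 0 => [(-11300, -10000, 10152), (-11300, 10000, -10152), (-18000, -10152, -10000),
      (-18000, 10152, 10000)]
  | 1 => [(-50789, -15114, 32558), (34842, 25992, -44324), (-82, 5528, 2874),
      (-1642, -4352, -4146)]
  | 2 => [(100000, 64418, 86312), (100000, 12878, -106928), (-100000, 64418, 86312),
      (-100000, 12878, -106928)]
  | 3 => [(10, 0, 3), (-10, 0, 3), (0, 10, 3), (0, -10, 3)]
  | _ => [(10, 0, -3), (-10, 0, -3), (0, 10, -3), (0, -10, -3)]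

/-- Subdivision trees. -/
inductive QT where
  | s (k : ℕ) : QT
  | p (i j : ℕ) : QT
  | n (l r : QT) : QT

/-- Lower bound for the scalar product with a difference of two points. -/
def qlow (i j : ℕ) (g : QG) : ℤ :=
  qdot (qpt i) g - qdot (qpt j) g - 24 * (|g.1| + |g.2.1| + |g.2.2|)

def qokp (i j : ℕ) (g : QG) : Bool :=
  decide (0 ≤ qlow i j g) && decide (10000000000 * qdot g g ≤ qlow i j g * qlow i j g)

def qdbl (a : QG) : QG := (2 * a.1, 2 * a.2.1, 2 * a.2.2)

def qadd (a b : QG) : QG := (a.1 + b.1, a.2.1 + b.2.1, a.2.2 + b.2.2)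

/-- The checker. -/
def qchk : QT → QG → QG → QG → Bool
  | .s k, a, b, c => (qforms k).all fun f =>
      decide (0 ≤ qdot f a) && decide (0 ≤ qdot f b) && decide (0 ≤ qdot f c)
  | .p i j, a, b, c => qokp i j a && qokp i j b && qokp i j c
  | .n l r, a, b, c => qchk l (qdbl c) (qdbl a) (qadd a b) && qchk r (qdbl b) (qdbl c) (qadd a b)

open QT in
def qT1 : QT :=
  n (n (n (p 9 0) (n (n (p 1 0) (n (s 3) (p 1 0))) (p 1 0))) (s 0)) (n (n (n (p 12 0)
    (p 11 0)) (p 12 0)) (n (n (p 10 0) (n (n (p 1 0) (s 3)) (p 1 0))) (n (p 9 0) (p 10 0))))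

open QT in
def qT2 : QT :=
  n (n (n (n (p 11 10) (n (p 11 0) (n (n (n (n (n (s 1) (n (p 11 4) (n (p 11 10) (p 11 4))))
    (s 1)) (p 11 4)) (n (n (n (p 11 10) (p 11 5)) (p 11 1)) (n (p 11 10) (n (n (p 11 10)
    (p 11 5)) (p 11 10))))) (s 1)))) (n (n (p 11 10) (n (s 4) (p 11 10))) (p 11 10))) (s 0))
    (n (n (n (n (n (p 11 4) (n (p 11 2) (n (s 2) (p 11 2)))) (p 11 5)) (p 11 0)) (n (n (n (n
    (n (s 2) (n (p 14 0) (s 2))) (s 2)) (p 15 3)) (n (n (n (s 2) (p 13 3)) (s 2)) (n (s 2) (n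
    (n (s 2) (p 14 2)) (s 2))))) (n (n (s 2) (p 11 5)) (n (n (s 2) (p 15 3)) (s 2))))) (n (n
    (p 11 1) (n (n (p 11 1) (s 4)) (p 11 1))) (n (n (n (p 11 3) (n (p 11 6) (p 11 4)))
    (p 11 0)) (p 11 6))))

theorem uquad_chk1 : qchk qT1 (-1, 0, 0) (0, 1, 0) (0, 0, 1) = true := by decide +kernel

theorem uquad_chk2 : qchk qT2 (-1, 0, 0) (0, 1, 0) (0, 0, -1) = true := by decide +kernel

/-- A point within `e` of an integer point. -/
def QAp (p : E) (g : QG) (e : ℝ) : Prop :=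
  |p 0 - (g.1 : ℝ) / 100000| ≤ e ∧ |p 1 - (g.2.1 : ℝ) / 100000| ≤ e ∧
    |p 2 - (g.2.2 : ℝ) / 100000| ≤ e

theorem uquad_nv {p : E} {x y w : ℝ} {g : QG} (h : Nv p x y w) (e0 : x = (g.1 : ℝ) / 100000)
    (e1 : y = (g.2.1 : ℝ) / 100000) (e2 : w = (g.2.2 : ℝ) / 100000) : QAp p g (1 / 10000) := by
  subst e0 e1 e2
  exact h

theorem uquad_base {z : Fin 9 → ℝ} (hn : Num z) (i : ℕ) :
    ∃ p ∈ Half z, QAp p (qbase i) (1 / 10000) := by
  have h1 := abs_le.1 (hn.box 1)
  have h2 := abs_le.1 (hn.box 2)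
  have h4 := abs_le.1 (hn.box 4)
  have h8 := abs_le.1 (hn.box 8)
  have e1 : z0 1 = 0.823130967 := rfl
  have e2 : z0 2 = -0.193792718 := rfl
  have e4 : z0 4 = 0.512207581 := rfl
  have e8 : z0 8 = 0.230773213 := rfl
  rw [e1] at h1
  rw [e2] at h2
  rw [e4] at h4
  rw [e8] at h8
  have p4 : 0 ≤ z 4 := by linarith [h4.1]
  have p8 : 0 ≤ z 8 := by linarith [h8.1]
  have zero : ∃ p ∈ Half z, QAp p (0, 0, 0) (1 / 10000) :=
    ⟨0, .inl (.inl (.inl (.inl (.inl (.inl (left_mem_segment ℝ _ _)))))), by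
      refine ⟨?_, ?_, ?_⟩ <;> simp⟩
  match i with
  | 0 => exact zero
  | 1 =>
    refine ⟨-zB z, .inl (.inr (left_mem_segment ℝ _ _)), ?_, ?_, ?_⟩
    · have e : (-zB z) 0 = -z 1 := rfl
      rw [e, abs_le]
      simp only [qbase]
      constructor <;> push_cast <;> linarith [h1.1, h1.2]
    · have e : (-zB z) 1 = -z 2 := rfl
      rw [e, abs_le]
      simp only [qbase]
      constructor <;> push_cast <;> linarith [h2.1, h2.2]
    · have e : (-zB z) 2 = -(-1) := rfl
      rw [e, abs_le]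
      simp only [qbase]
      constructor <;> norm_num
  | 2 =>
    exact ⟨_, .inl (.inl (.inl (.inl (.inl (.inl (right_mem_segment ℝ _ _)))))),
      uquad_nv hn.vYD (by norm_num [qbase]) (by norm_num [qbase]) (by norm_num [qbase])⟩
  | 3 =>
    exact ⟨_, .inl (.inl (.inl (.inl (.inr (left_mem_segment ℝ _ _))))),
      uquad_nv hn.vY0 (by norm_num [qbase]) (by norm_num [qbase]) (by norm_num [qbase])⟩
  | 4 =>
    exact ⟨_, .inl (.inl (.inl (.inl (.inr (right_mem_segment ℝ _ _))))),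
      uquad_nv hn.vX1 (by norm_num [qbase]) (by norm_num [qbase]) (by norm_num [qbase])⟩
  | 5 =>
    exact ⟨_, .inl (.inl (.inl (.inr ⟨0, ⟨by linarith, p8⟩, rfl⟩))),
      uquad_nv hn.vX0 (by norm_num [qbase]) (by norm_num [qbase]) (by norm_num [qbase])⟩
  | 6 =>
    exact ⟨_, .inl (.inl (.inr (left_mem_segment ℝ _ _))),
      uquad_nv hn.vX2 (by norm_num [qbase]) (by norm_num [qbase]) (by norm_num [qbase])⟩
  | 7 =>
    exact ⟨_, .inl (.inr (right_mem_segment ℝ _ _)),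
      uquad_nv hn.vHr (by norm_num [qbase]) (by norm_num [qbase]) (by norm_num [qbase])⟩
  | 8 =>
    exact ⟨_, .inr ⟨z 4 / 2, ⟨by linarith, by linarith⟩, rfl⟩,
      uquad_nv hn.vHh (by norm_num [qbase]) (by norm_num [qbase]) (by norm_num [qbase])⟩
  | 9 =>
    exact ⟨_, .inr ⟨0, ⟨le_rfl, p4⟩, rfl⟩,
      uquad_nv hn.vH0 (by norm_num [qbase]) (by norm_num [qbase]) (by norm_num [qbase])⟩
  | k + 10 => exact zero

theorem uquad_pt {z : Fin 9 → ℝ} (hn : Num z) (i : ℕ) :
    ∃ p ∈ Gam z, QAp p (qpt i) (12 / 100000) := by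
  unfold qpt
  split_ifs with hi
  · obtain ⟨p, hp, h0, h1, h2⟩ := uquad_base hn i
    exact ⟨p, .inl hp, h0.trans (by norm_num), h1.trans (by norm_num), h2.trans (by norm_num)⟩
  · obtain ⟨p, hp, h0, h1, h2⟩ := uquad_base hn (i - 10)
    have hy := abs_le.1 (hn.box 0)
    have e0 : z0 0 = 1.015191099 := rfl
    rw [e0] at hy
    have c0 : zS z p 0 = p 0 := by simp [zS, zA]
    have c1 : zS z p 1 = z 0 - p 1 := by simp [zS, zA]
    have c2 : zS z p 2 = 1 - p 2 := by simp [zS, zA]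
    refine ⟨zS z p, .inr ⟨p, hp, rfl⟩, ?_, ?_, ?_⟩
    · rw [c0]
      exact h0.trans (by norm_num)
    · rw [c1, abs_le]
      have := abs_le.1 h1
      constructor <;> push_cast <;> linarith [hy.1, hy.2, this.1, this.2]
    · rw [c2, abs_le]
      have := abs_le.1 h2
      constructor <;> push_cast <;> linarith [this.1, this.2]

theorem uquad_term {x x' a a' g : ℝ} (h : |x - a / 100000| ≤ 12 / 100000)
    (h' : |x' - a' / 100000| ≤ 12 / 100000) :
    a * g - a' * g - 24 * |g| ≤ 100000 * ((x - x') * g) := by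
  have h1 := abs_le.1 h
  have h2 := abs_le.1 h'
  rcases le_total 0 g with hg | hg
  · rw [abs_of_nonneg hg]
    nlinarith [h1.1, h2.2]
  · rw [abs_of_nonpos hg]
    nlinarith [h1.2, h2.1]

theorem uquad_okp {p q : E} {i j : ℕ} (hp : QAp p (qpt i) (12 / 100000))
    (hq : QAp q (qpt j) (12 / 100000)) {g : QG} (h : qokp i j g = true) :
    ‖qv g‖ ≤ ⟪p - q, qv g⟫ := by
  simp only [qokp, Bool.and_eq_true, decide_eq_true_eq] at h
  have h1 : (0 : ℝ) ≤ (qlow i j g : ℝ) := by exact_mod_cast h.1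
  have h2 : (10000000000 : ℝ) * (qdot g g : ℝ) ≤ (qlow i j g : ℝ) * (qlow i j g : ℝ) := by
    exact_mod_cast h.2
  have h3 : (qlow i j g : ℝ) ≤ 100000 * ⟪p - q, qv g⟫ := by
    have t0 := uquad_term (g := g.1) hp.1 hq.1
    have t1 := uquad_term (g := g.2.1) hp.2.1 hq.2.1
    have t2 := uquad_term (g := g.2.2) hp.2.2 hq.2.2
    rw [inner3]
    simp only [qlow, qdot, qv, vec_0, vec_1, vec_2, PiLp.sub_apply]
    push_cast
    linarith
  have h4 : ‖qv g‖ ^ 2 = (qdot g g : ℝ) := by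
    rw [normsq3]
    simp only [qdot, qv, vec_0, vec_1, vec_2]
    push_cast
    ring
  have h5 : 100000 * ‖qv g‖ ≤ (qlow i j g : ℝ) := by
    refine le_of_sq_le_sq ?_ h1
    nlinarith
  linarith

/-- The simplicial cone with three integer generators. -/
def QIn (a b c : QG) (v : E) : Prop :=
  ∃ x y w : ℝ, 0 ≤ x ∧ 0 ≤ y ∧ 0 ≤ w ∧ v = x • qv a + y • qv b + w • qv c

theorem uquad_form {a b c f : QG} {v : E} (h : QIn a b c v) (ha : 0 ≤ qdot f a)
    (hb : 0 ≤ qdot f b) (hc : 0 ≤ qdot f c) :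
    0 ≤ (f.1 : ℝ) * v 0 + (f.2.1 : ℝ) * v 1 + (f.2.2 : ℝ) * v 2 := by
  obtain ⟨x, y, w, hx, hy, hw, rfl⟩ := h
  have ha' : (0 : ℝ) ≤ (qdot f a : ℝ) := by exact_mod_cast ha
  have hb' : (0 : ℝ) ≤ (qdot f b : ℝ) := by exact_mod_cast hb
  have hc' : (0 : ℝ) ≤ (qdot f c : ℝ) := by exact_mod_cast hc
  have e : (f.1 : ℝ) * (x • qv a + y • qv b + w • qv c) 0 +
      (f.2.1 : ℝ) * (x • qv a + y • qv b + w • qv c) 1 +
      (f.2.2 : ℝ) * (x • qv a + y • qv b + w • qv c) 2 =
      x * (qdot f a : ℝ) + y * (qdot f b : ℝ) + w * (qdot f c : ℝ) := by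
    simp only [qdot, qv, PiLp.add_apply, PiLp.smul_apply, vec_0, vec_1, vec_2, smul_eq_mul]
    push_cast
    ring
  rw [e]
  positivity

theorem uquad_strip {v : E} (k : ℕ)
    (h : ∀ f ∈ qforms k, 0 ≤ (f.1 : ℝ) * v 0 + (f.2.1 : ℝ) * v 1 + (f.2.2 : ℝ) * v 2) :
    Strip2 v ∨ Strip3 v ∨ Strip5 v ∨ Cap v := by
  match k with
  | 0 =>
    simp only [qforms, List.forall_mem_cons, List.not_mem_nil, false_imp_iff, implies_true,
      and_true] at h
    push_cast at h
    obtain ⟨h1, h2, h3, h4⟩ := h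
    refine .inl ⟨?_, ?_⟩ <;> rw [abs_le] <;> constructor <;> linarith
  | 1 =>
    simp only [qforms, List.forall_mem_cons, List.not_mem_nil, false_imp_iff, implies_true,
      and_true] at h
    push_cast at h
    obtain ⟨h1, h2, h3, h4⟩ := h
    refine .inr (.inl ?_)
    simp only [Strip3, inner3, On, Oe1, Oe2, vec_0, vec_1, vec_2, abs_le]
    refine ⟨?_, ?_, ?_, ?_⟩ <;> linarith
  | 2 =>
    simp only [qforms, List.forall_mem_cons, List.not_mem_nil, false_imp_iff, implies_true,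
      and_true] at h
    push_cast at h
    obtain ⟨h1, h2, h3, h4⟩ := h
    refine .inr (.inr (.inl ?_))
    unfold Strip5
    rcases abs_cases (v 0) with e | e <;>
      rcases abs_cases (0.2577 * v 1 + 0.9662 * v 2) with e' | e' <;> rw [e.1, e'.1] <;> linarith
  | 3 =>
    simp only [qforms, List.forall_mem_cons, List.not_mem_nil, false_imp_iff, implies_true,
      and_true] at h
    push_cast at h
    obtain ⟨h1, h2, h3, h4⟩ := h
    have := le_abs_self (v 2)
    refine .inr (.inr (.inr ⟨?_, ?_⟩)) <;> rw [abs_le] <;> constructor <;> linarith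
  | k + 4 =>
    simp only [qforms, List.forall_mem_cons, List.not_mem_nil, false_imp_iff, implies_true,
      and_true] at h
    push_cast at h
    obtain ⟨h1, h2, h3, h4⟩ := h
    have := neg_le_abs (v 2)
    refine .inr (.inr (.inr ⟨?_, ?_⟩)) <;> rw [abs_le] <;> constructor <;> linarith

theorem uquad_split {a b c : QG} {v : E} (h : QIn a b c v) :
    QIn (qdbl c) (qdbl a) (qadd a b) v ∨ QIn (qdbl b) (qdbl c) (qadd a b) v := by
  obtain ⟨x, y, w, hx, hy, hw, rfl⟩ := h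
  rcases le_total y x with h | h
  · refine .inl ⟨w / 2, (x - y) / 2, y, by linarith, by linarith, hy, ?_⟩
    refine ext3 ?_ ?_ ?_ <;>
      simp only [qdbl, qadd, qv, PiLp.add_apply, PiLp.smul_apply, vec_0, vec_1, vec_2,
        smul_eq_mul] <;> push_cast <;> ring
  · refine .inr ⟨(y - x) / 2, w / 2, x, by linarith, by linarith, hx, ?_⟩
    refine ext3 ?_ ?_ ?_ <;>
      simp only [qdbl, qadd, qv, PiLp.add_apply, PiLp.smul_apply, vec_0, vec_1, vec_2,
        smul_eq_mul] <;> push_cast <;> ring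

theorem uquad_sound {z : Fin 9 → ℝ} (hn : Num z) {v : E} (t : QT) :
    ∀ a b c : QG, qchk t a b c = true → QIn a b c v →
      Strip2 v ∨ Strip3 v ∨ Strip5 v ∨ Cap v ∨ Wd (Gam z) v := by
  induction t with
  | s k =>
    intro a b c h hv
    simp only [qchk, List.all_eq_true, Bool.and_eq_true, decide_eq_true_eq] at h
    rcases uquad_strip k (fun f hf => uquad_form hv (h f hf).1.1 (h f hf).1.2 (h f hf).2) with
      h1 | h1 | h1 | h1
    · exact .inl h1
    · exact .inr (.inl h1)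
    · exact .inr (.inr (.inl h1))
    · exact .inr (.inr (.inr (.inl h1)))
  | p i j =>
    intro a b c h hv
    simp only [qchk, Bool.and_eq_true] at h
    obtain ⟨p, hp, hp'⟩ := uquad_pt hn i
    obtain ⟨q, hq, hq'⟩ := uquad_pt hn j
    have ha := uquad_okp hp' hq' h.1.1
    have hb := uquad_okp hp' hq' h.1.2
    have hc := uquad_okp hp' hq' h.2
    obtain ⟨x, y, w, hx, hy, hw, rfl⟩ := hv
    refine .inr (.inr (.inr (.inr ⟨p, hp, q, hq, ?_⟩)))
    rw [inner_add_right, inner_add_right, real_inner_smul_right, real_inner_smul_right,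
      real_inner_smul_right]
    refine (norm_add₃_le).trans ?_
    rw [norm_smul, norm_smul, norm_smul, Real.norm_of_nonneg hx, Real.norm_of_nonneg hy,
      Real.norm_of_nonneg hw]
    exact add_le_add (add_le_add (mul_le_mul_of_nonneg_left ha hx)
      (mul_le_mul_of_nonneg_left hb hy)) (mul_le_mul_of_nonneg_left hc hw)
  | n l r ihl ihr =>
    intro a b c h hv
    simp only [qchk, Bool.and_eq_true] at h
    rcases uquad_split hv with h1 | h1
    · exact ihl _ _ _ h.1 h1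
    · exact ihr _ _ _ h.2 h1

/-- Away from the strips finitely many points of the curve give width at least one. -/
theorem wd_rest {z : Fin 9 → ℝ} (hn : Num z) {v : E} (h0 : v 0 ≤ 0) (h1 : 0 ≤ v 1) :
    Strip2 v ∨ Strip3 v ∨ Strip5 v ∨ Cap v ∨ Wd (Gam z) v := by
  rcases le_total 0 (v 2) with h2 | h2
  · refine uquad_sound hn qT1 _ _ _ uquad_chk1 ⟨-v 0, v 1, v 2, by linarith, h1, h2, ?_⟩
    refine ext3 ?_ ?_ ?_ <;> simp [qv]
  · refine uquad_sound hn qT2 _ _ _ uquad_chk2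
      ⟨-v 0, v 1, -v 2, by linarith, h1, by linarith, ?_⟩
    refine ext3 ?_ ?_ ?_ <;> simp [qv]

end Pool.Agent.Lib.MP_ee7495_gt.Y
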