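import Mathlib
import Pool.Agent.Lib.MP_ee7495_gt.Y.Arc
import Pool.Agent.Lib.MP_ee7495_gt.X.LPA
import Pool.Agent.Lib.MP_ee7495_gt.Y.UStripA
import Pool.Agent.Lib.MP_ee7495_gt.Y.UQuad
import Pool.Agent.Lib.MP_ee7495_gt.Y.UNum

-- part Pool.Agent.Lib.MP_ee7495_gt.Y.NrmM
section

set_option autoImplicit false

open scoped RealInnerProductSpace
open Real Set

namespace Pool.Agent.Lib.MP_ee7495_gt.Y

theorem nrmm_neg {X u w : E} {τ τ' : ℝ} (h0 : 0 ≤ τ') (h1 : τ' ≤ τ) :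
    -⟪X, τ • u + τ' • w⟫ ≤ τ * (pp (-⟪X, w⟫) - ⟪X, u⟫) := by
  rw [inner_add_right, real_inner_smul_right, real_inner_smul_right]
  have := mul_le_pp (t := -⟪X, w⟫) h0 h1
  linarith

theorem nrmm_pos {X u w : E} {τ τ' : ℝ} (h0 : 0 ≤ τ') (h1 : τ' ≤ τ) :
    ⟪X, τ • u + τ' • w⟫ ≤ τ * pp (⟪X, u⟫ + pp ⟪X, w⟫) := by
  rw [inner_add_right, real_inner_smul_right, real_inner_smul_right]
  have a := mul_le_pp (t := ⟪X, w⟫) h0 h1
  have b := mul_le_mul_of_nonneg_left (le_pp (⟪X, u⟫ + pp ⟪X, w⟫)) (h0.trans h1)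
  linarith

theorem nrmm_atom {a ζ : E} {θ c : ℝ} (hθ : θ ∈ Icc (0 : ℝ) 1) (hc : 0 ≤ c)
    (h : -⟪a, ζ⟫ ≤ c) : -⟪θ • a, ζ⟫ ≤ c := by
  rw [real_inner_smul_left]
  have a1 := mul_le_mul_of_nonneg_left h hθ.1
  have a2 := mul_le_mul_of_nonneg_right hθ.2 hc
  linarith

theorem nrmm_sum {d : Sd} {θ0 θ1 θ2 θ3 : ℝ} (h0 : θ0 ∈ Icc (0 : ℝ) 1) (h1 : θ1 ∈ Icc (0 : ℝ) 1)
    (h2 : θ2 ∈ Icc (0 : ℝ) 1) (h3 : θ3 ∈ Icc (0 : ℝ) 1) {ζ : E} {c : ℝ} {f : E → ℝ} (hc : 0 ≤ c)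
    (hf : ∀ a, 0 ≤ f a) (h : ∀ a : E, -⟪a, ζ⟫ ≤ c * f a) :
    -⟪θ0 • d.a0 + θ1 • d.a1 + θ2 • d.a2 + θ3 • d.a3, ζ⟫ ≤ c * d.s4 f := by
  have b0 := nrmm_atom h0 (mul_nonneg hc (hf d.a0)) (h d.a0)
  have b1 := nrmm_atom h1 (mul_nonneg hc (hf d.a1)) (h d.a1)
  have b2 := nrmm_atom h2 (mul_nonneg hc (hf d.a2)) (h d.a2)
  have b3 := nrmm_atom h3 (mul_nonneg hc (hf d.a3)) (h d.a3)
  rw [inner_add_left, inner_add_left, inner_add_left]
  unfold Sd.s4
  linarith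

theorem nrmm_Y {Y u w : E} {τ τ' : ℝ} (h0 : 0 ≤ τ') (h1 : τ' ≤ τ) (hY : InM Y) :
    ⟪τ • u + τ' • w, Y⟫ ≤
      τ * (29 / 100 * mx4 fun j => pp (⟪Mk j, u⟫ + pp ⟪Mk j, w⟫)) := by
  obtain ⟨s, hs0, hs1, -, -, hs⟩ := hY.spec
  have hτ : 0 ≤ τ := h0.trans h1
  set m := mx4 fun j => pp (⟪Mk j, u⟫ + pp ⟪Mk j, w⟫) with hm
  have hle : ∀ j, pp (⟪Mk j, u⟫ + pp ⟪Mk j, w⟫) ≤ m := fun j =>
    le_mx4 (fun j => pp (⟪Mk j, u⟫ + pp ⟪Mk j, w⟫)) j
  have hm0 : 0 ≤ m := (pp_nonneg _).trans (hle 0)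
  have a := hs (τ • u + τ' • w) (τ * m) fun j =>
    (nrmm_pos h0 h1).trans (mul_le_mul_of_nonneg_left (hle j) hτ)
  have b := mul_le_mul_of_nonneg_right hs1 (mul_nonneg hτ hm0)
  rw [real_inner_comm]
  linarith

theorem nrmm_GY {Y : E} (hY : InM Y) (j : Fin 4) : ⟪Gk j, Y⟫ ≤ Sd.gg j := by
  obtain ⟨s, hs0, hs1, -, -, hs⟩ := hY.spec
  have a := hs (Gk j) (100 / 29 * Sd.gg j) fun i => by
    have := inner_GM j i
    rw [real_inner_comm]
    linarith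
  have b := mul_le_mul_of_nonneg_right hs1 (gg_nonneg j)
  rw [real_inner_comm]
  linarith

theorem nrmm_sq {ζs ζe G : E} {τs τe L κ k : ℝ} (hs : ‖ζs‖ ≤ τs) (he : ‖ζe‖ ≤ τe) (hsL : τs ≤ L)
    (heL : τe ≤ L) (hG : ‖G‖ ≤ 128 / 125) (hk : 0 ≤ κ) (hk' : κ ≤ k) :
    ‖ζs + ζe + κ • G‖ ^ 2 ≤ τs * (L + 256 / 125 * k) + τe * (3 * L + 256 / 125 * k) +
      κ * (1049 / 1000 * k) := by
  have s0 : 0 ≤ τs := (norm_nonneg _).trans hs
  have e0 : 0 ≤ τe := (norm_nonneg _).trans he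
  have hκ : ‖κ • G‖ ≤ 128 / 125 * κ := by
    rw [norm_smul, Real.norm_of_nonneg hk]
    nlinarith
  have hn : ‖ζs + ζe + κ • G‖ ≤ τs + τe + 128 / 125 * κ :=
    (norm_add₃_le).trans (by linarith)
  have h1 := pow_le_pow_left₀ (norm_nonneg _) hn 2
  have a1 := mul_le_mul_of_nonneg_left hsL s0
  have a2 := mul_le_mul_of_nonneg_left hsL e0
  have a3 := mul_le_mul_of_nonneg_left heL e0
  have a4 := mul_le_mul_of_nonneg_left hk' s0
  have a5 := mul_le_mul_of_nonneg_left hk' e0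
  have a6 := mul_le_mul_of_nonneg_left hk' hk
  have a7 := mul_nonneg hk (hk.trans hk')
  nlinarith

/-- One half of the estimate on the middle piece. -/
theorem Sd.nM {d : Sd} (hv : d.Valid) (hg : d.Geo) {V q ζs ζe Y : E} {θ0 θ1 θ2 θ3 κ : ℝ}
    (j : Fin 4) (h0 : θ0 ∈ Icc (0 : ℝ) 1) (h1 : θ1 ∈ Icc (0 : ℝ) 1) (h2 : θ2 ∈ Icc (0 : ℝ) 1)
    (h3 : θ3 ∈ Icc (0 : ℝ) 1) (hV : V = d.Q + (θ0 • d.a0 + θ1 • d.a1 + θ2 • d.a2 + θ3 • d.a3))
    (hq : Sub2 d.q0 d.q1 q) (hs : d.InZ d.us ζs) (he : d.InZ d.ue ζe) (hk : 0 ≤ κ)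
    (hk' : κ ≤ d.k) (hY : InM Y) :
    -2 * ⟪V - q, ζs + ζe + κ • Gk j⟫ + ‖ζs + ζe + κ • Gk j‖ ^ 2 + ⟪ζs + ζe + κ • Gk j, Y⟫ +
      (-⟪V, q⟫ + 1 / 2 * ‖q‖ ^ 2) ≤ 0 := by
  obtain ⟨τs, τs', s0, s1, s2, hζs⟩ := hs
  obtain ⟨τe, τe', e0, e1, e2, hζe⟩ := he
  have s3 : 0 ≤ τs := s0.trans s1
  have e3 : 0 ≤ τe := e0.trans e1
  set O := θ0 • d.a0 + θ1 • d.a1 + θ2 • d.a2 + θ3 • d.a3 with hO
  have hVq : V - q = (d.Q - q) + O := by rw [hV]; abel
  have A1 : -⟪d.Q - q, ζs⟫ ≤ τs * (pp (-⟪d.wv, d.Q - q⟫) - ⟪d.Q - q, d.us⟫) := by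
    rw [hζs, real_inner_comm (d.Q - q) d.wv]
    exact nrmm_neg s0 s1
  have A2 : -⟪d.Q - q, ζe⟫ ≤ τe * (pp (-⟪d.wv, d.Q - q⟫) - ⟪d.Q - q, d.ue⟫) := by
    rw [hζe, real_inner_comm (d.Q - q) d.wv]
    exact nrmm_neg e0 e1
  have B1 : -⟪O, ζs⟫ ≤ τs * d.s4 fun a => pp (pp (-⟪a, d.wv⟫) - ⟪a, d.us⟫) :=
    nrmm_sum h0 h1 h2 h3 s3 (fun _ => pp_nonneg _) fun a => by
      rw [hζs]
      exact (nrmm_neg s0 s1).trans (mul_le_mul_of_nonneg_left (le_pp _) s3)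
  have B2 : -⟪O, ζe⟫ ≤ τe * d.s4 fun a => pp (pp (-⟪a, d.wv⟫) - ⟪a, d.ue⟫) :=
    nrmm_sum h0 h1 h2 h3 e3 (fun _ => pp_nonneg _) fun a => by
      rw [hζe]
      exact (nrmm_neg e0 e1).trans (mul_le_mul_of_nonneg_left (le_pp _) e3)
  have B3 : -⟪O, κ • Gk j⟫ ≤ κ * d.s4 fun a => pp (-⟪Gk j, a⟫) :=
    nrmm_sum h0 h1 h2 h3 hk (fun _ => pp_nonneg _) fun a => by
      rw [real_inner_smul_right, real_inner_comm (Gk j) a]
      have := mul_le_mul_of_nonneg_left (le_pp (-⟪Gk j, a⟫)) hk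
      linarith
  have B4 : -⟪O, q⟫ ≤ 1 * d.s4 fun a => pp (-⟪a, q⟫) :=
    nrmm_sum h0 h1 h2 h3 zero_le_one (fun _ => pp_nonneg _) fun a => by
      rw [one_mul]
      exact le_pp _
  have A3 : ⟪d.Q - q, κ • Gk j⟫ = κ * ⟪Gk j, d.Q - q⟫ := by
    rw [real_inner_smul_right, real_inner_comm]
  have C1 : ‖ζs + ζe + κ • Gk j‖ ^ 2 ≤ τs * (d.lam + 256 / 125 * d.k) +
      τe * (3 * d.lam + 256 / 125 * d.k) + κ * (1049 / 1000 * d.k) :=
    nrmm_sq (hζs ▸ hg.ns τs τs' s0 s1) (hζe ▸ hg.ne τe τe' e0 e1) s2 e2 (norm_Gk j) hk hk'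
  have D1 : ⟪ζs, Y⟫ ≤ τs * (29 / 100 * d.zms) := by
    rw [hζs]
    exact nrmm_Y s0 s1 hY
  have D2 : ⟪ζe, Y⟫ ≤ τe * (29 / 100 * d.zme) := by
    rw [hζe]
    exact nrmm_Y e0 e1 hY
  have D3 : ⟪κ • Gk j, Y⟫ ≤ κ * Sd.gg j := by
    rw [real_inner_smul_left]
    exact mul_le_mul_of_nonneg_left (nrmm_GY hY j) hk
  have F1 : κ * (d.ckj j - 2 * ⟪Gk j, d.Q - q⟫) ≤ κ * d.mC (d.Q - q) :=
    mul_le_mul_of_nonneg_left (le_mx4 (fun j => d.ckj j - 2 * ⟪Gk j, d.Q - q⟫) j) hk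
  have main : -2 * ⟪V - q, ζs + ζe + κ • Gk j⟫ + ‖ζs + ζe + κ • Gk j‖ ^ 2 +
      ⟪ζs + ζe + κ • Gk j, Y⟫ ≤
      τs * d.mA (d.Q - q) + τe * d.mB (d.Q - q) + κ * d.mC (d.Q - q) := by
    have x1 : ⟪V - q, ζs + ζe + κ • Gk j⟫ = ⟪d.Q - q, ζs⟫ + ⟪d.Q - q, ζe⟫ +
        ⟪d.Q - q, κ • Gk j⟫ + (⟪O, ζs⟫ + ⟪O, ζe⟫ + ⟪O, κ • Gk j⟫) := by
      rw [hVq, inner_add_left, inner_add_right, inner_add_right, inner_add_right,
        inner_add_right]
    have x2 : ⟪ζs + ζe + κ • Gk j, Y⟫ = ⟪ζs, Y⟫ + ⟪ζe, Y⟫ + ⟪κ • Gk j, Y⟫ := by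
      rw [inner_add_left, inner_add_left]
    rw [x1, x2, A3]
    unfold Sd.ckj at F1
    unfold Sd.mA Sd.mB Sd.cas Sd.cae Sd.gk
    linarith
  have last : -⟪V, q⟫ + 1 / 2 * ‖q‖ ^ 2 = -⟪O, q⟫ - 1 / 2 * ⟪d.Q + (d.Q - q), q⟫ := by
    rw [hV, inner_add_left d.Q O, inner_add_left d.Q (d.Q - q), inner_sub_left,
      real_inner_self_eq_norm_sq]
    ring
  have fin : d.Mc q ≤ 0 → -2 * ⟪V - q, ζs + ζe + κ • Gk j⟫ + ‖ζs + ζe + κ • Gk j‖ ^ 2 +
      ⟪ζs + ζe + κ • Gk j, Y⟫ + (-⟪V, q⟫ + 1 / 2 * ‖q‖ ^ 2) ≤ 0 := by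
    intro hM
    have p1 := mul_le_pp (t := d.mA (d.Q - q)) s3 s2
    have p2 := mul_le_pp (t := d.mB (d.Q - q)) e3 e2
    have p3 := mul_le_pp (t := d.mC (d.Q - q)) hk hk'
    unfold Sd.Mc at hM
    rw [last]
    linarith
  rcases hq with hq | hq | hq | hq
  · have p1 := mul_nonpos_of_nonneg_of_nonpos s3 hv.tm.m0s
    have p2 := mul_nonpos_of_nonneg_of_nonpos e3 hv.tm.m0e
    have p3 := mul_nonpos_of_nonneg_of_nonpos hk hv.tm.m0y
    have hQ : d.Q - q = d.Q := by rw [hq, sub_zero]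
    have hz : -⟪V, q⟫ + 1 / 2 * ‖q‖ ^ 2 = 0 := by rw [hq]; simp
    rw [hQ] at main
    rw [hz]
    linarith
  · exact fin (hq ▸ hv.tm.m1)
  · exact fin (hq ▸ hv.tm.m2)
  · exact fin (hq ▸ hv.tm.m3)

end Pool.Agent.Lib.MP_ee7495_gt.Y
end

-- part Pool.Agent.Lib.MP_ee7495_gt.X.Fac
section

set_option autoImplicit false

namespace Pool.Agent.Lib.MP_ee7495_gt.X

open Pool.Agent.Lib.MP_ee7495_gt.Y

theorem cons_valid {f : Facet} {l : List Facet} (lam j mu m1 m3 x y z1 z2 z3 m X : ℕ) (vL vR : ℤ)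
    (lam' j' mu' m1' m3' x' y' z1' z2' z3' m' X' : ℕ) (vL' vR' : ℤ)
    (h1 : fOK f 1 false lam j mu m1 m3 x y z1 z2 z3 m X vL vR = true)
    (h2 : fOK f 2 true lam' j' mu' m1' m3' x' y' z1' z2' z3' m' X' vL' vR' = true)
    (h3 : ∀ g ∈ l, g.Valid) : ∀ g ∈ f :: l, g.Valid :=
  List.forall_mem_cons.2 ⟨facet_valid h1 h2, h3⟩

end Pool.Agent.Lib.MP_ee7495_gt.X
end

-- part Pool.Agent.Lib.MP_ee7495_gt.Y.UStripB
section

set_option autoImplicit false

open scoped RealInnerProductSpace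
open Real Set

namespace Pool.Agent.Lib.MP_ee7495_gt.Y

theorem ustripB_alg {x G W H α : ℝ} (hH : 0.714 ≤ H) (hq : G ^ 2 + W ^ 2 = H * (1 - x ^ 2))
    (hx : 0.86 ≤ x) (hx1 : x ≤ 1) (hW0 : 0 ≤ W) (hW : W ≤ 0.11) (ha : 0.38 ≤ α) (ha' : α ≤ 0.68) :
    1 ≤ x + G ∨ 1 ≤ x - α * G + 0.17 * W := by
  by_contra hcon
  rw [not_or, not_le, not_le] at hcon
  obtain ⟨h1, h2⟩ := hcon
  have h3 : 1.328 * (1 - x) ≤ G ^ 2 + W ^ 2 := by
    rw [hq]
    have a1 : 1.86 * (1 - x) ≤ 1 - x ^ 2 := by nlinarith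
    have a2 : 0.714 * (1.86 * (1 - x)) ≤ H * (1 - x ^ 2) :=
      mul_le_mul hH a1 (by linarith) (by linarith)
    linarith
  have hWW : W ^ 2 ≤ 0.11 * W := by nlinarith
  rcases le_total G 0 with hG | hG
  · have a1 : 0.38 * (-G) ≤ α * (-G) := mul_le_mul_of_nonneg_right ha (by linarith)
    have a2 : -G ≤ 0.37 := by linarith
    have a3 : G ^ 2 ≤ 0.37 * (-G) := by nlinarith
    linarith
  · have a1 : α * G ≤ 0.68 * G := mul_le_mul_of_nonneg_right ha' hG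
    have a3 : G ^ 2 ≤ 0.14 * G := by nlinarith
    linarith

theorem ustripB_alg2 {p m x k s A B : ℝ} (h1 : p ^ 2 + m ^ 2 + x ^ 2 = 1)
    (hH : 0.714 ≤ k ^ 2 + s ^ 2) (hx : 0.86 ≤ x) (hW : |s * p - k * m| ≤ 0.11)
    (ha : -1.68 * (k ^ 2 + s ^ 2) ≤ A * k + B * s) (ha' : A * k + B * s ≤ -1.38 * (k ^ 2 + s ^ 2))
    (hg : 0.17 * (k ^ 2 + s ^ 2) * |s * p - k * m| ≤ (A * s - B * k) * (s * p - k * m)) :
    1 ≤ x + (k * p + s * m) ∨ 1 ≤ x + (k * p + s * m) + (A * p + B * m) := by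
  have hH0 : 0 < k ^ 2 + s ^ 2 := by linarith
  have hx1 : x ≤ 1 := by nlinarith [sq_nonneg p, sq_nonneg m]
  have key := ustripB_alg (x := x) (G := k * p + s * m) (W := |s * p - k * m|)
    (α := -(1 + (A * k + B * s) / (k ^ 2 + s ^ 2))) hH
    (by rw [sq_abs]; linear_combination (k ^ 2 + s ^ 2) * h1) hx hx1 (abs_nonneg _) hW
    (by
      have : (A * k + B * s) / (k ^ 2 + s ^ 2) ≤ -1.38 := by rw [div_le_iff₀ hH0]; exact ha'
      linarith)
    (by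
      have : -1.68 ≤ (A * k + B * s) / (k ^ 2 + s ^ 2) := by rw [le_div_iff₀ hH0]; exact ha
      linarith)
  refine key.imp id fun h => h.trans ?_
  have e : A * p + B * m = (A * k + B * s) / (k ^ 2 + s ^ 2) * (k * p + s * m) +
      (A * s - B * k) * (s * p - k * m) / (k ^ 2 + s ^ 2) := by
    field_simp
    ring
  have h2 : 0.17 * |s * p - k * m| ≤ (A * s - B * k) * (s * p - k * m) / (k ^ 2 + s ^ 2) := by
    rw [le_div_iff₀ hH0]
    linarith
  rw [e]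
  linarith

theorem ustripB_mul {a b x y : ℝ} (ha : Nr a x) (hb : Nr b y) (hx : |x| ≤ 1.2) (hy : |y| ≤ 1.2) :
    |a * b - x * y| ≤ 0.0003 := by
  unfold Nr at ha hb
  have e : a * b - x * y = (a - x) * (b - y) + (a - x) * y + x * (b - y) := by ring
  have a1 : |(a - x) * (b - y)| ≤ 1 / 10000 * (1 / 10000) := by
    rw [abs_mul]; exact mul_le_mul ha hb (abs_nonneg _) (by norm_num)
  have a2 : |(a - x) * y| ≤ 1 / 10000 * 1.2 := by
    rw [abs_mul]; exact mul_le_mul ha hy (abs_nonneg _) (by norm_num)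
  have a3 : |x * (b - y)| ≤ 1.2 * (1 / 10000) := by
    rw [abs_mul]; exact mul_le_mul hx hb (abs_nonneg _) (by norm_num)
  rw [e]
  have := abs_add_three ((a - x) * (b - y)) ((a - x) * y) (x * (b - y))
  linarith

theorem ustripB_mul1 {a x p : ℝ} (ha : Nr a x) (hp : |p| ≤ 1) : |a * p - x * p| ≤ 0.0001 := by
  unfold Nr at ha
  rw [← sub_mul, abs_mul]
  have := mul_le_mul ha hp (abs_nonneg _) (by norm_num)
  linarith

theorem ustripB_coord {v : E} (hv : ‖v‖ = 1) : |v 0| ≤ 1 ∧ |v 1| ≤ 1 ∧ |v 2| ≤ 1 := by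
  have h := normsq3 v
  rw [hv] at h
  refine ⟨abs_le_one_iff_mul_self_le_one.2 ?_, abs_le_one_iff_mul_self_le_one.2 ?_,
    abs_le_one_iff_mul_self_le_one.2 ?_⟩ <;>
  nlinarith [mul_self_nonneg (v 0), mul_self_nonneg (v 1), mul_self_nonneg (v 2)]

theorem ustripB_nv {u v : E} {x y w : ℝ} (hu : Nv u x y w) (hv : ‖v‖ = 1) :
    |⟪v, u⟫ - (x * v 0 + y * v 1 + w * v 2)| ≤ 0.0003 := by
  obtain ⟨b0, b1, b2⟩ := ustripB_coord hv
  have a0 := abs_le.1 (ustripB_mul1 hu.1 b0)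
  have a1 := abs_le.1 (ustripB_mul1 hu.2.1 b1)
  have a2 := abs_le.1 (ustripB_mul1 hu.2.2 b2)
  rw [inner3, abs_le]
  constructor <;> linarith [a0.1, a0.2, a1.1, a1.2, a2.1, a2.2]

theorem ustripB_abs {u v : E} (hu : ‖u‖ = 1) (hv : ‖v‖ = 1) : |⟪v, u⟫| ≤ 1 := by
  have := abs_real_inner_le_norm v u
  rwa [hu, hv, mul_one] at this

theorem ustripB_n {v : E} (hv : ‖v‖ = 1) (hs : Strip3 v) : 0.963 ≤ ⟪On, v⟫ ∧ ⟪On, v⟫ ≤ 1 := by
  obtain ⟨h1, h2, h3⟩ := hs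
  have e : ⟪On, v⟫ ^ 2 + ⟪Oe1, v⟫ ^ 2 + ⟪Oe2, v⟫ ^ 2 = 1 := by
    have h := normsq3 v
    rw [hv] at h
    simp only [inner3, On, Oe1, Oe2, vec_0, vec_1, vec_2]
    linear_combination -h
  have h0 : 0 ≤ ⟪On, v⟫ := by linarith [abs_nonneg ⟪Oe2, v⟫]
  have h4 := abs_le.1 h3
  have a1 : ⟪Oe1, v⟫ ^ 2 ≤ (0.19 * ⟪On, v⟫) ^ 2 := sq_le_sq' (by linarith) (by linarith)
  have a2 : ⟪Oe2, v⟫ ^ 2 ≤ (0.2 * ⟪On, v⟫) ^ 2 := sq_le_sq' h4.1 h4.2
  constructor
  · by_contra hcon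
    rw [not_le] at hcon
    nlinarith
  · nlinarith [sq_nonneg ⟪Oe1, v⟫, sq_nonneg ⟪Oe2, v⟫]

theorem ustripB_H {z : Fin 9 → ℝ} (hn : Num z) (t : ℝ) :
    0.7148 ≤ zKap z t ^ 2 + zSig z t ^ 2 ∧ zKap z t ^ 2 + zSig z t ^ 2 ≤ 0.7154 := by
  have h := hn.cone.sq_sum t
  have h1 := abs_le.1 hn.rho
  unfold zKap zSig
  constructor <;> nlinarith [h1.1, h1.2]

theorem ustripB_D {z : Fin 9 → ℝ} (hn : Num z) : 0 ≤ z 5 ∧ z 5 ≤ 0.262 := by
  have h := abs_le.1 (hn.box 5)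
  have e : z0 5 = 0.261980389 := rfl
  rw [e] at h
  constructor <;> linarith [h.1, h.2]

/-- Width from the frame of the cone at time `t` and a point `q` in the supporting plane. -/
theorem ustripB_core {z : Fin 9 → ℝ} (hn : Num z) {v q : E} (hv : ‖v‖ = 1) {t A B : ℝ}
    (hq : q ∈ Gam z) (he : zA z - q = A • zV z t + B • zM z t) (hx : 0.86 ≤ ⟪v, zU z t⟫)
    (hW : |zSig z t * ⟪v, zV z t⟫ - zKap z t * ⟪v, zM z t⟫| ≤ 0.11)
    (ha : -1.68 * (zKap z t ^ 2 + zSig z t ^ 2) ≤ A * zKap z t + B * zSig z t)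
    (ha' : A * zKap z t + B * zSig z t ≤ -1.38 * (zKap z t ^ 2 + zSig z t ^ 2))
    (hg : 0.17 * (zKap z t ^ 2 + zSig z t ^ 2) *
        |zSig z t * ⟪v, zV z t⟫ - zKap z t * ⟪v, zM z t⟫| ≤
      (A * zSig z t - B * zKap z t) * (zSig z t * ⟪v, zV z t⟫ - zKap z t * ⟪v, zM z t⟫)) :
    Wd (Gam z) v := by
  have hk := hn.cone
  have h1 : ⟪v, zV z t⟫ ^ 2 + ⟪v, zM z t⟫ ^ 2 + ⟪v, zU z t⟫ ^ 2 = 1 := by
    have := hk.normsq t v
    rw [hv, one_pow] at this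
    exact this.symm
  have hc : ⟪zC z, v⟫ = ⟪v, zU z t⟫ + (zKap z t * ⟪v, zV z t⟫ + zSig z t * ⟪v, zM z t⟫) := by
    have e := hk.expand t (zC z)
    rw [hk.inner_cV, hk.inner_cM, hk.inner_cU, one_smul] at e
    rw [real_inner_comm]
    conv_lhs => rw [e]
    rw [inner_add_right, inner_add_right, real_inner_smul_right, real_inner_smul_right]
    exact add_comm _ _
  rcases ustripB_alg2 h1 ((by norm_num : (0.714 : ℝ) ≤ 0.7148).trans (ustripB_H hn t).1) hx hW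
    ha ha' hg with h | h
  · refine ⟨_, mem_C z, _, mem_D z, ?_⟩
    rw [add_sub_cancel_left, hv, hc]
    exact h
  · refine ⟨_, mem_C z, q, hq, ?_⟩
    rw [add_sub_right_comm, he, inner_add_left, inner_add_left, real_inner_smul_left,
      real_inner_smul_left, hv, hc, real_inner_comm v, real_inner_comm v]
    linarith

theorem ustripB_x {z : Fin 9 → ℝ} (hn : Num z) {v : E} (hv : ‖v‖ = 1)
    (h0 : 0.94 ≤ ⟪v, zU z 0⟫) {t : ℝ} (ht : t ∈ Icc 0 (z 5)) : 0.86 ≤ ⟪v, zU z t⟫ := by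
  have hk := hn.cone
  have n0 : ‖zU z 0‖ = 1 := hk.norm_U 0
  have nt : ‖zU z t‖ = 1 := hk.norm_U t
  have a1 : ‖v - zU z 0‖ ≤ 0.35 := by
    refine abs_le_of_sq_le_sq' ?_ (by norm_num) |>.2
    rw [norm_sub_sq_real, hv, n0]
    linarith
  have a2 : ‖zU z 0 - zU z t‖ ≤ 0.17 := by
    refine abs_le_of_sq_le_sq' ?_ (by norm_num) |>.2
    have e : ⟪zU z 0, zU z t⟫ = 1 / ‖zC z‖ ^ 2 + (1 - 1 / ‖zC z‖ ^ 2) * cos (0 - t) :=
      hk.inner_UU 0 t
    rw [norm_sub_sq_real, n0, nt, e, zero_sub, cos_neg]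
    have b1 := Real.one_sub_sq_div_two_le_cos (x := t)
    have b2 : t ^ 2 ≤ 0.262 ^ 2 := pow_le_pow_left₀ ht.1 (ht.2.trans (ustripB_D hn).2) 2
    have b3 := abs_le.1 hn.rho
    have b4 : 0.58 ≤ 1 / ‖zC z‖ ^ 2 := by
      rw [le_div_iff₀ (pow_pos (by linarith [b3.1]) 2)]
      nlinarith [b3.1, b3.2]
    have b5 : (1 - 1 / ‖zC z‖ ^ 2) * (1 - cos t) ≤ 0.42 * (1 - cos t) :=
      mul_le_mul_of_nonneg_right (by linarith) (by linarith [cos_le_one t])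
    linarith
  have a3 : ‖v - zU z t‖ ≤ 0.52 := by
    have := norm_sub_le_norm_sub_add_norm_sub v (zU z 0) (zU z t)
    linarith
  have a4 : ‖v - zU z t‖ ^ 2 ≤ 0.52 ^ 2 := pow_le_pow_left₀ (norm_nonneg _) a3 2
  rw [norm_sub_sq_real, hv, nt] at a4
  linarith

theorem ustripB_unit {z : Fin 9 → ℝ} (hn : Num z) (hc : Close z) {v : E} (hv : ‖v‖ = 1)
    (hs : Strip3 v) : Wd (Gam z) v := by
  have hk := hn.cone
  obtain ⟨n1, n2⟩ := ustripB_n hv hs
  obtain ⟨s1, s2, s3⟩ := hs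
  obtain ⟨s3, s4⟩ := abs_le.1 s3
  simp only [inner3, On, Oe1, Oe2, vec_0, vec_1, vec_2]
    at n1 n2 s1 s2 s3 s4
  have hx0 : 0.94 ≤ ⟪v, zU z 0⟫ := by
    have := (abs_le.1 (ustripB_nv hn.vU0 hv)).1
    linarith
  obtain ⟨d0, d1⟩ := ustripB_D hn
  have hV0 : zV z 0 = zE z := coneV_zero _ _
  have hM0 : zM z 0 = zN z := coneM_zero _ _
  have hK0 : Nr (zKap z 0) (-0.24309) := by
    have e : zKap z 0 = ⟪zC z, zE z⟫ := by simp [zKap, kapT]
    rw [e]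
    exact hn.ka
  by_cases hD : 0 ≤ zSig z (z 5) * ⟪v, zV z (z 5)⟫ - zKap z (z 5) * ⟪v, zM z (z 5)⟫
  · obtain ⟨H1, H2⟩ := ustripB_H hn (z 5)
    have m1 := abs_le.1 (ustripB_mul hn.aV hn.kapD (by norm_num [abs_le]) (by norm_num [abs_le]))
    have m2 := abs_le.1 (ustripB_mul hn.lam hn.sigD (by norm_num [abs_le]) (by norm_num [abs_le]))
    have m3 := abs_le.1 (ustripB_mul hn.aV hn.sigD (by norm_num [abs_le]) (by norm_num [abs_le]))
    have m4 := abs_le.1 (ustripB_mul hn.lam hn.kapD (by norm_num [abs_le]) (by norm_num [abs_le]))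
    refine ustripB_core hn hv (t := z 5) (A := ⟪zA z, zV z (z 5)⟫) (B := zLam z) (mem_A z) ?_
      (ustripB_x hn hv hx0 ⟨d0, le_rfl⟩) ?_ (by linarith [m1.1, m2.1]) (by linarith [m1.2, m2.2]) ?_
    · have e := hk.expand (z 5) (zA z)
      have k1 : ⟪zA z, coneU (zC z) (zE z) (z 5)⟫ = 0 := hc.k1
      rw [k1, zero_smul, add_zero] at e
      rw [sub_zero]
      exact e
    · rw [abs_of_nonneg hD]
      have p1 := abs_le.1 (ustripB_nv hn.vVD hv)
      have p2 := abs_le.1 (ustripB_nv hn.vMD hv)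
      have p3 := abs_le.1 (ustripB_mul1 hn.sigD (ustripB_abs (u := zV z (z 5)) (hk.norm_V _) hv))
      have p4 := abs_le.1 (ustripB_mul1 hn.kapD (ustripB_abs (u := zM z (z 5)) (hk.norm_M _) hv))
      linarith [p1.1, p1.2, p2.1, p2.2, p3.1, p3.2, p4.1, p4.2]
    · rw [abs_of_nonneg hD]
      exact mul_le_mul_of_nonneg_right (by linarith [m3.1, m4.2]) hD
  by_cases h0 : zSig z 0 * ⟪v, zV z 0⟫ - zKap z 0 * ⟪v, zM z 0⟫ ≤ 0
  · obtain ⟨H1, H2⟩ := ustripB_H hn 0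
    have m1 := abs_le.1 (ustripB_mul hn.mu hK0 (by norm_num [abs_le]) (by norm_num [abs_le]))
    have m2 := abs_le.1 (ustripB_mul hn.lam hn.sig0 (by norm_num [abs_le]) (by norm_num [abs_le]))
    have m3 := abs_le.1 (ustripB_mul hn.mu hn.sig0 (by norm_num [abs_le]) (by norm_num [abs_le]))
    have m4 := abs_le.1 (ustripB_mul hn.lam hK0 (by norm_num [abs_le]) (by norm_num [abs_le]))
    have hX : zX z (-z 8) ∈ Gam z :=
      Or.inl (Or.inl (Or.inl (Or.inl (Or.inl (Or.inr (right_mem_segment ℝ _ _))))))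
    refine ustripB_core hn hv (t := 0) (A := zmu z) (B := zLam z) hX ?_
      (by linarith) ?_ (by linarith [m1.1, m2.1]) (by linarith [m1.2, m2.2]) ?_
    · rw [hc.k4, hV0, hM0, add_comm]
    · rw [abs_of_nonpos h0]
      have p3 := abs_le.1 (ustripB_mul1 hn.sig0 (ustripB_abs (u := zV z 0) (hk.norm_V _) hv))
      have p4 := abs_le.1 (ustripB_mul1 hK0 (ustripB_abs (u := zM z 0) (hk.norm_M _) hv))
      have p1 := abs_le.1 (ustripB_nv hn.vE hv)
      have p2 := abs_le.1 (ustripB_nv hn.vN hv)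
      rw [← hV0] at p1
      rw [← hM0] at p2
      linarith [p1.1, p1.2, p2.1, p2.2, p3.1, p3.2, p4.1, p4.2]
    · rw [abs_of_nonpos h0, ← neg_mul_neg (zmu z * zSig z 0 - zLam z * zKap z 0)]
      exact mul_le_mul_of_nonneg_right (by linarith [m3.2, m4.1]) (by linarith)
  · have hcont : Continuous fun t => zSig z t * ⟪v, zV z t⟫ - zKap z t * ⟪v, zM z t⟫ :=
      ((continuous_sigT _ _).mul (continuous_const.inner (continuous_coneV _ _))).sub
        ((continuous_kapT _ _).mul (continuous_const.inner (continuous_coneM _ _)))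
    obtain ⟨t, ht, e⟩ := intermediate_value_Icc' d0 hcont.continuousOn
      (show (0 : ℝ) ∈ Icc _ _ from ⟨(not_le.1 hD).le, (not_le.1 h0).le⟩)
    have e' : zSig z t * ⟪v, zV z t⟫ - zKap z t * ⟪v, zM z t⟫ = 0 := e
    obtain ⟨g1, g2⟩ := hn.sig_pos t ht
    obtain ⟨H1, H2⟩ := ustripB_H hn t
    have l1 := abs_le.1 hn.lam
    have hY : zY z t ∈ Gam z :=
      Or.inl (Or.inl (Or.inl (Or.inl (Or.inl (Or.inl (Or.inr ⟨t, ht, rfl⟩))))))
    have g0 : 0 < zSig z t := by linarith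
    have e2 : zMu z t * zKap z t + zLam z * zSig z t =
        zLam z / zSig z t * (zKap z t ^ 2 + zSig z t ^ 2) := by
      unfold zMu
      field_simp
    refine ustripB_core hn hv (t := t) (A := zMu z t) (B := zLam z) hY ?_
      (ustripB_x hn hv hx0 ht) (by rw [e', abs_zero]; norm_num) ?_ ?_ (by rw [e']; simp)
    · unfold zY
      abel
    · rw [e2]
      refine mul_le_mul_of_nonneg_right ?_ (by linarith)
      rw [le_div_iff₀ g0]
      linarith [l1.1]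
    · rw [e2]
      refine mul_le_mul_of_nonneg_right ?_ (by linarith)
      rw [div_le_iff₀ g0]
      linarith [l1.2]

theorem wd_strip3 {z : Fin 9 → ℝ} (hn : Num z) (hc : Close z) {v : E} (hv : Strip3 v) :
    Wd (Gam z) v := by
  by_cases h0 : v = 0
  · exact ⟨0, mem_A z, 0, mem_A z, by simp [h0]⟩
  have hp : 0 < ‖v‖ := norm_pos_iff.2 h0
  have hi : 0 < ‖v‖⁻¹ := inv_pos.2 hp
  have hu : ‖‖v‖⁻¹ • v‖ = 1 := norm_smul_inv_norm h0
  have hs : Strip3 (‖v‖⁻¹ • v) := by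
    obtain ⟨h1, h2, h3⟩ := hv
    unfold Strip3
    simp only [real_inner_smul_right]
    refine ⟨by nlinarith, by nlinarith, ?_⟩
    rw [abs_mul, abs_of_pos hi]
    nlinarith
  have := (ustripB_unit hn hc hu hs).smul hp.le
  rwa [smul_smul, mul_inv_cancel₀ hp.ne', one_smul] at this

end Pool.Agent.Lib.MP_ee7495_gt.Y
end

-- part Pool.Agent.Lib.MP_ee7495_gt.Y.UStripC
section

set_option autoImplicit false

open scoped RealInnerProductSpace
open Real Set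

namespace Pool.Agent.Lib.MP_ee7495_gt.Y

/-- A point given by its coordinates in the frame of the small helix. -/
noncomputable def UStripC_pt (z : Fin 9 → ℝ) (α β c : ℝ) : E :=
  zO z - (1 / 2 : ℝ) • (α • zI + β • zJ z) + c • zK z

theorem UStripC_inner (z : Fin 9 → ℝ) (α β c α' β' c' : ℝ) (v : E) :
    ⟪zS z (UStripC_pt z α' β' c') - UStripC_pt z α β c, v⟫ =
      1 / 2 * ((α - α') * (-v 0) + (β + β') * (cos (z 6) * v 1 - sin (z 6) * v 2)) -
        (c + c') * (sin (z 6) * v 1 + cos (z 6) * v 2) := by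
  simp only [inner3, zS, UStripC_pt, zO, zA, zI, zJ, zK, PiLp.sub_apply, PiLp.add_apply,
    PiLp.smul_apply, smul_eq_mul, mir_0, mir_1, mir_2, vec_0, vec_1, vec_2]
  ring

/-- The tangent line of the cosine lies above it. -/
theorem UStripC_tangent {d τ : ℝ} (hd : |d| ≤ 1) (h0 : 0 ≤ τ) (h1 : τ ≤ 1 / 2) :
    cos (d + τ) ≤ cos d - τ * sin d := by
  have hd2 : d ^ 2 ≤ 1 := by
    have := sq_abs d
    nlinarith [abs_nonneg d]
  have hc : 1 / 2 ≤ cos d := by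
    have := one_sub_sq_div_two_le_cos (x := d)
    linarith
  have hs : sin d ≤ 1 := sin_le_one d
  have e1 : 0 ≤ τ - sin τ := by
    have := sin_le h0
    linarith
  have e2 : τ - sin τ ≤ τ ^ 3 / 6 := by
    rcases h0.eq_or_lt with h | h
    · subst h; simp
    · have := sin_gt_sub_cube h
      linarith
  have e3 : τ ^ 2 / 3 ≤ 1 - cos τ := by
    have hb := cos_bound (x := τ) (by rw [abs_of_nonneg h0]; linarith)
    rw [abs_of_nonneg h0] at hb
    have hb2 := (abs_le.1 hb).2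
    have : τ ^ 4 ≤ τ ^ 2 := by
      have : τ ^ 2 ≤ 1 := by nlinarith
      nlinarith [sq_nonneg τ]
    linarith [sq_nonneg τ]
  have e4 : τ ^ 3 ≤ τ ^ 2 := by nlinarith [sq_nonneg τ]
  have f1 : sin d * (τ - sin τ) ≤ τ - sin τ := by nlinarith
  have f2 : 1 / 2 * (1 - cos τ) ≤ cos d * (1 - cos τ) := by
    have : 0 ≤ 1 - cos τ := by linarith [cos_le_one τ]
    nlinarith
  rw [cos_add]
  nlinarith

theorem UStripC_abs_arctan (x : ℝ) : |arctan x| ≤ |x| := by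
  have key : ∀ y : ℝ, 0 ≤ y → |arctan y| ≤ |y| := by
    intro y hy
    have h0 : 0 ≤ arctan y := by
      have := arctan_mono hy
      rwa [arctan_zero] at this
    have := le_tan h0 (arctan_lt_pi_div_two y)
    rw [tan_arctan] at this
    rw [abs_of_nonneg h0, abs_of_nonneg hy]
    exact this
  rcases le_total 0 x with h | h
  · exact key x h
  · have := key (-x) (by linarith)
    rwa [arctan_neg, abs_neg, abs_neg] at this

theorem UStripC_seg {p q w : E} {x σ : ℝ} (h : p + x • w = q) (hx : 0 < x) (h0 : 0 ≤ σ)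
    (h1 : σ ≤ x) : p + σ • w ∈ segment ℝ p q := by
  refine ⟨1 - σ / x, σ / x, ?_, by positivity, by ring, ?_⟩
  · have : σ / x ≤ 1 := (div_le_one hx).2 h1
    linarith
  · rw [← h, smul_add, smul_smul, div_mul_cancel₀ _ hx.ne', ← add_assoc, ← add_smul]
    simp

theorem UStripC_z8 {z : Fin 9 → ℝ} (hn : Num z) : 0.2307 ≤ z 8 ∧ z 8 ≤ 0.2308 := by
  have h := abs_le.1 (hn.box 8)
  have e : z0 8 = 0.230773213 := rfl
  rw [e] at h
  constructor <;> linarith [h.1, h.2]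

/-- The small helix, prolonged along the tangent segments at both ends. -/
theorem UStripC_ext {z : Fin 9 → ℝ} (hn : Num z) (hc : Close z) {s : ℝ} (hs : |s| ≤ 0.41) :
    ∃ α β : ℝ, UStripC_pt z α β (s * cos (z 7) / (2 * sin (z 7))) ∈ Half z ∧
      ∀ t : ℝ, |t| ≤ 0.41 → cos (s - t) ≤ -sin t * α + cos t * β := by
  obtain ⟨l8, u8⟩ := UStripC_z8 hn
  have hsh := abs_le.1 hn.sh
  have hS : 0.66 ≤ sin (z 7) := by linarith [hsh.1]
  have hS0 : sin (z 7) ≠ 0 := by linarith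
  obtain ⟨s1, s2⟩ := abs_le.1 hs
  rcases le_total s (-z 8) with h | h
  · -- tangent segment before the helix
    set τ : ℝ := -z 8 - s with hτ
    have t0 : 0 ≤ τ := by linarith
    have t1 : τ ≤ 0.18 := by linarith
    refine ⟨sin (z 8) + τ * cos (z 8), cos (z 8) - τ * sin (z 8), ?_, ?_⟩
    · have hm := hc.mid
      have hmu0 := abs_le.1 hn.mu0
      have hmu := abs_le.1 hn.mu
      have hx : 0.15 ≤ zMu z 0 - zmu z := by linarith [hmu0.1, hmu.2]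
      have hq : zX z (-z 8) + (zMu z 0 - zmu z) • (-zE z) = zY z 0 := by
        rw [hm, smul_neg]; abel
      have hσ : τ / (2 * sin (z 7)) ≤ zMu z 0 - zmu z := by
        rw [div_le_iff₀ (by linarith)]
        nlinarith
      have hmem := UStripC_seg hq (by linarith) (by positivity) hσ
      rw [segment_symm] at hmem
      have e : UStripC_pt z (sin (z 8) + τ * cos (z 8)) (cos (z 8) - τ * sin (z 8))
          (s * cos (z 7) / (2 * sin (z 7))) = zX z (-z 8) + (τ / (2 * sin (z 7))) • (-zE z) := by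
        have hs' : s = -z 8 - τ := by rw [hτ]; ring
        rw [hs']
        apply ext3 <;>
          simp only [UStripC_pt, zX, zU5, zE, zO, zA, zI, zJ, zK, PiLp.sub_apply, PiLp.add_apply,
            PiLp.neg_apply, PiLp.smul_apply, smul_eq_mul, vec_0, vec_1, vec_2, sin_neg, cos_neg] <;>
          field_simp <;> ring
      rw [e]
      exact Or.inl (Or.inl (Or.inl (Or.inl (Or.inr hmem))))
    · intro t ht
      obtain ⟨a1, a2⟩ := abs_le.1 ht
      have hd : |z 8 + t| ≤ 1 := abs_le.2 ⟨by linarith, by linarith⟩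
      have := UStripC_tangent hd t0 (by linarith)
      have e : s - t = -(z 8 + t + τ) := by rw [hτ]; ring
      rw [e, cos_neg]
      rw [cos_add (z 8) t, sin_add (z 8) t] at this
      linarith
  · rcases le_total s (z 8) with h' | h'
    · -- the helix itself
      refine ⟨-sin s, cos s, ?_, ?_⟩
      · have e : UStripC_pt z (-sin s) (cos s) (s * cos (z 7) / (2 * sin (z 7))) = zX z s := rfl
        rw [e]
        exact Or.inl (Or.inl (Or.inl (Or.inr ⟨s, ⟨h, h'⟩, rfl⟩)))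
      · intro t _
        rw [cos_sub]
        linarith
    · -- tangent segment after the helix
      set τ : ℝ := s - z 8 with hτ
      have t0 : 0 ≤ τ := by linarith
      have t1 : τ ≤ 0.18 := by linarith
      refine ⟨-sin (z 8) - τ * cos (z 8), cos (z 8) - τ * sin (z 8), ?_, ?_⟩
      · have hx0 := abs_le.1 hn.x
        have hx : 0.15 ≤ zx z := by linarith [hx0.1]
        have hσ : τ / (2 * sin (z 7)) ≤ zx z := by
          rw [div_le_iff₀ (by linarith)]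
          nlinarith
        have hmem := UStripC_seg hc.k3 (by linarith) (by positivity) hσ
        have e : UStripC_pt z (-sin (z 8) - τ * cos (z 8)) (cos (z 8) - τ * sin (z 8))
            (s * cos (z 7) / (2 * sin (z 7))) = zX z (z 8) + (τ / (2 * sin (z 7))) • zT z := by
          have hs' : s = z 8 + τ := by rw [hτ]; ring
          rw [hs']
          apply ext3 <;>
            simp only [UStripC_pt, zX, zU5, zT, zO, zA, zI, zJ, zK, PiLp.sub_apply, PiLp.add_apply,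
              PiLp.smul_apply, smul_eq_mul, vec_0, vec_1, vec_2] <;>
            field_simp <;> ring
        rw [e]
        exact Or.inl (Or.inl (Or.inr hmem))
      · intro t ht
        obtain ⟨a1, a2⟩ := abs_le.1 ht
        have hd : |z 8 - t| ≤ 1 := abs_le.2 ⟨by linarith, by linarith⟩
        have := UStripC_tangent hd t0 (by linarith)
        have e : s - t = z 8 - t + τ := by rw [hτ]; ring
        rw [e]
        rw [cos_sub (z 8) t, sin_sub (z 8) t] at this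
        linarith

/-- The strip in the exact frame. -/
theorem UStripC_frame {z : Fin 9 → ℝ} (hn : Num z) {v : E} (hv : Strip5 v) :
    |v 0| + |sin (z 6) * v 1 + cos (z 6) * v 2| ≤ 0.41 * (cos (z 6) * v 1 - sin (z 6) * v 2) := by
  unfold Strip5 at hv
  have hso := abs_le.1 hn.so
  have hco := abs_le.1 hn.co
  set J : ℝ := 0.9662 * v 1 - 0.2577 * v 2 with hJ
  set K : ℝ := 0.2577 * v 1 + 0.9662 * v 2 with hK
  have a0 := abs_nonneg (v 0)
  have k1 := le_abs_self K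
  have k2 := neg_abs_le K
  have kn := abs_nonneg K
  have b1 : |v 1| ≤ 1.1 * J := abs_le.2 ⟨by linarith, by linarith⟩
  have b2 : |v 2| ≤ 0.7 * J := abs_le.2 ⟨by linarith, by linarith⟩
  have J0 : 0 ≤ J := by linarith
  have ds : |sin (z 6) - 0.2577| ≤ 0.0002 := abs_le.2 ⟨by linarith [hso.1], by linarith [hso.2]⟩
  have dc : |cos (z 6) - 0.9662| ≤ 0.0002 := abs_le.2 ⟨by linarith [hco.1], by linarith [hco.2]⟩
  have m : ∀ d w b : ℝ, |d| ≤ 0.0002 → |w| ≤ b → |d * w| ≤ 0.0002 * b := by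
    intro d w b h1 h2
    rw [abs_mul]
    exact mul_le_mul h1 h2 (abs_nonneg _) (by norm_num)
  have p1 := abs_le.1 (m _ _ _ ds b1)
  have p2 := abs_le.1 (m _ _ _ ds b2)
  have p3 := abs_le.1 (m _ _ _ dc b1)
  have p4 := abs_le.1 (m _ _ _ dc b2)
  have q : |sin (z 6) * v 1 + cos (z 6) * v 2| ≤ |K| + 0.001 * J :=
    abs_le.2 ⟨by nlinarith [p1.1, p4.1], by nlinarith [p1.2, p4.2]⟩
  nlinarith [p2.2, p3.1]

theorem wd_strip5 {z : Fin 9 → ℝ} (hn : Num z) (hc : Close z) {v : E} (hv : Strip5 v) :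
    Wd (Gam z) v := by
  have hf := UStripC_frame hn hv
  set vj : ℝ := cos (z 6) * v 1 - sin (z 6) * v 2 with hvj
  set vk : ℝ := sin (z 6) * v 1 + cos (z 6) * v 2 with hvk
  have hnorm : ‖v‖ ^ 2 = v 0 ^ 2 + vj ^ 2 + vk ^ 2 := by
    rw [normsq3, hvj, hvk]
    linear_combination (-(v 1 ^ 2 + v 2 ^ 2)) * sin_sq_add_cos_sq (z 6)
  have a0 := abs_nonneg (v 0)
  have ak := abs_nonneg vk
  have hj0 : 0 ≤ vj := by linarith
  rcases hj0.eq_or_lt with hj | hj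
  · have e0 : v 0 = 0 := abs_eq_zero.1 (by linarith)
    have ek : vk = 0 := abs_eq_zero.1 (by linarith)
    have hz : ‖v‖ = 0 := by
      rw [e0, ek, ← hj] at hnorm
      exact pow_eq_zero_iff (two_ne_zero) |>.1 (by rw [hnorm]; ring)
    refine ⟨0, mem_A z, 0, mem_A z, ?_⟩
    rw [hz]; simp
  · set t : ℝ := arctan (v 0 / vj) with ht
    have hct : 0 < cos t := cos_arctan_pos _
    have htan : sin t = cos t * (v 0 / vj) := by
      have := tan_arctan (v 0 / vj)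
      rw [← ht, tan_eq_sin_div_cos, div_eq_iff hct.ne'] at this
      rw [this]; ring
    set R : ℝ := vj / cos t with hR
    have R1 : R * cos t = vj := by rw [hR]; field_simp
    have R2 : R * sin t = v 0 := by rw [htan, ← mul_assoc, R1]; field_simp
    have Rj : vj ≤ R := by
      rw [hR, le_div_iff₀ hct]
      nlinarith [cos_le_one t]
    have R0 : 0 < R := by linarith
    set p : ℝ := vk / R with hp
    have P1 : p * R = vk := by rw [hp]; field_simp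
    have bt : |t| * vj ≤ |v 0| := by
      have := UStripC_abs_arctan (v 0 / vj)
      rw [← ht, abs_div, abs_of_pos hj, le_div_iff₀ hj] at this
      exact this
    have bp : |p| * vj ≤ |vk| := by
      rw [← P1, abs_mul, abs_of_pos R0]
      exact mul_le_mul_of_nonneg_left Rj (abs_nonneg _)
    have btp : |t| + |p| ≤ 0.41 := by
      apply le_of_mul_le_mul_right _ hj
      linarith
    have n1 := abs_nonneg t
    have n2 := abs_nonneg p
    have hs1 : |t - p| ≤ 0.41 := (abs_sub t p).trans btp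
    have hs2 : |-(t + p)| ≤ 0.41 := by
      rw [abs_neg]; exact (abs_add_le t p).trans btp
    obtain ⟨α, β, hm, hi⟩ := UStripC_ext hn hc hs1
    obtain ⟨α', β', hm', hi'⟩ := UStripC_ext hn hc hs2
    have i1 := hi t (by linarith)
    have i2 := hi' (-t) (by rw [abs_neg]; linarith)
    have e1 : t - p - t = -p := by ring
    have e2 : -(t + p) - -t = -p := by ring
    rw [e1, cos_neg] at i1
    rw [e2, cos_neg, cos_neg, sin_neg] at i2
    refine ⟨_, Or.inr ⟨_, hm', rfl⟩, _, Or.inl hm, ?_⟩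
    rw [UStripC_inner, ← hvj, ← hvk]
    have hsh := abs_le.1 hn.sh
    have hch := abs_le.1 hn.ch
    have hS : 0 < sin (z 7) := by linarith [hsh.1]
    set ct : ℝ := cos (z 7) / sin (z 7) with hctd
    have hcot : 1 ≤ ct := by
      rw [hctd, le_div_iff₀ hS]
      linarith [hsh.2, hch.1]
    have ec : (t - p) * cos (z 7) / (2 * sin (z 7)) + -(t + p) * cos (z 7) / (2 * sin (z 7)) =
        -(p * ct) := by
      rw [hctd]; field_simp; ring
    rw [ec]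
    have hcp := one_sub_sq_div_two_le_cos (x := p)
    have hN : ‖v‖ ≤ R * (1 + p ^ 2 / 2) := by
      apply (sq_le_sq₀ (norm_nonneg _) (by positivity)).1
      have : v 0 ^ 2 + vj ^ 2 = R ^ 2 := by
        rw [← R1, ← R2]
        linear_combination R ^ 2 * sin_sq_add_cos_sq t
      rw [hnorm, this, ← P1]
      nlinarith [sq_nonneg (R * p ^ 2)]
    have g1 : R * (1 - p ^ 2 / 2) ≤
        1 / 2 * ((α - α') * (-v 0) + (β + β') * vj) := by
      have : 1 / 2 * ((α - α') * (-v 0) + (β + β') * vj) =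
          R * (1 / 2 * ((-sin t * α + cos t * β) + (- -sin t * α' + cos t * β'))) := by
        rw [← R1, ← R2]; ring
      rw [this]
      exact mul_le_mul_of_nonneg_left (by linarith) R0.le
    have g2 : R * p ^ 2 ≤ p * ct * vk := by
      have : p * ct * vk = R * p ^ 2 * ct := by rw [← P1]; ring
      rw [this]
      exact le_mul_of_one_le_right (by positivity) hcot
    linarith

end Pool.Agent.Lib.MP_ee7495_gt.Y
end

-- part Pool.Agent.Lib.MP_ee7495_gt.Y.UMain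
section

set_option autoImplicit false

open scoped RealInnerProductSpace
open Real Set

namespace Pool.Agent.Lib.MP_ee7495_gt.Y

theorem wd_all {z : Fin 9 → ℝ} (hn : Num z) (hc : Close z) (v : E) : Wd (Gam z) v := by
  have key : ∀ w : E, w 0 ≤ 0 → 0 ≤ w 1 → Wd (Gam z) w := by
    intro w h0 h1
    rcases wd_rest hn h0 h1 with h | h | h | h | h
    · exact wd_strip2 hn hc h
    · exact wd_strip3 hn hc h
    · exact wd_strip5 hn hc h
    · exact wd_cap hn h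
    · exact h
  have key2 : ∀ w : E, 0 ≤ w 1 → Wd (Gam z) w := by
    intro w h1
    rcases le_total (w 0) 0 with h0 | h0
    · exact key w h0 h1
    · have := (key (mir w) (by simpa using h0) (by simpa using h1)).mir
      rwa [mir_mir] at this
  rcases le_total 0 (v 1) with h1 | h1
  · exact key2 v h1
  · have := (key2 (-v) (by simpa using h1)).neg
    rwa [neg_neg] at this

/-- The upper bound for the length: the extremal curve exists. -/
theorem upper_main {z : Fin 9 → ℝ} (h : dist z z0 ≤ 1 / 10 ^ 6)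
    (hc : HasFDerivAt ell (0 : (Fin 9 → ℝ) →L[ℝ] ℝ) z) (hp : 0 < ell z) :
    ∃ b ∈ BSet, 1 / ell z ≤ b := by
  have hn := num_of_box h
  have hcl := close_of_part hn (part_of_crit hn hc)
  exact upper_of_curve (hasCurve_Gam hn hcl) hp (wd_all hn hcl)

end Pool.Agent.Lib.MP_ee7495_gt.Y
end
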