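import Mathlib
import Pool.Agent.Lib.MP_ee7495_gt.Y.NrmX
import Pool.Agent.Lib.MP_ee7495_gt.Y.Fam5
import Pool.Agent.Lib.MP_ee7495_gt.Y.UMain

set_option autoImplicit false

open scoped RealInnerProductSpace
open Real Set

namespace Pool.Agent.Lib.MP_ee7495_gt.Y

theorem dom2_hook {k : ℝ} (hk : 0 ≤ k) (ξ g : E) :
    ∃ κ, 0 ≤ κ ∧ κ ≤ k ∧ k * pp ⟪ξ, -g⟫ = -⟪ξ, κ • g⟫ := by
  rcases le_total ⟪ξ, -g⟫ 0 with h | h
  · exact ⟨0, le_rfl, hk, by rw [pp, max_eq_right h]; simp⟩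
  · exact ⟨k, hk, le_rfl, by rw [pp, max_eq_left h, inner_neg_right, real_inner_smul_right, mul_neg]⟩

theorem dom2_total {z z' : Fin 9 → ℝ} {k k' : ℝ} (h : Valid z k) (h' : Valid z' k')
    (hs : Share z z') (j j' : Fin 4) (ξ : E) : f2 z k j ξ + f2 z' k' j' (mir ξ) =
      ⟪ξ, zQ z⟫ + Ip (g2 z) (-z' 4) (z 4) ξ + Ip (g3 z) 0 (z 5) (-ξ) +
        Ip (g3 z') 0 (z' 5) (-mir ξ) + Ip (g5 z) (-z' 8) (z 8) (-ξ) + k * pp ⟪ξ, -Gk j⟫ +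
        k' * pp ⟪mir ξ, -Gk j'⟫ := by
  have c2 : ∀ z, Continuous (g2 z) := fun z => continuous_arc _ _
  have c5 : Continuous (g5 z) := continuous_arc _ _
  have a1 := Ip_neg (c2 z') 0 (z' 4) (mir ξ)
  have a2 := Ip_refl (g2 z) (g2 z') ξ (-mir ξ) (fun t => by
    rw [inner_neg_left, inner_mir_left, hs.eq_g2, mir_g2, inner_neg_right, neg_neg]) (z' 4)
  have a3 := Ip_add (c2 z) (-z' 4) 0 (z 4) ξ
  have a4 := Ip_refl (g5 z) (g5 z') ξ (mir ξ) (fun t => by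
    rw [inner_mir_left, hs.eq_g5, mir_g5]) (z' 8)
  have a5 := Ip_add c5 (-z' 8) 0 (z 8) ξ
  have a6 := Ip_neg c5 (-z' 8) (z 8) ξ
  have a7 := Ip_neg (continuous_g3 z) 0 (z 5) ξ
  have a8 := Ip_neg (continuous_g3 z') 0 (z' 5) (mir ξ)
  have b1 : ⟪mir ξ, zP0 z⟫ = ⟪ξ, zP0 z⟫ := by rw [inner_mir_left, mir_zP0]
  have b2 : ⟪mir ξ, zKv z⟫ = ⟪ξ, zKv z⟫ := by rw [inner_mir_left, mir_zKv]
  have b3 := inner_mir_left ξ (zE z')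
  rw [g2_int, hs.eq_P0] at a1
  rw [hs.g5_int] at a6
  rw [h.g3_int] at a7
  rw [h'.g3_int] at a8
  simp only [f2, Aown, hs.eq_P0, hs.eq_Kv, real_inner_comm ξ, real_inner_comm (mir ξ)]
  simp only [inner_add_right, inner_sub_right, real_inner_smul_right] at a1 a6 a7 a8 ⊢
  linarith

/-- Domination on the middle piece. -/
theorem dom2 {z z' : Fin 9 → ℝ} {k k' : ℝ} (h : Valid z k) (h' : Valid z' k') (hs : Share z z')
    (j j' : Fin 4) (ξ : E) : f2 z k j ξ + f2 z' k' j' (mir ξ) ≤ ‖ξ‖ := by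
  refine le_of_forall_pos_le_add fun ε hε => ?_
  have r0 : 0 ≤ z 4 := le_trans (by norm_num) h.rg.r0
  have r0' : 0 ≤ z' 4 := le_trans (by norm_num) h'.rg.r0
  obtain ⟨w, hw, a1⟩ := Ip_wt (g := g2 z) (continuous_arc _ _) (a := -z' 4) (b := z 4)
    (by linarith) ξ hε
  obtain ⟨ζs, ζe, s1, s2, a2⟩ := h.g3_dom (-ξ)
  obtain ⟨ζs', ζe', t1, t2, a3⟩ := h'.g3_dom (-mir ξ)
  obtain ⟨q, hq, a4⟩ := h.g5_dom (χ := z' 8) h'.rg.ch0 h'.rg.ch1 (-ξ)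
  obtain ⟨κ, k0, k1, a5⟩ := dom2_hook (k := k) h.rg.k0 ξ (Gk j)
  obtain ⟨κ', k0', k1', a6⟩ := dom2_hook (k := k') h'.rg.k0 (mir ξ) (Gk j')
  obtain ⟨w', hw', e'⟩ := hs.g2_mir hw
  obtain ⟨θ0, θ1, θ2, θ3, u0, u1, u2, u3, e1⟩ := h.g2_wt r0' h'.rg.r1 hw
  obtain ⟨φ0, φ1, φ2, φ3, v0, v1, v2, v3, e2⟩ := h'.g2_wt r0 h.rg.r1 hw'
  have hq' : Sub2 (sdOf z' k').q0 (sdOf z' k').q1 (mir q) := by
    rcases hq with rfl | rfl | rfl | rfl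
    · exact .inl mir_zero
    · exact .inr (.inr (.inl hs.mir_q0))
    · exact .inr (.inl hs.mir_q1)
    · exact .inr (.inr (.inr (by rw [mir_add, hs.mir_q0, hs.mir_q1, add_comm])))
  have n0 := h.chain2 (norm_zQ z) r0' h'.rg.r1 hw
  have n1 := Sd.nM h h.geo j u0 u1 u2 u3 (congrArg (zQ z + ·) e1) hq s1 s2 k0 k1
    (Sd.inM_mir h'.sd h'.geo t1 t2 k0' k1' j')
  have n2 := Sd.nM h' h'.geo j' v0 v1 v2 v3 (e'.trans (congrArg (zQ z' + ·) e2)) hq' t1 t2 k0' k1'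
    (Sd.inM_mir h.sd h.geo s1 s2 k0 k1 j)
  have b : ⟪ξ, zQ z + Iw w (g2 z) (-z' 4) (z 4) - q - (ζs + ζe + κ • Gk j) -
      mir (ζs' + ζe' + κ' • Gk j')⟫ + ε ≥ f2 z k j ξ + f2 z' k' j' (mir ξ) := by
    rw [dom2_total h h' hs, a5, a6, inner_sub_right, ← inner_mir_left]
    simp only [inner_add_right, inner_sub_right, inner_neg_left] at a2 a3 a4 ⊢
    linarith
  generalize zQ z + Iw w (g2 z) (-z' 4) (z 4) = V at n0 n1 n2 b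
  generalize ζs + ζe + κ • Gk j = c at n1 n2 b
  generalize ζs' + ζe' + κ' • Gk j' = c' at n1 n2 b
  have n3 : ‖V‖ ^ 2 ≤ 1 := pow_le_one₀ (norm_nonneg V) n0
  have n4 : ‖V - q - c - mir c'‖ ^ 2 ≤ 1 := by
    simp only [normsq3, inner3, PiLp.sub_apply, mir_0, mir_1, mir_2] at n1 n2 n3 ⊢
    linarith
  have n5 := (real_inner_le_norm ξ _).trans (mul_le_of_le_one_right (norm_nonneg ξ)
    ((sq_le_one_iff₀ (norm_nonneg _)).1 n4))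
  linarith

end Pool.Agent.Lib.MP_ee7495_gt.Y
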