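import Mathlib
import Pool.Agent.Lib.MP_ee7495_gt.Y.TrA
import Pool.Agent.Lib.MP_ee7495_gt.Y.BrgV
import Pool.Agent.Lib.MP_ee7495_gt.Y.Arc
import Pool.Agent.Lib.MP_ee7495_gt.Y.BrgE


set_option autoImplicit false

open scoped RealInnerProductSpace
open Real Set

namespace Pool.Agent.Lib.MP_ee7495_gt.Y

theorem trb_pickT {E : TL} {ρ : (ℕ → ℝ) → List ℝ} (h : EnvG E ρ) (is : NL) {k : TL → Bool}
    (H : pickT E is k = true) : ∃ E', EnvG E' (fun δ => pickR (ρ δ) is) ∧ k E' = true := by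
  induction is generalizing k with
  | nil => exact ⟨TL.nil, trivial, H⟩
  | cons i t ih =>
    obtain ⟨T, hT, H⟩ := TL.get_sound h H
    obtain ⟨s, hs, H⟩ := ih H
    exact ⟨TL.cons T s, ⟨hT, hs⟩, H⟩

theorem trb_prI (zs : Fin 9 → ℝ) (x0 x1 x2 r p D k s : ℝ) :
    pickR (prI.runR [x0, x1, x2, r, p, D, k, s, zs 0, zs 1, zs 2, zs 3, zs 6, zs 7]) pkI =
      envI (zOf zs x0 x1 x2 r p D s) s k := by
  have v1 : val 295724365931656249344 = 1 / 2 := by norm_num [val]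
  have v2 : val 294562437227794661376 = -(65 / 128) := by norm_num [val]
  have v3 : val 295796423525694177280 = 9 / 16 := by norm_num [val]
  have v4 : val 295679329935382544384 = 59 / 128 := by norm_num [val]
  have v5 : val 295170423177489678336 = 5 / 256 := by norm_num [val]
  have v6 : val 296084653901845889024 = 13 / 16 := by norm_num [val]
  simp only [prI, Pr.runR, pkI, pickR, envI, zOf, List.getD_cons_zero, List.getD_cons_succ,
    Matrix.cons_val, v1, v2, v3, v4, v5, v6, List.cons.injEq, and_true, true_and]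
  refine ⟨?_, ?_, ?_⟩ <;> ring

theorem trb_val0 : val 295147905179352825856 = 0 := by norm_num [val]

theorem trb_valh (h : ℕ) : val (Nat.add 295147905179352825856 h) = mag h := by
  simp only [val, mag, Nat.add_eq, Nat.cast_add, Nat.cast_ofNat]
  ring

theorem trb_e0 (c : ℕ) : |val c - val c| ≤ mag 0 := by simp [mag]

theorem valid_of_ck {z : Fin 9 → ℝ} {s k : ℝ}
    (h : ck.holds (pickR (prU.runR (prL.runR (prE.runR (envI z s k)))) pk) []) : Valid z k := by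
  obtain ⟨u, hu, hu'⟩ := pick_val z s k
  rw [hu] at h
  have hv := Sd.valid_of_holds _ h
  have h0 : (sdOf z k).nu ≠ 0 := by
    have h1 : 11 / 10 ≤ (sdOf z k).nu := hv.rg.nu0
    exact ne_of_gt (by linarith)
  rw [hu' h0] at hv
  exact hv

theorem core_sound {zs : Fin 9 → ℝ} (hz : Near zs) {c0 h0 c1 h1 c2 h2 : ℕ} {r p D k s : TM}
    {fr fp fD fk fs : (ℕ → ℝ) → ℝ} (hr : G r fr) (hp : G p fp) (hD : G D fD) (hk : G k fk)
    (hs : G s fs) {fin : TM → Bool} (H : core c0 h0 c1 h1 c2 h2 r p D k s fin = true) :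
    ∃ T, G T (fun δ =>
        ell (zOf zs (val c0 + mag h0 * δ 0) (val c1 + mag h1 * δ 1) (val c2 + mag h2 * δ 2)
          (fr δ) (fp δ) (fD δ) (fs δ)) + 2 * fs δ *
        Yn (zOf zs (val c0 + mag h0 * δ 0) (val c1 + mag h1 * δ 1) (val c2 + mag h2 * δ 2)
          (fr δ) (fp δ) (fD δ) (fs δ))) ∧ fin T = true ∧
      ∀ δ, Bd δ 1 → Valid (zOf zs (val c0 + mag h0 * δ 0) (val c1 + mag h1 * δ 1)
        (val c2 + mag h2 * δ 2) (fr δ) (fp δ) (fD δ) (fs δ)) (fk δ) := by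
  obtain ⟨T0, g0, -, -, H⟩ := aff_sound H (trb_e0 c0)
  obtain ⟨T1, g1, -, -, H⟩ := aff_sound H (trb_e0 c1)
  obtain ⟨T2, g2, -, -, H⟩ := aff_sound H (trb_e0 c2)
  simp only [trb_val0, trb_valh, zero_mul, add_zero] at g0 g1 g2
  have hE : EnvG (TL.cons T0 (TL.cons T1 (TL.cons T2 (TL.cons r (TL.cons p (TL.cons D (TL.cons k
      (TL.cons s (TL.cons (cstT Z0 EZ) (TL.cons (cstT Z1 EZ) (TL.cons (cstT Z2 EZ)
      (TL.cons (cstT Z3 EZ) (TL.cons (cstT Z6 EZ) (TL.cons (cstT Z7 EZ) TL.nil))))))))))))))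
      fun δ => [val c0 + mag h0 * δ 0, val c1 + mag h1 * δ 1, val c2 + mag h2 * δ 2, fr δ, fp δ,
        fD δ, fk δ, fs δ, zs 0, zs 1, zs 2, zs 3, zs 6, zs 7] :=
    ⟨g0, g1, g2, hr, hp, hD, hk, hs, cstT_sound (hz 0), cstT_sound (hz 1), cstT_sound (hz 2),
      cstT_sound (hz 3), cstT_sound (hz 6), cstT_sound (hz 7), trivial⟩
  obtain ⟨E1, e1, H⟩ := prI.runT_sound hE H
  obtain ⟨E2, e2, H⟩ := trb_pickT e1 pkI H
  simp only [trb_prI] at e2
  obtain ⟨E3, e3, H⟩ := prE.runT_sound e2 H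
  obtain ⟨E4, e4, H⟩ := prL.runT_sound e3 H
  obtain ⟨T, hT, H⟩ := TL.get_sound e4 H
  simp only [prL_val] at hT
  cases hf : fin T with
  | false =>
    rw [hf] at H
    exact absurd H Bool.false_ne_true
  | true =>
    rw [hf] at H
    obtain ⟨E5, e5, H⟩ := prU.runT_sound e4 (k := fun E => pickAF E pk fun S => ck.run S VL.nil)
      (by rw [cond_true] at H; exact H)
    obtain ⟨S, hS, H⟩ := pickAF_sound e5 pk (k := fun S => ck.run S VL.nil) H
    exact ⟨T, hT, hf, fun δ hδ => valid_of_ck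
      (Ck.run_sound hδ ck (v := VL.nil) (σ := []) (hS δ hδ) trivial H)⟩

end Pool.Agent.Lib.MP_ee7495_gt.Y
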