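import Mathlib
import Pool.Agent.Lib.MP_ee7495_gt.Y.TrB

set_option autoImplicit false

open scoped RealInnerProductSpace
open Real Set

namespace Pool.Agent.Lib.MP_ee7495_gt.Y

theorem Good.s0 {fs : List Facet} {zs : Fin 9 → ℝ} {l0 u0 l1 u1 l2 u2 : ℕ} (x : ℕ)
    (a : Good fs zs l0 x l1 u1 l2 u2) (b : Good fs zs x u0 l1 u1 l2 u2) :
    Good fs zs l0 u0 l1 u1 l2 u2 := by
  intro x0 x1 x2 a0 b0 a1 b1 a2 b2
  rcases le_total x0 (val x) with h | h
  · exact a x0 x1 x2 a0 h a1 b1 a2 b2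
  · exact b x0 x1 x2 h b0 a1 b1 a2 b2
theorem Good.s1 {fs : List Facet} {zs : Fin 9 → ℝ} {l0 u0 l1 u1 l2 u2 : ℕ} (x : ℕ)
    (a : Good fs zs l0 u0 l1 x l2 u2) (b : Good fs zs l0 u0 x u1 l2 u2) :
    Good fs zs l0 u0 l1 u1 l2 u2 := by
  intro x0 x1 x2 a0 b0 a1 b1 a2 b2
  rcases le_total x1 (val x) with h | h
  · exact a x0 x1 x2 a0 b0 a1 h a2 b2
  · exact b x0 x1 x2 a0 b0 h b1 a2 b2
theorem Good.s2 {fs : List Facet} {zs : Fin 9 → ℝ} {l0 u0 l1 u1 l2 u2 : ℕ} (x : ℕ)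
    (a : Good fs zs l0 u0 l1 u1 l2 x) (b : Good fs zs l0 u0 l1 u1 x u2) :
    Good fs zs l0 u0 l1 u1 l2 u2 := by
  intro x0 x1 x2 a0 b0 a1 b1 a2 b2
  rcases le_total x2 (val x) with h | h
  · exact a x0 x1 x2 a0 b0 a1 b1 a2 h
  · exact b x0 x1 x2 a0 b0 a1 b1 h b2

/-- A point of the cube with three given coordinates. -/
def trcPt (a b c : ℝ) : ℕ → ℝ := fun i =>
  if i = 0 then a else if i = 1 then b else if i = 2 then c else 0

theorem trc_pt0 (a b c : ℝ) : trcPt a b c 0 = a := by simp [trcPt]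
theorem trc_pt1 (a b c : ℝ) : trcPt a b c 1 = b := by simp [trcPt]
theorem trc_pt2 (a b c : ℝ) : trcPt a b c 2 = c := by simp [trcPt]

theorem trc_pt3 (a b c : ℝ) (i : ℕ) (hi : 3 ≤ i) : trcPt a b c i = 0 := by
  have h0 : i ≠ 0 := by omega
  have h1 : i ≠ 1 := by omega
  have h2 : i ≠ 2 := by omega
  simp [trcPt, h0, h1, h2]

theorem trc_bd {a b c : ℝ} (ha : |a| ≤ 1) (hb : |b| ≤ 1) (hc : |c| ≤ 1) :
    Bd (trcPt a b c) 1 := by
  intro i
  unfold trcPt
  split_ifs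
  · exact ha
  · exact hb
  · exact hc
  · simp

theorem trc_scale {x h : ℝ} (hx : |x| ≤ h) : ∃ d : ℝ, |d| ≤ 1 ∧ x = h * d := by
  have h0 : 0 ≤ h := (abs_nonneg _).trans hx
  rcases h0.eq_or_lt with h1 | h1
  · refine ⟨0, by simp, ?_⟩
    rw [← h1] at hx
    simpa using abs_nonpos_iff.1 hx
  · refine ⟨x / h, ?_, by field_simp⟩
    rw [abs_div, abs_of_pos h1, div_le_one h1]
    exact hx

theorem trc_mid {l u : ℕ} {x : ℝ} (a : val l ≤ x) (b : x ≤ val u) :
    ∃ d : ℝ, |d| ≤ 1 ∧ x = val (Nat.shiftRight (Nat.add l u) 1) +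
      mag (Nat.sub u (Nat.shiftRight (Nat.add l u) 1)) * d := by
  have hlu : l ≤ u := by
    have h := a.trans b
    unfold val at h
    have h2 : (l : ℝ) ≤ u := by
      have := (div_le_div_iff_of_pos_right (show (0 : ℝ) < 2 ^ 60 by positivity)).1 h
      linarith
    exact_mod_cast h2
  have hc : Nat.shiftRight (Nat.add l u) 1 = (l + u) / 2 := by
    show (l + u) >>> 1 = _
    rw [Nat.shiftRight_eq_div_pow]
  rw [hc]
  generalize hm : (l + u) / 2 = c
  have h1 : c ≤ u := by omega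
  have h2 : 2 * c ≤ l + u := by omega
  have h3 : ((Nat.sub u c : ℕ) : ℝ) = u - c := by
    show ((u - c : ℕ) : ℝ) = _
    rw [Nat.cast_sub h1]
  have h4 : (2 : ℝ) * c ≤ l + u := by exact_mod_cast h2
  have hx : |x - val c| ≤ mag (Nat.sub u c) := by
    unfold mag
    rw [h3]
    unfold val at a b ⊢
    rw [abs_le]
    constructor
    · have e : -(((u : ℝ) - c) / 2 ^ 60) + ((c : ℝ) - 2 ^ 68) / 2 ^ 60 ≤
          ((l : ℝ) - 2 ^ 68) / 2 ^ 60 := by
        rw [← neg_div, ← add_div]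
        exact div_le_div_of_nonneg_right (by linarith) (by positivity)
      linarith
    · have e : ((u : ℝ) - 2 ^ 68) / 2 ^ 60 - ((c : ℝ) - 2 ^ 68) / 2 ^ 60 =
          ((u : ℝ) - c) / 2 ^ 60 := by ring
      linarith
  obtain ⟨d, hd, e⟩ := trc_scale hx
  exact ⟨d, hd, by linarith⟩

theorem trc_self (c : ℕ) : |val c - val c| ≤ mag 0 := by simp [mag]

theorem trc_line (zs : Fin 9 → ℝ) (a0 a1 a2 r p D t : ℝ) :
    zOf zs (t * a0) (t * a1) (t * a2) (zs 4 + t * r) (zs 8 + t * p) (zs 5 + t * D) 0 =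
      zs + t • (zOf zs a0 a1 a2 (zs 4 + r) (zs 8 + p) (zs 5 + D) 0 - zs) := by
  funext i
  rw [Pi.add_apply, Pi.smul_apply, Pi.sub_apply, smul_eq_mul]
  fin_cases i
  all_goals
    simp only [zOf, Fin.zero_eta, Fin.mk_one, Fin.reduceFinMk, Fin.isValue, Matrix.cons_val_zero,
      Matrix.cons_val_one, Matrix.cons_val]
    ring

theorem trc_congr (zs : Fin 9 → ℝ) {a0 a1 a2 r p D b0 b1 b2 r' p' D' : ℝ} (h0 : a0 = b0)
    (h1 : a1 = b1) (h2 : a2 = b2) (h3 : r = r') (h4 : p = p') (h5 : D = D') :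
    zOf zs a0 a1 a2 r p D 0 = zOf zs b0 b1 b2 r' p' D' 0 := by
  rw [h0, h1, h2, h3, h4, h5]

theorem inn_sound {zs : Fin 9 → ℝ} (hz : CritH zs) {r1 r2 r3 p1 p2 p3 D1 D2 D3 k0 k1 k2 k3 : ℕ}
    (H : innCheck r1 r2 r3 p1 p2 p3 D1 D2 D3 k0 k1 k2 k3 = true) : Inner zs := by
  have n4 : |zs 4 - val Z4| ≤ mag EZ := hz.near 4
  have n5 : |zs 5 - val Z5| ≤ mag EZ := hz.near 5
  have n8 : |zs 8 - val Z8| ≤ mag EZ := hz.near 8
  unfold innCheck at H
  obtain ⟨r, hr, -, -, H⟩ := aff_sound H n4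
  obtain ⟨p, hp, -, -, H⟩ := aff_sound H n8
  obtain ⟨D, hD, -, -, H⟩ := aff_sound H n5
  obtain ⟨k, hk, -, -, H⟩ := aff_sound H (trc_self _)
  have hs : G (cstT 295147905179352825856 0) (fun _ => (0 : ℝ)) :=
    cstT_sound (by rw [afs_val_B]; simp [mag])
  obtain ⟨T, hT, hfin, hV⟩ := core_sound hz.near hr hp hD hk hs H
  intro x0 x1 x2 h0 h1 h2
  obtain ⟨d0, b0, e0⟩ := trc_scale h0
  obtain ⟨d1, b1, e1⟩ := trc_scale h1
  obtain ⟨d2, b2, e2⟩ := trc_scale h2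
  have hδ := trc_bd b0 b1 b2
  have hval := hV _ hδ
  have key : ∀ t : ℝ, zOf zs (val 295147905179352825856 + mag RI0 * (t • trcPt d0 d1 d2) 0)
      (val 295147905179352825856 + mag RI0 * (t • trcPt d0 d1 d2) 1)
      (val 295147905179352825856 + mag RI2 * (t • trcPt d0 d1 d2) 2)
      (zs 4 + val (up r1) * (t • trcPt d0 d1 d2) 0 + val (up r2) * (t • trcPt d0 d1 d2) 1 +
        val (up r3) * (t • trcPt d0 d1 d2) 2)
      (zs 8 + val (up p1) * (t • trcPt d0 d1 d2) 0 + val (up p2) * (t • trcPt d0 d1 d2) 1 +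
        val (up p3) * (t • trcPt d0 d1 d2) 2)
      (zs 5 + val (up D1) * (t • trcPt d0 d1 d2) 0 + val (up D2) * (t • trcPt d0 d1 d2) 1 +
        val (up D3) * (t • trcPt d0 d1 d2) 2) 0 =
      zs + t • (zOf zs x0 x1 x2
        (zs 4 + (val (up r1) * d0 + val (up r2) * d1 + val (up r3) * d2))
        (zs 8 + (val (up p1) * d0 + val (up p2) * d1 + val (up p3) * d2))
        (zs 5 + (val (up D1) * d0 + val (up D2) * d1 + val (up D3) * d2)) 0 - zs) := by
    intro t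
    rw [← trc_line]
    simp only [Pi.smul_apply, smul_eq_mul, trc_pt0, trc_pt1, trc_pt2, afs_val_B]
    refine trc_congr zs ?_ ?_ ?_ ?_ ?_ ?_
    · rw [e0]; ring
    · rw [e1]; ring
    · rw [e2]; ring
    · ring
    · ring
    · ring
  set v := zOf zs x0 x1 x2
        (zs 4 + (val (up r1) * d0 + val (up r2) * d1 + val (up r3) * d2))
        (zs 8 + (val (up p1) * d0 + val (up p2) * d1 + val (up p3) * d2))
        (zs 5 + (val (up D1) * d0 + val (up D2) * d1 + val (up D3) * d2)) 0 - zs with hv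
  have hline : HasDerivAt (fun t : ℝ => zs + t • v) v 0 := by
    simpa using ((hasDerivAt_id (0 : ℝ)).smul_const v).const_add zs
  have hc : HasFDerivAt ell (0 : (Fin 9 → ℝ) →L[ℝ] ℝ) (zs + (0 : ℝ) • v) := by
    simpa using hz.crit
  have hder : HasDerivAt (fun t : ℝ => ell (zs + t • v)) 0 0 := by
    have h := hc.comp_hasDerivAt (0 : ℝ) hline
    rw [zero_apply] at h
    exact h
  have hpos := posT_sound hT hfin hδ (trc_pt3 d0 d1 d2) (by
    simp only [key, mul_zero, zero_mul, add_zero]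
    exact hder)
  have k0' := key 0
  have k1' := key 1
  simp only [zero_smul, add_zero] at k0'
  simp only [one_smul] at k1'
  simp only [k0', k1', mul_zero, zero_mul, add_zero] at hpos
  simp only [k1'] at hval
  rw [hv, add_sub_cancel] at hpos hval
  exact ⟨_, _, _, _, 0, le_rfl, hval, by simpa using hpos⟩

theorem trc_cond {a b : Bool} (h : cond a b false = true) : a = true ∧ b = true := by
  cases a <;> simp_all

theorem trc_abs {l u R : ℕ} {x : ℝ} (hl : Nat.ble (ab l) R = true) (hu : Nat.ble (ab u) R = true)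
    (a : val l ≤ x) (b : x ≤ val u) : |x| ≤ mag R := by
  have h1 := tma_mag_mono (Nat.le_of_ble_eq_true hl)
  have h2 := tma_mag_mono (Nat.le_of_ble_eq_true hu)
  rw [mag_ab, abs_le] at h1 h2
  rw [abs_le]
  constructor <;> linarith [h1.1, h2.2]

theorem Tr.check_sound {zs : Fin 9 → ℝ} (hz : CritH zs) (hi : Inner zs) (fs : List Facet) (t : Tr)
    {l0 u0 l1 u1 l2 u2 : ℕ} (H : t.check fs l0 u0 l1 u1 l2 u2 = true) :
    Good fs zs l0 u0 l1 u1 l2 u2 := by
  induction t generalizing l0 u0 l1 u1 l2 u2 with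
  | s0 x a b ia ib =>
    have H' : frc (up x) (fun x => cond (a.check fs l0 x l1 u1 l2 u2)
        (b.check fs x u0 l1 u1 l2 u2) false) = true := H
    rw [frc_eq] at H'
    exact Good.s0 _ (ia (trc_cond H').1) (ib (trc_cond H').2)
  | s1 x a b ia ib =>
    have H' : frc (up x) (fun x => cond (a.check fs l0 u0 l1 x l2 u2)
        (b.check fs l0 u0 x u1 l2 u2) false) = true := H
    rw [frc_eq] at H'
    exact Good.s1 _ (ia (trc_cond H').1) (ib (trc_cond H').2)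
  | s2 x a b ia ib =>
    have H' : frc (up x) (fun x => cond (a.check fs l0 u0 l1 u1 l2 x)
        (b.check fs l0 u0 l1 u1 x u2) false) = true := H
    rw [frc_eq] at H'
    exact Good.s2 _ (ia (trc_cond H').1) (ib (trc_cond H').2)
  | lp i =>
    have H' : (match fs[i]? with
      | some f => f.miss l0 u0 l1 u1 l2 u2
      | none => false) = true := H
    intro x0 x1 x2 a0 b0 a1 b1 a2 b2
    cases hf : fs[i]? with
    | none => rw [hf] at H'; exact absurd H' Bool.false_ne_true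
    | some f =>
      rw [hf] at H'
      exact Or.inl ⟨f, List.mem_of_getElem? hf, Facet.miss_sound H' hz.near a0 b0 a1 b1 a2 b2⟩
  | inn =>
    have H' : (Nat.ble (ab l0) RI0 && Nat.ble (ab u0) RI0 && Nat.ble (ab l1) RI0 &&
      Nat.ble (ab u1) RI0 && Nat.ble (ab l2) RI2 && Nat.ble (ab u2) RI2) = true := H
    simp only [Bool.and_eq_true] at H'
    obtain ⟨⟨⟨⟨⟨c0, c1⟩, c2⟩, c3⟩, c4⟩, c5⟩ := H'
    intro x0 x1 x2 a0 b0 a1 b1 a2 b2
    exact Or.inr (hi x0 x1 x2 (trc_abs c0 c1 a0 b0) (trc_abs c2 c3 a1 b1) (trc_abs c4 c5 a2 b2))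
  | tm r0 r1 r2 r3 p0 p1 p2 p3 D0 D1 D2 D3 k0 k1 k2 k3 s0 s1 s2 s3 d0 d1 d2 =>
    have H' : frc (Nat.shiftRight (Nat.add l0 u0) 1) (fun c0 =>
      frc (Nat.shiftRight (Nat.add l1 u1) 1) fun c1 =>
      frc (Nat.shiftRight (Nat.add l2 u2) 1) fun c2 =>
      aff (up r0) (up r1) (up r2) (up r3) 0 fun r => aff (up p0) (up p1) (up p2) (up p3) 0 fun p =>
      aff (up D0) (up D1) (up D2) (up D3) 0 fun D => aff (up k0) (up k1) (up k2) (up k3) 0 fun k =>
      aff (up s0) (up s1) (up s2) (up s3) 0 fun s =>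
      cond (Nat.ble (Nat.add 295147905179352825856 s.b1) s.c)
        (core c0 (Nat.sub u0 c0) c1 (Nat.sub u1 c1) c2 (Nat.sub u2 c2) r p D k s fun T =>
          lowT T LHI (Int.subNatNat d0 1024) (Int.subNatNat d1 1024) (Int.subNatNat d2 1024))
        false) = true := H
    rw [frc_eq, frc_eq, frc_eq] at H'
    obtain ⟨r, hr, -, -, H'⟩ := aff_sound H' (trc_self _)
    obtain ⟨p, hp, -, -, H'⟩ := aff_sound H' (trc_self _)
    obtain ⟨D, hD, -, -, H'⟩ := aff_sound H' (trc_self _)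
    obtain ⟨k, hk, -, -, H'⟩ := aff_sound H' (trc_self _)
    obtain ⟨s, hs, sc, sb, H'⟩ := aff_sound H' (trc_self _)
    obtain ⟨hle, H'⟩ := trc_cond H'
    obtain ⟨T, hT, hfin, hV⟩ := core_sound hz.near hr hp hD hk hs H'
    intro x0 x1 x2 a0 b0 a1 b1 a2 b2
    obtain ⟨y0, c0, e0⟩ := trc_mid a0 b0
    obtain ⟨y1, c1, e1⟩ := trc_mid a1 b1
    obtain ⟨y2, c2, e2⟩ := trc_mid a2 b2
    have hδ := trc_bd c0 c1 c2
    have hval := hV _ hδ
    have hlow := lowT_sound hT hfin hδ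
    have hlin := afs_lin hδ (le_of_eq sb.symm)
    have hmono := afs_val_mono (Nat.le_of_ble_eq_true hle)
    rw [afs_val_add, afs_val_B, sc] at hmono
    simp only [trc_pt0, trc_pt1, trc_pt2] at hval hlow hlin
    rw [← e0, ← e1, ← e2] at hval hlow
    refine Or.inr ⟨_, _, _, _, _, ?_, hval, hz.hi.trans hlow⟩
    rw [abs_le] at hlin
    linarith [hlin.1]

end Pool.Agent.Lib.MP_ee7495_gt.Y
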