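import Mathlib
import Pool.Agent.Lib.MP_ee7495_gt.Y.TrC
import Pool.Agent.Lib.MP_ee7495_gt.Y.TD0
import Pool.Agent.Lib.MP_ee7495_gt.Y.TD1
import Pool.Agent.Lib.MP_ee7495_gt.Y.TD2
import Pool.Agent.Lib.MP_ee7495_gt.Y.TD3
import Pool.Agent.Lib.MP_ee7495_gt.Y.TD4
import Pool.Agent.Lib.MP_ee7495_gt.Y.TD5
import Pool.Agent.Lib.MP_ee7495_gt.Y.TD6
import Pool.Agent.Lib.MP_ee7495_gt.Y.TD7
import Pool.Agent.Lib.MP_ee7495_gt.Y.TD8
import Pool.Agent.Lib.MP_ee7495_gt.Y.TD9
import Pool.Agent.Lib.MP_ee7495_gt.Y.TD10
import Pool.Agent.Lib.MP_ee7495_gt.Y.TD11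

set_option autoImplicit false
set_option maxRecDepth 100000

namespace Pool.Agent.Lib.MP_ee7495_gt.Y

theorem inn_check : innCheck 8589800324 8590639578 8592590206 8588207775 8586617579 8590268438 8589940989 8589323517
  8592300776 8695161291 8590139214 8592201787 8585275224 = true := by
  decide +kernel

theorem good_root {zs : Fin 9 → ℝ} (hz : CritH zs) :
    Good facets zs 295057833186805415936 295264998769664458752 258254417031933722624
      332041393326771929088 258254417031933722624 332041393326771929088 :=
  have hi : Inner zs := inn_sound hz inn_check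
  (Good.s1 294859674803201114112 (Tr.check_sound hz hi _ _ tc0)
    (Good.s1 295436135555504537600 (Good.s2 294859674803201114112 (Tr.check_sound hz hi _ _ tc1)
    (Good.s2 295436135555504537600 (Good.s2 295292020367428681728 (Good.s2 295003789991276969984 (Tr.check_sound hz hi _ _ tc2)
    (Good.s2 295219962773390753792 (Good.s2 295075847585314897920 (Tr.check_sound hz hi _ _ tc3)
    (Good.s1 295292020367428681728 (Good.s1 295003789991276969984 (Tr.check_sound hz hi _ _ tc4)
    (Good.s2 295183933976371789824 (Good.s2 295111876382333861888 (Tr.check_sound hz hi _ _ tc5)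
    (Good.s1 295219962773390753792 (Good.s1 295075847585314897920 (Good.s2 295147905179352825856 (Tr.check_sound hz hi _ _ tc6)
    (Good.s0 295161415978234937344 (Tr.check_sound hz hi _ _ tc7)
    (Tr.check_sound hz hi _ _ tc8)))
    (Good.s2 295165919577862307840 (Good.s0 295206451974508642304 (Good.s2 295129890780843343872 (Tr.check_sound hz hi _ _ tc9)
    (Good.s1 295183933976371789824 (Good.s0 295102869183079120896 (Tr.check_sound hz hi _ _ tc10)
    (Good.s1 295111876382333861888 (Tr.check_sound hz hi _ _ tc11)
    (Good.s2 295156912378607566848 (Good.s0 295177178576930734080 (Good.s2 295138897980098084864 (Tr.check_sound hz hi _ _ tc12)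
    (Good.s1 295165919577862307840 (Good.s0 295125387181215973376 (Tr.check_sound hz hi _ _ tc13)
    (Good.s1 295129890780843343872 (Tr.check_sound hz hi _ _ tc14)
    (Good.s2 295152408778980196352 (Good.s0 295162541878141779968 (Good.s2 295143401579725455360 (Tr.check_sound hz hi _ _ tc15)
    (Good.s1 295152408778980196352 (Good.s0 295136646180284399616 (Tr.check_sound hz hi _ _ tc16)
    (Good.s2 295149031079259668480 (Good.s0 295152408778980196352 (Tr.check_sound hz hi _ _ tc17)
    (Tr.check_sound hz hi _ _ tc18))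
    (Tr.check_sound hz hi _ _ tc19)))
    (Tr.check_sound hz hi _ _ tc20)))
    (Tr.check_sound hz hi _ _ tc21))
    (Tr.check_sound hz hi _ _ tc22))))
    (Tr.check_sound hz hi _ _ tc23)))
    (Tr.check_sound hz hi _ _ tc24))
    (Tr.check_sound hz hi _ _ tc25))))
    (Tr.check_sound hz hi _ _ tc26)))
    (Good.s2 295138897980098084864 (Tr.check_sound hz hi _ _ tc27)
    (Good.s1 295147905179352825856 (Tr.check_sound hz hi _ _ tc28)
    (Tr.check_sound hz hi _ _ tc29))))
    (Good.s0 295161415978234937344 (Tr.check_sound hz hi _ _ tc30)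
    (Good.s1 295147905179352825856 (Tr.check_sound hz hi _ _ tc31)
    (Tr.check_sound hz hi _ _ tc32)))))
    (Good.s2 295147905179352825856 (Tr.check_sound hz hi _ _ tc33)
    (Good.s0 295161415978234937344 (Tr.check_sound hz hi _ _ tc34)
    (Tr.check_sound hz hi _ _ tc35)))))
    (Good.s1 295147905179352825856 (Good.s0 295161415978234937344 (Good.s1 295075847585314897920 (Tr.check_sound hz hi _ _ tc36)
    (Tr.check_sound hz hi _ _ tc37))
    (Good.s1 295075847585314897920 (Tr.check_sound hz hi _ _ tc38)
    (Tr.check_sound hz hi _ _ tc39)))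
    (Good.s0 295161415978234937344 (Good.s1 295219962773390753792 (Tr.check_sound hz hi _ _ tc40)
    (Tr.check_sound hz hi _ _ tc41))
    (Good.s1 295219962773390753792 (Good.s2 295201948374881271808 (Tr.check_sound hz hi _ _ tc42)
    (Tr.check_sound hz hi _ _ tc43))
    (Tr.check_sound hz hi _ _ tc44))))))
    (Tr.check_sound hz hi _ _ tc45)))
    (Good.s1 295147905179352825856 (Good.s1 295003789991276969984 (Tr.check_sound hz hi _ _ tc46)
    (Good.s2 295255991570409717760 (Good.s0 295161415978234937344 (Good.s1 295075847585314897920 (Tr.check_sound hz hi _ _ tc47)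
    (Good.s2 295237977171900235776 (Tr.check_sound hz hi _ _ tc48)
    (Tr.check_sound hz hi _ _ tc49)))
    (Good.s1 295075847585314897920 (Good.s2 295237977171900235776 (Good.s0 295213207373949698048 (Good.s1 295039818788295933952 (Tr.check_sound hz hi _ _ tc50)
    (Tr.check_sound hz hi _ _ tc51))
    (Tr.check_sound hz hi _ _ tc52))
    (Tr.check_sound hz hi _ _ tc53))
    (Good.s2 295237977171900235776 (Good.s0 295213207373949698048 (Tr.check_sound hz hi _ _ tc54)
    (Good.s1 295111876382333861888 (Tr.check_sound hz hi _ _ tc55)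
    (Good.s2 295228969972645494784 (Tr.check_sound hz hi _ _ tc56)
    (Tr.check_sound hz hi _ _ tc57))))
    (Tr.check_sound hz hi _ _ tc58))))
    (Good.s0 295161415978234937344 (Good.s1 295075847585314897920 (Tr.check_sound hz hi _ _ tc59)
    (Good.s2 295274005968919199744 (Good.s0 295109624582520176640 (Tr.check_sound hz hi _ _ tc60)
    (Tr.check_sound hz hi _ _ tc61))
    (Tr.check_sound hz hi _ _ tc62)))
    (Good.s1 295075847585314897920 (Tr.check_sound hz hi _ _ tc63)
    (Good.s2 295274005968919199744 (Tr.check_sound hz hi _ _ tc64)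
    (Good.s0 295213207373949698048 (Good.s1 295111876382333861888 (Tr.check_sound hz hi _ _ tc65)
    (Tr.check_sound hz hi _ _ tc66))
    (Tr.check_sound hz hi _ _ tc67)))))))
    (Good.s1 295292020367428681728 (Good.s2 295255991570409717760 (Good.s0 295161415978234937344 (Good.s1 295219962773390753792 (Good.s2 295237977171900235776 (Tr.check_sound hz hi _ _ tc68)
    (Good.s0 295109624582520176640 (Tr.check_sound hz hi _ _ tc69)
    (Good.s1 295183933976371789824 (Tr.check_sound hz hi _ _ tc70)
    (Tr.check_sound hz hi _ _ tc71))))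
    (Tr.check_sound hz hi _ _ tc72))
    (Good.s1 295219962773390753792 (Good.s2 295237977171900235776 (Good.s0 295213207373949698048 (Tr.check_sound hz hi _ _ tc73)
    (Good.s1 295183933976371789824 (Tr.check_sound hz hi _ _ tc74)
    (Tr.check_sound hz hi _ _ tc75)))
    (Good.s0 295213207373949698048 (Tr.check_sound hz hi _ _ tc76)
    (Tr.check_sound hz hi _ _ tc77)))
    (Tr.check_sound hz hi _ _ tc78)))
    (Good.s0 295161415978234937344 (Good.s1 295219962773390753792 (Good.s2 295274005968919199744 (Tr.check_sound hz hi _ _ tc79)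
    (Tr.check_sound hz hi _ _ tc80))
    (Tr.check_sound hz hi _ _ tc81))
    (Good.s1 295219962773390753792 (Good.s2 295274005968919199744 (Tr.check_sound hz hi _ _ tc82)
    (Tr.check_sound hz hi _ _ tc83))
    (Tr.check_sound hz hi _ _ tc84))))
    (Tr.check_sound hz hi _ _ tc85)))))
    (Tr.check_sound hz hi _ _ tc86))
    (Tr.check_sound hz hi _ _ tc87)))
    (Tr.check_sound hz hi _ _ tc88)))

end Pool.Agent.Lib.MP_ee7495_gt.Y
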