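import Mathlib
import Pool.Agent.Lib.MP_ee7495_gt.Y.Arc
import Pool.Agent.Lib.MP_ee7495_gt.Y.NrmX
import Pool.Agent.Lib.MP_ee7495_gt.Y.Fam5

set_option autoImplicit false

open scoped RealInnerProductSpace
open Real Set

namespace Pool.Agent.Lib.MP_ee7495_gt.Y

/-- On the arc of the third family the supporting points come in the normal order. -/
theorem normal3 {C : Cfg} (hb : NoBad C) {z : Fin 9 → ℝ} {k ε s : ℝ} (h : Valid z k) (hε : 0 < ε)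
    (hs : 0 ≤ s) (h1 : -z 1 = C.cx ε - 13 / 16 * s) (h2 : z 2 = C.cy ε + 9 / 16 * s) {t : ℝ}
    (ht : t ∈ Icc 0 (z 5)) : 1 ≤ C.V1 (zU z t) + C.V2 (zU z t) + C.V3 (zU z t) := by
  have hu : ‖zU z t‖ = 1 := h.cone.norm_U t
  have hc : ⟪zC z, zU z t⟫ = 1 := h.cone.inner_cU t
  have ho := h.U_om ht
  have hG : InG 1 (zU z t) := hu ▸ ho.inG
  obtain ⟨b1, b2⟩ := ho.beta
  generalize zU z t = u at hu hc hG b1 b2
  rcases C.tri3 hu with h3 | h3 | h3 | h3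
  · exact h3
  · exfalso
    have p1 := C.Phi3_inG hG
    have p2 := C.s3_nonneg hε.le
    have p3 : -1 ≤ u 2 := by
      have := normsq3 u
      rw [hu] at this
      nlinarith [mul_self_nonneg (u 0), mul_self_nonneg (u 1)]
    have p4 : C.s3 ε = 4 / 3 * (mx4 (fun j => C.Phi3 (Gk j)) + (C.h - 1) + ε) := rfl
    rw [hu] at b1
    simp only [inner3, zC, vec_0, vec_1, vec_2] at hc h3
    rw [h1, h2, Cfg.cx, Cfg.cy] at hc
    nlinarith [mul_nonneg (add_nonneg p2 hs) (sub_nonneg.2 b1),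
      mul_nonneg C.de_nonneg (neg_nonneg.2 b2),
      mul_nonneg (sub_nonneg.2 C.one_le_h) (sub_nonneg.2 p3)]
  · exact absurd h3 (hb u hG).1.not_ge
  · exact absurd h3 (hb u hG).2.not_ge

theorem val_cont {g : ℝ → E} (hg : Continuous g) (ξ : E) : Continuous fun t => pp ⟪ξ, g t⟫ :=
  (continuous_const.inner hg).max continuous_const

theorem val_sum {g : ℝ → E} (hg : Continuous g) (a b : ℝ) (S : Finset ℕ) (e : ℕ → E) :
    ∑ i ∈ S, Ip g a b (e i) = ∫ t in a..b, ∑ i ∈ S, pp ⟪e i, g t⟫ :=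
  (intervalIntegral.integral_finsetSum fun i _ =>
    (val_cont hg (e i)).intervalIntegrable a b).symm

theorem val_mass (C : Cfg) {g : ℝ → E} (hg : Continuous g) {a b : ℝ} (hab : a ≤ b) {m : ℝ → ℝ}
    (hm : Continuous m) (h : ∀ t ∈ Icc a b, m t ≤ C.V1 (g t) + C.V2 (g t) + C.V3 (g t)) :
    ∫ t in a..b, m t ≤ C.S1 (Ip g a b) + C.S2 (Ip g a b) + C.S3 (Ip g a b) := by
  have c : ∀ S : Finset ℕ, Continuous fun t => ∑ i ∈ S, pp ⟪C.ed i, g t⟫ := fun S =>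
    continuous_finsetSum _ fun i _ => val_cont hg _
  simp only [Cfg.S1, Cfg.S2, Cfg.S3, val_sum hg]
  rw [← intervalIntegral.integral_add ((c _).intervalIntegrable _ _)
    ((c _).intervalIntegrable _ _), ← intervalIntegral.integral_add
    (((c _).fun_add (c _)).intervalIntegrable _ _) ((c _).intervalIntegrable _ _)]
  exact intervalIntegral.integral_mono_on hab (hm.intervalIntegrable _ _)
    ((((c _).fun_add (c _)).fun_add (c _)).intervalIntegrable _ _) h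

theorem val_smul (C : Cfg) {r : ℝ} (hr : 0 ≤ r) (u : E) :
    C.V1 (r • u) + C.V2 (r • u) + C.V3 (r • u) = r * (C.V1 u + C.V2 u + C.V3 u) := by
  simp only [Cfg.V1, Cfg.V2, Cfg.V3, Cfg.S1, Cfg.S2, Cfg.S3, real_inner_smul_right, pp_mul hr,
    mul_add, Finset.mul_sum]

theorem val_normA (z : Fin 9 → ℝ) : ‖zA z‖ ^ 2 = z 0 * z 0 + 1 ∧ ‖zA z‖ ≠ 0 := by
  have h : ‖zA z‖ ^ 2 = z 0 * z 0 + 1 := by
    rw [normsq3]
    simp [zA]
  refine ⟨h, fun h0 => ?_⟩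
  rw [h0] at h
  nlinarith [mul_self_nonneg (z 0)]

theorem val_g2 (z : Fin 9 → ℝ) (t : ℝ) : cos (z 3) ≤ ‖g2 z t‖ := by
  refine (abs_le_of_sq_le_sq' (le_of_eq ?_) (norm_nonneg _)).2
  obtain ⟨h1, h2⟩ := val_normA z
  rw [normsq3]
  simp only [g2, arc, PiLp.add_apply, PiLp.smul_apply, smul_eq_mul, vec_0, vec_1, vec_2]
  field_simp
  linear_combination cos (z 3) ^ 2 * (sin t ^ 2 * h1 - ‖zA z‖ ^ 2 * sin_sq_add_cos_sq t)

theorem val_g5 (z : Fin 9 → ℝ) (t : ℝ) : sin (z 7) ≤ ‖g5 z t‖ := by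
  refine (abs_le_of_sq_le_sq' (le_of_eq ?_) (norm_nonneg _)).2
  rw [normsq3]
  simp only [g5, arc, PiLp.add_apply, PiLp.smul_apply, smul_eq_mul, vec_0, vec_1, vec_2]
  linear_combination -sin (z 7) ^ 2 * (cos t ^ 2 * sin_sq_add_cos_sq (z 6) + sin_sq_add_cos_sq t)

/-- Total mass of the three families. -/
theorem mass_le {C : Cfg} (hb : NoBad C) {z : Fin 9 → ℝ} {k ε s : ℝ} (h : Valid z k)
    (az : 0 ≤ C.a 2) (ha : C.a = C.a 2 • vec 0 (z 0) 1) (hε : 0 < ε)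
    (hs : 0 ≤ s) (h1 : -z 1 = C.cx ε - 13 / 16 * s) (h2 : z 2 = C.cy ε + 9 / 16 * s) :
    cos (z 3) * z 4 + ⟪zC z, zE z - zTA z⟫ + sin (z 7) * z 8 ≤
      C.S1 (Aown z) + C.S2 (Aown z) + C.S3 (Aown z) := by
  have rg := h.rg
  have r0 : 1815 / 10000 ≤ z 4 := rg.r0
  have D0 : 0 ≤ z 5 := rg.D0
  have ch0 : 0 ≤ z 8 := rg.ch0
  have ch1 : z 8 ≤ 2837 / 10000 := rg.ch1
  have y0 : 9 / 10 ≤ z 0 := rg.y0
  have om0 : 3 / 20 ≤ z 6 := rg.om0
  have om1 : z 6 ≤ 7 / 20 := rg.om1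
  have sH : 0 ≤ sin (z 7) := h.geo.sH0
  have m2 := val_mass C (g := g2 z) (continuous_arc _ _) (a := 0) (b := z 4) (by linarith)
    (continuous_const (y := cos (z 3))) fun t _ => (val_g2 z t).trans (C.T0 (le_of_eq (by
      rw [ha]
      simp only [inner3, g2, arc, PiLp.add_apply, PiLp.smul_apply, smul_eq_mul, vec_0, vec_1,
        vec_2]
      ring)))
  have m5 := val_mass C (g := g5 z) (continuous_arc _ _) ch0
    (continuous_const (y := sin (z 7))) fun t ht => (val_g5 z t).trans (C.T0 (by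
      have c1 : 0 ≤ cos t := by
        nlinarith [one_sub_sq_div_two_le_cos (x := t), ht.1, ht.2]
      have c2 : 0 ≤ z 0 * cos (z 6) - sin (z 6) := by
        have c3 : 9 / 10 ≤ cos (z 6) := by nlinarith [one_sub_sq_div_two_le_cos (x := z 6)]
        nlinarith [sin_le (x := z 6) (by linarith)]
      refine (mul_nonneg (mul_nonneg az c1) (mul_nonneg sH c2)).trans_eq ?_
      generalize C.a 2 = α at ha
      rw [ha]
      simp only [inner3, g5, arc, PiLp.add_apply, PiLp.smul_apply, smul_eq_mul, vec_0, vec_1,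
        vec_2]
      ring))
  have m3 := val_mass C (continuous_g3 z) D0 (m := fun t => zSig z t / ‖zC z‖)
    ((continuous_sigT _ _).div_const _) fun t ht => by
      have c1 := div_nonneg (h.sig_nonneg ht) (norm_nonneg (zC z))
      rw [g3, val_smul C c1]
      exact le_mul_of_one_le_right c1 (normal3 hb h hε hs h1 h2 ht)
  rw [h.g3_mass] at m3
  simp only [intervalIntegral.integral_const, sub_zero, smul_eq_mul] at m2 m5
  have e : ∀ S : Finset ℕ, ∑ i ∈ S, Aown z (C.ed i) = ∑ i ∈ S, Ip (g2 z) 0 (z 4) (C.ed i) +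
      ∑ i ∈ S, Ip (g3 z) 0 (z 5) (C.ed i) + ∑ i ∈ S, Ip (g5 z) 0 (z 8) (C.ed i) := fun S => by
    simp only [Aown, Finset.sum_add_distrib]
  simp only [Cfg.S1, Cfg.S2, Cfg.S3, e] at m2 m3 m5 ⊢
  linarith

theorem val_Q (z : Fin 9 → ℝ) : z 0 * zQ z 1 + zQ z 2 = ‖zA z‖ * sin (z 3) := by
  obtain ⟨h1, h2⟩ := val_normA z
  have a1 : zA z 1 = z 0 := rfl
  have a2 : zA z 2 = 1 := rfl
  simp only [zQ, zP, zI, zF, mir_1, mir_2, PiLp.add_apply, PiLp.smul_apply, smul_eq_mul, vec_1,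
    vec_2, a1, a2]
  field_simp
  linear_combination -sin (z 3) * h1

theorem val_P0 (z : Fin 9 → ℝ) :
    zP0 z 0 = 0 ∧ z 0 * zP0 z 1 + zP0 z 2 = ‖zA z‖ * sin (z 3) := by
  obtain ⟨h1, h2⟩ := val_normA z
  have a0 : zA z 0 = 0 := rfl
  have a1 : zA z 1 = z 0 := rfl
  have a2 : zA z 2 = 1 := rfl
  simp only [zP0, zF, PiLp.add_apply, PiLp.smul_apply, smul_eq_mul, vec_0, vec_1, vec_2, a0, a1,
    a2]
  refine ⟨by ring, ?_⟩
  field_simp
  linear_combination -sin (z 3) * h1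

theorem val_ell (z : Fin 9 → ℝ) : ell z = 2 * z 4 * cos (z 3) + ‖zA z‖ * sin (z 3) +
    2 * z 8 * sin (z 7) + 2 * ⟪zC z, zQ z + zE z - (2 : ℝ) • zKv z⟫ + 2 * ⟪zA z, zTA z⟫ -
    2 * ⟪zA z, zKv z⟫ := by
  have e1 : ⟪zB z, zP z - zT z⟫ = ⟪zC z, zQ z + zE z - (2 : ℝ) • zKv z⟫ := by
    simp only [inner3, zB, zC, zQ, zT, zE, zKv, zI, zJ, zK, mir_0, mir_1, mir_2, PiLp.add_apply,
      PiLp.sub_apply, PiLp.smul_apply, smul_eq_mul, vec_0, vec_1, vec_2]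
    ring
  rw [ell_eq, e1, zKv, real_inner_smul_right, ← mul_assoc]
  rfl

/-- The value of one half of the certificate. -/
theorem half_value {C : Cfg} (hb : NoBad C) {z : Fin 9 → ℝ} {k ε s : ℝ} (h : Valid z k)
    (az : 0 ≤ C.a 2) (ha : C.a = C.a 2 • vec 0 (z 0) 1) (hε : 0 < ε)
    (hs : 0 ≤ s) (h1 : -z 1 = C.cx ε - 13 / 16 * s) (h2 : z 2 = C.cy ε + 9 / 16 * s) :
    ∃ j, 1 / 2 * (ell z + 2 * s * Yn z) - ε * k ≤
      C.S1 (f1 z k) + C.S2 (f2 z k j) + C.S3 (f3 z k j) + ⟪C.c - C.b, zLm z⟫ := by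
  obtain ⟨j, hj⟩ := mx4_eq fun j => C.Phi3 (Gk j)
  refine ⟨j, ?_⟩
  have e1 : C.S1 (f1 z k) = -⟪zTA z + zQ z - zP0 z, C.b⟫ + C.S1 (Aown z) +
      (sdOf z k).mc * C.S1 fun ξ => pp (-ξ 2) := by
    rw [← C.S1_lin]
    simp only [Cfg.S1, f1, Finset.sum_add_distrib, Finset.mul_sum]
  have e2 : C.S2 (f2 z k j) = ⟪zQ z + zTA z - zKv z - (1 / 2 : ℝ) • zP0 z, C.a + C.b + C.c⟫ +
      C.S2 (Aown z) + k * C.V2 (-Gk j) := by
    rw [← C.S2_lin]
    simp only [Cfg.V2, Cfg.S2, f2, Finset.sum_add_distrib, Finset.mul_sum]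
  have e3' : C.S3 (f3 z k j) = C.S3 (Aown z) +
      ((sdOf z k).mo - 1 / 10) * C.S3 (fun ξ => pp (-ξ 2)) + k * C.V3 (Gk j) := by
    simp only [Cfg.V3, Cfg.S3, f3, Finset.sum_add_distrib, Finset.mul_sum]
  have p4 : C.s3 ε = 4 / 3 * (C.V2 (-Gk j) + C.V3 (Gk j) + (C.h - 1) + ε) := by
    rw [Cfg.s3, hj]
    rfl
  have m := mass_le hb h az ha hε hs h1 h2
  have q1 := mul_le_mul_of_nonneg_left C.gen1 h.sd.mc0
  have q2 := mul_le_mul_of_nonneg_left C.gen3 (sub_nonneg.2 h.sd.mo0)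
  have q3 := mul_nonneg (sub_nonneg.2 C.one_le_h) (sub_nonneg.2 h.sd.hbr)
  have q4 := mul_nonneg (C.s3_nonneg hε.le) h.rg.kap
  have key : -⟪zTA z + zQ z - zP0 z, C.b⟫ +
      ⟪zQ z + zTA z - zKv z - (1 / 2 : ℝ) • zP0 z, C.a + C.b + C.c⟫ + ⟪C.c - C.b, zLm z⟫ +
      (cos (z 3) * z 4 + ⟪zC z, zE z - zTA z⟫ + sin (z 7) * z 8) +
      (sdOf z k).mc * (C.b 2 + C.h) + ((sdOf z k).mo - 1 / 10) * (C.c 2 + C.h) +
      k * (C.V2 (-Gk j) + C.V3 (Gk j)) = 1 / 2 * (ell z + 2 * s * Yn z) - ε * k +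
      (C.h - 1) * ((sdOf z k).mo + 1 / 2 * (sdOf z k).sh + (sdOf z k).Kz - (sdOf z k).k) +
      C.s3 ε * ((sdOf z k).Yn + 3 / 4 * (sdOf z k).k) := by
    have a0 := C.a_x
    have a1 : C.a 1 = C.a 2 * z 0 := congrArg (fun v : E => v 1) ha
    have a2 := C.a_z
    have c0 : C.c 0 = -z 1 + 13 / 16 * (C.s3 ε + s) := by rw [h1, Cfg.cx]; ring
    have c1 : C.c 1 = z 2 - 9 / 16 * (C.s3 ε + s) := by rw [h2, Cfg.cy]; ring
    have hV : C.V2 (-Gk j) = 3 / 4 * C.s3 ε - C.V3 (Gk j) - (C.h - 1) - ε := by rw [p4]; ring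
    have hQ := val_Q z
    obtain ⟨hP0, hP⟩ := val_P0 z
    have k0 : zKv z 0 = 0 := mul_zero _
    have k1 : zKv z 1 = cos (z 7) * sin (z 6) := rfl
    have k2 : zKv z 2 = cos (z 7) * cos (z 6) := rfl
    have A0 : zA z 0 = 0 := rfl
    have A1 : zA z 1 = z 0 := rfl
    have A2 : zA z 2 = 1 := rfl
    rw [val_ell, hV]
    simp only [inner3, sdOf, Sd.mc, Sd.mo, Sd.sh, Yn, zLm, zC, e3, PiLp.add_apply, PiLp.sub_apply,
      PiLp.smul_apply, smul_eq_mul, vec_0, vec_1, vec_2, a0, a1, c0, c1, hP0, k0, k1, k2, A0, A1,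
      A2]
    rw [a2]
    linear_combination (-C.h - C.b 2 - C.c 2) * (hQ - 1 / 2 * hP)
  rw [e1, e2, e3']
  linarith

end Pool.Agent.Lib.MP_ee7495_gt.Y
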