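import Mathlib
import Pool.Agent.Lib.MP_ee7495_gt.Y.Dom1
import Pool.Agent.Lib.MP_ee7495_gt.Y.Dom2
import Pool.Agent.Lib.MP_ee7495_gt.Y.Val
import Pool.Agent.Lib.MP_ee7495_gt.Y.TrA
import Pool.Agent.Lib.MP_ee7495_gt.Y.TAll
import Pool.Agent.Lib.MP_ee7495_gt.Y.Crit
import Pool.Agent.Lib.MP_ee7495_gt.Y.UMain
import Pool.Agent.Lib.MP_ee7495_gt.X.LPA
import Pool.Agent.Lib.MP_ee7495_gt.X.Facets

-- part Pool.Agent.Lib.MP_ee7495_gt.Y.M5
section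

set_option autoImplicit false

open scoped RealInnerProductSpace
open Real Set

namespace Pool.Agent.Lib.MP_ee7495_gt.Y

theorem m5_S1 (C : Cfg) {f g n : E → ℝ} (H : ∀ ξ, f ξ + g ξ ≤ n ξ) :
    C.S1 f + C.S1 g ≤ C.S1 n := by
  unfold Cfg.S1
  rw [← Finset.sum_add_distrib]
  exact Finset.sum_le_sum fun i _ => H _

theorem m5_S2 (C : Cfg) {f g n : E → ℝ} (H : ∀ ξ, f ξ + g ξ ≤ n ξ) :
    C.S2 f + C.S2 g ≤ C.S2 n := by
  unfold Cfg.S2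
  rw [← Finset.sum_add_distrib]
  exact Finset.sum_le_sum fun i _ => H _

theorem m5_S3 (C : Cfg) {f g n : E → ℝ} (H : ∀ ξ, f ξ + g ξ ≤ n ξ) :
    C.S3 f + C.S3 g ≤ C.S3 n := by
  unfold Cfg.S3
  rw [← Finset.sum_add_distrib]
  exact Finset.sum_le_sum fun i _ => H _

theorem m5_k {z : Fin 9 → ℝ} {k : ℝ} (h : Valid z k) : k ≤ 29 / 100 := by
  have h1 : 2 * (sdOf z k).lam + k ≤ 29 / 100 := h.sd.nu2
  have h2 : 0 ≤ z 5 := h.rg.D0
  have h3 : 0 ≤ (sdOf z k).lam := by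
    change 0 ≤ 51 / 100 * z 5 * (√(‖zC z‖ ^ 2 - ⟪zC z, zE z⟫ ^ 2 - 1) * ‖zC z‖⁻¹)
    positivity
  linarith

theorem m5_abs_coord (u : E) (i : Fin 3) : |u i| ≤ ‖u‖ := by
  have := EuclideanSpace.norm_eq u
  have h := PiLp.norm_apply_le u i
  simpa using h

theorem m5_s3_le (C : Cfg) {ε : ℝ} (hl : C.len < Lup) (h1 : ε ≤ 1 / 10 ^ 7) : C.s3 ε ≤ 10 := by
  unfold Lup at hl
  obtain ⟨j, hj⟩ := mx4_eq (fun j => C.Phi3 (Gk j))
  have a1 := C.Phi3_le (Gk j)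
  have a2 := norm_Gk j
  have a3 := C.h_le
  have a4 := C.one_le_h
  have a5 : ‖Gk j‖ * C.len ≤ 128 / 125 * C.len :=
    mul_le_mul_of_nonneg_right a2 (by linarith)
  unfold Cfg.s3
  rw [hj]
  have a6 : ε ≤ 1 / 100 := le_trans h1 (by norm_num)
  linarith

theorem m5_near {zs : Fin 9 → ℝ} (hz : Near zs) :
    (1.0151 ≤ zs 0 ∧ zs 0 ≤ 1.0152) ∧ (0.8 ≤ zs 1 ∧ zs 1 ≤ 0.9) ∧
      (-0.2 ≤ zs 2 ∧ zs 2 ≤ -0.1) := by
  have h0 := abs_le.1 (hz 0)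
  have h1 := abs_le.1 (hz 1)
  have h2 := abs_le.1 (hz 2)
  have e0 : Zv 0 = 296318340828338852460 := rfl
  have e1 : Zv 1 = 296096910571939643167 := rfl
  have e2 : Zv 2 = 294924477387754387924 := rfl
  have e : EZ = 1073741824 := rfl
  rw [e0, e] at h0
  rw [e1, e] at h1
  rw [e2, e] at h2
  unfold val mag at h0 h1 h2
  norm_num at h0 h1 h2
  refine ⟨⟨?_, ?_⟩, ⟨?_, ?_⟩, ⟨?_, ?_⟩⟩ <;> linarith [h0.1, h0.2, h1.1, h1.2, h2.1, h2.2]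

/-- The decoupled certificate. -/
theorem m5 {C R : Cfg} (ha : R.a = C.a) (hb : R.b = mir C.c) (hc : R.c = mir C.b)
    (hS : ∀ f : E → ℝ, R.S1 f = C.S3 (fun ξ => f (mir ξ)) ∧
      R.S2 f = C.S2 (fun ξ => f (mir ξ)) ∧ R.S3 f = C.S1 (fun ξ => f (mir ξ)))
    (nC : NoBad C) (nR : NoBad R) {z z' : Fin 9 → ℝ} {k k' s s' ε : ℝ} (h : Valid z k)
    (h' : Valid z' k') (hs : Share z z') (az : 0 ≤ C.a 2) (hy : C.a = C.a 2 • vec 0 (z 0) 1)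
    (hε : 0 < ε) (s0 : 0 ≤ s) (s0' : 0 ≤ s')
    (h1 : -z 1 = C.cx ε - 13 / 16 * s) (h2 : z 2 = C.cy ε + 9 / 16 * s)
    (h1' : -z' 1 = R.cx ε - 13 / 16 * s') (h2' : z' 2 = R.cy ε + 9 / 16 * s') :
    1 / 2 * (ell z + 2 * s * Yn z) + 1 / 2 * (ell z' + 2 * s' * Yn z') - ε ≤ C.len := by
  obtain ⟨j, hj⟩ := half_value nC h az hy hε s0 h1 h2
  obtain ⟨j', hj'⟩ := half_value nR h' (by rw [ha]; exact az) (by rw [ha, hs.h0]; exact hy) hε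
    s0' h1' h2'
  rw [(hS _).1, (hS _).2.1, (hS _).2.2, hb, hc, hs.eq_Lm] at hj'
  have e : ⟪mir C.b - mir C.c, zLm z⟫ = -⟪C.c - C.b, zLm z⟫ := by
    rw [← mir_sub, inner_mir_left, mir_zLm, ← inner_neg_left, neg_sub]
  rw [e] at hj'
  have d1 := m5_S1 C (n := fun ξ => ‖ξ‖) (fun ξ => dom1 h h' hs j' ξ)
  have d2 := m5_S2 C (n := fun ξ => ‖ξ‖) (fun ξ => dom2 h h' hs j j' ξ)
  have d3 := m5_S3 C (f := fun ξ => f1 z' k' (mir ξ)) (g := f3 z k j) (n := fun ξ => ‖ξ‖)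
    (fun ξ => by
      have := dom1 h' h hs.symm j (mir ξ)
      rwa [mir_mir, norm_mir] at this)
  have k1 := m5_k h
  have k2 := m5_k h'
  have k3 : ε * (k + k') ≤ ε * 1 := mul_le_mul_of_nonneg_left (by linarith) hε.le
  rw [C.len_eq]
  have d1' : C.S1 (f1 z k) + C.S1 (fun ξ => f3 z' k' j' (mir ξ)) ≤ C.S1 (fun ξ => ‖ξ‖) := d1
  have d2' : C.S2 (f2 z k j) + C.S2 (fun ξ => f2 z' k' j' (mir ξ)) ≤ C.S2 (fun ξ => ‖ξ‖) := d2
  linarith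

/-- A short configuration has a certificate at its own point of the tree. -/
theorem cert_of_good {fs : List Facet} (hf : ∀ f ∈ fs, f.Valid) {zs : Fin 9 → ℝ} (hz : Near zs)
    (hg : Good fs zs 295057833186805415936 295264998769664458752 258254417031933722624
      332041393326771929088 258254417031933722624 332041393326771929088)
    {C : Cfg} {y ε : ℝ} (hC : Loc C y) (h0 : 0 < ε) (h1 : ε ≤ 1 / 10 ^ 7) :
    ∃ (z : Fin 9 → ℝ) (k s : ℝ), Valid z k ∧ 0 ≤ s ∧ z 0 = y ∧ z 3 = zs 3 + (y - zs 0) / 2 ∧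
      z 6 = zs 6 + (y - zs 0) / 2 ∧ z 7 = zs 7 ∧ -z 1 = C.cx ε - 13 / 16 * s ∧
      z 2 = C.cy ε + 9 / 16 * s ∧ ell zs ≤ ell z + 2 * s * Yn z := by
  obtain ⟨⟨n0, n0'⟩, ⟨n1, n1'⟩, ⟨n2, n2'⟩⟩ := m5_near hz
  have hl := hC.hl
  have y1 := hC.y1
  have y2 := hC.y2
  have s0 := C.s3_nonneg h0.le
  have s1 := m5_s3_le C hl h1
  have c0 := abs_le.1 (le_trans (m5_abs_coord C.c 0) C.norm_c_le)
  have c1 := abs_le.1 (le_trans (m5_abs_coord C.c 1) C.norm_c_le)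
  unfold Lup at hl
  have ex : C.cx ε = C.c 0 - 13 / 16 * C.s3 ε := rfl
  have ey : C.cy ε = C.c 1 + 9 / 16 * C.s3 ε := rfl
  have v0 : val 295057833186805415936 = -(5 / 64) := by unfold val; norm_num
  have v1 : val 295264998769664458752 = 13 / 128 := by unfold val; norm_num
  have v2 : val 258254417031933722624 = -32 := by unfold val; norm_num
  have v3 : val 332041393326771929088 = 32 := by unfold val; norm_num
  obtain ⟨x0, hx0⟩ : ∃ x0, x0 = y - zs 0 := ⟨_, rfl⟩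
  obtain ⟨x1, hx1⟩ : ∃ x1, x1 = C.cy ε - zs 2 + 65 / 128 * x0 := ⟨_, rfl⟩
  obtain ⟨x2, hx2⟩ : ∃ x2, x2 = C.cx ε + zs 1 - 59 / 128 * x1 - 5 / 256 * x0 := ⟨_, rfl⟩
  have e0 : zs 0 + x0 = y := by rw [hx0]; ring
  have e1 : -zs 1 + (x2 + 59 / 128 * x1 + 5 / 256 * x0) = C.cx ε := by rw [hx2]; ring
  have e2 : zs 2 + x1 - 65 / 128 * x0 = C.cy ε := by rw [hx1]; ring
  have b0 : -(5 / 64) ≤ x0 := by linarith
  have b0' : x0 ≤ 13 / 128 := by linarith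
  have b1 : -12 ≤ x1 := by linarith [c1.1, c1.2]
  have b1' : x1 ≤ 12 := by linarith [c1.1, c1.2]
  have b2 : -32 ≤ x2 := by linarith [c0.1, c0.2]
  have b2' : x2 ≤ 32 := by linarith [c0.1, c0.2]
  rcases hg x0 x1 x2 (by rw [v0]; exact b0) (by rw [v1]; exact b0') (by rw [v2]; linarith)
    (by rw [v3]; linarith) (by rw [v2]; exact b2) (by rw [v3]; exact b2') with
    ⟨f, hfm, hfs⟩ | ⟨r, p, D, k, s, hs, hv, he⟩
  · rw [e0, e1, e2] at hfs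
    exact absurd (hf f hfm C y ε hC h0 h1) hfs
  · refine ⟨zOf zs x0 x1 x2 r p D s, k, s, hv, hs, e0, ?_, ?_, rfl, ?_, ?_, he⟩
    · change zs 3 + x0 / 2 = _
      rw [hx0]
    · change zs 6 + x0 / 2 = _
      rw [hx0]
    · change -(zs 1 - (x2 + 59 / 128 * x1 + 5 / 256 * x0) + 13 / 16 * s) = _
      rw [← e1]; ring
    · change zs 2 + x1 - 65 / 128 * x0 + 9 / 16 * s = _
      rw [← e2]

/-- The lower bound for the length. -/
theorem lower_main {fs : List Facet} (hf : ∀ f ∈ fs, f.Valid) {zs : Fin 9 → ℝ} (hz : Near zs)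
    (hu : ell zs ≤ Lup)
    (hg : Good fs zs 295057833186805415936 295264998769664458752 258254417031933722624
      332041393326771929088 258254417031933722624 332041393326771929088)
    (hA : ∀ C : Cfg, C.c 0 ≤ C.b 0 → C.len < Lup → ∃ y, Loc C y)
    (hB : ∀ (C : Cfg) (y : ℝ), Loc C y → NoBad C) (C : Cfg) (hm : C.c 0 ≤ C.b 0) :
    ell zs ≤ C.len := by
  by_contra hlt
  push Not at hlt
  obtain ⟨y, hC⟩ := hA C hm (lt_of_lt_of_le hlt hu)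
  obtain ⟨R, hlen, ha, hb, hc, -, hS⟩ := C.exists_rev
  have hR : Loc R y :=
    { hm := by rw [hb, hc, mir_0, mir_0]; linarith
      hl := by rw [hlen]; exact hC.hl
      az := by rw [ha]; exact hC.az
      ha := by rw [ha]; exact hC.ha
      y1 := hC.y1
      y2 := hC.y2 }
  obtain ⟨ε, h0, h1, h2⟩ : ∃ ε : ℝ, 0 < ε ∧ ε ≤ 1 / 10 ^ 7 ∧ ε < ell zs - C.len :=
    ⟨min (1 / 10 ^ 7) ((ell zs - C.len) / 2), lt_min (by norm_num) (by linarith),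
      min_le_left _ _, lt_of_le_of_lt (min_le_right _ _) (by linarith)⟩
  obtain ⟨z, k, s, hv, s0, z0', z3, z6, z7, p1, p2, hz1⟩ := cert_of_good hf hz hg hC h0 h1
  obtain ⟨z', k', s', hv', s0', z0'', z3', z6', z7', p1', p2', hz2⟩ :=
    cert_of_good hf hz hg hR h0 h1
  have hs : Share z z' :=
    ⟨by rw [z0', z0''], by rw [z3, z3'], by rw [z6, z6'], by rw [z7, z7']⟩
  have := m5 ha hb hc hS (hB C y hC) (hB R y hR) hv hv' hs hC.az.le (by rw [z0']; exact hC.ha)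
    h0 s0 s0' p1 p2 p1' p2'
  linarith

end Pool.Agent.Lib.MP_ee7495_gt.Y
end

-- part Pool.Agent.Lib.MP_ee7495_gt.Y.Main
section

set_option autoImplicit false

open scoped RealInnerProductSpace
open Real Set

namespace Pool.Agent.Lib.MP_ee7495_gt.Y

theorem main_exact : ∃ z : Fin 9 → ℝ, dist z z0 ≤ 1 / 10 ^ 6 ∧
    HasFDerivAt ell (0 : (Fin 9 → ℝ) →L[ℝ] ℝ) z ∧
    (∀ w, dist w z0 ≤ 1 / 10 ^ 6 → HasFDerivAt ell (0 : (Fin 9 → ℝ) →L[ℝ] ℝ) w → w = z) ∧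
    3.9051241622 < ell z ∧ ell z < 3.9051241623 ∧ IsGreatest BSet (1 / ell z) := by
  obtain ⟨z, hd, hz, hu, h1, h2⟩ := crit_main
  have hp : 0 < ell z := by linarith
  have hle := bset_le hp (lower_main X.facets_valid hz.near (by unfold Lup; linarith)
    (good_root hz) X.lp_loc (fun C y h => X.lp_nobad h))
  obtain ⟨b, hb, hb'⟩ := upper_main hd hz.crit hp
  refine ⟨z, hd, hz.crit, hu, h1, h2, ?_, hle⟩
  rwa [le_antisymm hb' (hle b hb)]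

end Pool.Agent.Lib.MP_ee7495_gt.Y
end
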